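import Mathlib

set_option autoImplicit false

open Finset Real MeasureTheory

namespace Pool.Agent.Lib.MP_695920_nt

/-- weighted prime sum -/
noncomputable def mert (N : ℕ) : ℝ := ∑ p ∈ (Icc 0 N).filter Nat.Prime, Real.log p / p

lemma mert_nonneg (N : ℕ) : 0 ≤ mert N := by
  unfold mert
  refine sum_nonneg fun p hp => ?_
  have : 1 ≤ (p : ℝ) := by
    have := (Finset.mem_filter.mp hp).2.one_lt.le
    exact_mod_cast this
  exact div_nonneg (Real.log_nonneg this) (by linarith)

lemma sum_div_mul_log_le (N : ℕ) :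
    ∑ p ∈ (Icc 0 N).filter Nat.Prime, ((N / p : ℕ) : ℝ) * Real.log p ≤ Real.log N.factorial := by
  rw [Real.log_nat_eq_sum_factorization, Finsupp.sum]
  have hsub : (N.factorial.factorization).support ⊆ (Icc 0 N).filter Nat.Prime := by
    intro p hp
    rw [Nat.support_factorization, Nat.mem_primeFactors] at hp
    simp only [mem_filter, mem_Icc, zero_le, true_and]
    exact ⟨(Nat.Prime.dvd_factorial hp.1).mp hp.2.1, hp.1⟩
  rw [Finset.sum_subset hsub (f := fun p => ((N.factorial.factorization p : ℕ) : ℝ) * Real.log p)]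
  · refine Finset.sum_le_sum fun p hp => ?_
    have hp' := (Finset.mem_filter.mp hp).2
    have hlog : 0 ≤ Real.log (p : ℝ) := Real.log_nonneg (by exact_mod_cast hp'.one_lt.le)
    refine mul_le_mul_of_nonneg_right ?_ hlog
    have h2 : N / p ≤ N.factorial.factorization p := by
      rw [Nat.factorization_factorial hp' (b := Nat.log p N + 1 + 1) (by omega)]
      have h1mem : 1 ∈ Finset.Ico 1 (Nat.log p N + 1 + 1) := by simp
      have := Finset.single_le_sum (f := fun i => N / p ^ i) (fun i _ => Nat.zero_le _) h1mem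
      simpa using this
    exact_mod_cast h2
  · intro p _ hp
    rw [Finsupp.notMem_support_iff] at hp
    simp [hp]

lemma mert_le (N : ℕ) (hN : 1 ≤ N) : mert N ≤ Real.log N + Real.log 4 := by
  have hNpos : (0 : ℝ) < N := by exact_mod_cast hN
  have h1 := sum_div_mul_log_le N
  have h2 : Real.log N.factorial ≤ N * Real.log N := by
    have : (N.factorial : ℝ) ≤ (N : ℝ) ^ N := by exact_mod_cast Nat.factorial_le_pow N
    calc Real.log N.factorial ≤ Real.log ((N : ℝ) ^ N) :=
          Real.log_le_log (by exact_mod_cast Nat.factorial_pos N) this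
      _ = N * Real.log N := by rw [Real.log_pow]
  have h3 : (N : ℝ) * mert N - Chebyshev.theta N ≤
      ∑ p ∈ (Icc 0 N).filter Nat.Prime, ((N / p : ℕ) : ℝ) * Real.log p := by
    have h4 : Chebyshev.theta N = ∑ p ∈ (Icc 0 N).filter Nat.Prime, Real.log p := by
      rw [Chebyshev.theta_eq_sum_Icc, Nat.floor_natCast]
    rw [h4, mert, Finset.mul_sum, ← Finset.sum_sub_distrib]
    refine Finset.sum_le_sum fun p hp => ?_
    have hp' := (Finset.mem_filter.mp hp).2
    have hppos : (0 : ℝ) < p := by exact_mod_cast hp'.pos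
    have hlog : 0 ≤ Real.log (p : ℝ) := Real.log_nonneg (by exact_mod_cast hp'.one_lt.le)
    have h5 : (N : ℝ) / p ≤ ((N / p : ℕ) : ℝ) + 1 := by
      have := Nat.lt_div_mul_add (a := N) hp'.pos
      have h6 : (N : ℝ) < ((N / p : ℕ) : ℝ) * p + p := by exact_mod_cast this
      rw [div_le_iff₀ hppos]
      linarith
    have h7 : (N : ℝ) * (Real.log p / p) = ((N : ℝ) / p) * Real.log p := by ring
    rw [h7]
    nlinarith
  have h4 : Chebyshev.theta (N : ℝ) ≤ Real.log 4 * N := Chebyshev.theta_le_log4_mul_x hNpos.le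
  have h5 : (N : ℝ) * mert N ≤ N * (Real.log N + Real.log 4) := by nlinarith
  exact le_of_mul_le_mul_left h5 hNpos

lemma sum_inv_primes_Ioc_le (y z : ℝ) (hy : 2 ≤ y) (hyz : y ≤ z) :
    ∑ p ∈ (Ioc ⌊y⌋₊ ⌊z⌋₊).filter Nat.Prime, (1 : ℝ) / p ≤
      Real.log (Real.log z / Real.log y) + 3 := by
  have hlog4 : Real.log 4 = 2 * Real.log 2 := by
    rw [show (4 : ℝ) = 2 ^ 2 by norm_num, Real.log_pow]; norm_num
  have hlog2 : 0 < Real.log 2 := Real.log_pos (by norm_num)
  have hly : Real.log 2 ≤ Real.log y := Real.log_le_log (by norm_num) hy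
  have hlz : Real.log y ≤ Real.log z := Real.log_le_log (by linarith) hyz
  have hlypos : 0 < Real.log y := by linarith
  have hlzpos : 0 < Real.log z := by linarith
  set c : ℕ → ℝ := fun k => if k.Prime then Real.log k / k else 0 with hc
  set f : ℝ → ℝ := fun t => (Real.log t)⁻¹ with hf
  have hM : ∀ N : ℕ, ∑ k ∈ Icc 0 N, c k = mert N := by
    intro N
    rw [mert, Finset.sum_filter]
  have hderiv : ∀ t ∈ Set.Icc y z, HasDerivAt f (-(t⁻¹ / (Real.log t) ^ 2)) t := by
    intro t ht
    have ht2 : 2 ≤ t := le_trans hy ht.1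
    have hlt : 0 < Real.log t := Real.log_pos (by linarith)
    have h1 : HasDerivAt f (-t⁻¹ / Real.log t ^ 2) t :=
      (Real.hasDerivAt_log (by linarith : t ≠ 0)).inv hlt.ne'
    rw [neg_div] at h1
    exact h1
  have hdiff : ∀ t ∈ Set.Icc y z, DifferentiableAt ℝ f t := fun t ht => (hderiv t ht).differentiableAt
  have hcont : ContinuousOn (fun t : ℝ => -(t⁻¹ / (Real.log t) ^ 2)) (Set.Icc y z) := by
    intro t ht
    have ht2 : 2 ≤ t := le_trans hy ht.1
    have hlt : 0 < Real.log t := Real.log_pos (by linarith)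
    have ht0 : t ≠ 0 := by linarith
    apply ContinuousAt.continuousWithinAt
    have h1 : ContinuousAt (fun t : ℝ => Real.log t) t := Real.continuousAt_log ht0
    exact ((continuousAt_id.inv₀ ht0).div (h1.pow 2) (pow_ne_zero 2 hlt.ne')).neg
  have hint : IntegrableOn (deriv f) (Set.Icc y z) := by
    refine (hcont.integrableOn_Icc).congr_fun ?_ measurableSet_Icc
    intro t ht
    exact (hderiv t ht).deriv.symm
  have key := sum_mul_eq_sub_sub_integral_mul c (by linarith : (0 : ℝ) ≤ y) hyz hdiff hint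
  have hsum : ∑ k ∈ Ioc ⌊y⌋₊ ⌊z⌋₊, f k * c k =
      ∑ p ∈ (Ioc ⌊y⌋₊ ⌊z⌋₊).filter Nat.Prime, (1 : ℝ) / p := by
    rw [Finset.sum_filter]
    refine Finset.sum_congr rfl fun p _ => ?_
    simp only [hc, hf]
    split_ifs with hp
    · have : 0 < Real.log (p : ℝ) := Real.log_pos (by exact_mod_cast hp.one_lt)
      field_simp
    · simp
  rw [hsum] at key
  rw [key, hM, hM]
  -- bound the integral
  have hbound : -∫ t in Set.Ioc y z, deriv f t * ∑ k ∈ Icc 0 ⌊t⌋₊, c k ≤
      Real.log (Real.log z / Real.log y) + Real.log 4 * ((Real.log y)⁻¹ - (Real.log z)⁻¹) := by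
    have hprim : ∀ t ∈ Set.Icc y z, HasDerivAt
        (fun t => Real.log (Real.log t) - Real.log 4 * (Real.log t)⁻¹)
        ((t⁻¹ / (Real.log t) ^ 2) * (Real.log t + Real.log 4)) t := by
      intro t ht
      have ht2 : 2 ≤ t := le_trans hy ht.1
      have hlt : 0 < Real.log t := Real.log_pos (by linarith)
      have ht0 : t ≠ 0 := by linarith
      have h1 := (Real.hasDerivAt_log ht0)
      have h2 := h1.log hlt.ne'
      have h3 := (h1.inv hlt.ne').const_mul (Real.log 4)
      have h4 := h2.sub h3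
      refine HasDerivAt.congr_deriv (f := fun t => Real.log (Real.log t) - Real.log 4 * (Real.log t)⁻¹) h4 ?_
      field_simp
      ring
    have hcont2 : ContinuousOn (fun t : ℝ => (t⁻¹ / (Real.log t) ^ 2) * (Real.log t + Real.log 4))
        (Set.Icc y z) := by
      intro t ht
      have ht2 : 2 ≤ t := le_trans hy ht.1
      have hlt : 0 < Real.log t := Real.log_pos (by linarith)
      have ht0 : t ≠ 0 := by linarith
      apply ContinuousAt.continuousWithinAt
      have h1 : ContinuousAt (fun t : ℝ => Real.log t) t := Real.continuousAt_log ht0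
      exact ((continuousAt_id.inv₀ ht0).div (h1.pow 2) (pow_ne_zero 2 hlt.ne')).mul
        (h1.add continuousAt_const)
    have hI : ∫ t in y..z, (t⁻¹ / (Real.log t) ^ 2) * (Real.log t + Real.log 4) =
        (Real.log (Real.log z) - Real.log 4 * (Real.log z)⁻¹) -
        (Real.log (Real.log y) - Real.log 4 * (Real.log y)⁻¹) := by
      apply intervalIntegral.integral_eq_sub_of_hasDerivAt
      · intro t ht
        rw [Set.uIcc_of_le hyz] at ht
        exact hprim t ht
      · apply ContinuousOn.intervalIntegrable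
        rw [Set.uIcc_of_le hyz]
        exact hcont2
    rw [← integral_neg]
    have h1 : ∫ t in Set.Ioc y z, -(deriv f t * ∑ k ∈ Icc 0 ⌊t⌋₊, c k) ≤
        ∫ t in Set.Ioc y z, (t⁻¹ / (Real.log t) ^ 2) * (Real.log t + Real.log 4) := by
      apply setIntegral_mono_on
      · apply IntegrableOn.neg
        have := integrableOn_mul_sum_Icc c (a := y) (b := z) (m := 0) (by linarith : (0:ℝ) ≤ y) hint
        exact this.mono_set Set.Ioc_subset_Icc_self
      · exact hcont2.integrableOn_Icc.mono_set Set.Ioc_subset_Icc_self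
      · exact measurableSet_Ioc
      · intro t ht
        have ht' : t ∈ Set.Icc y z := ⟨ht.1.le, ht.2⟩
        have ht2 : 2 ≤ t := le_trans hy ht'.1
        have hlt : 0 < Real.log t := Real.log_pos (by linarith)
        rw [(hderiv t ht').deriv, hM]
        have hfl : 1 ≤ ⌊t⌋₊ := by
          rw [Nat.one_le_floor_iff]; linarith
        have hm := mert_le ⌊t⌋₊ hfl
        have hlogf : Real.log (⌊t⌋₊ : ℝ) ≤ Real.log t :=
          Real.log_le_log (by exact_mod_cast hfl) (Nat.floor_le (by linarith))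
        have hpos : 0 ≤ t⁻¹ / (Real.log t) ^ 2 := by positivity
        have : mert ⌊t⌋₊ ≤ Real.log t + Real.log 4 := by linarith
        nlinarith [mul_le_mul_of_nonneg_left this hpos]
    refine h1.trans ?_
    rw [← intervalIntegral.integral_of_le hyz, hI, Real.log_div hlzpos.ne' hlypos.ne']
    apply le_of_eq
    ring
  have hfz : f z * mert ⌊z⌋₊ ≤ 1 + Real.log 4 * (Real.log z)⁻¹ := by
    have hfl : 1 ≤ ⌊z⌋₊ := by
      rw [Nat.one_le_floor_iff]; linarith
    have hm := mert_le ⌊z⌋₊ hfl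
    have hlogf : Real.log (⌊z⌋₊ : ℝ) ≤ Real.log z :=
      Real.log_le_log (by exact_mod_cast hfl) (Nat.floor_le (by linarith))
    have : mert ⌊z⌋₊ ≤ Real.log z + Real.log 4 := by linarith
    simp only [hf]
    calc (Real.log z)⁻¹ * mert ⌊z⌋₊ ≤ (Real.log z)⁻¹ * (Real.log z + Real.log 4) := by
          apply mul_le_mul_of_nonneg_left this (by positivity)
      _ = 1 + Real.log 4 * (Real.log z)⁻¹ := by field_simp
  have hfy : 0 ≤ f y * mert ⌊y⌋₊ := mul_nonneg (by simp only [hf]; positivity) (mert_nonneg _)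
  have h4 : Real.log 4 * (Real.log y)⁻¹ ≤ 2 := by
    rw [hlog4, ← div_eq_mul_inv, div_le_iff₀ hlypos]
    linarith
  linarith

lemma sum_inv_primes_le (N : ℕ) (hN : 2 ≤ N) :
    ∑ p ∈ (Icc 0 N).filter Nat.Prime, (1 : ℝ) / p ≤ Real.log (Real.log N) + 4 := by
  have h2N : (2 : ℝ) ≤ N := by exact_mod_cast hN
  have h := sum_inv_primes_Ioc_le 2 N le_rfl h2N
  have hlog2 : 0 < Real.log 2 := Real.log_pos (by norm_num)
  have hlogN : 0 < Real.log N := Real.log_pos (by linarith)
  rw [Real.log_div hlogN.ne' hlog2.ne'] at h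
  have hfl2 : ⌊(2 : ℝ)⌋₊ = 2 := by norm_num
  rw [hfl2, Nat.floor_natCast] at h
  have hsplit : (Icc 0 N).filter Nat.Prime = insert 2 ((Ioc 2 N).filter Nat.Prime) := by
    ext p
    simp only [mem_filter, mem_Icc, zero_le, true_and, mem_insert, mem_Ioc]
    constructor
    · rintro ⟨h1, h2⟩
      rcases eq_or_lt_of_le h2.two_le with h3 | h3
      · left; exact h3.symm
      · right; exact ⟨⟨h3, h1⟩, h2⟩
    · rintro (h1 | ⟨⟨h1, h2⟩, h3⟩)
      · subst h1; exact ⟨hN, Nat.prime_two⟩
      · exact ⟨h2, h3⟩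
  rw [hsplit, Finset.sum_insert (by simp)]
  -- -log log 2 ≤ 1/2
  have h3 : -Real.log (Real.log 2) ≤ 1 / 2 := by
    have : Real.exp (-(1/2)) ≤ Real.log 2 := by
      have h5 : Real.exp (-(1/2 : ℝ)) ≤ 0.61 := by
        have h6 : (1.6487 : ℝ) ≤ Real.exp (1/2) := by
          have := Real.exp_one_gt_d9
          have h7 : Real.exp (1/2) ^ 2 = Real.exp 1 := by
            rw [← Real.exp_nat_mul]; norm_num
          have h8 : 0 < Real.exp (1/2) := Real.exp_pos _
          nlinarith
        rw [Real.exp_neg]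
        rw [inv_le_comm₀ (Real.exp_pos _) (by norm_num)]
        linarith [show ((0.61:ℝ))⁻¹ ≤ 1.6487 by norm_num]
      have h9 := Real.log_two_gt_d9
      linarith
    have h10 := Real.log_le_log (Real.exp_pos _) this
    rw [Real.log_exp] at h10
    linarith
  push_cast
  linarith

lemma exp_sum_inv_le (Q : Finset ℕ) (hQ : ∀ p ∈ Q, p.Prime) :
    Real.exp (∑ p ∈ Q, (1 : ℝ) / p) ≤ Real.exp 5 * Real.log (Q.card + 3) := by
  set T : ℕ := Q.card + 3 with hT
  have hTc : ((T : ℕ) : ℝ) = (Q.card : ℝ) + 3 := by rw [hT]; push_cast; ring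
  rw [← hTc]
  have hT3 : (3 : ℝ) ≤ T := by rw [hTc]; linarith [Nat.cast_nonneg (α := ℝ) Q.card]
  have hlogT : 0 < Real.log T := Real.log_pos (by linarith)
  have h1 : ∑ p ∈ Q, (1 : ℝ) / p ≤ Real.log (Real.log T) + 5 := by
    rw [← Finset.sum_filter_add_sum_filter_not Q (fun p => p ≤ T)]
    have h2 : ∑ p ∈ Q.filter (fun p => p ≤ T), (1 : ℝ) / p ≤ Real.log (Real.log T) + 4 := by
      refine le_trans (Finset.sum_le_sum_of_subset_of_nonneg ?_ ?_)
        (sum_inv_primes_le T (by omega))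
      · intro p hp
        simp only [mem_filter] at hp
        simp only [mem_filter, mem_Icc, zero_le, true_and]
        exact ⟨hp.2, hQ p hp.1⟩
      · intro p _ _
        positivity
    have h3 : ∑ p ∈ Q.filter (fun p => ¬ p ≤ T), (1 : ℝ) / p ≤ 1 := by
      calc ∑ p ∈ Q.filter (fun p => ¬ p ≤ T), (1 : ℝ) / p
          ≤ ∑ p ∈ Q.filter (fun p => ¬ p ≤ T), (1 : ℝ) / T := by
            refine Finset.sum_le_sum fun p hp => ?_
            simp only [mem_filter, not_le] at hp
            apply one_div_le_one_div_of_le (by linarith)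
            exact_mod_cast hp.2.le
        _ = ((Q.filter (fun p => ¬ p ≤ T)).card : ℝ) * (1 / T) := by
            rw [Finset.sum_const, nsmul_eq_mul]
        _ ≤ (T : ℝ) * (1 / T) := by
            apply mul_le_mul_of_nonneg_right _ (by positivity)
            have : (Q.filter (fun p => ¬ p ≤ T)).card ≤ Q.card := Finset.card_filter_le _ _
            exact_mod_cast (by omega : (Q.filter (fun p => ¬ p ≤ T)).card ≤ T)
        _ = 1 := by
            field_simp
    linarith
  calc Real.exp (∑ p ∈ Q, (1 : ℝ) / p) ≤ Real.exp (Real.log (Real.log T) + 5) :=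
        Real.exp_le_exp.mpr h1
    _ = Real.exp 5 * Real.log T := by
        rw [Real.exp_add, Real.exp_log hlogT]; ring

lemma sum_vonMangoldt_div_sqrt_le (u : ℝ) (hu : 1 ≤ u) :
    ∑ m ∈ Icc 0 ⌊u⌋₊, (Real.sqrt m)⁻¹ * ArithmeticFunction.vonMangoldt m ≤ 11 * Real.sqrt u := by
  set c : ℕ → ℝ := fun k => ArithmeticFunction.vonMangoldt k with hc
  set f : ℝ → ℝ := fun t => (Real.sqrt t)⁻¹ with hf
  have hψ : ∀ t : ℝ, 0 ≤ t → ∑ k ∈ Icc 0 ⌊t⌋₊, c k ≤ 5.5 * t := by
    intro t ht
    rw [hc, ← Chebyshev.psi_eq_sum_Icc]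
    refine (Chebyshev.psi_le_const_mul_self ht).trans ?_
    have : Real.log 4 ≤ 1.5 := by
      rw [show (4 : ℝ) = 2 ^ 2 by norm_num, Real.log_pow]
      have := Real.log_two_lt_d9
      push_cast
      linarith
    nlinarith
  have hψ0 : ∀ N : ℕ, 0 ≤ ∑ k ∈ Icc 0 N, c k := fun N =>
    Finset.sum_nonneg fun k _ => ArithmeticFunction.vonMangoldt_nonneg
  have hderiv : ∀ t ∈ Set.Icc 1 u, HasDerivAt f (-(1 / (2 * t * Real.sqrt t))) t := by
    intro t ht
    have ht0 : 0 < t := by linarith [ht.1]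
    have hs : 0 < Real.sqrt t := Real.sqrt_pos.mpr ht0
    have h1 : HasDerivAt f (-(1 / (2 * Real.sqrt t)) / Real.sqrt t ^ 2) t :=
      (Real.hasDerivAt_sqrt ht0.ne').inv hs.ne'
    refine HasDerivAt.congr_deriv h1 ?_
    rw [Real.sq_sqrt ht0.le]
    field_simp
  have hdiff : ∀ t ∈ Set.Icc 1 u, DifferentiableAt ℝ f t := fun t ht => (hderiv t ht).differentiableAt
  have hcont : ContinuousOn (fun t : ℝ => -(1 / (2 * t * Real.sqrt t))) (Set.Icc 1 u) := by
    intro t ht
    have ht0 : 0 < t := by linarith [ht.1]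
    have hs : 0 < Real.sqrt t := Real.sqrt_pos.mpr ht0
    apply ContinuousAt.continuousWithinAt
    refine (continuousAt_const.div ?_ (by positivity)).neg
    exact (continuousAt_const.mul continuousAt_id).mul Real.continuous_sqrt.continuousAt
  have hint : IntegrableOn (deriv f) (Set.Icc 1 u) := by
    refine (hcont.integrableOn_Icc).congr_fun ?_ measurableSet_Icc
    intro t ht
    exact (hderiv t ht).deriv.symm
  have key := sum_mul_eq_sub_integral_mul₀ c (by simp [hc]) u hdiff hint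
  have hsum : ∑ m ∈ Icc 0 ⌊u⌋₊, (Real.sqrt m)⁻¹ * ArithmeticFunction.vonMangoldt m =
    ∑ k ∈ Icc 0 ⌊u⌋₊, f k * c k := rfl
  rw [hsum, key]
  have h1 : f u * ∑ k ∈ Icc 0 ⌊u⌋₊, c k ≤ 5.5 * Real.sqrt u := by
    have hs : 0 < Real.sqrt u := Real.sqrt_pos.mpr (by linarith)
    have h2 := hψ u (by linarith)
    calc f u * ∑ k ∈ Icc 0 ⌊u⌋₊, c k ≤ (Real.sqrt u)⁻¹ * (5.5 * u) :=
          mul_le_mul_of_nonneg_left h2 (by positivity)
      _ = 5.5 * Real.sqrt u := by
          rw [inv_mul_eq_iff_eq_mul₀ hs.ne']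
          have := Real.mul_self_sqrt (by linarith : (0 : ℝ) ≤ u)
          nlinarith
  have h2 : -∫ t in Set.Ioc 1 u, deriv f t * ∑ k ∈ Icc 0 ⌊t⌋₊, c k ≤ 5.5 * Real.sqrt u := by
    rw [← integral_neg]
    have hcont2 : ContinuousOn (fun t : ℝ => (5.5 / 2) * (Real.sqrt t)⁻¹) (Set.Icc 1 u) := by
      intro t ht
      have ht0 : 0 < t := by linarith [ht.1]
      have hs : 0 < Real.sqrt t := Real.sqrt_pos.mpr ht0
      apply ContinuousAt.continuousWithinAt
      exact continuousAt_const.mul (Real.continuous_sqrt.continuousAt.inv₀ hs.ne')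
    have h3 : ∫ t in Set.Ioc 1 u, -(deriv f t * ∑ k ∈ Icc 0 ⌊t⌋₊, c k) ≤
        ∫ t in Set.Ioc 1 u, (5.5 / 2) * (Real.sqrt t)⁻¹ := by
      apply setIntegral_mono_on
      · apply IntegrableOn.neg
        have := integrableOn_mul_sum_Icc c (a := 1) (b := u) (m := 0) (by norm_num : (0:ℝ) ≤ 1) hint
        exact this.mono_set Set.Ioc_subset_Icc_self
      · exact hcont2.integrableOn_Icc.mono_set Set.Ioc_subset_Icc_self
      · exact measurableSet_Ioc
      · intro t ht
        have ht' : t ∈ Set.Icc 1 u := ⟨ht.1.le, ht.2⟩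
        have ht0 : 0 < t := by linarith [ht'.1]
        have hs : 0 < Real.sqrt t := Real.sqrt_pos.mpr ht0
        rw [(hderiv t ht').deriv]
        have h4 := hψ t ht0.le
        have h5 : -(-(1 / (2 * t * Real.sqrt t)) * ∑ k ∈ Icc 0 ⌊t⌋₊, c k) =
          (1 / (2 * t * Real.sqrt t)) * ∑ k ∈ Icc 0 ⌊t⌋₊, c k := by ring
        rw [h5]
        calc (1 / (2 * t * Real.sqrt t)) * ∑ k ∈ Icc 0 ⌊t⌋₊, c k
            ≤ (1 / (2 * t * Real.sqrt t)) * (5.5 * t) :=
              mul_le_mul_of_nonneg_left h4 (by positivity)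
          _ = (5.5 / 2) * (Real.sqrt t)⁻¹ := by
              field_simp
    refine h3.trans ?_
    have hprim : ∀ t ∈ Set.Icc 1 u, HasDerivAt (fun t => 5.5 * Real.sqrt t)
        ((5.5 / 2) * (Real.sqrt t)⁻¹) t := by
      intro t ht
      have ht0 : 0 < t := by linarith [ht.1]
      have hs : 0 < Real.sqrt t := Real.sqrt_pos.mpr ht0
      refine ((Real.hasDerivAt_sqrt ht0.ne').const_mul 5.5).congr_deriv ?_
      field_simp
    have hI : ∫ t in (1 : ℝ)..u, (5.5 / 2) * (Real.sqrt t)⁻¹ =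
        5.5 * Real.sqrt u - 5.5 * Real.sqrt 1 := by
      apply intervalIntegral.integral_eq_sub_of_hasDerivAt
      · intro t ht
        rw [Set.uIcc_of_le hu] at ht
        exact hprim t ht
      · apply ContinuousOn.intervalIntegrable
        rw [Set.uIcc_of_le hu]
        exact hcont2
    rw [← intervalIntegral.integral_of_le hu, hI, Real.sqrt_one]
    linarith
  linarith

end Pool.Agent.Lib.MP_695920_nt
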