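import Mathlib

set_option autoImplicit false

open Finset ArithmeticFunction
open scoped ArithmeticFunction.zeta

namespace Pool.Agent.Lib.MP_695920_nt

/-- a real completely multiplicative function with values in `{-1,0,1}` and partial sums
bounded by `q` -/
structure IsRC (χ : ℕ → ℝ) (q : ℕ) : Prop where
  zero : χ 0 = 0
  one : χ 1 = 1
  mul : ∀ a b, χ (a * b) = χ a * χ b
  val : ∀ n, χ n = 0 ∨ χ n = 1 ∨ χ n = -1
  ram : ∀ p, p.Prime → χ p = 0 → p ∣ q
  pos : 1 ≤ q
  sum : ∀ N, |∑ n ∈ Ioc 0 N, χ n| ≤ q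

variable {χ : ℕ → ℝ} {q : ℕ}

namespace IsRC

lemma sum_Ioc (h : IsRC χ q) {B n : ℕ} (hBn : B ≤ n) : |∑ a ∈ Ioc B n, χ a| ≤ 2 * q := by
  have h1 : ∑ a ∈ Ioc 0 B, χ a + ∑ a ∈ Ioc B n, χ a = ∑ a ∈ Ioc 0 n, χ a :=
    Finset.sum_Ioc_consecutive _ (Nat.zero_le _) hBn
  have h2 := h.sum B
  have h3 := h.sum n
  rw [abs_le] at *
  constructor <;> linarith

/-- partial summation -/
lemma abel (h : IsRC χ q) (w : ℕ → ℝ) (hw : ∀ a b, 1 ≤ a → a ≤ b → w b ≤ w a)
    (hw0 : ∀ a, 0 ≤ w a) (B n : ℕ) (hBn : B ≤ n) :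
    |∑ a ∈ Ioc B n, χ a * w a| ≤ 2 * q * w (B + 1) := by
  rcases Nat.eq_or_lt_of_le hBn with rfl | hlt
  · simp only [Ioc_self, sum_empty, abs_zero]
    have := hw0 (B + 1)
    positivity
  have key : ∀ n, B + 1 ≤ n → |∑ a ∈ Ioc B n, χ a * w a - (∑ a ∈ Ioc B n, χ a) * w n| ≤
      2 * q * (w (B + 1) - w n) := by
    intro n hn
    induction n, hn using Nat.le_induction with
    | base =>
      have : Ioc B (B + 1) = {B + 1} := by
        ext x
        rw [mem_Ioc, mem_singleton]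
        omega
      rw [this]
      simp
    | succ n hn ih =>
      rw [Finset.sum_Ioc_succ_top (by omega), Finset.sum_Ioc_succ_top (by omega)]
      have h1 : ∑ a ∈ Ioc B n, χ a * w a + χ (n + 1) * w (n + 1) -
          (∑ a ∈ Ioc B n, χ a + χ (n + 1)) * w (n + 1) =
          (∑ a ∈ Ioc B n, χ a * w a - (∑ a ∈ Ioc B n, χ a) * w n) +
            (∑ a ∈ Ioc B n, χ a) * (w n - w (n + 1)) := by ring
      rw [h1]
      refine (abs_add_le _ _).trans ?_
      rw [abs_mul]
      have h2 := h.sum_Ioc (B := B) (n := n) (by omega)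
      have h3 : 0 ≤ w n - w (n + 1) := sub_nonneg.mpr (hw n (n + 1) (by omega) (by omega))
      rw [abs_of_nonneg h3]
      nlinarith [mul_le_mul_of_nonneg_right h2 h3]
  have h1 := key n hlt
  have h2 := h.sum_Ioc hBn
  have h3 : |(∑ a ∈ Ioc B n, χ a) * w n| ≤ 2 * q * w n := by
    rw [abs_mul, abs_of_nonneg (hw0 n)]
    exact mul_le_mul_of_nonneg_right h2 (hw0 n)
  have h4 : ∑ a ∈ Ioc B n, χ a * w a = (∑ a ∈ Ioc B n, χ a * w a - (∑ a ∈ Ioc B n, χ a) * w n) +
    (∑ a ∈ Ioc B n, χ a) * w n := by ring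
  rw [h4]
  refine (abs_add_le _ _).trans ?_
  linarith

/-- the arithmetic function of `χ` -/
noncomputable def af (h : IsRC χ q) : ArithmeticFunction ℝ := ⟨χ, h.zero⟩

@[simp] lemma af_apply (h : IsRC χ q) (n : ℕ) : h.af n = χ n := rfl

/-- the convolution of `1` and `χ` -/
noncomputable def g (h : IsRC χ q) : ArithmeticFunction ℝ := h.af * (ζ : ArithmeticFunction ℝ)

lemma af_mult (h : IsRC χ q) : h.af.IsMultiplicative := by
  refine ⟨h.one, fun {m n} _ => h.mul m n⟩

lemma g_mult (h : IsRC χ q) : h.g.IsMultiplicative :=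
  h.af_mult.mul isMultiplicative_zeta.natCast

lemma chi_pow (h : IsRC χ q) (p k : ℕ) : χ (p ^ k) = χ p ^ k := by
  induction k with
  | zero => simp [h.one]
  | succ k ih => rw [pow_succ, h.mul, ih, pow_succ]

lemma g_prime_pow (h : IsRC χ q) {p k : ℕ} (hp : p.Prime) : 0 ≤ h.g (p ^ k) := by
  have h1 : h.g (p ^ k) = ∑ i ∈ range (k + 1), χ p ^ i := by
    rw [g, coe_mul_zeta_apply, Nat.sum_divisors_prime_pow hp]
    apply Finset.sum_congr rfl
    intro i _
    rw [af_apply, h.chi_pow]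
  rw [h1]
  rcases h.val p with h2 | h2 | h2
  · rw [h2]
    exact Finset.sum_nonneg (fun i _ => by positivity)
  · rw [h2]
    exact Finset.sum_nonneg (fun i _ => by positivity)
  · rw [h2, neg_one_geom_sum]
    split_ifs <;> norm_num

lemma g_nonneg (h : IsRC χ q) (n : ℕ) : 0 ≤ h.g n := by
  rcases Nat.eq_zero_or_pos n with rfl | hn
  · simp
  rw [h.g_mult.multiplicative_factorization _ hn.ne', Finsupp.prod]
  apply Finset.prod_nonneg
  intro p hp
  exact h.g_prime_pow (Nat.prime_of_mem_primeFactors hp)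

lemma g_one (h : IsRC χ q) : h.g 1 = 1 := h.g_mult.map_one

lemma g_mul_log (h : IsRC χ q) (n : ℕ) :
    h.g n * Real.log n = (h.g * (vonMangoldt + h.af.pmul vonMangoldt)) n := by
  have h1 : ∀ f k : ArithmeticFunction ℝ, (f * k).pmul log = f.pmul log * k + f * k.pmul log := by
    intro f k
    ext n
    rw [pmul_apply, ArithmeticFunction.add_apply, mul_apply, mul_apply, mul_apply, Finset.sum_mul,
      ← Finset.sum_add_distrib]
    apply Finset.sum_congr rfl
    intro x hx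
    rw [pmul_apply, pmul_apply]
    obtain ⟨hx1, hx2⟩ := Nat.mem_divisorsAntidiagonal.mp hx
    have e1 : x.1 ≠ 0 := fun h0 => hx2 (by rw [← hx1, h0, zero_mul])
    have e2 : x.2 ≠ 0 := fun h0 => hx2 (by rw [← hx1, h0, mul_zero])
    have h2 : (log n : ℝ) = log x.1 + log x.2 := by
      rw [log_apply, log_apply, log_apply, ← hx1, Nat.cast_mul,
        Real.log_mul (by exact_mod_cast e1) (by exact_mod_cast e2)]
    rw [h2]
    ring
  have h3 : ∀ f k : ArithmeticFunction ℝ, h.af.pmul (f * k) = h.af.pmul f * h.af.pmul k := by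
    intro f k
    ext n
    rw [pmul_apply, mul_apply, mul_apply, Finset.mul_sum]
    apply Finset.sum_congr rfl
    intro x hx
    obtain ⟨hx1, hx2⟩ := Nat.mem_divisorsAntidiagonal.mp hx
    rw [pmul_apply, pmul_apply, af_apply, af_apply, af_apply, ← hx1, h.mul]
    ring
  have h4 : h.af.pmul (ζ : ArithmeticFunction ℝ) = h.af := by
    ext n
    rw [pmul_apply, natCoe_apply, zeta_apply]
    split_ifs with h0
    · rw [h0]; simp
    · simp
  have h5 : (ζ : ArithmeticFunction ℝ).pmul log = log := by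
    ext n
    rw [pmul_apply, natCoe_apply, zeta_apply]
    split_ifs with h0
    · rw [h0]; simp
    · simp
  have h6 : h.g.pmul log = h.g * (vonMangoldt + h.af.pmul vonMangoldt) := by
    rw [g, h1, h5, ← vonMangoldt_mul_zeta, h3, h4]
    ring
  rw [← h6, pmul_apply, log_apply]

/-- summatory function -/
noncomputable def I (h : IsRC χ q) (n : ℕ) : ℝ := ∑ k ∈ Ioc 0 n, h.g k

lemma I_eq (h : IsRC χ q) (n : ℕ) : h.I n = ∑ a ∈ Ioc 0 n, χ a * ((n / a : ℕ) : ℝ) := by
  rw [I, g, sum_Ioc_mul_zeta_eq_sum]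
  rfl

lemma one_le_I (h : IsRC χ q) {n : ℕ} (hn : 1 ≤ n) : 1 ≤ h.I n := by
  rw [I, ← h.g_one]
  exact Finset.single_le_sum (f := fun k => h.g k) (fun i _ => h.g_nonneg i)
    (mem_Ioc.mpr ⟨zero_lt_one, hn⟩)

lemma I_approx (h : IsRC χ q) {n N : ℕ} (hn : 1 ≤ n) (hnN : n ≤ N) :
    |h.I n - (∑ a ∈ Ioc 0 N, χ a * (1 / (a : ℝ))) * n| ≤ 5 * q * Real.sqrt n := by
  set B := Nat.sqrt n with hB
  have hn0 : (0 : ℝ) < n := by exact_mod_cast hn
  have hq1 : (1 : ℝ) ≤ q := by exact_mod_cast h.pos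
  have hB1 : B * B ≤ n := Nat.sqrt_le n
  have hB2 : n < (B + 1) * (B + 1) := Nat.lt_succ_sqrt n
  have hBn : B ≤ n := Nat.sqrt_le_self n
  have hsq : 0 < Real.sqrt n := Real.sqrt_pos.mpr hn0
  have hss : Real.sqrt n * Real.sqrt n = n := Real.mul_self_sqrt hn0.le
  have hBs : (B : ℝ) ≤ Real.sqrt n := by
    apply Real.le_sqrt_of_sq_le
    rw [sq]; exact_mod_cast hB1
  have hBs2 : Real.sqrt n ≤ (B : ℝ) + 1 := by
    rw [Real.sqrt_le_left (by positivity), sq]
    exact_mod_cast hB2.le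
  have hB10 : (0 : ℝ) < (B : ℝ) + 1 := by positivity
  have e1 : h.I n = ∑ a ∈ Ioc 0 B, χ a * ((n / a : ℕ) : ℝ) + ∑ a ∈ Ioc B n, χ a * ((n / a : ℕ) : ℝ) := by
    rw [h.I_eq]
    exact (Finset.sum_Ioc_consecutive _ (Nat.zero_le _) hBn).symm
  have e2 : ∑ a ∈ Ioc 0 N, χ a * (1 / (a : ℝ)) =
      ∑ a ∈ Ioc 0 B, χ a * (1 / (a : ℝ)) + ∑ a ∈ Ioc B N, χ a * (1 / (a : ℝ)) :=
    (Finset.sum_Ioc_consecutive _ (Nat.zero_le _) (hBn.trans hnN)).symm
  have e3 : h.I n - (∑ a ∈ Ioc 0 N, χ a * (1 / (a : ℝ))) * n =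
      ∑ a ∈ Ioc 0 B, χ a * (((n / a : ℕ) : ℝ) - n / a) + ∑ a ∈ Ioc B n, χ a * ((n / a : ℕ) : ℝ) -
        (∑ a ∈ Ioc B N, χ a * (1 / (a : ℝ))) * n := by
    rw [e1, e2, add_mul, Finset.sum_mul]
    have : ∑ a ∈ Ioc 0 B, χ a * (((n / a : ℕ) : ℝ) - n / a) =
      ∑ a ∈ Ioc 0 B, χ a * ((n / a : ℕ) : ℝ) - ∑ a ∈ Ioc 0 B, χ a * (1 / (a : ℝ)) * n := by
      rw [← Finset.sum_sub_distrib]
      apply Finset.sum_congr rfl
      intro a _
      ring
    rw [this]
    ring
  have b1 : |∑ a ∈ Ioc 0 B, χ a * (((n / a : ℕ) : ℝ) - n / a)| ≤ Real.sqrt n := by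
    refine (Finset.abs_sum_le_sum_abs _ _).trans ?_
    refine (Finset.sum_le_card_nsmul _ _ 1 ?_).trans ?_
    · intro a ha
      rw [mem_Ioc] at ha
      rw [abs_mul]
      have h1 : |χ a| ≤ 1 := by
        rcases h.val a with h2 | h2 | h2 <;> rw [h2] <;> norm_num
      have h2 : |((n / a : ℕ) : ℝ) - n / a| ≤ 1 := by
        have h3 : ((n / a : ℕ) : ℝ) ≤ n / a := Nat.cast_div_le
        have h4 : (n : ℝ) / a ≤ ((n / a : ℕ) : ℝ) + 1 := by
          rw [div_le_iff₀ (by exact_mod_cast ha.1)]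
          have := Nat.lt_div_mul_add (a := n) ha.1
          have h5 : n ≤ (n / a + 1) * a := by
            have := Nat.div_add_mod n a
            have := Nat.mod_lt n ha.1
            nlinarith
          exact_mod_cast h5
        rw [abs_le]
        constructor <;> linarith
      calc |χ a| * |((n / a : ℕ) : ℝ) - n / a| ≤ 1 * 1 :=
            mul_le_mul h1 h2 (abs_nonneg _) zero_le_one
        _ = 1 := by norm_num
    · simpa using hBs
  have b2 : |∑ a ∈ Ioc B n, χ a * ((n / a : ℕ) : ℝ)| ≤ 2 * q * Real.sqrt n := by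
    refine (h.abel (fun a => ((n / a : ℕ) : ℝ)) ?_ ?_ B n hBn).trans ?_
    · intro a b ha hab
      exact_mod_cast Nat.div_le_div_left hab ha
    · intro a
      positivity
    · apply mul_le_mul_of_nonneg_left _ (by positivity)
      refine (Nat.cast_div_le).trans ?_
      rw [div_le_iff₀ (by positivity)]
      push_cast
      calc (n : ℝ) = Real.sqrt n * Real.sqrt n := hss.symm
        _ ≤ Real.sqrt n * ((B : ℝ) + 1) := mul_le_mul_of_nonneg_left hBs2 hsq.le
  have b3 : |(∑ a ∈ Ioc B N, χ a * (1 / (a : ℝ))) * n| ≤ 2 * q * Real.sqrt n := by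
    rw [abs_mul, abs_of_nonneg hn0.le]
    have h1 := h.abel (fun a => 1 / (a : ℝ)) (by
      intro a b ha hab
      apply one_div_le_one_div_of_le (by exact_mod_cast ha)
      exact_mod_cast hab) (by intro a; positivity) B N (hBn.trans hnN)
    have h2 : 2 * q * (1 / ((B + 1 : ℕ) : ℝ)) ≤ 2 * q * (1 / Real.sqrt n) := by
      apply mul_le_mul_of_nonneg_left _ (by positivity)
      apply one_div_le_one_div_of_le hsq
      push_cast; exact hBs2
    calc |∑ a ∈ Ioc B N, χ a * (1 / (a : ℝ))| * n ≤ 2 * q * (1 / Real.sqrt n) * n :=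
          mul_le_mul_of_nonneg_right (h1.trans h2) hn0.le
      _ = 2 * q * (1 / Real.sqrt n) * (Real.sqrt n * Real.sqrt n) := by rw [hss]
      _ = 2 * q * Real.sqrt n := by field_simp
  rw [e3]
  have t1 := abs_sub (∑ a ∈ Ioc 0 B, χ a * (((n / a : ℕ) : ℝ) - n / a) +
    ∑ a ∈ Ioc B n, χ a * ((n / a : ℕ) : ℝ)) ((∑ a ∈ Ioc B N, χ a * (1 / (a : ℝ))) * n)
  have t2 := abs_add_le (∑ a ∈ Ioc 0 B, χ a * (((n / a : ℕ) : ℝ) - n / a))
    (∑ a ∈ Ioc B n, χ a * ((n / a : ℕ) : ℝ))
  have t3 : Real.sqrt n ≤ q * Real.sqrt n := by nlinarith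
  linarith

/-- a nonnegative density -/
lemma exists_density (h : IsRC χ q) {N : ℕ} (hN : 1 ≤ N) : ∃ c : ℝ, 0 ≤ c ∧
    (∀ n, 1 ≤ n → n ≤ N → c * n - 5 * q * Real.sqrt n ≤ h.I n) ∧
    h.I N ≤ c * N + 5 * q * Real.sqrt N := by
  set c0 := ∑ a ∈ Ioc 0 N, χ a * (1 / (a : ℝ)) with hc0
  refine ⟨max c0 0, le_max_right _ _, ?_, ?_⟩
  · intro n hn hnN
    have h1 := abs_le.mp (h.I_approx hn hnN)
    rw [← hc0] at h1
    rcases le_total 0 c0 with h2 | h2
    · rw [max_eq_left h2]; linarith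
    · rw [max_eq_right h2]
      have := h.one_le_I hn
      have : 0 ≤ 5 * (q : ℝ) * Real.sqrt n := by positivity
      linarith
  · have h1 := abs_le.mp (h.I_approx hN le_rfl)
    rw [← hc0] at h1
    have : c0 * N ≤ max c0 0 * N := mul_le_mul_of_nonneg_right (le_max_left _ _) (Nat.cast_nonneg _)
    linarith

/-- logarithmic summatory function -/
noncomputable def G (h : IsRC χ q) (n : ℕ) : ℝ := ∑ k ∈ Ioc 0 n, h.g k / k

lemma G_eq (h : IsRC χ q) (n : ℕ) :
    h.G n = h.I n / (n + 1) + ∑ k ∈ Ioc 0 n, h.I k / (k * (k + 1)) := by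
  induction n with
  | zero => simp [G, I]
  | succ n ih =>
    have hI : h.I (n + 1) = h.I n + h.g (n + 1) := by
      rw [I, I, Finset.sum_Ioc_succ_top (Nat.zero_le _)]
    have hG : h.G (n + 1) = h.G n + h.g (n + 1) / ((n + 1 : ℕ) : ℝ) := by
      rw [G, G, Finset.sum_Ioc_succ_top (Nat.zero_le _)]
    rw [hG, ih, Finset.sum_Ioc_succ_top (Nat.zero_le _), hI]
    push_cast
    have h1 : (n : ℝ) + 1 ≠ 0 := by positivity
    have h2 : (n : ℝ) + 1 + 1 ≠ 0 := by positivity
    field_simp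
    ring

lemma sum_three_halves (T n : ℕ) (hT : 1 ≤ T) (hTn : T ≤ n) :
    ∑ k ∈ Ioc T n, Real.sqrt k / (k * (k + 1)) ≤ 2 / Real.sqrt T - 2 / Real.sqrt n := by
  induction n, hTn using Nat.le_induction with
  | base => simp
  | succ n hn ih =>
    rw [Finset.sum_Ioc_succ_top hn]
    have hn0 : (0 : ℝ) < n := by exact_mod_cast hT.trans hn
    have hs : 0 < Real.sqrt n := Real.sqrt_pos.mpr hn0
    have hs1 : 0 < Real.sqrt (n + 1) := Real.sqrt_pos.mpr (by linarith)
    have hss : Real.sqrt n * Real.sqrt n = n := Real.mul_self_sqrt hn0.le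
    have hss1 : Real.sqrt (n + 1) * Real.sqrt (n + 1) = n + 1 :=
      Real.mul_self_sqrt (by linarith)
    have hle : Real.sqrt n ≤ Real.sqrt (n + 1) := Real.sqrt_le_sqrt (by linarith)
    have key : Real.sqrt (n + 1) / ((n + 1) * (n + 1 + 1)) ≤ 2 / Real.sqrt n - 2 / Real.sqrt (n + 1) := by
      set a := Real.sqrt n
      set b := Real.sqrt (n + 1)
      have e1 : 2 / a - 2 / b = 2 * (b - a) / (a * b) := by
        field_simp
      have e2 : (b - a) * (b + a) = 1 := by nlinarith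
      have e3 : 0 < b - a := by
        by_contra hcon
        push Not at hcon
        nlinarith
      rw [e1, div_le_div_iff₀ (by positivity) (by positivity)]
      have e4 : b * (a * b) = a * (n + 1) := by rw [← hss1]; ring
      rw [e4]
      -- a (n+1) ≤ 2 (b-a) (n+1)(n+2)
      have e5 : a ≤ 2 * (b - a) * (n + 1 + 1) := by
        have e6 : a * (b + a) ≤ 2 * (n + 1 + 1) := by nlinarith
        nlinarith [mul_le_mul_of_nonneg_left e6 e3.le]
      nlinarith
    push_cast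
    linarith

lemma G_lower (h : IsRC χ q) {N n T : ℕ} {c : ℝ} (hc : 0 ≤ c)
    (hI : ∀ n, 1 ≤ n → n ≤ N → c * n - 5 * q * Real.sqrt n ≤ h.I n)
    (hT : 1 ≤ T) (hTn : T ≤ n) (hnN : n ≤ N) :
    1 - 1 / ((T : ℝ) + 1) - 10 * q / Real.sqrt T + c * Real.log (((n : ℝ) + 2) / (T + 2)) ≤ h.G n := by
  rw [h.G_eq]
  have h0 : 0 ≤ h.I n / (n + 1) := by
    have := h.one_le_I (hT.trans hTn)
    positivity
  have hsplit : ∑ k ∈ Ioc 0 n, h.I k / (k * (k + 1)) =
      ∑ k ∈ Ioc 0 T, h.I k / (k * (k + 1)) + ∑ k ∈ Ioc T n, h.I k / (k * (k + 1)) :=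
    (Finset.sum_Ioc_consecutive _ (Nat.zero_le _) hTn).symm
  have h1 : ∀ T : ℕ, 1 - 1 / ((T : ℝ) + 1) ≤ ∑ k ∈ Ioc 0 T, h.I k / (k * (k + 1)) := by
    intro T
    induction T with
    | zero => simp
    | succ T ih =>
      rw [Finset.sum_Ioc_succ_top (Nat.zero_le _)]
      have h2 := h.one_le_I (n := T + 1) (by omega)
      have h3 : (1 : ℝ) / (((T + 1 : ℕ) : ℝ) * (((T + 1 : ℕ) : ℝ) + 1)) ≤
          h.I (T + 1) / (((T + 1 : ℕ) : ℝ) * (((T + 1 : ℕ) : ℝ) + 1)) := by
        apply div_le_div_of_nonneg_right h2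
        positivity
      have h4 : (1 : ℝ) / (((T + 1 : ℕ) : ℝ) * (((T + 1 : ℕ) : ℝ) + 1)) =
        1 / ((T : ℝ) + 1) - 1 / (((T + 1 : ℕ) : ℝ) + 1) := by
        push_cast
        have h1 : (T : ℝ) + 1 ≠ 0 := by positivity
        have h2 : (T : ℝ) + 1 + 1 ≠ 0 := by positivity
        field_simp
        ring
      linarith
  have h2 : c * Real.log (((n : ℝ) + 2) / (T + 2)) - 10 * q / Real.sqrt T ≤
      ∑ k ∈ Ioc T n, h.I k / (k * (k + 1)) := by
    have h3 : ∀ k ∈ Ioc T n, c * Real.log (((k : ℝ) + 2) / (k + 1)) -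
        5 * q * (Real.sqrt k / (k * (k + 1))) ≤ h.I k / (k * (k + 1)) := by
      intro k hk
      rw [mem_Ioc] at hk
      have hk0 : (0 : ℝ) < k := by exact_mod_cast (by omega : 0 < k)
      have h4 := hI k (by omega) (by omega)
      have h5 : (c * k - 5 * q * Real.sqrt k) / (k * (k + 1)) ≤ h.I k / (k * (k + 1)) :=
        div_le_div_of_nonneg_right h4 (by positivity)
      have h6 : (c * k - 5 * q * Real.sqrt k) / (k * (k + 1)) =
        c * (1 / (k + 1)) - 5 * q * (Real.sqrt k / (k * (k + 1))) := by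
        field_simp
      have h7 : Real.log (((k : ℝ) + 2) / (k + 1)) ≤ 1 / (k + 1) := by
        have h8 := Real.log_le_sub_one_of_pos (x := ((k : ℝ) + 2) / (k + 1)) (by positivity)
        have h9 : ((k : ℝ) + 2) / (k + 1) - 1 = 1 / (k + 1) := by
          field_simp
          ring
        linarith
      have h8 := mul_le_mul_of_nonneg_left h7 hc
      linarith
    have h4 := Finset.sum_le_sum h3
    rw [Finset.sum_sub_distrib, ← Finset.mul_sum, ← Finset.mul_sum] at h4
    have h5 : ∑ k ∈ Ioc T n, Real.log (((k : ℝ) + 2) / (k + 1)) =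
        Real.log (((n : ℝ) + 2) / (T + 2)) := by
      clear h4 h3 hsplit h0 hnN
      induction n, hTn using Nat.le_induction with
      | base =>
        rw [Ioc_self, sum_empty, div_self (by positivity), Real.log_one]
      | succ n hn ih =>
        rw [Finset.sum_Ioc_succ_top hn, ih, ← Real.log_mul (by positivity) (by positivity)]
        congr 1
        push_cast
        have h1 : (n : ℝ) + 1 + 1 ≠ 0 := by positivity
        have h2 : (T : ℝ) + 2 ≠ 0 := by positivity
        field_simp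
        ring
    rw [h5] at h4
    have h6 := sum_three_halves T n hT hTn
    have h7 : 0 ≤ 2 / Real.sqrt n := by positivity
    have h8 : 5 * (q : ℝ) * ∑ k ∈ Ioc T n, Real.sqrt k / (k * (k + 1)) ≤ 5 * q * (2 / Real.sqrt T) :=
      mul_le_mul_of_nonneg_left (by linarith) (by positivity)
    have h9 : 5 * (q : ℝ) * (2 / Real.sqrt T) = 10 * q / Real.sqrt T := by ring
    linarith
  have h3 := h1 T
  linarith

/-- the weighted prime sum -/
noncomputable def Ps (h : IsRC χ q) (k : ℕ) : ℝ :=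
  ∑ d ∈ Ioc 0 k, (vonMangoldt + h.af.pmul vonMangoldt) d

lemma abs_chi_le (h : IsRC χ q) (n : ℕ) : |χ n| ≤ 1 := by
  rcases h.val n with h2 | h2 | h2 <;> rw [h2] <;> norm_num

lemma Ps_term_nonneg (h : IsRC χ q) (d : ℕ) : 0 ≤ (vonMangoldt + h.af.pmul vonMangoldt) d := by
  rw [ArithmeticFunction.add_apply, pmul_apply, af_apply]
  have h1 : 0 ≤ vonMangoldt d := vonMangoldt_nonneg
  have h2 := (abs_le.mp (h.abs_chi_le d)).1
  nlinarith

lemma Ps_nonneg (h : IsRC χ q) (k : ℕ) : 0 ≤ h.Ps k :=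
  Finset.sum_nonneg (fun d _ => h.Ps_term_nonneg d)

lemma sum_g_log (h : IsRC χ q) (N : ℕ) :
    ∑ n ∈ Ioc 0 N, h.g n * Real.log n = ∑ m ∈ Ioc 0 N, h.g m * h.Ps (N / m) := by
  rw [Finset.sum_congr rfl (fun n _ => h.g_mul_log n), sum_Ioc_mul_eq_sum_sum]
  rfl

lemma bad_sum_le (h : IsRC χ q) (k N : ℕ) (hk : k ≤ N) (S : Finset ℕ)
    (hS : ∀ p, p.Prime → p ≤ N → χ p ≠ 1 → p ∈ S) :
    ∑ d ∈ Ioc 0 k, (1 - χ d) * vonMangoldt d ≤ 2 * S.card * Real.log N := by
  classical
  set T := (Ioc 0 k).filter (fun d => IsPrimePow d ∧ χ d ≠ 1) with hT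
  have h1 : ∑ d ∈ Ioc 0 k, (1 - χ d) * vonMangoldt d ≤ ∑ d ∈ T, 2 * vonMangoldt d := by
    rw [hT, Finset.sum_filter]
    apply Finset.sum_le_sum
    intro d _
    split_ifs with hd
    · have h2 := (abs_le.mp (h.abs_chi_le d)).1
      apply mul_le_mul_of_nonneg_right _ vonMangoldt_nonneg
      linarith
    · rw [not_and_or, not_not] at hd
      rcases hd with hd | hd
      · rw [vonMangoldt_apply, if_neg hd, mul_zero]
      · rw [hd]; simp
  refine h1.trans ?_
  have hmaps : ∀ d ∈ T, d.minFac ∈ S := by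
    intro d hd
    rw [hT, mem_filter, mem_Ioc] at hd
    obtain ⟨⟨hd0, hdk⟩, hpp, hchi⟩ := hd
    have hd1 : d ≠ 1 := hpp.ne_one
    have hp := Nat.minFac_prime hd1
    apply hS _ hp ((Nat.minFac_le hd0).trans (hdk.trans hk))
    intro hcon
    obtain ⟨j, hj⟩ : ∃ j, d = d.minFac ^ j := ⟨_, (hpp.minFac_pow_factorization_eq).symm⟩
    apply hchi
    rw [hj, h.chi_pow, hcon, one_pow]
  rw [← Finset.sum_fiberwise_of_maps_to hmaps]
  have h2 : ∀ p ∈ S, ∑ d ∈ T.filter (fun d => d.minFac = p), 2 * vonMangoldt d ≤ 2 * Real.log N := by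
    intro p _
    by_cases hTe : T.filter (fun d => d.minFac = p) = ∅
    · rw [hTe]
      simp only [sum_empty]
      positivity
    obtain ⟨d0, hd0⟩ := Finset.nonempty_iff_ne_empty.mpr hTe
    have hp : p.Prime := by
      rw [mem_filter, hT, mem_filter] at hd0
      rw [← hd0.2]
      exact Nat.minFac_prime hd0.1.2.1.ne_one
    have hval : ∀ d ∈ T.filter (fun d => d.minFac = p), d ≤ N ∧ 0 < d ∧
        d = p ^ d.factorization p ∧ vonMangoldt d = Real.log p ∧ 1 ≤ d.factorization p := by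
      intro d hd
      rw [mem_filter, hT, mem_filter, mem_Ioc] at hd
      obtain ⟨⟨⟨hd0, hdk⟩, hpp, hchi⟩, hmin⟩ := hd
      have e1 : d = p ^ d.factorization p := by
        have := hpp.minFac_pow_factorization_eq
        rw [hmin] at this
        exact this.symm
      refine ⟨hdk.trans hk, hd0, e1, ?_, ?_⟩
      · rw [vonMangoldt_apply, if_pos hpp, hmin]
      · by_contra hcon
        push Not at hcon
        have : d.factorization p = 0 := by omega
        rw [this, pow_zero] at e1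
        exact hpp.ne_one e1
    have hN1 : 1 ≤ N := by
      obtain ⟨h3, h4, _⟩ := hval d0 hd0
      omega
    have hinj : Set.InjOn (fun d : ℕ => d.factorization p)
        (T.filter (fun d => d.minFac = p) : Set ℕ) := by
      intro a ha b hb hab
      have ha' := (hval a ha).2.2.1
      have hb' := (hval b hb).2.2.1
      simp only at hab
      rw [ha', hb', hab]
    have hcard : (T.filter (fun d => d.minFac = p)).card ≤ Nat.log p N := by
      have h3 : (T.filter (fun d => d.minFac = p)).card ≤ (Icc 1 (Nat.log p N)).card := by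
        apply Finset.card_le_card_of_injOn (fun d : ℕ => d.factorization p) _ hinj
        intro d hd
        obtain ⟨h3, h4, h5, _, h6⟩ := hval d hd
        rw [mem_coe, mem_Icc]
        refine ⟨h6, ?_⟩
        apply Nat.le_log_of_pow_le hp.one_lt
        rw [← h5]
        exact h3
      simpa using h3
    rw [Finset.sum_congr rfl (fun d hd => by rw [(hval d hd).2.2.2.1]), Finset.sum_const, nsmul_eq_mul]
    have h3 : (Nat.log p N : ℝ) * Real.log p ≤ Real.log N := by
      rw [← Real.log_pow]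
      apply Real.log_le_log (by
        have := hp.pos
        positivity)
      exact_mod_cast Nat.pow_log_le_self p (by omega)
    have h4 : ((T.filter (fun d => d.minFac = p)).card : ℝ) ≤ Nat.log p N := by exact_mod_cast hcard
    have h5 : 0 ≤ Real.log p := Real.log_natCast_nonneg p
    nlinarith [mul_le_mul_of_nonneg_right h4 h5]
  refine (Finset.sum_le_sum h2).trans ?_
  rw [Finset.sum_const, nsmul_eq_mul]
  linarith

lemma Ps_lower (h : IsRC χ q) (k N : ℕ) (hk : k ≤ N) (S : Finset ℕ)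
    (hS : ∀ p, p.Prime → p ≤ N → χ p ≠ 1 → p ∈ S) :
    2 * (k * Real.log 2) - 2 * Real.log (N + 1) - 2 * S.card * Real.log N ≤ h.Ps k := by
  have h1 := h.bad_sum_le k N hk S hS
  have h2 : h.Ps k = 2 * Chebyshev.psi k - ∑ d ∈ Ioc 0 k, (1 - χ d) * vonMangoldt d := by
    rw [Ps, Chebyshev.psi, Nat.floor_natCast, Finset.mul_sum, ← Finset.sum_sub_distrib]
    apply Finset.sum_congr rfl
    intro d _
    rw [ArithmeticFunction.add_apply, pmul_apply, af_apply]
    ring
  have h3 := Chebyshev.psi_ge k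
  have h4 : Real.log (k + 1) ≤ Real.log (N + 1) := by
    apply Real.log_le_log (by positivity)
    have : (k : ℝ) ≤ N := by exact_mod_cast hk
    linarith
  rw [h2]
  linarith

theorem many_inert (h : IsRC χ q) {N : ℕ} {w : ℝ} (hw : 1000 ≤ w) (hN : (N : ℝ) = w ^ 300)
    (hq : (q : ℝ) ≤ w ^ 3) :
    w ^ 50 ≤ ((Ioc 0 N).filter (fun p => p.Prime ∧ χ p = -1)).card := by
  classical
  by_contra hcon
  push Not at hcon
  set Q := (Ioc 0 N).filter (fun p => p.Prime ∧ χ p = -1) with hQ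
  have hw0 : 0 < w := by linarith
  have hw1 : 1 ≤ w := by linarith
  have hNpos : (0 : ℝ) < N := by rw [hN]; positivity
  have hN1 : 1 ≤ N := by exact_mod_cast hNpos
  have hq1 : (1 : ℝ) ≤ q := by exact_mod_cast h.pos
  have hlogN : Real.log N = 300 * Real.log w := by rw [hN, Real.log_pow]; norm_num
  have hlogw : Real.log w ≤ w := (Real.log_le_sub_one_of_pos hw0).trans (by linarith)
  have hlogw6 : 6 ≤ Real.log w := by
    rw [Real.le_log_iff_exp_le hw0]
    have h1 : Real.exp 6 = (Real.exp 1) ^ 6 := by rw [← Real.exp_nat_mul]; norm_num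
    have h2 : Real.exp 1 ≤ 2.72 := by linarith [Real.exp_one_lt_d9]
    have h3 : (Real.exp 1) ^ 6 ≤ 2.72 ^ 6 := pow_le_pow_left₀ (Real.exp_pos 1).le h2 6
    rw [h1]
    refine h3.trans (le_trans ?_ hw)
    norm_num
  have hlog2 : 0.6931 ≤ Real.log 2 := by linarith [Real.log_two_gt_d9]
  have hlog2' : Real.log 2 ≤ 1 := by linarith [Real.log_two_lt_d9]
  have hw9 : (10 : ℝ) ^ 27 ≤ w ^ 9 := by
    calc (10 : ℝ) ^ 27 = 1000 ^ 9 := by norm_num
      _ ≤ w ^ 9 := pow_le_pow_left₀ (by norm_num) hw 9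
  -- the exceptional set
  set S := Q ∪ q.primeFactors with hS
  have hScard : (S.card : ℝ) ≤ w ^ 50 + w ^ 3 := by
    have h1 : S.card ≤ Q.card + q.primeFactors.card := Finset.card_union_le _ _
    have h2 : q.primeFactors.card ≤ q := by
      have : q.primeFactors ⊆ Icc 1 q := by
        intro p hp
        rw [mem_Icc]
        exact ⟨(Nat.prime_of_mem_primeFactors hp).one_le, Nat.le_of_mem_primeFactors hp⟩
      simpa using Finset.card_le_card this
    have h3 : (S.card : ℝ) ≤ Q.card + q.primeFactors.card := by exact_mod_cast h1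
    have h4 : (q.primeFactors.card : ℝ) ≤ q := by exact_mod_cast h2
    linarith
  have hSprop : ∀ p, p.Prime → p ≤ N → χ p ≠ 1 → p ∈ S := by
    intro p hp hpN hchi
    rw [hS, mem_union]
    rcases h.val p with h2 | h2 | h2
    · right
      rw [Nat.mem_primeFactors]
      exact ⟨hp, h.ram p hp h2, by have := h.pos; omega⟩
    · exact absurd h2 hchi
    · left
      rw [hQ, mem_filter, mem_Ioc]
      exact ⟨⟨hp.pos, hpN⟩, hp, h2⟩
  -- the error term
  have hE : 2 * Real.log 2 + 2 * Real.log (N + 1) + 2 * S.card * Real.log N ≤ 0.016 * w ^ 60 := by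
    have h1 : Real.log (N + 1) ≤ 1 + 300 * w := by
      have h2 : Real.log ((N : ℝ) + 1) ≤ Real.log (2 * N) := by
        apply Real.log_le_log (by positivity)
        have : (1 : ℝ) ≤ N := by exact_mod_cast hN1
        linarith
      rw [Real.log_mul (by norm_num) hNpos.ne', hlogN] at h2
      linarith
    have h2 : 2 * (S.card : ℝ) * Real.log N ≤ 2 * (w ^ 50 + w ^ 3) * (300 * w) := by
      rw [hlogN]
      have : 0 ≤ Real.log w := by linarith
      apply mul_le_mul _ _ (by positivity) (by positivity)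
      · linarith
      · linarith
    have h3 : w ^ 60 = w ^ 9 * w ^ 51 := by ring
    have h4 : (1 : ℝ) ≤ w ^ 51 := one_le_pow₀ hw1
    have h5 : w ≤ w ^ 51 := le_self_pow₀ hw1 (by norm_num)
    have h6 : w ^ 4 ≤ w ^ 51 := pow_le_pow_right₀ hw1 (by norm_num)
    have h7 : 2 * (w ^ 50 + w ^ 3) * (300 * w) = 600 * w ^ 51 + 600 * w ^ 4 := by ring
    have h8 : (10 : ℝ) ^ 27 * w ^ 51 ≤ w ^ 60 := by
      rw [h3]
      exact mul_le_mul_of_nonneg_right hw9 (by positivity)
    have h9 : 2 * Real.log 2 + 2 * Real.log (N + 1) + 2 * S.card * Real.log N ≤ 3000 * w ^ 51 := by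
      linarith
    have h10 : (3000 : ℝ) * w ^ 51 ≤ 0.016 * ((10 : ℝ) ^ 27 * w ^ 51) := by
      have : (3000 : ℝ) ≤ 0.016 * (10 : ℝ) ^ 27 := by norm_num
      nlinarith [mul_le_mul_of_nonneg_right this (le_trans zero_le_one h4)]
    linarith
  -- the cut-off
  set V := ⌊w ^ 240⌋₊ with hV
  have hV1 : (V : ℝ) ≤ w ^ 240 := Nat.floor_le (by positivity)
  have hV2 : w ^ 240 < (V : ℝ) + 1 := Nat.lt_floor_add_one _
  have hVN : V ≤ N := by
    have : (V : ℝ) ≤ N := by
      rw [hN]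
      exact hV1.trans (pow_le_pow_right₀ hw1 (by norm_num))
    exact_mod_cast this
  have hPs : ∀ m ∈ Ioc 0 V, 1.37 * (N / m : ℝ) ≤ h.Ps (N / m) := by
    intro m hm
    rw [mem_Ioc] at hm
    have hm0 : (0 : ℝ) < m := by exact_mod_cast hm.1
    have h1 := h.Ps_lower (N / m) N (Nat.div_le_self N m) S hSprop
    have h2 : (N : ℝ) / m ≤ ((N / m : ℕ) : ℝ) + 1 := by
      rw [div_le_iff₀ hm0]
      have h5 : N ≤ (N / m + 1) * m := by
        have := Nat.div_add_mod N m
        have := Nat.mod_lt N hm.1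
        nlinarith
      exact_mod_cast h5
    have h3 : w ^ 60 ≤ (N : ℝ) / m := by
      rw [le_div_iff₀ hm0, hN]
      have h4 : (m : ℝ) ≤ w ^ 240 := le_trans (by exact_mod_cast hm.2) hV1
      calc w ^ 60 * m ≤ w ^ 60 * w ^ 240 := mul_le_mul_of_nonneg_left h4 (by positivity)
        _ = w ^ 300 := by ring
    have h4 : ((N : ℝ) / m - 1) * Real.log 2 ≤ ((N / m : ℕ) : ℝ) * Real.log 2 :=
      mul_le_mul_of_nonneg_right (by linarith) (by linarith)
    have h5 : (N : ℝ) / m * 0.6931 ≤ (N : ℝ) / m * Real.log 2 :=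
      mul_le_mul_of_nonneg_left hlog2 (by positivity)
    have h6 : (0 : ℝ) ≤ (N : ℝ) / m := by positivity
    linarith
  -- combine
  obtain ⟨c, hc0, hcl, hcu⟩ := h.exists_density hN1
  have hmain : 1.37 * N * h.G V ≤ Real.log N * (c * N + 5 * q * Real.sqrt N) := by
    have h1 : 1.37 * N * h.G V ≤ ∑ m ∈ Ioc 0 V, h.g m * h.Ps (N / m) := by
      rw [G, Finset.mul_sum]
      apply Finset.sum_le_sum
      intro m hm
      have h2 := mul_le_mul_of_nonneg_left (hPs m hm) (h.g_nonneg m)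
      refine le_trans (le_of_eq ?_) h2
      ring
    have h2 : ∑ m ∈ Ioc 0 V, h.g m * h.Ps (N / m) ≤ ∑ m ∈ Ioc 0 N, h.g m * h.Ps (N / m) := by
      apply Finset.sum_le_sum_of_subset_of_nonneg
      · exact Finset.Ioc_subset_Ioc_right hVN
      · intro m _ _
        exact mul_nonneg (h.g_nonneg m) (h.Ps_nonneg _)
    have h3 : ∑ n ∈ Ioc 0 N, h.g n * Real.log n ≤ Real.log N * h.I N := by
      rw [I, Finset.mul_sum]
      apply Finset.sum_le_sum
      intro n hn
      rw [mem_Ioc] at hn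
      rw [mul_comm]
      apply mul_le_mul_of_nonneg_right _ (h.g_nonneg n)
      apply Real.log_le_log (by exact_mod_cast hn.1)
      exact_mod_cast hn.2
    rw [h.sum_g_log] at h3
    have h4 : Real.log N * h.I N ≤ Real.log N * (c * N + 5 * q * Real.sqrt N) :=
      mul_le_mul_of_nonneg_left hcu (Real.log_natCast_nonneg N)
    linarith
  -- lower bound for G
  set T := 10 ^ 6 * q ^ 2 with hT
  have hTr : (T : ℝ) = 10 ^ 6 * (q : ℝ) ^ 2 := by rw [hT]; push_cast; ring
  have hT1 : 1 ≤ T := by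
    have := h.pos
    have : 1 ≤ q ^ 2 := Nat.one_le_pow _ _ h.pos
    omega
  have hq2 : (q : ℝ) ^ 2 ≤ w ^ 6 := by
    calc (q : ℝ) ^ 2 ≤ (w ^ 3) ^ 2 := pow_le_pow_left₀ (by positivity) hq 2
      _ = w ^ 6 := by ring
  have hTw : (T : ℝ) ≤ w ^ 8 := by
    rw [hTr]
    have : (10 : ℝ) ^ 6 ≤ w ^ 2 := by
      calc (10 : ℝ) ^ 6 = 1000 ^ 2 := by norm_num
        _ ≤ w ^ 2 := pow_le_pow_left₀ (by norm_num) hw 2
    calc (10 : ℝ) ^ 6 * (q : ℝ) ^ 2 ≤ w ^ 2 * w ^ 6 := mul_le_mul this hq2 (by positivity) (by positivity)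
      _ = w ^ 8 := by ring
  have hTV : T ≤ V := by
    have h1 : w ^ 8 + 1 ≤ w ^ 240 := by
      have h2 : w ^ 9 ≤ w ^ 240 := pow_le_pow_right₀ hw1 (by norm_num)
      have h3 : w ^ 9 = w * w ^ 8 := by ring
      have h4 : (1 : ℝ) ≤ w ^ 8 := one_le_pow₀ hw1
      nlinarith
    have h2 : (T : ℝ) < (V : ℝ) + 1 := by linarith
    have : T < V + 1 := by exact_mod_cast h2
    omega
  have hG := h.G_lower hc0 hcl hT1 hTV hVN
  have hsT : Real.sqrt T = 1000 * q := by
    rw [hTr, show (10 : ℝ) ^ 6 * (q : ℝ) ^ 2 = (1000 * q) ^ 2 by ring]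
    exact Real.sqrt_sq (by positivity)
  have h1 : 10 * (q : ℝ) / Real.sqrt T = 0.01 := by
    rw [hsT]
    field_simp
    norm_num
  have h2 : 1 / ((T : ℝ) + 1) ≤ 0.01 := by
    rw [div_le_iff₀ (by positivity), hTr]
    nlinarith
  have h3 : 0.77 * Real.log N ≤ Real.log (((V : ℝ) + 2) / (T + 2)) := by
    rw [Real.log_div (by positivity) (by positivity), hlogN]
    have h4 : 240 * Real.log w ≤ Real.log ((V : ℝ) + 2) := by
      have : Real.log (w ^ 240) ≤ Real.log ((V : ℝ) + 2) :=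
        Real.log_le_log (by positivity) (by linarith)
      rwa [Real.log_pow] at this
    have h5 : Real.log ((T : ℝ) + 2) ≤ 9 * Real.log w := by
      have h6 : Real.log ((T : ℝ) + 2) ≤ Real.log (w ^ 9) := by
        apply Real.log_le_log (by positivity)
        have h3 : w ^ 9 = w * w ^ 8 := by ring
        have h4 : (1 : ℝ) ≤ w ^ 8 := one_le_pow₀ hw1
        nlinarith
      rwa [Real.log_pow] at h6
    linarith
  have h4 := mul_le_mul_of_nonneg_left h3 hc0
  have hGl : 0.98 + 0.77 * (c * Real.log N) ≤ h.G V := by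
    rw [h1] at hG
    linarith
  have hsN : Real.sqrt N = w ^ 150 := by
    rw [hN, show w ^ 300 = (w ^ 150) ^ 2 by ring]
    exact Real.sqrt_sq (by positivity)
  have hfin : 1.37 * N * (0.98 + 0.77 * (c * Real.log N)) ≤
      Real.log N * (c * N + 5 * q * Real.sqrt N) := by
    refine le_trans ?_ hmain
    exact mul_le_mul_of_nonneg_left hGl (by positivity)
  have hX : 0 ≤ N * (c * Real.log N) := by
    have : 0 ≤ Real.log N := Real.log_natCast_nonneg N
    positivity
  have h5 : 1.34 * (N : ℝ) ≤ Real.log N * (5 * q * Real.sqrt N) := by nlinarith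
  have h6 : Real.log N * (5 * q * Real.sqrt N) ≤ 1500 * w ^ 154 := by
    rw [hlogN, hsN]
    calc 300 * Real.log w * (5 * q * w ^ 150) ≤ 300 * w * (5 * w ^ 3 * w ^ 150) := by
          have : 0 ≤ Real.log w := by linarith
          gcongr
      _ = 1500 * w ^ 154 := by ring
  have h7 : (1500 : ℝ) * w ^ 154 < 1.34 * N := by
    rw [hN]
    have h8 : w ^ 300 = w ^ 146 * w ^ 154 := by ring
    have h9 : w ^ 9 ≤ w ^ 146 := pow_le_pow_right₀ hw1 (by norm_num)
    have h10 : (2000 : ℝ) ≤ w ^ 146 := by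
      refine le_trans ?_ (hw9.trans h9)
      norm_num
    have h11 : (0 : ℝ) < w ^ 154 := by positivity
    rw [h8]
    nlinarith [mul_le_mul_of_nonneg_right h10 h11.le]
  linarith

end IsRC

end Pool.Agent.Lib.MP_695920_nt
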