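import Mathlib
import Pool.Agent.Lib.MP_695920_nt.RealChar

set_option autoImplicit false

open Finset
open scoped NumberTheorySymbols

namespace Pool.Agent.Lib.MP_695920_nt

/-- the Jacobi symbol as a function of an odd denominator, zero at even numbers -/
noncomputable def jchi (d : ℤ) (n : ℕ) : ℝ := if Odd n then (jacobiSym d n : ℝ) else 0

lemma jchi_odd {d : ℤ} {n : ℕ} (hn : Odd n) : jchi d n = (jacobiSym d n : ℝ) := if_pos hn

lemma jchi_mul (d : ℤ) (a b : ℕ) : jchi d (a * b) = jchi d a * jchi d b := by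
  unfold jchi
  by_cases ha : Odd a
  · by_cases hb : Odd b
    · rw [if_pos (ha.mul hb), if_pos ha, if_pos hb,
        jacobiSym.mul_right' d (Nat.ne_of_odd_add (by simpa using ha)) (Nat.ne_of_odd_add (by simpa using hb))]
      push_cast; ring
    · rw [if_neg hb, if_neg (fun h => hb (Nat.odd_mul.mp h).2), mul_zero]
  · rw [if_neg ha, if_neg (fun h => ha (Nat.odd_mul.mp h).1), zero_mul]

lemma jchi_periodic (d : ℤ) (n : ℕ) : jchi d (n + 4 * d.natAbs) = jchi d n := by
  unfold jchi
  have h1 : Odd (n + 4 * d.natAbs) ↔ Odd n := by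
    rw [Nat.odd_add]
    constructor
    · intro h
      exact h.mpr ⟨2 * d.natAbs, by ring⟩
    · intro h
      exact ⟨fun _ => ⟨2 * d.natAbs, by ring⟩, fun _ => h⟩
  by_cases hn : Odd n
  · rw [if_pos (h1.mpr hn), if_pos hn, jacobiSym.mod_right d (h1.mpr hn), jacobiSym.mod_right d hn,
      Nat.add_mod_right]
  · rw [if_neg (fun h => hn (h1.mp h)), if_neg hn]

lemma jchi_mod (d : ℤ) (n : ℕ) : jchi d (n % (4 * d.natAbs)) = jchi d n := by
  have h : Function.Periodic (jchi d) (4 * d.natAbs) := fun n => jchi_periodic d n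
  exact h.map_mod_nat n

lemma exists_neg (d : ℤ) (hd : Squarefree d) (hd1 : d ≠ 1) :
    ∃ n : ℕ, Odd n ∧ jacobiSym d n = -1 := by
  by_cases hex : ∃ p : ℕ, p.Prime ∧ p ≠ 2 ∧ (p : ℤ) ∣ d
  · obtain ⟨p, hp, hp2, d', rfl⟩ := hex
    haveI : Fact p.Prime := ⟨hp⟩
    have hpodd : Odd p := hp.odd_of_ne_two hp2
    have hd0 : (p : ℤ) * d' ≠ 0 := hd.ne_zero
    have hd'0 : d' ≠ 0 := fun h => hd0 (by rw [h, mul_zero])
    have hpd' : ¬ p ∣ d'.natAbs := by
      intro h
      have h1 : (p : ℤ) ∣ d' := Int.natCast_dvd.mpr h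
      obtain ⟨e, he⟩ := h1
      have h2 := hd (p : ℤ) ⟨e, by rw [he]; ring⟩
      rw [Int.isUnit_iff] at h2
      have := hp.two_le
      omega
    obtain ⟨a, ha⟩ : ∃ a : ZMod p, ¬ IsSquare a := FiniteField.exists_nonsquare (by
      rw [ZMod.ringChar_zmod_n]; exact hp2)
    have hcop : Nat.Coprime (8 * d'.natAbs) p := by
      apply Nat.Coprime.symm
      rw [hp.coprime_iff_not_dvd]
      intro h
      rcases (hp.dvd_mul).mp h with h1 | h1
      · have : p ∣ 2 ^ 3 := by simpa using h1
        have := hp.dvd_of_dvd_pow this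
        have := (Nat.prime_dvd_prime_iff_eq hp Nat.prime_two).mp this
        exact hp2 this
      · exact hpd' h1
    obtain ⟨n, hn1, hn2⟩ := Nat.chineseRemainder hcop 1 a.val
    have hn8 : n % 8 = 1 := by
      have h1 : n ≡ 1 [MOD 8] := hn1.of_mul_right _
      exact h1
    have hnodd : Odd n := by rw [Nat.odd_iff]; omega
    refine ⟨n, hnodd, ?_⟩
    rw [jacobiSym.mul_left]
    have e1 : jacobiSym d' n = 1 := by
      rw [jacobiSym.mod_right d' hnodd]
      have h1 : n ≡ 1 [MOD 4 * d'.natAbs] := by
        apply hn1.of_dvd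
        exact ⟨2, by ring⟩
      have h2 : n % (4 * d'.natAbs) = 1 := by
        have h3 : n % (4 * d'.natAbs) = 1 % (4 * d'.natAbs) := h1
        rw [h3]
        apply Nat.mod_eq_of_lt
        have := Int.natAbs_pos.mpr hd'0
        omega
      rw [h2, jacobiSym.one_right]
    have e2 : jacobiSym (p : ℤ) n = -1 := by
      rw [jacobiSym.quadratic_reciprocity_one_mod_four' hpodd (by omega), ← jacobiSym.legendreSym.to_jacobiSym,
        legendreSym.eq_neg_one_iff]
      have h1 : ((n : ℤ) : ZMod p) = a := by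
        rw [Int.cast_natCast]
        have h2 : (n : ZMod p) = (a.val : ZMod p) := (ZMod.natCast_eq_natCast_iff n a.val p).mpr hn2
        rw [h2, ZMod.natCast_zmod_val]
      rw [h1]
      exact ha
    rw [e1, e2]; norm_num
  · push Not at hex
    have hsq : Squarefree d.natAbs := Int.squarefree_natAbs.mpr hd
    have hd0 : d.natAbs ≠ 0 := hsq.ne_zero
    obtain ⟨k, hpow⟩ : ∃ k, d.natAbs = 2 ^ k := by
      refine ⟨_, Nat.eq_prime_pow_of_unique_prime_dvd hd0 ?_⟩
      intro p hp hpd
      by_contra hne
      exact hex p hp hne (Int.natCast_dvd.mpr hpd)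
    have hle : k ≤ 1 := by
      by_contra hcon
      push Not at hcon
      have h1 : 2 * 2 ∣ d.natAbs := by
        rw [hpow, ← sq]
        exact pow_dvd_pow 2 hcon
      have h2 := hsq 2 h1
      rw [Nat.isUnit_iff] at h2
      norm_num at h2
    have hcase : d.natAbs = 1 ∨ d.natAbs = 2 := by
      interval_cases k
      · left; rw [hpow]; rfl
      · right; rw [hpow]; rfl
    rcases hcase with h | h
    · have : d = -1 := by omega
      subst this
      exact ⟨3, by decide, by norm_num⟩
    · have : d = 2 ∨ d = -2 := by omega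
      rcases this with rfl | rfl
      · exact ⟨3, by decide, by norm_num⟩
      · exact ⟨5, by decide, by norm_num⟩

lemma jchi_sum_period (d : ℤ) (hd : Squarefree d) (hd1 : d ≠ 1) :
    ∑ n ∈ range (4 * d.natAbs), jchi d n = 0 := by
  obtain ⟨n0, hn0, hJ⟩ := exists_neg d hd hd1
  set q := 4 * d.natAbs with hq
  have hd0 : 0 < d.natAbs := Int.natAbs_pos.mpr hd.ne_zero
  haveI : NeZero q := ⟨by omega⟩
  have h1 : ∑ n ∈ range q, jchi d n = ∑ r : ZMod q, jchi d r.val := by
    rw [← Fin.sum_univ_eq_sum_range]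
    have hequiv : ∀ (q : ℕ) [NeZero q] (f : ℕ → ℝ), ∑ i : Fin q, f i = ∑ r : ZMod q, f r.val := by
      intro q hq f
      cases q with
      | zero => exact absurd rfl hq.out
      | succ q => rfl
    exact hequiv q _
  have hcop : Nat.Coprime n0 q := by
    have h2 : d.gcd n0 = 1 := by
      by_contra hcon
      have h3 : jacobiSym d n0 = 0 := jacobiSym.eq_zero_iff.mpr
        ⟨by rintro rfl; exact absurd hn0 (by decide), hcon⟩
      rw [h3] at hJ
      norm_num at hJ
    have h3 : Nat.Coprime n0 d.natAbs := by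
      rw [Nat.coprime_comm]
      exact h2
    have h4 : Nat.Coprime n0 4 := by
      rw [show (4 : ℕ) = 2 ^ 2 by norm_num]
      exact Nat.Coprime.pow_right 2 (Nat.coprime_two_right.mpr hn0)
    exact Nat.Coprime.mul_right h4 h3
  let u := ZMod.unitOfCoprime n0 hcop
  have h2 : ∑ r : ZMod q, jchi d r.val = ∑ r : ZMod q, jchi d ((u : ZMod q) * r).val := by
    exact (Equiv.sum_comp (Units.mulLeft u) (fun r : ZMod q => jchi d r.val)).symm
  have h3 : ∀ r : ZMod q, jchi d ((u : ZMod q) * r).val = - jchi d r.val := by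
    intro r
    have e1 : ((u : ZMod q) * r).val = (n0 * r.val) % q := by
      rw [ZMod.coe_unitOfCoprime]
      have : (n0 : ZMod q) * r = ((n0 * r.val : ℕ) : ZMod q) := by
        push_cast
        rw [ZMod.natCast_zmod_val]
      rw [this, ZMod.val_natCast]
    have e2 : jchi d (n0 * r.val % q) = jchi d (n0 * r.val) := jchi_mod d _
    rw [e1, e2, jchi_mul, jchi_odd hn0, hJ]
    push_cast; ring
  have h4 : ∑ r : ZMod q, jchi d r.val = - ∑ r : ZMod q, jchi d r.val := by
    conv_lhs => rw [h2]
    rw [← Finset.sum_neg_distrib]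
    exact Finset.sum_congr rfl (fun r _ => h3 r)
  rw [h1]
  linarith

lemma isRC_jchi (d : ℤ) (hd : Squarefree d) (hd1 : d ≠ 1) : IsRC (jchi d) (4 * d.natAbs) := by
  have hd0 : 0 < d.natAbs := Int.natAbs_pos.mpr hd.ne_zero
  have hval : ∀ n, jchi d n = 0 ∨ jchi d n = 1 ∨ jchi d n = -1 := by
    intro n
    unfold jchi
    split_ifs
    · rcases jacobiSym.trichotomy d n with h | h | h <;> rw [h] <;> simp
    · left; rfl
  refine ⟨?_, ?_, jchi_mul d, hval, ?_, by omega, ?_⟩
  · unfold jchi
    rw [if_neg (by decide)]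
  · rw [jchi_odd (by decide), jacobiSym.one_right]
    norm_num
  · intro p hp h0
    by_cases hp2 : p = 2
    · rw [hp2]
      exact ⟨2 * d.natAbs, by ring⟩
    · have hodd := hp.odd_of_ne_two hp2
      rw [jchi_odd hodd] at h0
      have h1 : jacobiSym d p = 0 := by exact_mod_cast h0
      rw [jacobiSym.eq_zero_iff] at h1
      have h2 : ¬ Nat.Coprime d.natAbs p := h1.2
      have h3 : p ∣ d.natAbs := by
        rw [Nat.coprime_comm, hp.coprime_iff_not_dvd, not_not] at h2
        exact h2
      exact Dvd.dvd.mul_left h3 4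
  · intro N
    have h1 := jchi_sum_period d hd hd1
    have hper : ∀ n, jchi d (n + 4 * d.natAbs) = jchi d n := jchi_periodic d
    have hq0 : 0 < 4 * d.natAbs := by omega
    generalize 4 * d.natAbs = q at h1 hper hq0
    have hstep : ∀ M, ∑ n ∈ range (q + M), jchi d n = ∑ n ∈ range M, jchi d n := by
      intro M
      rw [Finset.sum_range_add, h1, zero_add]
      apply Finset.sum_congr rfl
      intro i _
      rw [add_comm, hper]
    have hbound : ∀ M, |∑ n ∈ range M, jchi d n| ≤ q := by
      intro M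
      induction M using Nat.strong_induction_on with
      | _ M ih =>
        by_cases hM : M < q
        · refine (Finset.abs_sum_le_sum_abs _ _).trans ?_
          refine (Finset.sum_le_card_nsmul _ _ 1 ?_).trans ?_
          · intro n _
            rcases hval n with h | h | h <;> rw [h] <;> norm_num
          · simp only [card_range, nsmul_eq_mul, mul_one]
            exact_mod_cast hM.le
        · push Not at hM
          obtain ⟨M', rfl⟩ := Nat.exists_eq_add_of_le hM
          rw [hstep]
          exact ih M' (by omega)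
    have hz : jchi d 0 = 0 := by
      unfold jchi
      rw [if_neg (by decide)]
    have h2 : ∑ n ∈ Ioc 0 N, jchi d n = ∑ n ∈ range (N + 1), jchi d n := by
      rw [Finset.sum_range_succ', hz, add_zero]
      rw [← Finset.sum_image (s := range N) (g := fun i => i + 1) (f := jchi d)
        (by intro a _ b _ h; simpa using h)]
      apply Finset.sum_congr _ (fun _ _ => rfl)
      ext x
      simp only [mem_Ioc, mem_image, mem_range]
      constructor
      · intro ⟨h, h'⟩
        exact ⟨x - 1, by omega, by omega⟩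
      · rintro ⟨a, ha, rfl⟩
        omega
    rw [h2]
    exact hbound _

end Pool.Agent.Lib.MP_695920_nt
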