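import Mathlib
import Pool.Agent.Lib.MP_695920_nt.JacobiChar

/-!
# Real characters with the same sign at most small primes are rare (part A)
-/

set_option autoImplicit false

open Finset
open scoped NumberTheorySymbols

namespace Pool.Agent.Lib.MP_695920_nt

lemma jchi_val (d : ℤ) (n : ℕ) : jchi d n = 0 ∨ jchi d n = 1 ∨ jchi d n = -1 := by
  unfold jchi
  split_ifs
  · rcases jacobiSym.trichotomy d n with h | h | h <;> rw [h] <;> simp
  · left; rfl

lemma jchi_mul_left (d e : ℤ) (n : ℕ) : jchi (d * e) n = jchi d n * jchi e n := by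
  unfold jchi
  split_ifs
  · rw [jacobiSym.mul_left]; push_cast; ring
  · simp

lemma jchi_one (d : ℤ) : jchi d 1 = 1 := by
  rw [jchi_odd (by decide), jacobiSym.one_right]
  norm_num

/-- a nonsquare integer has a symbol `-1` somewhere -/
lemma exists_neg' (D : ℤ) (hD0 : D ≠ 0) (hD : ¬ IsSquare D) :
    ∃ n : ℕ, Odd n ∧ jacobiSym D n = -1 := by
  obtain ⟨a', b, hb, ha⟩ := Nat.sq_mul_squarefree D.natAbs
  have hDabs : D.natAbs ≠ 0 := Int.natAbs_ne_zero.mpr hD0
  have hb0 : b ≠ 0 := by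
    rintro rfl
    apply hDabs
    rw [← hb]; ring
  obtain ⟨a, ha1, ha2⟩ : ∃ a : ℤ, D = a * (b : ℤ) ^ 2 ∧ a.natAbs = a' := by
    rcases Int.natAbs_eq D with h | h
    · exact ⟨(a' : ℤ), by rw [h, ← hb]; push_cast; ring, by simp⟩
    · exact ⟨-(a' : ℤ), by rw [h, ← hb]; push_cast; ring, by simp⟩
  have hsq : Squarefree a := by
    rw [← Int.squarefree_natAbs, ha2]; exact ha
  have hane : a ≠ 1 := by
    rintro rfl
    apply hD
    exact ⟨b, by rw [ha1]; ring⟩
  obtain ⟨n, hn, hJ⟩ := exists_neg a hsq hane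
  have ha0 : 0 < a.natAbs := Int.natAbs_pos.mpr hsq.ne_zero
  have : NeZero (4 * a.natAbs) := ⟨by omega⟩
  have hcop : Nat.Coprime n (4 * a.natAbs) := by
    have h2 : a.gcd n = 1 := by
      by_contra hcon
      have h3 : jacobiSym a n = 0 := jacobiSym.eq_zero_iff.mpr
        ⟨by rintro rfl; exact absurd hn (by decide), hcon⟩
      rw [h3] at hJ
      norm_num at hJ
    have h3 : Nat.Coprime n a.natAbs := by
      rw [Nat.coprime_comm]
      exact h2
    have h4 : Nat.Coprime n 4 := by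
      rw [show (4 : ℕ) = 2 ^ 2 by norm_num]
      exact Nat.Coprime.pow_right 2 (Nat.coprime_two_right.mpr hn)
    exact Nat.Coprime.mul_right h4 h3
  obtain ⟨p, hpb, hp, hpn⟩ := Nat.forall_exists_prime_gt_and_eq_mod
    ((ZMod.isUnit_iff_coprime n (4 * a.natAbs)).mpr hcop) (max b 2)
  have hp2 : p ≠ 2 := by
    have := le_max_right b 2
    omega
  have hodd := hp.odd_of_ne_two hp2
  refine ⟨p, hodd, ?_⟩
  have hmod : p % (4 * a.natAbs) = n % (4 * a.natAbs) :=
    (ZMod.natCast_eq_natCast_iff' p n (4 * a.natAbs)).mp hpn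
  have hJp : jacobiSym a p = -1 := by
    rw [jacobiSym.mod_right a hodd, hmod, ← jacobiSym.mod_right a hn, hJ]
  rw [ha1, jacobiSym.mul_left, hJp, jacobiSym.pow_left]
  have hcopb : (b : ℤ).gcd p = 1 := by
    rw [Int.gcd_natCast_natCast]
    rw [← Nat.coprime_iff_gcd_eq_one, Nat.coprime_comm, hp.coprime_iff_not_dvd]
    intro h
    have := Nat.le_of_dvd (Nat.pos_of_ne_zero hb0) h
    have := le_max_left b 2
    omega
  rw [jacobiSym.sq_one hcopb]
  norm_num

/-- partial sums of the symbol of a nonsquare are bounded -/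
lemma jchi_sum_le (d : ℤ) (hd0 : d ≠ 0) (hd : ¬ IsSquare d) (N : ℕ) :
    |∑ n ∈ Ioc 0 N, jchi d n| ≤ 4 * d.natAbs := by
  obtain ⟨n0, hn0, hJ⟩ := exists_neg' d hd0 hd
  set q := 4 * d.natAbs with hq
  have hd0' : 0 < d.natAbs := Int.natAbs_pos.mpr hd0
  have : NeZero q := ⟨by omega⟩
  have h1 : ∑ n ∈ range q, jchi d n = ∑ r : ZMod q, jchi d r.val := by
    rw [← Fin.sum_univ_eq_sum_range]
    have hequiv : ∀ (q : ℕ) [NeZero q] (f : ℕ → ℝ), ∑ i : Fin q, f i = ∑ r : ZMod q, f r.val := by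
      intro q hq f
      cases q with
      | zero => exact absurd rfl hq.out
      | succ q => rfl
    exact hequiv q _
  have hcop : Nat.Coprime n0 q := by
    have h2 : d.gcd n0 = 1 := by
      by_contra hcon
      have h3 : jacobiSym d n0 = 0 := jacobiSym.eq_zero_iff.mpr
        ⟨by rintro rfl; exact absurd hn0 (by decide), hcon⟩
      rw [h3] at hJ
      norm_num at hJ
    have h3 : Nat.Coprime n0 d.natAbs := by
      rw [Nat.coprime_comm]
      exact h2
    have h4 : Nat.Coprime n0 4 := by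
      rw [show (4 : ℕ) = 2 ^ 2 by norm_num]
      exact Nat.Coprime.pow_right 2 (Nat.coprime_two_right.mpr hn0)
    exact Nat.Coprime.mul_right h4 h3
  let u := ZMod.unitOfCoprime n0 hcop
  have h2 : ∑ r : ZMod q, jchi d r.val = ∑ r : ZMod q, jchi d ((u : ZMod q) * r).val := by
    exact (Equiv.sum_comp (Units.mulLeft u) (fun r : ZMod q => jchi d r.val)).symm
  have h3 : ∀ r : ZMod q, jchi d ((u : ZMod q) * r).val = - jchi d r.val := by
    intro r
    have e1 : ((u : ZMod q) * r).val = (n0 * r.val) % q := by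
      rw [ZMod.coe_unitOfCoprime]
      have : (n0 : ZMod q) * r = ((n0 * r.val : ℕ) : ZMod q) := by
        push_cast
        rw [ZMod.natCast_zmod_val]
      rw [this, ZMod.val_natCast]
    have e2 : jchi d (n0 * r.val % q) = jchi d (n0 * r.val) := jchi_mod d _
    rw [e1, e2, jchi_mul, jchi_odd hn0, hJ]
    push_cast; ring
  have h4 : ∑ r : ZMod q, jchi d r.val = - ∑ r : ZMod q, jchi d r.val := by
    conv_lhs => rw [h2]
    rw [← Finset.sum_neg_distrib]
    exact Finset.sum_congr rfl (fun r _ => h3 r)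
  have h5 : ∑ n ∈ range q, jchi d n = 0 := by
    rw [h1]; linarith
  have hper : ∀ n, jchi d (n + q) = jchi d n := jchi_periodic d
  have hq0 : 0 < q := by omega
  have hcast : (4 : ℝ) * d.natAbs = (q : ℝ) := by rw [hq]; push_cast; ring
  rw [hcast]
  clear_value q
  have hstep : ∀ M, ∑ n ∈ range (q + M), jchi d n = ∑ n ∈ range M, jchi d n := by
    intro M
    rw [Finset.sum_range_add, h5, zero_add]
    apply Finset.sum_congr rfl
    intro i _
    rw [add_comm, hper]
  have hbound : ∀ M, |∑ n ∈ range M, jchi d n| ≤ q := by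
    intro M
    induction M using Nat.strong_induction_on with
    | _ M ih =>
      by_cases hM : M < q
      · refine (Finset.abs_sum_le_sum_abs _ _).trans ?_
        refine (Finset.sum_le_card_nsmul _ _ 1 ?_).trans ?_
        · intro n _
          rcases jchi_val d n with h | h | h <;> rw [h] <;> norm_num
        · simp only [card_range, nsmul_eq_mul, mul_one]
          exact_mod_cast hM.le
      · push Not at hM
        obtain ⟨M', rfl⟩ := Nat.exists_eq_add_of_le hM
        rw [hstep]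
        exact ih M' (by omega)
  have hz : jchi d 0 = 0 := by
    unfold jchi
    rw [if_neg (by decide)]
  have h6 : ∑ n ∈ Ioc 0 N, jchi d n = ∑ n ∈ range (N + 1), jchi d n := by
    rw [Finset.sum_range_succ', hz, add_zero]
    rw [← Finset.sum_image (s := range N) (g := fun i => i + 1) (f := jchi d)
      (by intro a _ b _ h; simpa using h)]
    apply Finset.sum_congr _ (fun _ _ => rfl)
    ext x
    simp only [mem_Ioc, mem_image, mem_range]
    constructor
    · intro ⟨h, h'⟩
      exact ⟨x - 1, by omega, by omega⟩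
    · rintro ⟨a, ha, rfl⟩
      omega
  rw [h6]
  exact hbound _

/-! ### products of `k` primes -/

/-- the number of ways to write `n` as an ordered product of `k` elements of `P` -/
def repk (P : Finset ℕ) : ℕ → ℕ → ℕ
  | 0, n => if n = 1 then 1 else 0
  | k + 1, n => ∑ q ∈ P.filter (fun q => q ∣ n), repk P k (n / q)

lemma repk_sum (P : Finset ℕ) (Y : ℕ) (hP : ∀ q ∈ P, 0 < q ∧ q ≤ Y) (χ : ℕ → ℝ) (h1 : χ 1 = 1)
    (hmul : ∀ a b, χ (a * b) = χ a * χ b) (k : ℕ) : ∀ N : ℕ, Y ^ k ≤ N →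
    ∑ n ∈ Ioc 0 N, (repk P k n : ℝ) * χ n = (∑ q ∈ P, χ q) ^ k := by
  induction k with
  | zero =>
    intro N hN
    rw [pow_zero] at hN
    rw [Finset.sum_eq_single 1]
    · simp [repk, h1]
    · intro b _ hb
      simp [repk, hb]
    · intro h
      exact absurd (mem_Ioc.mpr ⟨Nat.one_pos, hN⟩) h
  | succ k ih =>
    intro N hN
    have e1 : ∀ n ∈ Ioc 0 N, (repk P (k + 1) n : ℝ) * χ n =
        ∑ q ∈ P, if q ∣ n then (repk P k (n / q) : ℝ) * χ n else 0 := by
      intro n _
      rw [repk]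
      push_cast
      rw [Finset.sum_mul, Finset.sum_filter]
    rw [Finset.sum_congr rfl e1, Finset.sum_comm, pow_succ', Finset.sum_mul]
    apply Finset.sum_congr rfl
    intro q hq
    obtain ⟨hq0, hqY⟩ := hP q hq
    have hNq : Y ^ k ≤ N / q := by
      rw [Nat.le_div_iff_mul_le hq0]
      calc Y ^ k * q ≤ Y ^ k * Y := Nat.mul_le_mul_left _ hqY
        _ = Y ^ (k + 1) := by ring
        _ ≤ N := hN
    rw [← ih (N / q) hNq, Finset.mul_sum, ← Finset.sum_filter]
    symm
    apply Finset.sum_bij (fun m _ => q * m)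
    · intro m hm
      rw [mem_Ioc] at hm
      rw [mem_filter, mem_Ioc]
      refine ⟨⟨Nat.mul_pos hq0 hm.1, ?_⟩, Dvd.intro _ rfl⟩
      calc q * m ≤ q * (N / q) := Nat.mul_le_mul_left _ hm.2
        _ ≤ N := Nat.mul_div_le N q
    · intro a _ b _ hab
      exact Nat.eq_of_mul_eq_mul_left hq0 hab
    · intro n hn
      rw [mem_filter, mem_Ioc] at hn
      obtain ⟨⟨hn0, hnN⟩, m, rfl⟩ := hn
      refine ⟨m, ?_, rfl⟩
      rw [mem_Ioc]
      refine ⟨Nat.pos_of_mul_pos_left hn0, ?_⟩
      rw [Nat.le_div_iff_mul_le hq0]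
      linarith
    · intro m _
      rw [Nat.mul_div_cancel_left m hq0, hmul]
      ring

lemma repk_support (P : Finset ℕ) (hP : ∀ q ∈ P, q.Prime) (k : ℕ) : ∀ n : ℕ, repk P k n ≠ 0 →
    n ≠ 0 ∧ n.primeFactorsList.length = k := by
  induction k with
  | zero =>
    intro n hn
    rw [repk] at hn
    have : n = 1 := by
      by_contra h
      rw [if_neg h] at hn
      exact hn rfl
    subst this
    simp
  | succ k ih =>
    intro n hn
    rw [repk] at hn
    obtain ⟨q, hq, hr⟩ := Finset.exists_ne_zero_of_sum_ne_zero hn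
    rw [mem_filter] at hq
    obtain ⟨h0, hlen⟩ := ih _ hr
    obtain ⟨hqP, m, rfl⟩ := hq
    have hqp := hP q hqP
    rw [Nat.mul_div_cancel_left m hqp.pos] at h0 hlen
    refine ⟨Nat.mul_ne_zero hqp.ne_zero h0, ?_⟩
    have := (Nat.perm_primeFactorsList_mul hqp.ne_zero h0).length_eq
    rw [this, List.length_append, Nat.primeFactorsList_prime hqp, hlen]
    simp [add_comm]

lemma repk_le (P : Finset ℕ) (hP : ∀ q ∈ P, q.Prime) (k : ℕ) : ∀ n : ℕ,
    repk P k n ≤ k.factorial := by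
  induction k with
  | zero =>
    intro n
    rw [repk]
    split_ifs <;> simp
  | succ k ih =>
    intro n
    by_cases hn : repk P (k + 1) n = 0
    · rw [hn]; exact Nat.zero_le _
    · obtain ⟨hn0, hlen⟩ := repk_support P hP (k + 1) n hn
      rw [repk]
      have hcard : (P.filter (fun q => q ∣ n)).card ≤ k + 1 := by
        calc (P.filter (fun q => q ∣ n)).card ≤ n.primeFactors.card := by
              apply Finset.card_le_card
              intro q hq
              rw [mem_filter] at hq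
              exact Nat.mem_primeFactors.mpr ⟨hP q hq.1, hq.2, hn0⟩
          _ ≤ n.primeFactorsList.length := by
              unfold Nat.primeFactors
              exact List.toFinset_card_le _
          _ = k + 1 := hlen
      calc ∑ q ∈ P.filter (fun q => q ∣ n), repk P k (n / q)
          ≤ ∑ q ∈ P.filter (fun q => q ∣ n), k.factorial := Finset.sum_le_sum fun q _ => ih _
        _ = (P.filter (fun q => q ∣ n)).card * k.factorial := by
            rw [Finset.sum_const, smul_eq_mul]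
        _ ≤ (k + 1) * k.factorial := Nat.mul_le_mul_right _ hcard
        _ = (k + 1).factorial := (Nat.factorial_succ k).symm

/-- The duality inequality: few real characters are biased on the primes of `P`. -/
lemma few_biased (P : Finset ℕ) (hP : ∀ q ∈ P, q.Prime) (Y : ℕ) (hPY : ∀ q ∈ P, q ≤ Y) (k Z : ℕ)
    (ε : ℝ) (hε : ε = 1 ∨ ε = -1) (I : Finset ℤ) (hI : ∀ d ∈ I, Squarefree d ∧ d.natAbs ≤ Z ∧
      (P.card : ℝ) / 2 ≤ ε * ∑ q ∈ P, jchi d q) :
    (I.card : ℝ) * (P.card : ℝ) ^ k ≤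
      4 ^ k * k.factorial * ((Y : ℝ) ^ k + 4 * (Z : ℝ) ^ 2 * I.card) := by
  classical
  have hPpos : ∀ q ∈ P, 0 < q ∧ q ≤ Y := fun q hq => ⟨(hP q hq).pos, hPY q hq⟩
  set N := Y ^ k with hN
  set R : ℝ := (P.card : ℝ) with hR
  have hR0 : 0 ≤ R := Nat.cast_nonneg _
  -- the moments
  have hmom : ∀ d : ℤ, ∑ n ∈ Ioc 0 N, (repk P k n : ℝ) * jchi d n = (∑ q ∈ P, jchi d q) ^ k :=
    fun d => repk_sum P Y hPpos (jchi d) (jchi_one d) (jchi_mul d) k N le_rfl
  have hcount : ∑ n ∈ Ioc 0 N, (repk P k n : ℝ) = R ^ k := by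
    have h := repk_sum P Y hPpos (fun _ => 1) rfl (fun _ _ => by norm_num) k N le_rfl
    simpa [hR] using h
  have hsq : ∑ n ∈ Ioc 0 N, (repk P k n : ℝ) ^ 2 ≤ k.factorial * R ^ k := by
    rw [← hcount, Finset.mul_sum]
    apply Finset.sum_le_sum
    intro n _
    have h1 : (repk P k n : ℝ) ≤ k.factorial := by exact_mod_cast repk_le P hP k n
    have h2 : (0 : ℝ) ≤ repk P k n := Nat.cast_nonneg _
    nlinarith
  -- lower bound of the sum of correlations
  have hlow : (I.card : ℝ) * (R / 2) ^ k ≤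
      ∑ n ∈ Ioc 0 N, (repk P k n : ℝ) * (ε ^ k * ∑ d ∈ I, jchi d n) := by
    have e1 : ∑ n ∈ Ioc 0 N, (repk P k n : ℝ) * (ε ^ k * ∑ d ∈ I, jchi d n) =
        ∑ d ∈ I, (ε * ∑ q ∈ P, jchi d q) ^ k := by
      calc ∑ n ∈ Ioc 0 N, (repk P k n : ℝ) * (ε ^ k * ∑ d ∈ I, jchi d n) =
          ∑ n ∈ Ioc 0 N, ∑ d ∈ I, ε ^ k * ((repk P k n : ℝ) * jchi d n) := by
            apply Finset.sum_congr rfl
            intro n _
            rw [Finset.mul_sum, Finset.mul_sum]
            apply Finset.sum_congr rfl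
            intro d _
            ring
        _ = ∑ d ∈ I, ε ^ k * ∑ n ∈ Ioc 0 N, (repk P k n : ℝ) * jchi d n := by
            rw [Finset.sum_comm]
            apply Finset.sum_congr rfl
            intro d _
            rw [Finset.mul_sum]
        _ = _ := by
            apply Finset.sum_congr rfl
            intro d _
            rw [hmom, mul_pow]
    rw [e1, ← nsmul_eq_mul]
    apply Finset.card_nsmul_le_sum
    intro d hd
    exact pow_le_pow_left₀ (by positivity) (hI d hd).2.2 k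
  -- upper bound of the square function
  have hup : ∑ n ∈ Ioc 0 N, (ε ^ k * ∑ d ∈ I, jchi d n) ^ 2 ≤
      I.card * (Y : ℝ) ^ k + (I.card : ℝ) ^ 2 * (4 * (Z : ℝ) ^ 2) := by
    have hε2 : (ε ^ k) ^ 2 = 1 := by
      rcases hε with h | h <;> rw [h]
      · simp
      · rw [← pow_mul, mul_comm, pow_mul]; norm_num
    have e1 : ∑ n ∈ Ioc 0 N, (ε ^ k * ∑ d ∈ I, jchi d n) ^ 2 =
        ∑ d ∈ I, ∑ e ∈ I, ∑ n ∈ Ioc 0 N, jchi (d * e) n := by
      calc ∑ n ∈ Ioc 0 N, (ε ^ k * ∑ d ∈ I, jchi d n) ^ 2 =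
          ∑ n ∈ Ioc 0 N, ∑ d ∈ I, ∑ e ∈ I, jchi (d * e) n := by
            apply Finset.sum_congr rfl
            intro n _
            rw [mul_pow, hε2, one_mul, sq, Finset.sum_mul_sum]
            apply Finset.sum_congr rfl
            intro d _
            apply Finset.sum_congr rfl
            intro e _
            rw [jchi_mul_left]
        _ = _ := by
            rw [Finset.sum_comm]
            apply Finset.sum_congr rfl
            intro d _
            rw [Finset.sum_comm]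
    rw [e1]
    have hterm : ∀ d ∈ I, ∀ e ∈ I, ∑ n ∈ Ioc 0 N, jchi (d * e) n ≤
        (if d = e then (Y : ℝ) ^ k else 0) + 4 * (Z : ℝ) ^ 2 := by
      intro d hd e he
      obtain ⟨hds, hdZ, _⟩ := hI d hd
      obtain ⟨hes, heZ, _⟩ := hI e he
      by_cases hde : d = e
      · rw [if_pos hde]
        have h1 : ∑ n ∈ Ioc 0 N, jchi (d * e) n ≤ ∑ n ∈ Ioc 0 N, (1 : ℝ) := by
          apply Finset.sum_le_sum
          intro n _
          rcases jchi_val (d * e) n with h | h | h <;> rw [h] <;> norm_num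
        rw [Finset.sum_const, Nat.card_Ioc, Nat.sub_zero, nsmul_eq_mul, mul_one] at h1
        have h2 : (N : ℝ) = (Y : ℝ) ^ k := by rw [hN]; push_cast; rfl
        rw [h2] at h1
        have h3 : (0 : ℝ) ≤ 4 * (Z : ℝ) ^ 2 := by positivity
        linarith
      · rw [if_neg hde, zero_add]
        have hd0 : d ≠ 0 := hds.ne_zero
        have he0 : e ≠ 0 := hes.ne_zero
        have hns : ¬ IsSquare (d * e) := by
          rintro ⟨s, hs⟩
          apply hde
          have hdvd : d ∣ s ^ 2 := ⟨e, by rw [sq, hs]⟩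
          obtain ⟨t, rfl⟩ := (hds.dvd_pow_iff_dvd two_ne_zero).mp hdvd
          have h3 : e = t * t * d := by
            apply mul_left_cancel₀ hd0
            rw [hs]; ring
          have h4 : IsUnit t := hes t ⟨d, h3⟩
          rw [h3, Int.isUnit_mul_self h4, one_mul]
        have h1 := jchi_sum_le (d * e) (mul_ne_zero hd0 he0) hns N
        rw [Int.natAbs_mul] at h1
        have h2 : ((d.natAbs * e.natAbs : ℕ) : ℝ) ≤ (Z : ℝ) * Z := by
          exact_mod_cast Nat.mul_le_mul hdZ heZ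
        calc ∑ n ∈ Ioc 0 N, jchi (d * e) n ≤ |∑ n ∈ Ioc 0 N, jchi (d * e) n| := le_abs_self _
          _ ≤ 4 * ((d.natAbs * e.natAbs : ℕ) : ℝ) := h1
          _ ≤ 4 * (Z : ℝ) ^ 2 := by nlinarith
    calc ∑ d ∈ I, ∑ e ∈ I, ∑ n ∈ Ioc 0 N, jchi (d * e) n ≤
        ∑ d ∈ I, ∑ e ∈ I, ((if d = e then (Y : ℝ) ^ k else 0) + 4 * (Z : ℝ) ^ 2) :=
          Finset.sum_le_sum fun d hd => Finset.sum_le_sum fun e he => hterm d hd e he
      _ = ∑ d ∈ I, ((Y : ℝ) ^ k + I.card * (4 * (Z : ℝ) ^ 2)) := by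
          apply Finset.sum_congr rfl
          intro d hd
          rw [Finset.sum_add_distrib, Finset.sum_ite_eq I d, if_pos hd, Finset.sum_const,
            nsmul_eq_mul]
      _ = _ := by
          rw [Finset.sum_const, nsmul_eq_mul]
          ring
  have hCS := Finset.sum_mul_sq_le_sq_mul_sq (Ioc 0 N) (fun n => (repk P k n : ℝ))
    (fun n => ε ^ k * ∑ d ∈ I, jchi d n)
  set s : ℝ := (I.card : ℝ) with hs
  have hs0 : 0 ≤ s := Nat.cast_nonneg _
  have hchain : (s * (R / 2) ^ k) ^ 2 ≤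
      (k.factorial * R ^ k) * (s * (Y : ℝ) ^ k + s ^ 2 * (4 * (Z : ℝ) ^ 2)) := by
    calc (s * (R / 2) ^ k) ^ 2 ≤
        (∑ n ∈ Ioc 0 N, (repk P k n : ℝ) * (ε ^ k * ∑ d ∈ I, jchi d n)) ^ 2 :=
          pow_le_pow_left₀ (by positivity) hlow 2
      _ ≤ _ := hCS
      _ ≤ _ := mul_le_mul hsq hup (Finset.sum_nonneg fun _ _ => sq_nonneg _) (by positivity)
  have hfin0 : 0 ≤ 4 ^ k * k.factorial * ((Y : ℝ) ^ k + 4 * (Z : ℝ) ^ 2 * s) := by positivity
  rcases eq_or_lt_of_le hs0 with hs1 | hs1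
  · rw [← hs1] at hfin0 ⊢
    rw [zero_mul]
    exact hfin0
  rcases eq_or_lt_of_le hR0 with hR1 | hR1
  · rcases Nat.eq_zero_or_pos k with hk | hk
    · subst hk
      simp only [pow_zero, Nat.factorial_zero, Nat.cast_one, mul_one, one_mul] at hchain ⊢
      nlinarith
    · rw [← hR1, zero_pow (by omega), mul_zero]
      exact hfin0
  have hRk : 0 < R ^ k := by positivity
  have h4 : (R / 2) ^ k * (R / 2) ^ k * 4 ^ k = R ^ k * R ^ k := by
    rw [← mul_pow, ← mul_pow, ← mul_pow]
    congr 1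
    ring
  have h5 : s * R ^ k * (s * R ^ k) ≤
      (4 ^ k * k.factorial * ((Y : ℝ) ^ k + 4 * (Z : ℝ) ^ 2 * s)) * (s * R ^ k) := by
    have e1 : s * R ^ k * (s * R ^ k) = (s * (R / 2) ^ k) ^ 2 * 4 ^ k := by
      rw [mul_pow]
      calc s * R ^ k * (s * R ^ k) = s ^ 2 * (R ^ k * R ^ k) := by ring
        _ = s ^ 2 * ((R / 2) ^ k * (R / 2) ^ k * 4 ^ k) := by rw [h4]
        _ = _ := by ring
    rw [e1]
    calc (s * (R / 2) ^ k) ^ 2 * 4 ^ k ≤
        ((k.factorial * R ^ k) * (s * (Y : ℝ) ^ k + s ^ 2 * (4 * (Z : ℝ) ^ 2))) * 4 ^ k :=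
          mul_le_mul_of_nonneg_right hchain (by positivity)
      _ = _ := by ring
  exact le_of_mul_le_mul_right h5 (by positivity)

end Pool.Agent.Lib.MP_695920_nt
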