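import Mathlib
import Pool.Agent.Lib.MP_695920_nt.Analytic

set_option autoImplicit false

open Finset

namespace Pool.Agent.Lib.MP_695920_nt

/-- telescoping bound -/
lemma sum_log_div_le (N : ℕ) (hN : 1 ≤ N) :
    ∑ n ∈ Icc 2 N, Real.log n / ((n : ℝ) * (n - 1)) ≤ 2 - (Real.log N + 2) / N := by
  induction N, hN using Nat.le_induction with
  | base => simp
  | succ N hN ih =>
    rw [Finset.sum_Icc_succ_top (by omega)]
    have hN0 : (1 : ℝ) ≤ N := by exact_mod_cast hN
    have hN0' : (0 : ℝ) < N := by linarith
    have h1 : Real.log (N + 1) - Real.log N ≤ 1 / N := by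
      rw [← Real.log_div (by positivity) (by positivity)]
      have h2 := Real.log_le_sub_one_of_pos (x := ((N : ℝ) + 1) / N) (by positivity)
      refine h2.trans (le_of_eq ?_)
      field_simp
      ring
    have h2 : Real.log ((N : ℝ) + 1) / (((N : ℝ) + 1) * ((N : ℝ) + 1 - 1)) ≤
        (Real.log N + 2) / N - (Real.log (N + 1) + 2) / (N + 1) := by
      rw [div_sub_div _ _ (by positivity) (by positivity), add_sub_cancel_right,
        mul_comm ((N : ℝ) + 1) N]
      apply div_le_div_of_nonneg_right _ (by positivity)
      have h3 : (N + 1 : ℝ) * (Real.log (N + 1) - Real.log N) ≤ 2 := by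
        calc (N + 1 : ℝ) * (Real.log (N + 1) - Real.log N) ≤ (N + 1) * (1 / N) :=
              mul_le_mul_of_nonneg_left h1 (by positivity)
          _ ≤ 2 := by
              rw [mul_one_div, div_le_iff₀ hN0']
              linarith
      nlinarith
    push_cast
    linarith

lemma mert_ge (N : ℕ) (hN : 1 ≤ N) : Real.log N - 3 ≤ mert N := by
  have hN0 : (0 : ℝ) < N := by exact_mod_cast hN
  -- upper bound for the logarithm of the factorial
  have h1 : Real.log N.factorial ≤
      ∑ p ∈ (Icc 0 N).filter Nat.Prime, (N : ℝ) / (p - 1) * Real.log p := by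
    rw [Real.log_nat_eq_sum_factorization, Finsupp.sum]
    have hsub : (N.factorial.factorization).support ⊆ (Icc 0 N).filter Nat.Prime := by
      intro p hp
      rw [Nat.support_factorization, Nat.mem_primeFactors] at hp
      rw [mem_filter, mem_Icc]
      exact ⟨⟨Nat.zero_le _, (hp.1.dvd_factorial).mp hp.2.1⟩, hp.1⟩
    have key1 : ∑ p ∈ (N.factorial.factorization).support,
        ((N.factorial.factorization p : ℕ) : ℝ) * Real.log p ≤
        ∑ p ∈ (N.factorial.factorization).support, (N : ℝ) / (p - 1) * Real.log p := by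
      apply Finset.sum_le_sum
      intro p hp
      have hpp := (mem_filter.mp (hsub hp)).2
      have : Fact p.Prime := ⟨hpp⟩
      have h2 := sub_one_mul_padicValNat_factorial (p := p) N
      have h3 : (p - 1) * padicValNat p N.factorial ≤ N := by rw [h2]; omega
      rw [Nat.factorization_def _ hpp]
      have h4 : (1 : ℝ) < p := by exact_mod_cast hpp.one_lt
      have h5 : ((p : ℝ) - 1) * (padicValNat p N.factorial : ℝ) ≤ N := by
        have h6 : (((p - 1) * padicValNat p N.factorial : ℕ) : ℝ) ≤ N := by exact_mod_cast h3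
        rw [Nat.cast_mul, Nat.cast_sub hpp.one_lt.le, Nat.cast_one] at h6
        exact h6
      apply mul_le_mul_of_nonneg_right _ (Real.log_nonneg h4.le)
      rw [le_div_iff₀ (by linarith)]
      linarith
    have key2 : ∑ p ∈ (N.factorial.factorization).support, (N : ℝ) / (p - 1) * Real.log p ≤
        ∑ p ∈ (Icc 0 N).filter Nat.Prime, (N : ℝ) / (p - 1) * Real.log p := by
      apply Finset.sum_le_sum_of_subset_of_nonneg hsub
      intro p hp _
      have hpp := (mem_filter.mp hp).2
      have h4 : (1 : ℝ) < p := by exact_mod_cast hpp.one_lt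
      have := Real.log_nonneg h4.le
      have : (0 : ℝ) < p - 1 := by linarith
      positivity
    exact key1.trans key2
  -- lower bound for the logarithm of the factorial
  have h2 : (N : ℝ) * Real.log N - N ≤ Real.log N.factorial := by
    have h3 : ((N : ℝ) / Real.exp 1) ^ N ≤ N.factorial := by
      have h4 := Real.pow_div_factorial_le_exp (N : ℝ) hN0.le N
      rw [div_le_iff₀ (by exact_mod_cast N.factorial_pos)] at h4
      rw [div_pow, div_le_iff₀ (by positivity), ← Real.exp_nat_mul, mul_one]
      linarith
    have h5 := Real.log_le_log (by positivity) h3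
    rw [Real.log_pow, Real.log_div (by positivity) (by positivity), Real.log_exp] at h5
    linarith
  -- combine
  have h3 : ∑ p ∈ (Icc 0 N).filter Nat.Prime, (N : ℝ) / (p - 1) * Real.log p ≤
      N * mert N + N * 2 := by
    have h4 : ∀ p ∈ (Icc 0 N).filter Nat.Prime, (N : ℝ) / (p - 1) * Real.log p =
        N * (Real.log p / p) + N * (Real.log p / ((p : ℝ) * (p - 1))) := by
      intro p hp
      have hpp := (mem_filter.mp hp).2
      have h4 : (1 : ℝ) < p := by exact_mod_cast hpp.one_lt
      have h5 : (p : ℝ) - 1 ≠ 0 := by linarith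
      have h6 : (p : ℝ) ≠ 0 := by linarith
      field_simp
      ring
    rw [Finset.sum_congr rfl h4, Finset.sum_add_distrib, ← Finset.mul_sum, ← Finset.mul_sum]
    unfold mert
    apply add_le_add_right
    apply mul_le_mul_of_nonneg_left _ hN0.le
    have h5 := sum_log_div_le N hN
    have h6 : 0 ≤ (Real.log N + 2) / N := by
      have := Real.log_nonneg (show (1 : ℝ) ≤ N by exact_mod_cast hN)
      positivity
    refine le_trans (Finset.sum_le_sum_of_subset_of_nonneg (t := Icc 2 N) ?_ ?_) (h5.trans (by linarith))
    · intro p hp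
      rw [mem_filter, mem_Icc] at hp
      rw [mem_Icc]
      exact ⟨hp.2.two_le, hp.1.2⟩
    · intro p hp _
      rw [mem_Icc] at hp
      have h7 : (2 : ℝ) ≤ p := by exact_mod_cast hp.1
      have := Real.log_nonneg (show (1 : ℝ) ≤ p by linarith)
      have : (0 : ℝ) < p - 1 := by linarith
      positivity
  have h4 : (N : ℝ) * (Real.log N - 3) ≤ N * mert N := by linarith
  exact le_of_mul_le_mul_left h4 hN0

end Pool.Agent.Lib.MP_695920_nt
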