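import Mathlib
import Pool.Agent.Lib.MP_695920_nt.Analytic

set_option autoImplicit false

open Finset NumberField UniqueFactorizationMonoid

namespace Pool.Agent.Lib.MP_695920_nt

variable (K : Type*) [Field K] [NumberField K]

open scoped Classical in
/-- nonzero ideals of norm at most `N` -/
noncomputable def idl (N : ℕ) : Finset (Ideal (𝓞 K)) :=
  (Ideal.finite_setOfPred_absNorm_le (S := 𝓞 K) N).toFinset.erase ⊥

open scoped Classical in
/-- nonzero prime ideals of norm at most `N` -/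
noncomputable def prm (N : ℕ) : Finset (Ideal (𝓞 K)) := (idl K N).filter (fun P => P.IsPrime)

variable {K}

lemma mem_idl {N : ℕ} {I : Ideal (𝓞 K)} : I ∈ idl K N ↔ I ≠ ⊥ ∧ Ideal.absNorm I ≤ N := by
  simp [idl]

lemma mem_prm {N : ℕ} {I : Ideal (𝓞 K)} :
    I ∈ prm K N ↔ (I ≠ ⊥ ∧ Ideal.absNorm I ≤ N) ∧ I.IsPrime := by
  simp [prm, mem_idl]

lemma absNorm_pos_of_ne_bot {I : Ideal (𝓞 K)} (h : I ≠ ⊥) : 0 < Ideal.absNorm I :=
  Nat.pos_of_ne_zero (fun h0 => h (Ideal.absNorm_eq_zero_iff.mp h0))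

lemma two_le_absNorm_of_prime {P : Ideal (𝓞 K)} (h : P ≠ ⊥) (hP : P.IsPrime) :
    2 ≤ Ideal.absNorm P := by
  have h1 := absNorm_pos_of_ne_bot h
  have h2 : Ideal.absNorm P ≠ 1 := fun h3 => hP.ne_top (Ideal.absNorm_eq_one_iff.mp h3)
  omega

lemma log_absNorm_decomp {N : ℕ} {I : Ideal (𝓞 K)} (hI : I ∈ idl K N) :
    Real.log (Ideal.absNorm I) = ∑ P ∈ prm K N, ∑ k ∈ Icc 1 N,
      (open scoped Classical in if P ^ k ∣ I then Real.log (Ideal.absNorm P) else 0) := by
  classical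
  obtain ⟨hI0, hIN⟩ := mem_idl.mp hI
  have hsub : (normalizedFactors I).toFinset ⊆ prm K N := by
    intro P hP
    rw [Multiset.mem_toFinset, Ideal.mem_normalizedFactors_iff hI0] at hP
    rw [mem_prm]
    have hP0 : P ≠ ⊥ := fun h => hI0 (by rw [h] at hP; exact le_bot_iff.mp hP.2)
    refine ⟨⟨hP0, ?_⟩, hP.1⟩
    exact le_trans (Nat.le_of_dvd (absNorm_pos_of_ne_bot hI0) (Ideal.absNorm_dvd_absNorm_of_le hP.2)) hIN
  have h1 : Real.log (Ideal.absNorm I) = ∑ P ∈ (normalizedFactors I).toFinset,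
      ((normalizedFactors I).count P : ℝ) * Real.log (Ideal.absNorm P) := by
    conv_lhs => rw [← Ideal.prod_normalizedFactors_eq_self hI0]
    rw [Finset.prod_multiset_count, map_prod]
    push_cast
    rw [Real.log_prod]
    · refine Finset.sum_congr rfl fun P _ => ?_
      rw [map_pow]
      push_cast
      rw [Real.log_pow]
    · intro P hP
      have := mem_prm.mp (hsub hP)
      have h2 := absNorm_pos_of_ne_bot this.1.1
      rw [map_pow]
      positivity
  rw [h1]
  rw [Finset.sum_subset hsub]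
  · refine Finset.sum_congr rfl fun P hP => ?_
    obtain ⟨⟨hP0, hPN⟩, hPp⟩ := mem_prm.mp hP
    have hPprime : Prime P := Ideal.prime_of_isPrime hP0 hPp
    have hdvd : ∀ k : ℕ, P ^ k ∣ I ↔ k ≤ (normalizedFactors I).count P := by
      intro k
      rw [pow_dvd_iff_le_emultiplicity,
        emultiplicity_eq_count_normalizedFactors hPprime.irreducible hI0, normalize_eq]
      exact_mod_cast Iff.rfl
    have hcount : (normalizedFactors I).count P ≤ N := by
      have h3 : P ^ ((normalizedFactors I).count P) ∣ I := (hdvd _).mpr le_rfl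
      have h4 := Ideal.absNorm_dvd_absNorm_of_le (Ideal.le_of_dvd h3)
      rw [map_pow] at h4
      have h5 := Nat.le_of_dvd (absNorm_pos_of_ne_bot hI0) h4
      have h6 : 2 ^ ((normalizedFactors I).count P) ≤
          Ideal.absNorm P ^ ((normalizedFactors I).count P) :=
        Nat.pow_le_pow_left (two_le_absNorm_of_prime hP0 hPp) _
      have h7 := Nat.lt_two_pow_self (n := (normalizedFactors I).count P)
      omega
    simp_rw [hdvd]
    rw [← Finset.sum_filter, Finset.sum_const, nsmul_eq_mul]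
    congr 1
    have : (Icc 1 N).filter (fun k => k ≤ (normalizedFactors I).count P) =
        Icc 1 ((normalizedFactors I).count P) := by
      ext k
      simp only [mem_filter, mem_Icc]
      omega
    rw [this, Nat.card_Icc]
    simp
  · intro P _ hP
    rw [Multiset.mem_toFinset] at hP
    rw [Multiset.count_eq_zero_of_notMem hP]
    simp

lemma liesOver_of_mem {P : Ideal (𝓞 K)} (hPp : P.IsPrime) {p : ℕ} (hp : p.Prime)
    (hmem : (p : 𝓞 K) ∈ P) : P.LiesOver (Ideal.span {(p : ℤ)}) := by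
  constructor
  have hmax : (Ideal.span {(p : ℤ)}).IsMaximal :=
    ((Ideal.span_singleton_prime (by exact_mod_cast hp.ne_zero)).mpr
      (Nat.prime_iff_prime_int.mp hp)).isMaximal (by simpa using hp.ne_zero)
  refine hmax.eq_of_le ?_ ?_
  · exact (Ideal.IsPrime.under ℤ P).ne_top
  · rw [Ideal.span_singleton_le_iff_mem, Ideal.mem_comap]
    simpa using hmem

lemma card_primes_above_le {p : ℕ} (hp : p.Prime) (T : Finset (Ideal (𝓞 K)))
    (hT : ∀ P ∈ T, P.IsPrime ∧ (p : 𝓞 K) ∈ P) : T.card ≤ Module.finrank ℚ K := by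
  classical
  have hmax : (Ideal.span {(p : ℤ)}).IsMaximal :=
    ((Ideal.span_singleton_prime (by exact_mod_cast hp.ne_zero)).mpr
      (Nat.prime_iff_prime_int.mp hp)).isMaximal (by simpa using hp.ne_zero)
  have hne : Ideal.span {(p : ℤ)} ≠ ⊥ := by simpa using hp.ne_zero
  refine le_trans (Finset.card_le_card ?_)
    (Ideal.card_primesOverFinset_le_finrank (𝓞 K) ℚ K (p := Ideal.span {(p : ℤ)}) hne)
  intro P hP
  obtain ⟨h1, h2⟩ := hT P hP
  rw [IsDedekindDomain.mem_primesOverFinset_iff hne]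
  exact ⟨h1, liesOver_of_mem h1 hp h2⟩

/-- A prime ideal has prime power norm with exponent at most the degree. -/
lemma exists_prime_absNorm {P : Ideal (𝓞 K)} (hP0 : P ≠ ⊥) (hPp : P.IsPrime) :
    ∃ p f : ℕ, p.Prime ∧ 0 < f ∧ f ≤ Module.finrank ℚ K ∧ (p : 𝓞 K) ∈ P ∧
      Ideal.absNorm P = p ^ f := by
  have hmax : P.IsMaximal := hPp.isMaximal hP0
  obtain ⟨p, f, hf, hmem, hp, hN⟩ := Ideal.exists_prime_and_absNorm_eq_pow P
  refine ⟨p, f, hp, hf, ?_, hmem, hN⟩
  have h1 : Ideal.absNorm P ∣ Ideal.absNorm (Ideal.span {(p : 𝓞 K)}) := by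
    apply Ideal.absNorm_dvd_absNorm_of_le
    rw [Ideal.span_singleton_le_iff_mem]
    exact hmem
  rw [Ideal.absNorm_span_natCast, RingOfIntegers.rank, hN] at h1
  exact (Nat.pow_dvd_pow_iff_le_right hp.one_lt).mp h1

lemma inner_sum_le (N u : ℕ) :
    ∑ P ∈ prm K N, ∑ k ∈ Icc 1 N,
      (if Ideal.absNorm P ^ k ≤ u then
        (Real.sqrt ((Ideal.absNorm P : ℝ) ^ k))⁻¹ * Real.log (Ideal.absNorm P) else 0) ≤
      (Module.finrank ℚ K : ℝ) ^ 2 *
        ∑ m ∈ Icc 0 u, (Real.sqrt m)⁻¹ * ArithmeticFunction.vonMangoldt m := by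
  classical
  set n := Module.finrank ℚ K with hn
  set g : ℕ → ℝ := fun m => (Real.sqrt m)⁻¹ * ArithmeticFunction.vonMangoldt m with hg
  have hg0 : ∀ m, 0 ≤ g m := fun m =>
    mul_nonneg (inv_nonneg.mpr (Real.sqrt_nonneg _)) ArithmeticFunction.vonMangoldt_nonneg
  set T := ((prm K N) ×ˢ (Icc 1 N)).filter (fun x => Ideal.absNorm x.1 ^ x.2 ≤ u) with hT
  have h1 : ∑ P ∈ prm K N, ∑ k ∈ Icc 1 N,
      (if Ideal.absNorm P ^ k ≤ u then
        (Real.sqrt ((Ideal.absNorm P : ℝ) ^ k))⁻¹ * Real.log (Ideal.absNorm P) else 0) ≤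
      ∑ x ∈ T, (n : ℝ) * g (Ideal.absNorm x.1 ^ x.2) := by
    rw [← Finset.sum_product' (f := fun (P : Ideal (𝓞 K)) (k : ℕ) =>
      (if Ideal.absNorm P ^ k ≤ u then
        (Real.sqrt ((Ideal.absNorm P : ℝ) ^ k))⁻¹ * Real.log (Ideal.absNorm P) else 0)),
      hT, Finset.sum_filter]
    refine Finset.sum_le_sum fun x hx => ?_
    rw [Finset.mem_product] at hx
    obtain ⟨hx1, hx2⟩ := hx
    obtain ⟨⟨hP0, hPN⟩, hPp⟩ := mem_prm.mp hx1
    split_ifs with h
    · obtain ⟨p, f, hp, hf, hfn, hmem, hNP⟩ := exists_prime_absNorm hP0 hPp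
      simp only [hg]
      push_cast
      have hk : 1 ≤ x.2 := (Finset.mem_Icc.mp hx2).1
      have h2 : ArithmeticFunction.vonMangoldt (Ideal.absNorm x.1 ^ x.2) = Real.log p := by
        rw [hNP, ← pow_mul, ArithmeticFunction.vonMangoldt_apply_pow (by positivity),
          ArithmeticFunction.vonMangoldt_apply_prime hp]
      rw [h2]
      have h3 : Real.log (Ideal.absNorm x.1) ≤ n * Real.log p := by
        rw [hNP]
        push_cast
        rw [Real.log_pow]
        apply mul_le_mul_of_nonneg_right (by exact_mod_cast hfn)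
        exact Real.log_nonneg (by exact_mod_cast hp.one_lt.le)
      have h4 : 0 ≤ (Real.sqrt ((Ideal.absNorm x.1 : ℝ) ^ x.2))⁻¹ :=
        inv_nonneg.mpr (Real.sqrt_nonneg _)
      calc _ ≤ (Real.sqrt ((Ideal.absNorm x.1 : ℝ) ^ x.2))⁻¹ * (n * Real.log p) :=
            mul_le_mul_of_nonneg_left h3 h4
        _ = _ := by ring
    · exact le_rfl
  refine h1.trans ?_
  rw [← Finset.mul_sum, pow_two, mul_assoc]
  apply mul_le_mul_of_nonneg_left _ (by positivity)
  have hmaps : ∀ x ∈ T, Ideal.absNorm x.1 ^ x.2 ∈ Icc 0 u := by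
    intro x hx
    simp only [mem_Icc, zero_le, true_and]
    exact (Finset.mem_filter.mp hx).2
  rw [← Finset.sum_fiberwise_of_maps_to hmaps, Finset.mul_sum]
  refine Finset.sum_le_sum fun m _ => ?_
  have h5 : ∑ x ∈ T.filter (fun x => Ideal.absNorm x.1 ^ x.2 = m), g (Ideal.absNorm x.1 ^ x.2) =
      ((T.filter (fun x => Ideal.absNorm x.1 ^ x.2 = m)).card : ℝ) * g m := by
    rw [Finset.sum_congr rfl (g := fun _ => g m), Finset.sum_const, nsmul_eq_mul]
    intro x hx
    rw [(Finset.mem_filter.mp hx).2]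
  rw [h5]
  by_cases hm : IsPrimePow m
  · apply mul_le_mul_of_nonneg_right _ (hg0 m)
    obtain ⟨p, j, hp, hj, hpj⟩ := (isPrimePow_nat_iff m).mp hm
    have hinj : Set.InjOn Prod.fst
        (T.filter (fun x => Ideal.absNorm x.1 ^ x.2 = m) : Set (Ideal (𝓞 K) × ℕ)) := by
      rintro ⟨P, k⟩ hx ⟨Q, l⟩ hy hPQ
      simp only at hPQ
      subst hPQ
      rw [Finset.mem_coe, Finset.mem_filter, hT, Finset.mem_filter, Finset.mem_product] at hx hy
      obtain ⟨⟨hP0, hPN⟩, hPp⟩ := mem_prm.mp hx.1.1.1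
      have h2 := two_le_absNorm_of_prime hP0 hPp
      have h3 : Ideal.absNorm P ^ k = Ideal.absNorm P ^ l := by
        have := hx.2; have := hy.2
        simp only at *
        omega
      have h4 := Nat.pow_right_injective h2 h3
      rw [h4]
    rw [← Finset.card_image_of_injOn hinj]
    have := card_primes_above_le (K := K) hp
      ((T.filter (fun x => Ideal.absNorm x.1 ^ x.2 = m)).image Prod.fst) ?_
    · exact_mod_cast this
    · intro P hP
      rw [Finset.mem_image] at hP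
      obtain ⟨⟨Q, k⟩, hx, hQP⟩ := hP
      simp only at hQP
      subst hQP
      rw [Finset.mem_filter, hT, Finset.mem_filter, Finset.mem_product] at hx
      obtain ⟨⟨hP0, hPN⟩, hPp⟩ := mem_prm.mp hx.1.1.1
      refine ⟨hPp, ?_⟩
      have h2 : ((p ^ j : ℕ) : 𝓞 K) ∈ Q := by
        rw [hpj, ← hx.2]
        push_cast
        exact Ideal.pow_mem_of_mem _ (Ideal.absNorm_mem Q) _
          (by have := (Finset.mem_Icc.mp hx.1.1.2).1; simp only at this; omega)
      push_cast at h2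
      exact hPp.mem_of_pow_mem _ h2
  · have : g m = 0 := by
      simp only [hg]
      rw [ArithmeticFunction.vonMangoldt_eq_zero_iff.mpr hm, mul_zero]
    rw [this, mul_zero]
    exact mul_nonneg (Nat.cast_nonneg _) (hg0 m)

/-- The Chebyshev trick for ideals, with the weight `N(I)^(-1/2)`. -/
lemma sum_sqrt_log_le (N : ℕ) :
    ∑ I ∈ idl K N, (Real.sqrt (Ideal.absNorm I))⁻¹ * Real.log (Ideal.absNorm I) ≤
      11 * (Module.finrank ℚ K : ℝ) ^ 2 * Real.sqrt N *
        ∑ I ∈ idl K N, (1 : ℝ) / (Ideal.absNorm I) := by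
  classical
  set n := Module.finrank ℚ K with hn
  set w : Ideal (𝓞 K) → ℝ := fun I => (Real.sqrt (Ideal.absNorm I))⁻¹ with hw
  have hwmul : ∀ I J, w (I * J) = w I * w J := by
    intro I J
    simp only [hw]
    rw [map_mul]
    push_cast
    rw [Real.sqrt_mul (Nat.cast_nonneg _), mul_inv]
  have hwpow : ∀ I (k : ℕ), w (I ^ k) = (Real.sqrt ((Ideal.absNorm I : ℝ) ^ k))⁻¹ := by
    intro I k
    simp only [hw, map_pow]
    push_cast
    rfl
  have hw0 : ∀ I, 0 ≤ w I := fun I => inv_nonneg.mpr (Real.sqrt_nonneg _)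
  have step1 : ∑ I ∈ idl K N, w I * Real.log (Ideal.absNorm I) =
      ∑ P ∈ prm K N, ∑ k ∈ Icc 1 N, ∑ I ∈ idl K N,
        (if P ^ k ∣ I then w I * Real.log (Ideal.absNorm P) else 0) := by
    have : ∀ I ∈ idl K N, w I * Real.log (Ideal.absNorm I) =
        ∑ P ∈ prm K N, ∑ k ∈ Icc 1 N,
          (if P ^ k ∣ I then w I * Real.log (Ideal.absNorm P) else 0) := by
      intro I hI
      rw [log_absNorm_decomp hI, Finset.mul_sum]
      refine Finset.sum_congr rfl fun P _ => ?_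
      rw [Finset.mul_sum]
      refine Finset.sum_congr rfl fun k _ => ?_
      split_ifs <;> simp
    rw [Finset.sum_congr rfl this, Finset.sum_comm]
    refine Finset.sum_congr rfl fun P _ => ?_
    rw [Finset.sum_comm]
  have step2 : ∀ P ∈ prm K N, ∀ k ∈ Icc 1 N,
      ∑ I ∈ idl K N, (if P ^ k ∣ I then w I * Real.log (Ideal.absNorm P) else 0) =
      ∑ J ∈ idl K N, (if Ideal.absNorm P ^ k ≤ N / Ideal.absNorm J then
        w J * ((Real.sqrt ((Ideal.absNorm P : ℝ) ^ k))⁻¹ * Real.log (Ideal.absNorm P)) else 0) := by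
    intro P hP k _
    obtain ⟨⟨hP0, hPN⟩, hPp⟩ := mem_prm.mp hP
    have hPk : P ^ k ≠ ⊥ := pow_ne_zero k hP0
    rw [← Finset.sum_filter, ← Finset.sum_filter]
    have himg : (idl K N).filter (fun I => P ^ k ∣ I) =
        ((idl K N).filter (fun J => Ideal.absNorm P ^ k ≤ N / Ideal.absNorm J)).image
          (fun J => P ^ k * J) := by
      ext I
      simp only [mem_filter, mem_image, mem_idl]
      constructor
      · rintro ⟨⟨hI0, hIN⟩, J, hJ⟩
        have hJ0 : J ≠ ⊥ := by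
          rintro rfl
          exact hI0 (by rw [hJ, Ideal.mul_bot])
        have hJpos := absNorm_pos_of_ne_bot hJ0
        have hmul : Ideal.absNorm I = Ideal.absNorm P ^ k * Ideal.absNorm J := by
          rw [hJ, map_mul, map_pow]
        have hPpos := absNorm_pos_of_ne_bot hPk
        rw [map_pow] at hPpos
        refine ⟨J, ⟨⟨hJ0, ?_⟩, ?_⟩, hJ.symm⟩
        · calc Ideal.absNorm J ≤ Ideal.absNorm P ^ k * Ideal.absNorm J :=
                Nat.le_mul_of_pos_left _ hPpos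
            _ ≤ N := hmul ▸ hIN
        · rw [Nat.le_div_iff_mul_le hJpos]
          exact hmul ▸ hIN
      · rintro ⟨J, ⟨⟨hJ0, hJN⟩, hle⟩, hJ⟩
        have hJpos := absNorm_pos_of_ne_bot hJ0
        rw [Nat.le_div_iff_mul_le hJpos] at hle
        subst hJ
        refine ⟨⟨mul_ne_zero hPk hJ0, ?_⟩, Dvd.intro _ rfl⟩
        rw [map_mul, map_pow]
        exact hle
    rw [himg, Finset.sum_image]
    · refine Finset.sum_congr rfl fun J _ => ?_
      rw [hwmul, hwpow]
      ring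
    · intro J _ J' _ h
      exact mul_left_cancel₀ hPk h
  have step3 : ∑ I ∈ idl K N, w I * Real.log (Ideal.absNorm I) =
      ∑ J ∈ idl K N, w J * ∑ P ∈ prm K N, ∑ k ∈ Icc 1 N,
        (if Ideal.absNorm P ^ k ≤ N / Ideal.absNorm J then
        ((Real.sqrt ((Ideal.absNorm P : ℝ) ^ k))⁻¹ * Real.log (Ideal.absNorm P)) else 0) := by
    rw [step1]
    rw [Finset.sum_congr rfl (fun P hP => Finset.sum_congr rfl (fun k hk => step2 P hP k hk))]
    have : ∀ P ∈ prm K N, ∑ k ∈ Icc 1 N, ∑ J ∈ idl K N,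
        (if Ideal.absNorm P ^ k ≤ N / Ideal.absNorm J then
        w J * ((Real.sqrt ((Ideal.absNorm P : ℝ) ^ k))⁻¹ * Real.log (Ideal.absNorm P)) else 0) =
        ∑ J ∈ idl K N, ∑ k ∈ Icc 1 N,
        (if Ideal.absNorm P ^ k ≤ N / Ideal.absNorm J then
        w J * ((Real.sqrt ((Ideal.absNorm P : ℝ) ^ k))⁻¹ * Real.log (Ideal.absNorm P)) else 0) :=
      fun P _ => Finset.sum_comm
    rw [Finset.sum_congr rfl this, Finset.sum_comm]
    refine Finset.sum_congr rfl fun J _ => ?_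
    rw [Finset.mul_sum]
    refine Finset.sum_congr rfl fun P _ => ?_
    rw [Finset.mul_sum]
    refine Finset.sum_congr rfl fun k _ => ?_
    split_ifs <;> simp
  rw [step3, Finset.mul_sum]
  refine Finset.sum_le_sum fun J hJ => ?_
  obtain ⟨hJ0, hJN⟩ := mem_idl.mp hJ
  have hJpos := absNorm_pos_of_ne_bot hJ0
  have hJpos' : (0 : ℝ) < Ideal.absNorm J := by exact_mod_cast hJpos
  have h1 := inner_sum_le (K := K) N (N / Ideal.absNorm J)
  have h2 := sum_vonMangoldt_div_sqrt_le ((N / Ideal.absNorm J : ℕ) : ℝ)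
    (by exact_mod_cast (Nat.one_le_div_iff hJpos).mpr hJN)
  rw [Nat.floor_natCast] at h2
  have h3 : Real.sqrt ((N / Ideal.absNorm J : ℕ) : ℝ) ≤ Real.sqrt N * w J := by
    simp only [hw]
    rw [← div_eq_mul_inv, ← Real.sqrt_div (Nat.cast_nonneg _)]
    exact Real.sqrt_le_sqrt Nat.cast_div_le
  have h4 : w J * w J = 1 / (Ideal.absNorm J : ℝ) := by
    simp only [hw]
    rw [← mul_inv, Real.mul_self_sqrt hJpos'.le, one_div]
  have h5 : (0 : ℝ) ≤ (n : ℝ) ^ 2 := by positivity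
  calc w J * ∑ P ∈ prm K N, ∑ k ∈ Icc 1 N,
        (if Ideal.absNorm P ^ k ≤ N / Ideal.absNorm J then
        ((Real.sqrt ((Ideal.absNorm P : ℝ) ^ k))⁻¹ * Real.log (Ideal.absNorm P)) else 0)
      ≤ w J * ((n : ℝ) ^ 2 * (11 * (Real.sqrt N * w J))) := by
        apply mul_le_mul_of_nonneg_left _ (hw0 J)
        refine h1.trans ?_
        apply mul_le_mul_of_nonneg_left _ h5
        refine h2.trans ?_
        linarith
    _ = 11 * (n : ℝ) ^ 2 * Real.sqrt N * (w J * w J) := by ring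
    _ = _ := by rw [h4]

/-- `T(N) log N` is small. -/
lemma sum_sqrt_mul_log_le (N : ℕ) :
    (∑ I ∈ idl K N, (Real.sqrt (Ideal.absNorm I))⁻¹) * Real.log N ≤
      (11 * (Module.finrank ℚ K : ℝ) ^ 2 + 2) * Real.sqrt N *
        ∑ I ∈ idl K N, (1 : ℝ) / (Ideal.absNorm I) := by
  have h1 := sum_sqrt_log_le (K := K) N
  have h2 : ∑ I ∈ idl K N, (Real.sqrt (Ideal.absNorm I))⁻¹ *
      (Real.log N - Real.log (Ideal.absNorm I)) ≤
      2 * Real.sqrt N * ∑ I ∈ idl K N, (1 : ℝ) / (Ideal.absNorm I) := by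
    rw [Finset.mul_sum]
    refine Finset.sum_le_sum fun J hJ => ?_
    obtain ⟨hJ0, hJN⟩ := mem_idl.mp hJ
    have hJpos := absNorm_pos_of_ne_bot hJ0
    have hJpos' : (0 : ℝ) < Ideal.absNorm J := by exact_mod_cast hJpos
    have hNpos : (0 : ℝ) < N := by exact_mod_cast lt_of_lt_of_le hJpos hJN
    have hs : 0 < Real.sqrt (Ideal.absNorm J) := Real.sqrt_pos.mpr hJpos'
    have h3 : Real.log N - Real.log (Ideal.absNorm J) ≤
        2 * (Real.sqrt N / Real.sqrt (Ideal.absNorm J)) := by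
      rw [← Real.log_div hNpos.ne' hJpos'.ne', ← Real.sqrt_div hNpos.le]
      have hq : 0 < (N : ℝ) / Ideal.absNorm J := by positivity
      have h4 : Real.log ((N : ℝ) / Ideal.absNorm J) =
          2 * Real.log (Real.sqrt ((N : ℝ) / Ideal.absNorm J)) := by
        rw [Real.log_sqrt hq.le]; ring
      rw [h4]
      have h5 := Real.log_le_sub_one_of_pos (Real.sqrt_pos.mpr hq)
      linarith
    calc (Real.sqrt (Ideal.absNorm J))⁻¹ * (Real.log N - Real.log (Ideal.absNorm J))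
        ≤ (Real.sqrt (Ideal.absNorm J))⁻¹ * (2 * (Real.sqrt N / Real.sqrt (Ideal.absNorm J))) :=
          mul_le_mul_of_nonneg_left h3 (by positivity)
      _ = 2 * Real.sqrt N * (1 / (Real.sqrt (Ideal.absNorm J) * Real.sqrt (Ideal.absNorm J))) := by
          field_simp
      _ = _ := by rw [Real.mul_self_sqrt hJpos'.le]
  have h3 : (∑ I ∈ idl K N, (Real.sqrt (Ideal.absNorm I))⁻¹) * Real.log N =
      ∑ I ∈ idl K N, (Real.sqrt (Ideal.absNorm I))⁻¹ *
      (Real.log N - Real.log (Ideal.absNorm I)) +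
      ∑ I ∈ idl K N, (Real.sqrt (Ideal.absNorm I))⁻¹ * Real.log (Ideal.absNorm I) := by
    rw [← Finset.sum_add_distrib, Finset.sum_mul]
    refine Finset.sum_congr rfl fun J _ => ?_
    ring
  rw [h3]
  linarith

lemma euler_le (PP : Finset (Ideal (𝓞 K))) :
    (∀ P ∈ PP, P ≠ ⊥ ∧ P.IsPrime) → ∀ (S : Finset (Ideal (𝓞 K))),
    (∀ I ∈ S, I ≠ ⊥ ∧ ∀ P : Ideal (𝓞 K), P.IsPrime → P ∣ I → P ∈ PP) →
    ∑ I ∈ S, (1 : ℝ) / (Ideal.absNorm I) ≤ ∏ P ∈ PP, (1 - 1 / (Ideal.absNorm P : ℝ))⁻¹ := by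
  classical
  induction PP using Finset.induction_on with
  | empty =>
    intro _ S hS
    have hsub : S ⊆ {⊤} := by
      intro I hI
      rw [Finset.mem_singleton]
      by_contra hne
      obtain ⟨M, hM, hIM⟩ := Ideal.exists_le_maximal I hne
      have := (hS I hI).2 M hM.isPrime (Ideal.dvd_iff_le.mpr hIM)
      simp at this
    calc ∑ I ∈ S, (1 : ℝ) / (Ideal.absNorm I) ≤ ∑ I ∈ ({⊤} : Finset (Ideal (𝓞 K))), (1 : ℝ) / (Ideal.absNorm I) :=
          Finset.sum_le_sum_of_subset_of_nonneg hsub (fun _ _ _ => by positivity)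
      _ = 1 := by simp
      _ ≤ _ := by simp
  | insert Q PP hQ ih =>
    intro hPP S hS
    have hQ0 : Q ≠ ⊥ := (hPP Q (Finset.mem_insert_self _ _)).1
    have hQp : Q.IsPrime := (hPP Q (Finset.mem_insert_self _ _)).2
    have hQprime : Prime Q := Ideal.prime_of_isPrime hQ0 hQp
    have hN2 := two_le_absNorm_of_prime hQ0 hQp
    have hN2' : (2 : ℝ) ≤ Ideal.absNorm Q := by exact_mod_cast hN2
    have hdec : ∀ I : Ideal (𝓞 K), ∃ (x : ℕ × Ideal (𝓞 K)), I ≠ ⊥ → I = Q ^ x.1 * x.2 ∧ ¬ Q ∣ x.2 := by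
      intro I
      by_cases hI : I = ⊥
      · exact ⟨(0, ⊥), fun h => absurd hI h⟩
      · obtain ⟨c, hc1, hc2⟩ := (FiniteMultiplicity.of_prime_left hQprime hI).exists_eq_pow_mul_and_not_dvd
        exact ⟨(_, c), fun _ => ⟨hc1, hc2⟩⟩
    choose φ hφ using hdec
    set V := S.sup (fun I => (φ I).1) with hV
    have hmaps : ∀ I ∈ S, (φ I).1 ∈ Finset.range (V + 1) := by
      intro I hI
      rw [Finset.mem_range]
      exact Nat.lt_succ_of_le (Finset.le_sup (f := fun I => (φ I).1) hI)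
    rw [← Finset.sum_fiberwise_of_maps_to hmaps]
    have hinner : ∀ k ∈ Finset.range (V + 1),
        ∑ I ∈ S.filter (fun I => (φ I).1 = k), (1 : ℝ) / (Ideal.absNorm I) ≤
        (1 / (Ideal.absNorm Q : ℝ)) ^ k * ∏ P ∈ PP, (1 - 1 / (Ideal.absNorm P : ℝ))⁻¹ := by
      intro k _
      have heq : ∀ I ∈ S.filter (fun I => (φ I).1 = k), I = Q ^ k * (φ I).2 := by
        intro I hI
        rw [Finset.mem_filter] at hI
        have := (hφ I (hS I hI.1).1).1
        rw [hI.2] at this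
        exact this
      have h1 : ∑ I ∈ S.filter (fun I => (φ I).1 = k), (1 : ℝ) / (Ideal.absNorm I) =
          (1 / (Ideal.absNorm Q : ℝ)) ^ k *
          ∑ J ∈ (S.filter (fun I => (φ I).1 = k)).image (fun I => (φ I).2),
            (1 : ℝ) / (Ideal.absNorm J) := by
        rw [Finset.sum_image, Finset.mul_sum]
        · refine Finset.sum_congr rfl fun I hI => ?_
          conv_lhs => rw [heq I hI]
          rw [map_mul, map_pow]
          push_cast
          rw [one_div, mul_inv, one_div, one_div, inv_pow]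
        · intro I hI I' hI' h
          simp only at h
          rw [Finset.mem_coe] at hI hI'
          rw [heq I hI, heq I' hI', h]
      rw [h1]
      apply mul_le_mul_of_nonneg_left _ (by positivity)
      apply ih (fun P hP => hPP P (Finset.mem_insert_of_mem hP))
      intro J hJ
      rw [Finset.mem_image] at hJ
      obtain ⟨I, hI, rfl⟩ := hJ
      have hI' := Finset.mem_filter.mp hI
      have hI0 := (hS I hI'.1).1
      refine ⟨?_, ?_⟩
      · intro h0
        apply hI0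
        rw [heq I hI, h0, Ideal.mul_bot]
      · intro P hP hPd
        have h2 : P ∣ I := by
          rw [heq I hI]
          exact dvd_mul_of_dvd_right hPd _
        have h3 := (hS I hI'.1).2 P hP h2
        rw [Finset.mem_insert] at h3
        rcases h3 with h3 | h3
        · exfalso
          subst h3
          exact (hφ I hI0).2 hPd
        · exact h3
    refine (Finset.sum_le_sum hinner).trans ?_
    rw [← Finset.sum_mul, Finset.prod_insert hQ]
    have hprod : 0 ≤ ∏ P ∈ PP, (1 - 1 / (Ideal.absNorm P : ℝ))⁻¹ := by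
      apply Finset.prod_nonneg
      intro P hP
      obtain ⟨hP0, hPp⟩ := hPP P (Finset.mem_insert_of_mem hP)
      have h2 : (2 : ℝ) ≤ Ideal.absNorm P := by exact_mod_cast two_le_absNorm_of_prime hP0 hPp
      apply inv_nonneg.mpr
      rw [sub_nonneg, div_le_one (by linarith)]
      linarith
    apply mul_le_mul_of_nonneg_right _ hprod
    have hr0 : (0 : ℝ) ≤ 1 / (Ideal.absNorm Q : ℝ) := by positivity
    have hr1 : 1 / (Ideal.absNorm Q : ℝ) < 1 := by
      rw [div_lt_one (by linarith)]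
      linarith
    rw [← tsum_geometric_of_lt_one hr0 hr1]
    exact (summable_geometric_of_lt_one hr0 hr1).sum_le_tsum _ (fun i _ => by positivity)

open scoped Classical in
/-- prime ideals of prime norm at most `N` -/
noncomputable def deg1 (K : Type*) [Field K] [NumberField K] (N : ℕ) : Finset (Ideal (𝓞 K)) :=
  (prm K N).filter (fun P => (Ideal.absNorm P).Prime)

lemma mem_deg1 {N : ℕ} {P : Ideal (𝓞 K)} :
    P ∈ deg1 K N ↔ Ideal.absNorm P ≤ N ∧ (Ideal.absNorm P).Prime := by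
  simp only [deg1, mem_filter, mem_prm]
  constructor
  · rintro ⟨⟨⟨_, h1⟩, _⟩, h2⟩
    exact ⟨h1, h2⟩
  · rintro ⟨h1, h2⟩
    refine ⟨⟨⟨?_, h1⟩, ?_⟩, h2⟩
    · rintro rfl
      rw [Ideal.absNorm_bot] at h2
      exact Nat.not_prime_zero h2
    · exact Ideal.isPrime_of_irreducible_absNorm h2

lemma inv_one_sub_le {x : ℝ} (h0 : 0 ≤ x) (h1 : x ≤ 1 / 2) :
    (1 - x)⁻¹ ≤ Real.exp (x + 2 * x ^ 2) := by
  have h2 : (1 - x)⁻¹ = x / (1 - x) + 1 := by
    have : 1 - x ≠ 0 := by linarith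
    field_simp
    ring
  rw [h2]
  refine (Real.add_one_le_exp _).trans (Real.exp_le_exp.mpr ?_)
  rw [div_le_iff₀ (by linarith)]
  nlinarith [mul_nonneg h0 h0, mul_nonneg (mul_nonneg h0 h0) h0]

lemma sum_inv_le_exp (N : ℕ) :
    ∑ I ∈ idl K N, (1 : ℝ) / (Ideal.absNorm I) ≤
      Real.exp (4 * Module.finrank ℚ K) *
        Real.exp (∑ P ∈ deg1 K N, (1 : ℝ) / (Ideal.absNorm P)) := by
  classical
  set n := Module.finrank ℚ K with hn
  have h1 := euler_le (prm K N) (fun P hP => ⟨(mem_prm.mp hP).1.1, (mem_prm.mp hP).2⟩) (idl K N) ?_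
  swap
  · intro I hI
    obtain ⟨hI0, hIN⟩ := mem_idl.mp hI
    refine ⟨hI0, fun P hP hPI => ?_⟩
    rw [mem_prm]
    refine ⟨⟨?_, ?_⟩, hP⟩
    · rintro rfl
      exact hI0 (le_bot_iff.mp (Ideal.le_of_dvd hPI))
    · exact (Nat.le_of_dvd (absNorm_pos_of_ne_bot hI0)
        (Ideal.absNorm_dvd_absNorm_of_le (Ideal.le_of_dvd hPI))).trans hIN
  refine h1.trans ?_
  rw [← Real.exp_add]
  have h2 : ∏ P ∈ prm K N, (1 - 1 / (Ideal.absNorm P : ℝ))⁻¹ ≤
      Real.exp (∑ P ∈ prm K N, (1 / (Ideal.absNorm P : ℝ) + 2 * (1 / (Ideal.absNorm P : ℝ)) ^ 2)) := by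
    rw [Real.exp_sum]
    apply Finset.prod_le_prod
    · intro P hP
      obtain ⟨⟨hP0, hPN⟩, hPp⟩ := mem_prm.mp hP
      have h2 : (2 : ℝ) ≤ Ideal.absNorm P := by exact_mod_cast two_le_absNorm_of_prime hP0 hPp
      apply inv_nonneg.mpr
      rw [sub_nonneg, div_le_one (by linarith)]
      linarith
    · intro P hP
      obtain ⟨⟨hP0, hPN⟩, hPp⟩ := mem_prm.mp hP
      have h2 : (2 : ℝ) ≤ Ideal.absNorm P := by exact_mod_cast two_le_absNorm_of_prime hP0 hPp
      exact inv_one_sub_le (by positivity) (one_div_le_one_div_of_le (by norm_num) h2)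
  refine h2.trans (Real.exp_le_exp.mpr ?_)
  -- split into degree one part and the rest
  have h3 : ∀ P ∈ prm K N, 1 / (Ideal.absNorm P : ℝ) + 2 * (1 / (Ideal.absNorm P : ℝ)) ^ 2 ≤
      (if (Ideal.absNorm P).Prime then (1 : ℝ) / (Ideal.absNorm P) else 0) +
        2 * (((Ideal.absNorm P).minFac : ℝ) ^ 2)⁻¹ := by
    intro P hP
    obtain ⟨⟨hP0, hPN⟩, hPp⟩ := mem_prm.mp hP
    obtain ⟨p, f, hp, hf, hfn, hmem, hNP⟩ := exists_prime_absNorm hP0 hPp
    have hp2 : (2 : ℝ) ≤ p := by exact_mod_cast hp.two_le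
    split_ifs with h
    · rw [h.minFac_eq]
      rw [div_pow, one_pow, one_div (((Ideal.absNorm P : ℕ) : ℝ) ^ 2)]
    · have hf2 : 2 ≤ f := by
        rcases Nat.lt_or_ge f 2 with h4 | h4
        · exfalso
          have : f = 1 := by omega
          rw [hNP, this, pow_one] at h
          exact h hp
        · exact h4
      rw [hNP, hp.pow_minFac (by omega)]
      push_cast
      have h5 : (p : ℝ) ^ 2 ≤ (p : ℝ) ^ f := pow_le_pow_right₀ (by linarith) hf2
      have h6 : 1 / ((p : ℝ) ^ f) ≤ 1 / (p : ℝ) ^ 2 :=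
        one_div_le_one_div_of_le (by positivity) h5
      have h7 : 1 / (p : ℝ) ^ 2 ≤ 1 / 4 := by
        apply one_div_le_one_div_of_le (by norm_num)
        nlinarith
      have h8 : 0 ≤ 1 / ((p : ℝ) ^ f) := by positivity
      rw [← one_div ((p : ℝ) ^ 2)]
      nlinarith
  refine (Finset.sum_le_sum h3).trans ?_
  rw [Finset.sum_add_distrib, ← Finset.sum_filter]
  have h4 : ∑ P ∈ prm K N, 2 * (((Ideal.absNorm P).minFac : ℝ) ^ 2)⁻¹ ≤ 4 * n := by
    have hmaps : ∀ P ∈ prm K N, (Ideal.absNorm P).minFac ∈ Ioo 0 (N + 1) := by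
      intro P hP
      obtain ⟨⟨hP0, hPN⟩, hPp⟩ := mem_prm.mp hP
      rw [Finset.mem_Ioo]
      have h5 := Nat.minFac_le (absNorm_pos_of_ne_bot hP0)
      exact ⟨Nat.minFac_pos _, by omega⟩
    rw [← Finset.sum_fiberwise_of_maps_to hmaps]
    have h5 : ∀ m ∈ Ioo 0 (N + 1), ∑ P ∈ (prm K N).filter (fun P => (Ideal.absNorm P).minFac = m),
        2 * (((Ideal.absNorm P).minFac : ℝ) ^ 2)⁻¹ ≤ (2 * n) * ((m : ℝ) ^ 2)⁻¹ := by
      intro m hm
      have h6 : ∑ P ∈ (prm K N).filter (fun P => (Ideal.absNorm P).minFac = m),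
        2 * (((Ideal.absNorm P).minFac : ℝ) ^ 2)⁻¹ =
        (((prm K N).filter (fun P => (Ideal.absNorm P).minFac = m)).card : ℝ) * (2 * ((m : ℝ) ^ 2)⁻¹) := by
        rw [Finset.sum_congr rfl (g := fun _ => 2 * ((m : ℝ) ^ 2)⁻¹), Finset.sum_const, nsmul_eq_mul]
        intro P hP
        rw [(Finset.mem_filter.mp hP).2]
      rw [h6]
      have h7 : ((prm K N).filter (fun P => (Ideal.absNorm P).minFac = m)).card ≤ n := by
        by_cases hmp : m.Prime
        · apply card_primes_above_le hmp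
          intro P hP
          obtain ⟨hP1, hP2⟩ := Finset.mem_filter.mp hP
          obtain ⟨⟨hP0, hPN⟩, hPp⟩ := mem_prm.mp hP1
          refine ⟨hPp, ?_⟩
          obtain ⟨p, f, hp, hf, hfn, hmem, hNP⟩ := exists_prime_absNorm hP0 hPp
          rw [hNP, hp.pow_minFac (by omega)] at hP2
          rw [← hP2]
          exact hmem
        · have : (prm K N).filter (fun P => (Ideal.absNorm P).minFac = m) = ∅ := by
            rw [Finset.filter_eq_empty_iff]
            intro P hP heq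
            obtain ⟨⟨hP0, hPN⟩, hPp⟩ := mem_prm.mp hP
            have := two_le_absNorm_of_prime hP0 hPp
            exact hmp (heq ▸ Nat.minFac_prime (by omega))
          rw [this]
          simp
      have h8 : (((prm K N).filter (fun P => (Ideal.absNorm P).minFac = m)).card : ℝ) ≤ n := by
        exact_mod_cast h7
      have h9 : (0 : ℝ) ≤ 2 * ((m : ℝ) ^ 2)⁻¹ := by positivity
      calc _ ≤ (n : ℝ) * (2 * ((m : ℝ) ^ 2)⁻¹) := mul_le_mul_of_nonneg_right h8 h9
        _ = _ := by ring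
    refine (Finset.sum_le_sum h5).trans ?_
    rw [← Finset.mul_sum]
    have h6 := sum_Ioo_inv_sq_le (α := ℝ) 0 (N + 1)
    have h7 : (0 : ℝ) ≤ 2 * n := by positivity
    norm_num at h6
    calc (2 * (n : ℝ)) * ∑ i ∈ Ioo 0 (N + 1), ((i : ℝ) ^ 2)⁻¹ ≤ (2 * n) * 2 :=
          mul_le_mul_of_nonneg_left h6 h7
      _ = 4 * n := by ring
  have h5 : (prm K N).filter (fun P => (Ideal.absNorm P).Prime) = deg1 K N := by
    rw [deg1]
  rw [h5]
  linarith

end Pool.Agent.Lib.MP_695920_nt
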