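import Mathlib
import Pool.Agent.Lib.MP_695920_nt.IdealSums

set_option autoImplicit false

open Finset NumberField Module IsDedekindDomain
open scoped nonZeroDivisors NNReal ENNReal

namespace Pool.Agent.Lib.MP_695920_nt

variable {K : Type*} [Field K] [NumberField K]

lemma discr_ge (J : (FractionalIdeal (𝓞 K)⁰ K)ˣ)
    (v : Basis (Free.ChooseBasisIndex ℤ (𝓞 K)) ℚ K) (hv : ∀ i, v i ∈ (J : FractionalIdeal (𝓞 K)⁰ K)) :
    (FractionalIdeal.absNorm (J : FractionalIdeal (𝓞 K)⁰ K)) ^ 2 * |(discr K : ℚ)| ≤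
      |Algebra.discr ℚ v| := by
  classical
  let e : (Free.ChooseBasisIndex ℤ (𝓞 K)) ≃ (Free.ChooseBasisIndex ℤ J) := by
    refine Fintype.equivOfCardEq ?_
    rw [← finrank_eq_card_chooseBasisIndex, ← finrank_eq_card_chooseBasisIndex,
      fractionalIdeal_rank]
  set c := (basisOfFractionalIdeal K J).reindex e.symm with hc
  set b := integralBasis K with hb
  have h1 := det_basisOfFractionalIdeal_eq_absNorm K J e
  rw [← hc, ← hb] at h1
  -- discriminant in terms of determinant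
  have h2 : Algebra.discr ℚ v = (b.toMatrix v).det ^ 2 * Algebra.discr ℚ b := by
    rw [← Algebra.discr_of_matrix_vecMul, Basis.toMatrix_map_vecMul]
  have h3 : (b.toMatrix v).det = (b.toMatrix c).det * (c.toMatrix v).det := by
    rw [← Matrix.det_mul, Basis.toMatrix_mul_toMatrix]
  have h4 : |(c.toMatrix v).det| ≥ 1 := by
    have hint : ∀ i j, ∃ z : ℤ, (z : ℚ) = c.toMatrix v i j := by
      intro i j
      have h5 : v j ∈ Submodule.span ℤ (Set.range c) := by
        rw [hc, Basis.range_reindex, mem_span_basisOfFractionalIdeal]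
        exact hv j
      have h6 := (c.mem_span_iff_repr_mem ℤ (v j)).mp h5 i
      obtain ⟨z, hz⟩ := h6
      refine ⟨z, ?_⟩
      rw [Basis.toMatrix_apply, ← hz]
      simp
    choose M hM using hint
    have h7 : c.toMatrix v = (Matrix.of M).map (Int.castRingHom ℚ) := by
      ext i j
      rw [Matrix.map_apply, Matrix.of_apply, eq_intCast, hM]
    have h8 : (c.toMatrix v).det = (((Matrix.of M).det : ℤ) : ℚ) := by
      rw [h7, ← RingHom.mapMatrix_apply, ← RingHom.map_det, eq_intCast]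
    have h9 : (c.toMatrix v).det ≠ 0 := by
      have := c.isUnit_det v
      rw [Basis.det_apply] at this
      exact this.ne_zero
    rw [h8] at h9 ⊢
    have h10 : (Matrix.of M).det ≠ 0 := by exact_mod_cast h9
    have h11 : 1 ≤ |(Matrix.of M).det| := Int.one_le_abs h10
    exact_mod_cast h11
  rw [h2, h3, coe_discr, abs_mul, abs_pow, abs_mul]
  have h5 : |(b.toMatrix c).det| = FractionalIdeal.absNorm (J : FractionalIdeal (𝓞 K)⁰ K) := by
    rw [← h1, Basis.det_apply]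
  rw [h5]
  have h6 : 0 ≤ FractionalIdeal.absNorm (J : FractionalIdeal (𝓞 K)⁰ K) := FractionalIdeal.absNorm_nonneg _
  apply mul_le_mul_of_nonneg_right _ (abs_nonneg _)
  apply pow_le_pow_left₀ h6
  nlinarith

lemma discr_powerBasis_le (pb : PowerBasis ℚ K) (X : ℝ) (hX : ∀ φ : K →ₐ[ℚ] ℂ, ‖φ pb.gen‖ ≤ X) :
    |(Algebra.discr ℚ pb.basis : ℝ)| ≤ (2 * X) ^ (finrank ℚ K * (finrank ℚ K - 1)) := by
  classical
  have hcard : Fintype.card (K →ₐ[ℚ] ℂ) = pb.dim := by
    rw [AlgHom.card, pb.finrank]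
  let e : Fin pb.dim ≃ (K →ₐ[ℚ] ℂ) := (Fintype.equivFinOfCardEq hcard).symm
  have h1 := Algebra.discr_powerBasis_eq_prod ℚ ℂ pb e
  have h2 : |(Algebra.discr ℚ pb.basis : ℝ)| = ‖(algebraMap ℚ ℂ) (Algebra.discr ℚ pb.basis)‖ := by
    rw [eq_ratCast, Complex.norm_ratCast]
  have hX0 : 0 ≤ X := by
    have : 0 < pb.dim := pb.dim_pos
    exact (norm_nonneg _).trans (hX (e ⟨0, this⟩))
  rw [h2, h1, norm_prod]
  calc ∏ i : Fin pb.dim, ‖∏ j ∈ Ioi i, ((e j) pb.gen - (e i) pb.gen) ^ 2‖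
      ≤ ∏ i : Fin pb.dim, ∏ j ∈ Ioi i, (2 * X) ^ 2 := by
        apply Finset.prod_le_prod (fun i _ => norm_nonneg _)
        intro i _
        rw [norm_prod]
        apply Finset.prod_le_prod (fun j _ => norm_nonneg _)
        intro j _
        rw [norm_pow]
        apply pow_le_pow_left₀ (norm_nonneg _)
        calc ‖(e j) pb.gen - (e i) pb.gen‖ ≤ ‖(e j) pb.gen‖ + ‖(e i) pb.gen‖ := norm_sub_le _ _
          _ ≤ 2 * X := by linarith [hX (e j), hX (e i)]
    _ = (2 * X) ^ (finrank ℚ K * (finrank ℚ K - 1)) := by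
        simp_rw [Finset.prod_const, Fin.card_Ioi, ← pow_mul]
        rw [Finset.prod_pow_eq_pow_sum]
        congr 1
        rw [pb.finrank, ← Finset.mul_sum]
        rw [Finset.sum_congr rfl (g := fun i : Fin pb.dim => pb.dim - 1 - (i : ℕ)) (fun i _ => by omega)]
        rw [Fin.sum_univ_eq_sum_range (fun i => pb.dim - 1 - i) pb.dim,
          Finset.sum_range_reflect (fun i => i) pb.dim, mul_comm 2, Finset.sum_range_id_mul_two]

open scoped IntermediateField in
lemma disc_bound {P Q : Ideal (𝓞 K)} (hP0 : P ≠ ⊥) {l : ℕ} {x y : 𝓞 K}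
    (hy : y ≠ 0) (h : Ideal.span {x} * P ^ l = Ideal.span {y} * Q ^ l)
    (hgen : ℚ⟮(x : K) / (y : K)⟯ = ⊤) (X : ℝ)
    (hX : ∀ φ : K →ₐ[ℚ] ℂ, ‖φ ((x : K) / (y : K))‖ ≤ X) :
    |(discr K : ℝ)| ≤ (2 * X) ^ (finrank ℚ K * (finrank ℚ K - 1)) *
      (Ideal.absNorm P : ℝ) ^ (2 * l * (finrank ℚ K - 1)) := by
  classical
  set n := finrank ℚ K with hn
  set g : K := (x : K) / (y : K) with hg
  have hyK : (y : K) ≠ 0 := RingOfIntegers.coe_ne_zero_iff.mpr hy
  have hint : IsIntegral ℚ g := Algebra.IsIntegral.isIntegral g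
  let pb : PowerBasis ℚ K := PowerBasis.ofAdjoinEqTop' (x := g) hint (by
    rw [← IntermediateField.adjoin_simple_toSubalgebra_of_isAlgebraic (Algebra.IsAlgebraic.isAlgebraic g), hgen]
    simp)
  have hgen' : pb.gen = g := by
    simp only [pb]
    rw [PowerBasis.ofAdjoinEqTop'_gen]
  have hdim : pb.dim = n := pb.finrank.symm
  have hnpos : 0 < n := finrank_pos
  -- the fractional ideal J
  set m := l * (n - 1) with hm
  have hPm : (P ^ m : Ideal (𝓞 K)) ≠ ⊥ := pow_ne_zero m hP0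
  have hPm' : ((P ^ m : Ideal (𝓞 K)) : FractionalIdeal (𝓞 K)⁰ K) ≠ 0 :=
    FractionalIdeal.coeIdeal_ne_zero.mpr hPm
  let J : (FractionalIdeal (𝓞 K)⁰ K)ˣ := (Units.mk0 _ hPm')⁻¹
  have hJmul : ((P ^ m : Ideal (𝓞 K)) : FractionalIdeal (𝓞 K)⁰ K) * (J : FractionalIdeal (𝓞 K)⁰ K) = 1 := by
    have : (Units.mk0 _ hPm') * J = 1 := mul_inv_cancel _
    exact congrArg Units.val this
  have hgP : FractionalIdeal.spanSingleton (𝓞 K)⁰ g * ((P ^ l : Ideal (𝓞 K)) : FractionalIdeal (𝓞 K)⁰ K)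
      = ((Q ^ l : Ideal (𝓞 K)) : FractionalIdeal (𝓞 K)⁰ K) := by
    have h1 : ((Ideal.span {x} * P ^ l : Ideal (𝓞 K)) : FractionalIdeal (𝓞 K)⁰ K) =
        ((Ideal.span {y} * Q ^ l : Ideal (𝓞 K)) : FractionalIdeal (𝓞 K)⁰ K) := by rw [h]
    rw [FractionalIdeal.coeIdeal_mul, FractionalIdeal.coeIdeal_mul,
      FractionalIdeal.coeIdeal_span_singleton, FractionalIdeal.coeIdeal_span_singleton] at h1
    have h2 : FractionalIdeal.spanSingleton (𝓞 K)⁰ (g) =
      FractionalIdeal.spanSingleton (𝓞 K)⁰ ((y : K)⁻¹) * FractionalIdeal.spanSingleton (𝓞 K)⁰ (x : K) := by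
      rw [FractionalIdeal.spanSingleton_mul_spanSingleton, hg, div_eq_inv_mul]
    rw [h2, mul_assoc]
    change FractionalIdeal.spanSingleton (𝓞 K)⁰ ((y : K)⁻¹) *
      (FractionalIdeal.spanSingleton (𝓞 K)⁰ ((algebraMap (𝓞 K) K) x) * _) = _
    rw [h1, ← mul_assoc, FractionalIdeal.spanSingleton_mul_spanSingleton]
    change FractionalIdeal.spanSingleton (𝓞 K)⁰ ((y : K)⁻¹ * (y : K)) * _ = _
    rw [inv_mul_cancel₀ hyK]
    simp
  have hmem : ∀ k : ℕ, k ≤ n - 1 → g ^ k ∈ (J : FractionalIdeal (𝓞 K)⁰ K) := by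
    intro k hk
    rw [← FractionalIdeal.spanSingleton_le_iff_mem]
    have h3 : FractionalIdeal.spanSingleton (𝓞 K)⁰ (g ^ k) *
        ((P ^ m : Ideal (𝓞 K)) : FractionalIdeal (𝓞 K)⁰ K) ≤ 1 := by
      have h4 : P ^ m = (P ^ l) ^ k * P ^ (l * (n - 1 - k)) := by
        rw [← pow_mul, ← pow_add, ← mul_add, Nat.add_sub_cancel' hk]
      rw [h4, FractionalIdeal.coeIdeal_mul, FractionalIdeal.coeIdeal_pow, ← mul_assoc,
        ← FractionalIdeal.spanSingleton_pow, ← mul_pow, hgP, ← FractionalIdeal.coeIdeal_pow,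
        ← FractionalIdeal.coeIdeal_mul]
      exact FractionalIdeal.coeIdeal_le_one
    calc FractionalIdeal.spanSingleton (𝓞 K)⁰ (g ^ k)
        = FractionalIdeal.spanSingleton (𝓞 K)⁰ (g ^ k) *
          ((P ^ m : Ideal (𝓞 K)) : FractionalIdeal (𝓞 K)⁰ K) * J := by
          rw [mul_assoc, hJmul, mul_one]
      _ ≤ 1 * J := mul_le_mul_left h3 _
      _ = J := one_mul _
  let e : Fin pb.dim ≃ (Free.ChooseBasisIndex ℤ (𝓞 K)) := by
    refine Fintype.equivOfCardEq ?_
    rw [← finrank_eq_card_chooseBasisIndex, Fintype.card_fin, RingOfIntegers.rank, hdim]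
  have h5 := discr_ge J (pb.basis.reindex e) (by
    intro i
    rw [Basis.reindex_apply, pb.coe_basis, hgen']
    apply hmem
    have := (e.symm i).2
    omega)
  have h6 : Algebra.discr ℚ (pb.basis.reindex e) = Algebra.discr ℚ pb.basis := by
    have := Algebra.discr_reindex ℚ pb.basis e
    rw [← this]
    congr 1
    ext i
    simp
  rw [h6] at h5
  have h7 := discr_powerBasis_le pb X (by rw [hgen']; exact hX)
  have hJN : (FractionalIdeal.absNorm (J : FractionalIdeal (𝓞 K)⁰ K)) =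
      ((Ideal.absNorm P : ℚ) ^ m)⁻¹ := by
    have h8 := congrArg FractionalIdeal.absNorm hJmul
    rw [map_mul, map_one, FractionalIdeal.coeIdeal_absNorm, map_pow] at h8
    push_cast at h8
    exact (eq_inv_of_mul_eq_one_right h8)
  rw [hJN] at h5
  have hNP : (0 : ℝ) < Ideal.absNorm P := by exact_mod_cast absNorm_pos_of_ne_bot hP0
  have h9 : (((Ideal.absNorm P : ℝ) ^ m)⁻¹) ^ 2 * |(discr K : ℝ)| ≤ |(Algebra.discr ℚ pb.basis : ℝ)| := by
    have h9' := (Rat.cast_le (K := ℝ)).mpr h5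
    push_cast at h9'
    exact h9'
  have h10 : ((Ideal.absNorm P : ℝ) ^ m) ^ 2 = (Ideal.absNorm P : ℝ) ^ (2 * l * (n - 1)) := by
    rw [← pow_mul]; congr 1; rw [hm]; ring
  rw [← h10]
  have h11 : 0 < ((Ideal.absNorm P : ℝ) ^ m) := by positivity
  calc |(discr K : ℝ)| = ((((Ideal.absNorm P : ℝ) ^ m)⁻¹) ^ 2 * |(discr K : ℝ)|) * ((Ideal.absNorm P : ℝ) ^ m) ^ 2 := by
        field_simp
    _ ≤ (2 * X) ^ (n * (n - 1)) * ((Ideal.absNorm P : ℝ) ^ m) ^ 2 := by
        apply mul_le_mul_of_nonneg_right (h9.trans h7) (by positivity)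

lemma valuation_ratio (w : HeightOneSpectrum (𝓞 K)) {x y : 𝓞 K} (hx : x ≠ 0) (hy : y ≠ 0)
    {A B : Ideal (𝓞 K)} (hA : A ≠ ⊥) (hB : B ≠ ⊥)
    (h : Ideal.span {x} * A = Ideal.span {y} * B) :
    w.valuation K ((x : K) / (y : K)) =
      WithZero.exp ((multiplicity w.asIdeal A : ℤ) - (multiplicity w.asIdeal B : ℤ)) := by
  have hprime : Prime w.asIdeal := w.prime
  have hsx : Ideal.span {x} ≠ ⊥ := by simpa using hx
  have hsy : Ideal.span {y} ≠ ⊥ := by simpa using hy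
  have fm : ∀ {I : Ideal (𝓞 K)}, I ≠ ⊥ → FiniteMultiplicity w.asIdeal I := fun hI =>
    FiniteMultiplicity.of_prime_left hprime hI
  have h1 : multiplicity w.asIdeal (Ideal.span {x}) + multiplicity w.asIdeal A =
      multiplicity w.asIdeal (Ideal.span {y}) + multiplicity w.asIdeal B := by
    rw [← multiplicity_mul hprime (fm (mul_ne_zero hsx hA)),
      ← multiplicity_mul hprime (fm (mul_ne_zero hsy hB)), h]
  have hvx : w.valuation K (x : K) = WithZero.exp (-(multiplicity w.asIdeal (Ideal.span {x}) : ℤ)) := by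
    have := w.valuation_of_algebraMap (K := K) x
    rw [← w.intValuation_eq_exp_neg_multiplicity hx]
    exact this
  have hvy : w.valuation K (y : K) = WithZero.exp (-(multiplicity w.asIdeal (Ideal.span {y}) : ℤ)) := by
    have := w.valuation_of_algebraMap (K := K) y
    rw [← w.intValuation_eq_exp_neg_multiplicity hy]
    exact this
  rw [map_div₀, hvx, hvy, ← WithZero.exp_sub]
  congr 1
  omega

/-- a prime ideal of prime norm that can be used in the Ellenberg-Venkatesh argument -/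
def Good (l : ℕ) (P : Ideal (𝓞 K)) : Prop :=
  (Ideal.absNorm P).Prime ∧
    (¬ l ∣ finrank ℚ K ∨ Ideal.ramificationIdx' (Ideal.span {((Ideal.absNorm P : ℕ) : ℤ)}) P < l)

lemma multiplicity_eq_zero_of_not_dvd {P I : Ideal (𝓞 K)} (h : ¬ P ∣ I) : multiplicity P I = 0 :=
  multiplicity_eq_zero.mpr h

open scoped IntermediateField in
lemma gen_top {l : ℕ} (hl : l.Prime) {P Q : Ideal (𝓞 K)} (hP : Good l P) (hQ0 : Q ≠ ⊥)
    (hQ : ∀ R : Ideal (𝓞 K), R.IsPrime → ((Ideal.absNorm P : ℕ) : 𝓞 K) ∈ R → ¬ Q ≤ R)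
    {x y : 𝓞 K} (hx : x ≠ 0) (hy : y ≠ 0)
    (h : Ideal.span {x} * P ^ l = Ideal.span {y} * Q ^ l) :
    ℚ⟮(x : K) / (y : K)⟯ = ⊤ := by
  classical
  set p := Ideal.absNorm P with hpdef
  have hp : p.Prime := hP.1
  have hP0 : P ≠ ⊥ := by
    rintro rfl
    rw [hpdef, Ideal.absNorm_bot] at hp
    exact Nat.not_prime_zero hp
  have hPp : P.IsPrime := Ideal.isPrime_of_irreducible_absNorm hp
  have hPmax : P.IsMaximal := hPp.isMaximal hP0
  have hpP : (p : 𝓞 K) ∈ P := Ideal.absNorm_mem P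
  set g : K := (x : K) / (y : K) with hg
  set F : IntermediateField ℚ K := ℚ⟮g⟯ with hF
  let g0 : F := ⟨g, IntermediateField.mem_adjoin_simple_self ℚ g⟩
  have hg0 : algebraMap F K g0 = g := rfl
  -- the prime below
  let P0 : Ideal (𝓞 F) := P.under (𝓞 F)
  have hP0p : P0.IsPrime := inferInstance
  have hPover : P.LiesOver P0 := ⟨rfl⟩
  have hP0ne : P0 ≠ ⊥ := by
    intro h0
    have : (p : 𝓞 F) ∈ P0 := by
      change (p : 𝓞 F) ∈ P.under (𝓞 F)
      rw [Ideal.under, Ideal.mem_comap]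
      simpa using hpP
    rw [h0, Ideal.mem_bot] at this
    exact hp.ne_zero (by exact_mod_cast this)
  have hP0max : P0.IsMaximal := hP0p.isMaximal hP0ne
  have hpP0 : (p : 𝓞 F) ∈ P0 := by
    change (p : 𝓞 F) ∈ P.under (𝓞 F)
    rw [Ideal.under, Ideal.mem_comap]
    simpa using hpP
  let w : HeightOneSpectrum (𝓞 K) := ⟨P, hPp, hP0⟩
  let v : HeightOneSpectrum (𝓞 F) := ⟨P0, hP0p, hP0ne⟩
  have hPl : P ^ l ≠ ⊥ := pow_ne_zero l hP0
  have hQl : Q ^ l ≠ ⊥ := pow_ne_zero l hQ0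
  -- valuations of g at primes above P0
  have hval : ∀ (R : Ideal (𝓞 K)) (hRp : R.IsPrime) (hR0 : R ≠ ⊥) (hRo : R.LiesOver P0),
      (v.valuation F g0) ^ (Ideal.ramificationIdx' P0 R) =
        WithZero.exp ((multiplicity R (P ^ l) : ℤ)) := by
    intro R hRp hR0 hRo
    let wR : HeightOneSpectrum (𝓞 K) := ⟨R, hRp, hR0⟩
    have : wR.asIdeal.LiesOver v.asIdeal := hRo
    have h1 := HeightOneSpectrum.valuation_liesOver K v wR g0
    rw [hg0] at h1
    change (v.valuation F g0) ^ (Ideal.ramificationIdx' P0 R) = _ at h1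
    rw [h1, hg, valuation_ratio wR hx hy hPl hQl h]
    have hpR : (p : 𝓞 K) ∈ R := by
      have h2 : P0 = R.under (𝓞 F) := hRo.over
      rw [h2, Ideal.under, Ideal.mem_comap] at hpP0
      simpa using hpP0
    have h3 : ¬ R ∣ Q ^ l := by
      intro h4
      have h5 : R ∣ Q := (Ideal.prime_of_isPrime hR0 hRp).dvd_of_dvd_pow h4
      exact hQ R hRp hpR (Ideal.le_of_dvd h5)
    rw [multiplicity_eq_zero_of_not_dvd h3]
    simp
    rfl
  have hmultP : multiplicity P (P ^ l) = l := by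
    apply multiplicity_pow_self hP0
    intro hu
    rw [Ideal.isUnit_iff] at hu
    exact hPp.ne_top hu
  -- P is the only prime above P0
  have huniq : IsDedekindDomain.primesOverFinset P0 (𝓞 K) = {P} := by
    ext R
    rw [IsDedekindDomain.mem_primesOverFinset_iff hP0ne, Finset.mem_singleton]
    constructor
    · rintro ⟨hRp, hRo⟩
      by_contra hne
      have hR0 : R ≠ ⊥ := Ideal.ne_bot_of_liesOver_of_ne_bot hP0ne R
      have hRmax : R.IsMaximal := hRp.isMaximal hR0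
      have h1 := hval R hRp hR0 hRo
      have h2 : multiplicity R (P ^ l) = 0 := by
        apply multiplicity_eq_zero_of_not_dvd
        intro h4
        have h5 : R ∣ P := (Ideal.prime_of_isPrime hR0 hRp).dvd_of_dvd_pow h4
        exact hne (hPmax.eq_of_le hRp.ne_top (Ideal.le_of_dvd h5)).symm
      rw [h2] at h1
      have h6 := hval P hPp hP0 hPover
      rw [hmultP] at h6
      have hne0 : Ideal.ramificationIdx' P0 R ≠ 0 :=
        Ideal.IsDedekindDomain.ramificationIdx'_ne_zero_of_liesOver R hP0ne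
      have h7 : v.valuation F g0 = 1 := by
        simp only [Nat.cast_zero, WithZero.exp_zero] at h1
        exact (pow_eq_one_iff.mp h1).resolve_right hne0
      rw [h7, one_pow] at h6
      have h8 : (0 : ℤ) = l := by
        have : WithZero.exp (0 : ℤ) = WithZero.exp (l : ℤ) := by simpa using h6
        exact WithZero.exp_injective this
      exact hl.ne_zero (by exact_mod_cast h8.symm)
    · rintro rfl
      exact ⟨hPp, hPover⟩
  have hsum := Ideal.sum_ramification_inertia (𝓞 K) F K (p := P0) hP0ne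
  rw [huniq, Finset.sum_singleton] at hsum
  -- inertia degree one
  have hPoverp : P.LiesOver (Ideal.span {(p : ℤ)}) := liesOver_of_mem hPp hp hpP
  have hP0overp : P0.LiesOver (Ideal.span {(p : ℤ)}) := liesOver_of_mem hP0p hp hpP0
  have hspmax : (Ideal.span {(p : ℤ)}).IsMaximal :=
    ((Ideal.span_singleton_prime (by exact_mod_cast hp.ne_zero)).mpr
      (Nat.prime_iff_prime_int.mp hp)).isMaximal (by simpa using hp.ne_zero)
  have hf1 : Ideal.inertiaDeg' (Ideal.span {(p : ℤ)}) P = 1 := by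
    have h1 := Ideal.absNorm_eq_pow_inertiaDeg' P hp
    rw [← hpdef] at h1
    have h2 : p ^ 1 = p ^ (Ideal.inertiaDeg' (Ideal.span {(p : ℤ)}) P) := by rw [pow_one]; exact h1
    exact (Nat.pow_right_injective hp.two_le h2).symm
  have hf2 : Ideal.inertiaDeg' P0 P = 1 := by
    have h1 := Ideal.inertiaDeg'_algebra_tower (Ideal.span {(p : ℤ)}) P0 P
    rw [hf1] at h1
    exact Nat.eq_one_of_mul_eq_one_left h1.symm
  rw [hf2, mul_one] at hsum
  have h6 := hval P hPp hP0 hPover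
  rw [hmultP, hsum] at h6
  have hv0 : v.valuation F g0 ≠ 0 := by
    intro h0
    rw [h0, zero_pow finrank_pos.ne'] at h6
    exact WithZero.exp_ne_zero h6.symm
  have hdvd : finrank F K ∣ l := by
    have h7 : v.valuation F g0 = WithZero.exp (WithZero.log (v.valuation F g0)) :=
      (WithZero.exp_log hv0).symm
    rw [h7, ← WithZero.exp_nsmul] at h6
    have h8 := WithZero.exp_injective h6
    have h9 : (finrank F K : ℤ) ∣ (l : ℤ) := by
      rw [← h8, nsmul_eq_mul]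
      exact Dvd.intro _ rfl
    exact_mod_cast h9
  rcases (Nat.dvd_prime hl).mp hdvd with h1 | h1
  · exact IntermediateField.finrank_eq_one_iff_eq_top.mp h1
  · exfalso
    rcases hP.2 with h2 | h2
    · apply h2
      have h3 := Module.finrank_mul_finrank ℚ F K
      rw [h1] at h3
      exact Dvd.intro_left _ h3
    · have h3 := Ideal.ramificationIdx'_algebra_tower' (Ideal.span {(p : ℤ)}) P0 P
      rw [hsum, h1] at h3
      rw [← hpdef, h3] at h2
      have h4 : Ideal.ramificationIdx' (Ideal.span {(p : ℤ)}) P0 ≠ 0 :=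
        Ideal.IsDedekindDomain.ramificationIdx'_ne_zero_of_liesOver P0 (by simpa using hp.ne_zero)
      have h5 : l ≤ Ideal.ramificationIdx' (Ideal.span {(p : ℤ)}) P0 * l :=
        Nat.le_mul_of_pos_left _ (Nat.pos_of_ne_zero h4)
      omega

lemma Good.ne_bot {l : ℕ} {P : Ideal (𝓞 K)} (hP : Good l P) : P ≠ ⊥ := by
  rintro rfl
  have := hP.1
  rw [Ideal.absNorm_bot] at this
  exact Nat.not_prime_zero this

lemma Good.isPrime {l : ℕ} {P : Ideal (𝓞 K)} (hP : Good l P) : P.IsPrime :=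
  Ideal.isPrime_of_irreducible_absNorm hP.1

lemma good_aux {l : ℕ} {P Q : Ideal (𝓞 K)} (hP : Good l P) (hQ : Q = ⊤ ∨ Good l Q)
    (hne : Ideal.absNorm P ≠ Ideal.absNorm Q) (R : Ideal (𝓞 K)) (hR : R.IsPrime)
    (hpR : ((Ideal.absNorm P : ℕ) : 𝓞 K) ∈ R) : ¬ Q ≤ R := by
  intro hQR
  rcases hQ with rfl | hQ
  · exact hR.ne_top (top_le_iff.mp hQR)
  · have hqR : ((Ideal.absNorm Q : ℕ) : 𝓞 K) ∈ R := hQR (Ideal.absNorm_mem Q)
    have hcop : Nat.Coprime (Ideal.absNorm P) (Ideal.absNorm Q) :=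
      (Nat.coprime_primes hP.1 hQ.1).mpr hne
    have h1 : (1 : 𝓞 K) ∈ R := by
      have h2 : IsCoprime ((Ideal.absNorm P : ℕ) : ℤ) ((Ideal.absNorm Q : ℕ) : ℤ) :=
        Nat.isCoprime_iff_coprime.mpr hcop
      obtain ⟨a, b, hab⟩ := h2
      have h3 : (1 : 𝓞 K) = (a : 𝓞 K) * ((Ideal.absNorm P : ℕ) : 𝓞 K) +
          (b : 𝓞 K) * ((Ideal.absNorm Q : ℕ) : 𝓞 K) := by
        have := congrArg (fun z : ℤ => (z : 𝓞 K)) hab
        push_cast at this
        exact this.symm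
      rw [h3]
      exact R.add_mem (R.mul_mem_left _ hpR) (R.mul_mem_left _ hqR)
    exact hR.ne_top ((Ideal.eq_top_iff_one R).mpr h1)

open scoped IntermediateField in
lemma collision {l : ℕ} (hl : l.Prime) {P Q : Ideal (𝓞 K)} (hP : P = ⊤ ∨ Good l P)
    (hQ : Q = ⊤ ∨ Good l Q) (hne : Ideal.absNorm P ≠ Ideal.absNorm Q)
    {x y : 𝓞 K} (hx : x ≠ 0) (hy : y ≠ 0)
    (h : Ideal.span {x} * P ^ l = Ideal.span {y} * Q ^ l) (X : ℝ)
    (hX : ∀ φ : K →ₐ[ℚ] ℂ, ‖φ ((x : K) / (y : K))‖ ≤ X) :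
    |(discr K : ℝ)| ≤ (2 * X) ^ (finrank ℚ K * (finrank ℚ K - 1)) *
      (Ideal.absNorm P : ℝ) ^ (2 * l * (finrank ℚ K - 1)) := by
  have hP0 : P ≠ ⊥ := by
    rcases hP with rfl | hP
    · exact top_ne_bot
    · exact hP.ne_bot
  have hQ0 : Q ≠ ⊥ := by
    rcases hQ with rfl | hQ
    · exact top_ne_bot
    · exact hQ.ne_bot
  refine disc_bound hP0 hy h ?_ X hX
  rcases hP with hP' | hP
  · rcases hQ with hQ' | hQ
    · exfalso; apply hne; rw [hP', hQ']
    · have h1 := gen_top hl hQ hP0 (fun R hR hpR => good_aux hQ (Or.inl hP') hne.symm R hR hpR)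
        hy hx h.symm
      rw [eq_top_iff, ← h1, IntermediateField.adjoin_simple_le_iff]
      have h2 : (y : K) / (x : K) = ((x : K) / (y : K))⁻¹ := by rw [inv_div]
      rw [h2]
      exact inv_mem (IntermediateField.mem_adjoin_simple_self ℚ _)
  · exact gen_top hl hP hQ0 (fun R hR hpR => good_aux hP hQ hne R hR hpR) hx hy h

open InfinitePlace mixedEmbedding in
lemma minkowski_box (A : Ideal (𝓞 K)) (hA : A ≠ ⊥) (f : InfinitePlace K → ℝ≥0)
    (hf : 2 * Real.sqrt |(discr K : ℝ)| * Ideal.absNorm A ≤ ∏ w, ((f w : ℝ≥0) : ℝ) ^ (mult w)) :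
    ∃ a : 𝓞 K, a ∈ A ∧ a ≠ 0 ∧ ∀ w : InfinitePlace K, w (a : K) < f w := by
  classical
  have hA' : (A : FractionalIdeal (𝓞 K)⁰ K) ≠ 0 := FractionalIdeal.coeIdeal_ne_zero.mpr hA
  let I : (FractionalIdeal (𝓞 K)⁰ K)ˣ := Units.mk0 _ hA'
  have hN : (0 : ℝ) < Ideal.absNorm A := by exact_mod_cast absNorm_pos_of_ne_bot hA
  have hD : 0 < Real.sqrt |(discr K : ℝ)| := by
    apply Real.sqrt_pos.mpr
    exact abs_pos.mpr (by exact_mod_cast discr_ne_zero K)
  have hkey : minkowskiBound K I < MeasureTheory.volume (convexBodyLT K f) := by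
    rw [minkowskiBound, volume_fundamentalDomain_fractionalIdealLatticeBasis,
      volume_fundamentalDomain_latticeBasis, convexBodyLT_volume]
    have h1 : ENNReal.ofReal (FractionalIdeal.absNorm (I : FractionalIdeal (𝓞 K)⁰ K)) *
        ((2 : ℝ≥0∞)⁻¹ ^ nrComplexPlaces K * (NNReal.sqrt ‖discr K‖₊ : ℝ≥0∞)) *
        2 ^ finrank ℝ (mixedSpace K) =
        ENNReal.ofReal ((Ideal.absNorm A : ℝ) * ((2 : ℝ)⁻¹ ^ nrComplexPlaces K *
          Real.sqrt |(discr K : ℝ)|) * 2 ^ (nrRealPlaces K + 2 * nrComplexPlaces K)) := by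
      rw [card_add_two_mul_card_eq_rank, mixedEmbedding.finrank]
      rw [ENNReal.ofReal_mul (by positivity), ENNReal.ofReal_mul (by positivity),
        ENNReal.ofReal_mul (by positivity)]
      congr 1
      · congr 1
        · simp only [I, Units.val_mk0]
          rw [FractionalIdeal.coeIdeal_absNorm]
          simp
        · congr 1
          · rw [ENNReal.ofReal_pow (by positivity), ENNReal.ofReal_inv_of_pos (by norm_num)]
            norm_num
          · rw [← ENNReal.ofReal_coe_nnreal]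
            congr 1
            simp [Int.norm_eq_abs]
      · rw [ENNReal.ofReal_pow (by norm_num)]
        norm_num
    rw [h1]
    have h2 : ((convexBodyLTFactor K : ℝ≥0) : ℝ≥0∞) * ((∏ w, (f w) ^ (mult w) : ℝ≥0) : ℝ≥0∞) =
        ENNReal.ofReal ((2 ^ nrRealPlaces K * Real.pi ^ nrComplexPlaces K) *
          ∏ w, ((f w : ℝ≥0) : ℝ) ^ (mult w)) := by
      rw [← ENNReal.coe_mul, ← ENNReal.ofReal_coe_nnreal]
      congr 1
      push_cast
      rfl
    rw [h2]
    have hPpos : 0 < 2 * Real.sqrt |(discr K : ℝ)| * Ideal.absNorm A := by positivity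
    rw [ENNReal.ofReal_lt_ofReal_iff]
    · have hpi : (2 : ℝ) ^ nrComplexPlaces K ≤ Real.pi ^ nrComplexPlaces K :=
        pow_le_pow_left₀ (by norm_num) Real.two_le_pi _
      have h3 : (2 : ℝ)⁻¹ ^ nrComplexPlaces K * 2 ^ (nrRealPlaces K + 2 * nrComplexPlaces K) =
          2 ^ nrRealPlaces K * 2 ^ nrComplexPlaces K := by
        rw [pow_add, two_mul (nrComplexPlaces K), pow_add, inv_pow]
        field_simp
      calc (Ideal.absNorm A : ℝ) * ((2 : ℝ)⁻¹ ^ nrComplexPlaces K *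
          Real.sqrt |(discr K : ℝ)|) * 2 ^ (nrRealPlaces K + 2 * nrComplexPlaces K)
          = ((2 : ℝ)⁻¹ ^ nrComplexPlaces K * 2 ^ (nrRealPlaces K + 2 * nrComplexPlaces K)) *
            (Real.sqrt |(discr K : ℝ)| * Ideal.absNorm A) := by ring
        _ = (2 ^ nrRealPlaces K * 2 ^ nrComplexPlaces K) *
            (Real.sqrt |(discr K : ℝ)| * Ideal.absNorm A) := by rw [h3]
        _ < (2 ^ nrRealPlaces K * 2 ^ nrComplexPlaces K) *
            (2 * Real.sqrt |(discr K : ℝ)| * Ideal.absNorm A) := by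
            apply mul_lt_mul_of_pos_left _ (by positivity)
            nlinarith [mul_pos hD hN]
        _ ≤ (2 ^ nrRealPlaces K * Real.pi ^ nrComplexPlaces K) *
            ∏ w, ((f w : ℝ≥0) : ℝ) ^ (mult w) := by
            apply mul_le_mul _ hf hPpos.le (by positivity)
            exact mul_le_mul_of_nonneg_left hpi (by positivity)
    · apply mul_pos (by positivity)
      exact lt_of_lt_of_le hPpos hf
  obtain ⟨a, haI, ha0, haw⟩ := exists_ne_zero_mem_ideal_lt K I hkey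
  simp only [I, Units.val_mk0] at haI
  obtain ⟨a', ha', rfl⟩ := (FractionalIdeal.mem_coeIdeal _).mp haI
  refine ⟨a', ha', ?_, haw⟩
  rintro rfl
  exact ha0 (map_zero _)

/-- twice the square root of the absolute discriminant -/
noncomputable def ZK (K : Type*) [Field K] [NumberField K] : ℝ := 2 * Real.sqrt |(discr K : ℝ)|

lemma ZK_pos : 0 < ZK K := by
  have hD : 0 < Real.sqrt |(discr K : ℝ)| := by
    apply Real.sqrt_pos.mpr
    exact abs_pos.mpr (by exact_mod_cast discr_ne_zero K)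
  unfold ZK
  linarith

lemma infinitePlace_pos {w : InfinitePlace K} {a : 𝓞 K} (ha : a ≠ 0) : 0 < w (a : K) :=
  InfinitePlace.pos_iff.mpr (RingOfIntegers.coe_ne_zero_iff.mpr ha)

lemma prod_infinitePlace_eq (a : 𝓞 K) :
    ∏ w : InfinitePlace K, w (a : K) ^ w.mult = (Ideal.absNorm (Ideal.span {a}) : ℝ) := by
  rw [InfinitePlace.prod_eq_abs_norm, Ideal.absNorm_span_singleton]
  rw [← Algebra.coe_norm_int]
  push_cast
  rw [Nat.cast_natAbs]
  push_cast
  rfl

open InfinitePlace in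
lemma pair_exists {l : ℕ} (hl : 0 < l) (P : (Ideal (𝓞 K))⁰) (c : ClassGroup (𝓞 K)) (hc : c ^ l = 1) :
    ∃ (B : (Ideal (𝓞 K))⁰) (a b : 𝓞 K), a ≠ 0 ∧ b ≠ 0 ∧
      ClassGroup.mk0 B = c * ClassGroup.mk0 P ∧
      (Ideal.absNorm (B : Ideal (𝓞 K)) : ℝ) < ZK K ∧
      Ideal.span {b} * (B : Ideal (𝓞 K)) ^ l = Ideal.span {a} * (P : Ideal (𝓞 K)) ^ l ∧
      ∀ w : InfinitePlace K, w (a : K) <
        (ZK K / Ideal.absNorm (P : Ideal (𝓞 K))) ^ ((l : ℝ) / finrank ℚ K) * w (b : K) := by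
  classical
  set n := finrank ℚ K with hn
  have hnpos : 0 < n := finrank_pos
  have hnR : (0 : ℝ) < n := by exact_mod_cast hnpos
  have hlR : (0 : ℝ) < l := by exact_mod_cast hl
  obtain ⟨A, hA⟩ := ClassGroup.mk0_surjective (c * ClassGroup.mk0 P)⁻¹
  have hA0 : (A : Ideal (𝓞 K)) ≠ ⊥ := nonZeroDivisors.coe_ne_zero A
  have hP0 : (P : Ideal (𝓞 K)) ≠ ⊥ := nonZeroDivisors.coe_ne_zero P
  have hNA : (0 : ℝ) < Ideal.absNorm (A : Ideal (𝓞 K)) := by
    exact_mod_cast absNorm_pos_of_ne_bot hA0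
  have hNP : (0 : ℝ) < Ideal.absNorm (P : Ideal (𝓞 K)) := by
    exact_mod_cast absNorm_pos_of_ne_bot hP0
  have hprin : ClassGroup.mk0 ((A * P) ^ l) = 1 := by
    rw [map_pow, map_mul, hA, mul_inv, inv_mul_cancel_right, inv_pow, hc, inv_one]
  rw [ClassGroup.mk0_eq_one_iff] at hprin
  obtain ⟨γ, hγ⟩ := hprin
  have hγ' : ((A : Ideal (𝓞 K)) * (P : Ideal (𝓞 K))) ^ l = Ideal.span {γ} := by
    have h1 : (((A * P) ^ l : (Ideal (𝓞 K))⁰) : Ideal (𝓞 K)) =
      ((A : Ideal (𝓞 K)) * (P : Ideal (𝓞 K))) ^ l := by push_cast; rfl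
    rw [← h1, hγ]
  have hγ0 : γ ≠ 0 := by
    rintro rfl
    have h2 : ((A : Ideal (𝓞 K)) * (P : Ideal (𝓞 K))) ^ l = ⊥ := by rw [hγ']; simp
    exact (pow_ne_zero l (mul_ne_zero hA0 hP0)) h2
  set Z := ZK K with hZ
  have hZ0 : 0 < Z := ZK_pos
  -- the box
  let fR : InfinitePlace K → ℝ := fun w =>
    (Z / Ideal.absNorm (P : Ideal (𝓞 K))) ^ ((1 : ℝ) / n) * (w (γ : K)) ^ ((1 : ℝ) / l)
  have hf0 : ∀ w, 0 < fR w := by
    intro w
    have := infinitePlace_pos (w := w) hγ0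
    simp only [fR]
    positivity
  have hprodγ : ∏ w : InfinitePlace K, (w (γ : K)) ^ w.mult =
      ((Ideal.absNorm (A : Ideal (𝓞 K)) : ℝ) * Ideal.absNorm (P : Ideal (𝓞 K))) ^ l := by
    rw [prod_infinitePlace_eq, ← hγ', map_pow, map_mul]
    push_cast
    rfl
  have hprodf : ∏ w : InfinitePlace K, (fR w) ^ w.mult = Z * Ideal.absNorm (A : Ideal (𝓞 K)) := by
    simp only [fR]
    simp_rw [mul_pow]
    rw [Finset.prod_mul_distrib, Finset.prod_pow_eq_pow_sum, sum_mult_eq, ← hn,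
      ← Real.rpow_natCast _ n, ← Real.rpow_mul (by positivity), one_div_mul_cancel hnR.ne',
      Real.rpow_one]
    have h3 : ∀ w : InfinitePlace K, ((w (γ : K)) ^ ((1 : ℝ) / l)) ^ w.mult =
        ((w (γ : K)) ^ w.mult) ^ ((1 : ℝ) / l) := by
      intro w
      have := infinitePlace_pos (w := w) hγ0
      rw [← Real.rpow_natCast, ← Real.rpow_mul this.le, ← Real.rpow_natCast,
        ← Real.rpow_mul this.le, mul_comm]
    simp_rw [h3]
    rw [Real.finsetProd_rpow _ _ (fun w _ => by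
      have := infinitePlace_pos (w := w) hγ0
      positivity), hprodγ, ← Real.rpow_natCast _ l, ← Real.rpow_mul (by positivity),
      mul_one_div_cancel hlR.ne', Real.rpow_one]
    field_simp
  obtain ⟨α, hαA, hα0, hαw⟩ := minkowski_box (A : Ideal (𝓞 K)) hA0 (fun w => ⟨fR w, (hf0 w).le⟩) (by
    change Z * _ ≤ ∏ w, (fR w) ^ w.mult
    rw [hprodf])
  have hαw' : ∀ w : InfinitePlace K, w (α : K) < fR w := hαw
  obtain ⟨B0, hB0⟩ := Ideal.dvd_iff_le.mpr ((Ideal.span_singleton_le_iff_mem _).mpr hαA)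
  have hspα : Ideal.span {α} ≠ ⊥ := by simpa using hα0
  have hB0ne : B0 ≠ ⊥ := by
    rintro rfl
    rw [Ideal.mul_bot] at hB0
    exact hspα hB0
  let B : (Ideal (𝓞 K))⁰ := ⟨B0, mem_nonZeroDivisors_of_ne_zero hB0ne⟩
  refine ⟨B, α ^ l, γ, pow_ne_zero l hα0, hγ0, ?_, ?_, ?_, ?_⟩
  · have h4 : ClassGroup.mk0 (A * B) = 1 := by
      rw [ClassGroup.mk0_eq_one_iff]
      refine ⟨α, ?_⟩
      change (A : Ideal (𝓞 K)) * B0 = _
      rw [← hB0]
    rw [map_mul, hA] at h4
    exact (inv_mul_eq_one.mp h4).symm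
  · have h5 : (Ideal.absNorm (A : Ideal (𝓞 K)) : ℝ) * Ideal.absNorm B0 =
        ∏ w : InfinitePlace K, w (α : K) ^ w.mult := by
      rw [prod_infinitePlace_eq, hB0, map_mul]
      push_cast
      rfl
    have h6 : ∏ w : InfinitePlace K, w (α : K) ^ w.mult < ∏ w : InfinitePlace K, (fR w) ^ w.mult := by
      apply Finset.prod_lt_prod_of_nonempty
      · intro w _
        exact pow_pos (infinitePlace_pos hα0) _
      · intro w _
        exact pow_lt_pow_left₀ (hαw' w) (infinitePlace_pos hα0).le (mult_pos).ne'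
      · exact Finset.univ_nonempty
    rw [hprodf, ← h5, mul_comm Z] at h6
    exact lt_of_mul_lt_mul_left h6 hNA.le
  · change Ideal.span {γ} * B0 ^ l = Ideal.span {α ^ l} * (P : Ideal (𝓞 K)) ^ l
    rw [← hγ', ← Ideal.span_singleton_pow, hB0, mul_pow, mul_pow]
    ring
  · intro w
    have hγw := infinitePlace_pos (w := w) hγ0
    have h7 : w ((α ^ l : 𝓞 K) : K) = (w (α : K)) ^ l := by
      push_cast
      rw [map_pow]
    rw [h7]
    have h8 : (fR w) ^ l = (Z / Ideal.absNorm (P : Ideal (𝓞 K))) ^ ((l : ℝ) / n) * w (γ : K) := by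
      simp only [fR]
      rw [mul_pow, ← Real.rpow_natCast _ l, ← Real.rpow_mul (by positivity),
        ← Real.rpow_natCast _ l, ← Real.rpow_mul hγw.le, one_div_mul_cancel hlR.ne', Real.rpow_one]
      congr 2
      ring
    rw [← h8]
    exact pow_lt_pow_left₀ (hαw' w) (infinitePlace_pos hα0).le hl.ne'

open InfinitePlace in
/-- the position of a pair at an infinite place -/
noncomputable def spos (l : ℕ) (P : Ideal (𝓞 K)) (a b : 𝓞 K) (w : InfinitePlace K) : ℝ :=
  (1 / (finrank ℚ K : ℝ)) * Real.log (ZK K / Ideal.absNorm P) -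
    (1 / (l : ℝ)) * (Real.log (w (a : K)) - Real.log (w (b : K)))

lemma spos_pos {l : ℕ} (hl : 0 < l) {P : Ideal (𝓞 K)} (hP : P ≠ ⊥) {a b : 𝓞 K} (ha : a ≠ 0)
    (hb : b ≠ 0) (w : InfinitePlace K)
    (h : w (a : K) < (ZK K / Ideal.absNorm P) ^ ((l : ℝ) / finrank ℚ K) * w (b : K)) :
    0 < spos l P a b w := by
  have hNP : (0 : ℝ) < Ideal.absNorm P := by exact_mod_cast absNorm_pos_of_ne_bot hP
  have hnR : (0 : ℝ) < (finrank ℚ K : ℝ) := by exact_mod_cast finrank_pos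
  have hlR : (0 : ℝ) < l := by exact_mod_cast hl
  have hwa := infinitePlace_pos (w := w) ha
  have hwb := infinitePlace_pos (w := w) hb
  have hZ : 0 < ZK K / Ideal.absNorm P := div_pos ZK_pos hNP
  have h1 := Real.log_lt_log hwa h
  rw [Real.log_mul (by positivity) hwb.ne', Real.log_rpow hZ] at h1
  unfold spos
  have h2 : (1 / (l : ℝ)) * (Real.log (w (a : K)) - Real.log (w (b : K))) <
      (1 / (l : ℝ)) * (((l : ℝ) / finrank ℚ K) * Real.log (ZK K / Ideal.absNorm P)) := by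
    apply mul_lt_mul_of_pos_left _ (by positivity)
    linarith
  have h3 : (1 / (l : ℝ)) * (((l : ℝ) / finrank ℚ K) * Real.log (ZK K / Ideal.absNorm P)) =
      (1 / (finrank ℚ K : ℝ)) * Real.log (ZK K / Ideal.absNorm P) := by
    field_simp
  linarith

lemma sum_spos {l : ℕ} (hl : 0 < l) {P B : Ideal (𝓞 K)} (hP : P ≠ ⊥) (hB : B ≠ ⊥)
    {a b : 𝓞 K} (ha : a ≠ 0) (hb : b ≠ 0)
    (h : Ideal.span {b} * B ^ l = Ideal.span {a} * P ^ l) :
    ∑ w : InfinitePlace K, (w.mult : ℝ) * spos l P a b w = Real.log (ZK K / Ideal.absNorm B) := by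
  have hNP : (0 : ℝ) < Ideal.absNorm P := by exact_mod_cast absNorm_pos_of_ne_bot hP
  have hNB : (0 : ℝ) < Ideal.absNorm B := by exact_mod_cast absNorm_pos_of_ne_bot hB
  have hnR : (0 : ℝ) < (finrank ℚ K : ℝ) := by exact_mod_cast finrank_pos
  have hlR : (0 : ℝ) < l := by exact_mod_cast hl
  have hsum : ∀ x : 𝓞 K, x ≠ 0 → ∑ w : InfinitePlace K, (w.mult : ℝ) * Real.log (w (x : K)) =
      Real.log (Ideal.absNorm (Ideal.span {x})) := by
    intro x hx
    rw [← prod_infinitePlace_eq, Real.log_prod]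
    · refine Finset.sum_congr rfl fun w _ => ?_
      rw [Real.log_pow]
    · intro w _
      exact (pow_pos (infinitePlace_pos hx) _).ne'
  have h1 : (Ideal.absNorm (Ideal.span {b}) : ℝ) * (Ideal.absNorm B : ℝ) ^ l =
      (Ideal.absNorm (Ideal.span {a}) : ℝ) * (Ideal.absNorm P : ℝ) ^ l := by
    have := congrArg Ideal.absNorm h
    rw [map_mul, map_mul, map_pow, map_pow] at this
    exact_mod_cast this
  have hNa : (0 : ℝ) < Ideal.absNorm (Ideal.span {a}) := by
    exact_mod_cast absNorm_pos_of_ne_bot (by simpa using ha)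
  have hNb : (0 : ℝ) < Ideal.absNorm (Ideal.span {b}) := by
    exact_mod_cast absNorm_pos_of_ne_bot (by simpa using hb)
  have h2 := congrArg Real.log h1
  rw [Real.log_mul hNb.ne' (by positivity), Real.log_mul hNa.ne' (by positivity), Real.log_pow,
    Real.log_pow] at h2
  have hm : ∑ w : InfinitePlace K, (w.mult : ℝ) = (finrank ℚ K : ℝ) := by
    exact_mod_cast InfinitePlace.sum_mult_eq (K := K)
  unfold spos
  have h3 : ∑ w : InfinitePlace K, (w.mult : ℝ) *
      ((1 / (finrank ℚ K : ℝ)) * Real.log (ZK K / Ideal.absNorm P) -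
      (1 / (l : ℝ)) * (Real.log (w (a : K)) - Real.log (w (b : K)))) =
      (∑ w : InfinitePlace K, (w.mult : ℝ)) *
        ((1 / (finrank ℚ K : ℝ)) * Real.log (ZK K / Ideal.absNorm P)) -
      (1 / (l : ℝ)) * (∑ w : InfinitePlace K, (w.mult : ℝ) * Real.log (w (a : K)) -
        ∑ w : InfinitePlace K, (w.mult : ℝ) * Real.log (w (b : K))) := by
    rw [Finset.sum_mul, ← Finset.sum_sub_distrib, Finset.mul_sum, ← Finset.sum_sub_distrib]
    refine Finset.sum_congr rfl fun w _ => ?_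
    ring
  rw [h3, hm, hsum a ha, hsum b hb, Real.log_div ZK_pos.ne' hNP.ne',
    Real.log_div ZK_pos.ne' hNB.ne']
  field_simp
  linarith

lemma spos_le {l : ℕ} (hl : 0 < l) {P B : Ideal (𝓞 K)} (hP : P ≠ ⊥) (hB : B ≠ ⊥)
    {a b : 𝓞 K} (ha : a ≠ 0) (hb : b ≠ 0)
    (h : Ideal.span {b} * B ^ l = Ideal.span {a} * P ^ l)
    (hw : ∀ w : InfinitePlace K, w (a : K) <
        (ZK K / Ideal.absNorm P) ^ ((l : ℝ) / finrank ℚ K) * w (b : K)) (w : InfinitePlace K) :
    spos l P a b w ≤ Real.log (ZK K / Ideal.absNorm B) := by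
  rw [← sum_spos hl hP hB ha hb h]
  have h1 : ∀ w : InfinitePlace K, 0 ≤ (w.mult : ℝ) * spos l P a b w := fun w =>
    mul_nonneg (Nat.cast_nonneg _) (spos_pos hl hP ha hb w (hw w)).le
  calc spos l P a b w ≤ (w.mult : ℝ) * spos l P a b w := by
        apply le_mul_of_one_le_left (spos_pos hl hP ha hb w (hw w)).le
        exact_mod_cast InfinitePlace.mult_pos (w := w)
    _ ≤ _ := Finset.single_le_sum (f := fun w => (w.mult : ℝ) * spos l P a b w)
        (fun w _ => h1 w) (Finset.mem_univ w)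

/-- Two pairs with the same ideal and close positions have the same small ideal. -/
lemma pair_collision {l : ℕ} (hl : l.Prime) {P Q B : Ideal (𝓞 K)} (hP : P = ⊤ ∨ Good l P)
    (hQ : Q = ⊤ ∨ Good l Q) (hne : Ideal.absNorm P ≠ Ideal.absNorm Q) (hB : B ≠ ⊥)
    {a b a' b' : 𝓞 K} (ha : a ≠ 0) (hb : b ≠ 0) (ha' : a' ≠ 0) (hb' : b' ≠ 0)
    (h : Ideal.span {b} * B ^ l = Ideal.span {a} * P ^ l)
    (h' : Ideal.span {b'} * B ^ l = Ideal.span {a'} * Q ^ l)
    (hclose : ∀ w : InfinitePlace K, spos l Q a' b' w - spos l P a b w ≤ 1) :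
    |(discr K : ℝ)| ≤ (2 * Real.exp l) ^ (finrank ℚ K * (finrank ℚ K - 1)) *
      ((Ideal.absNorm P : ℝ) * (Ideal.absNorm Q : ℝ)) ^ (l * (finrank ℚ K - 1)) := by
  set n := finrank ℚ K with hn
  have hP0 : P ≠ ⊥ := by
    rcases hP with rfl | hP
    · exact top_ne_bot
    · exact hP.ne_bot
  have hQ0 : Q ≠ ⊥ := by
    rcases hQ with rfl | hQ
    · exact top_ne_bot
    · exact hQ.ne_bot
  have hNP : (0 : ℝ) < Ideal.absNorm P := by exact_mod_cast absNorm_pos_of_ne_bot hP0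
  have hNQ : (0 : ℝ) < Ideal.absNorm Q := by exact_mod_cast absNorm_pos_of_ne_bot hQ0
  have hnR : (0 : ℝ) < (n : ℝ) := by exact_mod_cast finrank_pos
  have hlR : (0 : ℝ) < l := by exact_mod_cast hl.pos
  have hx : a * b' ≠ 0 := mul_ne_zero ha hb'
  have hy : a' * b ≠ 0 := mul_ne_zero ha' hb
  have hrel : Ideal.span {a * b'} * P ^ l = Ideal.span {a' * b} * Q ^ l := by
    rw [← Ideal.span_singleton_mul_span_singleton, ← Ideal.span_singleton_mul_span_singleton]
    calc Ideal.span {a} * Ideal.span {b'} * P ^ l = Ideal.span {b'} * (Ideal.span {a} * P ^ l) := by ring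
      _ = Ideal.span {b'} * (Ideal.span {b} * B ^ l) := by rw [h]
      _ = Ideal.span {b} * (Ideal.span {b'} * B ^ l) := by ring
      _ = Ideal.span {b} * (Ideal.span {a'} * Q ^ l) := by rw [h']
      _ = _ := by ring
  set X : ℝ := Real.exp l * ((Ideal.absNorm Q : ℝ) / Ideal.absNorm P) ^ ((l : ℝ) / n) with hX
  have hXb : ∀ φ : K →ₐ[ℚ] ℂ, ‖φ (((a * b' : 𝓞 K) : K) / ((a' * b : 𝓞 K) : K))‖ ≤ X := by
    intro φ
    set w : InfinitePlace K := InfinitePlace.mk φ.toRingHom with hw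
    have h1 : ‖φ (((a * b' : 𝓞 K) : K) / ((a' * b : 𝓞 K) : K))‖ =
        w (((a * b' : 𝓞 K) : K) / ((a' * b : 𝓞 K) : K)) := rfl
    rw [h1, map_div₀]
    push_cast
    rw [map_mul, map_mul]
    have wa := infinitePlace_pos (w := w) ha
    have wb := infinitePlace_pos (w := w) hb
    have wa' := infinitePlace_pos (w := w) ha'
    have wb' := infinitePlace_pos (w := w) hb'
    have h2 := hclose w
    unfold spos at h2
    rw [Real.log_div ZK_pos.ne' hNP.ne', Real.log_div ZK_pos.ne' hNQ.ne'] at h2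
    rw [← Real.log_le_log_iff (by positivity) (by positivity), hX,
      Real.log_mul (Real.exp_pos _).ne' (by positivity), Real.log_exp,
      Real.log_rpow (by positivity), Real.log_div hNQ.ne' hNP.ne',
      Real.log_div (by positivity) (by positivity), Real.log_mul wa.ne' wb'.ne',
      Real.log_mul wa'.ne' wb.ne']
    have h3 : (l : ℝ) * ((1 / (n : ℝ)) * (Real.log (ZK K) - Real.log (Ideal.absNorm Q)) -
        (1 / (l : ℝ)) * (Real.log (w (a' : K)) - Real.log (w (b' : K))) -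
        ((1 / (n : ℝ)) * (Real.log (ZK K) - Real.log (Ideal.absNorm P)) -
        (1 / (l : ℝ)) * (Real.log (w (a : K)) - Real.log (w (b : K))))) ≤ l * 1 :=
      mul_le_mul_of_nonneg_left h2 hlR.le
    have h4 : (l : ℝ) * ((1 / (n : ℝ)) * (Real.log (ZK K) - Real.log (Ideal.absNorm Q)) -
        (1 / (l : ℝ)) * (Real.log (w (a' : K)) - Real.log (w (b' : K))) -
        ((1 / (n : ℝ)) * (Real.log (ZK K) - Real.log (Ideal.absNorm P)) -
        (1 / (l : ℝ)) * (Real.log (w (a : K)) - Real.log (w (b : K))))) =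
        ((l : ℝ) / n) * (Real.log (Ideal.absNorm P) - Real.log (Ideal.absNorm Q)) +
        (Real.log (w (a : K)) + Real.log (w (b' : K)) - (Real.log (w (a' : K)) + Real.log (w (b : K)))) := by
      field_simp
      ring
    rw [h4] at h3
    linarith
  have h5 := collision hl hP hQ hne hx hy hrel X hXb
  refine h5.trans (le_of_eq ?_)
  rw [hX]
  have h6 : (2 * (Real.exp l * ((Ideal.absNorm Q : ℝ) / Ideal.absNorm P) ^ ((l : ℝ) / n))) ^ (n * (n - 1)) =
      (2 * Real.exp l) ^ (n * (n - 1)) * ((Ideal.absNorm Q : ℝ) / Ideal.absNorm P) ^ (l * (n - 1)) := by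
    rw [← mul_assoc, mul_pow]
    congr 1
    rw [← Real.rpow_natCast _ (n * (n - 1)), ← Real.rpow_mul (by positivity), ← Real.rpow_natCast]
    congr 1
    push_cast
    field_simp
  rw [h6, div_pow, mul_pow]
  have h7 : (Ideal.absNorm P : ℝ) ^ (2 * l * (n - 1)) =
      (Ideal.absNorm P : ℝ) ^ (l * (n - 1)) * (Ideal.absNorm P : ℝ) ^ (l * (n - 1)) := by
    rw [← pow_add]; congr 1; ring
  rw [h7]
  field_simp
  rw [mul_pow, mul_comm]

/-- The Ellenberg-Venkatesh counting inequality, without regulators. -/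
theorem ev_count {l : ℕ} (hl : l.Prime) (AA : Finset (Ideal (𝓞 K)))
    (hAA : ∀ P ∈ AA, P = ⊤ ∨ Good l P)
    (hinj : Set.InjOn (fun P : Ideal (𝓞 K) => Ideal.absNorm P) (AA : Set (Ideal (𝓞 K))))
    (hsmall : ∀ P ∈ AA, ∀ Q ∈ AA, P ≠ Q →
      (2 * Real.exp l) ^ (finrank ℚ K * (finrank ℚ K - 1)) *
      ((Ideal.absNorm P : ℝ) * (Ideal.absNorm Q : ℝ)) ^ (l * (finrank ℚ K - 1)) <
        |(discr K : ℝ)|) :
    (AA.card : ℝ) * (Nat.card {x : ClassGroup (𝓞 K) // x ^ l = 1} : ℝ) ≤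
      ∑ B ∈ idl K ⌊ZK K⌋₊, (1 + Real.log (ZK K / Ideal.absNorm B)) ^ (finrank ℚ K) := by
  classical
  set n := finrank ℚ K with hn
  have hAA0 : ∀ P ∈ AA, P ≠ ⊥ := by
    intro P hP
    rcases hAA P hP with rfl | h
    · exact top_ne_bot
    · exact h.ne_bot
  -- the source
  let C := {x : ClassGroup (𝓞 K) // x ^ l = 1}
  have hex : ∀ x : C × AA, ∃ (B : (Ideal (𝓞 K))⁰) (a b : 𝓞 K), a ≠ 0 ∧ b ≠ 0 ∧
      ClassGroup.mk0 B = x.1.1 * ClassGroup.mk0
        (⟨x.2.1, mem_nonZeroDivisors_of_ne_zero (hAA0 x.2.1 x.2.2)⟩ : (Ideal (𝓞 K))⁰) ∧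
      (Ideal.absNorm (B : Ideal (𝓞 K)) : ℝ) < ZK K ∧
      Ideal.span {b} * (B : Ideal (𝓞 K)) ^ l = Ideal.span {a} * x.2.1 ^ l ∧
      ∀ w : InfinitePlace K, w (a : K) <
        (ZK K / Ideal.absNorm x.2.1) ^ ((l : ℝ) / finrank ℚ K) * w (b : K) := by
    intro x
    exact pair_exists hl.pos ⟨x.2.1, mem_nonZeroDivisors_of_ne_zero (hAA0 x.2.1 x.2.2)⟩ x.1.1 x.1.2
  choose B a b ha hb hclass hBZ hrel hplace using hex
  have hB0 : ∀ x, (B x : Ideal (𝓞 K)) ≠ ⊥ := fun x => nonZeroDivisors.coe_ne_zero (B x)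
  let Φ : C × AA → (Σ _ : Ideal (𝓞 K), (InfinitePlace K → ℕ)) := fun x =>
    ⟨(B x : Ideal (𝓞 K)), fun w => ⌊spos l x.2.1 (a x) (b x) w⌋₊⟩
  let T : Finset (Σ _ : Ideal (𝓞 K), (InfinitePlace K → ℕ)) :=
    (idl K ⌊ZK K⌋₊).sigma (fun B => Fintype.piFinset
      (fun _ : InfinitePlace K => Finset.range (⌊Real.log (ZK K / Ideal.absNorm B)⌋₊ + 1)))
  have hmaps : ∀ x, Φ x ∈ T := by
    intro x
    simp only [T, Φ, Finset.mem_sigma, Fintype.mem_piFinset, Finset.mem_range]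
    refine ⟨?_, ?_⟩
    · rw [mem_idl]
      exact ⟨hB0 x, Nat.le_floor (hBZ x).le⟩
    · intro w
      apply Nat.lt_succ_of_le
      apply Nat.floor_le_floor
      exact spos_le hl.pos (hAA0 x.2.1 x.2.2) (hB0 x) (ha x) (hb x) (hrel x) (hplace x) w
  have hΦinj : Function.Injective Φ := by
    intro x y hxy
    simp only [Φ, Sigma.mk.injEq] at hxy
    obtain ⟨h1, h2⟩ := hxy
    have h2' : (fun w => ⌊spos l x.2.1 (a x) (b x) w⌋₊) = (fun w => ⌊spos l y.2.1 (a y) (b y) w⌋₊) :=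
      eq_of_heq h2
    have hPQ : x.2 = y.2 := by
      by_contra hne
      have hne' : x.2.1 ≠ y.2.1 := fun h => hne (Subtype.ext h)
      have hN : Ideal.absNorm x.2.1 ≠ Ideal.absNorm y.2.1 := fun h =>
        hne' (hinj x.2.2 y.2.2 h)
      have hrel' : Ideal.span {b y} * (B x : Ideal (𝓞 K)) ^ l = Ideal.span {a y} * y.2.1 ^ l := by
        rw [h1]; exact hrel y
      have h3 := pair_collision hl (hAA _ x.2.2) (hAA _ y.2.2) hN (hB0 x) (ha x) (hb x) (ha y) (hb y)
        (hrel x) hrel' (by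
          intro w
          have h4 : ⌊spos l x.2.1 (a x) (b x) w⌋₊ = ⌊spos l y.2.1 (a y) (b y) w⌋₊ := congrFun h2' w
          have h5 := spos_pos hl.pos (hAA0 x.2.1 x.2.2) (ha x) (hb x) w (hplace x w)
          have h6 := spos_pos hl.pos (hAA0 y.2.1 y.2.2) (ha y) (hb y) w (hplace y w)
          have h7 := Nat.floor_le h5.le
          have h8 := Nat.lt_floor_add_one (spos l y.2.1 (a y) (b y) w)
          rw [← h4] at h8
          linarith)
      exact absurd h3 (not_le.mpr (hsmall _ x.2.2 _ y.2.2 hne'))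
    have hc1 := hclass x
    have hc2 := hclass y
    have hBB : B x = B y := Subtype.ext h1
    rw [hBB, hc2] at hc1
    apply Prod.ext
    · apply Subtype.ext
      simp only [hPQ] at hc1
      exact (mul_right_cancel hc1).symm
    · exact hPQ
  have hfinC : Finite C := inferInstance
  have hcard : Nat.card (C × AA) ≤ T.card := by
    have : Fintype C := Fintype.ofFinite C
    rw [Nat.card_eq_fintype_card, ← Finset.card_univ]
    exact Finset.card_le_card_of_injOn Φ (fun x _ => hmaps x) (fun x _ y _ h => hΦinj h)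
  rw [Nat.card_prod] at hcard
  have hAAc : Nat.card AA = AA.card := by simp
  rw [hAAc] at hcard
  have hTcard : (T.card : ℝ) ≤
      ∑ B ∈ idl K ⌊ZK K⌋₊, (1 + Real.log (ZK K / Ideal.absNorm B)) ^ n := by
    simp only [T]
    rw [Finset.card_sigma]
    push_cast
    refine Finset.sum_le_sum fun I hI => ?_
    obtain ⟨hI0, hIN⟩ := mem_idl.mp hI
    have hNI : (0 : ℝ) < Ideal.absNorm I := by exact_mod_cast absNorm_pos_of_ne_bot hI0
    have hle : (Ideal.absNorm I : ℝ) ≤ ZK K := by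
      calc (Ideal.absNorm I : ℝ) ≤ (⌊ZK K⌋₊ : ℝ) := by exact_mod_cast hIN
        _ ≤ ZK K := Nat.floor_le ZK_pos.le
    have hL : 0 ≤ Real.log (ZK K / Ideal.absNorm I) :=
      Real.log_nonneg (by rw [le_div_iff₀ hNI]; linarith)
    rw [Fintype.card_piFinset, Finset.prod_const, Finset.card_univ, Finset.card_range]
    push_cast
    have hb1 : (1 : ℝ) ≤ (⌊Real.log (ZK K / Ideal.absNorm I)⌋₊ : ℝ) + 1 := by
      linarith [Nat.cast_nonneg (α := ℝ) ⌊Real.log (ZK K / Ideal.absNorm I)⌋₊]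
    have hcardplaces : Fintype.card (InfinitePlace K) ≤ n := by
      rw [hn, ← InfinitePlace.sum_mult_eq (K := K), ← Finset.card_univ, Finset.card_eq_sum_ones]
      exact Finset.sum_le_sum fun w _ => InfinitePlace.mult_pos
    calc ((⌊Real.log (ZK K / Ideal.absNorm I)⌋₊ : ℝ) + 1) ^ Fintype.card (InfinitePlace K)
        ≤ ((⌊Real.log (ZK K / Ideal.absNorm I)⌋₊ : ℝ) + 1) ^ n :=
          pow_le_pow_right₀ hb1 hcardplaces
      _ ≤ (1 + Real.log (ZK K / Ideal.absNorm I)) ^ n := by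
          apply pow_le_pow_left₀ (by linarith)
          have := Nat.floor_le hL
          linarith
  calc (AA.card : ℝ) * (Nat.card C : ℝ) = ((Nat.card C * AA.card : ℕ) : ℝ) := by push_cast; ring
    _ ≤ (T.card : ℝ) := by exact_mod_cast hcard
    _ ≤ _ := hTcard

end Pool.Agent.Lib.MP_695920_nt
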