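import Mathlib
import Pool.Agent.Lib.MP_695920_nt.Core
import Pool.Agent.Lib.MP_695920_nt.Analytic

set_option autoImplicit false

open Finset NumberField Module IsDedekindDomain
open scoped nonZeroDivisors NNReal ENNReal

namespace Pool.Agent.Lib.MP_695920_nt

variable {K : Type*} [Field K] [NumberField K]

set_option linter.deprecated false in
lemma card_mul_le_finrank {p l : ℕ} (hp : p.Prime) (T : Finset (Ideal (𝓞 K)))
    (hT : ∀ P ∈ T, P.IsPrime ∧ (p : 𝓞 K) ∈ P ∧
      l ≤ Ideal.ramificationIdx' (Ideal.span {(p : ℤ)}) P) :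
    T.card * l ≤ Module.finrank ℚ K := by
  classical
  have hmax : (Ideal.span {(p : ℤ)}).IsMaximal :=
    ((Ideal.span_singleton_prime (by exact_mod_cast hp.ne_zero)).mpr
      (Nat.prime_iff_prime_int.mp hp)).isMaximal (by simpa using hp.ne_zero)
  have hne : Ideal.span {(p : ℤ)} ≠ ⊥ := by simpa using hp.ne_zero
  rw [← Ideal.sum_ramification_inertia (𝓞 K) ℚ K hne]
  have hsub : T ⊆ IsDedekindDomain.primesOverFinset (Ideal.span {(p : ℤ)}) (𝓞 K) := by
    intro P hP
    obtain ⟨h1, h2, _⟩ := hT P hP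
    rw [IsDedekindDomain.mem_primesOverFinset_iff hne]
    exact ⟨h1, liesOver_of_mem h1 hp h2⟩
  refine le_trans ?_ (Finset.sum_le_sum_of_subset hsub)
  rw [← smul_eq_mul, ← Finset.sum_const]
  refine Finset.sum_le_sum fun P hP => ?_
  obtain ⟨h1, h2, h3⟩ := hT P hP
  have := liesOver_of_mem h1 hp h2
  refine h3.trans (Nat.le_mul_of_pos_right _ ?_)
  exact Nat.pos_iff_ne_zero.mpr <| Ideal.inertiaDeg'_ne_zero _ P

lemma dvd_discr_of_ramified {p : ℕ} (hp : p.Prime) {P : Ideal (𝓞 K)} (hN : Ideal.absNorm P = p)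
    (he : 2 ≤ Ideal.ramificationIdx' (Ideal.span {(p : ℤ)}) P) : p ∣ (discr K).natAbs := by
  have hmax : (Ideal.span {(p : ℤ)}).IsMaximal :=
    ((Ideal.span_singleton_prime (by exact_mod_cast hp.ne_zero)).mpr
      (Nat.prime_iff_prime_int.mp hp)).isMaximal (by simpa using hp.ne_zero)
  have hne : Ideal.span {(p : ℤ)} ≠ ⊥ := by simpa using hp.ne_zero
  have h1 : P ^ 2 ∣ Ideal.map (algebraMap ℤ (𝓞 K)) (Ideal.span {(p : ℤ)}) := by
    rw [Ideal.dvd_iff_le]
    exact Ideal.le_pow_of_le_ramificationIdx' he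
  have h2 := pow_sub_one_dvd_differentIdeal ℤ P 2 hne h1
  rw [Nat.add_sub_cancel_left 1 1, pow_one] at h2
  have h3 := Ideal.absNorm_dvd_absNorm_of_le (Ideal.le_of_dvd h2)
  rw [absNorm_differentIdeal K, hN] at h3
  exact h3


/-- the exponent of the loglog factor -/
def kap (n l : ℕ) : ℕ := if l ∣ n then n / l else 0

lemma kap_le (n l : ℕ) : kap n l ≤ n := by
  unfold kap
  split_ifs
  · exact Nat.div_le_self n l
  · exact Nat.zero_le n

lemma card_fiber_le {l p N : ℕ} (hl : l.Prime) (hp : p.Prime)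
    (hno : ¬ ∃ P : Ideal (𝓞 K), Good l P ∧ Ideal.absNorm P = p) :
    ((deg1 K N).filter (fun P => Ideal.absNorm P = p)).card ≤
      if p ∈ (discr K).natAbs.primeFactors then kap (finrank ℚ K) l else 0 := by
  classical
  set T := (deg1 K N).filter (fun P => Ideal.absNorm P = p) with hT
  by_cases hTe : T = ∅
  · rw [hTe]; simp
  obtain ⟨P0, hP0⟩ := Finset.nonempty_iff_ne_empty.mpr hTe
  have hmem : ∀ P ∈ T, P.IsPrime ∧ (p : 𝓞 K) ∈ P ∧
      l ≤ Ideal.ramificationIdx' (Ideal.span {(p : ℤ)}) P ∧ l ∣ finrank ℚ K ∧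
        Ideal.absNorm P = p := by
    intro P hP
    rw [hT, mem_filter, mem_deg1] at hP
    obtain ⟨⟨h1, h2⟩, h3⟩ := hP
    have hprime : P.IsPrime := Ideal.isPrime_of_irreducible_absNorm h2
    have hin : (p : 𝓞 K) ∈ P := by
      rw [← h3]; exact Ideal.absNorm_mem P
    have hnG : ¬ Good l P := fun h => hno ⟨P, h, h3⟩
    unfold Good at hnG
    push Not at hnG
    obtain ⟨h4, h5⟩ := hnG h2
    rw [h3] at h5
    exact ⟨hprime, hin, h5, h4, h3⟩
  obtain ⟨_, _, h3, h4, h5⟩ := hmem P0 hP0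
  have hdvd : p ∣ (discr K).natAbs := dvd_discr_of_ramified hp h5 (hl.two_le.trans h3)
  have hpf : p ∈ (discr K).natAbs.primeFactors := by
    rw [Nat.mem_primeFactors]
    exact ⟨hp, hdvd, Int.natAbs_ne_zero.mpr (discr_ne_zero K)⟩
  rw [if_pos hpf]
  unfold kap
  rw [if_pos h4]
  rw [Nat.le_div_iff_mul_le hl.pos]
  exact card_mul_le_finrank hp T (fun P hP => ⟨(hmem P hP).1, (hmem P hP).2.1, (hmem P hP).2.2.1⟩)

lemma deg1_sum_le {l : ℕ} (hl : l.Prime) (y Z : ℝ) (hy : 2 ≤ y) (hyZ : y ≤ Z) (G : Finset ℕ)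
    (hG : ∀ p : ℕ, p.Prime → (p : ℝ) ≤ y →
      (∃ P : Ideal (𝓞 K), Good l P ∧ Ideal.absNorm P = p) → p ∈ G) :
    ∑ P ∈ deg1 K ⌊Z⌋₊, (1 : ℝ) / (Ideal.absNorm P) ≤
      (finrank ℚ K : ℝ) * ∑ p ∈ G, (1 : ℝ) / p +
      (kap (finrank ℚ K) l : ℝ) * ∑ p ∈ (discr K).natAbs.primeFactors, (1 : ℝ) / p +
      (finrank ℚ K : ℝ) * (Real.log (Real.log Z / Real.log y) + 3) := by
  classical
  set n := finrank ℚ K with hn
  set N := ⌊Z⌋₊ with hN
  set R := (discr K).natAbs.primeFactors with hR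
  set κ := kap n l with hκ
  set W := (Icc 0 N).filter Nat.Prime with hW
  set V := (Ioc ⌊y⌋₊ N).filter Nat.Prime with hV
  have hmaps : ∀ P ∈ deg1 K N, Ideal.absNorm P ∈ W := by
    intro P hP
    rw [mem_deg1] at hP
    rw [hW, mem_filter, mem_Icc]
    exact ⟨⟨Nat.zero_le _, hP.1⟩, hP.2⟩
  have h1 : ∑ P ∈ deg1 K N, (1 : ℝ) / (Ideal.absNorm P) =
      ∑ p ∈ W, (((deg1 K N).filter (fun P => Ideal.absNorm P = p)).card : ℝ) * (1 / p) := by
    rw [← Finset.sum_fiberwise_of_maps_to hmaps]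
    apply Finset.sum_congr rfl
    intro p _
    rw [Finset.sum_congr rfl (g := fun _ => (1 : ℝ) / p)]
    · rw [Finset.sum_const, nsmul_eq_mul]
    · intro P hP
      rw [(mem_filter.mp hP).2]
  rw [h1]
  have h2 : ∀ p ∈ W, (((deg1 K N).filter (fun P => Ideal.absNorm P = p)).card : ℝ) * (1 / p) ≤
      (if p ∈ G then (n : ℝ) * (1 / p) else 0) + (if p ∈ R then (κ : ℝ) * (1 / p) else 0) +
        (if p ∈ V then (n : ℝ) * (1 / p) else 0) := by
    intro p hpW
    rw [hW, mem_filter, mem_Icc] at hpW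
    obtain ⟨⟨_, hpN⟩, hp⟩ := hpW
    have hpos : (0 : ℝ) ≤ 1 / p := by positivity
    have hcard : ((deg1 K N).filter (fun P => Ideal.absNorm P = p)).card ≤ n := by
      apply card_primes_above_le hp
      intro P hP
      rw [mem_filter, mem_deg1] at hP
      refine ⟨Ideal.isPrime_of_irreducible_absNorm hP.1.2, ?_⟩
      rw [← hP.2]; exact Ideal.absNorm_mem P
    have hcard' : (((deg1 K N).filter (fun P => Ideal.absNorm P = p)).card : ℝ) ≤ n := by
      exact_mod_cast hcard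
    have e1 : (0 : ℝ) ≤ (if p ∈ G then (n : ℝ) * (1 / p) else 0) := by
      split_ifs <;> positivity
    have e2 : (0 : ℝ) ≤ (if p ∈ R then (κ : ℝ) * (1 / p) else 0) := by
      split_ifs <;> positivity
    have e3 : (0 : ℝ) ≤ (if p ∈ V then (n : ℝ) * (1 / p) else 0) := by
      split_ifs <;> positivity
    by_cases hpG : p ∈ G
    · have := mul_le_mul_of_nonneg_right hcard' hpos
      rw [if_pos hpG]
      linarith
    · by_cases hpy : (p : ℝ) ≤ y
      · have hno : ¬ ∃ P : Ideal (𝓞 K), Good l P ∧ Ideal.absNorm P = p :=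
          fun h => hpG (hG p hp hpy h)
        have h3 := card_fiber_le (N := N) hl hp hno
        rw [← hn, ← hR, ← hκ] at h3
        by_cases hpR : p ∈ R
        · rw [if_pos hpR] at h3
          have h4 : (((deg1 K N).filter (fun P => Ideal.absNorm P = p)).card : ℝ) ≤ κ := by
            exact_mod_cast h3
          have := mul_le_mul_of_nonneg_right h4 hpos
          rw [if_pos hpR]
          linarith
        · rw [if_neg hpR, Nat.le_zero] at h3
          rw [h3]
          simp only [Nat.cast_zero, zero_mul]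
          linarith
      · have hpV : p ∈ V := by
          rw [hV, mem_filter, mem_Ioc]
          refine ⟨⟨?_, hpN⟩, hp⟩
          rw [Nat.floor_lt (by linarith)]
          exact lt_of_not_ge hpy
        have := mul_le_mul_of_nonneg_right hcard' hpos
        rw [if_pos hpV]
        linarith
  refine (Finset.sum_le_sum h2).trans ?_
  rw [Finset.sum_add_distrib, Finset.sum_add_distrib]
  have h5 : ∀ (S : Finset ℕ) (c : ℝ), 0 ≤ c →
      ∑ p ∈ W, (if p ∈ S then c * (1 / (p : ℝ)) else 0) ≤ c * ∑ p ∈ S, (1 : ℝ) / p := by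
    intro S c hc
    rw [← Finset.sum_filter, Finset.mul_sum]
    apply Finset.sum_le_sum_of_subset_of_nonneg
    · intro p hp
      exact (mem_filter.mp hp).2
    · intro p _ _
      positivity
  have h6 := h5 G n (Nat.cast_nonneg n)
  have h7 := h5 R κ (Nat.cast_nonneg κ)
  have h8 := h5 V n (Nat.cast_nonneg n)
  have h9 := sum_inv_primes_Ioc_le y Z hy hyZ
  have h10 : (n : ℝ) * ∑ p ∈ V, (1 : ℝ) / p ≤ (n : ℝ) * (Real.log (Real.log Z / Real.log y) + 3) :=
    mul_le_mul_of_nonneg_left h9 (Nat.cast_nonneg n)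
  linarith


lemma one_add_log_pow_le (n : ℕ) (hn : 1 ≤ n) (u : ℝ) (hu : 1 ≤ u) :
    (1 + Real.log u) ^ n ≤ (2 * n : ℝ) ^ n * Real.sqrt u := by
  have hn1 : (1 : ℝ) ≤ n := by exact_mod_cast hn
  have hn0 : (0 : ℝ) < 2 * n := by linarith
  have hu0 : 0 < u := by linarith
  set v : ℝ := u ^ ((2 * n : ℝ)⁻¹) with hv
  have hv0 : 0 < v := Real.rpow_pos_of_pos hu0 _
  have h1 : Real.log u = 2 * n * Real.log v := by
    rw [hv, Real.log_rpow hu0, ← mul_assoc, mul_inv_cancel₀ hn0.ne', one_mul]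
  have h2 : Real.log v ≤ v - 1 := Real.log_le_sub_one_of_pos hv0
  have h3 : 1 + Real.log u ≤ 2 * n * v := by
    rw [h1]
    nlinarith [mul_le_mul_of_nonneg_left h2 hn0.le]
  have h4 : v ^ n = Real.sqrt u := by
    rw [hv, ← Real.rpow_natCast, ← Real.rpow_mul hu0.le, Real.sqrt_eq_rpow]
    congr 1
    field_simp
  have h0 : 0 ≤ 1 + Real.log u := by linarith [Real.log_nonneg hu]
  calc (1 + Real.log u) ^ n ≤ (2 * n * v) ^ n := pow_le_pow_left₀ h0 h3 n
    _ = (2 * n : ℝ) ^ n * v ^ n := by rw [mul_pow]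
    _ = _ := by rw [h4]

/-- the constant in the main inequality -/
noncomputable def An (n : ℕ) : ℝ := 8 * (2 * n : ℝ) ^ n * (11 * (n : ℝ) ^ 2 + 2) * Real.exp (4 * n)

lemma An_pos (n : ℕ) (hn : 1 ≤ n) : 0 < An n := by
  have hn1 : (1 : ℝ) ≤ n := by exact_mod_cast hn
  unfold An
  positivity

lemma three_le_discr (h : 1 < finrank ℚ K) : (3 : ℝ) ≤ |(discr K : ℝ)| := by
  have h1 := abs_discr_gt_two h
  have h2 : 3 ≤ |discr K| := h1
  exact_mod_cast h2

lemma main_ineq {l : ℕ} (hl : l.Prime) (hn2 : 1 < finrank ℚ K) (AA : Finset (Ideal (𝓞 K)))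
    (hAA : ∀ P ∈ AA, P = ⊤ ∨ Good l P)
    (hinj : Set.InjOn (fun P : Ideal (𝓞 K) => Ideal.absNorm P) (AA : Set (Ideal (𝓞 K))))
    (hsmall : ∀ P ∈ AA, ∀ Q ∈ AA, P ≠ Q →
      (2 * Real.exp l) ^ (finrank ℚ K * (finrank ℚ K - 1)) *
      ((Ideal.absNorm P : ℝ) * (Ideal.absNorm Q : ℝ)) ^ (l * (finrank ℚ K - 1)) <
        |(discr K : ℝ)|) :
    (AA.card : ℝ) * (Nat.card {x : ClassGroup (𝓞 K) // x ^ l = 1} : ℝ) ≤
      An (finrank ℚ K) * (Real.sqrt |(discr K : ℝ)| / Real.log |(discr K : ℝ)|) *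
        Real.exp (∑ P ∈ deg1 K ⌊ZK K⌋₊, (1 : ℝ) / (Ideal.absNorm P)) := by
  classical
  refine (ev_count hl AA hAA hinj hsmall).trans ?_
  have hD3 := three_le_discr hn2
  have hn1 : 1 ≤ finrank ℚ K := hn2.le
  set n := finrank ℚ K with hn
  set D : ℝ := |(discr K : ℝ)| with hD
  set Z := ZK K with hZ
  have hZD : Z = 2 * Real.sqrt D := rfl
  have hsD : (1.7 : ℝ) ≤ Real.sqrt D := by
    apply Real.le_sqrt_of_sq_le
    linarith
  have hZ34 : (3.4 : ℝ) ≤ Z := by rw [hZD]; linarith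
  have hZpos : 0 < Z := by linarith
  have hlogD : 0 < Real.log D := Real.log_pos (by linarith)
  set N := ⌊Z⌋₊ with hN
  have hNZ : (N : ℝ) ≤ Z := Nat.floor_le hZpos.le
  have hNZ1 : Z < N + 1 := Nat.lt_floor_add_one Z
  -- first step: bound the summand
  have step1 : ∑ B ∈ idl K N, (1 + Real.log (Z / Ideal.absNorm B)) ^ n ≤
      (2 * n : ℝ) ^ n * Real.sqrt Z * ∑ B ∈ idl K N, (Real.sqrt (Ideal.absNorm B))⁻¹ := by
    rw [Finset.mul_sum]
    apply Finset.sum_le_sum
    intro B hB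
    rw [mem_idl] at hB
    have hB0 : 0 < Ideal.absNorm B := absNorm_pos_of_ne_bot hB.1
    have hB0' : (0 : ℝ) < Ideal.absNorm B := by exact_mod_cast hB0
    have hBZ : (Ideal.absNorm B : ℝ) ≤ Z := by
      refine le_trans ?_ hNZ
      exact_mod_cast hB.2
    have h1 := one_add_log_pow_le n hn1 (Z / Ideal.absNorm B) (by
      rw [le_div_iff₀ hB0']; linarith)
    refine h1.trans (le_of_eq ?_)
    rw [Real.sqrt_div hZpos.le, div_eq_mul_inv, mul_assoc]
  refine step1.trans ?_
  -- second step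
  have hlogN : Real.log D / 4 ≤ Real.log N := by
    have h1 : Real.sqrt Z ≤ N := by
      have h2 : Real.sqrt Z ≤ Z - 1 := by
        rw [Real.sqrt_le_left (by linarith)]
        nlinarith
      linarith
    have h3 : Real.log (Real.sqrt Z) ≤ Real.log N :=
      Real.log_le_log (Real.sqrt_pos.mpr hZpos) h1
    rw [Real.log_sqrt hZpos.le] at h3
    have h4 : Real.log (Real.sqrt D) ≤ Real.log Z := by
      apply Real.log_le_log (by linarith)
      rw [hZD]; linarith
    rw [Real.log_sqrt (by linarith)] at h4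
    linarith
  have h2 := sum_sqrt_mul_log_le (K := K) N
  rw [← hn] at h2
  set T := ∑ I ∈ idl K N, (Real.sqrt (Ideal.absNorm I))⁻¹ with hT
  set U := ∑ I ∈ idl K N, (1 : ℝ) / (Ideal.absNorm I) with hU
  have hT0 : 0 ≤ T := Finset.sum_nonneg (fun _ _ => by positivity)
  have hU0 : 0 ≤ U := Finset.sum_nonneg (fun _ _ => by positivity)
  have h3 : T * (Real.log D / 4) ≤ (11 * (n : ℝ) ^ 2 + 2) * Real.sqrt Z * U := by
    calc T * (Real.log D / 4) ≤ T * Real.log N := mul_le_mul_of_nonneg_left hlogN hT0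
      _ ≤ (11 * (n : ℝ) ^ 2 + 2) * Real.sqrt N * U := h2
      _ ≤ (11 * (n : ℝ) ^ 2 + 2) * Real.sqrt Z * U := by
        have := Real.sqrt_le_sqrt hNZ
        gcongr
  have h4 : T ≤ (11 * (n : ℝ) ^ 2 + 2) * Real.sqrt Z * U * (4 / Real.log D) := by
    have h6 : T = T * (Real.log D / 4) * (4 / Real.log D) := by
      field_simp
    rw [h6]
    exact mul_le_mul_of_nonneg_right h3 (by positivity)
  have h5 := sum_inv_le_exp (K := K) N
  rw [← hn, ← hU] at h5
  set S := ∑ P ∈ deg1 K N, (1 : ℝ) / (Ideal.absNorm P) with hS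
  have hsq : Real.sqrt Z * Real.sqrt Z = Z := Real.mul_self_sqrt hZpos.le
  have hn0 : (0 : ℝ) ≤ (2 * n : ℝ) ^ n * Real.sqrt Z := by positivity
  calc (2 * n : ℝ) ^ n * Real.sqrt Z * T
      ≤ (2 * n : ℝ) ^ n * Real.sqrt Z *
          ((11 * (n : ℝ) ^ 2 + 2) * Real.sqrt Z * U * (4 / Real.log D)) :=
        mul_le_mul_of_nonneg_left h4 hn0
    _ = (4 * (2 * n : ℝ) ^ n * (11 * (n : ℝ) ^ 2 + 2)) *
          ((Real.sqrt Z * Real.sqrt Z) / Real.log D) * U := by ring
    _ = (4 * (2 * n : ℝ) ^ n * (11 * (n : ℝ) ^ 2 + 2)) * (Z / Real.log D) * U := by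
        rw [hsq]
    _ ≤ (4 * (2 * n : ℝ) ^ n * (11 * (n : ℝ) ^ 2 + 2)) * (Z / Real.log D) *
          (Real.exp (4 * n) * Real.exp S) := by
        apply mul_le_mul_of_nonneg_left h5
        positivity
    _ = _ := by
        rw [hZD]; unfold An; ring


lemma loglog_lower {D : ℝ} (hD : 3 ≤ D) : (1.09 : ℝ) ≤ Real.log D ∧ (0.08 : ℝ) ≤ Real.log (Real.log D) := by
  have h1 : (1.09 : ℝ) ≤ Real.log D := by
    have h2 : Real.log 3 ≤ Real.log D := Real.log_le_log (by norm_num) hD
    have h3 : (1.09 : ℝ) ≤ Real.log 3 := by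
      rw [Real.le_log_iff_exp_le (by norm_num)]
      have h4 : Real.exp 1 ≤ 2.7182818286 := Real.exp_one_lt_d9.le
      have h5 : Real.exp 0.09 ≤ 1.1 := by
        have := Real.exp_bound' (x := 0.09) (by norm_num) (by norm_num) (n := 3) (by norm_num)
        refine this.trans ?_
        norm_num [Finset.sum_range_succ, Nat.factorial]
      have h6 : Real.exp 1.09 = Real.exp 1 * Real.exp 0.09 := by
        rw [← Real.exp_add]; norm_num
      rw [h6]
      nlinarith [Real.exp_pos 1, Real.exp_pos 0.09]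
    linarith
  refine ⟨h1, ?_⟩
  have h2 := Real.one_sub_inv_le_log_of_pos (x := Real.log D) (by linarith)
  have h3 : (Real.log D)⁻¹ ≤ (1.09 : ℝ)⁻¹ := inv_anti₀ (by norm_num) h1
  have h4 : (1.09 : ℝ)⁻¹ ≤ 0.92 := by norm_num
  linarith

lemma ramified_part (hn2 : 1 < finrank ℚ K) (κ : ℕ) (hκ : κ ≤ finrank ℚ K) :
    Real.exp ((κ : ℝ) * ∑ p ∈ (discr K).natAbs.primeFactors, (1 : ℝ) / p) ≤
      (25 * Real.exp 5) ^ (finrank ℚ K) * (Real.log (Real.log |(discr K : ℝ)|)) ^ κ := by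
  classical
  have hD3 := three_le_discr hn2
  obtain ⟨hL, hLL⟩ := loglog_lower hD3
  set D : ℝ := |(discr K : ℝ)| with hD
  set L := Real.log D with hLdef
  set R := (discr K).natAbs.primeFactors with hR
  have h1 := exp_sum_inv_le R (fun p hp => Nat.prime_of_mem_primeFactors hp)
  have hcard : (R.card : ℝ) * Real.log 2 ≤ L := by
    have h2 : 2 ^ R.card ≤ (discr K).natAbs := by
      have h3 : ∏ p ∈ R, p ∣ (discr K).natAbs := Nat.prod_primeFactors_dvd _
      have h4 : 0 < (discr K).natAbs := Int.natAbs_pos.mpr (discr_ne_zero K)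
      refine le_trans ?_ (Nat.le_of_dvd h4 h3)
      apply Finset.pow_card_le_prod
      intro p hp
      exact (Nat.prime_of_mem_primeFactors hp).two_le
    have h5 : ((2 : ℝ)) ^ R.card ≤ D := by
      rw [hD, ← Int.cast_abs, Int.abs_eq_natAbs]
      exact_mod_cast h2
    have h6 := Real.log_le_log (by positivity) h5
    rwa [Real.log_pow] at h6
  have hlog2 : (0.69 : ℝ) ≤ Real.log 2 := by linarith [Real.log_two_gt_d9]
  have hcard' : (R.card : ℝ) + 3 ≤ 5 * L := by
    have h7 : (R.card : ℝ) * 0.69 ≤ L := by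
      refine le_trans ?_ hcard
      exact mul_le_mul_of_nonneg_left hlog2 (Nat.cast_nonneg _)
    linarith
  have hlogR : Real.log ((R.card : ℝ) + 3) ≤ 25 * Real.log L := by
    have h8 : Real.log ((R.card : ℝ) + 3) ≤ Real.log (5 * L) :=
      Real.log_le_log (by positivity) hcard'
    rw [Real.log_mul (by norm_num) (by linarith)] at h8
    have h9 : Real.log 5 ≤ 1.8 := by
      have : Real.log 5 ≤ Real.log 6 := Real.log_le_log (by norm_num) (by norm_num)
      have h10 : Real.log 5 = Real.log 2 + Real.log 2.5 := by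
        rw [← Real.log_mul (by norm_num) (by norm_num)]; norm_num
      have h11 : Real.log 2.5 ≤ 1 := by
        rw [Real.log_le_iff_le_exp (by norm_num)]
        linarith [Real.exp_one_gt_d9]
      have := Real.log_two_lt_d9
      linarith
    linarith
  have hR0 : 0 ≤ Real.log ((R.card : ℝ) + 3) := Real.log_nonneg (by
    linarith [Nat.cast_nonneg (α := ℝ) R.card])
  have h12 : Real.exp (∑ p ∈ R, (1 : ℝ) / p) ≤ (25 * Real.exp 5) * Real.log L := by
    refine h1.trans ?_
    have := mul_le_mul_of_nonneg_left hlogR (Real.exp_pos 5).le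
    linarith
  have h13 : Real.exp ((κ : ℝ) * ∑ p ∈ R, (1 : ℝ) / p) = (Real.exp (∑ p ∈ R, (1 : ℝ) / p)) ^ κ := by
    rw [Real.exp_nat_mul]
  rw [h13]
  calc (Real.exp (∑ p ∈ R, (1 : ℝ) / p)) ^ κ ≤ ((25 * Real.exp 5) * Real.log L) ^ κ :=
        pow_le_pow_left₀ (Real.exp_pos _).le h12 κ
    _ = (25 * Real.exp 5) ^ κ * (Real.log L) ^ κ := by rw [mul_pow]
    _ ≤ (25 * Real.exp 5) ^ (finrank ℚ K) * (Real.log L) ^ κ := by
        apply mul_le_mul_of_nonneg_right _ (by positivity)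
        apply pow_le_pow_right₀ _ hκ
        have : (1 : ℝ) ≤ Real.exp 5 := Real.one_le_exp (by norm_num)
        linarith


/-- the bound resulting from a choice of the parameters -/
lemma combined {l : ℕ} (hl : l.Prime) (hn2 : 1 < finrank ℚ K) (AA : Finset (Ideal (𝓞 K)))
    (hAA : ∀ P ∈ AA, P = ⊤ ∨ Good l P)
    (hinj : Set.InjOn (fun P : Ideal (𝓞 K) => Ideal.absNorm P) (AA : Set (Ideal (𝓞 K))))
    (hsmall : ∀ P ∈ AA, ∀ Q ∈ AA, P ≠ Q →
      (2 * Real.exp l) ^ (finrank ℚ K * (finrank ℚ K - 1)) *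
      ((Ideal.absNorm P : ℝ) * (Ideal.absNorm Q : ℝ)) ^ (l * (finrank ℚ K - 1)) <
        |(discr K : ℝ)|)
    (y : ℝ) (hy : 2 ≤ y) (hyZ : y ≤ ZK K) (G : Finset ℕ) (hGp : ∀ p ∈ G, p.Prime)
    (hG : ∀ p : ℕ, p.Prime → (p : ℝ) ≤ y →
      (∃ P : Ideal (𝓞 K), Good l P ∧ Ideal.absNorm P = p) → p ∈ G)
    (hcard : (G.card : ℝ) + 1 ≤ 2 * AA.card) (B : ℝ) (hB0 : 0 ≤ B)
    (hB : Real.log (ZK K) / Real.log y ≤ B) :
    (Nat.card {x : ClassGroup (𝓞 K) // x ^ l = 1} : ℝ) ≤
      (6 * (2 * Real.exp 8 * finrank ℚ K * (25 * Real.exp 5)) ^ (finrank ℚ K) *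
        An (finrank ℚ K)) * B ^ (finrank ℚ K) * (Real.sqrt |(discr K : ℝ)| *
        (Real.log (Real.log |(discr K : ℝ)|)) ^ (kap (finrank ℚ K) l) /
          Real.log |(discr K : ℝ)|) := by
  classical
  have hmain := main_ineq hl hn2 AA hAA hinj hsmall
  have hsum := deg1_sum_le (K := K) hl y (ZK K) hy hyZ G hG
  have hram := ramified_part hn2 (kap (finrank ℚ K) l) (kap_le _ _)
  have hD3 := three_le_discr hn2
  obtain ⟨hL, hLL⟩ := loglog_lower hD3
  set n := finrank ℚ K with hn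
  set D : ℝ := |(discr K : ℝ)| with hD
  set L := Real.log D with hLdef
  set κ := kap n l with hκ
  set Z := ZK K with hZ
  set S := ∑ P ∈ deg1 K ⌊Z⌋₊, (1 : ℝ) / (Ideal.absNorm P) with hS
  set R := (discr K).natAbs.primeFactors with hR
  set g := ∑ p ∈ G, (1 : ℝ) / p with hg
  set h := (Nat.card {x : ClassGroup (𝓞 K) // x ^ l = 1} : ℝ) with hh
  have hn1 : 1 ≤ n := hn2.le
  have hAn := An_pos n hn1
  have hlogy : 0 < Real.log y := Real.log_pos (by linarith)
  have hlogZ : 0 < Real.log Z := Real.log_pos (by linarith)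
  have hq : 0 < Real.log Z / Real.log y := by positivity
  -- the G part
  have hGpart : Real.exp ((n : ℝ) * g) ≤
      Real.exp 5 ^ n * (2 * n : ℝ) ^ n * (3 * ((G.card : ℝ) + 1)) := by
    have h1 := exp_sum_inv_le G hGp
    have hG0 : (0 : ℝ) ≤ G.card := Nat.cast_nonneg _
    have h2 : Real.exp ((n : ℝ) * g) = (Real.exp g) ^ n := by rw [Real.exp_nat_mul]
    rw [h2]
    have h3 : Real.exp g ≤ Real.exp 5 * (1 + Real.log (G.card + 3)) := by
      refine h1.trans ?_
      apply mul_le_mul_of_nonneg_left _ (Real.exp_pos 5).le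
      linarith
    have h4 := one_add_log_pow_le n hn1 ((G.card : ℝ) + 3) (by linarith)
    have h5 : Real.sqrt ((G.card : ℝ) + 3) ≤ 3 * ((G.card : ℝ) + 1) := by
      rw [Real.sqrt_le_left (by linarith)]
      nlinarith
    calc (Real.exp g) ^ n ≤ (Real.exp 5 * (1 + Real.log (G.card + 3))) ^ n :=
          pow_le_pow_left₀ (Real.exp_pos _).le h3 n
      _ = Real.exp 5 ^ n * (1 + Real.log (G.card + 3)) ^ n := by rw [mul_pow]
      _ ≤ Real.exp 5 ^ n * ((2 * n : ℝ) ^ n * Real.sqrt ((G.card : ℝ) + 3)) := by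
          gcongr
      _ ≤ Real.exp 5 ^ n * ((2 * n : ℝ) ^ n * (3 * ((G.card : ℝ) + 1))) := by
          gcongr
      _ = _ := by ring
  have htail : Real.exp ((n : ℝ) * (Real.log (Real.log Z / Real.log y) + 3)) ≤
      Real.exp 3 ^ n * B ^ n := by
    rw [Real.exp_nat_mul, Real.exp_add, Real.exp_log hq, ← mul_pow, mul_comm]
    apply pow_le_pow_left₀ (by positivity)
    exact mul_le_mul_of_nonneg_left hB (Real.exp_pos 3).le
  have hexpS : Real.exp S ≤ (Real.exp 5 ^ n * (2 * n : ℝ) ^ n * (3 * ((G.card : ℝ) + 1))) *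
      ((25 * Real.exp 5) ^ n * (Real.log L) ^ κ) * (Real.exp 3 ^ n * B ^ n) := by
    calc Real.exp S ≤ Real.exp ((n : ℝ) * g + (κ : ℝ) * ∑ p ∈ R, (1 : ℝ) / p +
          (n : ℝ) * (Real.log (Real.log Z / Real.log y) + 3)) := Real.exp_le_exp.mpr hsum
      _ = Real.exp ((n : ℝ) * g) * Real.exp ((κ : ℝ) * ∑ p ∈ R, (1 : ℝ) / p) *
          Real.exp ((n : ℝ) * (Real.log (Real.log Z / Real.log y) + 3)) := by
          rw [Real.exp_add, Real.exp_add]
      _ ≤ _ := by
          gcongr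
  have hA0 : (0 : ℝ) < AA.card := by
    have : (0 : ℝ) ≤ G.card := Nat.cast_nonneg _
    linarith
  have hfin : (AA.card : ℝ) * h ≤ (AA.card : ℝ) *
      ((6 * (2 * Real.exp 8 * n * (25 * Real.exp 5)) ^ n * An n) * B ^ n *
        (Real.sqrt D * (Real.log L) ^ κ / L)) := by
    calc (AA.card : ℝ) * h ≤ An n * (Real.sqrt D / L) * Real.exp S := hmain
      _ ≤ An n * (Real.sqrt D / L) *
          ((Real.exp 5 ^ n * (2 * n : ℝ) ^ n * (3 * ((G.card : ℝ) + 1))) *
      ((25 * Real.exp 5) ^ n * (Real.log L) ^ κ) * (Real.exp 3 ^ n * B ^ n)) := by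
          gcongr
      _ ≤ An n * (Real.sqrt D / L) *
          ((Real.exp 5 ^ n * (2 * n : ℝ) ^ n * (3 * (2 * AA.card))) *
      ((25 * Real.exp 5) ^ n * (Real.log L) ^ κ) * (Real.exp 3 ^ n * B ^ n)) := by
          gcongr
      _ = _ := by
          have hc : (2 * Real.exp 8 * n * (25 * Real.exp 5)) ^ n =
              Real.exp 5 ^ n * (2 * n : ℝ) ^ n * (25 * Real.exp 5) ^ n * Real.exp 3 ^ n := by
            rw [← mul_pow, ← mul_pow, ← mul_pow, show (8 : ℝ) = 5 + 3 by norm_num, Real.exp_add]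
            congr 1
            ring
          rw [hc]
          ring
  exact le_of_mul_le_mul_left hfin hA0


/-- the final constant -/
noncomputable def Cn (n : ℕ) : ℝ :=
  (6 * (2 * Real.exp 8 * n * (25 * Real.exp 5)) ^ n * An n) * (5 * (n : ℝ) ^ 2) ^ n

theorem log_saving {l : ℕ} (hl : l.Prime) (hn2 : 1 < finrank ℚ K) :
    (Nat.card {x : ClassGroup (𝓞 K) // x ^ l = 1} : ℝ) ≤
      Cn (finrank ℚ K) * (l : ℝ) ^ (finrank ℚ K) * (Real.sqrt |(discr K : ℝ)| *
        (Real.log (Real.log |(discr K : ℝ)|)) ^ (kap (finrank ℚ K) l) /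
          Real.log |(discr K : ℝ)|) := by
  classical
  have hD3 := three_le_discr hn2
  obtain ⟨hL, hLL⟩ := loglog_lower hD3
  have hZdef : ZK K = 2 * Real.sqrt |(discr K : ℝ)| := rfl
  have hcomb := @combined K _ _ l hl hn2
  set n := finrank ℚ K with hn
  set D : ℝ := |(discr K : ℝ)| with hD
  set L := Real.log D with hLdef
  set κ := kap n l with hκ
  set Z := ZK K with hZ
  have hn1 : 1 ≤ n := hn2.le
  have hnr : (2 : ℝ) ≤ n := by exact_mod_cast hn2
  have hlr : (2 : ℝ) ≤ l := by exact_mod_cast hl.two_le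
  have hAn := An_pos n hn1
  have hsD : (1.7 : ℝ) ≤ Real.sqrt D := by
    apply Real.le_sqrt_of_sq_le
    linarith
  have hlogZ : Real.log Z = Real.log 2 + L / 2 := by
    rw [hZdef, Real.log_mul (by norm_num) (by positivity), Real.log_sqrt (by linarith)]
  have hlog2 : Real.log 2 ≤ 0.7 := by linarith [Real.log_two_lt_d9]
  have hlog2' : 0.69 ≤ Real.log 2 := by linarith [Real.log_two_gt_d9]
  -- it suffices to reach a bound with `B ≤ 5 n² l`
  have key : ∀ B : ℝ, 0 ≤ B → B ≤ 5 * (n : ℝ) ^ 2 * l →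
      (6 * (2 * Real.exp 8 * n * (25 * Real.exp 5)) ^ n * An n) * B ^ n *
        (Real.sqrt D * (Real.log L) ^ κ / L) ≤
      Cn n * (l : ℝ) ^ n * (Real.sqrt D * (Real.log L) ^ κ / L) := by
    intro B hB0 hB
    have h1 : B ^ n ≤ (5 * (n : ℝ) ^ 2) ^ n * (l : ℝ) ^ n := by
      rw [← mul_pow]
      exact pow_le_pow_left₀ hB0 hB n
    have hLpos : 0 < L := by linarith
    have hLLpos : 0 < Real.log L := by linarith
    unfold Cn
    apply mul_le_mul_of_nonneg_right _ (by positivity)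
    calc (6 * (2 * Real.exp 8 * n * (25 * Real.exp 5)) ^ n * An n) * B ^ n
        ≤ (6 * (2 * Real.exp 8 * n * (25 * Real.exp 5)) ^ n * An n) *
          ((5 * (n : ℝ) ^ 2) ^ n * (l : ℝ) ^ n) := by
          apply mul_le_mul_of_nonneg_left h1
          positivity
      _ = _ := by ring
  by_cases hcase : L < 4 * l * (n : ℝ) ^ 2
  · -- trivial choice
    refine (hcomb {⊤} ?_ ?_ ?_ 2 le_rfl ?_ {2} ?_ ?_ ?_ (5 * (n : ℝ) ^ 2 * l) (by positivity) ?_).trans
      (key _ (by positivity) le_rfl)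
    · intro P hP
      exact Or.inl (Finset.mem_singleton.mp hP)
    · simp
    · intro P hP Q hQ hne
      rw [Finset.mem_singleton] at hP hQ
      exact absurd (hP.trans hQ.symm) hne
    · rw [hZdef]; linarith
    · intro p hp
      rw [Finset.mem_singleton] at hp
      rw [hp]; exact Nat.prime_two
    · intro p hp hp2 _
      have : p ≤ 2 := by exact_mod_cast hp2
      rw [Finset.mem_singleton]
      exact le_antisymm this hp.two_le
    · norm_num
    · rw [hlogZ, div_le_iff₀ (by linarith)]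
      have h1 : (8 : ℝ) ≤ (n : ℝ) ^ 2 * l := by nlinarith
      nlinarith
  · push Not at hcase
    -- the main choice
    set y : ℝ := Real.exp (L / (4 * l * n)) with hy
    have hnpos : (0 : ℝ) < n := by linarith
    have hlpos : (0 : ℝ) < l := by linarith
    have hq : (n : ℝ) ≤ L / (4 * l * n) := by
      rw [le_div_iff₀ (by positivity)]
      linarith [hcase]
    have hq2 : L / (4 * l * n) ≤ L / 2 := by
      apply div_le_div_of_nonneg_left (by linarith) (by norm_num)
      nlinarith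
    have hy2 : 2 ≤ y := by
      have := Real.add_one_le_exp (L / (4 * l * n))
      linarith
    have hyZ : y ≤ Z := by
      have h1 : y ≤ Real.sqrt D := by
        rw [hy, ← Real.exp_log (show 0 < Real.sqrt D by linarith), Real.exp_le_exp,
          Real.log_sqrt (by linarith)]
        exact hq2
      rw [hZdef]; linarith
    have hy0 : 0 < y := by linarith
    set G : Finset ℕ := ((Icc 0 ⌊y⌋₊).filter Nat.Prime).filter
      (fun p => ∃ P : Ideal (𝓞 K), Good l P ∧ Ideal.absNorm P = p) with hG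
    have hGmem : ∀ p, p ∈ G ↔ p.Prime ∧ (p : ℝ) ≤ y ∧
        ∃ P : Ideal (𝓞 K), Good l P ∧ Ideal.absNorm P = p := by
      intro p
      rw [hG, mem_filter, mem_filter, mem_Icc, Nat.le_floor_iff hy0.le]
      constructor
      · rintro ⟨⟨⟨_, h1⟩, h2⟩, h3⟩
        exact ⟨h2, h1, h3⟩
      · rintro ⟨h1, h2, h3⟩
        exact ⟨⟨⟨Nat.zero_le _, h2⟩, h1⟩, h3⟩
    let c : ℕ → Ideal (𝓞 K) := fun p =>
      if h : ∃ P : Ideal (𝓞 K), Good l P ∧ Ideal.absNorm P = p then h.choose else ⊤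
    have hc : ∀ p ∈ G, Good l (c p) ∧ Ideal.absNorm (c p) = p := by
      intro p hp
      have h := ((hGmem p).mp hp).2.2
      simp only [c]
      rw [dif_pos h]
      exact h.choose_spec
    have hcinj : Set.InjOn c (G : Set ℕ) := by
      intro p hp q hq hpq
      rw [← (hc p hp).2, ← (hc q hq).2, hpq]
    have hAcard : (insert ⊤ (G.image c)).card = G.card + 1 := by
      rw [Finset.card_insert_of_notMem, Finset.card_image_of_injOn hcinj]
      intro h
      rw [mem_image] at h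
      obtain ⟨p, hp, hpt⟩ := h
      have h1 := (hc p hp).2
      rw [hpt, Ideal.absNorm_top] at h1
      exact ((hGmem p).mp hp).1.one_lt.ne h1
    have hAmem : ∀ P ∈ insert ⊤ (G.image c), P = ⊤ ∨ ∃ p ∈ G, Good l P ∧ Ideal.absNorm P = p := by
      intro P hP
      rw [mem_insert, mem_image] at hP
      rcases hP with h | ⟨p, hp, h⟩
      · exact Or.inl h
      · exact Or.inr ⟨p, hp, h ▸ (hc p hp).1, h ▸ (hc p hp).2⟩
    have hAnorm : ∀ P ∈ insert ⊤ (G.image c), (Ideal.absNorm P : ℝ) ≤ y := by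
      intro P hP
      rcases hAmem P hP with h | ⟨p, hp, _, h⟩
      · rw [h, Ideal.absNorm_top]; push_cast; linarith
      · rw [h]; exact ((hGmem p).mp hp).2.1
    refine (hcomb (insert ⊤ (G.image c)) ?_ ?_ ?_ y hy2 hyZ G ?_ ?_ ?_ (4 * l * n)
      (by positivity) ?_).trans (key _ (by positivity) ?_)
    · intro P hP
      rcases hAmem P hP with h | ⟨p, hp, h, _⟩
      · exact Or.inl h
      · exact Or.inr h
    · intro P hP Q hQ hPQ
      simp only at hPQ
      rcases hAmem P hP with h | ⟨p, hp, h, hNP⟩ <;> rcases hAmem Q hQ with h' | ⟨q, hq, h', hNQ⟩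
      · rw [h, h']
      · exfalso
        rw [h, Ideal.absNorm_top, hNQ] at hPQ
        exact ((hGmem q).mp hq).1.one_lt.ne hPQ
      · exfalso
        rw [h', Ideal.absNorm_top, hNP] at hPQ
        exact ((hGmem p).mp hp).1.one_lt.ne hPQ.symm
      · have hP' := hP
        have hQ' := hQ
        rw [mem_coe, mem_insert, mem_image] at hP' hQ'
        rcases hP' with hP' | ⟨p', hp', hP'⟩
        · exfalso
          rw [hP', Ideal.absNorm_top] at hNP
          exact ((hGmem p).mp hp).1.one_lt.ne hNP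
        rcases hQ' with hQ' | ⟨q', hq', hQ'⟩
        · exfalso
          rw [hQ', Ideal.absNorm_top] at hNQ
          exact ((hGmem q).mp hq).1.one_lt.ne hNQ
        have e1 := (hc p' hp').2
        have e2 := (hc q' hq').2
        rw [hP'] at e1
        rw [hQ'] at e2
        have : p' = q' := by rw [← e1, ← e2, hPQ]
        rw [← hP', ← hQ', this]
    · intro P hP Q hQ _
      have hPy := hAnorm P hP
      have hQy := hAnorm Q hQ
      have h1 : (2 * Real.exp l) ≤ Real.exp (2 * l) := by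
        have h2 : (2 : ℝ) ≤ Real.exp l := by
          have := Real.add_one_le_exp (l : ℝ)
          linarith
        rw [two_mul (l : ℝ), Real.exp_add]
        exact mul_le_mul_of_nonneg_right h2 (Real.exp_pos _).le
      have h3 : (Ideal.absNorm P : ℝ) * (Ideal.absNorm Q : ℝ) ≤ Real.exp (2 * (L / (4 * l * n))) := by
        rw [two_mul, Real.exp_add]
        exact mul_le_mul hPy hQy (Nat.cast_nonneg _) (by positivity)
      have h4 : ((n - 1 : ℕ) : ℝ) = (n : ℝ) - 1 := by
        rw [Nat.cast_sub hn1, Nat.cast_one]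
      calc (2 * Real.exp l) ^ (n * (n - 1)) *
            ((Ideal.absNorm P : ℝ) * (Ideal.absNorm Q : ℝ)) ^ (l * (n - 1))
          ≤ (Real.exp (2 * l)) ^ (n * (n - 1)) *
            (Real.exp (2 * (L / (4 * l * n)))) ^ (l * (n - 1)) := by
            gcongr
        _ = Real.exp (2 * l * n * ((n : ℝ) - 1) + L * ((n : ℝ) - 1) / (2 * n)) := by
            rw [← Real.exp_nat_mul, ← Real.exp_nat_mul, ← Real.exp_add]
            congr 1
            push_cast
            rw [h4]
            field_simp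
            ring
        _ < Real.exp L := by
            rw [Real.exp_lt_exp]
            have h5 : L * ((n : ℝ) - 1) / (2 * n) < L / 2 := by
              rw [div_lt_div_iff₀ (by positivity) (by norm_num)]
              nlinarith
            have h6 : 2 * l * n * ((n : ℝ) - 1) ≤ L / 2 := by
              nlinarith [mul_pos hlpos hnpos]
            linarith
        _ = D := Real.exp_log (by linarith)
    · intro p hp
      exact ((hGmem p).mp hp).1
    · intro p hp hpy hex
      exact (hGmem p).mpr ⟨hp, hpy, hex⟩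
    · rw [hAcard]
      push_cast
      have : (0 : ℝ) ≤ G.card := Nat.cast_nonneg _
      linarith
    · rw [hlogZ, hy, Real.log_exp, div_le_iff₀ (by positivity)]
      have : 4 * l * n * (L / (4 * l * n)) = L := by field_simp
      rw [this]
      nlinarith
    · nlinarith [mul_pos hlpos hnpos]

end Pool.Agent.Lib.MP_695920_nt
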