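import Mathlib
import Pool.Agent.Lib.MP_695920_nt.Assembly
import Pool.Agent.Lib.MP_695920_nt.JacobiChar

set_option autoImplicit false

open Finset NumberField Module IsDedekindDomain
open scoped nonZeroDivisors NumberTheorySymbols

namespace Pool.Agent.Lib.MP_695920_nt

lemma exp_eq_of_prime {M : Type*} [CommMonoidWithZero M] [IsCancelMulZero M] {P R S : M} (hP : Prime P)
    {a b : ℕ} (h : P ^ a * R = P ^ b * S) (hR : ¬ P ∣ R) (hS : ¬ P ∣ S) : a = b := by
  have key : ∀ (a b : ℕ) (R S : M), P ^ a * R = P ^ b * S → ¬ P ∣ R → a ≤ b → a = b := by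
    intro a b R S h hR hab
    by_contra hne
    have hlt : a < b := lt_of_le_of_ne hab hne
    obtain ⟨k, rfl⟩ := Nat.exists_eq_add_of_le hab
    rw [pow_add, mul_assoc] at h
    have h1 := mul_left_cancel₀ (pow_ne_zero a hP.ne_zero) h
    apply hR
    rw [h1]
    exact Dvd.dvd.mul_right (dvd_pow_self P (by omega)) S
  rcases le_total a b with hab | hab
  · exact key a b R S h hR hab
  · exact (key b a S R h.symm hS hab).symm

lemma exists_mult {A : Type*} [CommRing A] [IsDedekindDomain A] {P I : Ideal A} (hP : Prime P)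
    (hI : I ≠ ⊥) : ∃ (k : ℕ) (R : Ideal A), I = P ^ k * R ∧ ¬ P ∣ R := by
  have h1 : FiniteMultiplicity P I := FiniteMultiplicity.of_prime_left hP hI
  obtain ⟨R, hR, hR'⟩ := h1.exists_eq_pow_mul_and_not_dvd
  exact ⟨_, R, hR, hR'⟩

lemma sq_dvd_map_of_sq {A B : Type*} [CommRing A] [IsDedekindDomain A] [CommRing B]
    [IsDedekindDomain B] [Algebra A B] [FaithfulSMul A B] {p : Ideal A} (hp0 : p ≠ ⊥)
    {P : Ideal B} (hP : P.IsPrime) (hP0 : P ≠ ⊥) (hover : P.comap (algebraMap A B) = p)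
    {d : A} (hd0 : d ≠ 0) {e : ℕ} (he : Odd e) {C : Ideal A} (hd : Ideal.span {d} = p ^ e * C)
    (hC : ¬ p ∣ C) {θ : B} (hθ : θ ^ 2 = algebraMap A B d) :
    P ^ 2 ∣ p.map (algebraMap A B) := by
  have hPp : Prime P := Ideal.prime_of_isPrime hP0 hP
  have hle : p.map (algebraMap A B) ≤ P := by
    rw [Ideal.map_le_iff_le_comap, hover]
  have hPdvd : P ∣ p.map (algebraMap A B) := Ideal.dvd_iff_le.mpr hle
  obtain ⟨Q, hQ⟩ := hPdvd
  by_contra hcon
  have hPQ : ¬ P ∣ Q := by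
    rintro ⟨Q', rfl⟩
    exact hcon ⟨Q', by rw [hQ]; ring⟩
  have hPC : ¬ P ∣ C.map (algebraMap A B) := by
    intro h
    apply hC
    rw [Ideal.dvd_iff_le]
    have h1 := Ideal.le_of_dvd h
    rw [Ideal.map_le_iff_le_comap, hover] at h1
    exact h1
  have hinj : Function.Injective (algebraMap A B) := FaithfulSMul.algebraMap_injective A B
  have hθ0 : θ ≠ 0 := by
    rintro rfl
    rw [zero_pow two_ne_zero] at hθ
    exact hd0 (hinj (by rw [← hθ, map_zero]))
  obtain ⟨k, R, hR, hPR⟩ := exists_mult hPp (I := Ideal.span {θ}) (by simpa using hθ0)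
  have h1 : Ideal.span {algebraMap A B d} = P ^ e * (Q ^ e * C.map (algebraMap A B)) := by
    rw [← Set.image_singleton, ← Ideal.map_span, hd, Ideal.map_mul, Ideal.map_pow, hQ, mul_pow,
      mul_assoc]
  have h2 : Ideal.span {algebraMap A B d} = P ^ (2 * k) * R ^ 2 := by
    rw [← hθ, ← Ideal.span_singleton_pow, hR, mul_pow, ← pow_mul, mul_comm k 2]
  rw [h2] at h1
  have h3 := exp_eq_of_prime hPp h1 (fun h => hPR (hPp.dvd_of_dvd_pow h)) (fun h => by
    rcases hPp.dvd_or_dvd h with h | h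
    · exact hPQ (hPp.dvd_of_dvd_pow h)
    · exact hPC h)
  rw [← h3] at he
  exact absurd he (by rw [Nat.not_odd_iff_even]; exact even_two_mul k)

variable {K : Type*} [Field K] [NumberField K]

/-- every integer is congruent to a rational integer modulo a prime ideal of prime norm -/
lemma exists_int_sub_mem {P : Ideal (𝓞 K)} (hN : (Ideal.absNorm P).Prime) (x : 𝓞 K) :
    ∃ a : ℤ, x - (a : 𝓞 K) ∈ P := by
  have hcard : Nat.card (𝓞 K ⧸ P) = Ideal.absNorm P := rfl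
  have : Fact (Nat.Prime (Nat.card (𝓞 K ⧸ P))) := ⟨by rw [hcard]; exact hN⟩
  have : Finite (𝓞 K ⧸ P) := Nat.finite_of_card_ne_zero (by
    rw [hcard]; exact hN.ne_zero)
  have hP1 : P ≠ ⊤ := by
    rintro rfl
    rw [Ideal.absNorm_top] at hN
    exact Nat.not_prime_one hN
  have h1 : (1 : 𝓞 K ⧸ P) ≠ 0 := by
    intro h
    apply hP1
    rw [Ideal.eq_top_iff_one]
    exact Ideal.Quotient.eq_zero_iff_mem.mp (by rw [map_one]; exact h)
  have h2 : AddSubgroup.zmultiples (1 : 𝓞 K ⧸ P) = ⊤ :=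
    zmultiples_eq_top_of_prime_card (p := Nat.card (𝓞 K ⧸ P)) rfl h1
  have h3 : Ideal.Quotient.mk P x ∈ AddSubgroup.zmultiples (1 : 𝓞 K ⧸ P) := by
    rw [h2]; trivial
  obtain ⟨a, ha⟩ := AddSubgroup.mem_zmultiples_iff.mp h3
  refine ⟨a, ?_⟩
  rw [← Ideal.Quotient.eq_zero_iff_mem, map_sub, ← ha, map_intCast, zsmul_one, sub_self]

/-- converse -/
lemma absNorm_eq_of_forall {p : ℕ} (hp : p.Prime) {P : Ideal (𝓞 K)} (hP : P.IsPrime)
    (hmem : (p : 𝓞 K) ∈ P) (h : ∀ x : 𝓞 K, ∃ a : ℤ, x - (a : 𝓞 K) ∈ P) :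
    Ideal.absNorm P = p := by
  have hP0 : P ≠ ⊥ := by
    rintro rfl
    rw [Ideal.mem_bot] at hmem
    exact hp.ne_zero (by exact_mod_cast hmem)
  have hsurj : Function.Surjective (Int.castRingHom (𝓞 K ⧸ P)) := by
    intro y
    obtain ⟨x, rfl⟩ := Ideal.Quotient.mk_surjective y
    obtain ⟨a, ha⟩ := h x
    refine ⟨a, ?_⟩
    rw [← Ideal.Quotient.eq_zero_iff_mem, map_sub, map_intCast, sub_eq_zero] at ha
    rw [ha]; rfl
  have hker : RingHom.ker (Int.castRingHom (𝓞 K ⧸ P)) = Ideal.span {(p : ℤ)} := by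
    have hmax : (Ideal.span {(p : ℤ)}).IsMaximal :=
      ((Ideal.span_singleton_prime (by exact_mod_cast hp.ne_zero)).mpr
        (Nat.prime_iff_prime_int.mp hp)).isMaximal (by simpa using hp.ne_zero)
    symm
    apply hmax.eq_of_le
    · exact RingHom.ker_ne_top _
    · rw [Ideal.span_singleton_le_iff_mem, RingHom.mem_ker]
      have : ((p : ℕ) : 𝓞 K ⧸ P) = 0 := by
        rw [← map_natCast (Ideal.Quotient.mk P), Ideal.Quotient.eq_zero_iff_mem]
        exact hmem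
      simpa using this
  have e := RingHom.quotientKerEquivOfSurjective hsurj
  have h1 : Nat.card (𝓞 K ⧸ P) = Nat.card (ℤ ⧸ RingHom.ker (Int.castRingHom (𝓞 K ⧸ P))) :=
    Nat.card_congr e.symm.toEquiv
  rw [hker] at h1
  have h2 : Nat.card (ℤ ⧸ Ideal.span {(p : ℤ)}) = p := by
    rw [Nat.card_congr (Int.quotientSpanNatEquivZMod p).toEquiv]
    exact Nat.card_zmod p
  rw [h2] at h1
  exact h1

/-- primes where `d` is not a square have no prime ideal of prime norm above in a field containing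
a square root of `d` -/
lemma no_prime_norm {F : Type*} [Field F] [NumberField F] {d : ℤ} {θ : 𝓞 F} (hθ : θ ^ 2 = (d : 𝓞 F))
    {p : ℕ} (hp : p.Prime) (hJ : jacobiSym d p = -1) : ¬ ∃ P : Ideal (𝓞 F), Ideal.absNorm P = p := by
  rintro ⟨P, hP⟩
  have : Fact p.Prime := ⟨hp⟩
  obtain ⟨a, ha⟩ := exists_int_sub_mem (P := P) (by rw [hP]; exact hp) θ
  have h1 : (d : 𝓞 F) - ((a ^ 2 : ℤ) : 𝓞 F) ∈ P := by
    rw [← hθ]
    have : θ ^ 2 - ((a ^ 2 : ℤ) : 𝓞 F) = (θ + a) * (θ - a) := by push_cast; ring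
    rw [this]
    exact P.mul_mem_left _ ha
  have hPp : P.IsPrime := Ideal.isPrime_of_irreducible_absNorm (by rw [hP]; exact hp)
  have hmem : (p : 𝓞 F) ∈ P := by rw [← hP]; exact Ideal.absNorm_mem P
  have h2 := liesOver_of_mem hPp hp hmem
  have h3 : d - a ^ 2 ∈ P.under ℤ := by
    rw [Ideal.under, Ideal.mem_comap]
    push_cast at h1 ⊢
    simpa using h1
  rw [← h2.over, Ideal.mem_span_singleton] at h3
  have h4 : ((d : ℤ) : ZMod p) = (a : ZMod p) ^ 2 := by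
    have h5 : (((d - a ^ 2 : ℤ)) : ZMod p) = 0 := (ZMod.intCast_zmod_eq_zero_iff_dvd _ _).mpr h3
    push_cast at h5
    rwa [sub_eq_zero] at h5
  rw [← jacobiSym.legendreSym.to_jacobiSym, legendreSym.eq_neg_one_iff] at hJ
  exact hJ ⟨a, by rw [h4, sq]⟩

open scoped IntermediateField in
lemma disc_le_of_gen (g : 𝓞 K) (hgen : ℚ⟮(g : K)⟯ = ⊤) (X : ℝ)
    (hX : ∀ φ : K →ₐ[ℚ] ℂ, ‖φ (g : K)‖ ≤ X) :
    |(discr K : ℝ)| ≤ (2 * X) ^ (finrank ℚ K * (finrank ℚ K - 1)) := by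
  have h := disc_bound (K := K) (P := ⊤) (Q := Ideal.span {g}) top_ne_bot (l := 1) (x := g) (y := 1)
    one_ne_zero (by
      rw [Ideal.span_singleton_one, pow_one, pow_one, Ideal.top_mul, Ideal.mul_top])
    (by simpa using hgen) X (by simpa using hX)
  rw [Ideal.absNorm_top, Nat.cast_one, one_pow, mul_one] at h
  exact h

lemma not_rat_of_sq {F : Type*} [Field F] [NumberField F] {d : ℤ} (hd : Squarefree d) (hd1 : d ≠ 1)
    {θ : F} (hθ : θ ^ 2 = (d : F)) : θ ∉ (algebraMap ℚ F).range := by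
  rintro ⟨r, hr⟩
  have h1 : r ^ 2 = (d : ℚ) := by
    apply (algebraMap ℚ F).injective
    rw [map_pow, hr, hθ, map_intCast]
  have h2 : IsSquare (d : ℚ) := ⟨r, by rw [← h1, sq]⟩
  have h3 : IsSquare d := Rat.isSquare_intCast_iff.mp h2
  obtain ⟨s, hs⟩ := h3
  have h4 : IsUnit s := hd s ⟨1, by rw [hs]; ring⟩
  rcases Int.isUnit_iff.mp h4 with h5 | h5 <;> rw [h5] at hs <;> exact hd1 (by rw [hs]; norm_num)

open scoped IntermediateField in
lemma quad_disc_le {F : Type*} [Field F] [NumberField F] (hF : finrank ℚ F = 2) {d : ℤ}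
    (hd : Squarefree d) (hd1 : d ≠ 1) {θ : 𝓞 F} (hθ : θ ^ 2 = (d : 𝓞 F)) :
    |(discr F : ℝ)| ≤ 4 * |(d : ℝ)| := by
  have hθF : ((θ : F)) ^ 2 = (d : F) := by
    have := congrArg (algebraMap (𝓞 F) F) hθ
    simpa using this
  have hnr := not_rat_of_sq hd hd1 hθF
  have hgen : ℚ⟮(θ : F)⟯ = ⊤ := by
    have h1 : finrank ℚ ℚ⟮(θ : F)⟯ ≠ 1 := by
      intro h
      rw [IntermediateField.finrank_eq_one_iff] at h
      apply hnr
      have h2 : (θ : F) ∈ ℚ⟮(θ : F)⟯ := IntermediateField.mem_adjoin_simple_self ℚ (θ : F)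
      rw [h, IntermediateField.mem_bot] at h2
      exact h2
    have h2 : finrank ℚ ℚ⟮(θ : F)⟯ * finrank ℚ⟮(θ : F)⟯ F = 2 := by
      rw [finrank_mul_finrank, hF]
    have h3 : finrank ℚ ℚ⟮(θ : F)⟯ ∣ 2 := ⟨_, h2.symm⟩
    have h4 := (Nat.dvd_prime Nat.prime_two).mp h3
    have h5 : finrank ℚ ℚ⟮(θ : F)⟯ = finrank ℚ F := by
      rw [hF]; exact h4.resolve_left h1
    exact IntermediateField.eq_of_le_of_finrank_eq le_top (by rw [h5, IntermediateField.finrank_top'])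
  have h := disc_le_of_gen θ hgen (Real.sqrt |(d : ℝ)|) (by
    intro φ
    apply le_of_eq
    rw [eq_comm, Real.sqrt_eq_iff_mul_self_eq (abs_nonneg _) (norm_nonneg _), ← norm_mul,
      ← map_mul, ← sq, hθF, map_intCast, Complex.norm_intCast])
  rw [hF] at h
  refine h.trans (le_of_eq ?_)
  rw [show 2 * (2 - 1) = 2 by norm_num, mul_pow, Real.sq_sqrt (abs_nonneg _)]
  norm_num

lemma span_int_isMaximal {p : ℕ} (hp : p.Prime) : (Ideal.span {(p : ℤ)}).IsMaximal :=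
  ((Ideal.span_singleton_prime (by exact_mod_cast hp.ne_zero)).mpr
    (Nat.prime_iff_prime_int.mp hp)).isMaximal (by simpa using hp.ne_zero)

lemma exists_prime_above {p : ℕ} (hp : p.Prime) : ∃ P : Ideal (𝓞 K), P.IsPrime ∧ P ≠ ⊥ ∧
    (p : 𝓞 K) ∈ P := by
  have hmax := span_int_isMaximal hp
  obtain ⟨P, hPmax, hPover⟩ := Ideal.exists_maximal_ideal_liesOver_of_isIntegral (S := 𝓞 K)
    (Ideal.span {(p : ℤ)})
  have hmem : (p : 𝓞 K) ∈ P := by
    have h1 : (p : ℤ) ∈ P.under ℤ := by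
      rw [← hPover.over]
      exact Ideal.mem_span_singleton_self _
    rw [Ideal.under, Ideal.mem_comap] at h1
    simpa using h1
  refine ⟨P, hPmax.isPrime, ?_, hmem⟩
  rintro rfl
  rw [Ideal.mem_bot] at hmem
  exact hp.ne_zero (by exact_mod_cast hmem)

lemma dvd_absNorm_of_mem {p : ℕ} (hp : p.Prime) {P : Ideal (𝓞 K)} (hP : P.IsPrime) (hP0 : P ≠ ⊥)
    (hmem : (p : 𝓞 K) ∈ P) : p ∣ Ideal.absNorm P := by
  obtain ⟨p', f, hp', hf, _, hmem', hN⟩ := exists_prime_absNorm hP0 hP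
  have h1 := (liesOver_of_mem hP hp hmem).over
  have h2 := (liesOver_of_mem hP hp' hmem').over
  rw [← h1, Ideal.span_singleton_eq_span_singleton] at h2
  have h3 : p' = p := by
    have := Int.associated_iff_natAbs.mp h2
    simpa using this
  rw [hN, h3]
  exact dvd_pow_self p hf.ne'

lemma natAbs_dvd_of_primes {d : ℤ} (hd : Squarefree d) {N : ℕ}
    (h : ∀ p : ℕ, p.Prime → (p : ℤ) ∣ d → p ∣ N) : d.natAbs ∣ N := by
  have hsq : Squarefree d.natAbs := Int.squarefree_natAbs.mpr hd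
  rw [← Nat.prod_primeFactors_of_squarefree hsq]
  apply Finset.prod_primes_dvd
  · intro p hp
    exact (Nat.prime_of_mem_primeFactors hp).prime
  · intro p hp
    exact h p (Nat.prime_of_mem_primeFactors hp) (Int.natCast_dvd.mpr (Nat.dvd_of_mem_primeFactors hp))

lemma natAbs_dvd_discr {F : Type*} [Field F] [NumberField F] {d : ℤ}
    (hd : Squarefree d) {θ : 𝓞 F} (hθ : θ ^ 2 = (d : 𝓞 F)) :
    d.natAbs ∣ (discr F).natAbs := by
  apply natAbs_dvd_of_primes hd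
  rintro p hp ⟨d', rfl⟩
  have hmax := span_int_isMaximal hp
  have hp0 : (p : ℤ) ≠ 0 := by exact_mod_cast hp.ne_zero
  have hpd' : ¬ (p : ℤ) ∣ d' := by
    rintro ⟨e, rfl⟩
    have h2 := hd (p : ℤ) ⟨e, by ring⟩
    rw [Int.isUnit_iff] at h2
    have := hp.two_le
    omega
  obtain ⟨P, hP, hP0, hmem⟩ := exists_prime_above (K := F) hp
  have hover : P.comap (algebraMap ℤ (𝓞 F)) = Ideal.span {(p : ℤ)} :=
    (liesOver_of_mem hP hp hmem).over.symm
  have h1 := sq_dvd_map_of_sq (A := ℤ) (B := 𝓞 F) (p := Ideal.span {(p : ℤ)}) (by simpa using hp0)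
    hP hP0 hover (d := (p : ℤ) * d') (e := 1) hd.ne_zero odd_one (C := Ideal.span {d'})
    (by rw [pow_one, Ideal.span_singleton_mul_span_singleton])
    (by
      rw [Ideal.dvd_iff_le, Ideal.span_singleton_le_iff_mem, Ideal.mem_span_singleton]
      exact hpd') (θ := θ) (by rw [hθ]; simp)
  have h2 := pow_sub_one_dvd_differentIdeal ℤ P 2 (p := Ideal.span {(p : ℤ)}) (by simpa using hp0) h1
  rw [Nat.add_sub_cancel_left 1 1, pow_one] at h2
  have h3 := Ideal.absNorm_dvd_absNorm_of_le (Ideal.le_of_dvd h2)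
  rw [absNorm_differentIdeal F] at h3
  exact (dvd_absNorm_of_mem hp hP hP0 hmem).trans h3

end Pool.Agent.Lib.MP_695920_nt
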