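import Mathlib
import Pool.Agent.Lib.MP_695920_nt.Fields

set_option autoImplicit false

open Finset NumberField Module IsDedekindDomain
open scoped nonZeroDivisors NumberTheorySymbols

namespace Pool.Agent.Lib.MP_695920_nt

set_option linter.deprecated false in
lemma exists_odd_prime_above {K : Type*} [Field K] [NumberField K] (hodd : Odd (finrank ℚ K))
    {p : ℕ} (hp : p.Prime) : ∃ (P : Ideal (𝓞 K)) (e : ℕ) (R : Ideal (𝓞 K)), P.IsPrime ∧ P ≠ ⊥ ∧
      (p : 𝓞 K) ∈ P ∧ Odd e ∧ Ideal.span {(p : 𝓞 K)} = P ^ e * R ∧ ¬ P ∣ R := by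
  have hmax := span_int_isMaximal hp
  have hne : Ideal.span {(p : ℤ)} ≠ ⊥ := by simpa using hp.ne_zero
  have hsum := Ideal.sum_ramification_inertia (𝓞 K) ℚ K hne
  have hex : ∃ P ∈ IsDedekindDomain.primesOverFinset (Ideal.span {(p : ℤ)}) (𝓞 K),
      Odd (Ideal.ramificationIdx' (Ideal.span {(p : ℤ)}) P *
        Ideal.inertiaDeg' (Ideal.span {(p : ℤ)}) P) := by
    by_contra hcon
    push Not at hcon
    have : Even (∑ P ∈ IsDedekindDomain.primesOverFinset (Ideal.span {(p : ℤ)}) (𝓞 K),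
        Ideal.ramificationIdx' (Ideal.span {(p : ℤ)}) P *
        Ideal.inertiaDeg' (Ideal.span {(p : ℤ)}) P) :=
      Finset.even_sum _ (fun P hP => Nat.not_odd_iff_even.mp (hcon P hP))
    rw [hsum] at this
    exact (Nat.not_even_iff_odd.mpr hodd) this
  obtain ⟨P, hP, hPodd⟩ := hex
  rw [IsDedekindDomain.mem_primesOverFinset_iff hne] at hP
  obtain ⟨hPp, hPover⟩ := hP
  have hmem : (p : 𝓞 K) ∈ P := by
    have h1 : (p : ℤ) ∈ P.under ℤ := by
      rw [← hPover.over]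
      exact Ideal.mem_span_singleton_self _
    rw [Ideal.under, Ideal.mem_comap] at h1
    simpa using h1
  have hP0 : P ≠ ⊥ := by
    rintro rfl
    rw [Ideal.mem_bot] at hmem
    exact hp.ne_zero (by exact_mod_cast hmem)
  have hPprime : Prime P := Ideal.prime_of_isPrime hP0 hPp
  obtain ⟨k, R, hR, hPR⟩ := exists_mult hPprime (I := Ideal.span {(p : 𝓞 K)})
    (by simpa using hp.ne_zero)
  have hmap : Ideal.map (algebraMap ℤ (𝓞 K)) (Ideal.span {(p : ℤ)}) = Ideal.span {(p : 𝓞 K)} := by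
    rw [Ideal.map_span, Set.image_singleton]
    simp
  have hk : Ideal.ramificationIdx' (Ideal.span {(p : ℤ)}) P = k := by
    apply Ideal.ramificationIdx'_spec
    · rw [hmap, ← Ideal.dvd_iff_le]
      exact ⟨R, hR⟩
    · rw [hmap, ← Ideal.dvd_iff_le]
      rintro ⟨S, hS⟩
      rw [hR, pow_succ, mul_assoc] at hS
      have := mul_left_cancel₀ (pow_ne_zero k hPprime.ne_zero) hS
      exact hPR ⟨S, this⟩
  refine ⟨P, k, R, hPp, hP0, hmem, ?_, hR, hPR⟩
  rw [← hk]
  exact (Nat.odd_mul.mp hPodd).1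

attribute [local instance] FractionRing.liftAlgebra in
theorem disc_tower {K L : Type*} [Field K] [NumberField K] [Field L] [NumberField L] [Algebra K L]
    (h2 : finrank K L = 2) (hodd : Odd (finrank ℚ K)) {d : ℤ} (hd : Squarefree d) {θ : 𝓞 L}
    (hθ : θ ^ 2 = (d : 𝓞 L)) :
    d.natAbs * (discr K).natAbs ^ 2 ≤ (discr L).natAbs := by
  have hL := natAbs_discr_eq_absNorm_differentIdeal_mul_natAbs_discr_pow K (𝓞 K) L (𝓞 L)
  rw [h2] at hL
  rw [hL]
  apply Nat.mul_le_mul_right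
  have hne : Ideal.absNorm (differentIdeal (𝓞 K) (𝓞 L)) ≠ 0 := by
    intro h0
    rw [h0, zero_mul] at hL
    exact Int.natAbs_ne_zero.mpr (discr_ne_zero L) hL
  apply Nat.le_of_dvd (Nat.pos_of_ne_zero hne)
  apply natAbs_dvd_of_primes hd
  rintro p hp ⟨d', rfl⟩
  have hp0 : (p : ℤ) ≠ 0 := by exact_mod_cast hp.ne_zero
  have hpd' : ¬ (p : ℤ) ∣ d' := by
    rintro ⟨e, rfl⟩
    have h2 := hd (p : ℤ) ⟨e, by ring⟩
    rw [Int.isUnit_iff] at h2
    have := hp.two_le
    omega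
  obtain ⟨q, e, R, hq, hq0, hpq, he, hR, hqR⟩ := exists_odd_prime_above hodd hp
  have hqmax : q.IsMaximal := hq.isMaximal hq0
  have hqprime : Prime q := Ideal.prime_of_isPrime hq0 hq
  obtain ⟨P, hPmax, hPover⟩ := Ideal.exists_maximal_ideal_liesOver_of_isIntegral (S := 𝓞 L) q
  have hover : P.comap (algebraMap (𝓞 K) (𝓞 L)) = q := hPover.over.symm
  have hmemP : (p : 𝓞 L) ∈ P := by
    have h1 : (p : 𝓞 K) ∈ P.comap (algebraMap (𝓞 K) (𝓞 L)) := by rw [hover]; exact hpq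
    rw [Ideal.mem_comap, map_natCast] at h1
    exact h1
  have hP0 : P ≠ ⊥ := by
    rintro rfl
    rw [Ideal.mem_bot] at hmemP
    exact hp.ne_zero (by exact_mod_cast hmemP)
  have hd'q : (d' : 𝓞 K) ∉ q := by
    intro h
    apply hpd'
    have h1 : d' ∈ q.under ℤ := by
      rw [Ideal.under, Ideal.mem_comap]
      simpa using h
    rw [← (liesOver_of_mem hq hp hpq).over, Ideal.mem_span_singleton] at h1
    exact h1
  have hdK : (((p : ℤ) * d' : ℤ) : 𝓞 K) ≠ 0 := by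
    exact_mod_cast hd.ne_zero
  have h1 := sq_dvd_map_of_sq (A := 𝓞 K) (B := 𝓞 L) (p := q) hq0
    hPmax.isPrime hP0 hover (d := (((p : ℤ) * d' : ℤ) : 𝓞 K)) (e := e) hdK he
    (C := R * Ideal.span {(d' : 𝓞 K)})
    (by
      rw [← mul_assoc, ← hR, Ideal.span_singleton_mul_span_singleton]
      push_cast
      rfl)
    (by
      intro h
      rcases hqprime.dvd_or_dvd h with h | h
      · exact hqR h
      · rw [Ideal.dvd_iff_le, Ideal.span_singleton_le_iff_mem] at h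
        exact hd'q h) (θ := θ) (by rw [hθ, map_intCast])
  have h3 := pow_sub_one_dvd_differentIdeal (𝓞 K) P 2 (p := q) hq0 h1
  rw [Nat.add_sub_cancel_left 1 1, pow_one] at h3
  have h4 := Ideal.absNorm_dvd_absNorm_of_le (Ideal.le_of_dvd h3)
  exact (dvd_absNorm_of_mem hp hPmax.isPrime hP0 hmemP).trans h4

end Pool.Agent.Lib.MP_695920_nt
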