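import Mathlib
import Pool.Agent.Lib.MP_695920_nt.Tower

set_option autoImplicit false

open Finset NumberField Module IsDedekindDomain
open scoped nonZeroDivisors Pointwise

namespace Pool.Agent.Lib.MP_695920_nt

/-- generators of a dihedral group of order `2m` with `m` odd -/
structure Dih {G : Type*} [Group G] (m : ℕ) (σ τ : G) : Prop where
  odd : Odd m
  sm : σ ^ m = 1
  t2 : τ * τ = 1
  rel : τ * σ = σ⁻¹ * τ
  gen : ∀ g : G, ∃ i : ℕ, g = σ ^ i ∨ g = σ ^ i * τ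

variable {G : Type*} [Group G] {m : ℕ} {σ τ : G}

lemma Dih.rel_pow (h : Dih m σ τ) (i : ℕ) : τ * σ ^ i = (σ ^ i)⁻¹ * τ := by
  induction i with
  | zero => simp
  | succ i ih =>
    rw [pow_succ, ← mul_assoc, ih, mul_assoc, h.rel, ← mul_assoc, ← mul_inv_rev, ← pow_succ',
      ← pow_succ]

lemma Dih.inv_tau (h : Dih m σ τ) : τ⁻¹ = τ := inv_eq_of_mul_eq_one_left h.t2

/-- every reflection is conjugate to `τ` by a rotation -/
lemma Dih.conj (h : Dih m σ τ) (j : ℕ) : ∃ k : ℕ, σ ^ j * τ = σ ^ k * τ * (σ ^ k)⁻¹ := by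
  obtain ⟨t, ht⟩ := h.odd
  refine ⟨j * (t + 1), ?_⟩
  have h1 : τ * (σ ^ (j * (t + 1)))⁻¹ = σ ^ (j * (t + 1)) * τ := by
    have h2 := h.rel_pow (j * (t + 1))
    -- τ s = s⁻¹ τ  → τ s⁻¹ = s τ
    have h3 : τ * (σ ^ (j * (t + 1)))⁻¹ = (τ * σ ^ (j * (t + 1)) * τ⁻¹)⁻¹ * τ := by group
    rw [h3, h2]
    group
  rw [mul_assoc, h1, ← mul_assoc, ← pow_add]
  congr 1
  have h2 : j * (t + 1) + j * (t + 1) = j + m * j := by rw [ht]; ring
  rw [h2, pow_add, pow_mul, h.sm, one_pow, mul_one]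

variable {L : Type*} [Field L] [NumberField L] [Finite G] [MulSemiringAction G L]
  [hG : IsGaloisGroup G ℚ L]

/-- the fixed field of a subgroup -/
abbrev fixF (L : Type*) [Field L] [NumberField L] {G : Type*} [Group G]
    [MulSemiringAction G L] [IsGaloisGroup G ℚ L] (H : Subgroup G) : IntermediateField ℚ L :=
  FixedPoints.intermediateField H

omit [Finite G] in
lemma gal_fix (H : Subgroup G) [Finite H] : IsGaloisGroup H (𝓞 (fixF L H)) (𝓞 L) :=
  IsGaloisGroup.of_isFractionRing H (𝓞 (fixF L H)) (𝓞 L) (fixF L H) L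

omit [Finite G] hG in
lemma mem_of_under {p : ℕ} {P : Ideal (𝓞 L)} (hmem : (p : 𝓞 L) ∈ P) (K : IntermediateField ℚ L) :
    (p : 𝓞 K) ∈ P.under (𝓞 K) := by
  rw [Ideal.under, Ideal.mem_comap, map_natCast]
  exact hmem

/-- if `p` has only one prime above it in the quadratic field then it has a prime of degree one
in the field of degree `m` -/
theorem exists_degree_one (h : Dih m σ τ) {p : ℕ} (hp : p.Prime)
    (huniq : ∀ P Q : Ideal (𝓞 (fixF L (Subgroup.zpowers σ))), P.IsPrime → Q.IsPrime →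
      (p : 𝓞 (fixF L (Subgroup.zpowers σ))) ∈ P → (p : 𝓞 (fixF L (Subgroup.zpowers σ))) ∈ Q → P = Q) :
    ∃ P : Ideal (𝓞 (fixF L (Subgroup.zpowers τ))), Ideal.absNorm P = p := by
  classical
  obtain ⟨P, hP, hP0, hmem⟩ := exists_prime_above (K := L) hp
  have hGF := gal_fix (L := L) (Subgroup.zpowers σ)
  have hGK := gal_fix (L := L) (Subgroup.zpowers τ)
  -- the prime above is moved by the reflection inside the orbit of the rotations
  have hmem' : ∀ g : G, (p : 𝓞 L) ∈ g • P := by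
    intro g
    rw [Ideal.mem_pointwise_smul_iff_inv_smul_mem]
    have h1 : g⁻¹ • (p : 𝓞 L) = (p : 𝓞 L) := map_natCast (MulSemiringAction.toRingHom G (𝓞 L) g⁻¹) p
    rw [h1]
    exact hmem
  have hP' : ∀ g : G, (g • P).IsPrime := fun g => hP.smul g
  have hτP := hP' τ
  have hunder : P.under (𝓞 (fixF L (Subgroup.zpowers σ))) =
      (τ • P).under (𝓞 (fixF L (Subgroup.zpowers σ))) := by
    apply huniq
    · exact Ideal.IsPrime.under _ P
    · exact Ideal.IsPrime.under _ (τ • P)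
    · exact mem_of_under hmem _
    · exact mem_of_under (hmem' τ) _
  obtain ⟨c, hc⟩ := Algebra.IsInvariant.exists_smul_of_under_eq
    (𝓞 (fixF L (Subgroup.zpowers σ))) (𝓞 L) (Subgroup.zpowers σ) P (τ • P) hunder
  obtain ⟨j, hj⟩ : ∃ j : ℕ, (c : G)⁻¹ = σ ^ j := by
    have h1 : (c : G)⁻¹ ∈ Subgroup.zpowers σ := Subgroup.inv_mem _ c.2
    have hfin : IsOfFinOrder σ := isOfFinOrder_of_finite σ
    obtain ⟨j, hj⟩ := (hfin.mem_zpowers_iff_mem_range_orderOf (x := σ)).mp h1 |> Finset.mem_image.mp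
    exact ⟨j, hj.2.symm⟩
  have hfix : (σ ^ j * τ) • P = P := by
    rw [mul_smul, hc, ← hj]
    change (c : G)⁻¹ • ((c : G) • P) = P
    rw [inv_smul_smul]
  obtain ⟨k, hk⟩ := h.conj j
  set Q : Ideal (𝓞 L) := (σ ^ k)⁻¹ • P with hQ
  have hQp : Q.IsPrime := hP' _
  have hQmem : (p : 𝓞 L) ∈ Q := hmem' _
  have hQ0 : Q ≠ ⊥ := by
    intro h0
    rw [h0, Ideal.mem_bot] at hQmem
    exact hp.ne_zero (by exact_mod_cast hQmem)
  have hτQ : τ • Q = Q := by
    rw [hQ, ← mul_smul]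
    have h1 : τ * (σ ^ k)⁻¹ = (σ ^ k)⁻¹ * (σ ^ j * τ) := by rw [hk]; group
    rw [h1, mul_smul, hfix]
  have hQmax : Q.IsMaximal := hQp.isMaximal hQ0
  have hover := liesOver_of_mem hQp hp hQmem
  have hmax := span_int_isMaximal hp
  -- the residue field
  let _ : Field (𝓞 L ⧸ Q) := Ideal.Quotient.field Q
  let _ : Field (ℤ ⧸ Ideal.span {(p : ℤ)}) := Ideal.Quotient.field _
  have hfinite : Finite (𝓞 L ⧸ Q) := Ideal.finiteQuotientOfFreeOfNeBot Q hQ0
  have hsurj := Ideal.Quotient.stabilizerHom_surjective G (Ideal.span {(p : ℤ)}) Q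
  have hτmem : τ ∈ MulAction.stabilizer G Q := hτQ
  -- rotations in the stabiliser act trivially
  have hcomm : ∀ a b : (𝓞 L ⧸ Q) ≃ₐ[ℤ ⧸ Ideal.span {(p : ℤ)}] (𝓞 L ⧸ Q), a * b = b * a := by
    intro a b
    have hc : IsCyclic ((𝓞 L ⧸ Q) ≃ₐ[ℤ ⧸ Ideal.span {(p : ℤ)}] (𝓞 L ⧸ Q)) := inferInstance
    have hmc : IsMulCommutative ((𝓞 L ⧸ Q) ≃ₐ[ℤ ⧸ Ideal.span {(p : ℤ)}] (𝓞 L ⧸ Q)) :=
      IsCyclic.isMulCommutative
    exact hmc.is_comm.comm a b
  have htriv : ∀ (i : ℕ) (hi : σ ^ i ∈ MulAction.stabilizer G Q),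
      Ideal.Quotient.stabilizerHom Q (Ideal.span {(p : ℤ)}) G ⟨σ ^ i, hi⟩ = 1 := by
    intro i hi
    set f := Ideal.Quotient.stabilizerHom Q (Ideal.span {(p : ℤ)}) G with hf
    set s := f ⟨σ ^ i, hi⟩ with hs
    set t := f ⟨τ, hτmem⟩ with ht
    have h1 : t * s = s⁻¹ * t := by
      rw [hs, ht, ← map_mul, ← map_inv, ← map_mul]
      congr 1
      apply Subtype.ext
      exact h.rel_pow i
    rw [hcomm t s] at h1
    have h2 : s * s = 1 := by
      have h3 : s = s⁻¹ := mul_right_cancel h1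
      nth_rewrite 2 [h3]
      exact mul_inv_cancel s
    have h3 : s ^ m = 1 := by
      rw [hs, ← map_pow]
      have : (⟨σ ^ i, hi⟩ : MulAction.stabilizer G Q) ^ m = 1 := by
        apply Subtype.ext
        change (σ ^ i) ^ m = 1
        rw [← pow_mul, mul_comm, pow_mul, h.sm, one_pow]
      rw [this, map_one]
    obtain ⟨t', ht'⟩ := h.odd
    rw [ht', pow_succ, pow_mul, sq, h2, one_pow, one_mul] at h3
    exact h3
  refine ⟨Q.under (𝓞 (fixF L (Subgroup.zpowers τ))), ?_⟩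
  apply absNorm_eq_of_forall hp (Ideal.IsPrime.under _ Q) (mem_of_under hQmem _)
  intro x
  set y : 𝓞 L := algebraMap _ (𝓞 L) x with hy
  have hτy : τ • y = y := by
    have := smul_algebraMap (⟨τ, Subgroup.mem_zpowers τ⟩ : Subgroup.zpowers τ) x (A := 𝓞 L)
    exact this
  have hfixed : ∀ f : (𝓞 L ⧸ Q) ≃ₐ[ℤ ⧸ Ideal.span {(p : ℤ)}] (𝓞 L ⧸ Q),
      f (Ideal.Quotient.mk Q y) = Ideal.Quotient.mk Q y := by
    intro f
    obtain ⟨⟨g, hg⟩, rfl⟩ := hsurj f
    have key : ∀ (i : ℕ) (hi : σ ^ i ∈ MulAction.stabilizer G Q),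
        Ideal.Quotient.mk Q (σ ^ i • y) = Ideal.Quotient.mk Q y := by
      intro i hi
      have h1 := htriv i hi
      have h2 := congrArg (fun f => f (Ideal.Quotient.mk Q y)) h1
      simpa using h2
    rw [Ideal.Quotient.stabilizerHom_apply]
    obtain ⟨i, rfl | rfl⟩ := h.gen g
    · exact key i hg
    · have hi : σ ^ i ∈ MulAction.stabilizer G Q := by
        have h1 := Subgroup.mul_mem _ hg (Subgroup.inv_mem _ hτmem)
        simpa using h1
      have h1 : (⟨σ ^ i * τ, hg⟩ : MulAction.stabilizer G Q) • y = σ ^ i • y := by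
        change (σ ^ i * τ) • y = _
        rw [mul_smul, hτy]
      rw [h1]
      exact key i hi
  have hgal : IsGalois (ℤ ⧸ Ideal.span {(p : ℤ)}) (𝓞 L ⧸ Q) := inferInstance
  obtain ⟨a, ha⟩ := (IsGalois.mem_range_algebraMap_iff_fixed (F := ℤ ⧸ Ideal.span {(p : ℤ)})
    (E := 𝓞 L ⧸ Q) (Ideal.Quotient.mk Q y)).mpr hfixed
  obtain ⟨a, rfl⟩ := Ideal.Quotient.mk_surjective a
  refine ⟨a, ?_⟩
  rw [Ideal.under, Ideal.mem_comap, map_sub, map_intCast, ← hy, ← Ideal.Quotient.eq_zero_iff_mem,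
    map_sub, ← ha, sub_eq_zero]
  simp

end Pool.Agent.Lib.MP_695920_nt
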