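import Mathlib
import Pool.Agent.Lib.MP_695920_nt.Dihedral

set_option autoImplicit false

open Finset NumberField Module IsDedekindDomain
open scoped nonZeroDivisors Pointwise

namespace Pool.Agent.Lib.MP_695920_nt

section clmap

variable {A B : Type*} [CommRing A] [IsDedekindDomain A] [CommRing B] [IsDedekindDomain B]

/-- a multiplicative map of ideals preserving nonzero ideals and principal ideals -/
structure IdMap (φ : Ideal A →* Ideal B) : Prop where
  ne : ∀ I, I ≠ ⊥ → φ I ≠ ⊥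
  pr : ∀ x : A, ∃ y : B, φ (Ideal.span {x}) = Ideal.span {y}

/-- restriction to nonzero ideals -/
noncomputable def IdMap.nz {φ : Ideal A →* Ideal B} (h : IdMap φ) : (Ideal A)⁰ →* (Ideal B)⁰ :=
  (φ.comp (Submonoid.subtype _)).codRestrict (Ideal B)⁰ (fun I =>
    mem_nonZeroDivisors_of_ne_zero (h.ne I (nonZeroDivisors.coe_ne_zero I)))

lemma IdMap.nz_apply {φ : Ideal A →* Ideal B} (h : IdMap φ) (I : (Ideal A)⁰) :
    (h.nz I : Ideal B) = φ I := rfl

/-- a representative ideal -/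
noncomputable def rep (c : ClassGroup A) : (Ideal A)⁰ := (ClassGroup.mk0_surjective c).choose

lemma mk0_rep (c : ClassGroup A) : ClassGroup.mk0 (rep c) = c :=
  (ClassGroup.mk0_surjective c).choose_spec

lemma IdMap.key {φ : Ideal A →* Ideal B} (h : IdMap φ) {I J : (Ideal A)⁰}
    (hIJ : ClassGroup.mk0 I = ClassGroup.mk0 J) :
    ClassGroup.mk0 (h.nz I) = ClassGroup.mk0 (h.nz J) := by
  rw [ClassGroup.mk0_eq_mk0_iff] at hIJ ⊢
  obtain ⟨x, y, hx, hy, hxy⟩ := hIJ
  obtain ⟨x', hx'⟩ := h.pr x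
  obtain ⟨y', hy'⟩ := h.pr y
  refine ⟨x', y', ?_, ?_, ?_⟩
  · rintro rfl
    have := h.ne (Ideal.span {x}) (by simpa using hx)
    rw [hx'] at this
    simp at this
  · rintro rfl
    have := h.ne (Ideal.span {y}) (by simpa using hy)
    rw [hy'] at this
    simp at this
  · rw [h.nz_apply, h.nz_apply, ← hx', ← hy', ← map_mul, hxy, map_mul]

/-- the induced map of class groups -/
noncomputable def IdMap.cl {φ : Ideal A →* Ideal B} (h : IdMap φ) :
    ClassGroup A →* ClassGroup B where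
  toFun c := ClassGroup.mk0 (h.nz (rep c))
  map_one' := by
    have h1 : ClassGroup.mk0 (rep (1 : ClassGroup A)) = ClassGroup.mk0 1 := by
      rw [mk0_rep, map_one]
    rw [h.key h1, map_one, map_one]
  map_mul' a b := by
    have h1 : ClassGroup.mk0 (rep (a * b)) = ClassGroup.mk0 (rep a * rep b) := by
      rw [mk0_rep, map_mul, mk0_rep, mk0_rep]
    rw [h.key h1, map_mul, map_mul]

lemma IdMap.cl_mk0 {φ : Ideal A →* Ideal B} (h : IdMap φ) (I : (Ideal A)⁰) :
    h.cl (ClassGroup.mk0 I) = ClassGroup.mk0 (h.nz I) := h.key (mk0_rep _)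

end clmap

section norm

variable {K L : Type*} [Field K] [NumberField K] [Field L] [NumberField L] [Algebra K L]

lemma idMap_relNorm : IdMap ((Ideal.relNorm (𝓞 K) : Ideal (𝓞 L) →*₀ Ideal (𝓞 K)) : Ideal (𝓞 L) →* Ideal (𝓞 K)) := by
  refine ⟨?_, ?_⟩
  · intro I hI h
    exact hI (Ideal.relNorm_eq_bot_iff.mp h)
  · intro x
    exact ⟨_, Ideal.relNorm_singleton (𝓞 K) x⟩

lemma absNorm_smul' {G : Type*} [Group G] [MulSemiringAction G L] [SMulCommClass G ℤ (𝓞 L)] (g : G)
    (I : Ideal (𝓞 L)) : Ideal.absNorm (g • I) = Ideal.absNorm I := by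
  rw [← Ideal.absNorm_relNorm (R := ℤ) (I := g • I), Ideal.relNorm_smul (R := ℤ) g I,
    Ideal.absNorm_relNorm]

lemma map_relNorm_eq {H : Type*} [Group H] [Fintype H] [MulSemiringAction H L]
    [IsGaloisGroup H K L] [IsGaloisGroup H (𝓞 K) (𝓞 L)] [SMulCommClass H ℤ (𝓞 L)] (I : Ideal (𝓞 L)) :
    (Ideal.relNorm (𝓞 K) I).map (algebraMap (𝓞 K) (𝓞 L)) = ∏ h : H, h • I := by
  classical
  have hgal : IsGalois K L := IsGaloisGroup.isGalois H K L
  by_cases hI : I = ⊥
  · subst hI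
    rw [Ideal.relNorm_bot, Ideal.map_bot]
    symm
    apply Finset.prod_eq_zero (Finset.mem_univ (1 : H))
    rw [one_smul]; rfl
  have hle : (Ideal.relNorm (𝓞 K) I).map (algebraMap (𝓞 K) (𝓞 L)) ≤ ∏ h : H, h • I := by
    rw [Ideal.map_relNorm, Ideal.span_le]
    rintro _ ⟨x, hx, rfl⟩
    have h1 : algebraMap (𝓞 K) (𝓞 L) (Algebra.intNorm (𝓞 K) (𝓞 L) x) = ∏ h : H, h • x := by
      apply FaithfulSMul.algebraMap_injective (𝓞 L) L
      rw [← IsScalarTower.algebraMap_apply, IsScalarTower.algebraMap_apply (𝓞 K) K L,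
        Algebra.algebraMap_intNorm (A := 𝓞 K) (K := K) (L := L) (B := 𝓞 L), Algebra.norm_eq_prod_automorphisms,
        map_prod]
      rw [← (IsGaloisGroup.mulEquivAlgEquiv H K L).toEquiv.prod_comp]
      apply Finset.prod_congr rfl
      intro h _
      rfl
    rw [Function.comp_apply, h1]
    exact Ideal.prod_mem_prod (fun h _ => Ideal.smul_mem_pointwise_smul h x I hx)
  have hn1 : Ideal.absNorm ((Ideal.relNorm (𝓞 K) I).map (algebraMap (𝓞 K) (𝓞 L))) =
      Ideal.absNorm I ^ Nat.card H := by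
    rw [Ideal.absNorm_algebraMap, Ideal.absNorm_relNorm, IsGaloisGroup.card_eq_finrank' H (𝓞 K) (𝓞 L)]
  have hn2 : Ideal.absNorm (∏ h : H, h • I) = Ideal.absNorm I ^ Nat.card H := by
    rw [map_prod, Finset.prod_congr rfl (fun h _ => absNorm_smul' h I), Finset.prod_const,
      Finset.card_univ, Nat.card_eq_fintype_card]
  obtain ⟨C, hC⟩ := Ideal.dvd_iff_le.mpr hle
  have hN0 : Ideal.absNorm I ^ Nat.card H ≠ 0 := pow_ne_zero _ (absNorm_pos_of_ne_bot hI).ne'
  have h2 : Ideal.absNorm C = 1 := by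
    have h3 := congrArg Ideal.absNorm hC
    rw [map_mul, hn1, hn2] at h3
    exact (Nat.eq_of_mul_eq_mul_left (Nat.pos_of_ne_zero hN0) (by rw [mul_one]; exact h3)).symm
  rw [Ideal.absNorm_eq_one_iff] at h2
  rw [hC, h2, Ideal.mul_top]

end norm

section action

variable {G : Type*} [Group G] {m : ℕ} {σ τ : G}
variable {L : Type*} [Field L] [NumberField L] [MulSemiringAction G L]

lemma idMap_smul (L : Type*) [Field L] [NumberField L] [MulSemiringAction G L] (g : G) :
    IdMap (MulDistribMulAction.toMonoidHom (Ideal (𝓞 L)) g) := by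
  refine ⟨?_, ?_⟩
  · intro I hI h
    rw [MulDistribMulAction.toMonoidHom_apply] at h
    apply hI
    have h1 : g⁻¹ • (g • I) = g⁻¹ • (⊥ : Ideal (𝓞 L)) := by rw [h]
    rw [inv_smul_smul] at h1
    rw [h1, Ideal.pointwise_smul_def, Ideal.map_bot]
  · intro x
    refine ⟨g • x, ?_⟩
    rw [MulDistribMulAction.toMonoidHom_apply, Ideal.pointwise_smul_def, Ideal.map_span,
      Set.image_singleton]
    rfl

/-- Galois action on the class group -/
noncomputable def act (L : Type*) [Field L] [NumberField L] [MulSemiringAction G L] (g : G) :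
    ClassGroup (𝓞 L) →* ClassGroup (𝓞 L) := (idMap_smul L g).cl

lemma act_mk0 (g : G) (I : (Ideal (𝓞 L))⁰) :
    act L g (ClassGroup.mk0 I) = ClassGroup.mk0 ((idMap_smul L g).nz I) := IdMap.cl_mk0 _ I

lemma act_mul (g k : G) (x : ClassGroup (𝓞 L)) : act L (g * k) x = act L g (act L k x) := by
  obtain ⟨I, rfl⟩ := ClassGroup.mk0_surjective x
  rw [act_mk0, act_mk0, act_mk0]
  congr 1
  apply Subtype.ext
  rw [IdMap.nz_apply, IdMap.nz_apply, IdMap.nz_apply]
  simp only [MulDistribMulAction.toMonoidHom_apply]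
  rw [mul_smul]

lemma act_one (x : ClassGroup (𝓞 L)) : act L (1 : G) x = x := by
  obtain ⟨I, rfl⟩ := ClassGroup.mk0_surjective x
  rw [act_mk0]
  congr 1
  apply Subtype.ext
  rw [IdMap.nz_apply]
  simp only [MulDistribMulAction.toMonoidHom_apply, one_smul]

variable [hG : IsGaloisGroup G ℚ L]

/-- norm map on class groups to the fixed field of `H` -/
noncomputable def nrm (L : Type*) [Field L] [NumberField L] [MulSemiringAction G L]
    [IsGaloisGroup G ℚ L] (H : Subgroup G) : ClassGroup (𝓞 L) →* ClassGroup (𝓞 (fixF L H)) :=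
  (idMap_relNorm (K := fixF L H) (L := L)).cl

lemma ext_nrm (H : Subgroup G) [Fintype H] (x : ClassGroup (𝓞 L)) :
    ClassGroup.extendedHom (𝓞 (fixF L H)) (𝓞 L) (nrm L H x) = ∏ h : H, act L (h : G) x := by
  have hGH := gal_fix (L := L) H
  obtain ⟨I, rfl⟩ := ClassGroup.mk0_surjective x
  have h1 : ∏ h : H, act L (h : G) (ClassGroup.mk0 I) =
      ∏ h : H, ClassGroup.mk0 ((idMap_smul L (h : G)).nz I) :=
    Finset.prod_congr rfl (fun h _ => act_mk0 (h : G) I)
  rw [nrm, IdMap.cl_mk0, ClassGroup.extendedHom_mk0, h1, ← map_prod]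
  congr 1
  apply Subtype.ext
  change (Ideal.relNorm (𝓞 (fixF L H)) (I : Ideal (𝓞 L))).map _ = _
  rw [map_relNorm_eq (H := H), Submonoid.coe_finsetProd]
  rfl

lemma zpowers_two {t : G} (ht : t * t = 1) (g : G) (hg : g ∈ Subgroup.zpowers t) : g = 1 ∨ g = t := by
  obtain ⟨k, rfl⟩ := Subgroup.mem_zpowers_iff.mp hg
  have h2 : t ^ (2 : ℤ) = 1 := by rw [zpow_ofNat, sq, ht]
  rcases Int.even_or_odd' k with ⟨j, rfl | rfl⟩
  · left; rw [zpow_mul, h2, one_zpow]
  · right; rw [zpow_add, zpow_mul, h2, one_zpow, zpow_one, one_mul]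

lemma mul_act_eq_one [Finite G] {t : G} (ht : t * t = 1) (ht1 : t ≠ 1) {x : ClassGroup (𝓞 L)}
    (hx : nrm L (Subgroup.zpowers t) x = 1) : x * act L t x = 1 := by
  classical
  cases nonempty_fintype (Subgroup.zpowers t)
  have h1 := ext_nrm (L := L) (Subgroup.zpowers t) x
  rw [hx, map_one] at h1
  have h2 : (Finset.univ : Finset (Subgroup.zpowers t)) = {1, ⟨t, Subgroup.mem_zpowers t⟩} := by
    ext ⟨g, hg⟩
    simp only [mem_univ, mem_insert, mem_singleton, true_iff]
    rcases zpowers_two ht g hg with h | h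
    · left; exact Subtype.ext h
    · right; exact Subtype.ext h
  rw [h2, Finset.prod_pair, OneMemClass.coe_one, act_one] at h1
  · exact h1.symm
  · intro h
    exact ht1 (congrArg Subtype.val h).symm

lemma pow_eq_one_of_fixed [Finite G] {s : G} (hs : s ^ m = 1) {x : ClassGroup (𝓞 L)}
    (hfix : act L s x = x) (hx : nrm L (Subgroup.zpowers s) x = 1) : x ^ m = 1 := by
  classical
  cases nonempty_fintype (Subgroup.zpowers s)
  have h1 := ext_nrm (L := L) (Subgroup.zpowers s) x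
  rw [hx, map_one] at h1
  have hpow : ∀ i : ℕ, act L (s ^ i) x = x := by
    intro i
    induction i with
    | zero => rw [pow_zero, act_one]
    | succ i ih => rw [pow_succ, act_mul, hfix, ih]
  have h2 : ∀ h : Subgroup.zpowers s, act L (h : G) x = x := by
    rintro ⟨g, hg⟩
    have hfin : IsOfFinOrder s := isOfFinOrder_of_finite s
    obtain ⟨j, hj⟩ := (hfin.mem_zpowers_iff_mem_range_orderOf (x := s)).mp hg |> Finset.mem_image.mp
    change act L g x = x
    rw [← hj.2]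
    exact hpow j
  rw [Finset.prod_congr rfl (fun h _ => h2 h), Finset.prod_const, Finset.card_univ,
    ← Nat.card_eq_fintype_card, Nat.card_zpowers] at h1
  obtain ⟨k, hk⟩ := orderOf_dvd_of_pow_eq_one hs
  rw [hk, pow_mul, ← h1, one_pow]

/-- the kernel of the three norm maps on `l`-torsion is trivial -/
lemma ker_trivial [Finite G] (h : Dih m σ τ) (hτ1 : τ ≠ 1) {l : ℕ} (hl : l.Prime) (hlm : ¬ l ∣ m)
    {k : ℕ} (hk : σ * τ = σ ^ k * τ * (σ ^ k)⁻¹) {x : ClassGroup (𝓞 L)} (hx : x ^ l = 1)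
    (h1 : nrm L (Subgroup.zpowers σ) x = 1) (h2 : nrm L (Subgroup.zpowers τ) x = 1)
    (h3 : nrm L (Subgroup.zpowers τ) (act L (σ ^ k)⁻¹ x) = 1) : x = 1 := by
  have e2 := mul_act_eq_one h.t2 hτ1 h2
  have e3 := mul_act_eq_one h.t2 hτ1 h3
  have e4 : x * act L (σ * τ) x = 1 := by
    have := congrArg (act L (σ ^ k)) e3
    rw [map_mul, map_one, ← act_mul, mul_inv_cancel, act_one, ← act_mul, ← act_mul, ← hk] at this
    exact this
  have e5 : act L τ x = x⁻¹ := (inv_eq_of_mul_eq_one_right e2).symm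
  have e6 : act L σ x = x := by
    rw [act_mul, e5, map_inv, mul_inv_eq_one] at e4
    exact e4.symm
  have e7 := pow_eq_one_of_fixed h.sm e6 h1
  have hcop : Nat.Coprime l m := (hl.coprime_iff_not_dvd).mpr hlm
  have e8 : orderOf x ∣ l := orderOf_dvd_of_pow_eq_one hx
  have e9 : orderOf x ∣ m := orderOf_dvd_of_pow_eq_one e7
  have e10 : orderOf x ∣ 1 := by
    rw [← hcop.gcd_eq_one]
    exact Nat.dvd_gcd e8 e9
  exact orderOf_eq_one_iff.mp (Nat.dvd_one.mp e10)

theorem card_tors_le [Finite G] (h : Dih m σ τ) (hτ1 : τ ≠ 1) {l : ℕ} (hl : l.Prime) (hlm : ¬ l ∣ m) :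
    Nat.card {x : ClassGroup (𝓞 L) // x ^ l = 1} ≤
      Nat.card {x : ClassGroup (𝓞 (fixF L (Subgroup.zpowers σ))) // x ^ l = 1} *
      Nat.card {x : ClassGroup (𝓞 (fixF L (Subgroup.zpowers τ))) // x ^ l = 1} ^ 2 := by
  obtain ⟨k, hk⟩ := h.conj 1
  rw [pow_one] at hk
  let N1 := nrm L (Subgroup.zpowers σ)
  let N2 := nrm L (Subgroup.zpowers τ)
  let Φ : {x : ClassGroup (𝓞 L) // x ^ l = 1} →
      {x : ClassGroup (𝓞 (fixF L (Subgroup.zpowers σ))) // x ^ l = 1} ×
      ({x : ClassGroup (𝓞 (fixF L (Subgroup.zpowers τ))) // x ^ l = 1} ×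
      {x : ClassGroup (𝓞 (fixF L (Subgroup.zpowers τ))) // x ^ l = 1}) := fun x =>
    (⟨N1 x.1, by rw [← map_pow, x.2, map_one]⟩, ⟨N2 x.1, by rw [← map_pow, x.2, map_one]⟩,
      ⟨N2 (act L (σ ^ k)⁻¹ x.1), by rw [← map_pow, ← map_pow, x.2, map_one, map_one]⟩)
  have hinj : Function.Injective Φ := by
    rintro ⟨x, hx⟩ ⟨y, hy⟩ hxy
    simp only [Φ, Prod.mk.injEq, Subtype.mk.injEq] at hxy
    obtain ⟨a1, a2, a3⟩ := hxy
    apply Subtype.ext
    change x = y
    rw [← div_eq_one]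
    apply ker_trivial h hτ1 hl hlm hk
    · rw [div_pow, hx, hy, div_one]
    · rw [map_div, div_eq_one]; exact a1
    · rw [map_div, div_eq_one]; exact a2
    · rw [map_div, map_div, div_eq_one]; exact a3
  have := Nat.card_le_card_of_injective Φ hinj
  rw [Nat.card_prod, Nat.card_prod] at this
  rw [sq]
  exact this

end action

end Pool.Agent.Lib.MP_695920_nt
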