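import Mathlib
import Pool.Agent.Lib.MP_695920_nt.Dihedral

set_option autoImplicit false

open Finset NumberField Module IsDedekindDomain
open scoped nonZeroDivisors Pointwise IntermediateField

namespace Pool.Agent.Lib.MP_695920_nt

open InfinitePlace mixedEmbedding ENNReal NNReal MeasureTheory ZSpan in
lemma minkowskiBound_le (K : Type*) [Field K] [NumberField K] :
    minkowskiBound K 1 ≤ ((NNReal.sqrt ‖discr K‖₊ * 2 ^ finrank ℚ K : ℝ≥0) : ℝ≥0∞) := by
  rw [minkowskiBound, volume_fundamentalDomain_fractionalIdealLatticeBasis, 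
    Units.val_one, FractionalIdeal.absNorm_one, Rat.cast_one,
    ENNReal.ofReal_one, one_mul, mixedEmbedding.finrank, volume_fundamentalDomain_latticeBasis,
    coe_mul, ENNReal.coe_pow, coe_ofNat]
  apply mul_le_mul_left
  refine (mul_le_mul_left (pow_le_one₀ (by positivity) (by simp)) _).trans ?_
  rw [one_mul]

open InfinitePlace mixedEmbedding in
lemma exists_small_gen (K : Type*) [Field K] [NumberField K] (hodd : Odd (finrank ℚ K)) :
    ∃ a : 𝓞 K, ℚ⟮(a : K)⟯ = ⊤ ∧ ∀ φ : K →+* ℂ,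
      ‖φ (a : K)‖ ≤ Real.sqrt |(discr K : ℝ)| * 2 ^ finrank ℚ K + 1 := by
  classical
  have hpos := nrRealPlaces_pos_of_odd_finrank hodd
  obtain ⟨w₀⟩ : Nonempty {w : InfinitePlace K // IsReal w} := by
    rw [nrRealPlaces] at hpos
    exact Fintype.card_pos_iff.mp hpos
  set B : NNReal := NNReal.sqrt ‖discr K‖₊ * 2 ^ finrank ℚ K + 1 with hB
  have h1 : minkowskiBound K ↑1 < convexBodyLTFactor K * B := by
    calc minkowskiBound K 1 ≤ ((NNReal.sqrt ‖discr K‖₊ * 2 ^ finrank ℚ K : NNReal) : ENNReal) :=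
          minkowskiBound_le K
      _ < B := by
        rw [ENNReal.coe_lt_coe, hB]
        exact lt_add_one _
      _ = 1 * B := by rw [one_mul]
      _ ≤ convexBodyLTFactor K * B := by gcongr; exact mod_cast one_le_convexBodyLTFactor K
  obtain ⟨a, ha, hw⟩ := exists_primitive_element_lt_of_isReal K w₀.2 h1
  refine ⟨a, ha, fun φ => ?_⟩
  have h2 := (hw (InfinitePlace.mk φ)).le
  have h3 : InfinitePlace.mk φ (a : K) = ‖φ (a : K)‖ := rfl
  rw [h3] at h2
  refine h2.trans ?_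
  have h4 : max B 1 = B := max_eq_left (by rw [hB]; exact le_add_self)
  rw [h4, hB]
  push_cast
  rw [Int.norm_eq_abs]

variable {G : Type*} [Group G] {m : ℕ} {σ τ : G}

lemma int_sq_decomp {D : ℤ} (hD : D ≠ 0) : ∃ (d : ℤ) (s : ℕ), 0 < s ∧ Squarefree d ∧
    D = d * (s : ℤ) ^ 2 := by
  obtain ⟨a, b, ha, hb, hab, hsq⟩ := Nat.sq_mul_squarefree_of_pos (n := D.natAbs)
    (Int.natAbs_pos.mpr hD)
  refine ⟨D.sign * a, b, hb, ?_, ?_⟩
  · rw [← Int.squarefree_natAbs, Int.natAbs_mul, Int.natAbs_sign_of_ne_zero hD, one_mul,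
      Int.natAbs_natCast]
    exact hsq
  · conv_lhs => rw [← Int.sign_mul_natAbs D, ← hab]
    push_cast
    ring

variable {L : Type*} [Field L] [NumberField L] [Finite G] [MulSemiringAction G L]
  [hG : IsGaloisGroup G ℚ L]

/-- the square root of the squarefree discriminant kernel -/
theorem exists_theta (h : Dih m σ τ) (hm : 1 < finrank ℚ (fixF L (Subgroup.zpowers τ)))
    (hodd : Odd (finrank ℚ (fixF L (Subgroup.zpowers τ)))) :
    ∃ (d : ℤ) (θ : 𝓞 (fixF L (Subgroup.zpowers σ))), Squarefree d ∧ d ≠ 1 ∧ θ ^ 2 = (d : 𝓞 _) ∧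
      |(d : ℝ)| ≤ (2 * (Real.sqrt |(discr (fixF L (Subgroup.zpowers τ)) : ℝ)| *
        2 ^ finrank ℚ (fixF L (Subgroup.zpowers τ)) + 1)) ^ (2 * m) := by
  classical
  have hGF := gal_fix (L := L) (Subgroup.zpowers σ)
  have hGK := gal_fix (L := L) (Subgroup.zpowers τ)
  obtain ⟨a, hgen, ha⟩ := exists_small_gen (fixF L (Subgroup.zpowers τ)) hodd
  set X : ℝ := Real.sqrt |(discr (fixF L (Subgroup.zpowers τ)) : ℝ)| *
        2 ^ finrank ℚ (fixF L (Subgroup.zpowers τ)) + 1 with hX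
  set α : 𝓞 L := algebraMap _ (𝓞 L) a with hα
  have hτα : τ • α = α :=
    smul_algebraMap (⟨τ, Subgroup.mem_zpowers τ⟩ : Subgroup.zpowers τ) a (A := 𝓞 L)
  set β : 𝓞 L := α - σ • α with hβ
  have hβ0 : β ≠ 0 := by
    intro h0
    have hσα : σ • α = α := by rw [hβ, sub_eq_zero] at h0; exact h0.symm
    have hpow : ∀ i : ℕ, σ ^ i • α = α := by
      intro i
      induction i with
      | zero => simp
      | succ i ih => rw [pow_succ, mul_smul, hσα, ih]
    have hall : ∀ g : G, g • α = α := by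
      intro g
      obtain ⟨i, rfl | rfl⟩ := h.gen g
      · exact hpow i
      · rw [mul_smul, hτα, hpow]
    obtain ⟨b, hb⟩ := Algebra.IsInvariant.isInvariant (A := ℤ) (G := G) α hall
    have hab : a = (b : 𝓞 _) := by
      apply FaithfulSMul.algebraMap_injective (𝓞 (fixF L (Subgroup.zpowers τ))) (𝓞 L)
      rw [← hα, ← hb]
      simp
    have hbot : ℚ⟮(a : fixF L (Subgroup.zpowers τ))⟯ = ⊥ := by
      rw [IntermediateField.adjoin_simple_eq_bot_iff, hab, IntermediateField.mem_bot]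
      exact ⟨(b : ℚ), by simp⟩
    rw [hbot] at hgen
    have := IntermediateField.finrank_eq_one_iff.mpr (hgen.symm : (⊤ : IntermediateField ℚ _) = ⊥)
    rw [IntermediateField.finrank_top'] at this
    omega
  set θ' : 𝓞 L := ∏ i ∈ range m, σ ^ i • β with hθ'
  have hθ'0 : θ' ≠ 0 := by
    rw [hθ', Finset.prod_ne_zero_iff]
    intro i _
    rw [smul_ne_zero_iff_ne]
    exact hβ0
  have hσθ' : σ • θ' = θ' := by
    have h1 : σ • θ' = ∏ i ∈ range m, σ ^ (i + 1) • β := by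
      rw [hθ', Finset.smul_prod']
      apply Finset.prod_congr rfl
      intro i _
      rw [← mul_smul, ← pow_succ']
    have h2 : (∏ i ∈ range m, σ ^ (i + 1) • β) * (σ ^ 0 • β) = (∏ i ∈ range m, σ ^ i • β) * (σ ^ m • β) :=
      (Finset.prod_range_succ' (fun i => σ ^ i • β) m).symm.trans
        (Finset.prod_range_succ (fun i => σ ^ i • β) m)
    rw [h.sm, pow_zero, one_smul] at h2
    rw [h1]
    exact mul_right_cancel₀ hβ0 h2
  have hτβ : ∀ i ∈ range m, τ • (σ ^ i • β) = - (σ ^ (m - 1 - i) • β) := by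
    intro i hi
    rw [mem_range] at hi
    have e1 : τ • β = - (σ⁻¹ • β) := by
      rw [hβ, smul_sub, smul_sub, ← mul_smul, h.rel, mul_smul, hτα, inv_smul_smul]
      ring
    rw [← mul_smul, h.rel_pow, mul_smul, e1, smul_neg, ← mul_smul]
    congr 2
    have e2 : σ ^ (m - 1 - i) * (σ * σ ^ i) = 1 := by
      rw [← pow_succ', ← pow_add, show m - 1 - i + (i + 1) = m by omega, h.sm]
    rw [← mul_inv_rev]
    exact (eq_inv_of_mul_eq_one_left e2).symm
  have hτθ' : τ • θ' = - θ' := by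
    rw [hθ', Finset.smul_prod', Finset.prod_congr rfl hτβ, Finset.prod_neg, card_range, h.odd.neg_one_pow,
      neg_one_mul, Finset.prod_range_reflect (fun i => σ ^ i • β) m]
  have hsq : ∀ g : G, g • (θ' ^ 2) = θ' ^ 2 := by
    have hpow : ∀ i : ℕ, σ ^ i • θ' = θ' := by
      intro i
      induction i with
      | zero => simp
      | succ i ih => rw [pow_succ, mul_smul, hσθ', ih]
    intro g
    rw [smul_pow']
    obtain ⟨i, rfl | rfl⟩ := h.gen g
    · rw [hpow]
    · rw [mul_smul, hτθ', smul_neg, hpow, neg_sq]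
  obtain ⟨D, hD⟩ := Algebra.IsInvariant.isInvariant (A := ℤ) (G := G) (θ' ^ 2) hsq
  have hD' : (D : 𝓞 L) = θ' ^ 2 := by rw [← hD]; simp
  have hD0 : D ≠ 0 := by
    rintro rfl
    rw [Int.cast_zero] at hD'
    exact hθ'0 (pow_eq_zero_iff two_ne_zero |>.mp hD'.symm)
  obtain ⟨d, s, hs, hdsq, hDd⟩ := int_sq_decomp hD0
  have hs0 : (s : L) ≠ 0 := by exact_mod_cast hs.ne'
  have hθL : ((θ' : L) / s) ^ 2 = (d : L) := by
    have h1 : ((θ' : L)) ^ 2 = (d : L) * (s : L) ^ 2 := by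
      have h2 := congrArg (algebraMap (𝓞 L) L) hD'
      rw [hDd] at h2
      push_cast at h2
      simpa using h2.symm
    rw [div_pow, h1, mul_div_assoc, div_self (pow_ne_zero 2 hs0), mul_one]
  have hint : IsIntegral ℤ ((θ' : L) / s) := by
    apply IsIntegral.of_pow (n := 2) (by norm_num)
    rw [hθL]
    exact isIntegral_algebraMap
  obtain ⟨θ, hθdef⟩ : ∃ θ : 𝓞 L, algebraMap (𝓞 L) L θ = algebraMap (𝓞 L) L θ' / s := ⟨⟨_, hint⟩, rfl⟩
  have hθs : (s : 𝓞 L) * θ = θ' := by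
    apply FaithfulSMul.algebraMap_injective (𝓞 L) L
    rw [map_mul, map_natCast, hθdef]
    field_simp
  have hs0' : (s : 𝓞 L) ≠ 0 := by exact_mod_cast hs.ne'
  have hθd : θ ^ 2 = (d : 𝓞 L) := by
    apply FaithfulSMul.algebraMap_injective (𝓞 L) L
    rw [map_pow, map_intCast, hθdef]
    exact hθL
  have hsmul : ∀ (g : G), g • (s : 𝓞 L) = (s : 𝓞 L) := fun g =>
    map_natCast (MulSemiringAction.toRingHom G (𝓞 L) g) s
  have hσθ : σ • θ = θ := by
    apply mul_left_cancel₀ hs0'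
    rw [hθs, ← hsmul σ, ← smul_mul', hθs, hσθ']
  have hτθ : τ • θ = - θ := by
    apply mul_left_cancel₀ hs0'
    rw [mul_neg, hθs, ← hsmul τ, ← smul_mul', hθs, hτθ']
  have hθ0 : θ ≠ 0 := by
    intro h0
    rw [h0, mul_zero] at hθs
    exact hθ'0 hθs.symm
  have hfixσ : ∀ g : Subgroup.zpowers σ, g • θ = θ := by
    rintro ⟨g, hg⟩
    have hfin : IsOfFinOrder σ := isOfFinOrder_of_finite σ
    obtain ⟨j, hj⟩ := (hfin.mem_zpowers_iff_mem_range_orderOf (x := σ)).mp hg |> Finset.mem_image.mp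
    change g • θ = θ
    rw [← hj.2]
    have hpow : ∀ i : ℕ, σ ^ i • θ = θ := by
      intro i
      induction i with
      | zero => simp
      | succ i ih => rw [pow_succ, mul_smul, hσθ, ih]
    exact hpow j
  obtain ⟨θF, hθF⟩ := Algebra.IsInvariant.isInvariant
    (A := 𝓞 (fixF L (Subgroup.zpowers σ))) (G := Subgroup.zpowers σ) θ hfixσ
  refine ⟨d, θF, hdsq, ?_, ?_, ?_⟩
  · rintro rfl
    rw [Int.cast_one, sq_eq_one_iff] at hθd
    have h2 : τ • θ = θ := by
      rcases hθd with h3 | h3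
      · rw [h3, smul_one]
      · rw [h3, smul_neg, smul_one]
    rw [hτθ] at h2
    exact hθ0 (neg_eq_self.mp h2)
  · apply FaithfulSMul.algebraMap_injective (𝓞 (fixF L (Subgroup.zpowers σ))) (𝓞 L)
    rw [map_pow, hθF, hθd, map_intCast]
  · -- the size of `d`
    obtain ⟨φ⟩ : Nonempty (L →+* ℂ) := inferInstance
    set ψ : 𝓞 L →+* ℂ := φ.comp (algebraMap (𝓞 L) L) with hψ
    have hX0 : 0 ≤ X := by rw [hX]; positivity
    have hbd : ∀ i : ℕ, ‖ψ (σ ^ i • α)‖ ≤ X := by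
      intro i
      have h1 := ha (φ.comp ((MulSemiringAction.toRingHom G L (σ ^ i)).comp
        (algebraMap (fixF L (Subgroup.zpowers τ)) L)))
      refine le_trans (le_of_eq ?_) h1
      rfl
    have hterm : ∀ i : ℕ, ‖ψ (σ ^ i • β)‖ ≤ 2 * X := by
      intro i
      have h1 : σ ^ i • β = σ ^ i • α - σ ^ (i + 1) • α := by
        rw [hβ, smul_sub, ← mul_smul, ← pow_succ]
      rw [h1, map_sub]
      calc ‖ψ (σ ^ i • α) - ψ (σ ^ (i + 1) • α)‖
          ≤ ‖ψ (σ ^ i • α)‖ + ‖ψ (σ ^ (i + 1) • α)‖ := norm_sub_le _ _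
        _ ≤ 2 * X := by linarith [hbd i, hbd (i + 1)]
    have hnorm : ‖ψ θ'‖ ≤ (2 * X) ^ m := by
      rw [hθ', map_prod, norm_prod]
      calc ∏ i ∈ range m, ‖ψ (σ ^ i • β)‖ ≤ ∏ _i ∈ range m, (2 * X) :=
            Finset.prod_le_prod (fun _ _ => norm_nonneg _) (fun i _ => hterm i)
        _ = (2 * X) ^ m := by rw [Finset.prod_const, card_range]
    have hDn : |(D : ℝ)| ≤ (2 * X) ^ (2 * m) := by
      have h1 : ‖ψ (D : 𝓞 L)‖ = |(D : ℝ)| := by
        rw [map_intCast, Complex.norm_intCast]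
      rw [← h1, hD', map_pow, norm_pow, mul_comm 2 m, pow_mul]
      exact pow_le_pow_left₀ (norm_nonneg _) hnorm 2
    refine le_trans ?_ hDn
    rw [hDd]
    push_cast
    rw [abs_mul, abs_pow, Nat.abs_cast]
    have h2 : (1 : ℝ) ≤ (s : ℝ) ^ 2 := by
      have : (1 : ℝ) ≤ s := by exact_mod_cast hs
      nlinarith
    nlinarith [abs_nonneg (d : ℝ)]

end Pool.Agent.Lib.MP_695920_nt
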