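import Mathlib
import Pool.Agent.Lib.MP_695920_nt.ClassMaps
import Pool.Agent.Lib.MP_695920_nt.Theta

set_option autoImplicit false

open Finset NumberField Module IsDedekindDomain
open scoped nonZeroDivisors Pointwise

namespace Pool.Agent.Lib.MP_695920_nt

/-- constant in the bound with many primes -/
noncomputable def Bn (n : ℕ) : ℝ := An n * (2 * Real.exp 4) ^ n

lemma Bn_pos (n : ℕ) (hn : 1 ≤ n) : 0 < Bn n := by
  have := An_pos n hn
  unfold Bn
  positivity

/-- the Ellenberg-Venkatesh bound -/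
lemma ev_many {K : Type*} [Field K] [NumberField K] {l : ℕ} (hl : l.Prime) (hn2 : 1 < finrank ℚ K)
    (hln : ¬ l ∣ finrank ℚ K) (G : Finset ℕ) (y : ℝ) (hy1 : 1 ≤ y)
    (hG : ∀ p ∈ G, p.Prime ∧ (p : ℝ) ≤ y ∧ ∃ P : Ideal (𝓞 K), Ideal.absNorm P = p)
    (hy : G = ∅ ∨ 2 * l * finrank ℚ K * Real.log y + 2 * l * (finrank ℚ K : ℝ) ^ 2 ≤
      Real.log |(discr K : ℝ)|) :
    (1 + G.card : ℝ) * (Nat.card {x : ClassGroup (𝓞 K) // x ^ l = 1} : ℝ) ≤
      Bn (finrank ℚ K) * Real.sqrt |(discr K : ℝ)| * Real.log |(discr K : ℝ)| ^ finrank ℚ K := by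
  classical
  have hD3 := three_le_discr hn2
  obtain ⟨hL, hLL⟩ := loglog_lower hD3
  have hZdef : ZK K = 2 * Real.sqrt |(discr K : ℝ)| := rfl
  have hmain := @main_ineq K _ _ l hl hn2
  have hsum := deg1_sum_le (K := K) hl 2 (ZK K) le_rfl (by
    have hsD : (1.7 : ℝ) ≤ Real.sqrt |(discr K : ℝ)| := by
      apply Real.le_sqrt_of_sq_le
      linarith
    rw [hZdef]; linarith) {2} (by
      intro p hp hp2 _
      have : p ≤ 2 := by exact_mod_cast hp2
      rw [Finset.mem_singleton]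
      exact le_antisymm this hp.two_le)
  set n := finrank ℚ K with hn
  set D : ℝ := |(discr K : ℝ)| with hD
  set L := Real.log D with hLdef
  set Z := ZK K with hZ
  have hn1 : 1 ≤ n := hn2.le
  have hnr : (2 : ℝ) ≤ n := by exact_mod_cast hn2
  have hlr : (2 : ℝ) ≤ l := by exact_mod_cast hl.two_le
  have hAn := An_pos n hn1
  have hlogZ : Real.log Z = Real.log 2 + L / 2 := by
    rw [hZdef, Real.log_mul (by norm_num) (by positivity), Real.log_sqrt (by linarith)]
  have hlog2' : 0.69 ≤ Real.log 2 := by linarith [Real.log_two_gt_d9]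
  have hkap : kap n l = 0 := by unfold kap; rw [if_neg hln]
  rw [hkap] at hsum
  -- the sum over the primes
  have hS : Real.exp (∑ P ∈ deg1 K ⌊Z⌋₊, (1 : ℝ) / (Ideal.absNorm P)) ≤ (2 * Real.exp 4) ^ n * L ^ n := by
    have h1 : ∑ P ∈ deg1 K ⌊Z⌋₊, (1 : ℝ) / (Ideal.absNorm P) ≤
        n * (Real.log (Real.log Z / Real.log 2) + 4) := by
      refine hsum.trans ?_
      simp only [Finset.sum_singleton, Nat.cast_ofNat, Nat.cast_zero, zero_mul, add_zero]
      nlinarith
    have h2 : Real.log Z / Real.log 2 ≤ 2 * L := by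
      rw [div_le_iff₀ (by linarith), hlogZ]
      nlinarith
    have h3 : 0 < Real.log Z / Real.log 2 := by
      apply div_pos _ (by linarith)
      rw [hlogZ]; linarith
    calc Real.exp (∑ P ∈ deg1 K ⌊Z⌋₊, (1 : ℝ) / (Ideal.absNorm P))
        ≤ Real.exp (n * (Real.log (Real.log Z / Real.log 2) + 4)) := Real.exp_le_exp.mpr h1
      _ = (Real.log Z / Real.log 2 * Real.exp 4) ^ n := by
          rw [Real.exp_nat_mul, Real.exp_add, Real.exp_log h3]
      _ ≤ (2 * L * Real.exp 4) ^ n := by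
          apply pow_le_pow_left₀ (by positivity)
          exact mul_le_mul_of_nonneg_right h2 (Real.exp_pos 4).le
      _ = (2 * Real.exp 4) ^ n * L ^ n := by
          rw [← mul_pow]; congr 1; ring
  -- the set of ideals
  choose! c hc using fun p (hp : p ∈ G) => (hG p hp).2.2
  have hcinj : Set.InjOn c (G : Set ℕ) := by
    intro p hp q hq hpq
    rw [← hc p hp, ← hc q hq, hpq]
  have hAcard : (insert ⊤ (G.image c)).card = G.card + 1 := by
    rw [Finset.card_insert_of_notMem, Finset.card_image_of_injOn hcinj]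
    intro h
    rw [mem_image] at h
    obtain ⟨p, hp, hpt⟩ := h
    have h1 := hc p hp
    rw [hpt, Ideal.absNorm_top] at h1
    exact (hG p hp).1.one_lt.ne h1
  have hAmem : ∀ P ∈ insert ⊤ (G.image c), P = ⊤ ∨ ∃ p ∈ G, P = c p ∧ Ideal.absNorm P = p := by
    intro P hP
    rw [mem_insert, mem_image] at hP
    rcases hP with h | ⟨p, hp, h⟩
    · exact Or.inl h
    · exact Or.inr ⟨p, hp, h.symm, h ▸ (hc p hp)⟩
  have hAnorm : ∀ P ∈ insert ⊤ (G.image c), (Ideal.absNorm P : ℝ) ≤ y := by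
    intro P hP
    rcases hAmem P hP with h | ⟨p, hp, _, h⟩
    · rw [h, Ideal.absNorm_top]; push_cast; linarith
    · rw [h]; exact (hG p hp).2.1
  have hfin := hmain (insert ⊤ (G.image c)) ?_ ?_ ?_
  · rw [hAcard] at hfin
    push_cast at hfin
    have hL1 : (1 : ℝ) ≤ L := by linarith
    calc (1 + G.card : ℝ) * (Nat.card {x : ClassGroup (𝓞 K) // x ^ l = 1} : ℝ)
        = (G.card + 1 : ℝ) * (Nat.card {x : ClassGroup (𝓞 K) // x ^ l = 1} : ℝ) := by ring
      _ ≤ An n * (Real.sqrt D / L) * Real.exp (∑ P ∈ deg1 K ⌊Z⌋₊, (1 : ℝ) / (Ideal.absNorm P)) := hfin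
      _ ≤ An n * (Real.sqrt D / L) * ((2 * Real.exp 4) ^ n * L ^ n) := by
          apply mul_le_mul_of_nonneg_left hS
          positivity
      _ ≤ An n * (Real.sqrt D / 1) * ((2 * Real.exp 4) ^ n * L ^ n) := by
          gcongr
      _ = Bn n * Real.sqrt D * L ^ n := by
          unfold Bn; ring
  · intro P hP
    rcases hAmem P hP with h | ⟨p, hp, h, h'⟩
    · exact Or.inl h
    · right
      refine ⟨by rw [h']; exact (hG p hp).1, Or.inl ?_⟩
      rw [← hn]; exact hln
  · intro P hP Q hQ hPQ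
    simp only at hPQ
    rcases hAmem P hP with h | ⟨p, hp, h, hNP⟩ <;> rcases hAmem Q hQ with h' | ⟨q, hq, h', hNQ⟩
    · rw [h, h']
    · exfalso
      rw [h, Ideal.absNorm_top, hNQ] at hPQ
      exact (hG q hq).1.one_lt.ne hPQ
    · exfalso
      rw [h', Ideal.absNorm_top, hNP] at hPQ
      exact (hG p hp).1.one_lt.ne hPQ.symm
    · have : p = q := by rw [← hNP, ← hNQ, hPQ]
      rw [h, h', this]
  · intro P hP Q hQ hne
    rcases hy with hy | hy
    · exfalso
      subst hy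
      simp only [image_empty, insert_empty_eq, mem_singleton] at hP hQ
      exact hne (hP.trans hQ.symm)
    have hPy := hAnorm P hP
    have hQy := hAnorm Q hQ
    have hy0 : 0 < y := by linarith
    have hlogy : 0 ≤ Real.log y := Real.log_nonneg hy1
    have h1 : (2 * Real.exp l) ≤ Real.exp (2 * l) := by
      have h2 : (2 : ℝ) ≤ Real.exp l := by
        have := Real.add_one_le_exp (l : ℝ)
        linarith
      rw [two_mul (l : ℝ), Real.exp_add]
      exact mul_le_mul_of_nonneg_right h2 (Real.exp_pos _).le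
    have h3 : (Ideal.absNorm P : ℝ) * (Ideal.absNorm Q : ℝ) ≤ Real.exp (2 * Real.log y) := by
      rw [two_mul, Real.exp_add, Real.exp_log hy0]
      exact mul_le_mul hPy hQy (Nat.cast_nonneg _) (by positivity)
    have h4 : ((n - 1 : ℕ) : ℝ) = (n : ℝ) - 1 := by
      rw [Nat.cast_sub hn1, Nat.cast_one]
    calc (2 * Real.exp l) ^ (n * (n - 1)) *
          ((Ideal.absNorm P : ℝ) * (Ideal.absNorm Q : ℝ)) ^ (l * (n - 1))
        ≤ (Real.exp (2 * l)) ^ (n * (n - 1)) *
          (Real.exp (2 * Real.log y)) ^ (l * (n - 1)) := by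
          gcongr
      _ = Real.exp (2 * l * n * ((n : ℝ) - 1) + 2 * Real.log y * l * ((n : ℝ) - 1)) := by
          rw [← Real.exp_nat_mul, ← Real.exp_nat_mul, ← Real.exp_add]
          congr 1
          push_cast
          rw [h4]
          ring
      _ < Real.exp L := by
          rw [Real.exp_lt_exp]
          have h5 : 0 ≤ 2 * (l : ℝ) * Real.log y := by positivity
          have h6 : 0 < 2 * (l : ℝ) * n := by positivity
          nlinarith
      _ = D := Real.exp_log (by linarith)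

section degrees

variable {G : Type*} [Group G] {m : ℕ} {σ τ : G} [Finite G]

lemma orderOf_sigma (h : Dih m σ τ) (hcard : Nat.card G = 2 * m) : orderOf σ = m := by
  have hm0 : 0 < m := h.odd.pos
  have h1 : orderOf σ ∣ m := orderOf_dvd_of_pow_eq_one h.sm
  have h2 : orderOf σ ≤ m := Nat.le_of_dvd hm0 h1
  have hpos : 0 < orderOf σ := orderOf_pos σ
  let f : Fin (orderOf σ) × Bool → G := fun x => σ ^ (x.1 : ℕ) * (if x.2 then τ else 1)
  have hsurj : Function.Surjective f := by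
    intro g
    obtain ⟨i, rfl | rfl⟩ := h.gen g
    · refine ⟨(⟨i % orderOf σ, Nat.mod_lt _ hpos⟩, false), ?_⟩
      simp [f, pow_mod_orderOf]
    · refine ⟨(⟨i % orderOf σ, Nat.mod_lt _ hpos⟩, true), ?_⟩
      simp [f, pow_mod_orderOf]
  have h3 := Nat.card_le_card_of_surjective f hsurj
  rw [hcard, Nat.card_prod, Nat.card_eq_fintype_card, Nat.card_eq_fintype_card, Fintype.card_fin,
    Fintype.card_bool] at h3
  omega

lemma tau_ne_one (h : Dih m σ τ) (hcard : Nat.card G = 2 * m) (hm3 : 3 ≤ m) : τ ≠ 1 := by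
  rintro rfl
  have h1 := h.rel
  rw [one_mul, mul_one] at h1
  have h2 : σ ^ 2 = 1 := by
    rw [sq]
    nth_rewrite 2 [h1]
    exact mul_inv_cancel σ
  have h3 := orderOf_dvd_of_pow_eq_one h2
  rw [orderOf_sigma h hcard] at h3
  have := Nat.le_of_dvd (by norm_num) h3
  omega

variable {L : Type*} [Field L] [NumberField L] [MulSemiringAction G L]
  [hG : IsGaloisGroup G ℚ L]

omit [Finite G] in
lemma finrank_L (hcard : Nat.card G = 2 * m) : finrank ℚ L = 2 * m := by
  rw [← IsGaloisGroup.card_eq_finrank G ℚ L, hcard]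

lemma finrank_F (h : Dih m σ τ) (hcard : Nat.card G = 2 * m) :
    finrank ℚ (fixF L (Subgroup.zpowers σ)) = 2 := by
  have h1 := finrank_mul_finrank ℚ (fixF L (Subgroup.zpowers σ)) L
  rw [finrank_L (G := G) (L := L) hcard, IsGaloisGroup.finrank_fixedPoints_eq_card_subgroup,
    Nat.card_zpowers, orderOf_sigma h hcard] at h1
  exact Nat.eq_of_mul_eq_mul_right h.odd.pos h1

lemma card_tau (h : Dih m σ τ) (hcard : Nat.card G = 2 * m) (hm3 : 3 ≤ m) :
    Nat.card (Subgroup.zpowers τ) = 2 := by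
  rw [Nat.card_zpowers]
  exact orderOf_eq_prime (by rw [sq]; exact h.t2) (tau_ne_one h hcard hm3)

lemma finrank_KL (h : Dih m σ τ) (hcard : Nat.card G = 2 * m) (hm3 : 3 ≤ m) :
    finrank (fixF L (Subgroup.zpowers τ)) L = 2 := by
  rw [IsGaloisGroup.finrank_fixedPoints_eq_card_subgroup, card_tau h hcard hm3]

lemma finrank_K (h : Dih m σ τ) (hcard : Nat.card G = 2 * m) (hm3 : 3 ≤ m) :
    finrank ℚ (fixF L (Subgroup.zpowers τ)) = m := by
  have h1 := finrank_mul_finrank ℚ (fixF L (Subgroup.zpowers τ)) L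
  rw [finrank_L (G := G) (L := L) hcard, finrank_KL h hcard hm3, mul_comm] at h1
  exact Nat.eq_of_mul_eq_mul_left (by norm_num) h1

omit [Finite G] in
/-- uniqueness of the prime above when there is no prime ideal of norm `p` in a quadratic field -/
lemma unique_above {F : Type*} [Field F] [NumberField F] (hF : finrank ℚ F = 2) {p : ℕ}
    (hp : p.Prime) (hno : ¬ ∃ P : Ideal (𝓞 F), Ideal.absNorm P = p) (P Q : Ideal (𝓞 F))
    (hP : P.IsPrime) (hQ : Q.IsPrime) (hpP : (p : 𝓞 F) ∈ P) (hpQ : (p : 𝓞 F) ∈ Q) : P = Q := by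
  classical
  by_contra hne
  have hP0 : P ≠ ⊥ := by
    rintro rfl
    rw [Ideal.mem_bot] at hpP
    exact hp.ne_zero (by exact_mod_cast hpP)
  have hQ0 : Q ≠ ⊥ := by
    rintro rfl
    rw [Ideal.mem_bot] at hpQ
    exact hp.ne_zero (by exact_mod_cast hpQ)
  have hPmax := hP.isMaximal hP0
  have hQmax := hQ.isMaximal hQ0
  -- the product divides `(p)`
  have hcop : IsCoprime P Q := (Ideal.isCoprime_iff_sup_eq).mpr (hPmax.coprime_of_ne hQmax hne)
  have hdvd : P * Q ∣ Ideal.span {(p : 𝓞 F)} := by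
    apply hcop.mul_dvd
    · rw [Ideal.dvd_iff_le, Ideal.span_singleton_le_iff_mem]; exact hpP
    · rw [Ideal.dvd_iff_le, Ideal.span_singleton_le_iff_mem]; exact hpQ
  have h1 := Ideal.absNorm_dvd_absNorm_of_le (Ideal.le_of_dvd hdvd)
  rw [Ideal.absNorm_span_natCast, RingOfIntegers.rank, hF, map_mul] at h1
  obtain ⟨b, hb⟩ := dvd_absNorm_of_mem hp hQ hQ0 hpQ
  rw [hb] at h1
  -- p a * (p b) ∣ p^2
  have h2 : Ideal.absNorm P * (p * b) ∣ p ^ 2 := h1
  obtain ⟨a, ha⟩ := dvd_absNorm_of_mem hp hP hP0 hpP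
  rw [ha] at h2
  have h3 : p ^ 2 * (a * b) ∣ p ^ 2 * 1 := by
    rw [mul_one]
    convert h2 using 1
    ring
  have h4 := Nat.dvd_of_mul_dvd_mul_left (pow_pos hp.pos 2) h3
  have h5 : a = 1 := Nat.eq_one_of_mul_eq_one_right (Nat.dvd_one.mp h4)
  exact hno ⟨P, by rw [ha, h5, mul_one]⟩

/-- every rational prime is the norm of a prime ideal of `F` or of `K` -/
lemma prime_norm_or (h : Dih m σ τ) (hcard : Nat.card G = 2 * m) {p : ℕ} (hp : p.Prime)
    (hno : ¬ ∃ P : Ideal (𝓞 (fixF L (Subgroup.zpowers σ))), Ideal.absNorm P = p) :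
    ∃ P : Ideal (𝓞 (fixF L (Subgroup.zpowers τ))), Ideal.absNorm P = p :=
  exists_degree_one h hp (fun P Q hP hQ hpP hpQ =>
    unique_above (finrank_F h hcard) hp hno P Q hP hQ hpP hpQ)

end degrees

lemma sqrt_le_pi (N : ℕ) (hN : (10 : ℝ) ^ 8 ≤ N) :
    Real.sqrt N ≤ ((Ioc 0 N).filter Nat.Prime).card := by
  have hN0 : (0 : ℝ) < N := lt_of_lt_of_le (by norm_num) hN
  set z : ℝ := Real.sqrt (Real.sqrt N) with hz
  have hs0 : 0 ≤ Real.sqrt N := Real.sqrt_nonneg _
  have hz2 : z ^ 2 = Real.sqrt N := Real.sq_sqrt hs0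
  have hz4 : z ^ 4 = N := by
    rw [show (4 : ℕ) = 2 * 2 by norm_num, pow_mul, hz2, Real.sq_sqrt hN0.le]
  have hz100 : 100 ≤ z := by
    rw [hz]
    apply Real.le_sqrt_of_sq_le
    apply Real.le_sqrt_of_sq_le
    refine le_trans (by norm_num) hN
  have hz0 : 0 < z := by linarith
  have hlogz : Real.log z ≤ z := (Real.log_le_sub_one_of_pos hz0).trans (by linarith)
  have hlogN : Real.log N = 4 * Real.log z := by rw [← hz4, Real.log_pow]; norm_num
  have hlogz0 : 0 < Real.log z := Real.log_pos (by linarith)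
  have hlogNpos : 0 < Real.log N := by rw [hlogN]; linarith
  have hlog2 : 0.69 ≤ Real.log 2 := by linarith [Real.log_two_gt_d9]
  have hlog2' : Real.log 2 ≤ 1 := by linarith [Real.log_two_lt_d9]
  have h1 := Chebyshev.pi_ge N
  have h2 : Real.log (N + 1) ≤ 1 + 4 * z := by
    have h3 : Real.log ((N : ℝ) + 1) ≤ Real.log (2 * N) := by
      apply Real.log_le_log (by positivity)
      linarith
    rw [Real.log_mul (by norm_num) hN0.ne', hlogN] at h3
    linarith
  have h3 : Real.sqrt N ≤ (N * Real.log 2 - Real.log (N + 1)) / Real.log N := by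
    rw [le_div_iff₀ hlogNpos, ← hz2, hlogN]
    have h4 : z ^ 2 * (4 * Real.log z) ≤ 4 * z ^ 3 := by
      have : z ^ 2 * Real.log z ≤ z ^ 2 * z := mul_le_mul_of_nonneg_left hlogz (by positivity)
      nlinarith
    have h5 : 0.69 * z ^ 4 ≤ N * Real.log 2 := by
      rw [← hz4]
      nlinarith [pow_pos hz0 4]
    have h6 : 100 * z ^ 3 ≤ z ^ 4 := by
      have : z ^ 4 = z * z ^ 3 := by ring
      rw [this]
      exact mul_le_mul_of_nonneg_right hz100 (by positivity)
    have h7 : 10000 * z ≤ z ^ 3 := by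
      have : z ^ 3 = z ^ 2 * z := by ring
      rw [this]
      apply mul_le_mul_of_nonneg_right _ hz0.le
      nlinarith
    linarith
  refine h3.trans (h1.trans ?_)
  have h4 : Nat.primeCounting N = ((Ioc 0 N).filter Nat.Prime).card := by
    rw [Nat.primeCounting, Nat.primeCounting', Nat.count_eq_card_filter_range]
    congr 1
    ext p
    simp only [mem_filter, mem_range, mem_Ioc]
    constructor
    · rintro ⟨h1, h2⟩
      exact ⟨⟨h2.pos, by omega⟩, h2⟩
    · rintro ⟨⟨_, h1⟩, h2⟩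
      exact ⟨by omega, h2⟩
  rw [h4]

end Pool.Agent.Lib.MP_695920_nt
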