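import Mathlib
import Pool.Agent.Lib.MP_695920_nt.DihFinal

set_option autoImplicit false

open Finset NumberField Module IsDedekindDomain
open scoped nonZeroDivisors NNReal ENNReal

namespace Pool.Agent.Lib.MP_695920_nt

section one

variable {K : Type*} [Field K] [NumberField K]

/-- a prime ideal of prime norm which is unramified over the rationals -/
def UGood (P : Ideal (𝓞 K)) : Prop :=
  (Ideal.absNorm P).Prime ∧
    Ideal.ramificationIdx' (Ideal.span {((Ideal.absNorm P : ℕ) : ℤ)}) P = 1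

open scoped IntermediateField in
lemma gen_top' {l : ℕ} (hl : 0 < l) {P Q : Ideal (𝓞 K)} (hP : UGood P) (hQ0 : Q ≠ ⊥)
    (hQ : ∀ R : Ideal (𝓞 K), R.IsPrime → ((Ideal.absNorm P : ℕ) : 𝓞 K) ∈ R → ¬ Q ≤ R)
    {x y : 𝓞 K} (hx : x ≠ 0) (hy : y ≠ 0)
    (h : Ideal.span {x} * P ^ l = Ideal.span {y} * Q ^ l) :
    ℚ⟮(x : K) / (y : K)⟯ = ⊤ := by
  classical
  set p := Ideal.absNorm P with hpdef
  have hp : p.Prime := hP.1
  have hP0 : P ≠ ⊥ := by
    rintro rfl
    rw [hpdef, Ideal.absNorm_bot] at hp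
    exact Nat.not_prime_zero hp
  have hPp : P.IsPrime := Ideal.isPrime_of_irreducible_absNorm hp
  have hPmax : P.IsMaximal := hPp.isMaximal hP0
  have hpP : (p : 𝓞 K) ∈ P := Ideal.absNorm_mem P
  set g : K := (x : K) / (y : K) with hg
  set F : IntermediateField ℚ K := ℚ⟮g⟯ with hF
  let g0 : F := ⟨g, IntermediateField.mem_adjoin_simple_self ℚ g⟩
  have hg0 : algebraMap F K g0 = g := rfl
  -- the prime below
  let P0 : Ideal (𝓞 F) := P.under (𝓞 F)
  have hP0p : P0.IsPrime := inferInstance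
  have hPover : P.LiesOver P0 := ⟨rfl⟩
  have hP0ne : P0 ≠ ⊥ := by
    intro h0
    have : (p : 𝓞 F) ∈ P0 := by
      change (p : 𝓞 F) ∈ P.under (𝓞 F)
      rw [Ideal.under, Ideal.mem_comap]
      simpa using hpP
    rw [h0, Ideal.mem_bot] at this
    exact hp.ne_zero (by exact_mod_cast this)
  have hP0max : P0.IsMaximal := hP0p.isMaximal hP0ne
  have hpP0 : (p : 𝓞 F) ∈ P0 := by
    change (p : 𝓞 F) ∈ P.under (𝓞 F)
    rw [Ideal.under, Ideal.mem_comap]
    simpa using hpP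
  let w : HeightOneSpectrum (𝓞 K) := ⟨P, hPp, hP0⟩
  let v : HeightOneSpectrum (𝓞 F) := ⟨P0, hP0p, hP0ne⟩
  have hPl : P ^ l ≠ ⊥ := pow_ne_zero l hP0
  have hQl : Q ^ l ≠ ⊥ := pow_ne_zero l hQ0
  -- valuations of g at primes above P0
  have hval : ∀ (R : Ideal (𝓞 K)) (hRp : R.IsPrime) (hR0 : R ≠ ⊥) (hRo : R.LiesOver P0),
      (v.valuation F g0) ^ (Ideal.ramificationIdx' P0 R) =
        WithZero.exp ((multiplicity R (P ^ l) : ℤ)) := by
    intro R hRp hR0 hRo
    let wR : HeightOneSpectrum (𝓞 K) := ⟨R, hRp, hR0⟩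
    have : wR.asIdeal.LiesOver v.asIdeal := hRo
    have h1 := HeightOneSpectrum.valuation_liesOver K v wR g0
    rw [hg0] at h1
    change (v.valuation F g0) ^ (Ideal.ramificationIdx' P0 R) = _ at h1
    rw [h1, hg, valuation_ratio wR hx hy hPl hQl h]
    have hpR : (p : 𝓞 K) ∈ R := by
      have h2 : P0 = R.under (𝓞 F) := hRo.over
      rw [h2, Ideal.under, Ideal.mem_comap] at hpP0
      simpa using hpP0
    have h3 : ¬ R ∣ Q ^ l := by
      intro h4
      have h5 : R ∣ Q := (Ideal.prime_of_isPrime hR0 hRp).dvd_of_dvd_pow h4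
      exact hQ R hRp hpR (Ideal.le_of_dvd h5)
    rw [multiplicity_eq_zero_of_not_dvd h3]
    simp
    rfl
  have hmultP : multiplicity P (P ^ l) = l := by
    apply multiplicity_pow_self hP0
    intro hu
    rw [Ideal.isUnit_iff] at hu
    exact hPp.ne_top hu
  -- P is the only prime above P0
  have huniq : IsDedekindDomain.primesOverFinset P0 (𝓞 K) = {P} := by
    ext R
    rw [IsDedekindDomain.mem_primesOverFinset_iff hP0ne, Finset.mem_singleton]
    constructor
    · rintro ⟨hRp, hRo⟩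
      by_contra hne
      have hR0 : R ≠ ⊥ := Ideal.ne_bot_of_liesOver_of_ne_bot hP0ne R
      have hRmax : R.IsMaximal := hRp.isMaximal hR0
      have h1 := hval R hRp hR0 hRo
      have h2 : multiplicity R (P ^ l) = 0 := by
        apply multiplicity_eq_zero_of_not_dvd
        intro h4
        have h5 : R ∣ P := (Ideal.prime_of_isPrime hR0 hRp).dvd_of_dvd_pow h4
        exact hne (hPmax.eq_of_le hRp.ne_top (Ideal.le_of_dvd h5)).symm
      rw [h2] at h1
      have h6 := hval P hPp hP0 hPover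
      rw [hmultP] at h6
      have hne0 : Ideal.ramificationIdx' P0 R ≠ 0 :=
        Ideal.IsDedekindDomain.ramificationIdx'_ne_zero_of_liesOver R hP0ne
      have h7 : v.valuation F g0 = 1 := by
        simp only [Nat.cast_zero, WithZero.exp_zero] at h1
        exact (pow_eq_one_iff.mp h1).resolve_right hne0
      rw [h7, one_pow] at h6
      have h8 : (0 : ℤ) = l := by
        have : WithZero.exp (0 : ℤ) = WithZero.exp (l : ℤ) := by simpa using h6
        exact WithZero.exp_injective this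
      exact hl.ne' (by exact_mod_cast h8.symm)
    · rintro rfl
      exact ⟨hPp, hPover⟩
  have hsum := Ideal.sum_ramification_inertia (𝓞 K) F K (p := P0) hP0ne
  rw [huniq, Finset.sum_singleton] at hsum
  -- inertia degree one
  have hPoverp : P.LiesOver (Ideal.span {(p : ℤ)}) := liesOver_of_mem hPp hp hpP
  have hP0overp : P0.LiesOver (Ideal.span {(p : ℤ)}) := liesOver_of_mem hP0p hp hpP0
  have hspmax : (Ideal.span {(p : ℤ)}).IsMaximal :=
    ((Ideal.span_singleton_prime (by exact_mod_cast hp.ne_zero)).mpr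
      (Nat.prime_iff_prime_int.mp hp)).isMaximal (by simpa using hp.ne_zero)
  have hf1 : Ideal.inertiaDeg' (Ideal.span {(p : ℤ)}) P = 1 := by
    have h1 := Ideal.absNorm_eq_pow_inertiaDeg' P hp
    rw [← hpdef] at h1
    have h2 : p ^ 1 = p ^ (Ideal.inertiaDeg' (Ideal.span {(p : ℤ)}) P) := by rw [pow_one]; exact h1
    exact (Nat.pow_right_injective hp.two_le h2).symm
  have hf2 : Ideal.inertiaDeg' P0 P = 1 := by
    have h1 := Ideal.inertiaDeg'_algebra_tower (Ideal.span {(p : ℤ)}) P0 P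
    rw [hf1] at h1
    exact Nat.eq_one_of_mul_eq_one_left h1.symm
  rw [hf2, mul_one] at hsum
  have h3 := Ideal.ramificationIdx'_algebra_tower' (Ideal.span {(p : ℤ)}) P0 P
  rw [hP.2] at h3
  have h4 : Ideal.ramificationIdx' P0 P = 1 := Nat.eq_one_of_mul_eq_one_left h3.symm
  rw [h4] at hsum
  exact IntermediateField.finrank_eq_one_iff_eq_top.mp hsum.symm

lemma UGood.ne_bot {P : Ideal (𝓞 K)} (hP : UGood P) : P ≠ ⊥ := by
  rintro rfl
  have := hP.1
  rw [Ideal.absNorm_bot] at this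
  exact Nat.not_prime_zero this

lemma UGood.isPrime {P : Ideal (𝓞 K)} (hP : UGood P) : P.IsPrime :=
  Ideal.isPrime_of_irreducible_absNorm hP.1

lemma ugood_aux {P Q : Ideal (𝓞 K)} (hP : UGood P) (hQ : Q = ⊤ ∨ UGood Q)
    (hne : Ideal.absNorm P ≠ Ideal.absNorm Q) (R : Ideal (𝓞 K)) (hR : R.IsPrime)
    (hpR : ((Ideal.absNorm P : ℕ) : 𝓞 K) ∈ R) : ¬ Q ≤ R := by
  intro hQR
  rcases hQ with rfl | hQ
  · exact hR.ne_top (top_le_iff.mp hQR)
  · have hqR : ((Ideal.absNorm Q : ℕ) : 𝓞 K) ∈ R := hQR (Ideal.absNorm_mem Q)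
    have hcop : Nat.Coprime (Ideal.absNorm P) (Ideal.absNorm Q) :=
      (Nat.coprime_primes hP.1 hQ.1).mpr hne
    have h1 : (1 : 𝓞 K) ∈ R := by
      have h2 : IsCoprime ((Ideal.absNorm P : ℕ) : ℤ) ((Ideal.absNorm Q : ℕ) : ℤ) :=
        Nat.isCoprime_iff_coprime.mpr hcop
      obtain ⟨a, b, hab⟩ := h2
      have h3 : (1 : 𝓞 K) = (a : 𝓞 K) * ((Ideal.absNorm P : ℕ) : 𝓞 K) +
          (b : 𝓞 K) * ((Ideal.absNorm Q : ℕ) : 𝓞 K) := by
        have := congrArg (fun z : ℤ => (z : 𝓞 K)) hab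
        push_cast at this
        exact this.symm
      rw [h3]
      exact R.add_mem (R.mul_mem_left _ hpR) (R.mul_mem_left _ hqR)
    exact hR.ne_top ((Ideal.eq_top_iff_one R).mpr h1)

open scoped IntermediateField in
lemma collision' {l : ℕ} (hl : 0 < l) {P Q : Ideal (𝓞 K)} (hP : P = ⊤ ∨ UGood P)
    (hQ : Q = ⊤ ∨ UGood Q) (hne : Ideal.absNorm P ≠ Ideal.absNorm Q)
    {x y : 𝓞 K} (hx : x ≠ 0) (hy : y ≠ 0)
    (h : Ideal.span {x} * P ^ l = Ideal.span {y} * Q ^ l) (X : ℝ)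
    (hX : ∀ φ : K →ₐ[ℚ] ℂ, ‖φ ((x : K) / (y : K))‖ ≤ X) :
    |(discr K : ℝ)| ≤ (2 * X) ^ (finrank ℚ K * (finrank ℚ K - 1)) *
      (Ideal.absNorm P : ℝ) ^ (2 * l * (finrank ℚ K - 1)) := by
  have hP0 : P ≠ ⊥ := by
    rcases hP with rfl | hP
    · exact top_ne_bot
    · exact hP.ne_bot
  have hQ0 : Q ≠ ⊥ := by
    rcases hQ with rfl | hQ
    · exact top_ne_bot
    · exact hQ.ne_bot
  refine disc_bound hP0 hy h ?_ X hX
  rcases hP with hP' | hP
  · rcases hQ with hQ' | hQ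
    · exfalso; apply hne; rw [hP', hQ']
    · have h1 := gen_top' hl hQ hP0 (fun R hR hpR => ugood_aux hQ (Or.inl hP') hne.symm R hR hpR)
        hy hx h.symm
      rw [eq_top_iff, ← h1, IntermediateField.adjoin_simple_le_iff]
      have h2 : (y : K) / (x : K) = ((x : K) / (y : K))⁻¹ := by rw [inv_div]
      rw [h2]
      exact inv_mem (IntermediateField.mem_adjoin_simple_self ℚ _)
  · exact gen_top' hl hP hQ0 (fun R hR hpR => ugood_aux hP hQ hne R hR hpR) hx hy h

end one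

section two

variable {K M : Type*} [Field K] [NumberField K] [Field M] [NumberField M] [Algebra K M]

/-- extension of ideals -/
noncomputable abbrev ext (M : Type*) [Field M] [NumberField M] [Algebra K M] (P : Ideal (𝓞 K)) :
    Ideal (𝓞 M) := P.map (algebraMap (𝓞 K) (𝓞 M))

lemma ext_ne_bot {P : Ideal (𝓞 K)} (hP : P ≠ ⊥) : ext M P ≠ ⊥ := by
  rw [ext, Ne, Ideal.map_eq_bot_iff_of_injective (FaithfulSMul.algebraMap_injective _ _)]
  exact hP

lemma absNorm_ext (P : Ideal (𝓞 K)) :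
    Ideal.absNorm (ext M P) = Ideal.absNorm P ^ finrank K M := by
  rw [ext, Ideal.absNorm_algebraMap]
  congr 1
  exact (IsFractionRing.finrank_eq (𝓞 K) K (𝓞 M) M).symm

lemma relNorm_ext (P : Ideal (𝓞 K)) :
    Ideal.relNorm (𝓞 K) (ext M P) = P ^ finrank K M := by
  rw [ext, Ideal.relNorm_algebraMap]
  congr 1
  exact (IsFractionRing.finrank_eq (𝓞 K) K (𝓞 M) M).symm

lemma norm_rel {l : ℕ} {P Q : Ideal (𝓞 K)} {x y : 𝓞 M}
    (h : Ideal.span {x} * ext M P ^ l = Ideal.span {y} * ext M Q ^ l) :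
    Ideal.span {Algebra.intNorm (𝓞 K) (𝓞 M) x} * P ^ (finrank K M * l) =
      Ideal.span {Algebra.intNorm (𝓞 K) (𝓞 M) y} * Q ^ (finrank K M * l) := by
  have h1 := congrArg (Ideal.relNorm (𝓞 K)) h
  rw [map_mul, map_mul, map_pow, map_pow, relNorm_ext, relNorm_ext, Ideal.relNorm_singleton,
    Ideal.relNorm_singleton, ← pow_mul, ← pow_mul] at h1
  exact h1

lemma norm_bound (x y : 𝓞 M) (X : ℝ)
    (hX : ∀ ψ : M →ₐ[ℚ] ℂ, ‖ψ ((x : M) / (y : M))‖ ≤ X) (φ : K →ₐ[ℚ] ℂ) :
    ‖φ (((Algebra.intNorm (𝓞 K) (𝓞 M) x : 𝓞 K) : K) /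
      ((Algebra.intNorm (𝓞 K) (𝓞 M) y : 𝓞 K) : K))‖ ≤ X ^ finrank K M := by
  have h1 : ∀ z : 𝓞 M, ((Algebra.intNorm (𝓞 K) (𝓞 M) z : 𝓞 K) : K) = Algebra.norm K (z : M) :=
    fun z => Algebra.algebraMap_intNorm (A := 𝓞 K) (K := K) (L := M) (B := 𝓞 M) z
  have h0 : Algebra.norm K (x : M) / Algebra.norm K (y : M) =
      Algebra.norm K ((x : M) / (y : M)) := by
    by_cases hy : (y : M) = 0
    · rw [hy, div_zero, Algebra.norm_zero, div_zero]
    · have hy' : Algebra.norm K (y : M) ≠ 0 := by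
        rwa [Ne, Algebra.norm_eq_zero_iff]
      rw [div_eq_iff hy', ← map_mul, div_mul_cancel₀ _ hy]
  rw [h1, h1, h0]
  let _ : Algebra K ℂ := φ.toRingHom.toAlgebra
  have h2 : φ (Algebra.norm K ((x : M) / (y : M))) =
      algebraMap K ℂ (Algebra.norm K ((x : M) / (y : M))) := rfl
  rw [h2, Algebra.norm_eq_prod_embeddings K ℂ, norm_prod]
  calc ∏ σ : M →ₐ[K] ℂ, ‖σ ((x : M) / (y : M))‖ ≤ ∏ σ : M →ₐ[K] ℂ, X := by
        apply Finset.prod_le_prod (fun _ _ => norm_nonneg _)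
        intro σ _
        have h3 := hX (σ.toRingHom.toRatAlgHom)
        exact h3
    _ = X ^ finrank K M := by
        rw [Finset.prod_const, Finset.card_univ, AlgHom.card]

/-- Two pairs with the same ideal and close positions have the same small ideal. -/
lemma pair_collision' {l : ℕ} (hl : 0 < l) {P Q : Ideal (𝓞 K)} {B : Ideal (𝓞 M)}
    (hP : P = ⊤ ∨ UGood P)
    (hQ : Q = ⊤ ∨ UGood Q) (hne : Ideal.absNorm P ≠ Ideal.absNorm Q)
    {a b a' b' : 𝓞 M} (ha : a ≠ 0) (hb : b ≠ 0) (ha' : a' ≠ 0) (hb' : b' ≠ 0)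
    (h : Ideal.span {b} * B ^ l = Ideal.span {a} * ext M P ^ l)
    (h' : Ideal.span {b'} * B ^ l = Ideal.span {a'} * ext M Q ^ l)
    (hclose : ∀ w : InfinitePlace M, spos l (ext M Q) a' b' w - spos l (ext M P) a b w ≤ 1) :
    |(discr K : ℝ)| ≤ (2 * Real.exp (finrank K M * l)) ^ (finrank ℚ K * (finrank ℚ K - 1)) *
      ((Ideal.absNorm P : ℝ) * (Ideal.absNorm Q : ℝ)) ^ (finrank K M * l * (finrank ℚ K - 1)) := by
  set n := finrank ℚ K with hn
  set m := finrank K M with hm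
  have hnm : (finrank ℚ M : ℝ) = n * m := by
    rw [hn, hm]
    exact_mod_cast (Module.finrank_mul_finrank ℚ K M).symm
  have hP0 : P ≠ ⊥ := by
    rcases hP with rfl | hP
    · exact top_ne_bot
    · exact hP.ne_bot
  have hQ0 : Q ≠ ⊥ := by
    rcases hQ with rfl | hQ
    · exact top_ne_bot
    · exact hQ.ne_bot
  have hNP : (0 : ℝ) < Ideal.absNorm P := by exact_mod_cast absNorm_pos_of_ne_bot hP0
  have hNQ : (0 : ℝ) < Ideal.absNorm Q := by exact_mod_cast absNorm_pos_of_ne_bot hQ0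
  have hPe0 := ext_ne_bot (M := M) hP0
  have hQe0 := ext_ne_bot (M := M) hQ0
  have hNPe : (0 : ℝ) < Ideal.absNorm (ext M P) := by exact_mod_cast absNorm_pos_of_ne_bot hPe0
  have hNQe : (0 : ℝ) < Ideal.absNorm (ext M Q) := by exact_mod_cast absNorm_pos_of_ne_bot hQe0
  have hnR : (0 : ℝ) < (n : ℝ) := by exact_mod_cast finrank_pos
  have hmpos : 0 < m := finrank_pos
  have hmR : (0 : ℝ) < (m : ℝ) := by exact_mod_cast hmpos
  have hlR : (0 : ℝ) < l := by exact_mod_cast hl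
  have hx : a * b' ≠ 0 := mul_ne_zero ha hb'
  have hy : a' * b ≠ 0 := mul_ne_zero ha' hb
  have hrel : Ideal.span {a * b'} * ext M P ^ l = Ideal.span {a' * b} * ext M Q ^ l := by
    rw [← Ideal.span_singleton_mul_span_singleton, ← Ideal.span_singleton_mul_span_singleton]
    calc Ideal.span {a} * Ideal.span {b'} * ext M P ^ l
        = Ideal.span {b'} * (Ideal.span {a} * ext M P ^ l) := by ring
      _ = Ideal.span {b'} * (Ideal.span {b} * B ^ l) := by rw [h]
      _ = Ideal.span {b} * (Ideal.span {b'} * B ^ l) := by ring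
      _ = Ideal.span {b} * (Ideal.span {a'} * ext M Q ^ l) := by rw [h']
      _ = _ := by ring
  set X : ℝ := Real.exp l * ((Ideal.absNorm (ext M Q) : ℝ) / Ideal.absNorm (ext M P)) ^
    ((l : ℝ) / finrank ℚ M) with hX
  have hXb : ∀ φ : M →ₐ[ℚ] ℂ, ‖φ (((a * b' : 𝓞 M) : M) / ((a' * b : 𝓞 M) : M))‖ ≤ X := by
    intro φ
    set w : InfinitePlace M := InfinitePlace.mk φ.toRingHom with hw
    have h1 : ‖φ (((a * b' : 𝓞 M) : M) / ((a' * b : 𝓞 M) : M))‖ =
        w (((a * b' : 𝓞 M) : M) / ((a' * b : 𝓞 M) : M)) := rfl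
    rw [h1, map_div₀]
    push_cast
    rw [map_mul, map_mul]
    have wa := infinitePlace_pos (w := w) ha
    have wb := infinitePlace_pos (w := w) hb
    have wa' := infinitePlace_pos (w := w) ha'
    have wb' := infinitePlace_pos (w := w) hb'
    have h2 := hclose w
    unfold spos at h2
    have hnM : (0 : ℝ) < (finrank ℚ M : ℝ) := by exact_mod_cast finrank_pos
    set N : ℝ := (finrank ℚ M : ℝ) with hN
    rw [Real.log_div ZK_pos.ne' hNPe.ne', Real.log_div ZK_pos.ne' hNQe.ne'] at h2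
    rw [← Real.log_le_log_iff (by positivity) (by positivity), hX,
      Real.log_mul (Real.exp_pos _).ne' (by positivity), Real.log_exp,
      Real.log_rpow (by positivity), Real.log_div hNQe.ne' hNPe.ne',
      Real.log_div (by positivity) (by positivity), Real.log_mul wa.ne' wb'.ne',
      Real.log_mul wa'.ne' wb.ne']
    have h3 : (l : ℝ) * ((1 / N) * (Real.log (ZK M) - Real.log (Ideal.absNorm (ext M Q))) -
        (1 / (l : ℝ)) * (Real.log (w (a' : M)) - Real.log (w (b' : M))) -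
        ((1 / N) * (Real.log (ZK M) - Real.log (Ideal.absNorm (ext M P))) -
        (1 / (l : ℝ)) * (Real.log (w (a : M)) - Real.log (w (b : M))))) ≤ l * 1 :=
      mul_le_mul_of_nonneg_left h2 hlR.le
    have h4 : (l : ℝ) * ((1 / N) * (Real.log (ZK M) - Real.log (Ideal.absNorm (ext M Q))) -
        (1 / (l : ℝ)) * (Real.log (w (a' : M)) - Real.log (w (b' : M))) -
        ((1 / N) * (Real.log (ZK M) - Real.log (Ideal.absNorm (ext M P))) -
        (1 / (l : ℝ)) * (Real.log (w (a : M)) - Real.log (w (b : M))))) =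
        ((l : ℝ) / N) * (Real.log (Ideal.absNorm (ext M P)) - Real.log (Ideal.absNorm (ext M Q))) +
        (Real.log (w (a : M)) + Real.log (w (b' : M)) -
          (Real.log (w (a' : M)) + Real.log (w (b : M)))) := by
      field_simp
      ring
    rw [h4] at h3
    linarith
  have hx' : Algebra.intNorm (𝓞 K) (𝓞 M) (a * b') ≠ 0 := by
    rw [Ne, Algebra.intNorm_eq_zero]; exact hx
  have hy' : Algebra.intNorm (𝓞 K) (𝓞 M) (a' * b) ≠ 0 := by
    rw [Ne, Algebra.intNorm_eq_zero]; exact hy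
  have h5 := collision' (Nat.mul_pos hmpos hl) hP hQ hne hx' hy' (norm_rel hrel) (X ^ m)
    (norm_bound _ _ X hXb)
  refine h5.trans (le_of_eq ?_)
  have hXm : X ^ m = Real.exp (m * l) *
      ((Ideal.absNorm Q : ℝ) / Ideal.absNorm P) ^ ((m * l : ℝ) / n) := by
    rw [hX, mul_pow, ← Real.exp_nat_mul, absNorm_ext, absNorm_ext, ← hm]
    congr 1
    push_cast
    rw [← div_pow, ← Real.rpow_natCast _ m, ← Real.rpow_mul (by positivity),
      ← Real.rpow_natCast _ m, ← Real.rpow_mul (by positivity), hnm]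
    congr 1
    field_simp
  rw [hXm]
  have h6 : (2 * (Real.exp (m * l) * ((Ideal.absNorm Q : ℝ) / Ideal.absNorm P) ^
      ((m * l : ℝ) / n))) ^ (n * (n - 1)) =
      (2 * Real.exp (m * l)) ^ (n * (n - 1)) *
        ((Ideal.absNorm Q : ℝ) / Ideal.absNorm P) ^ (m * l * (n - 1)) := by
    rw [← mul_assoc, mul_pow]
    congr 1
    rw [← Real.rpow_natCast _ (n * (n - 1)), ← Real.rpow_mul (by positivity), ← Real.rpow_natCast]
    congr 1
    push_cast
    field_simp
  rw [h6, div_pow, mul_pow]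
  have h7 : (Ideal.absNorm P : ℝ) ^ (2 * (m * l) * (n - 1)) =
      (Ideal.absNorm P : ℝ) ^ (m * l * (n - 1)) * (Ideal.absNorm P : ℝ) ^ (m * l * (n - 1)) := by
    rw [← pow_add]; congr 1; ring
  rw [h7]
  field_simp
  rw [mul_pow, mul_comm]

end two

end Pool.Agent.Lib.MP_695920_nt
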