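import Mathlib
import Pool.Agent.Lib.MP_695920_nt.EVSub

set_option autoImplicit false

open Finset NumberField Module IsDedekindDomain
open scoped nonZeroDivisors NNReal ENNReal

namespace Pool.Agent.Lib.MP_695920_nt

section count

variable {K M : Type*} [Field K] [NumberField K] [Field M] [NumberField M] [Algebra K M]

open InfinitePlace in
/-- The Ellenberg-Venkatesh counting inequality, with prime ideals of a subfield. -/
theorem ev_count' {l : ℕ} (hl : 0 < l) (AA : Finset (Ideal (𝓞 K)))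
    (hAA : ∀ P ∈ AA, P = ⊤ ∨ UGood P)
    (hinj : Set.InjOn (fun P : Ideal (𝓞 K) => Ideal.absNorm P) (AA : Set (Ideal (𝓞 K))))
    (hsmall : ∀ P ∈ AA, ∀ Q ∈ AA, P ≠ Q →
      (2 * Real.exp (finrank K M * l)) ^ (finrank ℚ K * (finrank ℚ K - 1)) *
      ((Ideal.absNorm P : ℝ) * (Ideal.absNorm Q : ℝ)) ^ (finrank K M * l * (finrank ℚ K - 1)) <
        |(discr K : ℝ)|) :
    (AA.card : ℝ) * (Nat.card {x : ClassGroup (𝓞 M) // x ^ l = 1} : ℝ) ≤
      ∑ B ∈ idl M ⌊ZK M⌋₊, (1 + Real.log (ZK M / Ideal.absNorm B)) ^ (finrank ℚ M) := by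
  classical
  set n := finrank ℚ M with hn
  have hAA0 : ∀ P ∈ AA, ext M P ≠ ⊥ := by
    intro P hP
    apply ext_ne_bot
    rcases hAA P hP with rfl | h
    · exact top_ne_bot
    · exact h.ne_bot
  -- the source
  let C := {x : ClassGroup (𝓞 M) // x ^ l = 1}
  have hex : ∀ x : C × AA, ∃ (B : (Ideal (𝓞 M))⁰) (a b : 𝓞 M), a ≠ 0 ∧ b ≠ 0 ∧
      ClassGroup.mk0 B = x.1.1 * ClassGroup.mk0
        (⟨ext M x.2.1, mem_nonZeroDivisors_of_ne_zero (hAA0 x.2.1 x.2.2)⟩ : (Ideal (𝓞 M))⁰) ∧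
      (Ideal.absNorm (B : Ideal (𝓞 M)) : ℝ) < ZK M ∧
      Ideal.span {b} * (B : Ideal (𝓞 M)) ^ l = Ideal.span {a} * ext M x.2.1 ^ l ∧
      ∀ w : InfinitePlace M, w (a : M) <
        (ZK M / Ideal.absNorm (ext M x.2.1)) ^ ((l : ℝ) / finrank ℚ M) * w (b : M) := by
    intro x
    exact pair_exists hl ⟨ext M x.2.1, mem_nonZeroDivisors_of_ne_zero (hAA0 x.2.1 x.2.2)⟩ x.1.1 x.1.2
  choose B a b ha hb hclass hBZ hrel hplace using hex
  have hB0 : ∀ x, (B x : Ideal (𝓞 M)) ≠ ⊥ := fun x => nonZeroDivisors.coe_ne_zero (B x)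
  let Φ : C × AA → (Σ _ : Ideal (𝓞 M), (InfinitePlace M → ℕ)) := fun x =>
    ⟨(B x : Ideal (𝓞 M)), fun w => ⌊spos l (ext M x.2.1) (a x) (b x) w⌋₊⟩
  let T : Finset (Σ _ : Ideal (𝓞 M), (InfinitePlace M → ℕ)) :=
    (idl M ⌊ZK M⌋₊).sigma (fun B => Fintype.piFinset
      (fun _ : InfinitePlace M => Finset.range (⌊Real.log (ZK M / Ideal.absNorm B)⌋₊ + 1)))
  have hmaps : ∀ x, Φ x ∈ T := by
    intro x
    simp only [T, Φ, Finset.mem_sigma, Fintype.mem_piFinset, Finset.mem_range]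
    refine ⟨?_, ?_⟩
    · rw [mem_idl]
      exact ⟨hB0 x, Nat.le_floor (hBZ x).le⟩
    · intro w
      apply Nat.lt_succ_of_le
      apply Nat.floor_le_floor
      exact spos_le hl (hAA0 x.2.1 x.2.2) (hB0 x) (ha x) (hb x) (hrel x) (hplace x) w
  have hΦinj : Function.Injective Φ := by
    intro x y hxy
    simp only [Φ, Sigma.mk.injEq] at hxy
    obtain ⟨h1, h2⟩ := hxy
    have h2' : (fun w => ⌊spos l (ext M x.2.1) (a x) (b x) w⌋₊) =
        (fun w => ⌊spos l (ext M y.2.1) (a y) (b y) w⌋₊) :=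
      eq_of_heq h2
    have hPQ : x.2 = y.2 := by
      by_contra hne
      have hne' : x.2.1 ≠ y.2.1 := fun h => hne (Subtype.ext h)
      have hN : Ideal.absNorm x.2.1 ≠ Ideal.absNorm y.2.1 := fun h =>
        hne' (hinj x.2.2 y.2.2 h)
      have hrel' : Ideal.span {b y} * (B x : Ideal (𝓞 M)) ^ l =
          Ideal.span {a y} * ext M y.2.1 ^ l := by
        rw [h1]; exact hrel y
      have h3 := pair_collision' hl (hAA _ x.2.2) (hAA _ y.2.2) hN (ha x) (hb x) (ha y) (hb y)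
        (hrel x) hrel' (by
          intro w
          have h4 : ⌊spos l (ext M x.2.1) (a x) (b x) w⌋₊ =
            ⌊spos l (ext M y.2.1) (a y) (b y) w⌋₊ := congrFun h2' w
          have h5 := spos_pos hl (hAA0 x.2.1 x.2.2) (ha x) (hb x) w (hplace x w)
          have h6 := spos_pos hl (hAA0 y.2.1 y.2.2) (ha y) (hb y) w (hplace y w)
          have h7 := Nat.floor_le h5.le
          have h8 := Nat.lt_floor_add_one (spos l (ext M y.2.1) (a y) (b y) w)
          rw [← h4] at h8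
          linarith)
      exact absurd h3 (not_le.mpr (hsmall _ x.2.2 _ y.2.2 hne'))
    have hc1 := hclass x
    have hc2 := hclass y
    have hBB : B x = B y := Subtype.ext h1
    rw [hBB, hc2] at hc1
    apply Prod.ext
    · apply Subtype.ext
      simp only [hPQ] at hc1
      exact (mul_right_cancel hc1).symm
    · exact hPQ
  have hfinC : Finite C := inferInstance
  have hcard : Nat.card (C × AA) ≤ T.card := by
    have : Fintype C := Fintype.ofFinite C
    rw [Nat.card_eq_fintype_card, ← Finset.card_univ]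
    exact Finset.card_le_card_of_injOn Φ (fun x _ => hmaps x) (fun x _ y _ h => hΦinj h)
  rw [Nat.card_prod] at hcard
  have hAAc : Nat.card AA = AA.card := by simp
  rw [hAAc] at hcard
  have hTcard : (T.card : ℝ) ≤
      ∑ B ∈ idl M ⌊ZK M⌋₊, (1 + Real.log (ZK M / Ideal.absNorm B)) ^ n := by
    simp only [T]
    rw [Finset.card_sigma]
    push_cast
    refine Finset.sum_le_sum fun I hI => ?_
    obtain ⟨hI0, hIN⟩ := mem_idl.mp hI
    have hNI : (0 : ℝ) < Ideal.absNorm I := by exact_mod_cast absNorm_pos_of_ne_bot hI0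
    have hle : (Ideal.absNorm I : ℝ) ≤ ZK M := by
      calc (Ideal.absNorm I : ℝ) ≤ (⌊ZK M⌋₊ : ℝ) := by exact_mod_cast hIN
        _ ≤ ZK M := Nat.floor_le ZK_pos.le
    have hL : 0 ≤ Real.log (ZK M / Ideal.absNorm I) :=
      Real.log_nonneg (by rw [le_div_iff₀ hNI]; linarith)
    rw [Fintype.card_piFinset, Finset.prod_const, Finset.card_univ, Finset.card_range]
    push_cast
    have hb1 : (1 : ℝ) ≤ (⌊Real.log (ZK M / Ideal.absNorm I)⌋₊ : ℝ) + 1 := by
      linarith [Nat.cast_nonneg (α := ℝ) ⌊Real.log (ZK M / Ideal.absNorm I)⌋₊]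
    have hcardplaces : Fintype.card (InfinitePlace M) ≤ n := by
      rw [hn, ← InfinitePlace.sum_mult_eq (K := M), ← Finset.card_univ, Finset.card_eq_sum_ones]
      exact Finset.sum_le_sum fun w _ => InfinitePlace.mult_pos
    calc ((⌊Real.log (ZK M / Ideal.absNorm I)⌋₊ : ℝ) + 1) ^ Fintype.card (InfinitePlace M)
        ≤ ((⌊Real.log (ZK M / Ideal.absNorm I)⌋₊ : ℝ) + 1) ^ n :=
          pow_le_pow_right₀ hb1 hcardplaces
      _ ≤ (1 + Real.log (ZK M / Ideal.absNorm I)) ^ n := by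
          apply pow_le_pow_left₀ (by linarith)
          have := Nat.floor_le hL
          linarith
  calc (AA.card : ℝ) * (Nat.card C : ℝ) = ((Nat.card C * AA.card : ℕ) : ℝ) := by push_cast; ring
    _ ≤ (T.card : ℝ) := by exact_mod_cast hcard
    _ ≤ _ := hTcard

end count

section sumbound

variable {K : Type*} [Field K] [NumberField K]

lemma sum_bound (hn2 : 1 < finrank ℚ K) :
    ∑ B ∈ idl K ⌊ZK K⌋₊, (1 + Real.log (ZK K / Ideal.absNorm B)) ^ (finrank ℚ K) ≤
      An (finrank ℚ K) * (Real.sqrt |(discr K : ℝ)| / Real.log |(discr K : ℝ)|) *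
        Real.exp (∑ P ∈ deg1 K ⌊ZK K⌋₊, (1 : ℝ) / (Ideal.absNorm P)) := by
  classical
  have hD3 := three_le_discr hn2
  have hn1 : 1 ≤ finrank ℚ K := hn2.le
  set n := finrank ℚ K with hn
  set D : ℝ := |(discr K : ℝ)| with hD
  set Z := ZK K with hZ
  have hZD : Z = 2 * Real.sqrt D := rfl
  have hsD : (1.7 : ℝ) ≤ Real.sqrt D := by
    apply Real.le_sqrt_of_sq_le
    linarith
  have hZ34 : (3.4 : ℝ) ≤ Z := by rw [hZD]; linarith
  have hZpos : 0 < Z := by linarith
  have hlogD : 0 < Real.log D := Real.log_pos (by linarith)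
  set N := ⌊Z⌋₊ with hN
  have hNZ : (N : ℝ) ≤ Z := Nat.floor_le hZpos.le
  have hNZ1 : Z < N + 1 := Nat.lt_floor_add_one Z
  -- first step: bound the summand
  have step1 : ∑ B ∈ idl K N, (1 + Real.log (Z / Ideal.absNorm B)) ^ n ≤
      (2 * n : ℝ) ^ n * Real.sqrt Z * ∑ B ∈ idl K N, (Real.sqrt (Ideal.absNorm B))⁻¹ := by
    rw [Finset.mul_sum]
    apply Finset.sum_le_sum
    intro B hB
    rw [mem_idl] at hB
    have hB0 : 0 < Ideal.absNorm B := absNorm_pos_of_ne_bot hB.1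
    have hB0' : (0 : ℝ) < Ideal.absNorm B := by exact_mod_cast hB0
    have hBZ : (Ideal.absNorm B : ℝ) ≤ Z := by
      refine le_trans ?_ hNZ
      exact_mod_cast hB.2
    have h1 := one_add_log_pow_le n hn1 (Z / Ideal.absNorm B) (by
      rw [le_div_iff₀ hB0']; linarith)
    refine h1.trans (le_of_eq ?_)
    rw [Real.sqrt_div hZpos.le, div_eq_mul_inv, mul_assoc]
  refine step1.trans ?_
  -- second step
  have hlogN : Real.log D / 4 ≤ Real.log N := by
    have h1 : Real.sqrt Z ≤ N := by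
      have h2 : Real.sqrt Z ≤ Z - 1 := by
        rw [Real.sqrt_le_left (by linarith)]
        nlinarith
      linarith
    have h3 : Real.log (Real.sqrt Z) ≤ Real.log N :=
      Real.log_le_log (Real.sqrt_pos.mpr hZpos) h1
    rw [Real.log_sqrt hZpos.le] at h3
    have h4 : Real.log (Real.sqrt D) ≤ Real.log Z := by
      apply Real.log_le_log (by linarith)
      rw [hZD]; linarith
    rw [Real.log_sqrt (by linarith)] at h4
    linarith
  have h2 := sum_sqrt_mul_log_le (K := K) N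
  rw [← hn] at h2
  set T := ∑ I ∈ idl K N, (Real.sqrt (Ideal.absNorm I))⁻¹ with hT
  set U := ∑ I ∈ idl K N, (1 : ℝ) / (Ideal.absNorm I) with hU
  have hT0 : 0 ≤ T := Finset.sum_nonneg (fun _ _ => by positivity)
  have hU0 : 0 ≤ U := Finset.sum_nonneg (fun _ _ => by positivity)
  have h3 : T * (Real.log D / 4) ≤ (11 * (n : ℝ) ^ 2 + 2) * Real.sqrt Z * U := by
    calc T * (Real.log D / 4) ≤ T * Real.log N := mul_le_mul_of_nonneg_left hlogN hT0
      _ ≤ (11 * (n : ℝ) ^ 2 + 2) * Real.sqrt N * U := h2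
      _ ≤ (11 * (n : ℝ) ^ 2 + 2) * Real.sqrt Z * U := by
        have := Real.sqrt_le_sqrt hNZ
        gcongr
  have h4 : T ≤ (11 * (n : ℝ) ^ 2 + 2) * Real.sqrt Z * U * (4 / Real.log D) := by
    have h6 : T = T * (Real.log D / 4) * (4 / Real.log D) := by
      field_simp
    rw [h6]
    exact mul_le_mul_of_nonneg_right h3 (by positivity)
  have h5 := sum_inv_le_exp (K := K) N
  rw [← hn, ← hU] at h5
  set S := ∑ P ∈ deg1 K N, (1 : ℝ) / (Ideal.absNorm P) with hS
  have hsq : Real.sqrt Z * Real.sqrt Z = Z := Real.mul_self_sqrt hZpos.le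
  have hn0 : (0 : ℝ) ≤ (2 * n : ℝ) ^ n * Real.sqrt Z := by positivity
  calc (2 * n : ℝ) ^ n * Real.sqrt Z * T
      ≤ (2 * n : ℝ) ^ n * Real.sqrt Z *
          ((11 * (n : ℝ) ^ 2 + 2) * Real.sqrt Z * U * (4 / Real.log D)) :=
        mul_le_mul_of_nonneg_left h4 hn0
    _ = (4 * (2 * n : ℝ) ^ n * (11 * (n : ℝ) ^ 2 + 2)) *
          ((Real.sqrt Z * Real.sqrt Z) / Real.log D) * U := by ring
    _ = (4 * (2 * n : ℝ) ^ n * (11 * (n : ℝ) ^ 2 + 2)) * (Z / Real.log D) * U := by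
        rw [hsq]
    _ ≤ (4 * (2 * n : ℝ) ^ n * (11 * (n : ℝ) ^ 2 + 2)) * (Z / Real.log D) *
          (Real.exp (4 * n) * Real.exp S) := by
        apply mul_le_mul_of_nonneg_left h5
        positivity
    _ = _ := by
        rw [hZD]; unfold An; ring

lemma deg1_sum_le' (hn2 : 1 < finrank ℚ K) :
    ∑ P ∈ deg1 K ⌊ZK K⌋₊, (1 : ℝ) / (Ideal.absNorm P) ≤
      (finrank ℚ K : ℝ) * (Real.log (Real.log (ZK K) / Real.log 2) + 4) := by
  classical
  have hD3 := three_le_discr hn2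
  set n := finrank ℚ K with hn
  set Z := ZK K with hZ
  have hZD : Z = 2 * Real.sqrt |(discr K : ℝ)| := rfl
  have hsD : (1.7 : ℝ) ≤ Real.sqrt |(discr K : ℝ)| := by
    apply Real.le_sqrt_of_sq_le
    linarith
  have hZ34 : (3.4 : ℝ) ≤ Z := by rw [hZD]; linarith
  -- group by norms
  have h1 : ∑ P ∈ deg1 K ⌊Z⌋₊, (1 : ℝ) / (Ideal.absNorm P) ≤
      ∑ p ∈ (Icc 0 ⌊Z⌋₊).filter Nat.Prime, (n : ℝ) * (1 / p) := by
    have hmaps : ∀ P ∈ deg1 K ⌊Z⌋₊, Ideal.absNorm P ∈ (Icc 0 ⌊Z⌋₊).filter Nat.Prime := by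
      intro P hP
      rw [mem_deg1] at hP
      rw [mem_filter, mem_Icc]
      exact ⟨⟨Nat.zero_le _, hP.1⟩, hP.2⟩
    rw [← Finset.sum_fiberwise_of_maps_to hmaps]
    apply Finset.sum_le_sum
    intro p hp
    rw [mem_filter] at hp
    have h2 : ∑ P ∈ (deg1 K ⌊Z⌋₊).filter (fun P => Ideal.absNorm P = p),
        (1 : ℝ) / (Ideal.absNorm P) =
        ((deg1 K ⌊Z⌋₊).filter (fun P => Ideal.absNorm P = p)).card * (1 / p) := by
      rw [← nsmul_eq_mul]
      apply Finset.sum_eq_card_nsmul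
      intro P hP
      rw [(mem_filter.mp hP).2]
    rw [h2]
    apply mul_le_mul_of_nonneg_right _ (by positivity)
    have h3 := card_primes_above_le hp.2
      ((deg1 K ⌊Z⌋₊).filter (fun P => Ideal.absNorm P = p)) (by
        intro P hP
        rw [mem_filter, mem_deg1] at hP
        refine ⟨Ideal.isPrime_of_irreducible_absNorm (by rw [hP.2]; exact hp.2), ?_⟩
        rw [← hP.2]
        exact Ideal.absNorm_mem P)
    exact_mod_cast h3
  refine h1.trans ?_
  rw [← Finset.mul_sum]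
  apply mul_le_mul_of_nonneg_left _ (Nat.cast_nonneg _)
  have h2 := sum_inv_primes_Ioc_le 2 Z le_rfl (by linarith)
  have hsplit : (Icc 0 ⌊Z⌋₊).filter Nat.Prime ⊆
      insert 2 ((Ioc ⌊(2 : ℝ)⌋₊ ⌊Z⌋₊).filter Nat.Prime) := by
    intro p hp
    rw [mem_filter, mem_Icc] at hp
    rw [mem_insert, mem_filter, mem_Ioc]
    have : ⌊(2 : ℝ)⌋₊ = 2 := by norm_num
    rw [this]
    rcases eq_or_lt_of_le hp.2.two_le with h | h
    · exact Or.inl h.symm
    · exact Or.inr ⟨⟨h, hp.1.2⟩, hp.2⟩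
  calc ∑ p ∈ (Icc 0 ⌊Z⌋₊).filter Nat.Prime, (1 : ℝ) / p
      ≤ ∑ p ∈ insert 2 ((Ioc ⌊(2 : ℝ)⌋₊ ⌊Z⌋₊).filter Nat.Prime), (1 : ℝ) / p := by
        apply Finset.sum_le_sum_of_subset_of_nonneg hsplit
        intro _ _ _
        positivity
    _ ≤ (1 : ℝ) / (2 : ℕ) + ∑ p ∈ (Ioc ⌊(2 : ℝ)⌋₊ ⌊Z⌋₊).filter Nat.Prime, (1 : ℝ) / p := by
        rw [Finset.sum_insert]
        rw [mem_filter, mem_Ioc]
        norm_num
    _ ≤ _ := by
        push_cast
        linarith

lemma sum_bound' (hn2 : 1 < finrank ℚ K) :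
    ∑ B ∈ idl K ⌊ZK K⌋₊, (1 + Real.log (ZK K / Ideal.absNorm B)) ^ (finrank ℚ K) ≤
      Bn (finrank ℚ K) * Real.sqrt |(discr K : ℝ)| * Real.log |(discr K : ℝ)| ^ finrank ℚ K := by
  classical
  have hD3 := three_le_discr hn2
  obtain ⟨hL, hLL⟩ := loglog_lower hD3
  have hsum := deg1_sum_le' hn2
  have hmain := sum_bound hn2
  have hZdef : ZK K = 2 * Real.sqrt |(discr K : ℝ)| := rfl
  set n := finrank ℚ K with hn
  set D : ℝ := |(discr K : ℝ)| with hD
  set L := Real.log D with hLdef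
  set Z := ZK K with hZ
  have hn1 : 1 ≤ n := hn2.le
  have hAn := An_pos n hn1
  have hlogZ : Real.log Z = Real.log 2 + L / 2 := by
    rw [hZdef, Real.log_mul (by norm_num) (by positivity), Real.log_sqrt (by linarith)]
  have hlog2' : 0.69 ≤ Real.log 2 := by linarith [Real.log_two_gt_d9]
  have hS : Real.exp (∑ P ∈ deg1 K ⌊Z⌋₊, (1 : ℝ) / (Ideal.absNorm P)) ≤
      (2 * Real.exp 4) ^ n * L ^ n := by
    have h2 : Real.log Z / Real.log 2 ≤ 2 * L := by
      rw [div_le_iff₀ (by linarith), hlogZ]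
      nlinarith
    have h3 : 0 < Real.log Z / Real.log 2 := by
      apply div_pos _ (by linarith)
      rw [hlogZ]; linarith
    calc Real.exp (∑ P ∈ deg1 K ⌊Z⌋₊, (1 : ℝ) / (Ideal.absNorm P))
        ≤ Real.exp (n * (Real.log (Real.log Z / Real.log 2) + 4)) := Real.exp_le_exp.mpr hsum
      _ = (Real.log Z / Real.log 2 * Real.exp 4) ^ n := by
          rw [Real.exp_nat_mul, Real.exp_add, Real.exp_log h3]
      _ ≤ (2 * L * Real.exp 4) ^ n := by
          apply pow_le_pow_left₀ (by positivity)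
          exact mul_le_mul_of_nonneg_right h2 (Real.exp_pos 4).le
      _ = (2 * Real.exp 4) ^ n * L ^ n := by
          rw [← mul_pow]; congr 1; ring
  have hL1 : (1 : ℝ) ≤ L := by linarith
  calc _ ≤ An n * (Real.sqrt D / L) *
        Real.exp (∑ P ∈ deg1 K ⌊Z⌋₊, (1 : ℝ) / (Ideal.absNorm P)) := hmain
    _ ≤ An n * (Real.sqrt D / L) * ((2 * Real.exp 4) ^ n * L ^ n) := by
        apply mul_le_mul_of_nonneg_left hS
        positivity
    _ ≤ An n * (Real.sqrt D / 1) * ((2 * Real.exp 4) ^ n * L ^ n) := by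
        gcongr
    _ = Bn n * Real.sqrt D * L ^ n := by
        unfold Bn; ring

end sumbound

section final

variable {K M : Type*} [Field K] [NumberField K] [Field M] [NumberField M] [Algebra K M]

/-- the Ellenberg-Venkatesh bound with small unramified primes of degree one in a subfield -/
theorem ev_sub {l : ℕ} (hl : 0 < l) (hn2 : 1 < finrank ℚ M) (G : Finset ℕ) (y : ℝ) (hy1 : 1 ≤ y)
    (hG : ∀ p ∈ G, p.Prime ∧ (p : ℝ) ≤ y ∧ ∃ P : Ideal (𝓞 K), UGood P ∧ Ideal.absNorm P = p)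
    (hy : 2 * l * finrank ℚ M * Real.log y + 2 * l * finrank ℚ M * (finrank ℚ K : ℝ) ≤
      Real.log |(discr K : ℝ)|) :
    (1 + G.card : ℝ) * (Nat.card {x : ClassGroup (𝓞 M) // x ^ l = 1} : ℝ) ≤
      Bn (finrank ℚ M) * Real.sqrt |(discr M : ℝ)| * Real.log |(discr M : ℝ)| ^ finrank ℚ M := by
  classical
  refine le_trans ?_ (sum_bound' hn2)
  choose! c hc using fun p (hp : p ∈ G) => (hG p hp).2.2
  have hcinj : Set.InjOn c (G : Set ℕ) := by
    intro p hp q hq hpq
    rw [← (hc p hp).2, ← (hc q hq).2, hpq]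
  have hAcard : (insert ⊤ (G.image c)).card = G.card + 1 := by
    rw [Finset.card_insert_of_notMem, Finset.card_image_of_injOn hcinj]
    intro h
    rw [mem_image] at h
    obtain ⟨p, hp, hpt⟩ := h
    have h1 := (hc p hp).2
    rw [hpt, Ideal.absNorm_top] at h1
    exact (hG p hp).1.one_lt.ne h1
  have hAmem : ∀ P ∈ insert ⊤ (G.image c), P = ⊤ ∨
      ∃ p ∈ G, P = c p ∧ Ideal.absNorm P = p ∧ UGood P := by
    intro P hP
    rw [mem_insert, mem_image] at hP
    rcases hP with h | ⟨p, hp, h⟩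
    · exact Or.inl h
    · exact Or.inr ⟨p, hp, h.symm, h ▸ (hc p hp).2, h ▸ (hc p hp).1⟩
  have hAnorm : ∀ P ∈ insert ⊤ (G.image c), (Ideal.absNorm P : ℝ) ≤ y := by
    intro P hP
    rcases hAmem P hP with h | ⟨p, hp, _, h, _⟩
    · rw [h, Ideal.absNorm_top]; push_cast; linarith
    · rw [h]; exact (hG p hp).2.1
  have hfin := ev_count' (K := K) (M := M) hl (insert ⊤ (G.image c)) ?_ ?_ ?_
  · rw [hAcard] at hfin
    push_cast at hfin
    calc (1 + G.card : ℝ) * (Nat.card {x : ClassGroup (𝓞 M) // x ^ l = 1} : ℝ)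
        = (G.card + 1 : ℝ) * (Nat.card {x : ClassGroup (𝓞 M) // x ^ l = 1} : ℝ) := by ring
      _ ≤ _ := hfin
  · intro P hP
    rcases hAmem P hP with h | ⟨p, hp, h, h', h''⟩
    · exact Or.inl h
    · exact Or.inr h''
  · intro P hP Q hQ hPQ
    simp only at hPQ
    rcases hAmem P hP with h | ⟨p, hp, h, hNP, _⟩ <;> rcases hAmem Q hQ with h' | ⟨q, hq, h', hNQ, _⟩
    · rw [h, h']
    · exfalso
      rw [h, Ideal.absNorm_top, hNQ] at hPQ
      exact (hG q hq).1.one_lt.ne hPQ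
    · exfalso
      rw [h', Ideal.absNorm_top, hNP] at hPQ
      exact (hG p hp).1.one_lt.ne hPQ.symm
    · have : p = q := by rw [← hNP, ← hNQ, hPQ]
      rw [h, h', this]
  · intro P hP Q hQ hne
    have hPy := hAnorm P hP
    have hQy := hAnorm Q hQ
    have hy0 : 0 < y := by linarith
    have hlogy : 0 ≤ Real.log y := Real.log_nonneg hy1
    set n := finrank ℚ K with hn
    set m := finrank K M with hm
    have hnm : (finrank ℚ M : ℝ) = n * m := by
      rw [hn, hm]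
      exact_mod_cast (Module.finrank_mul_finrank ℚ K M).symm
    have hn1 : 1 ≤ n := finrank_pos
    have hm1 : 1 ≤ m := finrank_pos
    have hnr : (1 : ℝ) ≤ n := by exact_mod_cast hn1
    have hmr : (1 : ℝ) ≤ m := by exact_mod_cast hm1
    have hlr : (1 : ℝ) ≤ l := by exact_mod_cast hl
    have hD0 : (0 : ℝ) < |(discr K : ℝ)| := abs_pos.mpr (by exact_mod_cast discr_ne_zero K)
    have h1 : (2 * Real.exp (m * l)) ≤ Real.exp (2 * (m * l)) := by
      have h2 : (2 : ℝ) ≤ Real.exp (m * l) := by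
        have := Real.add_one_le_exp ((m : ℝ) * l)
        nlinarith
      rw [two_mul ((m : ℝ) * l), Real.exp_add]
      exact mul_le_mul_of_nonneg_right h2 (Real.exp_pos _).le
    have h3 : (Ideal.absNorm P : ℝ) * (Ideal.absNorm Q : ℝ) ≤ Real.exp (2 * Real.log y) := by
      rw [two_mul, Real.exp_add, Real.exp_log hy0]
      exact mul_le_mul hPy hQy (Nat.cast_nonneg _) (by positivity)
    have h4 : ((n - 1 : ℕ) : ℝ) = (n : ℝ) - 1 := by
      rw [Nat.cast_sub hn1, Nat.cast_one]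
    calc (2 * Real.exp (m * l)) ^ (n * (n - 1)) *
          ((Ideal.absNorm P : ℝ) * (Ideal.absNorm Q : ℝ)) ^ (m * l * (n - 1))
        ≤ (Real.exp (2 * (m * l))) ^ (n * (n - 1)) *
          (Real.exp (2 * Real.log y)) ^ (m * l * (n - 1)) := by
          gcongr
      _ = Real.exp (2 * (m * l) * n * ((n : ℝ) - 1) + 2 * Real.log y * m * l * ((n : ℝ) - 1)) := by
          rw [← Real.exp_nat_mul, ← Real.exp_nat_mul, ← Real.exp_add]
          congr 1
          push_cast
          rw [h4]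
          ring
      _ < Real.exp (Real.log |(discr K : ℝ)|) := by
          rw [Real.exp_lt_exp]
          refine lt_of_lt_of_le ?_ hy
          rw [hnm]
          have h5 : 0 ≤ 2 * (l : ℝ) * m * Real.log y := by positivity
          have h6 : 0 < 2 * (l : ℝ) * m * n := by positivity
          nlinarith
      _ = |(discr K : ℝ)| := Real.exp_log hD0

end final

end Pool.Agent.Lib.MP_695920_nt
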