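import Mathlib
import Pool.Agent.Lib.MP_695920_nt.EVCount

set_option autoImplicit false

open Finset NumberField Module IsDedekindDomain
open scoped nonZeroDivisors NNReal ENNReal

namespace Pool.Agent.Lib.MP_695920_nt

section one

variable {K : Type*} [Field K] [NumberField K]

omit [NumberField K] in
lemma adj_top {E : Type*} [Field E] (i1 : Algebra ℚ E) {i2 : Algebra ℚ E} {x : E}
    (h : @IntermediateField.adjoin ℚ _ E _ i1 {x} = ⊤) :
    @IntermediateField.adjoin ℚ _ E _ i2 {x} = ⊤ := by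
  have h1 : i1 = i2 := Subsingleton.elim _ _
  subst h1
  exact h

open scoped IntermediateField in
/-- the discriminant of the field generated by a quotient of small height -/
lemma sub_disc_bound {A A' : Ideal (𝓞 K)} (hA0 : A ≠ ⊥) {x y : 𝓞 K} (hx : x ≠ 0) (hy : y ≠ 0)
    (h : Ideal.span {x} * A = Ideal.span {y} * A') (X : ℝ)
    (hX : ∀ φ : K →ₐ[ℚ] ℂ, ‖φ ((x : K) / (y : K))‖ ≤ X) :
    |(discr ℚ⟮(x : K) / (y : K)⟯ : ℝ)| ≤
      (2 * X) ^ (finrank ℚ ℚ⟮(x : K) / (y : K)⟯ * (finrank ℚ ℚ⟮(x : K) / (y : K)⟯ - 1)) *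
      (Ideal.absNorm A : ℝ) ^ (2 * (finrank ℚ ℚ⟮(x : K) / (y : K)⟯ - 1)) := by
  classical
  set g : K := (x : K) / (y : K) with hg
  set F : IntermediateField ℚ K := ℚ⟮g⟯ with hF
  have hyK : (y : K) ≠ 0 := RingOfIntegers.coe_ne_zero_iff.mpr hy
  let g0 : F := ⟨g, IntermediateField.mem_adjoin_simple_self ℚ g⟩
  have hg0 : algebraMap F K g0 = g := rfl
  obtain ⟨u, v, hv0, huv⟩ := IsFractionRing.div_surjective (A := 𝓞 F) g0
  have hv : v ≠ 0 := nonZeroDivisors.ne_zero hv0
  have hvF : (v : F) ≠ 0 := RingOfIntegers.coe_ne_zero_iff.mpr hv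
  have huv' : (u : F) / (v : F) = g0 := huv
  -- the coprime factorisation
  set gg : Ideal (𝓞 F) := Ideal.span {u} ⊔ Ideal.span {v} with hgg
  have hgg0 : gg ≠ ⊥ := by
    intro h0
    have h1 : Ideal.span {v} ≤ gg := le_sup_right
    rw [h0, le_bot_iff, Ideal.span_singleton_eq_bot] at h1
    exact hv h1
  obtain ⟨U, hU⟩ : gg ∣ Ideal.span {u} := Ideal.dvd_iff_le.mpr le_sup_left
  obtain ⟨V, hV⟩ : gg ∣ Ideal.span {v} := Ideal.dvd_iff_le.mpr le_sup_right
  have hUV : U ⊔ V = ⊤ := by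
    have h1 : gg * (U ⊔ V) = gg * ⊤ := by
      rw [Ideal.mul_sup, ← hU, ← hV, Ideal.mul_top]
    exact mul_left_cancel₀ hgg0 h1
  have hV0 : V ≠ ⊥ := by
    rintro rfl
    rw [Ideal.mul_bot, Ideal.span_singleton_eq_bot] at hV
    exact hv hV
  -- in K
  have hmul : x * algebraMap (𝓞 F) (𝓞 K) v = y * algebraMap (𝓞 F) (𝓞 K) u := by
    apply RingOfIntegers.ext
    change (x : K) * algebraMap F K (v : F) = (y : K) * algebraMap F K (u : F)
    have e3 : (u : F) = g0 * (v : F) := by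
      rw [← huv', div_mul_cancel₀ _ hvF]
    have e4 : (x : K) = g * (y : K) := by
      rw [hg, div_mul_cancel₀ _ hyK]
    rw [e3, map_mul, hg0, e4]
    ring
  have hggK : ext K gg ≠ ⊥ := ext_ne_bot hgg0
  have hrel : Ideal.span {x} * ext K V = Ideal.span {y} * ext K U := by
    have h1 : Ideal.span {x} * ext K (Ideal.span {v}) = Ideal.span {y} * ext K (Ideal.span {u}) := by
      rw [ext, ext, Ideal.map_span, Ideal.map_span, Set.image_singleton, Set.image_singleton,
        Ideal.span_singleton_mul_span_singleton, Ideal.span_singleton_mul_span_singleton, hmul]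
    rw [hU, hV, ext, ext, Ideal.map_mul, Ideal.map_mul] at h1
    apply mul_left_cancel₀ hggK
    rw [ext]
    calc Ideal.map (algebraMap (𝓞 F) (𝓞 K)) gg * (Ideal.span {x} * ext K V)
        = Ideal.span {x} * (Ideal.map (algebraMap (𝓞 F) (𝓞 K)) gg * ext K V) := by ring
      _ = Ideal.span {y} * (Ideal.map (algebraMap (𝓞 F) (𝓞 K)) gg * ext K U) := h1
      _ = _ := by ring
  have hsy : Ideal.span {y} ≠ ⊥ := by rwa [Ne, Ideal.span_singleton_eq_bot]
  have hrel2 : A' * ext K V = A * ext K U := by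
    apply mul_left_cancel₀ hsy
    calc Ideal.span {y} * (A' * ext K V) = (Ideal.span {y} * A') * ext K V := by ring
      _ = (Ideal.span {x} * A) * ext K V := by rw [h]
      _ = (Ideal.span {x} * ext K V) * A := by ring
      _ = (Ideal.span {y} * ext K U) * A := by rw [hrel]
      _ = _ := by ring
  have hcop : IsCoprime (ext K V) (ext K U) := by
    rw [Ideal.isCoprime_iff_sup_eq, ext, ext, ← Ideal.map_sup, sup_comm, hUV, Ideal.map_top]
  have hdvd : ext K V ∣ A := by
    apply hcop.dvd_of_dvd_mul_right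
    rw [← hrel2]
    exact dvd_mul_left _ _
  have hnorm : Ideal.absNorm V ≤ Ideal.absNorm A := by
    have h1 : Ideal.absNorm (ext K V) ≤ Ideal.absNorm A :=
      Nat.le_of_dvd (absNorm_pos_of_ne_bot hA0)
        (Ideal.absNorm_dvd_absNorm_of_le (Ideal.le_of_dvd hdvd))
    rw [absNorm_ext] at h1
    refine le_trans ?_ h1
    exact Nat.le_self_pow (finrank_pos).ne' _
  -- apply the discriminant bound in F
  have hspan : Ideal.span {u} * V ^ 1 = Ideal.span {v} * U ^ 1 := by
    rw [pow_one, pow_one]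
    calc Ideal.span {u} * V = (gg * U) * V := by rw [← hU]
      _ = (gg * V) * U := by ring
      _ = _ := by rw [← hV]
  have hgen : ℚ⟮(u : F) / (v : F)⟯ = ⊤ := by
    rw [huv']
    apply adj_top F.algebra'
    apply IntermediateField.lift_injective F
    rw [IntermediateField.lift_adjoin_simple, IntermediateField.lift_top]
  have h2 := disc_bound (K := F) hV0 hv hspan hgen X (by
    intro φ
    rw [huv']
    obtain ⟨ψ, hψ⟩ : ∃ ψ : K →ₐ[ℚ] ℂ, ψ.comp F.val = φ :=
      IntermediateField.exists_algHom_of_adjoin_splits (S := Set.univ)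
        (fun s _ => ⟨Algebra.IsIntegral.isIntegral s, IsAlgClosed.splits _⟩) φ
        (IntermediateField.adjoin_univ ℚ K)
    rw [← hψ]
    exact hX ψ)
  rw [mul_one] at h2
  refine h2.trans ?_
  have hX0 : 0 ≤ X := by
    obtain ⟨φ0⟩ : Nonempty (K →ₐ[ℚ] ℂ) := by
      rw [← Fintype.card_pos_iff, AlgHom.card]
      exact finrank_pos
    exact (norm_nonneg _).trans (hX φ0)
  apply mul_le_mul_of_nonneg_left _ (by positivity)
  exact pow_le_pow_left₀ (Nat.cast_nonneg _) (by exact_mod_cast hnorm) _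

/-- the norms of the two ideals bounded by `Y`, and the conjugates bounded in terms of norms -/
lemma sub_disc_bound' {A A' : Ideal (𝓞 K)} (hA0 : A ≠ ⊥) (hA'0 : A' ≠ ⊥) {x y : 𝓞 K} (hx : x ≠ 0)
    (hy : y ≠ 0) (h : Ideal.span {x} * A = Ideal.span {y} * A') (c Y : ℝ) (hc : 1 ≤ c)
    (hAY : (Ideal.absNorm A : ℝ) ≤ Y) (hA'Y : (Ideal.absNorm A' : ℝ) ≤ Y)
    (hnq : (x : K) / (y : K) ∉ (⊥ : IntermediateField ℚ K))
    (hX : ∀ φ : K →ₐ[ℚ] ℂ, ‖φ ((x : K) / (y : K))‖ ≤
      c * ((Ideal.absNorm A' : ℝ) / Ideal.absNorm A) ^ ((1 : ℝ) / finrank ℚ K)) :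
    ∃ F : IntermediateField ℚ K, F ≠ ⊥ ∧ |(discr F : ℝ)| ≤
      (2 * c) ^ (finrank ℚ K * (finrank ℚ K - 1)) * Y ^ (2 * (finrank ℚ K - 1)) := by
  classical
  have hNA : (0 : ℝ) < Ideal.absNorm A := by exact_mod_cast absNorm_pos_of_ne_bot hA0
  have hNA' : (0 : ℝ) < Ideal.absNorm A' := by exact_mod_cast absNorm_pos_of_ne_bot hA'0
  have hNA1 : (1 : ℝ) ≤ Ideal.absNorm A := by exact_mod_cast absNorm_pos_of_ne_bot hA0
  have hNA'1 : (1 : ℝ) ≤ Ideal.absNorm A' := by exact_mod_cast absNorm_pos_of_ne_bot hA'0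
  have hY1 : 1 ≤ Y := hNA1.trans hAY
  have h1 := sub_disc_bound hA0 hx hy h _ hX
  set F : IntermediateField ℚ K := IntermediateField.adjoin ℚ {(x : K) / (y : K)} with hF
  have hFbot : F ≠ ⊥ := by
    intro h0
    apply hnq
    rw [← h0]
    exact IntermediateField.mem_adjoin_simple_self ℚ _
  refine ⟨F, hFbot, h1.trans ?_⟩
  set d := finrank ℚ F with hd
  set n := finrank ℚ K with hn
  have hdn : d ≤ n := by
    have h3 := finrank_mul_finrank ℚ F K
    rw [hd, hn, ← h3]
    exact Nat.le_mul_of_pos_right _ finrank_pos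
  have hd0 : 0 < d := finrank_pos
  have hn0 : 0 < n := finrank_pos
  have hnr : (0 : ℝ) < n := by exact_mod_cast hn0
  rw [← mul_assoc, mul_pow]
  have hA1 : (2 * c) ^ (d * (d - 1)) ≤ (2 * c) ^ (n * (n - 1)) := by
    apply pow_le_pow_right₀ (by linarith)
    exact Nat.mul_le_mul hdn (Nat.sub_le_sub_right hdn 1)
  have hB : (((Ideal.absNorm A' : ℝ) / Ideal.absNorm A) ^ ((1 : ℝ) / n)) ^ (d * (d - 1)) *
      (Ideal.absNorm A : ℝ) ^ (2 * (d - 1)) ≤ Y ^ (2 * (d - 1)) := by
    have h2 : (((Ideal.absNorm A' : ℝ) / Ideal.absNorm A) ^ ((1 : ℝ) / n)) ^ d ≤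
        max 1 ((Ideal.absNorm A' : ℝ) / Ideal.absNorm A) := by
      rw [← Real.rpow_natCast, ← Real.rpow_mul (by positivity)]
      rcases le_total ((Ideal.absNorm A' : ℝ) / Ideal.absNorm A) 1 with h3 | h3
      · refine le_trans ?_ (le_max_left _ _)
        exact Real.rpow_le_one (by positivity) h3 (by positivity)
      · refine le_trans ?_ (le_max_right _ _)
        calc ((Ideal.absNorm A' : ℝ) / Ideal.absNorm A) ^ ((1 : ℝ) / n * d) ≤
            ((Ideal.absNorm A' : ℝ) / Ideal.absNorm A) ^ (1 : ℝ) := by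
              apply Real.rpow_le_rpow_of_exponent_le h3
              have h4 : (d : ℝ) ≤ n := by exact_mod_cast hdn
              rw [one_div_mul_eq_div, div_le_one hnr]
              exact h4
          _ = _ := Real.rpow_one _
    rw [pow_mul, pow_mul]
    rw [← mul_pow]
    rw [pow_mul]
    apply pow_le_pow_left₀ (by positivity)
    calc (((Ideal.absNorm A' : ℝ) / Ideal.absNorm A) ^ ((1 : ℝ) / n)) ^ d *
        (Ideal.absNorm A : ℝ) ^ 2 ≤
        max 1 ((Ideal.absNorm A' : ℝ) / Ideal.absNorm A) * (Ideal.absNorm A : ℝ) ^ 2 :=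
          mul_le_mul_of_nonneg_right h2 (by positivity)
      _ ≤ Y ^ 2 := by
          rcases max_choice 1 ((Ideal.absNorm A' : ℝ) / Ideal.absNorm A) with h3 | h3
          · rw [h3, one_mul]
            exact pow_le_pow_left₀ hNA.le hAY 2
          · rw [h3]
            have h4 : (Ideal.absNorm A' : ℝ) / Ideal.absNorm A * (Ideal.absNorm A : ℝ) ^ 2 =
                Ideal.absNorm A' * Ideal.absNorm A := by
              field_simp
            rw [h4, sq]
            exact mul_le_mul hA'Y hAY hNA.le (by linarith)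
  calc (2 * c) ^ (d * (d - 1)) *
        (((Ideal.absNorm A' : ℝ) / Ideal.absNorm A) ^ ((1 : ℝ) / n)) ^ (d * (d - 1)) *
        (Ideal.absNorm A : ℝ) ^ (2 * (d - 1))
      = (2 * c) ^ (d * (d - 1)) *
        ((((Ideal.absNorm A' : ℝ) / Ideal.absNorm A) ^ ((1 : ℝ) / n)) ^ (d * (d - 1)) *
        (Ideal.absNorm A : ℝ) ^ (2 * (d - 1))) := by ring
    _ ≤ (2 * c) ^ (n * (n - 1)) * Y ^ (2 * (d - 1)) :=
        mul_le_mul hA1 hB (by positivity) (by positivity)
    _ ≤ (2 * c) ^ (n * (n - 1)) * Y ^ (2 * (n - 1)) := by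
        apply mul_le_mul_of_nonneg_left _ (by positivity)
        apply pow_le_pow_right₀ hY1
        omega

end one

end Pool.Agent.Lib.MP_695920_nt
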