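import Mathlib
import Pool.Agent.Lib.MP_695920_nt.EVG

set_option autoImplicit false

open Finset NumberField Module IsDedekindDomain
open scoped nonZeroDivisors NNReal ENNReal

namespace Pool.Agent.Lib.MP_695920_nt

section one

variable {K : Type*} [Field K] [NumberField K]

/-- the quotient is not rational -/
lemma not_rat {A A' : Ideal (𝓞 K)} {k : ℕ} (hk : 0 < k) (hA0 : A ≠ ⊥) (hA'0 : A' ≠ ⊥)
    {x y : 𝓞 K} (hx : x ≠ 0) (hy : y ≠ 0)
    (h : Ideal.span {x} * A ^ k = Ideal.span {y} * A' ^ k) {p : ℕ} (hp : p.Prime)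
    {R1 R2 : Ideal (𝓞 K)} (hR1 : R1.IsPrime) (hR2 : R2.IsPrime) (hm1 : (p : 𝓞 K) ∈ R1)
    (hm2 : (p : 𝓞 K) ∈ R2) (hA2 : ¬ R2 ∣ A) (hA'2 : ¬ R2 ∣ A')
    (hmul : emultiplicity R1 A ≠ emultiplicity R1 A') :
    (x : K) / (y : K) ∉ (⊥ : IntermediateField ℚ K) := by
  classical
  have hne_bot : ∀ R : Ideal (𝓞 K), (p : 𝓞 K) ∈ R → R ≠ ⊥ := by
    rintro R hR rfl
    rw [Ideal.mem_bot] at hR
    exact hp.ne_zero (by exact_mod_cast hR)
  have hP1 : Prime R1 := Ideal.prime_of_isPrime (hne_bot R1 hm1) hR1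
  have hP2 : Prime R2 := Ideal.prime_of_isPrime (hne_bot R2 hm2) hR2
  intro hmem
  rw [IntermediateField.mem_bot] at hmem
  obtain ⟨q, hq⟩ := hmem
  have hyK : (y : K) ≠ 0 := RingOfIntegers.coe_ne_zero_iff.mpr hy
  have hxK : (x : K) ≠ 0 := RingOfIntegers.coe_ne_zero_iff.mpr hx
  have hq0 : q ≠ 0 := by
    rintro rfl
    rw [map_zero] at hq
    have := (div_eq_zero_iff.mp hq.symm)
    tauto
  set u : ℤ := q.num with hu
  set v : ℤ := (q.den : ℤ) with hv
  have hv0 : v ≠ 0 := by rw [hv]; exact_mod_cast q.den_ne_zero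
  have hu0 : u ≠ 0 := Rat.num_ne_zero.mpr hq0
  have hcop : IsCoprime u v := by
    rw [Int.isCoprime_iff_gcd_eq_one]
    exact q.reduced
  have hrel : x * (v : 𝓞 K) = y * (u : 𝓞 K) := by
    apply RingOfIntegers.ext
    have e1 : (algebraMap ℚ K) q = (u : K) / (v : K) := by
      rw [eq_ratCast, Rat.cast_def, hu, hv]
      push_cast
      rfl
    rw [e1] at hq
    have hvK : (v : K) ≠ 0 := by exact_mod_cast hv0
    rw [div_eq_div_iff hvK hyK] at hq
    have c1 : (((v : ℤ) : 𝓞 K) : K) = (v : K) := map_intCast (algebraMap (𝓞 K) K) v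
    have c2 : (((u : ℤ) : 𝓞 K) : K) = (u : K) := map_intCast (algebraMap (𝓞 K) K) u
    change (x : K) * (((v : ℤ) : 𝓞 K) : K) = (y : K) * (((u : ℤ) : 𝓞 K) : K)
    rw [c1, c2]
    linear_combination -hq
  have hspx : Ideal.span {x} ≠ ⊥ := by rwa [Ne, Ideal.span_singleton_eq_bot]
  have hspy : Ideal.span {y} ≠ ⊥ := by rwa [Ne, Ideal.span_singleton_eq_bot]
  have hid : A' ^ k * Ideal.span {(v : 𝓞 K)} = Ideal.span {(u : 𝓞 K)} * A ^ k := by
    apply mul_left_cancel₀ hspy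
    calc Ideal.span {y} * (A' ^ k * Ideal.span {(v : 𝓞 K)})
        = (Ideal.span {y} * A' ^ k) * Ideal.span {(v : 𝓞 K)} := by ring
      _ = (Ideal.span {x} * A ^ k) * Ideal.span {(v : 𝓞 K)} := by rw [h]
      _ = (Ideal.span {x} * Ideal.span {(v : 𝓞 K)}) * A ^ k := by ring
      _ = (Ideal.span {y} * Ideal.span {(u : 𝓞 K)}) * A ^ k := by
          rw [Ideal.span_singleton_mul_span_singleton, Ideal.span_singleton_mul_span_singleton, hrel]
      _ = _ := by ring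
  -- membership of integers
  have hnotboth : ∀ R : Ideal (𝓞 K), R.IsPrime → (p : 𝓞 K) ∈ R → ∀ a : ℤ,
      Ideal.span {(a : 𝓞 K)} ≠ ⊥ → (R ∣ Ideal.span {(a : 𝓞 K)} ↔ (p : ℤ) ∣ a) := by
    intro R hR hmR a _
    rw [Ideal.dvd_span_singleton]
    constructor
    · intro ha
      by_contra hpa
      have h1 : IsCoprime (p : ℤ) a := by
        rw [Prime.coprime_iff_not_dvd (Nat.prime_iff_prime_int.mp hp)]
        exact hpa
      obtain ⟨s, t, hst⟩ := h1
      apply hR.ne_top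
      rw [Ideal.eq_top_iff_one]
      have h2 : (1 : 𝓞 K) = (s : 𝓞 K) * (p : 𝓞 K) + (t : 𝓞 K) * (a : 𝓞 K) := by
        have := congrArg (fun z : ℤ => (z : 𝓞 K)) hst
        push_cast at this
        exact this.symm
      rw [h2]
      exact R.add_mem (R.mul_mem_left _ hmR) (R.mul_mem_left _ ha)
    · rintro ⟨b, rfl⟩
      push_cast
      exact R.mul_mem_right _ hmR
  have hsu : Ideal.span {(u : 𝓞 K)} ≠ ⊥ := by
    rw [Ne, Ideal.span_singleton_eq_bot]; exact_mod_cast hu0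
  have hsv : Ideal.span {(v : 𝓞 K)} ≠ ⊥ := by
    rw [Ne, Ideal.span_singleton_eq_bot]; exact_mod_cast hv0
  have hnb : ¬ ((p : ℤ) ∣ u ∧ (p : ℤ) ∣ v) := by
    rintro ⟨h1, h2⟩
    have h3 := hcop.isUnit_of_dvd' h1 h2
    exact (Nat.prime_iff_prime_int.mp hp).not_isUnit h3
  have hpu : ¬ (p : ℤ) ∣ u := by
    intro hpu
    have hpv : ¬ (p : ℤ) ∣ v := fun h2 => hnb ⟨hpu, h2⟩
    have h1 : R2 ∣ A' ^ k * Ideal.span {(v : 𝓞 K)} := by
      rw [hid]
      exact Dvd.dvd.mul_right ((hnotboth R2 hR2 hm2 u hsu).mpr hpu) _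
    rcases hP2.dvd_or_dvd h1 with h2 | h2
    · exact hA'2 (hP2.dvd_of_dvd_pow h2)
    · exact hpv ((hnotboth R2 hR2 hm2 v hsv).mp h2)
  have hpv : ¬ (p : ℤ) ∣ v := by
    intro hpv
    have h1 : R2 ∣ Ideal.span {(u : 𝓞 K)} * A ^ k := by
      rw [← hid]
      exact Dvd.dvd.mul_left ((hnotboth R2 hR2 hm2 v hsv).mpr hpv) _
    rcases hP2.dvd_or_dvd h1 with h2 | h2
    · exact hpu ((hnotboth R2 hR2 hm2 u hsu).mp h2)
    · exact hA2 (hP2.dvd_of_dvd_pow h2)
  have e1 : emultiplicity R1 (Ideal.span {(u : 𝓞 K)}) = 0 :=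
    emultiplicity_eq_zero.mpr (fun h2 => hpu ((hnotboth R1 hR1 hm1 u hsu).mp h2))
  have e2 : emultiplicity R1 (Ideal.span {(v : 𝓞 K)}) = 0 :=
    emultiplicity_eq_zero.mpr (fun h2 => hpv ((hnotboth R1 hR1 hm1 v hsv).mp h2))
  have e3 := congrArg (emultiplicity R1) hid
  rw [emultiplicity_mul hP1, emultiplicity_mul hP1, emultiplicity_pow hP1, emultiplicity_pow hP1,
    e1, e2, add_zero, zero_add] at e3
  apply hmul
  have hfA : FiniteMultiplicity R1 A := FiniteMultiplicity.of_prime_left hP1 hA0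
  have hfA' : FiniteMultiplicity R1 A' := FiniteMultiplicity.of_prime_left hP1 hA'0
  rw [hfA.emultiplicity_eq_multiplicity, hfA'.emultiplicity_eq_multiplicity] at e3 ⊢
  have e4 : k * multiplicity R1 A' = k * multiplicity R1 A := by exact_mod_cast e3
  have e5 := Nat.eq_of_mul_eq_mul_left hk e4
  rw [e5]

/-- products of prime ideals indexed by prime numbers -/
noncomputable def prodI (P : ℕ → Ideal (𝓞 K)) (m : ℕ) : Ideal (𝓞 K) :=
  m.factorization.prod (fun p e => P p ^ e)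

variable {P : ℕ → Ideal (𝓞 K)}

lemma P_ne_bot {p : ℕ} (hp : p.Prime) {R : Ideal (𝓞 K)} (hR : (p : 𝓞 K) ∈ R) : R ≠ ⊥ := by
  rintro rfl
  rw [Ideal.mem_bot] at hR
  exact hp.ne_zero (by exact_mod_cast hR)

omit [NumberField K] in
lemma not_dvd_of_ne {p q : ℕ} (hp : p.Prime) (hq : q.Prime) (hpq : p ≠ q) {R S : Ideal (𝓞 K)}
    (hR : R.IsPrime) (hRp : (p : 𝓞 K) ∈ R) (hSq : (q : 𝓞 K) ∈ S) : ¬ R ∣ S := by
  intro h
  have h1 : (q : 𝓞 K) ∈ R := (Ideal.le_of_dvd h) hSq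
  have h2 : IsCoprime (p : ℤ) (q : ℤ) := Nat.isCoprime_iff_coprime.mpr
    ((Nat.coprime_primes hp hq).mpr hpq)
  obtain ⟨s, t, hst⟩ := h2
  apply hR.ne_top
  rw [Ideal.eq_top_iff_one]
  have h3 : (1 : 𝓞 K) = (s : 𝓞 K) * (p : 𝓞 K) + (t : 𝓞 K) * (q : 𝓞 K) := by
    have := congrArg (fun z : ℤ => (z : 𝓞 K)) hst
    push_cast at this
    exact this.symm
  rw [h3]
  exact R.add_mem (R.mul_mem_left _ hRp) (R.mul_mem_left _ h1)

lemma prodI_ne_bot {m : ℕ} (hP : ∀ p, p.Prime → p ∣ m → (p : 𝓞 K) ∈ P p) :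
    prodI P m ≠ ⊥ := by
  unfold prodI Finsupp.prod
  rw [← Ideal.zero_eq_bot, Finset.prod_ne_zero_iff]
  intro p hp
  have hp' := Nat.prime_of_mem_primeFactors (Nat.support_factorization m ▸ hp)
  have hpm := Nat.dvd_of_mem_primeFactors (Nat.support_factorization m ▸ hp)
  exact pow_ne_zero _ (P_ne_bot hp' (hP p hp' hpm))

lemma absNorm_prodI {n m : ℕ} (hm : m ≠ 0)
    (hN : ∀ p, p.Prime → p ∣ m → Ideal.absNorm (P p) ^ 2 ≤ p ^ n) :
    Ideal.absNorm (prodI P m) ^ 2 ≤ m ^ n := by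
  unfold prodI Finsupp.prod
  rw [map_prod, ← Finset.prod_pow]
  have h1 : m ^ n = ∏ p ∈ m.factorization.support, (p ^ n) ^ (m.factorization p) := by
    conv_lhs => rw [← Nat.prod_factorization_pow_eq_self hm]
    unfold Finsupp.prod
    rw [← Finset.prod_pow]
    apply Finset.prod_congr rfl
    intro p _
    rw [← pow_mul, ← pow_mul, mul_comm]
  rw [h1]
  apply Finset.prod_le_prod' 
  intro p hp
  have hp' := Nat.prime_of_mem_primeFactors (Nat.support_factorization m ▸ hp)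
  have hpm := Nat.dvd_of_mem_primeFactors (Nat.support_factorization m ▸ hp)
  rw [map_pow, ← pow_mul, mul_comm, pow_mul]
  exact Nat.pow_le_pow_left (hN p hp' hpm) _

/-- the multiplicity of a prime above `p` in the product -/
lemma emult_prodI {m p : ℕ} (hp : p.Prime) {R : Ideal (𝓞 K)} (hR : R.IsPrime)
    (hRp : (p : 𝓞 K) ∈ R)
    (hP : ∀ q, q.Prime → q ∣ m → (q : 𝓞 K) ∈ P q) :
    emultiplicity R (prodI P m) = (m.factorization p : ℕ∞) * emultiplicity R (P p) := by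
  have hR' : Prime R := Ideal.prime_of_isPrime (P_ne_bot hp hRp) hR
  have hother : ∀ q ∈ m.factorization.support, q ≠ p →
      emultiplicity R (P q ^ m.factorization q) = 0 := by
    intro q hq hqp
    have hq' := Nat.prime_of_mem_primeFactors (Nat.support_factorization m ▸ hq)
    have hqm := Nat.dvd_of_mem_primeFactors (Nat.support_factorization m ▸ hq)
    rw [emultiplicity_eq_zero]
    intro h
    exact not_dvd_of_ne hp hq' hqp.symm hR hRp (hP q hq' hqm) (hR'.dvd_of_dvd_pow h)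
  by_cases hpm : p ∈ m.factorization.support
  · unfold prodI Finsupp.prod
    rw [Finset.emultiplicity_prod hR', Finset.sum_eq_single p]
    · rw [emultiplicity_pow hR']
    · intro q hq hqp
      exact hother q hq hqp
    · intro h; exact absurd hpm h
  · have h0 : m.factorization p = 0 := Finsupp.notMem_support_iff.mp hpm
    rw [h0, Nat.cast_zero, zero_mul]
    unfold prodI Finsupp.prod
    rw [Finset.emultiplicity_prod hR']
    apply Finset.sum_eq_zero
    intro q hq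
    apply hother q hq
    rintro rfl
    exact hpm hq

end one

end Pool.Agent.Lib.MP_695920_nt
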