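import Mathlib
import Pool.Agent.Lib.MP_695920_nt.EVG2

set_option autoImplicit false

open Finset NumberField Module IsDedekindDomain
open scoped nonZeroDivisors NNReal ENNReal

namespace Pool.Agent.Lib.MP_695920_nt

section two

variable {K M : Type*} [Field K] [NumberField K] [Field M] [NumberField M] [Algebra K M]

/-- Two pairs with the same ideal and close positions have the same small ideal. -/
lemma pair_collisionG {l : ℕ} (hl : 0 < l) {P Q : Ideal (𝓞 K)} {B : Ideal (𝓞 M)}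
    (hP0 : P ≠ ⊥) (hQ0 : Q ≠ ⊥)
    (hnr : ∀ x y : 𝓞 K, x ≠ 0 → y ≠ 0 → Ideal.span {x} * P ^ (finrank K M * l) =
      Ideal.span {y} * Q ^ (finrank K M * l) → (x : K) / (y : K) ∉ (⊥ : IntermediateField ℚ K))
    (Y : ℝ) (hPY : (Ideal.absNorm P : ℝ) ≤ Y) (hQY : (Ideal.absNorm Q : ℝ) ≤ Y)
    {a b a' b' : 𝓞 M} (ha : a ≠ 0) (hb : b ≠ 0) (ha' : a' ≠ 0) (hb' : b' ≠ 0)
    (h : Ideal.span {b} * B ^ l = Ideal.span {a} * ext M P ^ l)
    (h' : Ideal.span {b'} * B ^ l = Ideal.span {a'} * ext M Q ^ l)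
    (hclose : ∀ w : InfinitePlace M, spos l (ext M Q) a' b' w - spos l (ext M P) a b w ≤ 1) :
    ∃ F : IntermediateField ℚ K, F ≠ ⊥ ∧ |(discr F : ℝ)| ≤
      (2 * Real.exp (finrank K M * l)) ^ (finrank ℚ K * (finrank ℚ K - 1)) *
      (Y ^ (finrank K M * l)) ^ (2 * (finrank ℚ K - 1)) := by
  set n := finrank ℚ K with hn
  set m := finrank K M with hm
  have hnm : (finrank ℚ M : ℝ) = n * m := by
    rw [hn, hm]
    exact_mod_cast (Module.finrank_mul_finrank ℚ K M).symm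
  have hNP : (0 : ℝ) < Ideal.absNorm P := by exact_mod_cast absNorm_pos_of_ne_bot hP0
  have hNQ : (0 : ℝ) < Ideal.absNorm Q := by exact_mod_cast absNorm_pos_of_ne_bot hQ0
  have hPe0 := ext_ne_bot (M := M) hP0
  have hQe0 := ext_ne_bot (M := M) hQ0
  have hNPe : (0 : ℝ) < Ideal.absNorm (ext M P) := by exact_mod_cast absNorm_pos_of_ne_bot hPe0
  have hNQe : (0 : ℝ) < Ideal.absNorm (ext M Q) := by exact_mod_cast absNorm_pos_of_ne_bot hQe0
  have hnR : (0 : ℝ) < (n : ℝ) := by exact_mod_cast finrank_pos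
  have hmpos : 0 < m := finrank_pos
  have hmR : (0 : ℝ) < (m : ℝ) := by exact_mod_cast hmpos
  have hlR : (0 : ℝ) < l := by exact_mod_cast hl
  have hx : a * b' ≠ 0 := mul_ne_zero ha hb'
  have hy : a' * b ≠ 0 := mul_ne_zero ha' hb
  have hrel : Ideal.span {a * b'} * ext M P ^ l = Ideal.span {a' * b} * ext M Q ^ l := by
    rw [← Ideal.span_singleton_mul_span_singleton, ← Ideal.span_singleton_mul_span_singleton]
    calc Ideal.span {a} * Ideal.span {b'} * ext M P ^ l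
        = Ideal.span {b'} * (Ideal.span {a} * ext M P ^ l) := by ring
      _ = Ideal.span {b'} * (Ideal.span {b} * B ^ l) := by rw [h]
      _ = Ideal.span {b} * (Ideal.span {b'} * B ^ l) := by ring
      _ = Ideal.span {b} * (Ideal.span {a'} * ext M Q ^ l) := by rw [h']
      _ = _ := by ring
  set X : ℝ := Real.exp l * ((Ideal.absNorm (ext M Q) : ℝ) / Ideal.absNorm (ext M P)) ^
    ((l : ℝ) / finrank ℚ M) with hX
  have hXb : ∀ φ : M →ₐ[ℚ] ℂ, ‖φ (((a * b' : 𝓞 M) : M) / ((a' * b : 𝓞 M) : M))‖ ≤ X := by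
    intro φ
    set w : InfinitePlace M := InfinitePlace.mk φ.toRingHom with hw
    have h1 : ‖φ (((a * b' : 𝓞 M) : M) / ((a' * b : 𝓞 M) : M))‖ =
        w (((a * b' : 𝓞 M) : M) / ((a' * b : 𝓞 M) : M)) := rfl
    rw [h1, map_div₀]
    push_cast
    rw [map_mul, map_mul]
    have wa := infinitePlace_pos (w := w) ha
    have wb := infinitePlace_pos (w := w) hb
    have wa' := infinitePlace_pos (w := w) ha'
    have wb' := infinitePlace_pos (w := w) hb'
    have h2 := hclose w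
    unfold spos at h2
    have hnM : (0 : ℝ) < (finrank ℚ M : ℝ) := by exact_mod_cast finrank_pos
    set N : ℝ := (finrank ℚ M : ℝ) with hN
    rw [Real.log_div ZK_pos.ne' hNPe.ne', Real.log_div ZK_pos.ne' hNQe.ne'] at h2
    rw [← Real.log_le_log_iff (by positivity) (by positivity), hX,
      Real.log_mul (Real.exp_pos _).ne' (by positivity), Real.log_exp,
      Real.log_rpow (by positivity), Real.log_div hNQe.ne' hNPe.ne',
      Real.log_div (by positivity) (by positivity), Real.log_mul wa.ne' wb'.ne',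
      Real.log_mul wa'.ne' wb.ne']
    have h3 : (l : ℝ) * ((1 / N) * (Real.log (ZK M) - Real.log (Ideal.absNorm (ext M Q))) -
        (1 / (l : ℝ)) * (Real.log (w (a' : M)) - Real.log (w (b' : M))) -
        ((1 / N) * (Real.log (ZK M) - Real.log (Ideal.absNorm (ext M P))) -
        (1 / (l : ℝ)) * (Real.log (w (a : M)) - Real.log (w (b : M))))) ≤ l * 1 :=
      mul_le_mul_of_nonneg_left h2 hlR.le
    have h4 : (l : ℝ) * ((1 / N) * (Real.log (ZK M) - Real.log (Ideal.absNorm (ext M Q))) -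
        (1 / (l : ℝ)) * (Real.log (w (a' : M)) - Real.log (w (b' : M))) -
        ((1 / N) * (Real.log (ZK M) - Real.log (Ideal.absNorm (ext M P))) -
        (1 / (l : ℝ)) * (Real.log (w (a : M)) - Real.log (w (b : M))))) =
        ((l : ℝ) / N) * (Real.log (Ideal.absNorm (ext M P)) - Real.log (Ideal.absNorm (ext M Q))) +
        (Real.log (w (a : M)) + Real.log (w (b' : M)) -
          (Real.log (w (a' : M)) + Real.log (w (b : M)))) := by
      field_simp
      ring
    rw [h4] at h3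
    linarith
  have hx' : Algebra.intNorm (𝓞 K) (𝓞 M) (a * b') ≠ 0 := by
    rw [Ne, Algebra.intNorm_eq_zero]; exact hx
  have hy' : Algebra.intNorm (𝓞 K) (𝓞 M) (a' * b) ≠ 0 := by
    rw [Ne, Algebra.intNorm_eq_zero]; exact hy
  have hXm : X ^ m = Real.exp (m * l) *
      ((Ideal.absNorm (Q ^ (m * l)) : ℝ) / Ideal.absNorm (P ^ (m * l))) ^ ((1 : ℝ) / n) := by
    rw [hX, mul_pow, ← Real.exp_nat_mul, absNorm_ext, absNorm_ext, ← hm, map_pow, map_pow]
    congr 1
    push_cast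
    rw [← div_pow, ← div_pow, ← Real.rpow_natCast _ m, ← Real.rpow_mul (by positivity),
      ← Real.rpow_natCast _ m, ← Real.rpow_mul (by positivity), ← Real.rpow_natCast _ (m * l),
      ← Real.rpow_mul (by positivity), hnm]
    congr 1
    push_cast
    field_simp
  have hpowY : ∀ R : Ideal (𝓞 K), (Ideal.absNorm R : ℝ) ≤ Y →
      (Ideal.absNorm (R ^ (m * l)) : ℝ) ≤ Y ^ (m * l) := by
    intro R hR
    rw [map_pow]
    push_cast
    exact pow_le_pow_left₀ (Nat.cast_nonneg _) hR _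
  have hb1 := norm_bound (K := K) (a * b') (a' * b) X hXb
  rw [← hm, hXm] at hb1
  exact sub_disc_bound' (pow_ne_zero _ hP0) (pow_ne_zero _ hQ0) hx' hy' (norm_rel hrel)
    (Real.exp (m * l)) (Y ^ (m * l)) (Real.one_le_exp (by positivity)) (hpowY P hPY) (hpowY Q hQY)
    (hnr _ _ hx' hy' (norm_rel hrel)) hb1

open InfinitePlace in
/-- The Ellenberg-Venkatesh counting inequality, with prime ideals of a subfield. -/
theorem ev_countG {l : ℕ} (hl : 0 < l) (AA : Finset (Ideal (𝓞 K)))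
    (hAAne : ∀ P ∈ AA, P ≠ ⊥)
    (hnr : ∀ P ∈ AA, ∀ Q ∈ AA, P ≠ Q → ∀ x y : 𝓞 K, x ≠ 0 → y ≠ 0 →
      Ideal.span {x} * P ^ (finrank K M * l) = Ideal.span {y} * Q ^ (finrank K M * l) →
        (x : K) / (y : K) ∉ (⊥ : IntermediateField ℚ K))
    (Y : ℝ) (hY : ∀ P ∈ AA, (Ideal.absNorm P : ℝ) ≤ Y)
    (hsmall : ∀ F : IntermediateField ℚ K, F ≠ ⊥ →
      (2 * Real.exp (finrank K M * l)) ^ (finrank ℚ K * (finrank ℚ K - 1)) *
      (Y ^ (finrank K M * l)) ^ (2 * (finrank ℚ K - 1)) < |(discr F : ℝ)|) :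
    (AA.card : ℝ) * (Nat.card {x : ClassGroup (𝓞 M) // x ^ l = 1} : ℝ) ≤
      ∑ B ∈ idl M ⌊ZK M⌋₊, (1 + Real.log (ZK M / Ideal.absNorm B)) ^ (finrank ℚ M) := by
  classical
  set n := finrank ℚ M with hn
  have hAA0 : ∀ P ∈ AA, ext M P ≠ ⊥ := by
    intro P hP
    exact ext_ne_bot (hAAne P hP)
  -- the source
  let C := {x : ClassGroup (𝓞 M) // x ^ l = 1}
  have hex : ∀ x : C × AA, ∃ (B : (Ideal (𝓞 M))⁰) (a b : 𝓞 M), a ≠ 0 ∧ b ≠ 0 ∧
      ClassGroup.mk0 B = x.1.1 * ClassGroup.mk0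
        (⟨ext M x.2.1, mem_nonZeroDivisors_of_ne_zero (hAA0 x.2.1 x.2.2)⟩ : (Ideal (𝓞 M))⁰) ∧
      (Ideal.absNorm (B : Ideal (𝓞 M)) : ℝ) < ZK M ∧
      Ideal.span {b} * (B : Ideal (𝓞 M)) ^ l = Ideal.span {a} * ext M x.2.1 ^ l ∧
      ∀ w : InfinitePlace M, w (a : M) <
        (ZK M / Ideal.absNorm (ext M x.2.1)) ^ ((l : ℝ) / finrank ℚ M) * w (b : M) := by
    intro x
    exact pair_exists hl ⟨ext M x.2.1, mem_nonZeroDivisors_of_ne_zero (hAA0 x.2.1 x.2.2)⟩ x.1.1 x.1.2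
  choose B a b ha hb hclass hBZ hrel hplace using hex
  have hB0 : ∀ x, (B x : Ideal (𝓞 M)) ≠ ⊥ := fun x => nonZeroDivisors.coe_ne_zero (B x)
  let Φ : C × AA → (Σ _ : Ideal (𝓞 M), (InfinitePlace M → ℕ)) := fun x =>
    ⟨(B x : Ideal (𝓞 M)), fun w => ⌊spos l (ext M x.2.1) (a x) (b x) w⌋₊⟩
  let T : Finset (Σ _ : Ideal (𝓞 M), (InfinitePlace M → ℕ)) :=
    (idl M ⌊ZK M⌋₊).sigma (fun B => Fintype.piFinset
      (fun _ : InfinitePlace M => Finset.range (⌊Real.log (ZK M / Ideal.absNorm B)⌋₊ + 1)))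
  have hmaps : ∀ x, Φ x ∈ T := by
    intro x
    simp only [T, Φ, Finset.mem_sigma, Fintype.mem_piFinset, Finset.mem_range]
    refine ⟨?_, ?_⟩
    · rw [mem_idl]
      exact ⟨hB0 x, Nat.le_floor (hBZ x).le⟩
    · intro w
      apply Nat.lt_succ_of_le
      apply Nat.floor_le_floor
      exact spos_le hl (hAA0 x.2.1 x.2.2) (hB0 x) (ha x) (hb x) (hrel x) (hplace x) w
  have hΦinj : Function.Injective Φ := by
    intro x y hxy
    simp only [Φ, Sigma.mk.injEq] at hxy
    obtain ⟨h1, h2⟩ := hxy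
    have h2' : (fun w => ⌊spos l (ext M x.2.1) (a x) (b x) w⌋₊) =
        (fun w => ⌊spos l (ext M y.2.1) (a y) (b y) w⌋₊) :=
      eq_of_heq h2
    have hPQ : x.2 = y.2 := by
      by_contra hne
      have hne' : x.2.1 ≠ y.2.1 := fun h => hne (Subtype.ext h)
      have hrel' : Ideal.span {b y} * (B x : Ideal (𝓞 M)) ^ l =
          Ideal.span {a y} * ext M y.2.1 ^ l := by
        rw [h1]; exact hrel y
      obtain ⟨F, hF, h3⟩ := pair_collisionG (K := K) hl (hAAne _ x.2.2) (hAAne _ y.2.2)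
        (hnr _ x.2.2 _ y.2.2 hne') Y (hY _ x.2.2) (hY _ y.2.2) (ha x) (hb x) (ha y) (hb y)
        (hrel x) hrel' (by
          intro w
          have h4 : ⌊spos l (ext M x.2.1) (a x) (b x) w⌋₊ =
            ⌊spos l (ext M y.2.1) (a y) (b y) w⌋₊ := congrFun h2' w
          have h5 := spos_pos hl (hAA0 x.2.1 x.2.2) (ha x) (hb x) w (hplace x w)
          have h6 := spos_pos hl (hAA0 y.2.1 y.2.2) (ha y) (hb y) w (hplace y w)
          have h7 := Nat.floor_le h5.le
          have h8 := Nat.lt_floor_add_one (spos l (ext M y.2.1) (a y) (b y) w)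
          rw [← h4] at h8
          linarith)
      exact absurd h3 (not_le.mpr (hsmall F hF))
    have hc1 := hclass x
    have hc2 := hclass y
    have hBB : B x = B y := Subtype.ext h1
    rw [hBB, hc2] at hc1
    apply Prod.ext
    · apply Subtype.ext
      simp only [hPQ] at hc1
      exact (mul_right_cancel hc1).symm
    · exact hPQ
  have hfinC : Finite C := inferInstance
  have hcard : Nat.card (C × AA) ≤ T.card := by
    have : Fintype C := Fintype.ofFinite C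
    rw [Nat.card_eq_fintype_card, ← Finset.card_univ]
    exact Finset.card_le_card_of_injOn Φ (fun x _ => hmaps x) (fun x _ y _ h => hΦinj h)
  rw [Nat.card_prod] at hcard
  have hAAc : Nat.card AA = AA.card := by simp
  rw [hAAc] at hcard
  have hTcard : (T.card : ℝ) ≤
      ∑ B ∈ idl M ⌊ZK M⌋₊, (1 + Real.log (ZK M / Ideal.absNorm B)) ^ n := by
    simp only [T]
    rw [Finset.card_sigma]
    push_cast
    refine Finset.sum_le_sum fun I hI => ?_
    obtain ⟨hI0, hIN⟩ := mem_idl.mp hI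
    have hNI : (0 : ℝ) < Ideal.absNorm I := by exact_mod_cast absNorm_pos_of_ne_bot hI0
    have hle : (Ideal.absNorm I : ℝ) ≤ ZK M := by
      calc (Ideal.absNorm I : ℝ) ≤ (⌊ZK M⌋₊ : ℝ) := by exact_mod_cast hIN
        _ ≤ ZK M := Nat.floor_le ZK_pos.le
    have hL : 0 ≤ Real.log (ZK M / Ideal.absNorm I) :=
      Real.log_nonneg (by rw [le_div_iff₀ hNI]; linarith)
    rw [Fintype.card_piFinset, Finset.prod_const, Finset.card_univ, Finset.card_range]
    push_cast
    have hb1 : (1 : ℝ) ≤ (⌊Real.log (ZK M / Ideal.absNorm I)⌋₊ : ℝ) + 1 := by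
      linarith [Nat.cast_nonneg (α := ℝ) ⌊Real.log (ZK M / Ideal.absNorm I)⌋₊]
    have hcardplaces : Fintype.card (InfinitePlace M) ≤ n := by
      rw [hn, ← InfinitePlace.sum_mult_eq (K := M), ← Finset.card_univ, Finset.card_eq_sum_ones]
      exact Finset.sum_le_sum fun w _ => InfinitePlace.mult_pos
    calc ((⌊Real.log (ZK M / Ideal.absNorm I)⌋₊ : ℝ) + 1) ^ Fintype.card (InfinitePlace M)
        ≤ ((⌊Real.log (ZK M / Ideal.absNorm I)⌋₊ : ℝ) + 1) ^ n :=
          pow_le_pow_right₀ hb1 hcardplaces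
      _ ≤ (1 + Real.log (ZK M / Ideal.absNorm I)) ^ n := by
          apply pow_le_pow_left₀ (by linarith)
          have := Nat.floor_le hL
          linarith
  calc (AA.card : ℝ) * (Nat.card C : ℝ) = ((Nat.card C * AA.card : ℕ) : ℝ) := by push_cast; ring
    _ ≤ (T.card : ℝ) := by exact_mod_cast hcard
    _ ≤ _ := hTcard

end two

end Pool.Agent.Lib.MP_695920_nt
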