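import Mathlib
import Pool.Agent.Lib.MP_695920_nt.DihFinal

set_option autoImplicit false

open Finset NumberField Module IsDedekindDomain
open scoped nonZeroDivisors Pointwise

namespace Pool.Agent.Lib.MP_695920_nt

variable {G : Type*} [Group G] {m : ℕ} {σ τ : G} [Finite G]
variable {L : Type*} [Field L] [NumberField L] [MulSemiringAction G L]
  [hG : IsGaloisGroup G ℚ L]

/-- everything we need to know about the pair of subfields -/
lemma pair_facts (h : Dih m σ τ) (hcard : Nat.card G = 2 * m) (hm3 : 3 ≤ m) :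
    ∃ d : ℤ, Squarefree d ∧ d ≠ 1 ∧
      |(discr (fixF L (Subgroup.zpowers σ)) : ℝ)| ≤ 4 * |(d : ℝ)| ∧
      |(d : ℝ)| ≤ |(discr (fixF L (Subgroup.zpowers σ)) : ℝ)| ∧
      |(d : ℝ)| ≤ (2 * (Real.sqrt |(discr (fixF L (Subgroup.zpowers τ)) : ℝ)| * 2 ^ m + 1)) ^ (2 * m) ∧
      |(d : ℝ)| * |(discr (fixF L (Subgroup.zpowers τ)) : ℝ)| ^ 2 ≤ |(discr L : ℝ)| ∧
      (∀ p : ℕ, p.Prime → jacobiSym d p = -1 →
        ¬ ∃ P : Ideal (𝓞 (fixF L (Subgroup.zpowers σ))), Ideal.absNorm P = p) := by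
  have hfK := finrank_K (L := L) h hcard hm3
  have hfF := finrank_F (L := L) h hcard
  obtain ⟨d, θ, hd, hd1, hθ, hbd⟩ := exists_theta (L := L) h (by rw [hfK]; omega)
    (by rw [hfK]; exact h.odd)
  rw [hfK] at hbd
  refine ⟨d, hd, hd1, quad_disc_le hfF hd hd1 hθ, ?_, hbd, ?_, ?_⟩
  · have h1 := natAbs_dvd_discr hd hθ
    have h2 := Nat.le_of_dvd (Int.natAbs_pos.mpr (discr_ne_zero _)) h1
    have h3 : ((d.natAbs : ℕ) : ℝ) ≤ (((discr (fixF L (Subgroup.zpowers σ))).natAbs : ℕ) : ℝ) := by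
      exact_mod_cast h2
    rw [Nat.cast_natAbs, Nat.cast_natAbs, Int.cast_abs, Int.cast_abs] at h3
    exact h3
  · have hθL : (algebraMap (𝓞 (fixF L (Subgroup.zpowers σ))) (𝓞 L) θ) ^ 2 = (d : 𝓞 L) := by
      rw [← map_pow, hθ, map_intCast]
    have h1 := disc_tower (K := fixF L (Subgroup.zpowers τ)) (L := L) (finrank_KL h hcard hm3)
      (by rw [hfK]; exact h.odd) hd hθL
    have h3 : ((d.natAbs : ℕ) : ℝ) * (((discr (fixF L (Subgroup.zpowers τ))).natAbs : ℕ) : ℝ) ^ 2 ≤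
        (((discr L).natAbs : ℕ) : ℝ) := by
      exact_mod_cast h1
    rw [Nat.cast_natAbs, Nat.cast_natAbs, Nat.cast_natAbs, Int.cast_abs, Int.cast_abs,
      Int.cast_abs] at h3
    exact h3
  · intro p hp hJ
    exact no_prime_norm hθ hp hJ

/-- relation between the discriminants of the two subfields -/
lemma log_disc_rel (h : Dih m σ τ) (hcard : Nat.card G = 2 * m) (hm3 : 3 ≤ m) :
    Real.log |(discr (fixF L (Subgroup.zpowers σ)) : ℝ)| ≤
      m * Real.log |(discr (fixF L (Subgroup.zpowers τ)) : ℝ)| + (2 * (m : ℝ) ^ 2 + 4 * m + 2) := by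
  have hfK := finrank_K (L := L) h hcard hm3
  have hfF := finrank_F (L := L) h hcard
  have hF3 := three_le_discr (K := fixF L (Subgroup.zpowers σ)) (by rw [hfF]; norm_num)
  have hK3 := three_le_discr (K := fixF L (Subgroup.zpowers τ)) (by rw [hfK]; omega)
  obtain ⟨d, _, _, h1, _, h3, _, _⟩ := pair_facts (L := L) h hcard hm3
  set Df : ℝ := |(discr (fixF L (Subgroup.zpowers σ)) : ℝ)|
  set Dk : ℝ := |(discr (fixF L (Subgroup.zpowers τ)) : ℝ)|
  have hs : 1 ≤ Real.sqrt Dk := by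
    apply Real.le_sqrt_of_sq_le
    linarith
  have hlog2' : Real.log 2 ≤ 1 := by linarith [Real.log_two_lt_d9]
  have hlog2 : 0 ≤ Real.log 2 := Real.log_nonneg (by norm_num)
  have h2m : (1 : ℝ) ≤ 2 ^ m := one_le_pow₀ (by norm_num)
  have h4 : Df ≤ 2 ^ 2 * (2 ^ (m + 2) * Real.sqrt Dk) ^ (2 * m) := by
    refine h1.trans ?_
    rw [show (2 : ℝ) ^ 2 = 4 by norm_num]
    apply mul_le_mul_of_nonneg_left _ (by norm_num)
    refine h3.trans ?_
    apply pow_le_pow_left₀ (by positivity)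
    have : (2 : ℝ) ^ (m + 2) = 4 * 2 ^ m := by rw [pow_add]; ring
    rw [this]
    nlinarith
  have h5 := Real.log_le_log (by linarith) h4
  rw [Real.log_mul (by positivity) (by positivity), Real.log_pow, Real.log_pow,
    Real.log_mul (by positivity) (by positivity), Real.log_pow, Real.log_sqrt (by linarith)] at h5
  push_cast at h5
  have hm0 : (0 : ℝ) ≤ m := Nat.cast_nonneg m
  have e1 : 2 * (m : ℝ) * (((m : ℝ) + 2) * Real.log 2 + Real.log Dk / 2) =
    (2 * (m : ℝ) ^ 2 + 4 * m) * Real.log 2 + m * Real.log Dk := by ring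
  rw [e1] at h5
  have e2 : (2 * (m : ℝ) ^ 2 + 4 * m) * Real.log 2 ≤ (2 * (m : ℝ) ^ 2 + 4 * m) * 1 :=
    mul_le_mul_of_nonneg_left hlog2' (by positivity)
  linarith

lemma floor_exp (t : ℝ) (ht : 1 ≤ t) : 1 ≤ ⌊Real.exp t⌋₊ ∧ ((⌊Real.exp t⌋₊ : ℕ) : ℝ) ≤ Real.exp t ∧
    Real.exp (t - 1) ≤ ((⌊Real.exp t⌋₊ : ℕ) : ℝ) ∧ Real.log ((⌊Real.exp t⌋₊ : ℕ) : ℝ) ≤ t ∧
      t - 1 ≤ Real.log ((⌊Real.exp t⌋₊ : ℕ) : ℝ) := by
  have h1 : ((⌊Real.exp t⌋₊ : ℕ) : ℝ) ≤ Real.exp t := Nat.floor_le (Real.exp_pos t).le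
  have h2 : Real.exp t < ((⌊Real.exp t⌋₊ : ℕ) : ℝ) + 1 := Nat.lt_floor_add_one _
  have h3 : Real.exp (t - 1) ≤ ((⌊Real.exp t⌋₊ : ℕ) : ℝ) := by
    have h4 : Real.exp t = Real.exp (t - 1) * Real.exp 1 := by rw [← Real.exp_add]; congr 1; ring
    have h5 : (2 : ℝ) ≤ Real.exp 1 := by linarith [Real.exp_one_gt_d9]
    have h6 : 1 ≤ Real.exp (t - 1) := Real.one_le_exp (by linarith)
    nlinarith
  have h4 : 0 < Real.exp (t - 1) := Real.exp_pos _
  have h5 : (0 : ℝ) < ((⌊Real.exp t⌋₊ : ℕ) : ℝ) := by linarith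
  refine ⟨by exact_mod_cast h5, h1, h3, ?_, ?_⟩
  · rw [Real.log_le_iff_le_exp h5]; exact h1
  · rw [Real.le_log_iff_exp_le h5]; exact h3

lemma inert_count (d : ℤ) (hd : Squarefree d) (hd1 : d ≠ 1) (t : ℝ) (ht : 2101 ≤ t)
    (hq : Real.log (4 * |(d : ℝ)|) ≤ (t - 1) / 100) :
    Real.exp ((t - 1) / 6) ≤
      ((Ioc 0 ⌊Real.exp t⌋₊).filter (fun p => p.Prime ∧ jchi d p = -1)).card := by
  obtain ⟨hN1, hN2, hN3, hN4, hN5⟩ := floor_exp t (by linarith)
  set N := ⌊Real.exp t⌋₊ with hN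
  have hN0 : (0 : ℝ) < N := by exact_mod_cast hN1
  set w : ℝ := Real.exp (Real.log N / 300) with hw
  have hlogw : Real.log w = Real.log N / 300 := Real.log_exp _
  have hw300 : (N : ℝ) = w ^ 300 := by
    rw [hw, ← Real.exp_nat_mul]
    push_cast
    rw [mul_div_cancel₀ _ (by norm_num : (300 : ℝ) ≠ 0), Real.exp_log hN0]
  have hw1000 : 1000 ≤ w := by
    have h1 : (7 : ℝ) ≤ Real.log N / 300 := by linarith
    have h2 : Real.exp 7 ≤ w := Real.exp_le_exp.mpr h1
    have h3 : Real.exp 7 = (Real.exp 1) ^ 7 := by rw [← Real.exp_nat_mul]; norm_num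
    have h4 : (2.7182818283 : ℝ) ≤ Real.exp 1 := Real.exp_one_gt_d9.le
    have h5 : (2.7182818283 : ℝ) ^ 7 ≤ (Real.exp 1) ^ 7 := pow_le_pow_left₀ (by norm_num) h4 7
    have h6 : (1000 : ℝ) ≤ (2.7182818283 : ℝ) ^ 7 := by norm_num
    linarith
  have hd0 : (0 : ℝ) < |(d : ℝ)| := abs_pos.mpr (by exact_mod_cast hd.ne_zero)
  have hq' : ((4 * d.natAbs : ℕ) : ℝ) ≤ w ^ 3 := by
    have h1 : ((4 * d.natAbs : ℕ) : ℝ) = 4 * |(d : ℝ)| := by
      push_cast
      rw [Nat.cast_natAbs, Int.cast_abs]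
    rw [h1, ← Real.log_le_log_iff (by positivity) (by positivity), Real.log_pow, hlogw]
    push_cast
    linarith
  have h1 := (isRC_jchi d hd hd1).many_inert hw1000 hw300 hq'
  refine le_trans ?_ h1
  rw [hw, ← Real.exp_nat_mul, Real.exp_le_exp]
  push_cast
  linarith

/-- the exponent -/
noncomputable def eta (l m : ℕ) : ℝ := 1 / (16000 * (l : ℝ) ^ 2 * m * (m + 2))

/-- threshold -/
noncomputable def K0 (l m : ℕ) : ℝ := 10 ^ 6 * (l : ℝ) ^ 2 * (m : ℝ) ^ 2

/-- threshold -/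
noncomputable def U0 (l m : ℕ) : ℝ := (m + 2) * K0 l m + (2 * (m : ℝ) ^ 2 + 4 * m + 2)

lemma eta_pos {l m : ℕ} (hl : 3 ≤ l) (hm : 3 ≤ m) : 0 < eta l m := by
  have h1 : (3 : ℝ) ≤ l := by exact_mod_cast hl
  have h2 : (3 : ℝ) ≤ m := by exact_mod_cast hm
  unfold eta
  positivity

theorem saving (h : Dih m σ τ) (hcard : Nat.card G = 2 * m) (hm3 : 3 ≤ m) {l : ℕ}
    (hl3 : 3 ≤ l) :
    ∃ (y : ℝ) (GF GK : Finset ℕ), 1 ≤ y ∧
      (∀ p ∈ GF, p.Prime ∧ (p : ℝ) ≤ y ∧
        ∃ P : Ideal (𝓞 (fixF L (Subgroup.zpowers σ))), Ideal.absNorm P = p) ∧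
      (∀ p ∈ GK, p.Prime ∧ (p : ℝ) ≤ y ∧
        ∃ P : Ideal (𝓞 (fixF L (Subgroup.zpowers τ))), Ideal.absNorm P = p) ∧
      (GF = ∅ ∨ 2 * l * ((2 : ℕ) : ℝ) * Real.log y + 2 * l * (((2 : ℕ) : ℝ)) ^ 2 ≤
        Real.log |(discr (fixF L (Subgroup.zpowers σ)) : ℝ)|) ∧
      (GK = ∅ ∨ 2 * l * (m : ℝ) * Real.log y + 2 * l * ((m : ℝ)) ^ 2 ≤
        Real.log |(discr (fixF L (Subgroup.zpowers τ)) : ℝ)|) ∧
      Real.exp (eta l m * (Real.log |(discr (fixF L (Subgroup.zpowers σ)) : ℝ)| +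
        2 * Real.log |(discr (fixF L (Subgroup.zpowers τ)) : ℝ)|) - eta l m * U0 l m) ≤
        (1 + GF.card) * (1 + GK.card) ^ 2 := by
  classical
  have hrel := log_disc_rel (L := L) h hcard hm3
  obtain ⟨d, hd, hd1, hd4, hdD, _, _, hnop⟩ := pair_facts (L := L) h hcard hm3
  have hnorm := fun {p : ℕ} (hp : p.Prime) hno => prime_norm_or (L := L) h hcard (p := p) hp hno
  have hfK := finrank_K (L := L) h hcard hm3
  have hfF := finrank_F (L := L) h hcard
  have hF3 := three_le_discr (K := fixF L (Subgroup.zpowers σ)) (by rw [hfF]; norm_num)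
  have hK3 := three_le_discr (K := fixF L (Subgroup.zpowers τ)) (by rw [hfK]; omega)
  set Df : ℝ := |(discr (fixF L (Subgroup.zpowers σ)) : ℝ)| with hDf
  set Dk : ℝ := |(discr (fixF L (Subgroup.zpowers τ)) : ℝ)| with hDk
  set f := Real.log Df with hf
  set k := Real.log Dk with hk
  have hf0 : 0 < f := Real.log_pos (by linarith)
  have hk0 : 0 < k := Real.log_pos (by linarith)
  have hlr : (3 : ℝ) ≤ l := by exact_mod_cast hl3
  have hmr : (3 : ℝ) ≤ m := by exact_mod_cast hm3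
  have heta := eta_pos hl3 hm3
  have hl0 : (0 : ℝ) < l := by linarith
  have hm0 : (0 : ℝ) < m := by linarith
  have hlm : (9 : ℝ) ≤ l * m := by nlinarith
  by_cases hk1 : k < K0 l m
  · refine ⟨1, ∅, ∅, le_rfl, by simp, by simp, Or.inl rfl, Or.inl rfl, ?_⟩
    simp only [card_empty, Nat.cast_zero, add_zero, one_pow, mul_one]
    rw [Real.exp_le_one_iff, sub_nonpos]
    apply mul_le_mul_of_nonneg_left _ heta.le
    unfold U0
    nlinarith
  push Not at hk1
  have hK0 : K0 l m = 10 ^ 6 * (l : ℝ) ^ 2 * (m : ℝ) ^ 2 := rfl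
  rw [hK0] at hk1
  by_cases hfk : f ≤ k / (1000 * l * m)
  · -- case A
    set t := k / (4 * l * m) with ht
    have hkt : k = 4 * l * m * t := by rw [ht]; field_simp
    have ht1 : 2101 ≤ t := by
      rw [ht, le_div_iff₀ (by positivity)]
      nlinarith [mul_le_mul hlm hlm (by norm_num) (by positivity)]
    have hft : f ≤ t / 250 := by
      refine hfk.trans (le_of_eq ?_)
      rw [ht]; field_simp; norm_num
    obtain ⟨hN1, hN2, hN3, hN4, hN5⟩ := floor_exp t (by linarith)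
    have hcount := inert_count d hd hd1 t ht1 (by
      have h1 : Real.log (4 * |(d : ℝ)|) ≤ Real.log (4 * Df) := by
        apply Real.log_le_log
        · have : (0 : ℝ) < |(d : ℝ)| := abs_pos.mpr (by exact_mod_cast hd.ne_zero)
          positivity
        · linarith
      have h1' : Real.log (4 * Df) = Real.log 4 + f :=
        Real.log_mul (by norm_num) (by linarith)
      have h2 : Real.log 4 ≤ 1.4 := by
        rw [show (4 : ℝ) = 2 ^ 2 by norm_num, Real.log_pow]
        have := Real.log_two_lt_d9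
        push_cast
        linarith
      linarith)
    set GK := (Ioc 0 ⌊Real.exp t⌋₊).filter (fun p => p.Prime ∧ jchi d p = -1) with hGK
    refine ⟨((⌊Real.exp t⌋₊ : ℕ) : ℝ), ∅, GK, by exact_mod_cast hN1, by simp, ?_, Or.inl rfl, Or.inr ?_, ?_⟩
    · intro p hp
      rw [hGK, mem_filter, mem_Ioc] at hp
      obtain ⟨⟨_, hpN⟩, hpp, hchi⟩ := hp
      refine ⟨hpp, by exact_mod_cast hpN, hnorm hpp (hnop p hpp ?_)⟩
      unfold jchi at hchi
      split_ifs at hchi with hodd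
      · exact_mod_cast hchi
      · norm_num at hchi
    · rw [hkt]
      have h1 : 2 * (l : ℝ) * m * Real.log ((⌊Real.exp t⌋₊ : ℕ) : ℝ) ≤ 2 * l * m * t :=
        mul_le_mul_of_nonneg_left hN4 (by positivity)
      have h2 : 2 * (l : ℝ) * (m : ℝ) ^ 2 ≤ 2 * l * m * t := by
        have : (m : ℝ) ≤ t := by
          rw [ht, le_div_iff₀ (by positivity)]
          have : (m : ℝ) * (4 * l * m) ≤ 10 ^ 6 * (l : ℝ) ^ 2 * (m : ℝ) ^ 2 := by
            have h3 : (4 : ℝ) ≤ 10 ^ 6 * l := by linarith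
            have h4 : 0 ≤ (m : ℝ) ^ 2 * l := by positivity
            nlinarith [mul_le_mul_of_nonneg_right h3 h4]
          linarith
        nlinarith [mul_le_mul_of_nonneg_left this (show 0 ≤ 2 * (l : ℝ) * m by positivity)]
      linarith
    · have hge : Real.exp ((t - 1) / 3) ≤ (1 + (GK.card : ℝ)) ^ 2 := by
        have h1 : Real.exp ((t - 1) / 3) = (Real.exp ((t - 1) / 6)) ^ 2 := by
          rw [← Real.exp_nat_mul]; congr 1; push_cast; ring
        rw [h1]
        apply pow_le_pow_left₀ (Real.exp_pos _).le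
        linarith
      simp only [card_empty, Nat.cast_zero, add_zero, one_mul]
      refine le_trans ?_ hge
      rw [Real.exp_le_exp]
      have hU : 0 ≤ eta l m * U0 l m := by
        unfold U0 K0
        positivity
      have h1 : f + 2 * k ≤ 12 * l * m * t := by
        rw [hkt]
        nlinarith
      have h2 : eta l m * (f + 2 * k) ≤ eta l m * (12 * l * m * t) :=
        mul_le_mul_of_nonneg_left h1 heta.le
      have h3 : eta l m * (12 * l * m * t) = 12 * t / (16000 * l * (m + 2)) := by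
        unfold eta; field_simp
      have h4 : 12 * t / (16000 * l * (m + 2)) ≤ t / 1000 := by
        rw [div_le_div_iff₀ (by positivity) (by norm_num)]
        have : (15 : ℝ) ≤ l * (m + 2) := by nlinarith
        nlinarith
      linarith
  · -- case B
    push Not at hfk
    set t := k / (8000 * (l : ℝ) ^ 2 * m) with ht
    have hkt : k = 8000 * (l : ℝ) ^ 2 * m * t := by rw [ht]; field_simp
    have ht1 : 125 * m ≤ t := by
      rw [ht, le_div_iff₀ (by positivity)]
      nlinarith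
    obtain ⟨hN1, hN2, hN3, hN4, hN5⟩ := floor_exp t (by linarith)
    set N := ⌊Real.exp t⌋₊ with hN
    set PP := (Ioc 0 N).filter Nat.Prime with hPP
    set GF := PP.filter (fun p => ∃ P : Ideal (𝓞 (fixF L (Subgroup.zpowers σ))), Ideal.absNorm P = p)
      with hGF
    set GK := PP.filter (fun p => ∃ P : Ideal (𝓞 (fixF L (Subgroup.zpowers τ))), Ideal.absNorm P = p)
      with hGK
    refine ⟨(N : ℝ), GF, GK, by exact_mod_cast hN1, ?_, ?_, Or.inr ?_, Or.inr ?_, ?_⟩
    · intro p hp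
      rw [hGF, mem_filter, hPP, mem_filter, mem_Ioc] at hp
      exact ⟨hp.1.2, by exact_mod_cast hp.1.1.2, hp.2⟩
    · intro p hp
      rw [hGK, mem_filter, hPP, mem_filter, mem_Ioc] at hp
      exact ⟨hp.1.2, by exact_mod_cast hp.1.1.2, hp.2⟩
    · have h1 : k / (1000 * l * m) = 8 * l * t := by
        rw [hkt]; field_simp; ring
      rw [h1] at hfk
      push_cast
      have h2 : (l : ℝ) * Real.log N ≤ l * t := mul_le_mul_of_nonneg_left hN4 hl0.le
      have h3 : (l : ℝ) * 2 ≤ l * t := by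
        apply mul_le_mul_of_nonneg_left _ hl0.le
        linarith
      nlinarith
    · rw [hkt]
      have h2 : (l : ℝ) * m * Real.log N ≤ l * m * t := mul_le_mul_of_nonneg_left hN4 (by positivity)
      have h3 : (l : ℝ) * m * m ≤ l * m * t := by
        apply mul_le_mul_of_nonneg_left _ (by positivity)
        linarith
      have h4 : (l : ℝ) * m * t ≤ (l : ℝ) ^ 2 * m * t := by
        have : 0 ≤ (m : ℝ) * t := by positivity
        nlinarith
      nlinarith
    · have hsq := sqrt_le_pi N (by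
        refine le_trans ?_ hN3
        have h1 : Real.exp 24 ≤ Real.exp (t - 1) := Real.exp_le_exp.mpr (by linarith)
        have h2 : Real.exp 24 = (Real.exp 1) ^ 24 := by rw [← Real.exp_nat_mul]; norm_num
        have h3 : (2.7 : ℝ) ^ 24 ≤ (Real.exp 1) ^ 24 :=
          pow_le_pow_left₀ (by norm_num) (by linarith [Real.exp_one_gt_d9]) 24
        have h4 : (10 : ℝ) ^ 8 ≤ (2.7 : ℝ) ^ 24 := by norm_num
        linarith)
      have hcover : PP ⊆ GF ∪ GK := by
        intro p hp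
        have hp' := hp
        rw [hPP, mem_filter, mem_Ioc] at hp'
        by_cases hex : ∃ P : Ideal (𝓞 (fixF L (Subgroup.zpowers σ))), Ideal.absNorm P = p
        · exact Finset.mem_union.mpr (Or.inl (Finset.mem_filter.mpr ⟨hp, hex⟩))
        · exact Finset.mem_union.mpr (Or.inr (Finset.mem_filter.mpr ⟨hp, hnorm hp'.2 hex⟩))
      have hcardle : (PP.card : ℝ) ≤ GF.card + GK.card := by
        have h1 := (Finset.card_le_card hcover).trans (Finset.card_union_le GF GK)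
        exact_mod_cast h1
      have hsqrt : Real.exp ((t - 1) / 2) ≤ Real.sqrt N := by
        apply Real.le_sqrt_of_sq_le
        rw [← Real.exp_nat_mul]
        refine le_trans (le_of_eq ?_) hN3
        congr 1; push_cast; ring
      have hprod : 1 + (GF.card : ℝ) + GK.card ≤ (1 + GF.card) * (1 + GK.card) ^ 2 := by
        have e1 : (0 : ℝ) ≤ GF.card := Nat.cast_nonneg _
        have e2 : (0 : ℝ) ≤ GK.card := Nat.cast_nonneg _
        nlinarith [mul_nonneg e1 e2, mul_nonneg (mul_nonneg e1 e2) e2, mul_nonneg e2 e2]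
      have hfin : Real.exp ((t - 1) / 2) ≤ (1 + GF.card) * (1 + GK.card : ℝ) ^ 2 := by
        linarith
      refine le_trans ?_ hfin
      rw [Real.exp_le_exp]
      have h1 : f + 2 * k ≤ (m + 2) * k + (2 * (m : ℝ) ^ 2 + 4 * m + 2) := by linarith
      have h2 : eta l m * (f + 2 * k) ≤
          eta l m * ((m + 2) * k + (2 * (m : ℝ) ^ 2 + 4 * m + 2)) :=
        mul_le_mul_of_nonneg_left h1 heta.le
      have h3 : eta l m * ((m + 2) * k) = t / 2 := by
        rw [hkt]; unfold eta; field_simp; norm_num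
      have h4 : eta l m * U0 l m = 62.5 * m + eta l m * (2 * (m : ℝ) ^ 2 + 4 * m + 2) := by
        unfold U0 K0 eta; field_simp; ring
      have e := mul_add (eta l m) ((m + 2) * k) (2 * (m : ℝ) ^ 2 + 4 * m + 2)
      rw [e, h3] at h2
      rw [h4]
      linarith

end Pool.Agent.Lib.MP_695920_nt
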