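import Mathlib
import Pool.Agent.Lib.MP_695920_nt.Saving

set_option autoImplicit false

open Finset NumberField Module IsDedekindDomain
open scoped nonZeroDivisors Pointwise

namespace Pool.Agent.Lib.MP_695920_nt

variable {G : Type*} [Group G] {m : ℕ} {σ τ : G} [Finite G]
variable {L : Type*} [Field L] [NumberField L] [MulSemiringAction G L]
  [hG : IsGaloisGroup G ℚ L]

lemma pow_le_exp_bound {a u : ℝ} (ha : 0 < a) (hu : 0 ≤ u) (N : ℕ) :
    u ^ N ≤ (1 / a) ^ N * N.factorial * Real.exp (a * u) := by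
  have h1 := Real.pow_div_factorial_le_exp (a * u) (by positivity) N
  have hN : (0 : ℝ) < N.factorial := by exact_mod_cast N.factorial_pos
  rw [div_le_iff₀ hN, mul_pow] at h1
  have h2 : u ^ N = (1 / a) ^ N * (a ^ N * u ^ N) := by
    rw [← mul_assoc, ← mul_pow, one_div, inv_mul_cancel₀ ha.ne', one_pow, one_mul]
  rw [h2, mul_assoc]
  apply mul_le_mul_of_nonneg_left _ (by positivity)
  linarith

/-- the constant in the dihedral bound -/
noncomputable def Cdih (l m : ℕ) : ℝ :=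
  Bn 2 * Bn m ^ 2 * Real.exp (eta l m * U0 l m) *
    ((1 / (eta l m / 2)) ^ (2 * m + 2) * (2 * m + 2).factorial) *
    Real.exp ((1 / 2 - eta l m / 2) * Real.log 4)

theorem dih_bound (h : Dih m σ τ) (hcard : Nat.card G = 2 * m) (hm3 : 3 ≤ m) {l : ℕ}
    (hl : l.Prime) (hlm : ¬ l ∣ 2 * m) :
    (Nat.card {x : ClassGroup (𝓞 L) // x ^ l = 1} : ℝ) ≤
      Cdih l m * |(discr L : ℝ)| ^ ((1 : ℝ) / 2 - eta l m / 2) := by
  have hl2 : ¬ l ∣ 2 := fun hh => hlm (hh.mul_right m)
  have hlm' : ¬ l ∣ m := fun hh => hlm (hh.mul_left 2)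
  have hl3 : 3 ≤ l := by
    rcases Nat.lt_or_ge l 3 with h3 | h3
    · exfalso
      have := hl.two_le
      have h4 : l = 2 := by omega
      exact hl2 (by rw [h4])
    · exact h3
  obtain ⟨y, GF, GK, hy1, hGF, hGK, hyF, hyK, hsav⟩ := saving (L := L) h hcard hm3 hl3
  have hfK := finrank_K (L := L) h hcard hm3
  have hfF := finrank_F (L := L) h hcard
  have hF3 := three_le_discr (K := fixF L (Subgroup.zpowers σ)) (by rw [hfF]; norm_num)
  have hK3 := three_le_discr (K := fixF L (Subgroup.zpowers τ)) (by rw [hfK]; omega)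
  have evF := ev_many (K := fixF L (Subgroup.zpowers σ)) hl (by rw [hfF]; norm_num)
    (by rw [hfF]; exact hl2) GF y hy1 hGF (by rw [hfF]; exact hyF)
  have evK := ev_many (K := fixF L (Subgroup.zpowers τ)) hl (by rw [hfK]; omega)
    (by rw [hfK]; exact hlm') GK y hy1 hGK (by rw [hfK]; exact hyK)
  rw [hfF] at evF
  rw [hfK] at evK
  have hct := card_tors_le (L := L) h (tau_ne_one h hcard hm3) hl hlm'
  obtain ⟨d, hd, hd1, hd4, hdD, _, hdL, _⟩ := pair_facts (L := L) h hcard hm3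
  set Df : ℝ := |(discr (fixF L (Subgroup.zpowers σ)) : ℝ)| with hDf
  set Dk : ℝ := |(discr (fixF L (Subgroup.zpowers τ)) : ℝ)| with hDk
  set DL : ℝ := |(discr L : ℝ)| with hDL
  set f := Real.log Df with hf
  set k := Real.log Dk with hk
  set hF : ℝ := (Nat.card {x : ClassGroup (𝓞 (fixF L (Subgroup.zpowers σ))) // x ^ l = 1} : ℝ)
    with hhF
  set hK : ℝ := (Nat.card {x : ClassGroup (𝓞 (fixF L (Subgroup.zpowers τ))) // x ^ l = 1} : ℝ)
    with hhK
  set hL : ℝ := (Nat.card {x : ClassGroup (𝓞 L) // x ^ l = 1} : ℝ) with hhL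
  have hct' : hL ≤ hF * hK ^ 2 := by
    rw [hhL, hhF, hhK]
    exact_mod_cast hct
  have hF0 : 0 ≤ hF := Nat.cast_nonneg _
  have hK0 : 0 ≤ hK := Nat.cast_nonneg _
  have hL0 : 0 ≤ hL := Nat.cast_nonneg _
  have hf0 : 0 < f := Real.log_pos (by linarith)
  have hk0 : 0 < k := Real.log_pos (by linarith)
  have heta := eta_pos hl3 hm3
  set η := eta l m with hη
  set u : ℝ := f + 2 * k with hu
  have hu0 : 0 < u := by rw [hu]; linarith
  have hB2 := Bn_pos 2 (by norm_num)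
  have hBm := Bn_pos m (by omega)
  have hd0 : (0 : ℝ) < |(d : ℝ)| := abs_pos.mpr (by exact_mod_cast hd.ne_zero)
  have hDf0 : 0 < Df := by linarith
  have hDk0 : 0 < Dk := by linarith
  have hDL0 : 0 < DL := lt_of_lt_of_le (by positivity) hdL
  -- the product of the two bounds
  have h1 : (1 + (GF.card : ℝ)) * (1 + (GK.card : ℝ)) ^ 2 * (hF * hK ^ 2) ≤
      (Bn 2 * Real.sqrt Df * f ^ 2) * (Bn m * Real.sqrt Dk * k ^ m) ^ 2 := by
    calc (1 + (GF.card : ℝ)) * (1 + (GK.card : ℝ)) ^ 2 * (hF * hK ^ 2)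
        = ((1 + (GF.card : ℝ)) * hF) * ((1 + (GK.card : ℝ)) * hK) ^ 2 := by ring
      _ ≤ _ := by
        apply mul_le_mul evF _ (by positivity) (by positivity)
        exact pow_le_pow_left₀ (by positivity) evK 2
  have h2 : (Bn 2 * Real.sqrt Df * f ^ 2) * (Bn m * Real.sqrt Dk * k ^ m) ^ 2 =
      Bn 2 * Bn m ^ 2 * (Real.sqrt Df * Real.sqrt Dk ^ 2) * (f ^ 2 * k ^ (2 * m)) := by
    rw [mul_comm 2 m, pow_mul]
    ring
  have h3 : Real.sqrt Df * Real.sqrt Dk ^ 2 = Real.exp (u / 2) := by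
    rw [Real.sq_sqrt hDk0.le, hu, show (f + 2 * k) / 2 = f / 2 + k by ring, Real.exp_add, hk,
      Real.exp_log hDk0]
    congr 1
    rw [hf, ← Real.log_sqrt hDf0.le, Real.exp_log (Real.sqrt_pos.mpr hDf0)]
  have h4 : f ^ 2 * k ^ (2 * m) ≤ u ^ (2 * m + 2) := by
    rw [pow_add, mul_comm (u ^ (2 * m))]
    apply mul_le_mul
    · exact pow_le_pow_left₀ hf0.le (by rw [hu]; linarith) 2
    · exact pow_le_pow_left₀ hk0.le (by rw [hu]; linarith) _
    · positivity
    · positivity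
  have h5 := pow_le_exp_bound (a := η / 2) (by positivity) hu0.le (2 * m + 2)
  have h6 : Real.exp (η * u - η * U0 l m) * hL ≤
      (1 + (GF.card : ℝ)) * (1 + (GK.card : ℝ)) ^ 2 * (hF * hK ^ 2) :=
    mul_le_mul hsav hct' hL0 (by positivity)
  have h7 : Real.exp (η * u - η * U0 l m) * hL ≤
      Bn 2 * Bn m ^ 2 * Real.exp (u / 2) *
        ((1 / (η / 2)) ^ (2 * m + 2) * (2 * m + 2).factorial * Real.exp (η / 2 * u)) := by
    refine h6.trans (h1.trans ?_)
    rw [h2, h3]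
    apply mul_le_mul_of_nonneg_left (h4.trans h5)
    positivity
  have h8 : hL ≤ Bn 2 * Bn m ^ 2 * Real.exp (η * U0 l m) *
      ((1 / (η / 2)) ^ (2 * m + 2) * (2 * m + 2).factorial) * Real.exp ((1 / 2 - η / 2) * u) := by
    have e1 : hL = Real.exp (-(η * u - η * U0 l m)) * (Real.exp (η * u - η * U0 l m) * hL) := by
      rw [← mul_assoc, ← Real.exp_add, neg_add_cancel, Real.exp_zero, one_mul]
    rw [e1]
    refine (mul_le_mul_of_nonneg_left h7 (Real.exp_pos _).le).trans (le_of_eq ?_)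
    have e2 : Real.exp ((1 / 2 - η / 2) * u) =
        Real.exp (-(η * u)) * Real.exp (u / 2) * Real.exp (η / 2 * u) := by
      rw [← Real.exp_add, ← Real.exp_add]; congr 1; ring
    have e3 : Real.exp (-(η * u - η * U0 l m)) = Real.exp (-(η * u)) * Real.exp (η * U0 l m) := by
      rw [← Real.exp_add]; congr 1; ring
    rw [e2, e3]
    ring
  -- compare with the discriminant of L
  have h9 : u ≤ Real.log 4 + Real.log DL := by
    have e1 : Real.log Df ≤ Real.log (4 * |(d : ℝ)|) := Real.log_le_log hDf0 hd4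
    have e2 : Real.log (4 * |(d : ℝ)|) = Real.log 4 + Real.log |(d : ℝ)| :=
      Real.log_mul (by norm_num) hd0.ne'
    have e3 : Real.log (|(d : ℝ)| * Dk ^ 2) ≤ Real.log DL := Real.log_le_log (by positivity) hdL
    rw [Real.log_mul hd0.ne' (by positivity), Real.log_pow] at e3
    push_cast at e3
    rw [hu]
    linarith
  have hη1 : η ≤ 1 := by
    rw [hη]
    unfold eta
    have h1 : (3 : ℝ) ≤ l := by exact_mod_cast hl3
    have h2 : (3 : ℝ) ≤ m := by exact_mod_cast hm3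
    rw [div_le_one (by positivity)]
    have h3 : (1 : ℝ) ≤ (l : ℝ) ^ 2 := one_le_pow₀ (by linarith)
    have h4 : (1 : ℝ) ≤ (l : ℝ) ^ 2 * m := by nlinarith
    nlinarith
  have h10 : Real.exp ((1 / 2 - η / 2) * u) ≤
      Real.exp ((1 / 2 - η / 2) * Real.log 4) * DL ^ ((1 : ℝ) / 2 - η / 2) := by
    rw [Real.rpow_def_of_pos hDL0, ← Real.exp_add, Real.exp_le_exp]
    have e1 : 0 ≤ 1 / 2 - η / 2 := by linarith
    nlinarith [mul_le_mul_of_nonneg_left h9 e1]
  refine h8.trans ?_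
  unfold Cdih
  rw [mul_assoc _ (Real.exp ((1 / 2 - eta l m / 2) * Real.log 4))]
  apply mul_le_mul_of_nonneg_left h10
  positivity

end Pool.Agent.Lib.MP_695920_nt
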