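import Mathlib
import Pool.Agent.Lib.MP_695920_nt.Mertens
import Pool.Agent.Lib.MP_695920_nt.Fields

set_option autoImplicit false

open Finset NumberField Module IsDedekindDomain
open scoped nonZeroDivisors

namespace Pool.Agent.Lib.MP_695920_nt

/-- nonzero integer vectors in a box -/
noncomputable def box (Y : ℕ) : Finset (ℤ × ℤ) := ((Icc (-(Y : ℤ)) Y) ×ˢ (Icc (-(Y : ℤ)) Y)).erase (0, 0)

lemma mem_box {Y : ℕ} {v : ℤ × ℤ} : v ∈ box Y ↔
    v ≠ (0, 0) ∧ (-(Y : ℤ) ≤ v.1 ∧ v.1 ≤ Y) ∧ (-(Y : ℤ) ≤ v.2 ∧ v.2 ≤ Y) := by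
  simp [box]

lemma card_box_le (Y : ℕ) : ((box Y).card : ℝ) ≤ (2 * Y + 1) ^ 2 := by
  have h1 : (box Y).card ≤ (2 * Y + 1) * (2 * Y + 1) := by
    refine (Finset.card_erase_le).trans (le_of_eq ?_)
    rw [Finset.card_product, Int.card_Icc]
    have : ((Y : ℤ) + 1 - -(Y : ℤ)).toNat = 2 * Y + 1 := by omega
    rw [this]
  calc ((box Y).card : ℝ) ≤ (((2 * Y + 1) * (2 * Y + 1) : ℕ) : ℝ) := by exact_mod_cast h1
    _ = _ := by push_cast; ring

/-- the number of solutions of a linear congruence in a box, for small moduli -/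
lemma cnt_small {p : ℕ} (hp : 0 < p) (Y : ℕ) (ρ : ℤ) :
    (2 * Y + 1 : ℝ) * ((2 * Y + 1) / p - 1) - 1 ≤
      ((box Y).filter (fun v => (p : ℤ) ∣ v.1 + v.2 * ρ)).card := by
  have hp0 : (0 : ℝ) < p := by exact_mod_cast hp
  -- one dimensional count
  have h1 : ∀ c : ℤ, ((2 * Y + 1 : ℝ) / p - 1) ≤
      ((Icc (-(Y : ℤ)) Y).filter (fun a => (p : ℤ) ∣ a + c)).card := by
    intro c
    have h2 := Int.Ioc_filter_modEq_card (-(Y : ℤ) - 1) Y (r := (p : ℤ)) (by exact_mod_cast hp) (-c)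
    have h3 : (Ioc (-(Y : ℤ) - 1) Y).filter (fun x => x ≡ -c [ZMOD (p : ℤ)]) =
        (Icc (-(Y : ℤ)) Y).filter (fun a => (p : ℤ) ∣ a + c) := by
      ext x
      simp only [mem_filter, mem_Ioc, mem_Icc]
      have h4 : (x ≡ -c [ZMOD (p : ℤ)]) ↔ (p : ℤ) ∣ x + c := by
        rw [Int.modEq_comm, Int.modEq_iff_dvd, sub_neg_eq_add]
      rw [h4]
      constructor
      · rintro ⟨⟨h5, h6⟩, h7⟩; exact ⟨⟨by omega, h6⟩, h7⟩
      · rintro ⟨⟨h5, h6⟩, h7⟩; exact ⟨⟨by omega, h6⟩, h7⟩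
    rw [h3] at h2
    have h5 : (⌊(((Y : ℤ) - -c : ℤ) : ℚ) / ((p : ℤ) : ℚ)⌋ -
        ⌊(((-(Y : ℤ) - 1 : ℤ) - -c : ℤ) : ℚ) / ((p : ℤ) : ℚ)⌋ : ℤ) ≤
        (((Icc (-(Y : ℤ)) Y).filter (fun a => (p : ℤ) ∣ a + c)).card : ℤ) := by
      rw [h2]
      push_cast
      exact le_max_left _ _
    have h6 := Int.lt_floor_add_one ((((Y : ℤ) - -c : ℤ) : ℚ) / ((p : ℤ) : ℚ))
    have h7 := Int.floor_le ((((-(Y : ℤ) - 1 : ℤ) - -c : ℤ) : ℚ) / ((p : ℤ) : ℚ))
    have hpQ : (0 : ℚ) < ((p : ℤ) : ℚ) := by exact_mod_cast hp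
    have h8 : ((2 * Y + 1 : ℚ) / p - 1) ≤
        ((((Icc (-(Y : ℤ)) Y).filter (fun a => (p : ℤ) ∣ a + c)).card : ℤ) : ℚ) := by
      have h9 : ((⌊(((Y : ℤ) - -c : ℤ) : ℚ) / ((p : ℤ) : ℚ)⌋ -
        ⌊(((-(Y : ℤ) - 1 : ℤ) - -c : ℤ) : ℚ) / ((p : ℤ) : ℚ)⌋ : ℤ) : ℚ) ≤
        ((((Icc (-(Y : ℤ)) Y).filter (fun a => (p : ℤ) ∣ a + c)).card : ℤ) : ℚ) := by
        exact_mod_cast h5
      refine le_trans ?_ h9
      have h10 : (((Y : ℤ) - -c : ℤ) : ℚ) / ((p : ℤ) : ℚ) -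
          (((-(Y : ℤ) - 1 : ℤ) - -c : ℤ) : ℚ) / ((p : ℤ) : ℚ) = (2 * Y + 1 : ℚ) / p := by
        push_cast
        rw [← sub_div]
        congr 1
        ring
      push_cast at h6 h7 h10 ⊢
      linarith
    have h11 : (((2 * Y + 1 : ℚ) / p - 1 : ℚ) : ℝ) ≤
        (((((Icc (-(Y : ℤ)) Y).filter (fun a => (p : ℤ) ∣ a + c)).card : ℤ) : ℚ) : ℝ) := by
      exact_mod_cast h8
    push_cast at h11
    exact h11
  -- two dimensional count
  have h2 : (2 * Y + 1 : ℝ) * ((2 * Y + 1) / p - 1) ≤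
      (((Icc (-(Y : ℤ)) Y) ×ˢ (Icc (-(Y : ℤ)) Y)).filter
        (fun v => (p : ℤ) ∣ v.1 + v.2 * ρ)).card := by
    have h3 : (((Icc (-(Y : ℤ)) Y) ×ˢ (Icc (-(Y : ℤ)) Y)).filter
        (fun v => (p : ℤ) ∣ v.1 + v.2 * ρ)).card =
        ∑ b ∈ Icc (-(Y : ℤ)) Y, ((Icc (-(Y : ℤ)) Y).filter (fun a => (p : ℤ) ∣ a + b * ρ)).card := by
      rw [Finset.card_filter, Finset.sum_product_right]
      apply Finset.sum_congr rfl
      intro b _
      rw [Finset.card_filter]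
    rw [h3]
    push_cast
    calc (2 * Y + 1 : ℝ) * ((2 * Y + 1) / p - 1)
        = ∑ b ∈ Icc (-(Y : ℤ)) Y, ((2 * Y + 1 : ℝ) / p - 1) := by
          rw [Finset.sum_const, Int.card_Icc, nsmul_eq_mul]
          have : ((Y : ℤ) + 1 - -(Y : ℤ)).toNat = 2 * Y + 1 := by omega
          rw [this]
          push_cast
          ring
      _ ≤ _ := Finset.sum_le_sum fun b _ => h1 (b * ρ)
  have h3 : (((Icc (-(Y : ℤ)) Y) ×ˢ (Icc (-(Y : ℤ)) Y)).filter
      (fun v => (p : ℤ) ∣ v.1 + v.2 * ρ)).card ≤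
      ((box Y).filter (fun v => (p : ℤ) ∣ v.1 + v.2 * ρ)).card + 1 := by
    rw [box, Finset.filter_erase]
    have := Finset.pred_card_le_card_erase (s := (((Icc (-(Y : ℤ)) Y) ×ˢ (Icc (-(Y : ℤ)) Y)).filter
      (fun v => (p : ℤ) ∣ v.1 + v.2 * ρ))) (a := (0, 0))
    omega
  have h4 : ((((Icc (-(Y : ℤ)) Y) ×ˢ (Icc (-(Y : ℤ)) Y)).filter
      (fun v => (p : ℤ) ∣ v.1 + v.2 * ρ)).card : ℝ) ≤
      ((box Y).filter (fun v => (p : ℤ) ∣ v.1 + v.2 * ρ)).card + 1 := by exact_mod_cast h3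
  linarith

/-- the number of solutions of a linear congruence in a box, by the pigeonhole principle -/
lemma cnt_large {p : ℕ} (hp : 0 < p) (Y : ℕ) (ρ : ℤ) :
    ((Y : ℝ) + 1) ^ 2 / p - 1 ≤
      ((box Y).filter (fun v => (p : ℤ) ∣ v.1 + v.2 * ρ)).card := by
  classical
  have hp0 : (0 : ℝ) < p := by exact_mod_cast hp
  have : NeZero p := ⟨hp.ne'⟩
  let S : Finset (ℤ × ℤ) := (Icc (0 : ℤ) Y) ×ˢ (Icc (0 : ℤ) Y)
  let f : ℤ × ℤ → ZMod p := fun v => ((v.1 + v.2 * ρ : ℤ) : ZMod p)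
  have hScard : (S.card : ℝ) = ((Y : ℝ) + 1) ^ 2 := by
    simp only [S]
    rw [Finset.card_product, Int.card_Icc]
    have : ((Y : ℤ) + 1 - 0).toNat = Y + 1 := by omega
    rw [this]
    push_cast
    ring
  obtain ⟨y, _, hy⟩ := Finset.exists_le_card_fiber_of_nsmul_le_card_of_maps_to
    (s := S) (t := (Finset.univ : Finset (ZMod p))) (f := f) (b := ((Y : ℝ) + 1) ^ 2 / p)
    (fun _ _ => Finset.mem_univ _) ⟨0, Finset.mem_univ _⟩ (by
      rw [Finset.card_univ, ZMod.card, hScard, nsmul_eq_mul, mul_div_cancel₀ _ hp0.ne'])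
  have hpos : (0 : ℝ) < (S.filter (fun x => f x = y)).card :=
    lt_of_lt_of_le (by positivity) hy
  obtain ⟨v0, hv0⟩ := Finset.card_pos.mp (by exact_mod_cast hpos : 0 < (S.filter (fun x => f x = y)).card)
  have hinj : ((S.filter (fun x => f x = y)).erase v0).card ≤
      ((box Y).filter (fun v => (p : ℤ) ∣ v.1 + v.2 * ρ)).card := by
    apply Finset.card_le_card_of_injOn (fun v => (v.1 - v0.1, v.2 - v0.2))
    · intro v hv
      rw [Finset.mem_coe, Finset.mem_erase, Finset.mem_filter] at hv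
      rw [Finset.mem_filter] at hv0
      obtain ⟨hne, hvS, hfv⟩ := hv
      obtain ⟨hv0S, hfv0⟩ := hv0
      simp only [S, Finset.mem_product, Finset.mem_Icc] at hvS hv0S
      rw [Finset.mem_coe, Finset.mem_filter, mem_box]
      refine ⟨⟨?_, ?_, ?_⟩, ?_⟩
      · intro h
        apply hne
        rw [Prod.mk.injEq] at h
        ext
        · linarith [h.1]
        · linarith [h.2]
      · simp only; constructor <;> linarith [hvS.1.1, hvS.1.2, hv0S.1.1, hv0S.1.2]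
      · simp only; constructor <;> linarith [hvS.2.1, hvS.2.2, hv0S.2.1, hv0S.2.2]
      · simp only
        rw [← ZMod.intCast_zmod_eq_zero_iff_dvd]
        have h1 : ((v.1 - v0.1 + (v.2 - v0.2) * ρ : ℤ) : ZMod p) = f v - f v0 := by
          simp only [f]; push_cast; ring
        rw [h1, hfv, hfv0, sub_self]
    · intro v _ v' _ h
      simp only [Prod.mk.injEq] at h
      ext
      · linarith [h.1]
      · linarith [h.2]
  rw [Finset.card_erase_of_mem hv0] at hinj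
  have h1 : ((S.filter (fun x => f x = y)).card : ℝ) - 1 ≤
      ((box Y).filter (fun v => (p : ℤ) ∣ v.1 + v.2 * ρ)).card := by
    have h2 : (S.filter (fun x => f x = y)).card ≤
        ((box Y).filter (fun v => (p : ℤ) ∣ v.1 + v.2 * ρ)).card + 1 := by omega
    have h3 : ((S.filter (fun x => f x = y)).card : ℝ) ≤
        ((box Y).filter (fun v => (p : ℤ) ∣ v.1 + v.2 * ρ)).card + 1 := by exact_mod_cast h2
    linarith
  linarith

variable {E : Type*} [Field E] [NumberField E]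

open scoped Classical in
/-- prime ideals of norm `p` -/
noncomputable def degOne (E : Type*) [Field E] [NumberField E] (p : ℕ) : Finset (Ideal (𝓞 E)) :=
  (idl E p).filter (fun Q => Ideal.absNorm Q = p)

lemma mem_degOne {p : ℕ} (hp : p.Prime) {Q : Ideal (𝓞 E)} : Q ∈ degOne E p ↔ Ideal.absNorm Q = p := by
  classical
  rw [degOne, mem_filter, mem_idl]
  constructor
  · exact fun h => h.2
  · intro h
    refine ⟨⟨?_, h.le⟩, h⟩
    rintro rfl
    rw [Ideal.absNorm_bot] at h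
    exact hp.ne_zero h.symm

lemma absNorm_span_le (α : 𝓞 E) (X : ℝ) (hX : ∀ φ : E →ₐ[ℚ] ℂ, ‖φ (α : E)‖ ≤ X) :
    (Ideal.absNorm (Ideal.span {α}) : ℝ) ≤ X ^ finrank ℚ E := by
  have h1 : (Ideal.absNorm (Ideal.span {α}) : ℝ) = ‖algebraMap ℚ ℂ (Algebra.norm ℚ (α : E))‖ := by
    rw [Ideal.absNorm_span_singleton, ← Algebra.coe_norm_int]
    simp
  rw [h1, Algebra.norm_eq_prod_embeddings ℚ ℂ, norm_prod]
  calc ∏ σ : E →ₐ[ℚ] ℂ, ‖σ (α : E)‖ ≤ ∏ σ : E →ₐ[ℚ] ℂ, X :=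
        Finset.prod_le_prod (fun _ _ => norm_nonneg _) (fun σ _ => hX σ)
    _ = X ^ finrank ℚ E := by
        rw [Finset.prod_const, Finset.card_univ, AlgHom.card]

lemma split_mass (θ : 𝓞 E) (hθ : ∀ a b : ℤ, (a : 𝓞 E) + b * θ = 0 → a = 0 ∧ b = 0) (Θ : ℝ)
    (hΘ1 : 1 ≤ Θ) (hΘ : ∀ φ : E →ₐ[ℚ] ℂ, ‖φ (θ : E)‖ ≤ Θ) (Y : ℕ) (hY : 1 ≤ Y) (S : Finset ℕ)
    (hS : ∀ p ∈ S, p.Prime ∧ finrank ℚ E ≤ (degOne E p).card) (cnt : ℕ → ℝ)
    (hcnt : ∀ p ∈ S, ∀ ρ : ℤ,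
      cnt p ≤ ((box Y).filter (fun v => (p : ℤ) ∣ v.1 + v.2 * ρ)).card) :
    ∑ p ∈ S, Real.log p * cnt p ≤ (2 * Y + 1) ^ 2 * Real.log (2 * Y * Θ) := by
  classical
  set d := finrank ℚ E with hd
  have hd0 : (0 : ℝ) < d := by exact_mod_cast finrank_pos
  have hY1 : (1 : ℝ) ≤ Y := by exact_mod_cast hY
  have h2YΘ : (1 : ℝ) ≤ 2 * Y * Θ := by nlinarith
  let α : ℤ × ℤ → 𝓞 E := fun v => (v.1 : 𝓞 E) + v.2 * θ
  have hα0 : ∀ v ∈ box Y, α v ≠ 0 := by
    intro v hv h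
    obtain ⟨h1, h2⟩ := hθ v.1 v.2 h
    rw [mem_box] at hv
    exact hv.1 (Prod.ext h1 h2)
  -- the size of the norms
  have hnorm : ∀ v ∈ box Y, (Ideal.absNorm (Ideal.span {α v}) : ℝ) ≤ (2 * Y * Θ) ^ d := by
    intro v hv
    apply absNorm_span_le
    intro φ
    rw [mem_box] at hv
    obtain ⟨_, ⟨h1, h2⟩, h3, h4⟩ := hv
    have e1 : ((α v : 𝓞 E) : E) = (v.1 : E) + v.2 * (θ : E) := by
      simp [α]
    rw [e1, map_add, map_mul, map_intCast, map_intCast]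
    have e2 : ‖((v.1 : ℤ) : ℂ)‖ ≤ Y := by
      rw [Complex.norm_intCast]
      have : |v.1| ≤ Y := abs_le.mpr ⟨h1, h2⟩
      exact_mod_cast this
    have e3 : ‖((v.2 : ℤ) : ℂ)‖ ≤ Y := by
      rw [Complex.norm_intCast]
      have : |v.2| ≤ Y := abs_le.mpr ⟨h3, h4⟩
      exact_mod_cast this
    calc ‖((v.1 : ℤ) : ℂ) + (v.2 : ℂ) * φ (θ : E)‖ ≤ ‖((v.1 : ℤ) : ℂ)‖ + ‖(v.2 : ℂ) * φ (θ : E)‖ :=
          norm_add_le _ _
      _ ≤ Y + Y * Θ := by
          rw [norm_mul]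
          exact add_le_add e2 (mul_le_mul e3 (hΘ φ) (norm_nonneg _) (by positivity))
      _ ≤ 2 * Y * Θ := by nlinarith
  -- each element has few small prime divisors
  have hdiv : ∀ v ∈ box Y, ∑ p ∈ S, ∑ Q ∈ (degOne E p).filter (fun Q => α v ∈ Q), Real.log p ≤
      d * Real.log (2 * Y * Θ) := by
    intro v hv
    have hdisj : Set.PairwiseDisjoint (S : Set ℕ)
        (fun p => (degOne E p).filter (fun Q => α v ∈ Q)) := by
      intro p hp q hq hpq
      rw [Function.onFun, Finset.disjoint_left]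
      intro Q hQ hQ'
      rw [mem_filter, mem_degOne (hS p hp).1] at hQ
      rw [mem_filter, mem_degOne (hS q hq).1] at hQ'
      exact hpq (hQ.1.symm.trans hQ'.1)
    have h1 : ∑ p ∈ S, ∑ Q ∈ (degOne E p).filter (fun Q => α v ∈ Q), Real.log p =
        ∑ Q ∈ S.biUnion (fun p => (degOne E p).filter (fun Q => α v ∈ Q)),
          Real.log (Ideal.absNorm Q) := by
      rw [Finset.sum_biUnion hdisj]
      apply Finset.sum_congr rfl
      intro p hp
      apply Finset.sum_congr rfl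
      intro Q hQ
      rw [mem_filter, mem_degOne (hS p hp).1] at hQ
      rw [hQ.1]
    rw [h1]
    set J := S.biUnion (fun p => (degOne E p).filter (fun Q => α v ∈ Q)) with hJ
    have hJmem : ∀ Q ∈ J, (Ideal.absNorm Q).Prime ∧ α v ∈ Q := by
      intro Q hQ
      rw [hJ, mem_biUnion] at hQ
      obtain ⟨p, hp, hQ⟩ := hQ
      rw [mem_filter, mem_degOne (hS p hp).1] at hQ
      exact ⟨by rw [hQ.1]; exact (hS p hp).1, hQ.2⟩
    have hJ0 : ∀ Q ∈ J, Q ≠ ⊥ := by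
      rintro Q hQ rfl
      have := (hJmem _ hQ).1
      rw [Ideal.absNorm_bot] at this
      exact Nat.not_prime_zero this
    have hprod : ∏ Q ∈ J, Q ∣ Ideal.span {α v} := by
      apply Finset.prod_primes_dvd
      · intro Q hQ
        exact Ideal.prime_of_isPrime (hJ0 Q hQ) (Ideal.isPrime_of_irreducible_absNorm (hJmem Q hQ).1)
      · intro Q hQ
        rw [Ideal.dvd_span_singleton]
        exact (hJmem Q hQ).2
    have hspan0 : Ideal.span {α v} ≠ ⊥ := by simpa using hα0 v hv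
    have h2 := Ideal.absNorm_dvd_absNorm_of_le (Ideal.le_of_dvd hprod)
    have h3 := Nat.le_of_dvd (absNorm_pos_of_ne_bot hspan0) h2
    rw [map_prod] at h3
    have h4 : (∏ Q ∈ J, (Ideal.absNorm Q : ℝ)) ≤ (2 * Y * Θ) ^ d := by
      refine le_trans ?_ (hnorm v hv)
      exact_mod_cast h3
    have hpos : ∀ Q ∈ J, (0 : ℝ) < Ideal.absNorm Q := fun Q hQ => by
      exact_mod_cast absNorm_pos_of_ne_bot (hJ0 Q hQ)
    have h5 := Real.log_le_log (Finset.prod_pos hpos) h4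
    rw [Real.log_prod (fun Q hQ => (hpos Q hQ).ne'), Real.log_pow] at h5
    exact h5
  -- double counting
  have hswap : ∑ v ∈ box Y, ∑ p ∈ S, ∑ Q ∈ (degOne E p).filter (fun Q => α v ∈ Q), Real.log p =
      ∑ p ∈ S, ∑ Q ∈ degOne E p, Real.log p * ((box Y).filter (fun v => α v ∈ Q)).card := by
    rw [Finset.sum_comm]
    apply Finset.sum_congr rfl
    intro p _
    simp_rw [Finset.sum_filter]
    rw [Finset.sum_comm]
    apply Finset.sum_congr rfl
    intro Q _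
    rw [← Finset.sum_filter, Finset.sum_const, nsmul_eq_mul, mul_comm]
  have hlow : ∀ p ∈ S, (d : ℝ) * (Real.log p * cnt p) ≤
      ∑ Q ∈ degOne E p, Real.log p * ((box Y).filter (fun v => α v ∈ Q)).card := by
    intro p hp
    obtain ⟨hpp, hpd⟩ := hS p hp
    have hlogp : 0 ≤ Real.log p := Real.log_nonneg (by exact_mod_cast hpp.one_lt.le)
    -- a uniform lower bound for the counts
    have h1 : ∀ Q ∈ degOne E p, cnt p ≤ (((box Y).filter (fun v => α v ∈ Q)).card : ℝ) := by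
      intro Q hQ
      rw [mem_degOne hpp] at hQ
      obtain ⟨ρ, hρ⟩ := exists_int_sub_mem (P := Q) (by rw [hQ]; exact hpp) θ
      refine (hcnt p hp ρ).trans ?_
      have h2 : ((box Y).filter (fun v => (p : ℤ) ∣ v.1 + v.2 * ρ)) ⊆
          ((box Y).filter (fun v => α v ∈ Q)) := by
        intro v hv
        rw [mem_filter] at hv ⊢
        refine ⟨hv.1, ?_⟩
        obtain ⟨c, hc⟩ := hv.2
        have h3 : α v = (v.2 : 𝓞 E) * (θ - (ρ : 𝓞 E)) + ((v.1 + v.2 * ρ : ℤ) : 𝓞 E) := by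
          simp only [α]; push_cast; ring
        rw [h3, hc]
        apply Q.add_mem (Q.mul_mem_left _ hρ)
        push_cast
        apply Q.mul_mem_right
        have := Ideal.absNorm_mem Q
        rw [hQ] at this
        exact this
      exact_mod_cast Finset.card_le_card h2
    have h0 : ∀ Q ∈ degOne E p, (0 : ℝ) ≤ (((box Y).filter (fun v => α v ∈ Q)).card : ℝ) :=
      fun Q _ => Nat.cast_nonneg _
    rcases le_or_gt 0 (cnt p) with hc | hc
    · calc (d : ℝ) * (Real.log p * cnt p) ≤ (degOne E p).card * (Real.log p * cnt p) := by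
            apply mul_le_mul_of_nonneg_right _ (mul_nonneg hlogp hc)
            exact_mod_cast hpd
        _ = ∑ Q ∈ degOne E p, Real.log p * cnt p := by
            rw [Finset.sum_const, nsmul_eq_mul]
        _ ≤ _ := Finset.sum_le_sum fun Q hQ => mul_le_mul_of_nonneg_left (h1 Q hQ) hlogp
    · calc (d : ℝ) * (Real.log p * cnt p) ≤ 0 := by
            apply mul_nonpos_of_nonneg_of_nonpos hd0.le
            exact mul_nonpos_of_nonneg_of_nonpos hlogp hc.le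
        _ ≤ _ := Finset.sum_nonneg fun Q hQ => mul_nonneg hlogp (h0 Q hQ)
  have hfin : (d : ℝ) * ∑ p ∈ S, Real.log p * cnt p ≤
      d * ((2 * Y + 1) ^ 2 * Real.log (2 * Y * Θ)) := by
    calc (d : ℝ) * ∑ p ∈ S, Real.log p * cnt p = ∑ p ∈ S, (d : ℝ) * (Real.log p * cnt p) := by
          rw [Finset.mul_sum]
      _ ≤ ∑ p ∈ S, ∑ Q ∈ degOne E p, Real.log p * ((box Y).filter (fun v => α v ∈ Q)).card :=
          Finset.sum_le_sum hlow
      _ = ∑ v ∈ box Y, ∑ p ∈ S, ∑ Q ∈ (degOne E p).filter (fun Q => α v ∈ Q), Real.log p :=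
          hswap.symm
      _ ≤ ∑ v ∈ box Y, d * Real.log (2 * Y * Θ) := Finset.sum_le_sum hdiv
      _ = (box Y).card * (d * Real.log (2 * Y * Θ)) := by
          rw [Finset.sum_const, nsmul_eq_mul]
      _ ≤ (2 * Y + 1) ^ 2 * (d * Real.log (2 * Y * Θ)) := by
          apply mul_le_mul_of_nonneg_right (card_box_le Y)
          exact mul_nonneg hd0.le (Real.log_nonneg h2YΘ)
      _ = _ := by ring
  exact le_of_mul_le_mul_left hfin hd0

end Pool.Agent.Lib.MP_695920_nt
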