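import Mathlib
import Pool.Agent.Lib.MP_695920_nt.EVSub
import Pool.Agent.Lib.MP_695920_nt.SplitMass

set_option autoImplicit false

open Finset NumberField Module IsDedekindDomain
open scoped nonZeroDivisors Pointwise

namespace Pool.Agent.Lib.MP_695920_nt

/-- a ramified prime divides the discriminant -/
lemma ramified_dvd {K : Type*} [Field K] [NumberField K] {p : ℕ} (hp : p.Prime)
    {P : Ideal (𝓞 K)} (hP : P.IsPrime) (hP0 : P ≠ ⊥) (hmem : (p : 𝓞 K) ∈ P)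
    (he : 2 ≤ Ideal.ramificationIdx' (Ideal.span {(p : ℤ)}) P) : p ∣ (discr K).natAbs := by
  have hmax := span_int_isMaximal hp
  have hne : Ideal.span {(p : ℤ)} ≠ ⊥ := by simpa using hp.ne_zero
  have h1 : P ^ 2 ∣ Ideal.map (algebraMap ℤ (𝓞 K)) (Ideal.span {(p : ℤ)}) := by
    rw [Ideal.dvd_iff_le]
    exact Ideal.le_pow_of_le_ramificationIdx' he
  have h2 := pow_sub_one_dvd_differentIdeal ℤ P 2 hne h1
  rw [Nat.add_sub_cancel_left 1 1, pow_one] at h2
  have h3 := Ideal.absNorm_dvd_absNorm_of_le (Ideal.le_of_dvd h2)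
  rw [absNorm_differentIdeal K] at h3
  exact (dvd_absNorm_of_mem hp hP hP0 hmem).trans h3

variable {L : Type*} [Field L] [NumberField L] [IsGalois ℚ L]

/-- the decomposition group of an unramified prime is cyclic -/
lemma isCyclic_stabilizer {p : ℕ} (hp : p.Prime) (hunr : ¬ p ∣ (discr L).natAbs)
    {P : Ideal (𝓞 L)} (hP : P.IsPrime) (hP0 : P ≠ ⊥) (hmem : (p : 𝓞 L) ∈ P) :
    IsCyclic (MulAction.stabilizer Gal(L/ℚ) P) := by
  classical
  have hover : P.LiesOver (Ideal.span {(p : ℤ)}) := liesOver_of_mem hP hp hmem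
  have hmax := span_int_isMaximal hp
  have hpr : (Ideal.span {(p : ℤ)}).IsPrime := hmax.isPrime
  have hne : Ideal.span {(p : ℤ)} ≠ ⊥ := by simpa using hp.ne_zero
  have hPmax : P.IsMaximal := hP.isMaximal hP0
  have hfin : Finite (ℤ ⧸ Ideal.span {(p : ℤ)}) := Ring.HasFiniteQuotients.finiteQuotient hne
  have hfinP : Finite (𝓞 L ⧸ P) := Ring.HasFiniteQuotients.finiteQuotient hP0
  have h1 : Ideal.ramificationIdx' (Ideal.span {(p : ℤ)}) P = 1 := by
    have h2 : ¬ 2 ≤ Ideal.ramificationIdx' (Ideal.span {(p : ℤ)}) P := fun h =>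
      hunr (ramified_dvd hp hP hP0 hmem h)
    have h3 := Ideal.IsDedekindDomain.ramificationIdx'_ne_zero_of_liesOver P hne
    omega
  rw [Ideal.ramificationIdx'_eq_ramificationIdx _ P hne] at h1
  have h2 := Ideal.card_inertia_eq_ramificationIdxIn (G := Gal(L/ℚ)) (Ideal.span {(p : ℤ)}) P
  rw [Ideal.ramificationIdxIn_eq_ramificationIdx (Ideal.span {(p : ℤ)}) P Gal(L/ℚ), h1] at h2
  have h3 : Ideal.inertia Gal(L/ℚ) P = ⊥ := Subgroup.eq_bot_of_card_eq _ h2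
  let _ : Field (ℤ ⧸ Ideal.span {(p : ℤ)}) := Ideal.Quotient.field _
  let _ : Field (𝓞 L ⧸ P) := Ideal.Quotient.field _
  apply isCyclic_of_injective (Ideal.Quotient.stabilizerHom P (Ideal.span {(p : ℤ)}) Gal(L/ℚ))
  rw [← MonoidHom.ker_eq_bot_iff, Ideal.Quotient.ker_stabilizerHom, Subgroup.eq_bot_iff_forall]
  intro g hg
  have h4 : (g : Gal(L/ℚ)) ∈ Ideal.inertia Gal(L/ℚ) P := hg
  rw [h3, Subgroup.mem_bot] at h4
  exact Subtype.ext h4

/-- below a field fixed by a group containing the decomposition group, the prime has degree one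
and is unramified -/
lemma under_deg_one {p : ℕ} (hp : p.Prime) {P : Ideal (𝓞 L)} (hP : P.IsPrime) (hP0 : P ≠ ⊥)
    (hmem : (p : 𝓞 L) ∈ P) {R : Subgroup Gal(L/ℚ)} (hR : MulAction.stabilizer Gal(L/ℚ) P ≤ R) :
    (P.under (𝓞 (fixF L R))).ramificationIdx ℤ = 1 ∧ (P.under (𝓞 (fixF L R))).inertiaDeg ℤ = 1 := by
  classical
  have hover : P.LiesOver (Ideal.span {(p : ℤ)}) := liesOver_of_mem hP hp hmem
  have hmax := span_int_isMaximal hp
  have hpr : (Ideal.span {(p : ℤ)}).IsPrime := hmax.isPrime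
  have hne : Ideal.span {(p : ℤ)} ≠ ⊥ := by simpa using hp.ne_zero
  have hPmax : P.IsMaximal := hP.isMaximal hP0
  have hfin : Finite (ℤ ⧸ Ideal.span {(p : ℤ)}) := Ring.HasFiniteQuotients.finiteQuotient hne
  have hgal := gal_fix (L := L) R
  set Q := P.under (𝓞 (fixF L R)) with hQ
  have hQp : Q.IsPrime := inferInstance
  have hPQ : P.LiesOver Q := ⟨rfl⟩
  have hmemQ : (p : 𝓞 (fixF L R)) ∈ Q := mem_of_under hmem _
  have hQ0 : Q ≠ ⊥ := by
    intro h
    rw [h, Ideal.mem_bot] at hmemQ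
    exact hp.ne_zero (by exact_mod_cast hmemQ)
  have hQmax : Q.IsMaximal := hQp.isMaximal hQ0
  have hfinQ : Finite (𝓞 (fixF L R) ⧸ Q) := Ring.HasFiniteQuotients.finiteQuotient hQ0
  have hQover : Q.LiesOver (Ideal.span {(p : ℤ)}) := liesOver_of_mem hQp hp hmemQ
  -- the two orders of the decomposition groups
  have h1 := Ideal.card_stabilizer_eq (G := Gal(L/ℚ)) (Ideal.span {(p : ℤ)}) P
  have h2 := Ideal.card_stabilizer_eq (G := R) Q P
  rw [Ideal.ramificationIdxIn_eq_ramificationIdx (Ideal.span {(p : ℤ)}) P Gal(L/ℚ),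
    Ideal.inertiaDegIn_eq_inertiaDeg (Ideal.span {(p : ℤ)}) P Gal(L/ℚ)] at h1
  rw [Ideal.ramificationIdxIn_eq_ramificationIdx Q P R,
    Ideal.inertiaDegIn_eq_inertiaDeg Q P R] at h2
  have h3 : Nat.card (MulAction.stabilizer R P) = Nat.card (MulAction.stabilizer Gal(L/ℚ) P) := by
    have h4 : MulAction.stabilizer R P = (MulAction.stabilizer Gal(L/ℚ) P).subgroupOf R := by
      ext g
      rw [MulAction.mem_stabilizer_iff, Subgroup.mem_subgroupOf, MulAction.mem_stabilizer_iff]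
      rfl
    rw [h4]
    exact Nat.card_congr (Subgroup.subgroupOfEquivOfLe hR).toEquiv
  have h4 := Ideal.ramificationIdx_tower (R := ℤ) Q P
  have h5 := Ideal.inertiaDeg_tower (R := ℤ) Q P
  have h2' : Nat.card (MulAction.stabilizer R P) =
      P.ramificationIdx (𝓞 (fixF L R)) * P.inertiaDeg (𝓞 (fixF L R)) := h2
  rw [h3, h1, h4, h5] at h2'
  have e1 := Ideal.ramificationIdx_pos P (𝓞 (fixF L R))
  have e2 := Ideal.inertiaDeg_pos P (𝓞 (fixF L R))
  have e3 : 0 < P.ramificationIdx (𝓞 (fixF L R)) * P.inertiaDeg (𝓞 (fixF L R)) := Nat.mul_pos e1 e2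
  have h6 : (Q.ramificationIdx ℤ * Q.inertiaDeg ℤ) *
      (P.ramificationIdx (𝓞 (fixF L R)) * P.inertiaDeg (𝓞 (fixF L R))) =
      1 * (P.ramificationIdx (𝓞 (fixF L R)) * P.inertiaDeg (𝓞 (fixF L R))) := by
    rw [one_mul]
    refine Eq.trans ?_ h2'
    ring
  have h7 := Nat.eq_of_mul_eq_mul_right e3 h6
  exact ⟨Nat.eq_one_of_mul_eq_one_right h7, Nat.eq_one_of_mul_eq_one_left h7⟩

lemma under_ugood {p : ℕ} (hp : p.Prime) {P : Ideal (𝓞 L)} (hP : P.IsPrime) (hP0 : P ≠ ⊥)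
    (hmem : (p : 𝓞 L) ∈ P) {R : Subgroup Gal(L/ℚ)} (hR : MulAction.stabilizer Gal(L/ℚ) P ≤ R) :
    UGood (P.under (𝓞 (fixF L R))) ∧ Ideal.absNorm (P.under (𝓞 (fixF L R))) = p := by
  obtain ⟨h1, h2⟩ := under_deg_one hp hP hP0 hmem hR
  have hne : Ideal.span {(p : ℤ)} ≠ ⊥ := by simpa using hp.ne_zero
  have hmemQ : (p : 𝓞 (fixF L R)) ∈ P.under (𝓞 (fixF L R)) := mem_of_under hmem _
  have hQp : (P.under (𝓞 (fixF L R))).IsPrime := inferInstance
  have hQover : (P.under (𝓞 (fixF L R))).LiesOver (Ideal.span {(p : ℤ)}) :=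
    liesOver_of_mem hQp hp hmemQ
  have h3 := Ideal.pow_inertiaDeg p (P.under (𝓞 (fixF L R)))
  rw [h2, pow_one] at h3
  refine ⟨⟨by rw [← h3]; exact hp, ?_⟩, h3.symm⟩
  rw [← h3, Ideal.ramificationIdx'_eq_ramificationIdx _ (P.under (𝓞 (fixF L R))) hne, h1]

/-- a prime with decomposition group inside a normal subgroup splits completely in the fixed field -/
lemma splits_of_le {p : ℕ} (hp : p.Prime) {P : Ideal (𝓞 L)} (hP : P.IsPrime) (hP0 : P ≠ ⊥)
    (hmem : (p : 𝓞 L) ∈ P) {R : Subgroup Gal(L/ℚ)} (hRn : R.Normal)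
    (hR : MulAction.stabilizer Gal(L/ℚ) P ≤ R) :
    finrank ℚ (fixF L R) ≤ (degOne (fixF L R) p).card := by
  classical
  obtain ⟨h1, h2⟩ := under_deg_one hp hP hP0 hmem hR
  set Q := P.under (𝓞 (fixF L R)) with hQ
  have hmemQ : (p : 𝓞 (fixF L R)) ∈ Q := mem_of_under hmem _
  have hQp : Q.IsPrime := inferInstance
  have hmax := span_int_isMaximal hp
  have hpr : (Ideal.span {(p : ℤ)}).IsPrime := hmax.isPrime
  have hQover : Q.LiesOver (Ideal.span {(p : ℤ)}) := liesOver_of_mem hQp hp hmemQ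
  have hgal : IsGalois ℚ (fixF L R) := IsGalois.of_fixedField_normal_subgroup R
  have h3 := Ideal.ncard_primesOver_mul_ramificationIdxIn_mul_inertiaDegIn (Ideal.span {(p : ℤ)})
    (𝓞 (fixF L R)) Gal((fixF L R)/ℚ)
  rw [Ideal.ramificationIdxIn_eq_ramificationIdx (Ideal.span {(p : ℤ)}) Q Gal((fixF L R)/ℚ),
    Ideal.inertiaDegIn_eq_inertiaDeg (Ideal.span {(p : ℤ)}) Q Gal((fixF L R)/ℚ), h1, h2, mul_one,
    mul_one, IsGalois.card_aut_eq_finrank] at h3
  rw [← h3, ← Set.ncard_coe_finset]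
  apply Set.ncard_le_ncard _ (Finset.finite_toSet _)
  intro Q' hQ'
  obtain ⟨hQ'p, hQ'o⟩ := hQ'
  rw [Finset.mem_coe, mem_degOne hp]
  have h4 := Ideal.pow_inertiaDeg p Q'
  have h5 := Ideal.inertiaDegIn_eq_inertiaDeg (Ideal.span {(p : ℤ)}) Q Gal((fixF L R)/ℚ)
  have h6 := Ideal.inertiaDegIn_eq_inertiaDeg (Ideal.span {(p : ℤ)}) Q' Gal((fixF L R)/ℚ)
  rw [← h4, ← h6, h5, h2, pow_one]

end Pool.Agent.Lib.MP_695920_nt
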