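import Mathlib
import Pool.Agent.Lib.MP_695920_nt.SplitMass
import Pool.Agent.Lib.MP_695920_nt.Theta

set_option autoImplicit false

open Finset NumberField Module IsDedekindDomain
open scoped nonZeroDivisors IntermediateField

namespace Pool.Agent.Lib.MP_695920_nt

open InfinitePlace mixedEmbedding in
/-- every number field has a small integral generator -/
lemma exists_small_gen' (K : Type*) [Field K] [NumberField K] :
    ∃ a : 𝓞 K, ℚ⟮(a : K)⟯ = ⊤ ∧ ∀ φ : K →+* ℂ,
      ‖φ (a : K)‖ ≤ Real.sqrt |(discr K : ℝ)| * 2 ^ finrank ℚ K + 2 := by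
  classical
  set B : NNReal := NNReal.sqrt ‖discr K‖₊ * 2 ^ finrank ℚ K + 1 with hB
  have hBr : (B : ℝ) = Real.sqrt |(discr K : ℝ)| * 2 ^ finrank ℚ K + 1 := by
    rw [hB]
    push_cast
    rw [Int.norm_eq_abs]
  have h0 : minkowskiBound K ↑1 < 1 * B := by
    calc minkowskiBound K 1 ≤ ((NNReal.sqrt ‖discr K‖₊ * 2 ^ finrank ℚ K : NNReal) : ENNReal) :=
          minkowskiBound_le K
      _ < B := by
        rw [ENNReal.coe_lt_coe, hB]
        exact lt_add_one _
      _ = 1 * B := by rw [one_mul]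
  obtain ⟨w₀⟩ : Nonempty (InfinitePlace K) := inferInstance
  rcases isReal_or_isComplex w₀ with hw₀ | hw₀
  · have h1 : minkowskiBound K ↑1 < convexBodyLTFactor K * B := by
      refine h0.trans_le ?_
      gcongr
      exact mod_cast one_le_convexBodyLTFactor K
    obtain ⟨a, ha, hw⟩ := exists_primitive_element_lt_of_isReal K hw₀ h1
    refine ⟨a, ha, fun φ => ?_⟩
    have h2 := (hw (InfinitePlace.mk φ)).le
    have h3 : InfinitePlace.mk φ (a : K) = ‖φ (a : K)‖ := rfl
    rw [h3] at h2
    refine h2.trans ?_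
    have h4 : max B 1 = B := max_eq_left (by rw [hB]; exact le_add_self)
    rw [h4, hBr]
    linarith
  · have h1 : minkowskiBound K ↑1 < convexBodyLT'Factor K * B := by
      refine h0.trans_le ?_
      gcongr
      exact mod_cast one_le_convexBodyLT'Factor K
    obtain ⟨a, ha, hw⟩ := exists_primitive_element_lt_of_isComplex K hw₀ h1
    refine ⟨a, ha, fun φ => ?_⟩
    have h2 := (hw (InfinitePlace.mk φ)).le
    have h3 : InfinitePlace.mk φ (a : K) = ‖φ (a : K)‖ := rfl
    rw [h3] at h2
    refine h2.trans ?_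
    have h5 : (0 : ℝ) ≤ B := B.2
    rw [Real.sqrt_le_left (by positivity), hBr]
    have h6 : 0 ≤ Real.sqrt |(discr K : ℝ)| * 2 ^ finrank ℚ K := by positivity
    nlinarith

lemma sum_log_primes_le (N : ℕ) : ∑ p ∈ (Icc 0 N).filter Nat.Prime, Real.log p ≤ Real.log 4 * N := by
  have h1 := Chebyshev.theta_le_log4_mul_x (x := (N : ℝ)) (Nat.cast_nonneg N)
  rw [Chebyshev.theta_eq_sum_Icc, Nat.floor_natCast] at h1
  exact h1

theorem nonsplit_aux {E : Type*} [Field E] [NumberField E] (θ : 𝓞 E)
    (hθ : ∀ a b : ℤ, (a : 𝓞 E) + b * θ = 0 → a = 0 ∧ b = 0) (Θ : ℝ)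
    (hΘ1 : 1 ≤ Θ) (hΘ : ∀ φ : E →ₐ[ℚ] ℂ, ‖φ (θ : E)‖ ≤ Θ) (w : ℕ)
    (hw1 : 1 < w) (hw : Real.log (2 * Θ) + 6 ≤ 2 * Real.log w) :
    (w : ℝ) / 32 ≤ (((Icc 0 (w ^ 32)).filter Nat.Prime).filter
      (fun p => (degOne E p).card < finrank ℚ E)).card := by
  classical
  set d := finrank ℚ E with hd
  set Y := w ^ 16 with hY
  have hY2 : w ^ 32 = Y ^ 2 := by rw [hY, ← pow_mul]
  rw [hY2]
  have hYw : (Y : ℝ) = (w : ℝ) ^ 16 := by rw [hY]; push_cast; rfl
  have hw1' : (1 : ℝ) < w := by exact_mod_cast hw1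
  have hY1 : 1 ≤ Y := Nat.one_le_pow _ _ (by omega)
  have hY1' : (1 : ℝ) ≤ Y := by exact_mod_cast hY1
  have hlogw : 0 < Real.log w := Real.log_pos hw1'
  have hlogY : Real.log Y = 16 * Real.log w := by
    rw [hYw, Real.log_pow]; norm_num
  set PP := (Icc 0 (Y ^ 2)).filter Nat.Prime with hPP
  set S := PP.filter (fun p => d ≤ (degOne E p).card) with hS
  set NN := PP.filter (fun p => (degOne E p).card < d) with hNN
  let cnt : ℕ → ℝ := fun p => if p ≤ Y then (2 * Y + 1 : ℝ) * ((2 * Y + 1) / p - 1) - 1 else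
    ((Y : ℝ) + 1) ^ 2 / p - 1
  have hmass := split_mass θ hθ Θ hΘ1 hΘ Y hY1 S (by
    intro p hp
    rw [hS, mem_filter, hPP, mem_filter] at hp
    exact ⟨hp.1.2, hp.2⟩) cnt (by
    intro p hp ρ
    rw [hS, mem_filter, hPP, mem_filter] at hp
    simp only [cnt]
    split_ifs
    · exact cnt_small hp.1.2.pos Y ρ
    · exact cnt_large hp.1.2.pos Y ρ)
  set A : ℝ := (2 * Y + 1) ^ 2 with hA
  have hA0 : 0 < A := by rw [hA]; positivity
  let g : ℕ → ℝ := fun p => if p ≤ Y then 1 else 1 / 4
  have hg0 : ∀ p, 0 ≤ g p := by intro p; simp only [g]; split_ifs <;> norm_num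
  have hg1 : ∀ p, g p ≤ 1 := by intro p; simp only [g]; split_ifs <;> norm_num
  -- pointwise lower bound
  have hpt : ∀ p ∈ S, A * (g p * (Real.log p / p)) -
      ((if p ≤ Y then (2 * Y + 2 : ℝ) * Real.log p else 0) + Real.log p) ≤ Real.log p * cnt p := by
    intro p hp
    rw [hS, mem_filter, hPP, mem_filter] at hp
    have hpp := hp.1.2
    have hp0 : (0 : ℝ) < p := by exact_mod_cast hpp.pos
    have hlogp : 0 ≤ Real.log p := Real.log_nonneg (by exact_mod_cast hpp.one_lt.le)
    simp only [cnt, g]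
    split_ifs with h
    · have e : Real.log p * ((2 * Y + 1 : ℝ) * ((2 * Y + 1) / p - 1) - 1) =
          A * (1 * (Real.log p / p)) - (2 * Y + 2) * Real.log p := by
        rw [hA]; field_simp; ring
      rw [e]
      linarith
    · have e : Real.log p * (((Y : ℝ) + 1) ^ 2 / p - 1) =
          ((Y : ℝ) + 1) ^ 2 * (Real.log p / p) - Real.log p := by
        field_simp
      rw [e]
      have e2 : A * (1 / 4 * (Real.log p / p)) ≤ ((Y : ℝ) + 1) ^ 2 * (Real.log p / p) := by
        rw [← mul_assoc]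
        apply mul_le_mul_of_nonneg_right _ (by positivity)
        rw [hA]
        nlinarith
      linarith
  have hsum1 := (Finset.sum_le_sum hpt).trans hmass
  rw [Finset.sum_sub_distrib, ← Finset.mul_sum, Finset.sum_add_distrib] at hsum1
  -- error terms
  have herr1 : ∑ p ∈ S, (if p ≤ Y then (2 * Y + 2 : ℝ) * Real.log p else 0) ≤
      (2 * Y + 2) * (Real.log 4 * Y) := by
    rw [← Finset.sum_filter, ← Finset.mul_sum]
    apply mul_le_mul_of_nonneg_left _ (by positivity)
    refine le_trans ?_ (sum_log_primes_le Y)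
    apply Finset.sum_le_sum_of_subset_of_nonneg
    · intro p hp
      rw [mem_filter, hS, mem_filter, hPP, mem_filter] at hp
      rw [mem_filter, mem_Icc]
      exact ⟨⟨Nat.zero_le _, hp.2⟩, hp.1.1.2⟩
    · intro p hp _
      rw [mem_filter] at hp
      exact Real.log_nonneg (by exact_mod_cast hp.2.one_lt.le)
  have herr2 : ∑ p ∈ S, Real.log p ≤ Real.log 4 * (Y : ℝ) ^ 2 := by
    refine le_trans ?_ (le_trans (sum_log_primes_le (Y ^ 2)) (by push_cast; exact le_rfl))
    apply Finset.sum_le_sum_of_subset_of_nonneg (Finset.filter_subset _ _)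
    intro p hp _
    rw [mem_filter] at hp
    exact Real.log_nonneg (by exact_mod_cast hp.2.one_lt.le)
  have hlog4 : Real.log 4 ≤ 1.4 := by
    rw [show (4 : ℝ) = 2 ^ 2 by norm_num, Real.log_pow]
    have := Real.log_two_lt_d9
    push_cast
    linarith
  have hlog4' : 0 ≤ Real.log 4 := Real.log_nonneg (by norm_num)
  have herr : (2 * Y + 2) * (Real.log 4 * Y) + Real.log 4 * (Y : ℝ) ^ 2 ≤ 1.05 * A := by
    have e1 : (2 * Y + 2) * (Real.log 4 * Y) + Real.log 4 * (Y : ℝ) ^ 2 =
        Real.log 4 * (3 * (Y : ℝ) ^ 2 + 2 * Y) := by ring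
    rw [e1, hA]
    have e2 : Real.log 4 * (3 * (Y : ℝ) ^ 2 + 2 * Y) ≤ 1.4 * (3 * (Y : ℝ) ^ 2 + 2 * Y) :=
      mul_le_mul_of_nonneg_right hlog4 (by positivity)
    nlinarith
  have hmain1 : ∑ p ∈ S, g p * (Real.log p / p) ≤ Real.log (2 * Y * Θ) + 1.05 := by
    have h1 : A * ∑ p ∈ S, g p * (Real.log p / p) ≤ A * (Real.log (2 * Y * Θ) + 1.05) := by
      have e : A * (Real.log (2 * Y * Θ) + 1.05) = A * Real.log (2 * Y * Θ) + 1.05 * A := by ring
      rw [e]
      linarith
    exact le_of_mul_le_mul_left h1 hA0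
  -- the full sum
  have hterm0 : ∀ p ∈ PP, 0 ≤ Real.log p / (p : ℝ) := by
    intro p hp
    rw [hPP, mem_filter] at hp
    have := Real.log_nonneg (show (1 : ℝ) ≤ p by exact_mod_cast hp.2.one_lt.le)
    positivity
  have hfull : mert Y + 1 / 4 * (mert (Y ^ 2) - mert Y) ≤ ∑ p ∈ PP, g p * (Real.log p / p) := by
    have h1 : ∑ p ∈ PP, g p * (Real.log p / p) =
        ∑ p ∈ PP.filter (fun p => p ≤ Y), Real.log p / p +
        1 / 4 * ∑ p ∈ PP.filter (fun p => ¬ p ≤ Y), Real.log p / p := by
      rw [← Finset.sum_filter_add_sum_filter_not PP (fun p => p ≤ Y), Finset.mul_sum]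
      congr 1
      · apply Finset.sum_congr rfl
        intro p hp
        simp only [g, (mem_filter.mp hp).2, if_true, one_mul]
      · apply Finset.sum_congr rfl
        intro p hp
        simp only [g, (mem_filter.mp hp).2, if_false]
    have h2 : ∑ p ∈ PP.filter (fun p => p ≤ Y), Real.log p / (p : ℝ) = mert Y := by
      unfold mert
      congr 1
      ext p
      rw [hPP, mem_filter, mem_filter, mem_filter, mem_Icc, mem_Icc]
      constructor
      · rintro ⟨⟨⟨_, _⟩, h3⟩, h4⟩; exact ⟨⟨Nat.zero_le _, h4⟩, h3⟩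
      · rintro ⟨⟨_, h3⟩, h4⟩
        refine ⟨⟨⟨Nat.zero_le _, h3.trans ?_⟩, h4⟩, h3⟩
        rw [sq]
        exact Nat.le_mul_of_pos_left _ (by omega)
    have h3 : ∑ p ∈ PP.filter (fun p => p ≤ Y), Real.log p / (p : ℝ) +
        ∑ p ∈ PP.filter (fun p => ¬ p ≤ Y), Real.log p / (p : ℝ) = mert (Y ^ 2) := by
      rw [Finset.sum_filter_add_sum_filter_not]
      rfl
    rw [h1]
    rw [h2] at h3 ⊢
    linarith
  have hsplit : ∑ p ∈ PP, g p * (Real.log p / p) =
      ∑ p ∈ S, g p * (Real.log p / p) + ∑ p ∈ NN, g p * (Real.log p / p) := by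
    rw [← Finset.sum_filter_add_sum_filter_not PP (fun p => d ≤ (degOne E p).card)]
    congr 1
    apply Finset.sum_congr _ (fun _ _ => rfl)
    rw [hNN]
    congr 1
    ext p
    exact not_le
  have hNNle : ∑ p ∈ NN, g p * (Real.log p / p) ≤ ∑ p ∈ NN, Real.log p / p := by
    apply Finset.sum_le_sum
    intro p hp
    have := hterm0 p (Finset.filter_subset _ _ hp)
    calc g p * (Real.log p / p) ≤ 1 * (Real.log p / p) := mul_le_mul_of_nonneg_right (hg1 p) this
      _ = _ := one_mul _
  -- upper bound for the sum over the nonsplit primes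
  have hNNup : ∑ p ∈ NN, Real.log p / (p : ℝ) ≤
      (Real.log w + Real.log 4) + NN.card * (32 * Real.log w / w) := by
    rw [← Finset.sum_filter_add_sum_filter_not NN (fun p => p ≤ w)]
    apply add_le_add
    · refine le_trans ?_ (mert_le w (by omega))
      unfold mert
      apply Finset.sum_le_sum_of_subset_of_nonneg
      · intro p hp
        rw [mem_filter, hNN, mem_filter, hPP, mem_filter] at hp
        rw [mem_filter, mem_Icc]
        exact ⟨⟨Nat.zero_le _, hp.2⟩, hp.1.1.2⟩
      · intro p hp _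
        rw [mem_filter] at hp
        have := Real.log_nonneg (show (1 : ℝ) ≤ p by exact_mod_cast hp.2.one_lt.le)
        positivity
    · calc ∑ p ∈ NN.filter (fun p => ¬ p ≤ w), Real.log p / (p : ℝ)
          ≤ ∑ p ∈ NN.filter (fun p => ¬ p ≤ w), 32 * Real.log w / w := by
            apply Finset.sum_le_sum
            intro p hp
            rw [mem_filter, hNN, mem_filter, hPP, mem_filter, mem_Icc] at hp
            obtain ⟨⟨⟨⟨_, h1⟩, h2⟩, _⟩, h3⟩ := hp
            have h4 : (w : ℝ) ≤ p := by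
              have : w ≤ p := by omega
              exact_mod_cast this
            have h5 : Real.log p ≤ 32 * Real.log w := by
              have h6 : Real.log p ≤ Real.log ((Y : ℝ) ^ 2) :=
                Real.log_le_log (by linarith) (by exact_mod_cast h1)
              rw [Real.log_pow, hlogY] at h6
              push_cast at h6
              linarith
            have h7 : 0 ≤ Real.log p := Real.log_nonneg (by linarith)
            calc Real.log p / (p : ℝ) ≤ Real.log p / w :=
                  div_le_div_of_nonneg_left h7 (by linarith) h4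
              _ ≤ 32 * Real.log w / w := div_le_div_of_nonneg_right h5 (by linarith)
        _ = (NN.filter (fun p => ¬ p ≤ w)).card * (32 * Real.log w / w) := by
            rw [Finset.sum_const, nsmul_eq_mul]
        _ ≤ _ := by
            apply mul_le_mul_of_nonneg_right _ (by positivity)
            exact_mod_cast Finset.card_filter_le _ _
  have hm1 := mert_ge Y hY1
  have hm2 := mert_ge (Y ^ 2) (Nat.one_le_pow _ _ hY1)
  have hlogY2 : Real.log ((Y ^ 2 : ℕ) : ℝ) = 2 * Real.log Y := by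
    push_cast
    rw [Real.log_pow]
    norm_num
  rw [hlogY2] at hm2
  have hlog2YΘ : Real.log (2 * Y * Θ) = Real.log Y + Real.log (2 * Θ) := by
    rw [← Real.log_mul (by positivity) (by positivity)]
    congr 1
    ring
  rw [hlog2YΘ, hlogY] at hmain1
  rw [hlogY] at hm1 hm2
  have hfinal : Real.log w ≤ NN.card * (32 * Real.log w / w) := by linarith
  have h1 : Real.log w * 1 ≤ Real.log w * (NN.card * 32 / w) := by
    rw [mul_one]
    refine hfinal.trans (le_of_eq ?_)
    ring
  have h2 := le_of_mul_le_mul_left h1 hlogw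
  have hwpos : (0 : ℝ) < w := by linarith
  rw [le_div_iff₀ hwpos] at h2
  rw [div_le_iff₀ (by norm_num)]
  linarith

/-- In every number field of degree at least two many small primes do not split completely. -/
theorem nonsplit {E : Type*} [Field E] [NumberField E] (hE : 1 < finrank ℚ E) (w : ℕ)
    (hw1 : 1 < w)
    (hw : (finrank ℚ E : ℝ) + 8 + Real.log |(discr E : ℝ)| / 2 ≤ 2 * Real.log w) :
    (w : ℝ) / 32 ≤ (((Icc 0 (w ^ 32)).filter Nat.Prime).filter
      (fun p => (degOne E p).card < finrank ℚ E)).card := by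
  obtain ⟨θ, hgen, hφ⟩ := exists_small_gen' E
  have hD3 := three_le_discr hE
  set D : ℝ := |(discr E : ℝ)| with hD
  have hsD : 1 ≤ Real.sqrt D := by
    apply Real.le_sqrt_of_sq_le
    linarith
  have h2d : (2 : ℝ) ≤ 2 ^ finrank ℚ E := by
    calc (2 : ℝ) = 2 ^ 1 := by norm_num
      _ ≤ 2 ^ finrank ℚ E := pow_le_pow_right₀ (by norm_num) hE.le
  have hΘ1 : 1 ≤ Real.sqrt D * 2 ^ finrank ℚ E + 2 := by
    have : 0 ≤ Real.sqrt D * 2 ^ finrank ℚ E := by positivity
    linarith
  refine nonsplit_aux θ ?_ (Real.sqrt D * 2 ^ finrank ℚ E + 2) hΘ1 (fun φ => hφ φ.toRingHom) w hw1 ?_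
  · intro a b hab
    have hab' : (a : E) + b * (θ : E) = 0 := by
      have := congrArg (algebraMap (𝓞 E) E) hab
      simpa using this
    by_cases hb : b = 0
    · subst hb
      refine ⟨?_, rfl⟩
      simp only [Int.cast_zero, zero_mul, add_zero] at hab'
      exact_mod_cast hab'
    · exfalso
      have hb' : (b : E) ≠ 0 := by exact_mod_cast hb
      have h1 : (θ : E) = algebraMap ℚ E (-(a : ℚ) / b) := by
        rw [map_div₀, map_neg, map_intCast, map_intCast, eq_div_iff hb']
        linear_combination hab'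
      have h2 : ℚ⟮(θ : E)⟯ = ⊥ := by
        rw [IntermediateField.adjoin_simple_eq_bot_iff, IntermediateField.mem_bot]
        exact ⟨_, h1.symm⟩
      rw [h2] at hgen
      have h3 : finrank ℚ E = 1 := by
        rw [← IntermediateField.finrank_top' (F := ℚ) (E := E), ← hgen,
          IntermediateField.finrank_bot]
      omega
  · refine le_trans ?_ hw
    have h1 : 2 * (Real.sqrt D * 2 ^ finrank ℚ E + 2) ≤ 2 ^ (finrank ℚ E + 2) * Real.sqrt D := by
      rw [pow_add]
      nlinarith
    have h2 := Real.log_le_log (by positivity) h1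
    have h2' : Real.log (2 ^ (finrank ℚ E + 2) * Real.sqrt D) =
        ((finrank ℚ E + 2 : ℕ) : ℝ) * Real.log 2 + Real.log D / 2 := by
      rw [Real.log_mul (by positivity) (by positivity), Real.log_pow, Real.log_sqrt (by linarith)]
    rw [h2'] at h2
    have h3 : Real.log 2 ≤ 1 := by linarith [Real.log_two_lt_d9]
    have h4 : ((finrank ℚ E + 2 : ℕ) : ℝ) * Real.log 2 ≤ ((finrank ℚ E + 2 : ℕ) : ℝ) * 1 :=
      mul_le_mul_of_nonneg_left h3 (Nat.cast_nonneg _)
    push_cast at h2 h4
    linarith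

end Pool.Agent.Lib.MP_695920_nt
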