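import Mathlib
import Pool.Agent.Lib.MP_695920_nt.NonSplit
import Pool.Agent.Lib.MP_695920_nt.Decomp

set_option autoImplicit false

open Finset NumberField Module IsDedekindDomain
open scoped nonZeroDivisors Pointwise IntermediateField

namespace Pool.Agent.Lib.MP_695920_nt

variable {L : Type*} [Field L] [NumberField L] [IsGalois ℚ L]

lemma mem_fixF {H : Subgroup Gal(L/ℚ)} {x : L} : x ∈ fixF L H ↔ ∀ g ∈ H, g x = x := by
  constructor
  · intro h g hg
    exact h ⟨g, hg⟩
  · intro h g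
    exact h g.1 g.2

lemma fixing_fixF (H : Subgroup Gal(L/ℚ)) : (fixF L H).fixingSubgroup = H :=
  IntermediateField.fixingSubgroup_fixedField H

lemma mem_of_fix {H : Subgroup Gal(L/ℚ)} {a : fixF L H} (ha : ℚ⟮a⟯ = ⊤) {g : Gal(L/ℚ)}
    (hg : g (a : L) = (a : L)) : g ∈ H := by
  rw [← fixing_fixF H, IntermediateField.mem_fixingSubgroup_iff]
  intro x hx
  let F0 : IntermediateField ℚ (fixF L H) :=
    (fixF L (Subgroup.zpowers g)).comap (fixF L H).val
  have h1 : a ∈ F0 := by
    change (fixF L H).val a ∈ fixF L (Subgroup.zpowers g)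
    rw [mem_fixF]
    intro g' hg'
    obtain ⟨k, rfl⟩ := Subgroup.mem_zpowers_iff.mp hg'
    have h2 : g ∈ MulAction.stabilizer Gal(L/ℚ) (a : L) := hg
    exact (zpow_mem h2 k : _)
  have h2 : (⊤ : IntermediateField ℚ (fixF L H)) ≤ F0 := by
    rw [← ha, IntermediateField.adjoin_simple_le_iff]
    exact h1
  have h3 : (⟨x, hx⟩ : fixF L H) ∈ F0 := h2 (IntermediateField.mem_top)
  have h4 : x ∈ fixF L (Subgroup.zpowers g) := h3
  rw [mem_fixF] at h4
  exact h4 g (Subgroup.mem_zpowers g)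

lemma gen_of_trivial_stab {θ : L} (h : ∀ g : Gal(L/ℚ), g ≠ 1 → g θ ≠ θ) : ℚ⟮θ⟯ = ⊤ := by
  have h1 : (ℚ⟮θ⟯).fixingSubgroup = ⊥ := by
    rw [Subgroup.eq_bot_iff_forall]
    intro g hg
    by_contra hne
    rw [IntermediateField.mem_fixingSubgroup_iff] at hg
    exact h g hne (hg θ (IntermediateField.mem_adjoin_simple_self ℚ θ))
  have h2 := IsGalois.fixedField_fixingSubgroup ℚ⟮θ⟯
  rw [← h2, h1]
  exact IntermediateField.fixedField_bot

/-- a constant -/
noncomputable def cc (n r : ℕ) : ℝ :=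
  n ^ 2 * (Real.log (2 * (r * (n * r + 1) ^ r)) + (n + 2))

/-- the discriminant of a compositum -/
theorem composite_bound (S : Finset (Subgroup Gal(L/ℚ))) (hS : ∀ g : Gal(L/ℚ), (∀ H ∈ S, g ∈ H) → g = 1)
    (hSne : S.Nonempty)
    (T : ℝ) (hT1 : 1 ≤ T) (hT : ∀ H ∈ S, |(discr (fixF L H) : ℝ)| ≤ T) :
    Real.log |(discr L : ℝ)| ≤ cc (finrank ℚ L) S.card + (finrank ℚ L : ℝ) ^ 2 * Real.log T := by
  classical
  set n := finrank ℚ L with hn
  set r := S.card with hr
  have hn1 : 1 ≤ n := finrank_pos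
  have hr1 : 1 ≤ r := Finset.card_pos.mpr hSne
  have hcardG : Fintype.card Gal(L/ℚ) = n := by
    rw [← Nat.card_eq_fintype_card, IsGalois.card_aut_eq_finrank]
  let e : S ≃ Fin r := S.equivFin
  -- generators
  have hgen := fun i : Fin r => exists_small_gen' (fixF L (e.symm i).1)
  choose a ha hφ using hgen
  let x : Fin r → L := fun i => (((a i : 𝓞 (fixF L (e.symm i).1)) : fixF L (e.symm i).1) : L)
  set B : ℝ := Real.sqrt T * 2 ^ n + 2 with hB
  have hB0 : 0 < B := by positivity
  have hxB : ∀ i, ∀ φ : L →ₐ[ℚ] ℂ, ‖φ (x i)‖ ≤ B := by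
    intro i φ
    have h1 := hφ i (φ.comp (fixF L (e.symm i).1).val).toRingHom
    have h2 : (φ.comp (fixF L (e.symm i).1).val).toRingHom
      ((a i : 𝓞 (fixF L (e.symm i).1)) : fixF L (e.symm i).1) = φ (x i) := rfl
    rw [h2] at h1
    refine h1.trans ?_
    rw [hB]
    apply add_le_add_left
    apply mul_le_mul
    · exact Real.sqrt_le_sqrt (hT _ (e.symm i).2)
    · apply pow_le_pow_right₀ (by norm_num)
      have h3 := finrank_mul_finrank ℚ (fixF L (e.symm i).1) L
      rw [hn, ← h3]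
      exact Nat.le_mul_of_pos_right _ finrank_pos
    · positivity
    · positivity
  -- the polynomials
  let Pg : Gal(L/ℚ) → Polynomial L := fun g =>
    ∑ i : Fin r, Polynomial.monomial (i : ℕ) (g (x i) - x i)
  have hPg0 : ∀ g : Gal(L/ℚ), g ≠ 1 → Pg g ≠ 0 := by
    intro g hg h0
    apply hg
    apply hS
    intro H hH
    have h1 : (Pg g).coeff (e ⟨H, hH⟩ : ℕ) = 0 := by rw [h0, Polynomial.coeff_zero]
    simp only [Pg, Polynomial.finsetSum_coeff, Polynomial.coeff_monomial] at h1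
    rw [Finset.sum_eq_single (e ⟨H, hH⟩)] at h1
    · rw [if_pos rfl, sub_eq_zero] at h1
      have h2 := mem_of_fix (ha (e ⟨H, hH⟩)) (g := g) h1
      simpa using h2
    · intro j _ hj
      rw [if_neg]
      intro h
      exact hj (Fin.ext h)
    · intro h
      exact absurd (Finset.mem_univ _) h
  have hdeg : ∀ g, (Pg g).natDegree ≤ r := by
    intro g
    apply Polynomial.natDegree_sum_le_of_forall_le
    intro i _
    exact (Polynomial.natDegree_monomial_le _).trans i.2.le
  let PP : Polynomial L := ∏ g ∈ (Finset.univ : Finset Gal(L/ℚ)).erase 1, Pg g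
  have hPP0 : PP ≠ 0 := by
    rw [Finset.prod_ne_zero_iff]
    intro g hg
    exact hPg0 g (Finset.ne_of_mem_erase hg)
  have hPPdeg : PP.natDegree ≤ n * r := by
    refine (Polynomial.natDegree_prod_le _ _).trans ?_
    calc ∑ g ∈ (Finset.univ : Finset Gal(L/ℚ)).erase 1, (Pg g).natDegree
        ≤ ∑ g ∈ (Finset.univ : Finset Gal(L/ℚ)).erase 1, r := Finset.sum_le_sum fun g _ => hdeg g
      _ = ((Finset.univ : Finset Gal(L/ℚ)).erase 1).card * r := by
          rw [Finset.sum_const, smul_eq_mul]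
      _ ≤ n * r := by
          apply Nat.mul_le_mul_right
          refine (Finset.card_le_card (Finset.erase_subset _ _)).trans ?_
          rw [Finset.card_univ, hcardG]
  obtain ⟨t, ht⟩ : ∃ t : Fin (n * r + 1), PP.eval (((t : ℕ) : L)) ≠ 0 := by
    by_contra hcon
    push Not at hcon
    apply hPP0
    apply Polynomial.eq_zero_of_natDegree_lt_card_of_eval_eq_zero PP
      (f := fun t : Fin (n * r + 1) => (((t : ℕ) : L)))
    · intro s t hst
      have hst' : ((s : ℕ) : L) = ((t : ℕ) : L) := hst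
      exact Fin.ext (by exact_mod_cast hst')
    · exact hcon
    · rw [Fintype.card_fin]
      omega
  rw [Polynomial.eval_prod, Finset.prod_ne_zero_iff] at ht
  -- the generator
  let θ : L := ∑ i : Fin r, ((t : ℕ) : L) ^ (i : ℕ) * x i
  have hθint : IsIntegral ℤ θ := by
    apply IsIntegral.sum
    intro i _
    apply IsIntegral.mul
    · exact IsIntegral.pow (isIntegral_natCast _) _
    · have h1 : IsIntegral ℤ ((a i : 𝓞 (fixF L (e.symm i).1)) : fixF L (e.symm i).1) :=
        RingOfIntegers.isIntegral_coe (a i)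
      exact h1.map (fixF L (e.symm i).1).val
  have hgenθ : ℚ⟮θ⟯ = ⊤ := by
    apply gen_of_trivial_stab
    intro g hg h
    apply ht g (Finset.mem_erase.mpr ⟨hg, Finset.mem_univ _⟩)
    have h1 : Polynomial.eval (((t : ℕ) : L)) (Pg g) = g θ - θ := by
      simp only [Pg, θ, Polynomial.eval_finsetSum, Polynomial.eval_monomial, map_sum, map_mul,
        map_pow, map_natCast]
      rw [← Finset.sum_sub_distrib]
      apply Finset.sum_congr rfl
      intro i _
      ring
    rw [h1, h, sub_self]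
  set X : ℝ := r * (n * r + 1) ^ r * B with hX
  have hθX : ∀ φ : L →ₐ[ℚ] ℂ, ‖φ θ‖ ≤ X := by
    intro φ
    simp only [θ]
    rw [map_sum]
    refine (norm_sum_le _ _).trans ?_
    calc ∑ i : Fin r, ‖φ (((t : ℕ) : L) ^ (i : ℕ) * x i)‖
        ≤ ∑ i : Fin r, ((n * r + 1 : ℝ) ^ r * B) := by
          apply Finset.sum_le_sum
          intro i _
          rw [map_mul, map_pow, map_natCast, norm_mul, norm_pow, Complex.norm_natCast]
          apply mul_le_mul _ (hxB i φ) (norm_nonneg _) (by positivity)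
          have h1 : ((t : ℕ) : ℝ) ≤ n * r + 1 := by
            have := t.2
            exact_mod_cast this.le
          calc ((t : ℕ) : ℝ) ^ (i : ℕ) ≤ (n * r + 1 : ℝ) ^ (i : ℕ) :=
                pow_le_pow_left₀ (Nat.cast_nonneg _) h1 _
            _ ≤ (n * r + 1 : ℝ) ^ r := by
                apply pow_le_pow_right₀ _ i.2.le
                have : (0 : ℝ) ≤ n * r := by positivity
                linarith
      _ = X := by
          rw [Finset.sum_const, Finset.card_univ, Fintype.card_fin, nsmul_eq_mul, hX]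
          ring
  let θ' : 𝓞 L := ⟨θ, hθint⟩
  have hdisc := disc_le_of_gen θ' hgenθ X hθX
  rw [← hn] at hdisc
  have hr1' : (1 : ℝ) ≤ r := by exact_mod_cast hr1
  have hn1' : (1 : ℝ) ≤ n := by exact_mod_cast hn1
  have hnr1 : (1 : ℝ) ≤ (n * r + 1 : ℝ) ^ r := by
    apply one_le_pow₀
    have : (0 : ℝ) ≤ n * r := by positivity
    linarith
  have hX0 : 0 < X := by rw [hX]; positivity
  have hDpos : (0 : ℝ) < |(discr L : ℝ)| := abs_pos.mpr (by exact_mod_cast discr_ne_zero L)
  have hlog := Real.log_le_log hDpos hdisc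
  rw [Real.log_pow] at hlog
  have hsT : 1 ≤ Real.sqrt T := by
    apply Real.le_sqrt_of_sq_le
    linarith
  have hlogB : Real.log B ≤ (n + 2) + Real.log T / 2 := by
    have h1 : B ≤ 2 ^ (n + 1) * Real.sqrt T := by
      rw [hB, pow_succ]
      have h2 : (2 : ℝ) ≤ 2 ^ n := by
        calc (2 : ℝ) = 2 ^ 1 := by norm_num
          _ ≤ 2 ^ n := pow_le_pow_right₀ (by norm_num) hn1
      nlinarith
    have h2 := Real.log_le_log hB0 h1
    rw [Real.log_mul (by positivity) (by positivity), Real.log_pow, Real.log_sqrt (by linarith)] at h2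
    have h3 : Real.log 2 ≤ 1 := by linarith [Real.log_two_lt_d9]
    have h4 : ((n + 1 : ℕ) : ℝ) * Real.log 2 ≤ ((n + 1 : ℕ) : ℝ) * 1 :=
      mul_le_mul_of_nonneg_left h3 (Nat.cast_nonneg _)
    push_cast at h2 h4
    linarith
  have hlog2X : Real.log (2 * X) = Real.log (2 * (r * (n * r + 1) ^ r)) + Real.log B := by
    rw [← Real.log_mul (by positivity) (by positivity)]
    congr 1
    rw [hX]; ring
  have hlog0 : 0 ≤ Real.log (2 * (r * (n * r + 1) ^ r)) := by
    apply Real.log_nonneg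
    nlinarith
  have hlogT : 0 ≤ Real.log T := Real.log_nonneg hT1
  have h1 : Real.log (2 * X) ≤ Real.log (2 * (r * (n * r + 1) ^ r)) + (n + 2) + Real.log T := by
    rw [hlog2X]
    linarith
  have h2 : ((n * (n - 1) : ℕ) : ℝ) ≤ (n : ℝ) ^ 2 := by
    have h3 : n * (n - 1) ≤ n ^ 2 := by
      rw [sq]
      exact Nat.mul_le_mul_left n (Nat.sub_le n 1)
    exact_mod_cast h3
  have h3 : 0 ≤ Real.log (2 * (r * (n * r + 1) ^ r)) + (n + 2) + Real.log T := by positivity
  calc Real.log |(discr L : ℝ)| ≤ ((n * (n - 1) : ℕ) : ℝ) * Real.log (2 * X) := hlog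
    _ ≤ ((n * (n - 1) : ℕ) : ℝ) *
        (Real.log (2 * (r * (n * r + 1) ^ r)) + (n + 2) + Real.log T) :=
        mul_le_mul_of_nonneg_left h1 (Nat.cast_nonneg _)
    _ ≤ (n : ℝ) ^ 2 *
        (Real.log (2 * (r * (n * r + 1) ^ r)) + (n + 2) + Real.log T) :=
        mul_le_mul_of_nonneg_right h2 h3
    _ = _ := by unfold cc; ring

end Pool.Agent.Lib.MP_695920_nt
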