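import Mathlib
import Pool.Agent.Lib.MP_695920_nt.Composite

set_option autoImplicit false

open Finset NumberField Module IsDedekindDomain
open scoped nonZeroDivisors Pointwise IntermediateField

namespace Pool.Agent.Lib.MP_695920_nt

/-- the condition on the Galois group -/
def GoodGroup (G : Type*) [Group G] : Prop :=
  ∀ N : Subgroup G, N.Normal → (Nat.card N).Prime →
    Subgroup.closure {g : G | N ≤ Subgroup.zpowers g} ≠ ⊤

section grp

variable {G : Type*} [Group G] [Finite G]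

lemma exists_prime_normal {M0 : Subgroup G} (hn : M0.Normal) (hcyc : IsCyclic M0) (hne : M0 ≠ ⊥) :
    ∃ N0 : Subgroup G, N0.Normal ∧ (Nat.card N0).Prime ∧ N0 ≤ M0 := by
  obtain ⟨z, hz⟩ := hcyc.exists_generator
  have hM : ∀ x ∈ M0, ∃ i : ℤ, (z : G) ^ i = x := by
    intro x hx
    obtain ⟨i, hi⟩ := Subgroup.mem_zpowers_iff.mp (hz ⟨x, hx⟩)
    exact ⟨i, by rw [← Subgroup.coe_zpow, hi]⟩
  set k := orderOf (z : G) with hk
  have hk0 : 0 < k := orderOf_pos _
  have hk1 : k ≠ 1 := by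
    intro h
    apply hne
    rw [Subgroup.eq_bot_iff_forall]
    intro x hx
    obtain ⟨i, hi⟩ := hM x hx
    rw [orderOf_eq_one_iff.mp (hk.symm.trans h), one_zpow] at hi
    exact hi.symm
  set q := k.minFac with hq
  have hqp : q.Prime := Nat.minFac_prime hk1
  have hqk : q ∣ k := Nat.minFac_dvd k
  set y : G := (z : G) ^ (k / q) with hy
  have hoy : orderOf y = q := orderOf_pow_orderOf_div hk0.ne' hqk
  have hzM : (z : G) ∈ M0 := z.2
  refine ⟨Subgroup.zpowers y, ⟨?_⟩, ?_, ?_⟩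
  · intro x hx g
    obtain ⟨i, rfl⟩ := Subgroup.mem_zpowers_iff.mp hx
    obtain ⟨j, hj⟩ := hM _ (hn.conj_mem _ hzM g)
    have h1 : g * y ^ i * g⁻¹ = (g * y * g⁻¹) ^ i := by
      rw [conj_zpow]
    have h2 : g * y * g⁻¹ = (g * z * g⁻¹) ^ (k / q) := by
      rw [hy, conj_pow]
    rw [h1, h2, ← hj]
    have h3 : ((z : G) ^ j) ^ (k / q) = y ^ j := by
      rw [hy, ← zpow_natCast, ← zpow_natCast, ← zpow_mul, ← zpow_mul, mul_comm]
    rw [h3]
    exact Subgroup.zpow_mem _ (Subgroup.zpow_mem _ (Subgroup.mem_zpowers y) j) i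
  · rw [Nat.card_zpowers, hoy]
    exact hqp
  · rw [Subgroup.zpowers_le]
    exact M0.pow_mem hzM _

omit [Finite G] in
lemma normal_closure {S : Set G} (hS : ∀ s ∈ S, ∀ g : G, g * s * g⁻¹ ∈ S) :
    (Subgroup.closure S).Normal := by
  refine ⟨fun x hx g => ?_⟩
  induction hx using Subgroup.closure_induction with
  | mem s hs => exact Subgroup.subset_closure (hS s hs g)
  | one => simp
  | mul a b _ _ ha hb =>
    have : g * (a * b) * g⁻¹ = (g * a * g⁻¹) * (g * b * g⁻¹) := by group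
    rw [this]
    exact mul_mem ha hb
  | inv a _ ha =>
    have : g * a⁻¹ * g⁻¹ = (g * a * g⁻¹)⁻¹ := by group
    rw [this]
    exact inv_mem ha

omit [Finite G] in
lemma normal_RN {N : Subgroup G} (hN : N.Normal) :
    (Subgroup.closure {g : G | N ≤ Subgroup.zpowers g}).Normal := by
  apply normal_closure
  intro s hs g x hx
  have h1 : g⁻¹ * x * g⁻¹⁻¹ ∈ N := hN.conj_mem x hx g⁻¹
  obtain ⟨i, hi⟩ := Subgroup.mem_zpowers_iff.mp (hs h1)
  rw [Subgroup.mem_zpowers_iff]
  refine ⟨i, ?_⟩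
  rw [conj_zpow, hi]
  group

/-- a conjugation invariant family of cyclic subgroups of a good group either has trivial
intersection or generates a proper normal subgroup -/
lemma good_family (hG : GoodGroup G) {S : Set (Subgroup G)} (hcyc : ∀ H ∈ S, IsCyclic H)
    (hconj : ∀ H ∈ S, ∀ g : G, H.map (MulAut.conj g).toMonoidHom ∈ S) (hne : S.Nonempty) :
    (∀ g : G, (∀ H ∈ S, g ∈ H) → g = 1) ∨
      ∃ R : Subgroup G, R.Normal ∧ R ≠ ⊤ ∧ ∀ H ∈ S, H ≤ R := by
  by_cases htriv : ∀ g : G, (∀ H ∈ S, g ∈ H) → g = 1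
  · exact Or.inl htriv
  right
  push Not at htriv
  obtain ⟨g0, hg0, hg01⟩ := htriv
  set M0 : Subgroup G := sInf S with hM0
  have hM0n : M0.Normal := by
    refine ⟨fun x hx g => ?_⟩
    rw [hM0, Subgroup.mem_sInf] at hx ⊢
    intro H hH
    have h1 := hx _ (hconj H hH g⁻¹)
    obtain ⟨y, hy, hyx⟩ := Subgroup.mem_map.mp h1
    have h2 : x = g⁻¹ * y * g⁻¹⁻¹ := hyx.symm
    rw [h2]
    have h3 : g * (g⁻¹ * y * g⁻¹⁻¹) * g⁻¹ = y := by group
    rw [h3]
    exact hy
  have hM0ne : M0 ≠ ⊥ := by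
    intro h
    apply hg01
    have : g0 ∈ M0 := by
      rw [hM0, Subgroup.mem_sInf]
      exact hg0
    rw [h, Subgroup.mem_bot] at this
    exact this
  obtain ⟨H0, hH0⟩ := hne
  have hM0H : M0 ≤ H0 := sInf_le hH0
  have hM0cyc : IsCyclic M0 := by
    have := hcyc H0 hH0
    exact isCyclic_of_injective (Subgroup.inclusion hM0H) (Subgroup.inclusion_injective hM0H)
  obtain ⟨N0, hN0n, hN0p, hN0M⟩ := exists_prime_normal hM0n hM0cyc hM0ne
  refine ⟨_, normal_RN hN0n, hG N0 hN0n hN0p, ?_⟩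
  intro H hH
  obtain ⟨h, hh⟩ := (hcyc H hH).exists_generator
  have hHz : H = Subgroup.zpowers (h : G) := by
    apply le_antisymm
    · intro x hx
      obtain ⟨i, hi⟩ := Subgroup.mem_zpowers_iff.mp (hh ⟨x, hx⟩)
      rw [Subgroup.mem_zpowers_iff]
      exact ⟨i, by rw [← Subgroup.coe_zpow, hi]⟩
    · rw [Subgroup.zpowers_le]
      exact h.2
  rw [hHz, Subgroup.zpowers_le]
  apply Subgroup.subset_closure
  change N0 ≤ Subgroup.zpowers (h : G)
  rw [← hHz]
  exact hN0M.trans (sInf_le hH)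

/-- groups with trivial centre satisfy the condition -/
lemma goodGroup_of_center (h : Subgroup.center G = ⊥) (hne : Nontrivial G) : GoodGroup G := by
  intro N hN hp htop
  -- every element generating a group above N centralises N
  have h1 : Subgroup.closure {g : G | N ≤ Subgroup.zpowers g} ≤ Subgroup.centralizer (N : Set G) := by
    rw [Subgroup.closure_le]
    intro g hg
    rw [SetLike.mem_coe, Subgroup.mem_centralizer_iff]
    intro x hx
    obtain ⟨i, rfl⟩ := Subgroup.mem_zpowers_iff.mp (hg hx)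
    rw [← zpow_add_one, ← zpow_one_add, add_comm]
  rw [htop, top_le_iff] at h1
  have h2 : N ≤ Subgroup.center G := by
    intro x hx
    rw [Subgroup.mem_center_iff]
    intro g
    have h3 : g ∈ Subgroup.centralizer (N : Set G) := by rw [h1]; exact Subgroup.mem_top g
    rw [Subgroup.mem_centralizer_iff] at h3
    exact (h3 x hx).symm
  rw [h, le_bot_iff] at h2
  rw [h2, Subgroup.card_bot] at hp
  exact Nat.not_prime_one hp

end grp

section field

variable {L : Type*} [Field L] [NumberField L] [IsGalois ℚ L]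

/-- logarithm of the discriminant of a fixed field -/
noncomputable def ldisc (H : Subgroup Gal(L/ℚ)) : ℝ := Real.log |(discr (fixF L H) : ℝ)|

lemma fixF_conj (H : Subgroup Gal(L/ℚ)) (g : Gal(L/ℚ)) :
    (fixF L H).map (g : L →ₐ[ℚ] L) = fixF L (H.map (MulAut.conj g).toMonoidHom) := by
  ext x
  rw [IntermediateField.mem_map, mem_fixF]
  constructor
  · rintro ⟨y, hy, rfl⟩ k hk
    rw [mem_fixF] at hy
    obtain ⟨h, hh, rfl⟩ := Subgroup.mem_map.mp hk
    change (g * h * g⁻¹) (g y) = g y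
    rw [AlgEquiv.mul_apply, AlgEquiv.mul_apply]
    have : g⁻¹ (g y) = y := by
      rw [← AlgEquiv.mul_apply, inv_mul_cancel, AlgEquiv.one_apply]
    rw [this, hy h hh]
  · intro hx
    refine ⟨g⁻¹ x, ?_, ?_⟩
    · rw [mem_fixF]
      intro h hh
      have h1 := hx _ (Subgroup.mem_map_of_mem (MulAut.conj g).toMonoidHom hh)
      change (g * h * g⁻¹) x = x at h1
      have h2 : h (g⁻¹ x) = g⁻¹ ((g * h * g⁻¹) x) := by
        rw [← AlgEquiv.mul_apply, ← AlgEquiv.mul_apply]
        congr 1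
        group
      rw [h2, h1]
    · change g (g⁻¹ x) = x
      rw [← AlgEquiv.mul_apply, mul_inv_cancel, AlgEquiv.one_apply]

lemma ldisc_conj (H : Subgroup Gal(L/ℚ)) (g : Gal(L/ℚ)) :
    ldisc (H.map (MulAut.conj g).toMonoidHom) = ldisc H := by
  unfold ldisc
  have e : fixF L H ≃ₐ[ℚ] (fixF L (H.map (MulAut.conj g).toMonoidHom)) :=
    (IntermediateField.intermediateFieldMap g (fixF L H)).trans
      (IntermediateField.equivOfEq (fixF_conj H g))
  rw [discr_eq_discr_of_algEquiv _ e]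

lemma ldisc_mono {H R : Subgroup Gal(L/ℚ)} (h : H ≤ R) : ldisc R ≤ ldisc H := by
  have hle : fixF L R ≤ fixF L H := by
    intro x hx
    rw [mem_fixF] at hx ⊢
    exact fun g hg => hx g (h hg)
  let _ : Algebra (fixF L R) (fixF L H) := (IntermediateField.inclusion hle).toRingHom.toAlgebra
  have h1 := discr_dvd_discr (fixF L R) (fixF L H)
  have h2 := Int.natAbs_dvd_natAbs.mpr h1
  have h3 := Nat.le_of_dvd (Int.natAbs_pos.mpr (discr_ne_zero _)) h2
  unfold ldisc
  apply Real.log_le_log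
  · exact abs_pos.mpr (by exact_mod_cast discr_ne_zero _)
  · have h4 : (((discr (fixF L R)).natAbs : ℕ) : ℝ) ≤ (((discr (fixF L H)).natAbs : ℕ) : ℝ) := by
      exact_mod_cast h3
    rw [Nat.cast_natAbs, Nat.cast_natAbs, Int.cast_abs, Int.cast_abs] at h4
    exact h4

lemma ldisc_nonneg (H : Subgroup Gal(L/ℚ)) : 0 ≤ ldisc H := by
  unfold ldisc
  apply Real.log_nonneg
  have : 1 ≤ |discr (fixF L H)| := Int.one_le_abs (discr_ne_zero _)
  exact_mod_cast this

lemma card_subgroups_le : Nat.card (Subgroup Gal(L/ℚ)) ≤ 2 ^ finrank ℚ L := by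
  classical
  have h1 : Nat.card (Subgroup Gal(L/ℚ)) ≤ Nat.card (Set Gal(L/ℚ)) :=
    Nat.card_le_card_of_injective (fun H : Subgroup Gal(L/ℚ) => (H : Set Gal(L/ℚ)))
      SetLike.coe_injective
  refine h1.trans (le_of_eq ?_)
  rw [Nat.card_eq_fintype_card, Fintype.card_set, ← Nat.card_eq_fintype_card,
    IsGalois.card_aut_eq_finrank]

end field

end Pool.Agent.Lib.MP_695920_nt
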