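import Mathlib
import Pool.Agent.Lib.MP_695920_nt.GroupPart
import Pool.Agent.Lib.MP_695920_nt.EVCount

set_option autoImplicit false

open Finset NumberField Module IsDedekindDomain
open scoped nonZeroDivisors Pointwise IntermediateField

namespace Pool.Agent.Lib.MP_695920_nt

/-- a constant -/
noncomputable def ccm (n : ℕ) : ℝ := cc n (2 ^ n)

lemma cc_le_ccm {n r : ℕ} (hr1 : 1 ≤ r) (hr : r ≤ 2 ^ n) : cc n r ≤ ccm n := by
  unfold ccm cc
  apply mul_le_mul_of_nonneg_left _ (by positivity)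
  apply add_le_add_left
  have hr0 : (0 : ℝ) < r := by exact_mod_cast hr1
  apply Real.log_le_log (by positivity)
  have h1 : (r : ℝ) ≤ ((2 ^ n : ℕ) : ℝ) := by exact_mod_cast hr
  apply mul_le_mul_of_nonneg_left _ (by norm_num)
  apply mul_le_mul h1 _ (by positivity) (by positivity)
  calc ((n : ℝ) * r + 1) ^ r ≤ ((n : ℝ) * ((2 ^ n : ℕ) : ℝ) + 1) ^ r := by
        apply pow_le_pow_left₀ (by positivity)
        have := mul_le_mul_of_nonneg_left h1 (Nat.cast_nonneg (α := ℝ) n)
        linarith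
    _ ≤ ((n : ℝ) * ((2 ^ n : ℕ) : ℝ) + 1) ^ (2 ^ n) := by
        apply pow_le_pow_right₀ _ hr
        have : (0 : ℝ) ≤ (n : ℝ) * ((2 ^ n : ℕ) : ℝ) := by positivity
        linarith

variable {L : Type*} [Field L] [NumberField L] [IsGalois ℚ L]

/-- primes with a decomposition field of large discriminant -/
def GP (L : Type*) [Field L] [NumberField L] [IsGalois ℚ L] (t : ℝ) (p : ℕ) : Prop :=
  ∃ P : Ideal (𝓞 L), P.IsPrime ∧ P ≠ ⊥ ∧ (p : 𝓞 L) ∈ P ∧
    t ≤ ldisc (MulAction.stabilizer Gal(L/ℚ) P)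

lemma finrank_fixF_gt {R : Subgroup Gal(L/ℚ)} (hR : R ≠ ⊤) : 1 < finrank ℚ (fixF L R) := by
  have h0 : 0 < finrank ℚ (fixF L R) := finrank_pos
  rcases Nat.lt_or_ge 1 (finrank ℚ (fixF L R)) with h | h
  · exact h
  · exfalso
    have h1 : finrank ℚ (fixF L R) = 1 := by omega
    rw [IntermediateField.finrank_eq_one_iff] at h1
    apply hR
    rw [← fixing_fixF R, h1]
    exact IntermediateField.fixingSubgroup_bot

open scoped Classical in
theorem good_count (hG : GoodGroup Gal(L/ℚ)) (τ τ' : ℝ) (w : ℕ) (hw1 : 1 < w)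
    (hτ'0 : 0 ≤ τ' * Real.log |(discr L : ℝ)|)
    (hgap : ∀ H : Subgroup Gal(L/ℚ), ldisc H < τ * Real.log |(discr L : ℝ)| →
      ldisc H < τ' * Real.log |(discr L : ℝ)|)
    (hc1 : ccm (finrank ℚ L) + (finrank ℚ L : ℝ) ^ 2 * (τ' * Real.log |(discr L : ℝ)|) <
      Real.log |(discr L : ℝ)|)
    (hc2 : (finrank ℚ L : ℝ) + 8 + τ' * Real.log |(discr L : ℝ)| / 2 ≤ 2 * Real.log w) :
    (w : ℝ) / 32 ≤ (((Icc 0 (w ^ 32)).filter Nat.Prime).filter
      (fun p => p ∣ (discr L).natAbs ∨ GP L (τ * Real.log |(discr L : ℝ)|) p)).card := by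
  set u := Real.log |(discr L : ℝ)| with hu
  set n := finrank ℚ L with hn
  have hw1' : (1 : ℝ) < w := by exact_mod_cast hw1
  have hfinS : Finite (Subgroup Gal(L/ℚ)) := inferInstance
  let _ : Fintype (Subgroup Gal(L/ℚ)) := Fintype.ofFinite _
  set Sm : Finset (Subgroup Gal(L/ℚ)) :=
    Finset.univ.filter (fun H => IsCyclic H ∧ ldisc H < τ * u) with hSm
  have hcardSm : Sm.card ≤ 2 ^ n := by
    refine (Finset.card_le_univ _).trans ?_
    rw [← Nat.card_eq_fintype_card]
    exact card_subgroups_le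
  -- unramified primes that are not good have a decomposition group in Sm
  have hbad : ∀ p : ℕ, p.Prime → ¬ p ∣ (discr L).natAbs → ¬ GP L (τ * u) p →
      ∃ P : Ideal (𝓞 L), P.IsPrime ∧ P ≠ ⊥ ∧ (p : 𝓞 L) ∈ P ∧
        MulAction.stabilizer Gal(L/ℚ) P ∈ Sm := by
    intro p hp hpd hgp
    obtain ⟨P, hP, hP0, hmem⟩ := exists_prime_above (K := L) hp
    refine ⟨P, hP, hP0, hmem, ?_⟩
    rw [hSm, mem_filter]
    refine ⟨Finset.mem_univ _, isCyclic_stabilizer hp hpd hP hP0 hmem, ?_⟩
    by_contra hcon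
    exact hgp ⟨P, hP, hP0, hmem, not_lt.mp hcon⟩
  rcases Finset.eq_empty_or_nonempty Sm with hSe | hSne
  · -- all primes are good
    have h1 : ((Icc 0 (w ^ 32)).filter Nat.Prime).filter
        (fun p => p ∣ (discr L).natAbs ∨ GP L (τ * u) p) = (Icc 0 (w ^ 32)).filter Nat.Prime := by
      apply Finset.filter_true_of_mem
      intro p hp
      rw [mem_filter] at hp
      by_contra hcon
      push Not at hcon
      obtain ⟨P, _, _, _, hPS⟩ := hbad p hp.2 hcon.1 hcon.2
      rw [hSe] at hPS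
      exact Finset.notMem_empty _ hPS
    rw [h1]
    have h2 : (10 : ℝ) ^ 8 ≤ ((w ^ 32 : ℕ) : ℝ) := by
      have h3 : 2 ^ 32 ≤ w ^ 32 := Nat.pow_le_pow_left hw1 32
      have h4 : ((2 ^ 32 : ℕ) : ℝ) ≤ ((w ^ 32 : ℕ) : ℝ) := by exact_mod_cast h3
      refine le_trans ?_ h4
      norm_num
    have h3 := sqrt_le_pi (w ^ 32) h2
    have h4 : (w : ℝ) / 32 ≤ Real.sqrt ((w ^ 32 : ℕ) : ℝ) := by
      apply Real.le_sqrt_of_sq_le
      push_cast
      calc ((w : ℝ) / 32) ^ 2 ≤ (w : ℝ) ^ 2 := by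
            apply pow_le_pow_left₀ (by positivity)
            rw [div_le_iff₀ (by norm_num)]
            linarith
        _ ≤ (w : ℝ) ^ 32 := pow_le_pow_right₀ hw1'.le (by norm_num)
    refine (h4.trans h3).trans ?_
    have h5 : (Ioc 0 (w ^ 32)).filter Nat.Prime ⊆ (Icc 0 (w ^ 32)).filter Nat.Prime := by
      intro p hp
      rw [mem_filter, mem_Ioc] at hp
      rw [mem_filter, mem_Icc]
      exact ⟨⟨Nat.zero_le _, hp.1.2⟩, hp.2⟩
    exact_mod_cast Finset.card_le_card h5
  · have hfam := good_family (G := Gal(L/ℚ)) hG (S := (Sm : Set (Subgroup Gal(L/ℚ))))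
      (by
        intro H hH
        rw [Finset.mem_coe, hSm, mem_filter] at hH
        exact hH.2.1)
      (by
        intro H hH g
        rw [Finset.mem_coe, hSm, mem_filter] at hH ⊢
        refine ⟨Finset.mem_univ _, ?_, ?_⟩
        · have := hH.2.1
          exact isCyclic_of_surjective ((MulAut.conj g).toMonoidHom.subgroupMap H)
            ((MulAut.conj g).toMonoidHom.subgroupMap_surjective H)
        · rw [ldisc_conj]
          exact hH.2.2) hSne
    rcases hfam with htriv | ⟨R, hRn, hRtop, hRle⟩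
    · -- compositum
      exfalso
      have h1 := composite_bound Sm htriv hSne (Real.exp (τ' * u)) (Real.one_le_exp hτ'0) (by
        intro H hH
        rw [hSm, mem_filter] at hH
        have h2 := hgap H hH.2.2
        unfold ldisc at h2
        have h3 : (0 : ℝ) < |(discr (fixF L H) : ℝ)| :=
          abs_pos.mpr (by exact_mod_cast discr_ne_zero _)
        rw [← Real.log_le_iff_le_exp h3]
        exact h2.le)
      rw [Real.log_exp] at h1
      have h2 := cc_le_ccm (n := n) (Finset.card_pos.mpr hSne) hcardSm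
      linarith
    · -- a small subfield
      obtain ⟨H0, hH0⟩ := hSne
      have hH0' := hH0
      rw [hSm, mem_filter] at hH0'
      have h1 : ldisc R < τ' * u :=
        lt_of_le_of_lt (ldisc_mono (hRle H0 hH0)) (hgap H0 hH0'.2.2)
      have hE := finrank_fixF_gt hRtop
      have hEn : finrank ℚ (fixF L R) ≤ n := by
        have h3 := finrank_mul_finrank ℚ (fixF L R) L
        rw [hn, ← h3]
        exact Nat.le_mul_of_pos_right _ finrank_pos
      have hEn' : (finrank ℚ (fixF L R) : ℝ) ≤ n := by exact_mod_cast hEn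
      have h2 := nonsplit hE w hw1 (by
        unfold ldisc at h1
        linarith)
      refine h2.trans ?_
      have h3 : ((Icc 0 (w ^ 32)).filter Nat.Prime).filter
          (fun p => (degOne (fixF L R) p).card < finrank ℚ (fixF L R)) ⊆
          ((Icc 0 (w ^ 32)).filter Nat.Prime).filter
            (fun p => p ∣ (discr L).natAbs ∨ GP L (τ * u) p) := by
        intro p hp
        rw [mem_filter] at hp ⊢
        refine ⟨hp.1, ?_⟩
        by_contra hcon
        push Not at hcon
        have hpp := (mem_filter.mp hp.1).2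
        obtain ⟨P, hP, hP0, hmem, hPS⟩ := hbad p hpp hcon.1 hcon.2
        have h4 := splits_of_le hpp hP hP0 hmem hRn (hRle _ hPS)
        omega
      exact_mod_cast Finset.card_le_card h3

/-- the number of ramified primes -/
lemma card_ramified_le (T : Finset ℕ) (hT : ∀ p ∈ T, p.Prime ∧ p ∣ (discr L).natAbs) :
    (T.card : ℝ) ≤ 2 * Real.log |(discr L : ℝ)| := by
  have h1 : ∏ p ∈ T, p ∣ (discr L).natAbs := by
    apply Finset.prod_primes_dvd
    · intro p hp; exact (hT p hp).1.prime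
    · intro p hp; exact (hT p hp).2
  have h2 := Nat.le_of_dvd (Int.natAbs_pos.mpr (discr_ne_zero L)) h1
  have h3 : 2 ^ T.card ≤ ∏ p ∈ T, p := by
    rw [← Finset.prod_const]
    exact Finset.prod_le_prod' fun p hp => (hT p hp).1.two_le
  have h4 : ((2 ^ T.card : ℕ) : ℝ) ≤ (((discr L).natAbs : ℕ) : ℝ) := by exact_mod_cast h3.trans h2
  rw [Nat.cast_natAbs, Int.cast_abs] at h4
  push_cast at h4
  have h5 := Real.log_le_log (by positivity) h4
  rw [Real.log_pow] at h5
  have h6 : (0.5 : ℝ) ≤ Real.log 2 := by linarith [Real.log_two_gt_d9]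
  have h7 : (T.card : ℝ) * 0.5 ≤ T.card * Real.log 2 :=
    mul_le_mul_of_nonneg_left h6 (Nat.cast_nonneg _)
  linarith

variable {M : Type*} [Field M] [NumberField M] [Algebra L M]

open scoped Classical in
theorem ev_total {l : ℕ} (hl : 0 < l) (hM : 1 < finrank ℚ M) (t : ℝ) (w : ℕ) (hw1 : 1 < w)
    (hEV : 64 * (l : ℝ) * finrank ℚ M * Real.log w + 2 * l * (finrank ℚ M : ℝ) ^ 2 ≤ t) :
    ((((Icc 0 (w ^ 32)).filter Nat.Prime).filter (fun p => GP L t p)).card : ℝ) *
      (Nat.card {x : ClassGroup (𝓞 M) // x ^ l = 1} : ℝ) ≤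
      2 ^ finrank ℚ L * (Bn (finrank ℚ M) * Real.sqrt |(discr M : ℝ)| *
        Real.log |(discr M : ℝ)| ^ finrank ℚ M) := by
  set n := finrank ℚ L with hn
  set N := finrank ℚ M with hN
  set GG := ((Icc 0 (w ^ 32)).filter Nat.Prime).filter (fun p => GP L t p) with hGG
  have hw1' : (1 : ℝ) < w := by exact_mod_cast hw1
  have hfinS : Finite (Subgroup Gal(L/ℚ)) := inferInstance
  let _ : Fintype (Subgroup Gal(L/ℚ)) := Fintype.ofFinite _
  have hex : ∀ p ∈ GG, ∃ P : Ideal (𝓞 L), P.IsPrime ∧ P ≠ ⊥ ∧ (p : 𝓞 L) ∈ P ∧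
      t ≤ ldisc (MulAction.stabilizer Gal(L/ℚ) P) := by
    intro p hp
    rw [hGG, mem_filter] at hp
    exact hp.2
  choose! P hP using hex
  let st : ℕ → Subgroup Gal(L/ℚ) := fun p => MulAction.stabilizer Gal(L/ℚ) (P p)
  have hD3 := three_le_discr hM
  have hlogM : 0 ≤ Real.log |(discr M : ℝ)| := Real.log_nonneg (by linarith)
  have hBn := Bn_pos N hM.le
  set BB : ℝ := Bn N * Real.sqrt |(discr M : ℝ)| * Real.log |(discr M : ℝ)| ^ N with hBB
  have hBB0 : 0 ≤ BB := by positivity
  have hLM : n ≤ N := by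
    have h3 := finrank_mul_finrank ℚ L M
    rw [hn, hN, ← h3]
    exact Nat.le_mul_of_pos_right _ finrank_pos
  have hfib : ∀ H : Subgroup Gal(L/ℚ), ((GG.filter (fun p => st p = H)).card : ℝ) *
      (Nat.card {x : ClassGroup (𝓞 M) // x ^ l = 1} : ℝ) ≤ BB := by
    intro H
    rcases Finset.eq_empty_or_nonempty (GG.filter (fun p => st p = H)) with he | hne
    · rw [he]
      simpa using hBB0
    · obtain ⟨p0, hp0⟩ := hne
      rw [mem_filter] at hp0
      have hH : t ≤ ldisc H := by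
        rw [← hp0.2]
        exact (hP p0 hp0.1).2.2.2
      have hHn : finrank ℚ (fixF L H) ≤ N := by
        have h3 := finrank_mul_finrank ℚ (fixF L H) L
        have h4 : finrank ℚ (fixF L H) ≤ n := by
          rw [hn, ← h3]
          exact Nat.le_mul_of_pos_right _ finrank_pos
        omega
      have hHn' : (finrank ℚ (fixF L H) : ℝ) ≤ N := by exact_mod_cast hHn
      have h1 := ev_sub (K := fixF L H) (M := M) hl hM (GG.filter (fun p => st p = H))
        ((w : ℝ) ^ 32) (one_le_pow₀ hw1'.le) (by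
          intro p hp
          rw [mem_filter] at hp
          have hpG := hp.1
          rw [hGG, mem_filter, mem_filter, mem_Icc] at hpG
          obtain ⟨⟨⟨_, hpw⟩, hpp⟩, _⟩ := hpG
          obtain ⟨hPp, hP0, hPm, _⟩ := hP p hp.1
          refine ⟨hpp, by exact_mod_cast hpw, ?_⟩
          have h2 := under_ugood (R := H) hpp hPp hP0 hPm (le_of_eq hp.2)
          exact ⟨_, h2.1, h2.2⟩) (by
          refine le_trans ?_ hH
          refine le_trans ?_ hEV
          rw [Real.log_pow]
          push_cast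
          have hlog := Real.log_pos hw1'
          have e1 : (0 : ℝ) ≤ 2 * l * N := by positivity
          have e2 : 2 * (l : ℝ) * N * (finrank ℚ (fixF L H) : ℝ) ≤ 2 * l * N * N :=
            mul_le_mul_of_nonneg_left hHn' e1
          rw [hN] at *
          nlinarith)
      have h2 : (0 : ℝ) ≤ (Nat.card {x : ClassGroup (𝓞 M) // x ^ l = 1} : ℝ) := Nat.cast_nonneg _
      refine le_trans ?_ h1
      apply mul_le_mul_of_nonneg_right _ h2
      linarith
  have hsum : (GG.card : ℝ) = ∑ H : Subgroup Gal(L/ℚ), ((GG.filter (fun p => st p = H)).card : ℝ) := by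
    have := Finset.card_eq_sum_card_fiberwise (s := GG) (t := (Finset.univ : Finset (Subgroup Gal(L/ℚ))))
      (f := st) (fun _ _ => Finset.mem_coe.mpr (Finset.mem_univ _))
    exact_mod_cast this
  rw [hsum, Finset.sum_mul]
  calc ∑ H : Subgroup Gal(L/ℚ), ((GG.filter (fun p => st p = H)).card : ℝ) *
        (Nat.card {x : ClassGroup (𝓞 M) // x ^ l = 1} : ℝ)
      ≤ ∑ H : Subgroup Gal(L/ℚ), BB := Finset.sum_le_sum fun H _ => hfib H
    _ = (Fintype.card (Subgroup Gal(L/ℚ)) : ℝ) * BB := by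
        rw [Finset.sum_const, Finset.card_univ, nsmul_eq_mul]
    _ ≤ 2 ^ n * BB := by
        apply mul_le_mul_of_nonneg_right _ hBB0
        have := card_subgroups_le (L := L)
        rw [Nat.card_eq_fintype_card] at this
        exact_mod_cast this

end Pool.Agent.Lib.MP_695920_nt
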