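import Mathlib
import Pool.Agent.Lib.MP_695920_nt.GoodPrimes
import Pool.Agent.Lib.MP_695920_nt.DihBound

set_option autoImplicit false

open Finset NumberField Module IsDedekindDomain
open scoped nonZeroDivisors Pointwise IntermediateField

namespace Pool.Agent.Lib.MP_695920_nt

lemma ccm_mono {n N : ℕ} (hn : 1 ≤ n) (h : n ≤ N) : ccm n ≤ ccm N := by
  unfold ccm cc
  have h1 : (n : ℝ) ≤ N := by exact_mod_cast h
  have h0 : (0 : ℝ) < n := by exact_mod_cast hn
  have h2 : ((2 ^ n : ℕ) : ℝ) ≤ ((2 ^ N : ℕ) : ℝ) := by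
    exact_mod_cast Nat.pow_le_pow_right (by norm_num) h
  have h3 : (2 ^ n : ℕ) ≤ 2 ^ N := Nat.pow_le_pow_right (by norm_num) h
  have h4 : (n : ℝ) * ((2 ^ n : ℕ) : ℝ) + 1 ≤ (N : ℝ) * ((2 ^ N : ℕ) : ℝ) + 1 := by
    have := mul_le_mul h1 h2 (by positivity) (by positivity)
    linarith
  have h5 : ((n : ℝ) * ((2 ^ n : ℕ) : ℝ) + 1) ^ (2 ^ n) ≤
      ((N : ℝ) * ((2 ^ N : ℕ) : ℝ) + 1) ^ (2 ^ N) := by
    calc ((n : ℝ) * ((2 ^ n : ℕ) : ℝ) + 1) ^ (2 ^ n) ≤ ((N : ℝ) * ((2 ^ N : ℕ) : ℝ) + 1) ^ (2 ^ n) :=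
          pow_le_pow_left₀ (by positivity) h4 _
      _ ≤ _ := by
          apply pow_le_pow_right₀ _ h3
          have : (0 : ℝ) ≤ (N : ℝ) * ((2 ^ N : ℕ) : ℝ) := by positivity
          linarith
  have h6 : Real.log (2 * (((2 ^ n : ℕ) : ℝ) * ((n : ℝ) * ((2 ^ n : ℕ) : ℝ) + 1) ^ (2 ^ n))) ≤
      Real.log (2 * (((2 ^ N : ℕ) : ℝ) * ((N : ℝ) * ((2 ^ N : ℕ) : ℝ) + 1) ^ (2 ^ N))) := by
    apply Real.log_le_log (by positivity)
    apply mul_le_mul_of_nonneg_left _ (by norm_num)
    exact mul_le_mul h2 h5 (by positivity) (by positivity)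
  have h7 : 0 ≤ Real.log (2 * (((2 ^ n : ℕ) : ℝ) * ((n : ℝ) * ((2 ^ n : ℕ) : ℝ) + 1) ^ (2 ^ n))) := by
    apply Real.log_nonneg
    have e1 : (1 : ℝ) ≤ ((2 ^ n : ℕ) : ℝ) := by exact_mod_cast Nat.one_le_pow _ _ (by norm_num)
    have e2 : (1 : ℝ) ≤ ((n : ℝ) * ((2 ^ n : ℕ) : ℝ) + 1) ^ (2 ^ n) := by
      apply one_le_pow₀
      have : (0 : ℝ) ≤ (n : ℝ) * ((2 ^ n : ℕ) : ℝ) := by positivity
      linarith
    nlinarith
  apply mul_le_mul
  · exact pow_le_pow_left₀ h0.le h1 2
  · linarith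
  · positivity
  · positivity

section pigeon

variable {L : Type*} [Field L] [NumberField L] [IsGalois ℚ L]

lemma pigeon (u : ℝ) (τ : ℕ → ℝ) (hτ : ∀ i j, i ≤ j → τ j * u ≤ τ i * u) {s : ℕ}
    (hs : 2 ^ finrank ℚ L ≤ s) :
    ∃ j ≤ s, ∀ H : Subgroup Gal(L/ℚ), ldisc H < τ j * u → ldisc H < τ (j + 1) * u := by
  by_contra hcon
  push Not at hcon
  choose! f hf using hcon
  let F : Fin (s + 1) → Subgroup Gal(L/ℚ) := fun j => f j
  have hF : ∀ j : Fin (s + 1), ldisc (F j) < τ j * u ∧ τ (j + 1) * u ≤ ldisc (F j) := fun j =>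
    hf j (Nat.lt_succ_iff.mp j.2)
  have hlt : ∀ i j : Fin (s + 1), i < j → F i ≠ F j := by
    intro i j hij h
    have h1 := (hF j).1
    have h2 := (hF i).2
    rw [h] at h2
    have h3 := hτ ((i : ℕ) + 1) j (Nat.succ_le_of_lt hij)
    linarith
  have hinj : Function.Injective F := by
    intro i j hij
    rcases lt_trichotomy i j with h | h | h
    · exact absurd hij (hlt i j h)
    · exact h
    · exact absurd hij.symm (hlt j i h)
  have h1 := Nat.card_le_card_of_injective F hinj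
  have h2 := card_subgroups_le (L := L)
  rw [Nat.card_eq_fintype_card, Fintype.card_fin] at h1
  omega

end pigeon

section fin

variable {L : Type*} [Field L] [NumberField L] [IsGalois ℚ L]
variable {M : Type*} [Field M] [NumberField M] [Algebra L M]

omit [IsGalois ℚ L] [Field L] [NumberField L] [Algebra L M] in
lemma triv_bound {l : ℕ} (hl : 0 < l) (hM : 1 < finrank ℚ M) :
    (Nat.card {x : ClassGroup (𝓞 M) // x ^ l = 1} : ℝ) ≤
      Bn (finrank ℚ M) * Real.sqrt |(discr M : ℝ)| * Real.log |(discr M : ℝ)| ^ finrank ℚ M := by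
  have h1 := ev_count' (K := M) (M := M) hl {⊤} (by
    intro P hP
    rw [Finset.mem_singleton] at hP
    exact Or.inl hP) (by simp) (by
    intro P hP Q hQ hne
    rw [Finset.mem_singleton] at hP hQ
    exact absurd (hP.trans hQ.symm) hne)
  rw [Finset.card_singleton, Nat.cast_one, one_mul] at h1
  exact h1.trans (sum_bound' hM)

/-- the exponent -/
noncomputable def dlt (N l : ℕ) : ℝ :=
  (1 / (2 * (N : ℝ) ^ 2)) / (64 * l * N : ℝ) ^ (2 ^ N + 1) / (256 * l * N)

/-- threshold -/
noncomputable def thr (N l : ℕ) : ℝ := max ((N + 10) / (2 * dlt N l)) (2 * ccm N + 1)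

/-- the constant -/
noncomputable def CC (N l : ℕ) : ℝ :=
  Bn N * max (32 * Real.exp 1 * (2 ^ N + 2 / dlt N l)) (Real.exp (dlt N l * thr N l))

lemma dlt_pos {N l : ℕ} (hN : 0 < N) (hl : 0 < l) : 0 < dlt N l := by
  have h1 : (0 : ℝ) < N := by exact_mod_cast hN
  have h2 : (0 : ℝ) < l := by exact_mod_cast hl
  unfold dlt
  positivity

theorem main_bound {l : ℕ} (hl : 0 < l) (hLne : 1 < finrank ℚ L) (hG : GoodGroup Gal(L/ℚ)) :
    (Nat.card {x : ClassGroup (𝓞 M) // x ^ l = 1} : ℝ) ≤
      CC (finrank ℚ M) l * Real.exp (-(dlt (finrank ℚ M) l * Real.log |(discr L : ℝ)|)) *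
        (Real.sqrt |(discr M : ℝ)| * Real.log |(discr M : ℝ)| ^ finrank ℚ M) := by
  classical
  set n := finrank ℚ L with hn
  set N := finrank ℚ M with hN
  have hnN : n ≤ N := by
    have h3 := finrank_mul_finrank ℚ L M
    rw [hn, hN, ← h3]
    exact Nat.le_mul_of_pos_right _ finrank_pos
  have hN2 : 1 < N := by omega
  have hM : 1 < finrank ℚ M := hN2
  have htriv := triv_bound (M := M) hl hM
  rw [← hN] at htriv
  set Cl : ℝ := (Nat.card {x : ClassGroup (𝓞 M) // x ^ l = 1} : ℝ) with hCl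
  have hCl0 : 0 ≤ Cl := Nat.cast_nonneg _
  have hD3 := three_le_discr hM
  have hDL3 := three_le_discr hLne
  have hlogM : 0 ≤ Real.log |(discr M : ℝ)| := Real.log_nonneg (by linarith)
  have hBn := Bn_pos N hN2.le
  set u := Real.log |(discr L : ℝ)| with hu
  have hu0 : 0 < u := Real.log_pos (by linarith)
  set RR : ℝ := Real.sqrt |(discr M : ℝ)| * Real.log |(discr M : ℝ)| ^ N with hRR
  have hRR0 : 0 ≤ RR := by positivity
  have htriv' : Cl ≤ Bn N * RR := by
    refine htriv.trans (le_of_eq ?_)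
    rw [hRR]; ring
  set δ := dlt N l with hδ
  have hδ0 : 0 < δ := dlt_pos (by omega) hl
  have hNr : (2 : ℝ) ≤ N := by exact_mod_cast hN2
  have hlr : (1 : ℝ) ≤ l := by exact_mod_cast hl
  have hexp0 : 0 < Real.exp (-(δ * u)) := Real.exp_pos _
  rcases lt_or_ge u (thr N l) with hsmall | hbig
  · -- small discriminants
    have h1 : 1 ≤ Real.exp (δ * thr N l) * Real.exp (-(δ * u)) := by
      rw [← Real.exp_add]
      apply Real.one_le_exp
      nlinarith
    calc Cl ≤ Bn N * RR := htriv'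
      _ = Bn N * 1 * RR := by ring
      _ ≤ Bn N * (Real.exp (δ * thr N l) * Real.exp (-(δ * u))) * RR := by
          apply mul_le_mul_of_nonneg_right _ hRR0
          exact mul_le_mul_of_nonneg_left h1 hBn.le
      _ ≤ Bn N * (max (32 * Real.exp 1 * (2 ^ N + 2 / δ)) (Real.exp (δ * thr N l)) *
            Real.exp (-(δ * u))) * RR := by
          apply mul_le_mul_of_nonneg_right _ hRR0
          apply mul_le_mul_of_nonneg_left _ hBn.le
          exact mul_le_mul_of_nonneg_right (le_max_right _ _) hexp0.le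
      _ = _ := by unfold CC; ring
  · -- large discriminants
    have hthr1 : (N + 10) / (2 * δ) ≤ u := (le_max_left _ _).trans hbig
    have hthr2 : 2 * ccm N + 1 ≤ u := (le_max_right _ _).trans hbig
    set Λ : ℝ := 64 * l * N with hΛ
    have hΛ1 : 1 ≤ Λ := by rw [hΛ]; nlinarith
    have hΛ0 : 0 < Λ := by linarith
    let τ : ℕ → ℝ := fun j => (1 / (2 * (N : ℝ) ^ 2)) / Λ ^ j
    have hτ0 : ∀ j, 0 < τ j := fun j => by simp only [τ]; positivity
    have hτsucc : ∀ j, τ (j + 1) = τ j / Λ := by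
      intro j
      simp only [τ]
      rw [pow_succ Λ j, div_div (1 / (2 * (N : ℝ) ^ 2))]
    have hτanti : ∀ i j, i ≤ j → τ j ≤ τ i := by
      intro i j hij
      simp only [τ]
      apply div_le_div_of_nonneg_left (by positivity) (by positivity)
      exact pow_le_pow_right₀ hΛ1 hij
    obtain ⟨j, hj, hgap⟩ := pigeon (L := L) u τ
      (fun i j hij => mul_le_mul_of_nonneg_right (hτanti i j hij) hu0.le) (s := 2 ^ N)
      (Nat.pow_le_pow_right (by norm_num) hnN)
    -- parameters
    set t : ℝ := τ j * u / (128 * l * N) with ht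
    have hτju : τ j * u = 128 * l * N * t := by rw [ht]; field_simp
    have hδτ : 2 * δ * (128 * l * N) ≤ τ j := by
      have h1 := hτanti j (2 ^ N + 1) (by omega)
      refine le_trans (le_of_eq ?_) h1
      rw [hδ]
      simp only [τ]
      unfold dlt
      rw [← hΛ]
      field_simp
      norm_num
    have ht2 : 2 * δ * u ≤ t := by
      rw [ht, le_div_iff₀ (by positivity)]
      calc 2 * δ * u * (128 * l * N) = (2 * δ * (128 * l * N)) * u := by ring
        _ ≤ τ j * u := mul_le_mul_of_nonneg_right hδτ hu0.le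
    have htN : (N : ℝ) + 10 ≤ t := by
      rw [div_le_iff₀ (by positivity)] at hthr1
      linarith
    obtain ⟨hw1, hw2, hw3, hw4, hw5⟩ := floor_exp t (by linarith)
    set w := ⌊Real.exp t⌋₊ with hw
    have hw1' : 1 < w := by
      have h1 : (1 : ℝ) < w := by
        have h2 : (1 : ℝ) < Real.exp (t - 1) := Real.one_lt_exp_iff.mpr (by linarith)
        linarith
      exact_mod_cast h1
    have hnr : (n : ℝ) ≤ N := by exact_mod_cast hnN
    have hn0 : (0 : ℝ) ≤ n := Nat.cast_nonneg _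
    have hτ'u : τ (j + 1) * u = 2 * t := by
      rw [hτsucc, div_mul_eq_mul_div, hτju, hΛ]
      field_simp
      ring
    have hτ'le : (N : ℝ) ^ 2 * (τ (j + 1) * u) ≤ u / 2 := by
      have h1 := hτanti 0 (j + 1) (Nat.zero_le _)
      have h2 : τ 0 = 1 / (2 * (N : ℝ) ^ 2) := by simp [τ]
      rw [h2] at h1
      have h3 := mul_le_mul_of_nonneg_right h1 hu0.le
      calc (N : ℝ) ^ 2 * (τ (j + 1) * u) ≤ (N : ℝ) ^ 2 * (1 / (2 * (N : ℝ) ^ 2) * u) :=
            mul_le_mul_of_nonneg_left h3 (by positivity)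
        _ = u / 2 := by field_simp
    have hgood := good_count (L := L) hG (τ j) (τ (j + 1)) w hw1' (by
        rw [← hu, hτ'u]; linarith) hgap (by
        rw [← hu, ← hn]
        have h1 := ccm_mono (by omega : 1 ≤ n) hnN
        have h2 : (n : ℝ) ^ 2 * (τ (j + 1) * u) ≤ (N : ℝ) ^ 2 * (τ (j + 1) * u) := by
          apply mul_le_mul_of_nonneg_right (pow_le_pow_left₀ hn0 hnr 2)
          rw [hτ'u]; linarith
        linarith) (by
        rw [← hu, ← hn, hτ'u]
        linarith)
    rw [← hu] at hgood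
    have hev := ev_total (L := L) (M := M) hl hM (τ j * u) w hw1' (by
      rw [← hN, hτju]
      have e1 : 64 * (l : ℝ) * N * Real.log w ≤ 64 * l * N * t :=
        mul_le_mul_of_nonneg_left hw4 (by positivity)
      have e2 : 2 * (l : ℝ) * (N : ℝ) ^ 2 ≤ 64 * l * N * t := by
        have e3 : (N : ℝ) ≤ 32 * t := by linarith
        have e4 : 2 * (l : ℝ) * N * N ≤ 2 * l * N * (32 * t) :=
          mul_le_mul_of_nonneg_left e3 (by positivity)
        nlinarith
      linarith)
    rw [← hn, ← hN, ← hCl] at hev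
    set PP := (Icc 0 (w ^ 32)).filter Nat.Prime with hPP
    set GG := PP.filter (fun p => GP L (τ j * u) p) with hGG
    -- remove the ramified primes
    have hcount : (w : ℝ) / 32 ≤ 2 * u + GG.card := by
      refine hgood.trans ?_
      have h1 : (PP.filter (fun p => p ∣ (discr L).natAbs ∨ GP L (τ j * u) p)).card ≤
          (PP.filter (fun p => p ∣ (discr L).natAbs)).card + GG.card := by
        rw [Finset.filter_or]
        exact Finset.card_union_le _ _
      have h2 := card_ramified_le (L := L) (PP.filter (fun p => p ∣ (discr L).natAbs)) (by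
        intro p hp
        rw [mem_filter, hPP, mem_filter] at hp
        exact ⟨hp.1.2, hp.2⟩)
      have h3 : ((PP.filter (fun p => p ∣ (discr L).natAbs ∨ GP L (τ j * u) p)).card : ℝ) ≤
          (PP.filter (fun p => p ∣ (discr L).natAbs)).card + GG.card := by exact_mod_cast h1
      linarith
    have hmain : (w : ℝ) / 32 * Cl ≤ (2 ^ N + 2 * u) * (Bn N * RR) := by
      have h1 : (GG.card : ℝ) * Cl ≤ 2 ^ N * (Bn N * RR) := by
        refine hev.trans ?_
        have h2 : Bn N * Real.sqrt |(discr M : ℝ)| * Real.log |(discr M : ℝ)| ^ N = Bn N * RR := by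
          rw [hRR]; ring
        rw [h2]
        apply mul_le_mul_of_nonneg_right _ (by positivity)
        exact pow_le_pow_right₀ (by norm_num) hnN
      calc (w : ℝ) / 32 * Cl ≤ (2 * u + GG.card) * Cl := mul_le_mul_of_nonneg_right hcount hCl0
        _ = 2 * u * Cl + GG.card * Cl := by ring
        _ ≤ 2 * u * (Bn N * RR) + 2 ^ N * (Bn N * RR) := by
            apply add_le_add _ h1
            exact mul_le_mul_of_nonneg_left htriv' (by positivity)
        _ = _ := by ring
    -- conclude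
    have h1 : Real.exp (t - 1) / 32 * Cl ≤ (2 ^ N + 2 * u) * (Bn N * RR) := by
      refine le_trans ?_ hmain
      apply mul_le_mul_of_nonneg_right _ hCl0
      apply div_le_div_of_nonneg_right hw3 (by norm_num)
    have h2 : Cl ≤ 32 * Real.exp 1 * Real.exp (-t) * ((2 ^ N + 2 * u) * (Bn N * RR)) := by
      have e1 : Cl = 32 * Real.exp 1 * Real.exp (-t) * (Real.exp (t - 1) / 32 * Cl) := by
        have e2 : Real.exp 1 * Real.exp (-t) * Real.exp (t - 1) = 1 := by
          rw [← Real.exp_add, ← Real.exp_add]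
          rw [show 1 + -t + (t - 1) = 0 by ring, Real.exp_zero]
        calc Cl = (Real.exp 1 * Real.exp (-t) * Real.exp (t - 1)) * Cl := by rw [e2, one_mul]
          _ = _ := by ring
      calc Cl = 32 * Real.exp 1 * Real.exp (-t) * (Real.exp (t - 1) / 32 * Cl) := e1
        _ ≤ _ := mul_le_mul_of_nonneg_left h1 (by positivity)
    have h3 : Real.exp (-t) * (2 ^ N + 2 * u) ≤ (2 ^ N + 2 / δ) * Real.exp (-(δ * u)) := by
      have e1 : Real.exp (-t) ≤ Real.exp (-(δ * u)) * Real.exp (-(δ * u)) := by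
        rw [← Real.exp_add, Real.exp_le_exp]
        linarith
      have e2 : (2 : ℝ) ^ N + 2 * u ≤ (2 ^ N + 2 / δ) * (1 + δ * u) := by
        have e3 : (2 ^ N + 2 / δ) * (1 + δ * u) =
            2 ^ N + 2 * u + (2 / δ + 2 ^ N * (δ * u)) := by
          field_simp
          ring
        rw [e3]
        have : 0 ≤ 2 / δ + 2 ^ N * (δ * u) := by positivity
        linarith
      have e3 : 1 + δ * u ≤ Real.exp (δ * u) := by
        have := Real.add_one_le_exp (δ * u)
        linarith
      have e4 : Real.exp (-(δ * u)) * Real.exp (δ * u) = 1 := by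
        rw [← Real.exp_add, neg_add_cancel, Real.exp_zero]
      calc Real.exp (-t) * (2 ^ N + 2 * u)
          ≤ (Real.exp (-(δ * u)) * Real.exp (-(δ * u))) * ((2 ^ N + 2 / δ) * (1 + δ * u)) :=
            mul_le_mul e1 e2 (by positivity) (by positivity)
        _ ≤ (Real.exp (-(δ * u)) * Real.exp (-(δ * u))) * ((2 ^ N + 2 / δ) * Real.exp (δ * u)) := by
            apply mul_le_mul_of_nonneg_left _ (by positivity)
            exact mul_le_mul_of_nonneg_left e3 (by positivity)
        _ = (2 ^ N + 2 / δ) * Real.exp (-(δ * u)) * (Real.exp (-(δ * u)) * Real.exp (δ * u)) := by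
            ring
        _ = _ := by rw [e4, mul_one]
    calc Cl ≤ 32 * Real.exp 1 * Real.exp (-t) * ((2 ^ N + 2 * u) * (Bn N * RR)) := h2
      _ = 32 * Real.exp 1 * (Real.exp (-t) * (2 ^ N + 2 * u)) * (Bn N * RR) := by ring
      _ ≤ 32 * Real.exp 1 * ((2 ^ N + 2 / δ) * Real.exp (-(δ * u))) * (Bn N * RR) := by
          apply mul_le_mul_of_nonneg_right _ (by positivity)
          exact mul_le_mul_of_nonneg_left h3 (by positivity)
      _ = Bn N * ((32 * Real.exp 1 * (2 ^ N + 2 / δ)) * Real.exp (-(δ * u))) * RR := by ring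
      _ ≤ Bn N * (max (32 * Real.exp 1 * (2 ^ N + 2 / δ)) (Real.exp (δ * thr N l)) *
            Real.exp (-(δ * u))) * RR := by
          apply mul_le_mul_of_nonneg_right _ hRR0
          apply mul_le_mul_of_nonneg_left _ hBn.le
          exact mul_le_mul_of_nonneg_right (le_max_left _ _) hexp0.le
      _ = _ := by unfold CC; ring

end fin

end Pool.Agent.Lib.MP_695920_nt
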