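import Mathlib
import Pool.Agent.Lib.MP_695920_nt.EVG3
import Pool.Agent.Lib.MP_695920_nt.GeneralFinal

set_option autoImplicit false

open Finset NumberField Module IsDedekindDomain
open scoped nonZeroDivisors

namespace Pool.Agent.Lib.MP_695920_nt

lemma norm_twoG {K : Type*} [Field K] [NumberField K] {p : ℕ} (hp : p.Prime) {P1 P2 : Ideal (𝓞 K)}
    (h1 : P1.IsPrime) (h2 : P2.IsPrime) (hm1 : (p : 𝓞 K) ∈ P1) (hm2 : (p : 𝓞 K) ∈ P2)
    (hne : P1 ≠ P2) :
    Ideal.absNorm P1 ^ 2 ≤ p ^ finrank ℚ K ∨ Ideal.absNorm P2 ^ 2 ≤ p ^ finrank ℚ K := by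
  have hM1 := h1.isMaximal (P_ne_bot hp hm1)
  have hM2 := h2.isMaximal (P_ne_bot hp hm2)
  have hcop : IsCoprime P1 P2 := (Ideal.isCoprime_iff_sup_eq).mpr (hM1.coprime_of_ne hM2 hne)
  have hdvd : P1 * P2 ∣ Ideal.span {(p : 𝓞 K)} := by
    apply hcop.mul_dvd
    · rw [Ideal.dvd_iff_le, Ideal.span_singleton_le_iff_mem]; exact hm1
    · rw [Ideal.dvd_iff_le, Ideal.span_singleton_le_iff_mem]; exact hm2
  have h3 := Ideal.absNorm_dvd_absNorm_of_le (Ideal.le_of_dvd hdvd)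
  rw [Ideal.absNorm_span_natCast, RingOfIntegers.rank, map_mul] at h3
  have h4 := Nat.le_of_dvd (pow_pos hp.pos _) h3
  rcases le_total (Ideal.absNorm P1) (Ideal.absNorm P2) with h | h
  · left
    rw [sq]
    exact (Nat.mul_le_mul_left _ h).trans h4
  · right
    rw [sq]
    exact (Nat.mul_le_mul_right _ h).trans h4

/-- `p` has at least two primes above it -/
def Two (L : Type*) [Field L] (p : ℕ) : Prop :=
  ∃ Q1 Q2 : Ideal (𝓞 L), Q1.IsPrime ∧ Q2.IsPrime ∧ (p : 𝓞 L) ∈ Q1 ∧ (p : 𝓞 L) ∈ Q2 ∧ Q1 ≠ Q2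

variable {L M : Type*} [Field L] [NumberField L] [Field M] [NumberField M] [Algebra L M]

/-- the main inequality -/
theorem keyG {l : ℕ} (hl : 0 < l) (hn : 1 < finrank ℚ L) (T : ℝ) (hT0 : 0 < T)
    (hT : ∀ F : IntermediateField ℚ L, F ≠ ⊥ → T ≤ |(discr F : ℝ)|) (G : Finset ℕ) (x : ℝ)
    (hx1 : 1 ≤ x)
    (hG : ∀ m ∈ G, m ≠ 0 ∧ (m : ℝ) ≤ x ∧ ∀ p : ℕ, p.Prime → p ∣ m → Two L p)
    (hx : (l : ℝ) * finrank ℚ M * (finrank ℚ L - 1) * Real.log x +
      2 * l * (finrank ℚ M : ℝ) ^ 2 ≤ Real.log T) :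
    (G.card : ℝ) * (Nat.card {x : ClassGroup (𝓞 M) // x ^ l = 1} : ℝ) ≤
      Bn (finrank ℚ M) * Real.sqrt |(discr M : ℝ)| *
        Real.log |(discr M : ℝ)| ^ finrank ℚ M := by
  classical
  set n := finrank ℚ L with hnn
  set N := finrank ℚ M with hNN
  set m0 := finrank L M with hm0
  have hNm : (N : ℝ) = n * m0 := by
    rw [hNN, hnn, hm0]
    exact_mod_cast (Module.finrank_mul_finrank ℚ L M).symm
  have hm01 : 1 ≤ m0 := finrank_pos
  have hm0r : (1 : ℝ) ≤ m0 := by exact_mod_cast hm01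
  have hnr : (2 : ℝ) ≤ n := by exact_mod_cast hn
  have hlr : (1 : ℝ) ≤ l := by exact_mod_cast hl
  have hN2 : 1 < finrank ℚ M := by
    have h3 := finrank_mul_finrank ℚ L M
    rw [← h3]
    calc 1 < finrank ℚ L := hn
      _ ≤ finrank ℚ L * finrank L M := Nat.le_mul_of_pos_right _ finrank_pos
  have hlogx : 0 ≤ Real.log x := Real.log_nonneg hx1
  have hx0 : 0 < x := by linarith
  -- choose the primes
  have hex : ∀ p : ℕ, ∃ P R : Ideal (𝓞 L), p.Prime → Two L p → P.IsPrime ∧ R.IsPrime ∧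
      (p : 𝓞 L) ∈ P ∧ (p : 𝓞 L) ∈ R ∧ P ≠ R ∧ Ideal.absNorm P ^ 2 ≤ p ^ n := by
    intro p
    by_cases hp : p.Prime ∧ Two L p
    · obtain ⟨hpp, Q1, Q2, a, b, c, d, e⟩ := hp
      rcases norm_twoG hpp a b c d e with h | h
      · exact ⟨Q1, Q2, fun _ _ => ⟨a, b, c, d, e, h⟩⟩
      · exact ⟨Q2, Q1, fun _ _ => ⟨b, a, d, c, e.symm, h⟩⟩
    · exact ⟨⊥, ⊥, fun h1 h2 => absurd ⟨h1, h2⟩ hp⟩
  choose P R hPR using hex
  have hgood : ∀ m ∈ G, ∀ p : ℕ, p.Prime → p ∣ m → P p ≠ ⊥ ∧ (P p).IsPrime ∧ (R p).IsPrime ∧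
      (p : 𝓞 L) ∈ P p ∧ (p : 𝓞 L) ∈ R p ∧ P p ≠ R p ∧ Ideal.absNorm (P p) ^ 2 ≤ p ^ n := by
    intro m hm p hp hpm
    obtain ⟨a, b, c, d, e, f⟩ := hPR p hp ((hG m hm).2.2 p hp hpm)
    exact ⟨P_ne_bot hp c, a, b, c, d, e, f⟩
  have hmemP : ∀ m ∈ G, ∀ p : ℕ, p.Prime → p ∣ m → (p : 𝓞 L) ∈ P p := fun m hm p hp hpm =>
    (hgood m hm p hp hpm).2.2.2.1
  have hIbot : ∀ m ∈ G, prodI P m ≠ ⊥ := fun m hm => prodI_ne_bot (hmemP m hm)
  have hInorm : ∀ m ∈ G, (Ideal.absNorm (prodI P m) : ℝ) ≤ Real.exp ((n : ℝ) / 2 * Real.log x) := by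
    intro m hm
    have h1 := absNorm_prodI (P := P) (n := n) (hG m hm).1
      (fun p hp hpm => (hgood m hm p hp hpm).2.2.2.2.2.2)
    have h2 : (0 : ℝ) < Ideal.absNorm (prodI P m) := by
      exact_mod_cast absNorm_pos_of_ne_bot (hIbot m hm)
    have h3 : ((Ideal.absNorm (prodI P m) : ℝ)) ^ 2 ≤ x ^ n := by
      calc ((Ideal.absNorm (prodI P m) : ℝ)) ^ 2 ≤ ((m : ℝ)) ^ n := by exact_mod_cast h1
        _ ≤ x ^ n := pow_le_pow_left₀ (Nat.cast_nonneg _) (hG m hm).2.1 n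
    have h4 := Real.log_le_log (by positivity) h3
    rw [Real.log_pow, Real.log_pow] at h4
    push_cast at h4
    rw [← Real.log_le_iff_le_exp h2]
    linarith
  -- different integers give different multiplicities at some prime
  have hdiff : ∀ m ∈ G, ∀ m' ∈ G, m ≠ m' → ∃ p : ℕ, p.Prime ∧ (p ∣ m ∨ p ∣ m') ∧
      m.factorization p ≠ m'.factorization p := by
    intro m hm m' hm' hne
    by_contra hcon
    push Not at hcon
    apply hne
    apply Nat.eq_of_factorization_eq (hG m hm).1 (hG m' hm').1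
    intro p
    by_cases hp : p.Prime
    · by_cases hpm : p ∣ m ∨ p ∣ m'
      · exact hcon p hp hpm
      · push Not at hpm
        rw [Nat.factorization_eq_zero_of_not_dvd hpm.1, Nat.factorization_eq_zero_of_not_dvd hpm.2]
    · rw [Nat.factorization_eq_zero_of_not_prime m hp, Nat.factorization_eq_zero_of_not_prime m' hp]
  have hemultP : ∀ p : ℕ, p.Prime → Two L p → emultiplicity (P p) (P p) = 1 := by
    intro p hp hT
    obtain ⟨a, b, c, d, e, f⟩ := hPR p hp hT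
    have hprime : Prime (P p) := Ideal.prime_of_isPrime (P_ne_bot hp c) a
    have h1 : FiniteMultiplicity (P p) (P p) := FiniteMultiplicity.of_prime_left hprime
      (P_ne_bot hp c)
    rw [h1.emultiplicity_self]
  have hemultR : ∀ p : ℕ, p.Prime → Two L p → emultiplicity (R p) (P p) = 0 := by
    intro p hp hT
    obtain ⟨a, b, c, d, e, f⟩ := hPR p hp hT
    rw [emultiplicity_eq_zero]
    intro h
    have h1 : P p ≤ R p := Ideal.le_of_dvd h
    have hmax := a.isMaximal (P_ne_bot hp c)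
    exact e (hmax.eq_of_le b.ne_top h1)
  have htwo : ∀ m ∈ G, ∀ p : ℕ, p.Prime → p ∣ m → Two L p := fun m hm p hp hpm =>
    (hG m hm).2.2 p hp hpm
  -- the key data for two different integers
  have hdata : ∀ m ∈ G, ∀ m' ∈ G, m ≠ m' → ∃ p : ℕ, p.Prime ∧ Two L p ∧
      emultiplicity (P p) (prodI P m) ≠ emultiplicity (P p) (prodI P m') ∧
      ¬ R p ∣ prodI P m ∧ ¬ R p ∣ prodI P m' := by
    intro m hm m' hm' hne
    obtain ⟨p, hp, hpm, hfac⟩ := hdiff m hm m' hm' hne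
    have hT : Two L p := by
      rcases hpm with h | h
      · exact htwo m hm p hp h
      · exact htwo m' hm' p hp h
    obtain ⟨a, b, c, d, e, f⟩ := hPR p hp hT
    refine ⟨p, hp, hT, ?_, ?_, ?_⟩
    · rw [emult_prodI hp a c (hmemP m hm), emult_prodI hp a c (hmemP m' hm'), hemultP p hp hT,
        mul_one, mul_one]
      intro h
      exact hfac (by exact_mod_cast h)
    · rw [← emultiplicity_eq_zero, emult_prodI hp b d (hmemP m hm), hemultR p hp hT, mul_zero]
    · rw [← emultiplicity_eq_zero, emult_prodI hp b d (hmemP m' hm'), hemultR p hp hT, mul_zero]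
  have hinj : Set.InjOn (prodI P) (G : Set ℕ) := by
    intro m hm m' hm' h
    by_contra hne
    obtain ⟨p, _, _, h1, _⟩ := hdata m hm m' hm' hne
    exact h1 (by rw [h])
  have hmain := ev_countG (K := L) (M := M) hl (G.image (prodI P)) (by
      intro I hI
      rw [mem_image] at hI
      obtain ⟨m, hm, rfl⟩ := hI
      exact hIbot m hm) (by
      intro I hI J hJ hIJ u v hu hv huv
      rw [mem_image] at hI hJ
      obtain ⟨m, hm, rfl⟩ := hI
      obtain ⟨m', hm', rfl⟩ := hJ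
      have hne : m ≠ m' := fun h => hIJ (by rw [h])
      obtain ⟨p, hp, hT, h1, h2, h3⟩ := hdata m hm m' hm' hne
      obtain ⟨a, b, c, d, e, f⟩ := hPR p hp hT
      exact not_rat (Nat.mul_pos finrank_pos hl) (hIbot m hm) (hIbot m' hm') hu hv huv hp a b c d
        h2 h3 h1) (Real.exp ((n : ℝ) / 2 * Real.log x)) (by
      intro I hI
      rw [mem_image] at hI
      obtain ⟨m, hm, rfl⟩ := hI
      exact hInorm m hm) (by
      intro F hF
      refine lt_of_lt_of_le ?_ (hT F hF)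
      rw [← Real.log_lt_log_iff (by positivity) hT0]
      refine lt_of_lt_of_le ?_ hx
      rw [Real.log_mul (by positivity) (by positivity), Real.log_pow, Real.log_pow, Real.log_pow,
        Real.log_mul (by norm_num) (by positivity), Real.log_exp, Real.log_exp]
      rw [← hnn, ← hm0]
      have h1 : Real.log 2 < 1 := by linarith [Real.log_two_lt_d9]
      have h1' : 0 < Real.log 2 := Real.log_pos (by norm_num)
      have hn1 : 1 ≤ n := hn.le
      have e1 : ((n - 1 : ℕ) : ℝ) = n - 1 := by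
        rw [Nat.cast_sub hn1, Nat.cast_one]
      push_cast
      rw [e1, hNm]
      have hn0 : (0 : ℝ) < n := by linarith
      have h2 : (n : ℝ) * (n - 1) * Real.log 2 ≤ n * n * 1 := by
        have : (n : ℝ) * (n - 1) ≤ n * n := by nlinarith
        calc (n : ℝ) * (n - 1) * Real.log 2 ≤ n * (n - 1) * 1 := by
              apply mul_le_mul_of_nonneg_left h1.le
              nlinarith
          _ ≤ n * n * 1 := by linarith
      have h3 : (n : ℝ) * n * 1 ≤ l * ((n * m0) * (n * m0)) := by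
        have h4 : (1 : ℝ) ≤ l * (m0 * m0) := by nlinarith
        nlinarith [mul_pos hn0 hn0]
      have h5 : (n : ℝ) * (n - 1) * (m0 * l) < l * ((n * m0) * (n * m0)) := by
        have h6 : (n : ℝ) - 1 < n * m0 := by nlinarith
        have h7 : (0 : ℝ) < n * (m0 * l) := by positivity
        calc (n : ℝ) * (n - 1) * (m0 * l) = (n * (m0 * l)) * (n - 1) := by ring
          _ < (n * (m0 * l)) * (n * m0) := mul_lt_mul_of_pos_left h6 h7
          _ = _ := by ring
      nlinarith)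
  rw [Finset.card_image_of_injOn hinj] at hmain
  exact hmain.trans (sum_bound' hN2)

end Pool.Agent.Lib.MP_695920_nt
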