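import Mathlib
import Pool.Agent.Lib.MP_695920_nt.KeyG

set_option autoImplicit false

open Finset NumberField Module IsDedekindDomain
open scoped nonZeroDivisors

namespace Pool.Agent.Lib.MP_695920_nt

lemma ramified_dvd_sq {K : Type*} [Field K] [NumberField K] {p : ℕ} (hp : p.Prime)
    {P : Ideal (𝓞 K)} (hP : P.IsPrime) (hmem : (p : 𝓞 K) ∈ P)
    (he : P ^ 2 ∣ Ideal.span {(p : 𝓞 K)}) : p ∣ (discr K).natAbs := by
  have hP0 := P_ne_bot hp hmem
  have hmax := span_int_isMaximal hp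
  have hne : Ideal.span {(p : ℤ)} ≠ ⊥ := by simpa using hp.ne_zero
  have h1 : P ^ 2 ∣ Ideal.map (algebraMap ℤ (𝓞 K)) (Ideal.span {(p : ℤ)}) := by
    rw [Ideal.map_span, Set.image_singleton]
    simpa using he
  have h2 := pow_sub_one_dvd_differentIdeal ℤ P 2 hne h1
  rw [Nat.add_sub_cancel_left 1 1, pow_one] at h2
  have h3 := Ideal.absNorm_dvd_absNorm_of_le (Ideal.le_of_dvd h2)
  rw [absNorm_differentIdeal K] at h3
  exact (dvd_absNorm_of_mem hp hP hP0 hmem).trans h3

/-- an unramified prime which is not inert has two primes above it -/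
lemma two_of_not_prime {K : Type*} [Field K] [NumberField K] {p : ℕ} (hp : p.Prime)
    (hunr : ¬ p ∣ (discr K).natAbs) (hni : ¬ (Ideal.span {(p : 𝓞 K)}).IsPrime) : Two K p := by
  have hne : Ideal.span {(p : 𝓞 K)} ≠ ⊤ := by
    intro h
    have h1 := Ideal.absNorm_span_natCast (S := 𝓞 K) p
    rw [h, Ideal.absNorm_top, RingOfIntegers.rank] at h1
    have h2 : 1 < p ^ finrank ℚ K := Nat.one_lt_pow finrank_pos.ne' hp.one_lt
    omega
  obtain ⟨Q, hQ, hle⟩ := Ideal.exists_le_maximal _ hne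
  have hQp : (p : 𝓞 K) ∈ Q := hle (Ideal.mem_span_singleton_self _)
  obtain ⟨R, hR⟩ : Q ∣ Ideal.span {(p : 𝓞 K)} := Ideal.dvd_iff_le.mpr hle
  have hRtop : R ≠ ⊤ := by
    rintro rfl
    rw [Ideal.mul_top] at hR
    exact hni (hR ▸ hQ.isPrime)
  obtain ⟨Q', hQ', hle'⟩ := Ideal.exists_le_maximal _ hRtop
  have hQ'p : (p : 𝓞 K) ∈ Q' := by
    apply hle'
    have h1 : Ideal.span {(p : 𝓞 K)} ≤ R := Ideal.le_of_dvd ⟨Q, by rw [hR, mul_comm]⟩
    exact h1 (Ideal.mem_span_singleton_self _)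
  refine ⟨Q, Q', hQ.isPrime, hQ'.isPrime, hQp, hQ'p, ?_⟩
  rintro rfl
  apply hunr
  apply ramified_dvd_sq hp hQ.isPrime hQp
  rw [sq, hR]
  exact mul_dvd_mul_left _ (Ideal.dvd_iff_le.mpr hle')

lemma card_ramified_le' {L : Type*} [Field L] [NumberField L] (T : Finset ℕ)
    (hT : ∀ p ∈ T, p.Prime ∧ p ∣ (discr L).natAbs) :
    (T.card : ℝ) ≤ 2 * Real.log |(discr L : ℝ)| := by
  have h1 : ∏ p ∈ T, p ∣ (discr L).natAbs := by
    apply Finset.prod_primes_dvd
    · intro p hp; exact (hT p hp).1.prime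
    · intro p hp; exact (hT p hp).2
  have h2 := Nat.le_of_dvd (Int.natAbs_pos.mpr (discr_ne_zero L)) h1
  have h3 : 2 ^ T.card ≤ ∏ p ∈ T, p := by
    rw [← Finset.prod_const]
    exact Finset.prod_le_prod' fun p hp => (hT p hp).1.two_le
  have h4 : ((2 ^ T.card : ℕ) : ℝ) ≤ (((discr L).natAbs : ℕ) : ℝ) := by exact_mod_cast h3.trans h2
  rw [Nat.cast_natAbs, Int.cast_abs] at h4
  push_cast at h4
  have h5 := Real.log_le_log (by positivity) h4
  rw [Real.log_pow] at h5
  have h6 : (0.5 : ℝ) ≤ Real.log 2 := by linarith [Real.log_two_gt_d9]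
  have h7 : (T.card : ℝ) * 0.5 ≤ T.card * Real.log 2 :=
    mul_le_mul_of_nonneg_left h6 (Nat.cast_nonneg _)
  linarith

lemma pi_lower (N : ℕ) (hN : (10 : ℝ) ^ 8 ≤ N) :
    (N : ℝ) / (2 * Real.log N) ≤ ((Ioc 0 N).filter Nat.Prime).card := by
  have hN0 : (0 : ℝ) < N := lt_of_lt_of_le (by norm_num) hN
  have hlog : 0 < Real.log N := Real.log_pos (by linarith [show (1 : ℝ) < 10 ^ 8 by norm_num])
  have h1 := Chebyshev.pi_ge N
  have hpi : (Nat.primeCounting N : ℝ) = ((Ioc 0 N).filter Nat.Prime).card := by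
    rw [Nat.primeCounting, Nat.primeCounting', Nat.count_eq_card_filter_range]
    congr 2
    ext p
    simp only [mem_filter, mem_range, mem_Ioc]
    constructor
    · rintro ⟨h, h'⟩; exact ⟨⟨h'.pos, by omega⟩, h'⟩
    · rintro ⟨⟨_, h⟩, h'⟩; exact ⟨by omega, h'⟩
  rw [← hpi]
  refine le_trans ?_ h1
  have h2 : Real.log ((N : ℝ) + 1) ≤ 0.1 * N := by
    set z : ℝ := Real.sqrt (Real.sqrt N) with hz
    have hz2 : z ^ 2 = Real.sqrt N := Real.sq_sqrt (Real.sqrt_nonneg _)
    have hz4 : z ^ 4 = N := by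
      rw [show (4 : ℕ) = 2 * 2 by norm_num, pow_mul, hz2, Real.sq_sqrt hN0.le]
    have hz100 : 100 ≤ z := by
      rw [hz]
      apply Real.le_sqrt_of_sq_le
      apply Real.le_sqrt_of_sq_le
      refine le_trans (by norm_num) hN
    have hz0 : 0 < z := by linarith
    have hlogz : Real.log z ≤ z := (Real.log_le_sub_one_of_pos hz0).trans (by linarith)
    have hlogN : Real.log N = 4 * Real.log z := by rw [← hz4, Real.log_pow]; norm_num
    have hlog2' : Real.log 2 ≤ 1 := by linarith [Real.log_two_lt_d9]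
    have h3 : Real.log ((N : ℝ) + 1) ≤ Real.log (2 * N) := by
      apply Real.log_le_log (by positivity)
      linarith
    rw [Real.log_mul (by norm_num) hN0.ne', hlogN] at h3
    have h6 : 1000000 * z ≤ z ^ 4 := by
      have : z ^ 4 = z ^ 3 * z := by ring
      rw [this]
      apply mul_le_mul_of_nonneg_right _ hz0.le
      calc (1000000 : ℝ) = 100 ^ 3 := by norm_num
        _ ≤ z ^ 3 := pow_le_pow_left₀ (by norm_num) hz100 3
    rw [← hz4]
    rw [← hz4] at h3
    linarith
  have h5 : 0.69 * (N : ℝ) ≤ N * Real.log 2 := by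
    have := Real.log_two_gt_d9
    nlinarith
  rw [div_mul_eq_div_div]
  apply div_le_div_of_nonneg_right _ hlog.le
  linarith

variable {L M : Type*} [Field L] [NumberField L] [Field M] [NumberField M] [Algebra L M]

theorem noinert_bound {l : ℕ} (hl : 0 < l) (hn : 1 < finrank ℚ L) (T : ℝ) (hT0 : 0 < T)
    (hT : ∀ F : IntermediateField ℚ L, F ≠ ⊥ → T ≤ |(discr F : ℝ)|)
    (hno : ∀ p : ℕ, p.Prime → ¬ p ∣ (discr L).natAbs → Two L p) :
    (Nat.card {x : ClassGroup (𝓞 M) // x ^ l = 1} : ℝ) ≤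
      (Bn (finrank ℚ M) * (12 * Real.exp (20 + 2 * finrank ℚ M))) *
        (Real.sqrt |(discr M : ℝ)| * Real.log |(discr M : ℝ)| ^ (finrank ℚ M + 2)) *
        Real.exp (-(Real.log T / (l * finrank ℚ M * (finrank ℚ L - 1)))) := by
  classical
  set n := finrank ℚ L with hnn
  set N := finrank ℚ M with hNN
  have hnN : n ≤ N := by
    have h3 := finrank_mul_finrank ℚ L M
    rw [hnn, hNN, ← h3]
    exact Nat.le_mul_of_pos_right _ finrank_pos
  have hM : 1 < finrank ℚ M := by omega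
  have hD3 := three_le_discr hM
  have hlogD : 1 ≤ Real.log |(discr M : ℝ)| := by
    rw [Real.le_log_iff_exp_le (by linarith)]
    linarith [Real.exp_one_lt_d9]
  set LD := Real.log |(discr M : ℝ)| with hLD
  have htriv := triv_bound (M := M) hl hM
  rw [← hNN, ← hLD] at htriv
  set Cl : ℝ := (Nat.card {x : ClassGroup (𝓞 M) // x ^ l = 1} : ℝ) with hCl
  have hCl0 : 0 ≤ Cl := Nat.cast_nonneg _
  set S := Real.sqrt |(discr M : ℝ)| with hS
  have hS0 : 0 ≤ S := Real.sqrt_nonneg _
  have hBn := Bn_pos N hM.le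
  have hnr : (2 : ℝ) ≤ n := by exact_mod_cast hn
  have hNr : (n : ℝ) ≤ N := by exact_mod_cast hnN
  have hlr : (1 : ℝ) ≤ l := by exact_mod_cast hl
  set k : ℝ := l * N * (n - 1) with hk
  have hk1 : (N : ℝ) ≤ k := by
    rw [hk]
    have : (1 : ℝ) ≤ l * (n - 1) := by nlinarith
    nlinarith
  have hk0 : 0 < k := by linarith
  -- the discriminants
  have hTL : T ≤ |(discr L : ℝ)| := by
    have h1 := hT ⊤ (by
      intro h
      have h2 : finrank ℚ L = 1 := by
        rw [← IntermediateField.finrank_top' (F := ℚ) (E := L), h, IntermediateField.finrank_bot]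
      omega)
    rwa [discr_eq_discr_of_algEquiv _ (IntermediateField.topEquiv (F := ℚ) (E := L))] at h1
  have hLM : |(discr L : ℝ)| ≤ |(discr M : ℝ)| := by
    have h1 : (discr L).natAbs ≤ (discr M).natAbs :=
      Nat.le_of_dvd (Int.natAbs_pos.mpr (discr_ne_zero M))
        (Int.natAbs_dvd_natAbs.mpr (discr_dvd_discr L M))
    have h2 : (((discr L).natAbs : ℕ) : ℝ) ≤ (((discr M).natAbs : ℕ) : ℝ) := by exact_mod_cast h1
    rwa [Nat.cast_natAbs, Nat.cast_natAbs, Int.cast_abs, Int.cast_abs] at h2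
  have hL0 : (0 : ℝ) < |(discr L : ℝ)| := abs_pos.mpr (by exact_mod_cast discr_ne_zero L)
  have hlogT : Real.log T ≤ LD := Real.log_le_log hT0 (hTL.trans hLM)
  have hlogL : Real.log |(discr L : ℝ)| ≤ LD := Real.log_le_log hL0 hLM
  set x0 : ℝ := (Real.log T - 2 * l * (N : ℝ) ^ 2) / k with hx0
  have hx0k : k * x0 + 2 * l * (N : ℝ) ^ 2 = Real.log T := by
    rw [hx0, mul_div_cancel₀ _ hk0.ne']
    ring
  have hET : Real.log T / k ≤ x0 + 2 * N := by
    rw [← hx0k, add_div, mul_div_cancel_left₀ _ hk0.ne']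
    have h1 : 2 * (l : ℝ) * (N : ℝ) ^ 2 / k ≤ 2 * N := by
      rw [div_le_iff₀ hk0, hk]
      have h2 : 0 ≤ 2 * (l : ℝ) * (N : ℝ) ^ 2 := by positivity
      nlinarith
    linarith
  rcases lt_or_ge x0 20 with hsmall | hbig
  · have h1 : 1 ≤ Real.exp (20 + 2 * N) * Real.exp (-(Real.log T / k)) := by
      rw [← Real.exp_add]
      apply Real.one_le_exp
      linarith
    have h2 : LD ^ N ≤ LD ^ (N + 2) := pow_le_pow_right₀ hlogD (by omega)
    have hRR : S * LD ^ N ≤ S * LD ^ (N + 2) := mul_le_mul_of_nonneg_left h2 hS0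
    have hRR0 : 0 ≤ S * LD ^ (N + 2) := by positivity
    calc Cl ≤ Bn N * S * LD ^ N := htriv
      _ = Bn N * (S * LD ^ N) := by ring
      _ ≤ Bn N * (S * LD ^ (N + 2)) := mul_le_mul_of_nonneg_left hRR hBn.le
      _ = Bn N * (S * LD ^ (N + 2)) * 1 := by ring
      _ ≤ Bn N * (S * LD ^ (N + 2)) * (Real.exp (20 + 2 * N) * Real.exp (-(Real.log T / k))) :=
          mul_le_mul_of_nonneg_left h1 (by positivity)
      _ ≤ (Bn N * (S * LD ^ (N + 2)) * (Real.exp (20 + 2 * N) * Real.exp (-(Real.log T / k)))) * 12 :=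
          le_mul_of_one_le_right (by positivity) (by norm_num)
      _ = _ := by ring
  · set x : ℝ := Real.exp x0 with hx
    have hxbig : (2 : ℝ) * 10 ^ 8 ≤ x := by
      have h1 : Real.exp 20 ≤ x := Real.exp_le_exp.mpr hbig
      have h2 : Real.exp 20 = (Real.exp 1) ^ 20 := by rw [← Real.exp_nat_mul]; norm_num
      have h3 : (2.7 : ℝ) ^ 20 ≤ (Real.exp 1) ^ 20 :=
        pow_le_pow_left₀ (by norm_num) (by linarith [Real.exp_one_gt_d9]) 20
      have h4 : (2 : ℝ) * 10 ^ 8 ≤ (2.7 : ℝ) ^ 20 := by norm_num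
      linarith
    have hx1 : 1 ≤ x := by linarith [show (1 : ℝ) ≤ 2 * 10 ^ 8 by norm_num]
    set N0 := ⌊x⌋₊ with hN0
    have hN0x : (N0 : ℝ) ≤ x := Nat.floor_le (by linarith)
    have hN0x' : x < N0 + 1 := Nat.lt_floor_add_one x
    have hN0half : x / 2 ≤ N0 := by linarith
    have hN0big : (10 : ℝ) ^ 8 ≤ N0 := by linarith
    have hN0pos : (0 : ℝ) < N0 := by linarith [show (0 : ℝ) < 10 ^ 8 by norm_num]
    set PP := (Ioc 0 N0).filter Nat.Prime with hPP
    set GG := PP.filter (fun p => ¬ p ∣ (discr L).natAbs) with hGG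
    have hkey := keyG (L := L) (M := M) hl hn T hT0 hT GG x hx1 (by
      intro p hp
      rw [hGG, mem_filter, hPP, mem_filter, mem_Ioc] at hp
      obtain ⟨⟨⟨h1, h2⟩, h3⟩, h4⟩ := hp
      refine ⟨h3.ne_zero, le_trans (by exact_mod_cast h2) hN0x, ?_⟩
      intro q hq hqp
      rw [(Nat.prime_dvd_prime_iff_eq hq h3).mp hqp]
      exact hno p h3 h4) (by
      rw [← hnn, ← hNN, hx, Real.log_exp, ← hk, hx0k])
    rw [← hNN, ← hLD, ← hCl, ← hS] at hkey
    have hpi := pi_lower N0 hN0big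
    rw [← hPP] at hpi
    have hsplit : (PP.card : ℝ) ≤ GG.card + 2 * LD := by
      have h1 : PP.card = GG.card + (PP.filter (fun p => p ∣ (discr L).natAbs)).card := by
        rw [hGG, add_comm]
        exact (Finset.card_filter_add_card_filter_not (fun p => p ∣ (discr L).natAbs)).symm
      have h2 := card_ramified_le' (L := L) (PP.filter (fun p => p ∣ (discr L).natAbs)) (by
        intro p hp
        rw [mem_filter, hPP, mem_filter] at hp
        exact ⟨hp.1.2, hp.2⟩)
      have h3 : (PP.card : ℝ) = GG.card + ((PP.filter (fun p => p ∣ (discr L).natAbs)).card : ℝ) := by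
        exact_mod_cast h1
      linarith
    have hlogN0 : Real.log N0 ≤ LD := by
      have h1 : Real.log N0 ≤ x0 := by
        rw [← Real.log_exp x0]
        exact Real.log_le_log hN0pos hN0x
      have h2 : x0 ≤ Real.log T := by
        have h3 : x0 ≤ k * x0 := by nlinarith
        have h4 : 0 ≤ 2 * (l : ℝ) * (N : ℝ) ^ 2 := by positivity
        linarith
      linarith
    have hlogN00 : 0 < Real.log N0 := Real.log_pos (by linarith [show (1 : ℝ) < 10 ^ 8 by norm_num])
    have hlow : x / (4 * LD) ≤ PP.card := by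
      refine le_trans ?_ hpi
      rw [div_le_div_iff₀ (by positivity) (by positivity)]
      have h1 : x * (2 * Real.log N0) ≤ (2 * N0) * (2 * LD) := by
        apply mul_le_mul (by linarith) (by linarith) (by positivity) (by positivity)
      linarith
    have hfin : x / (4 * LD) * Cl ≤ 3 * LD * (Bn N * S * LD ^ N) := by
      calc x / (4 * LD) * Cl ≤ (GG.card + 2 * LD) * Cl :=
            mul_le_mul_of_nonneg_right (hlow.trans hsplit) hCl0
        _ = GG.card * Cl + 2 * LD * Cl := by ring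
        _ ≤ Bn N * S * LD ^ N + 2 * LD * (Bn N * S * LD ^ N) := by
            apply add_le_add hkey
            exact mul_le_mul_of_nonneg_left htriv (by linarith)
        _ ≤ LD * (Bn N * S * LD ^ N) + 2 * LD * (Bn N * S * LD ^ N) := by
            have h0 : 0 ≤ Bn N * S * LD ^ N := by positivity
            nlinarith
        _ = _ := by ring
    have hx0' : 0 < x := by linarith
    have hexpx : Real.exp (-x0) * x = 1 := by
      rw [hx, ← Real.exp_add, neg_add_cancel, Real.exp_zero]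
    have hClb : Cl ≤ Bn N * 12 * (S * LD ^ (N + 2)) * Real.exp (-x0) := by
      have e1 : Cl = (x / (4 * LD) * Cl) * (4 * LD * Real.exp (-x0)) := by
        have : LD ≠ 0 := by positivity
        calc Cl = (Real.exp (-x0) * x) * Cl := by rw [hexpx, one_mul]
          _ = _ := by field_simp
      calc Cl = (x / (4 * LD) * Cl) * (4 * LD * Real.exp (-x0)) := e1
        _ ≤ (3 * LD * (Bn N * S * LD ^ N)) * (4 * LD * Real.exp (-x0)) :=
            mul_le_mul_of_nonneg_right hfin (by positivity)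
        _ = _ := by ring
    have hexp : Real.exp (-x0) ≤ Real.exp (20 + 2 * N) * Real.exp (-(Real.log T / k)) := by
      rw [← Real.exp_add, Real.exp_le_exp]
      linarith
    calc Cl ≤ Bn N * 12 * (S * LD ^ (N + 2)) * Real.exp (-x0) := hClb
      _ ≤ Bn N * 12 * (S * LD ^ (N + 2)) * (Real.exp (20 + 2 * N) * Real.exp (-(Real.log T / k))) :=
          mul_le_mul_of_nonneg_left hexp (by positivity)
      _ = _ := by ring

end Pool.Agent.Lib.MP_695920_nt
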