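import Mathlib
import Pool.Agent.Lib.MP_695920_nt.SparseA
import Pool.Agent.Lib.MP_695920_nt.NoInertBound

/-!
# Real characters with the same sign at most small primes are rare (part B: counting)
-/

set_option autoImplicit false

open Finset

namespace Pool.Agent.Lib.MP_695920_nt

/-- the odd primes up to `Y` -/
def PPr (Y : ℕ) : Finset ℕ := (Ioc 0 Y).filter (fun q => q.Prime ∧ q ≠ 2)

/-- the scale belonging to `d` -/
def scl (w : ℕ) (d : ℤ) : ℕ := Nat.log 2 d.natAbs / w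

/-- the character `jchi d` has (nearly) the constant sign `ε` on the odd primes up to `Y` -/
def Biased (ε : ℝ) (Y : ℕ) (d : ℤ) : Prop :=
  ((PPr Y).card : ℝ) / 2 ≤ ε * ∑ q ∈ PPr Y, jchi d q

/-- the exceptional set -/
def Exc (w j0 : ℕ) : Set ℤ :=
  {d | Squarefree d ∧ j0 ≤ scl w d ∧ (Biased 1 (2 ^ scl w d) d ∨ Biased (-1) (2 ^ scl w d) d)}

lemma mem_PPr {Y q : ℕ} : q ∈ PPr Y ↔ q.Prime ∧ q ≠ 2 ∧ q ≤ Y := by
  unfold PPr
  rw [mem_filter, mem_Ioc]
  constructor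
  · rintro ⟨⟨_, h⟩, h1, h2⟩; exact ⟨h1, h2, h⟩
  · rintro ⟨h1, h2, h3⟩; exact ⟨⟨h1.pos, h3⟩, h1, h2⟩

lemma card_PPr {j : ℕ} (hj : 30 ≤ j) : (2 : ℝ) ^ j / (4 * j) ≤ (PPr (2 ^ j)).card := by
  have hY : (10 : ℝ) ^ 8 ≤ ((2 ^ j : ℕ) : ℝ) := by
    push_cast
    calc (10 : ℝ) ^ 8 ≤ 2 ^ 30 := by norm_num
      _ ≤ 2 ^ j := pow_le_pow_right₀ (by norm_num) hj
  have h1 := pi_lower (2 ^ j) hY
  have hjr : (30 : ℝ) ≤ j := by exact_mod_cast hj
  have hlog : Real.log ((2 ^ j : ℕ) : ℝ) ≤ 0.7 * j := by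
    push_cast
    rw [Real.log_pow]
    have := Real.log_two_lt_d9
    nlinarith
  have hlog0 : 0 < Real.log ((2 ^ j : ℕ) : ℝ) := by
    apply Real.log_pos
    linarith [show (1 : ℝ) < 10 ^ 8 by norm_num]
  have hcard : ((Ioc 0 (2 ^ j)).filter Nat.Prime).card ≤ (PPr (2 ^ j)).card + 1 := by
    have : (Ioc 0 (2 ^ j)).filter Nat.Prime ⊆ insert 2 (PPr (2 ^ j)) := by
      intro q hq
      rw [mem_filter, mem_Ioc] at hq
      rw [mem_insert, mem_PPr]
      by_cases h : q = 2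
      · left; exact h
      · right; exact ⟨hq.2, h, hq.1.2⟩
    exact (Finset.card_le_card this).trans (Finset.card_insert_le _ _)
  have hcard' : (((Ioc 0 (2 ^ j)).filter Nat.Prime).card : ℝ) ≤ (PPr (2 ^ j)).card + 1 := by
    exact_mod_cast hcard
  have h2 : (2 : ℝ) ^ j / (2 * (0.7 * j)) ≤ ((2 ^ j : ℕ) : ℝ) / (2 * Real.log ((2 ^ j : ℕ) : ℝ)) := by
    push_cast
    push_cast at hlog hlog0
    apply div_le_div_of_nonneg_left (by positivity) (by positivity)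
    linarith
  have h3 : (2 : ℝ) ^ j / (4 * j) + 1 ≤ (2 : ℝ) ^ j / (2 * (0.7 * j)) := by
    have hj0 : (0 : ℝ) < j := by linarith
    have h4 : (4 : ℝ) * j ≤ 2 ^ j := by
      have h5 : ∀ m : ℕ, 5 ≤ m → 4 * m ≤ 2 ^ m := by
        intro m hm
        induction m, hm using Nat.le_induction with
        | base => norm_num
        | succ m hm ih => rw [pow_succ]; omega
      exact_mod_cast h5 j (by omega)
    rw [div_add_one (by positivity), div_le_div_iff₀ (by positivity) (by positivity)]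
    nlinarith
  linarith

theorem exc_scale (w : ℕ) (hw : 1 ≤ w) : ∃ j0 K : ℕ, 30 ≤ j0 ∧ ∀ j, j0 ≤ j → ∀ ε : ℝ,
    (ε = 1 ∨ ε = -1) → ∀ I : Finset ℤ, (∀ d ∈ I, Squarefree d ∧ scl w d = j ∧ Biased ε (2 ^ j) d) →
    (I.card : ℝ) ≤ K * (j : ℝ) ^ (10 * w) := by
  set k := 10 * w with hk
  set K0 : ℕ := 4 ^ k * k.factorial with hK0
  refine ⟨max 30 (3 + 2 * w + (Nat.log 2 K0 + 1)), 2 * K0 * 4 ^ k, le_max_left _ _, ?_⟩
  intro j hj ε hε I hI
  have hj30 : 30 ≤ j := (le_max_left _ _).trans hj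
  have hjK : 3 + 2 * w + (Nat.log 2 K0 + 1) ≤ j := (le_max_right _ _).trans hj
  have hZ : ∀ d ∈ I, d.natAbs ≤ 2 ^ ((j + 1) * w) := by
    intro d hd
    obtain ⟨_, h2, _⟩ := hI d hd
    have h3 : Nat.log 2 d.natAbs < (j + 1) * w := by
      rw [← h2]
      unfold scl
      exact (Nat.div_lt_iff_lt_mul (by omega)).mp (Nat.lt_succ_self _)
    have h4 : d.natAbs < 2 ^ (Nat.log 2 d.natAbs + 1) := Nat.lt_pow_succ_log_self (by norm_num) _
    exact h4.le.trans (Nat.pow_le_pow_right (by norm_num) h3)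
  have hmain := few_biased (PPr (2 ^ j)) (fun q hq => (mem_PPr.mp hq).1) (2 ^ j)
    (fun q hq => (mem_PPr.mp hq).2.2) k (2 ^ ((j + 1) * w)) ε hε I
    (fun d hd => ⟨(hI d hd).1, hZ d hd, (hI d hd).2.2⟩)
  have hP := card_PPr hj30
  set R : ℝ := ((PPr (2 ^ j)).card : ℝ) with hR
  set s : ℝ := (I.card : ℝ) with hs
  have hs0 : 0 ≤ s := Nat.cast_nonneg _
  have hjr : (30 : ℝ) ≤ j := by exact_mod_cast hj30
  have hj0 : (0 : ℝ) < j := by linarith
  have hYR : (2 : ℝ) ^ j ≤ 4 * j * R := by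
    rw [div_le_iff₀ (by positivity)] at hP
    linarith
  have hR0 : 0 < R := by
    have : (0 : ℝ) < 2 ^ j / (4 * j) := by positivity
    linarith
  have hRk : 0 < R ^ k := by positivity
  -- R^2 >= 2^j
  have hR2 : (2 : ℝ) ^ j ≤ R ^ 2 := by
    have h5 : ∀ m : ℕ, 11 ≤ m → (4 * m) ^ 2 ≤ 2 ^ m := by
      intro m hm
      induction m, hm using Nat.le_induction with
      | base => norm_num
      | succ m hm ih =>
        have h7 : (4 * (m + 1)) ^ 2 ≤ 2 * (4 * m) ^ 2 := by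
          have h8 : 11 * m ≤ m * m := Nat.mul_le_mul_right m hm
          nlinarith
        rw [pow_succ 2 m]
        omega
    have h6 : ((4 : ℝ) * j) ^ 2 ≤ 2 ^ j := by exact_mod_cast h5 j (by omega)
    have h7 : (2 : ℝ) ^ j * 2 ^ j ≤ (4 * j) ^ 2 * R ^ 2 := by
      calc (2 : ℝ) ^ j * 2 ^ j ≤ (4 * j * R) * (4 * j * R) :=
            mul_le_mul hYR hYR (by positivity) (by positivity)
        _ = _ := by ring
    have h8 : (4 * (j : ℝ)) ^ 2 * R ^ 2 ≤ 2 ^ j * R ^ 2 :=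
      mul_le_mul_of_nonneg_right h6 (by positivity)
    exact le_of_mul_le_mul_left (h7.trans h8) (by positivity)
  have hRk2 : (2 : ℝ) ^ (5 * w * j) ≤ R ^ k := by
    have e1 : R ^ k = (R ^ 2) ^ (5 * w) := by rw [← pow_mul, hk]; congr 1; ring
    rw [e1, mul_comm (5 * w) j, pow_mul]
    exact pow_le_pow_left₀ (by positivity) hR2 _
  have hK0lt : K0 < 2 ^ (Nat.log 2 K0 + 1) := Nat.lt_pow_succ_log_self (by norm_num) _
  have hZbound : 8 * (K0 : ℝ) * ((2 : ℝ) ^ ((j + 1) * w)) ^ 2 ≤ R ^ k := by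
    have h1 : 8 * K0 * (2 ^ ((j + 1) * w)) ^ 2 ≤ 2 ^ (5 * w * j) := by
      calc 8 * K0 * (2 ^ ((j + 1) * w)) ^ 2 ≤
          2 ^ 3 * 2 ^ (Nat.log 2 K0 + 1) * (2 ^ ((j + 1) * w)) ^ 2 := by
            apply Nat.mul_le_mul_right
            calc 8 * K0 ≤ 8 * 2 ^ (Nat.log 2 K0 + 1) := Nat.mul_le_mul_left _ hK0lt.le
              _ = _ := by norm_num
        _ = 2 ^ (3 + (Nat.log 2 K0 + 1) + 2 * ((j + 1) * w)) := by
            rw [← pow_mul, ← pow_add, ← pow_add]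
            congr 1; ring
        _ ≤ 2 ^ (5 * w * j) := by
            apply Nat.pow_le_pow_right (by norm_num)
            nlinarith
    have h2 : ((8 * K0 * (2 ^ ((j + 1) * w)) ^ 2 : ℕ) : ℝ) ≤ ((2 ^ (5 * w * j) : ℕ) : ℝ) := by
      exact_mod_cast h1
    push_cast at h2
    exact h2.trans hRk2
  have hKr : ((4 : ℝ) ^ k * k.factorial) = (K0 : ℝ) := by rw [hK0]; push_cast; rfl
  rw [hKr] at hmain
  push_cast at hmain
  have h9 : s * R ^ k ≤ 2 * K0 * (4 ^ k * (j : ℝ) ^ k) * R ^ k := by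
    have h10 : (K0 : ℝ) * (4 * ((2 : ℝ) ^ ((j + 1) * w)) ^ 2 * s) ≤ s * R ^ k / 2 := by
      have : (K0 : ℝ) * (4 * ((2 : ℝ) ^ ((j + 1) * w)) ^ 2 * s) =
          s * (8 * (K0 : ℝ) * ((2 : ℝ) ^ ((j + 1) * w)) ^ 2) / 2 := by ring
      rw [this]
      apply div_le_div_of_nonneg_right _ (by norm_num)
      exact mul_le_mul_of_nonneg_left hZbound hs0
    have h11 : ((2 : ℝ) ^ j) ^ k ≤ (4 ^ k * (j : ℝ) ^ k) * R ^ k := by
      rw [← mul_pow, ← mul_pow]
      exact pow_le_pow_left₀ (by positivity) hYR k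
    have h12 : s * R ^ k / 2 ≤ K0 * ((2 : ℝ) ^ j) ^ k := by
      have : (K0 : ℝ) * (((2 : ℝ) ^ j) ^ k + 4 * ((2 : ℝ) ^ ((j + 1) * w)) ^ 2 * s) =
        K0 * ((2 : ℝ) ^ j) ^ k + (K0 : ℝ) * (4 * ((2 : ℝ) ^ ((j + 1) * w)) ^ 2 * s) := by ring
      rw [this] at hmain
      linarith
    calc s * R ^ k = 2 * (s * R ^ k / 2) := by ring
      _ ≤ 2 * (K0 * ((2 : ℝ) ^ j) ^ k) := by linarith
      _ ≤ 2 * (K0 * ((4 ^ k * (j : ℝ) ^ k) * R ^ k)) := by
          apply mul_le_mul_of_nonneg_left _ (by norm_num)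
          exact mul_le_mul_of_nonneg_left h11 (Nat.cast_nonneg _)
      _ = _ := by ring
  have h13 := le_of_mul_le_mul_right h9 hRk
  push_cast
  calc s ≤ _ := h13
    _ = _ := by ring

/-- the exceptional set is very sparse -/
theorem exc_count (w : ℕ) (hw : 1 ≤ w) : ∃ j0 : ℕ, 30 ≤ j0 ∧ ∃ C : ℝ, ∀ X : ℕ, 1 ≤ X →
    ((Exc w j0 ∩ {d | d.natAbs ≤ X}).ncard : ℝ) ≤ C * (1 + Real.log X) ^ (10 * w + 1) := by
  classical
  obtain ⟨j0, K, hj0, hK⟩ := exc_scale w hw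
  refine ⟨j0, hj0, 2 * K * 2 ^ (10 * w + 1), ?_⟩
  intro X hX
  set J := Nat.log 2 X with hJ
  let S : ℝ → ℕ → Finset ℤ := fun ε j =>
    (Finset.Icc (-(X : ℤ)) X).filter (fun d => Squarefree d ∧ scl w d = j ∧ Biased ε (2 ^ j) d)
  have hsub : Exc w j0 ∩ {d | d.natAbs ≤ X} ⊆
      (((Finset.Icc j0 J).biUnion (fun j => S 1 j ∪ S (-1) j) : Finset ℤ) : Set ℤ) := by
    rintro d ⟨⟨h1, h2, h3⟩, h4⟩
    have h4' : d.natAbs ≤ X := h4
    rw [Finset.mem_coe, Finset.mem_biUnion]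
    refine ⟨scl w d, ?_, ?_⟩
    · rw [Finset.mem_Icc]
      refine ⟨h2, ?_⟩
      calc scl w d ≤ Nat.log 2 d.natAbs := Nat.div_le_self _ _
        _ ≤ J := Nat.log_mono_right h4'
    · have hmem : d ∈ Finset.Icc (-(X : ℤ)) X := by
        rw [Finset.mem_Icc]
        omega
      rw [Finset.mem_union]
      rcases h3 with h | h
      · left
        rw [Finset.mem_filter]
        exact ⟨hmem, h1, rfl, h⟩
      · right
        rw [Finset.mem_filter]
        exact ⟨hmem, h1, rfl, h⟩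
  have hcard : (((Finset.Icc j0 J).biUnion (fun j => S 1 j ∪ S (-1) j)).card : ℝ) ≤
      (J + 1) * (2 * (K * (J : ℝ) ^ (10 * w))) := by
    have h1 : ((Finset.Icc j0 J).biUnion (fun j => S 1 j ∪ S (-1) j)).card ≤
        ∑ j ∈ Finset.Icc j0 J, ((S 1 j).card + (S (-1) j).card) :=
      Finset.card_biUnion_le.trans (Finset.sum_le_sum fun j _ => Finset.card_union_le _ _)
    have h2 : ((∑ j ∈ Finset.Icc j0 J, ((S 1 j).card + (S (-1) j).card) : ℕ) : ℝ) ≤
        ∑ j ∈ Finset.Icc j0 J, (2 * (K * (J : ℝ) ^ (10 * w))) := by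
      push_cast
      apply Finset.sum_le_sum
      intro j hj
      rw [Finset.mem_Icc] at hj
      have hjJ : (K : ℝ) * (j : ℝ) ^ (10 * w) ≤ K * (J : ℝ) ^ (10 * w) := by
        apply mul_le_mul_of_nonneg_left _ (Nat.cast_nonneg _)
        apply pow_le_pow_left₀ (Nat.cast_nonneg _)
        exact_mod_cast hj.2
      have a1 := hK j hj.1 1 (Or.inl rfl) (S 1 j) (fun d hd => (Finset.mem_filter.mp hd).2)
      have a2 := hK j hj.1 (-1) (Or.inr rfl) (S (-1) j) (fun d hd => (Finset.mem_filter.mp hd).2)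
      linarith
    rw [Finset.sum_const, nsmul_eq_mul, Nat.card_Icc] at h2
    have h3 : ((J + 1 - j0 : ℕ) : ℝ) ≤ J + 1 := by
      have : J + 1 - j0 ≤ J + 1 := Nat.sub_le _ _
      exact_mod_cast this
    calc (((Finset.Icc j0 J).biUnion (fun j => S 1 j ∪ S (-1) j)).card : ℝ) ≤ _ := by
          exact_mod_cast h1
      _ ≤ _ := h2
      _ ≤ _ := mul_le_mul_of_nonneg_right h3 (by positivity)
  have hnc : ((Exc w j0 ∩ {d | d.natAbs ≤ X}).ncard : ℝ) ≤
      (((Finset.Icc j0 J).biUnion (fun j => S 1 j ∪ S (-1) j)).card : ℝ) := by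
    have := Set.ncard_le_ncard hsub (Finset.finite_toSet _)
    rw [Set.ncard_coe_finset] at this
    exact_mod_cast this
  have hXr : (1 : ℝ) ≤ X := by exact_mod_cast hX
  have hlogX : 0 ≤ Real.log X := Real.log_nonneg hXr
  have hJlog : (J : ℝ) + 1 ≤ 2 * (1 + Real.log X) := by
    have h1 : 2 ^ J ≤ X := Nat.pow_log_le_self 2 (by omega)
    have h2 : ((2 : ℝ)) ^ J ≤ X := by exact_mod_cast h1
    have h3 := Real.log_le_log (by positivity) h2
    rw [Real.log_pow] at h3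
    have := Real.log_two_gt_d9
    have hJ0 : (0 : ℝ) ≤ J := Nat.cast_nonneg _
    nlinarith
  calc ((Exc w j0 ∩ {d | d.natAbs ≤ X}).ncard : ℝ) ≤ (J + 1) * (2 * (K * (J : ℝ) ^ (10 * w))) :=
        hnc.trans hcard
    _ ≤ (J + 1) * (2 * (K * ((J : ℝ) + 1) ^ (10 * w))) := by
        have : (J : ℝ) ^ (10 * w) ≤ ((J : ℝ) + 1) ^ (10 * w) :=
          pow_le_pow_left₀ (Nat.cast_nonneg _) (by linarith) _
        have hK0 : (0 : ℝ) ≤ K := Nat.cast_nonneg _
        gcongr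
    _ = 2 * K * ((J : ℝ) + 1) ^ (10 * w + 1) := by ring
    _ ≤ 2 * K * (2 * (1 + Real.log X)) ^ (10 * w + 1) := by
        apply mul_le_mul_of_nonneg_left _ (by positivity)
        exact pow_le_pow_left₀ (by positivity) hJlog _
    _ = _ := by rw [mul_pow]; ring

/-- outside the exceptional set both signs occur -/
lemma good_primes {w j0 : ℕ} {d : ℤ} (hd : Squarefree d) (hE : d ∉ Exc w j0)
    (hj : j0 ≤ scl w d) (ε : ℝ) (hε : ε = 1 ∨ ε = -1) :
    ((PPr (2 ^ scl w d)).card : ℝ) / 4 ≤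
      (((PPr (2 ^ scl w d)).filter (fun q => jchi d q ≠ ε)).card : ℝ) := by
  set P := PPr (2 ^ scl w d) with hP
  have hnb : ¬ Biased ε (2 ^ scl w d) d := by
    intro hb
    apply hE
    refine ⟨hd, hj, ?_⟩
    rcases hε with h | h
    · left; rw [← h]; exact hb
    · right; rw [← h]; exact hb
  unfold Biased at hnb
  rw [← hP] at hnb
  push Not at hnb
  have h1 : ∑ q ∈ P, (1 - ε * jchi d q) ≤ ∑ q ∈ P, (if jchi d q ≠ ε then (2 : ℝ) else 0) := by
    apply Finset.sum_le_sum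
    intro q _
    split_ifs with h
    · rcases hε with rfl | rfl <;> rcases jchi_val d q with h' | h' | h' <;> rw [h'] <;> norm_num
    · push Not at h
      rw [h]
      rcases hε with rfl | rfl <;> norm_num
  rw [Finset.sum_sub_distrib, ← Finset.mul_sum, Finset.sum_const, nsmul_eq_mul, mul_one,
    ← Finset.sum_filter, Finset.sum_const, nsmul_eq_mul] at h1
  linarith

end Pool.Agent.Lib.MP_695920_nt
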