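import Mathlib

set_option autoImplicit false

open Finset

namespace Pool.Agent.Lib.MP_695920_nt

/-- the completely multiplicative function `n ↦ n ^ (-ε)` -/
noncomputable def rpf (ε : ℝ) : ℕ →* ℝ where
  toFun n := (n : ℝ) ^ (-ε)
  map_one' := by
    rw [Nat.cast_one, Real.one_rpow]
  map_mul' m n := by
    rw [Nat.cast_mul, Real.mul_rpow (Nat.cast_nonneg m) (Nat.cast_nonneg n)]

lemma rpf_apply (ε : ℝ) (n : ℕ) : rpf ε n = (n : ℝ) ^ (-ε) := rfl

/-- Rankin's bound for the number of integers all of whose prime factors divide `D` -/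
lemma card_factored_le {D : ℕ} (hD : D ≠ 0) (ε : ℝ) (hε : 0 < ε) (x : ℝ) (hx : 0 ≤ x)
    (F : Finset ℕ) (hF : ∀ r ∈ F, r ≠ 0 ∧ (r : ℝ) ≤ x ∧ ∀ p : ℕ, p.Prime → p ∣ r → p ∣ D) :
    (F.card : ℝ) ≤ x ^ ε * ((1 - (2 : ℝ) ^ (-ε))⁻¹) ^ D.primeFactors.card := by
  classical
  have hlt : ∀ {p : ℕ}, p.Prime → ‖rpf ε p‖ < 1 := by
    intro p hp
    rw [rpf_apply, Real.norm_of_nonneg (Real.rpow_nonneg (Nat.cast_nonneg p) _)]
    apply Real.rpow_lt_one_of_one_lt_of_neg
    · exact_mod_cast hp.one_lt
    · linarith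
  obtain ⟨hsum, hhas⟩ :=
    EulerProduct.summable_and_hasSum_factoredNumbers_prod_filter_prime_geometric
      (f := rpf ε) hlt D.primeFactors
  have hmem : ∀ r ∈ F, r ∈ Nat.factoredNumbers D.primeFactors := by
    intro r hr
    obtain ⟨h1, _, h3⟩ := hF r hr
    rw [Nat.mem_factoredNumbers]
    refine ⟨h1, ?_⟩
    intro p hp
    have hpp := Nat.prime_of_mem_primeFactorsList hp
    have hpr := Nat.dvd_of_mem_primeFactorsList hp
    rw [Nat.mem_primeFactors]
    exact ⟨hpp, h3 p hpp hpr, hD⟩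
  have hterm : ∀ r ∈ F, (1 : ℝ) ≤ x ^ ε * (r : ℝ) ^ (-ε) := by
    intro r hr
    obtain ⟨h1, h2, _⟩ := hF r hr
    have hr0 : (0 : ℝ) < r := by exact_mod_cast Nat.pos_of_ne_zero h1
    rw [Real.rpow_neg hr0.le, ← div_eq_mul_inv, le_div_iff₀ (by positivity), one_mul]
    exact Real.rpow_le_rpow hr0.le h2 hε.le
  have hx0 : 0 ≤ x ^ ε := by positivity
  have h2e : (2 : ℝ) ^ (-ε) < 1 := Real.rpow_lt_one_of_one_lt_of_neg (by norm_num) (by linarith)
  have h2e' : 0 < 1 - (2 : ℝ) ^ (-ε) := by linarith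
  calc (F.card : ℝ) = ∑ r ∈ F, (1 : ℝ) := by simp
    _ ≤ ∑ r ∈ F, x ^ ε * (r : ℝ) ^ (-ε) := Finset.sum_le_sum hterm
    _ = x ^ ε * ∑ r ∈ F, (r : ℝ) ^ (-ε) := by rw [Finset.mul_sum]
    _ ≤ x ^ ε * ∏ p ∈ D.primeFactors with p.Prime, (1 - rpf ε p)⁻¹ := by
        apply mul_le_mul_of_nonneg_left _ hx0
        rw [← hhas.tsum_eq]
        have h1 : ∑ r ∈ F, (r : ℝ) ^ (-ε) =
            ∑ r ∈ F.attach.image (fun r => (⟨r.1, hmem r.1 r.2⟩ : Nat.factoredNumbers D.primeFactors)),
              rpf ε r := by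
          rw [Finset.sum_image (by
            intro a _ b _ h
            simp only [Subtype.mk.injEq] at h
            exact Subtype.ext h), ← Finset.sum_attach]
          rfl
        rw [h1]
        apply hhas.summable.sum_le_tsum
        intro r _
        rw [rpf_apply]
        positivity
    _ ≤ _ := by
        apply mul_le_mul_of_nonneg_left _ hx0
        have h1 : ∏ p ∈ D.primeFactors with p.Prime, (1 - rpf ε p)⁻¹ ≤
            ∏ p ∈ D.primeFactors with p.Prime, (1 - (2 : ℝ) ^ (-ε))⁻¹ := by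
          apply Finset.prod_le_prod
          · intro p hp
            rw [mem_filter] at hp
            have h3 := hlt hp.2
            rw [Real.norm_of_nonneg (by rw [rpf_apply]; positivity)] at h3
            have : 0 < 1 - rpf ε p := by linarith
            positivity
          · intro p hp
            rw [mem_filter] at hp
            apply inv_anti₀ h2e'
            rw [rpf_apply]
            have h3 : (p : ℝ) ^ (-ε) ≤ (2 : ℝ) ^ (-ε) := by
              apply Real.rpow_le_rpow_of_nonpos (by norm_num) _ (by linarith)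
              exact_mod_cast hp.2.two_le
            linarith
        refine h1.trans (le_of_eq ?_)
        rw [Finset.prod_const]
        congr 2
        ext p
        simp only [mem_filter, Nat.mem_primeFactors]
        tauto

/-- the number of prime factors is small -/
lemma pow_omega_le (K : ℝ) (hK : 1 ≤ K) (η : ℝ) (hη : 0 < η) : ∃ C : ℝ, 0 < C ∧ ∀ D : ℕ, D ≠ 0 →
    K ^ D.primeFactors.card ≤ C * (D : ℝ) ^ η := by
  classical
  have hK0 : 0 < K := by linarith
  -- a threshold `B` with `K ≤ B ^ η`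
  obtain ⟨B, hB1, hB⟩ : ∃ B : ℕ, 1 ≤ B ∧ K ≤ (B : ℝ) ^ η := by
    refine ⟨⌈K ^ (1 / η)⌉₊ + 1, by omega, ?_⟩
    have h1 : K ^ (1 / η) ≤ ((⌈K ^ (1 / η)⌉₊ + 1 : ℕ) : ℝ) := by
      push_cast
      have := Nat.le_ceil (K ^ (1 / η))
      linarith
    calc K = (K ^ (1 / η)) ^ η := by
          rw [← Real.rpow_mul hK0.le, one_div_mul_cancel hη.ne', Real.rpow_one]
      _ ≤ _ := Real.rpow_le_rpow (by positivity) h1 hη.le
  refine ⟨K ^ B, by positivity, ?_⟩
  intro D hD
  have hsplit : D.primeFactors.card = (D.primeFactors.filter (fun p => p < B)).card +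
      (D.primeFactors.filter (fun p => ¬ p < B)).card :=
    (Finset.card_filter_add_card_filter_not (fun p => p < B)).symm
  have h1 : (D.primeFactors.filter (fun p => p < B)).card ≤ B := by
    have : D.primeFactors.filter (fun p => p < B) ⊆ range B := by
      intro p hp
      rw [mem_filter] at hp
      exact mem_range.mpr hp.2
    simpa using Finset.card_le_card this
  have h2 : K ^ (D.primeFactors.filter (fun p => ¬ p < B)).card ≤ (D : ℝ) ^ η := by
    calc K ^ (D.primeFactors.filter (fun p => ¬ p < B)).card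
        = ∏ p ∈ D.primeFactors.filter (fun p => ¬ p < B), K := by rw [Finset.prod_const]
      _ ≤ ∏ p ∈ D.primeFactors.filter (fun p => ¬ p < B), (p : ℝ) ^ η := by
          apply Finset.prod_le_prod (fun _ _ => hK0.le)
          intro p hp
          rw [mem_filter] at hp
          refine hB.trans (Real.rpow_le_rpow (Nat.cast_nonneg _) ?_ hη.le)
          have : B ≤ p := by omega
          exact_mod_cast this
      _ = ((∏ p ∈ D.primeFactors.filter (fun p => ¬ p < B), p : ℕ) : ℝ) ^ η := by
          push_cast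
          rw [Real.finsetProd_rpow _ _ (fun i _ => Nat.cast_nonneg i)]
      _ ≤ (D : ℝ) ^ η := by
          apply Real.rpow_le_rpow (Nat.cast_nonneg _) _ hη.le
          have h3 : ∏ p ∈ D.primeFactors.filter (fun p => ¬ p < B), p ≤ D := by
            apply Nat.le_of_dvd (Nat.pos_of_ne_zero hD)
            refine dvd_trans ?_ (Nat.prod_primeFactors_dvd D)
            exact Finset.prod_dvd_prod_of_subset _ _ _ (Finset.filter_subset _ _)
          exact_mod_cast h3
  rw [hsplit, pow_add]
  exact mul_le_mul (pow_le_pow_right₀ hK h1) h2 (by positivity) (by positivity)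

end Pool.Agent.Lib.MP_695920_nt
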