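import Mathlib
import Pool.Agent.Lib.MP_695920_nt.Fields

set_option autoImplicit false

open Finset NumberField Module IsDedekindDomain
open scoped nonZeroDivisors

namespace Pool.Agent.Lib.MP_695920_nt

section field

variable {F k : Type*} [Field F] [Field k] [Finite k] [Algebra F k]

lemma mem_range_of_pow {x : k} (hx : x ^ Nat.card F = x) : x ∈ Set.range (algebraMap F k) := by
  classical
  have : Finite F := Finite.of_injective _ (FaithfulSMul.algebraMap_injective F k)
  let _ : Fintype F := Fintype.ofFinite F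
  let _ : Fintype k := Fintype.ofFinite k
  have hq : 1 < Nat.card F := Finite.one_lt_card
  have hne := FiniteField.X_pow_card_sub_X_ne_zero k hq
  set f : Polynomial k := Polynomial.X ^ Nat.card F - Polynomial.X with hf
  have h1 : (Finset.univ.image (algebraMap F k)) ⊆ f.roots.toFinset := by
    intro y hy
    rw [mem_image] at hy
    obtain ⟨a, _, rfl⟩ := hy
    rw [Multiset.mem_toFinset, Polynomial.mem_roots hne, hf]
    simp only [Polynomial.IsRoot.def, Polynomial.eval_sub, Polynomial.eval_pow, Polynomial.eval_X]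
    rw [← map_pow, Nat.card_eq_fintype_card, FiniteField.pow_card, sub_self]
  have h2 : (Finset.univ.image (algebraMap F k)).card = Nat.card F := by
    rw [Finset.card_image_of_injective _ (FaithfulSMul.algebraMap_injective F k),
      Nat.card_eq_fintype_card, Finset.card_univ]
  have h3 : f.roots.toFinset.card ≤ Nat.card F := by
    refine (Multiset.toFinset_card_le _).trans ((Polynomial.card_roots' f).trans ?_)
    rw [hf, FiniteField.X_pow_card_sub_X_natDegree_eq k hq]
  have h4 := Finset.eq_of_subset_of_card_le h1 (by rw [h2]; exact h3)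
  have h5 : x ∈ f.roots.toFinset := by
    rw [Multiset.mem_toFinset, Polynomial.mem_roots hne, hf]
    simp only [Polynomial.IsRoot.def, Polynomial.eval_sub, Polynomial.eval_pow, Polynomial.eval_X]
    rw [hx, sub_self]
  rw [← h4, mem_image] at h5
  obtain ⟨a, _, ha⟩ := h5
  exact ⟨a, ha⟩

/-- the Frobenius conjugates of a family, as a matrix -/
noncomputable def frobMat {n : ℕ} (q : ℕ) (b : Fin n → k) : Matrix (Fin n) (Fin n) k :=
  Matrix.of fun t i => b i ^ (q ^ (t : ℕ))

lemma frobMat_sq {n : ℕ} (hn : finrank F k = n) (b : Fin n → k) :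
    algebraMap F k ((Matrix.of fun i j => Algebra.trace F k (b i * b j) :
      Matrix (Fin n) (Fin n) F).det) = (frobMat (Nat.card F) b).det ^ 2 := by
  have h1 : (algebraMap F k).mapMatrix (Matrix.of fun i j => Algebra.trace F k (b i * b j) :
      Matrix (Fin n) (Fin n) F) = (frobMat (Nat.card F) b).transpose * frobMat (Nat.card F) b := by
    ext i j
    rw [RingHom.mapMatrix_apply, Matrix.map_apply, Matrix.of_apply, Matrix.mul_apply,
      FiniteField.algebraMap_trace_eq_sum_pow, hn, Finset.sum_range]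
    apply Finset.sum_congr rfl
    intro t _
    rw [Matrix.transpose_apply, frobMat, Matrix.of_apply, Matrix.of_apply, mul_pow]
  rw [RingHom.map_det, h1, Matrix.det_mul, Matrix.det_transpose, sq]

lemma frobMat_frob {n : ℕ} (hn : finrank F k = n) (b : Fin n → k) :
    (frobMat (Nat.card F) b).det ^ Nat.card F = (-1) ^ (n - 1) * (frobMat (Nat.card F) b).det := by
  classical
  have : Finite F := Finite.of_injective _ (FaithfulSMul.algebraMap_injective F k)
  let _ : Fintype F := Fintype.ofFinite F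
  let _ : Fintype k := Fintype.ofFinite k
  have hcard : Nat.card k = Nat.card F ^ n := by
    rw [← hn]
    exact Module.natCard_eq_pow_finrank
  have h0 : (frobMat (Nat.card F) b).det ^ Nat.card F =
      FiniteField.frobeniusAlgHom F k (frobMat (Nat.card F) b).det := by
    rw [FiniteField.frobeniusAlgHom_apply, Nat.card_eq_fintype_card]
  have h1 : (FiniteField.frobeniusAlgHom F k).mapMatrix (frobMat (Nat.card F) b) =
      (frobMat (Nat.card F) b).submatrix (finRotate n) id := by
    ext t i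
    rw [AlgHom.mapMatrix_apply, Matrix.map_apply, Matrix.submatrix_apply,
      FiniteField.frobeniusAlgHom_apply, id]
    unfold frobMat
    rw [Matrix.of_apply, Matrix.of_apply, ← pow_mul, ← Nat.card_eq_fintype_card, ← pow_succ]
    cases n with
    | zero => exact t.elim0
    | succ m =>
      rw [coe_finRotate]
      split_ifs with h
      · rw [h, Fin.val_last, ← hcard, Nat.card_eq_fintype_card, FiniteField.pow_card, pow_zero,
          pow_one]
      · rfl
  rw [h0, AlgHom.map_det, h1, Matrix.det_permute, sign_finRotate]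
  push_cast
  ring

theorem isSquare_of_odd {n : ℕ} (hn : finrank F k = n) (hodd : Odd n) (b : Fin n → k) (Δ : F)
    (hΔ : Δ = (Matrix.of fun i j => Algebra.trace F k (b i * b j) :
      Matrix (Fin n) (Fin n) F).det) : IsSquare Δ := by
  have h1 := frobMat_sq hn b
  have h2 := frobMat_frob hn b
  rw [← hΔ] at h1
  have h3 : Even (n - 1) := by
    obtain ⟨m, hm⟩ := hodd
    exact ⟨m, by omega⟩
  rw [h3.neg_one_pow, one_mul] at h2
  obtain ⟨c, hc⟩ := mem_range_of_pow (F := F) h2
  refine ⟨c, ?_⟩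
  apply FaithfulSMul.algebraMap_injective F k
  rw [map_mul, hc, h1, sq]

theorem not_isSquare_of_even {n : ℕ} (hn : finrank F k = n) (heven : Even n) (h2F : (2 : F) ≠ 0)
    (b : Fin n → k) (Δ : F) (hΔ0 : Δ ≠ 0)
    (hΔ : Δ = (Matrix.of fun i j => Algebra.trace F k (b i * b j) :
      Matrix (Fin n) (Fin n) F).det) : ¬ IsSquare Δ := by
  rintro ⟨c, hc⟩
  have hfinF : Finite F := Finite.of_injective _ (FaithfulSMul.algebraMap_injective F k)
  let _ : Fintype F := Fintype.ofFinite F
  have h1 := frobMat_sq hn b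
  have h2 := frobMat_frob hn b
  rw [← hΔ] at h1
  have hn0 : 0 < n := by
    rw [← hn]
    exact finrank_pos
  have h3 : Odd (n - 1) := by
    obtain ⟨m, hm⟩ := heven
    exact ⟨m - 1, by omega⟩
  rw [h3.neg_one_pow] at h2
  have hinj := FaithfulSMul.algebraMap_injective F k
  have h4 : algebraMap F k c ^ 2 = (frobMat (Nat.card F) b).det ^ 2 := by
    rw [← h1, hc, map_mul, sq]
  have h5 : (frobMat (Nat.card F) b).det ^ Nat.card F = (frobMat (Nat.card F) b).det := by
    have hc' : ∀ z : F, (algebraMap F k z) ^ Nat.card F = algebraMap F k z := by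
      intro z
      rw [← map_pow, Nat.card_eq_fintype_card, FiniteField.pow_card]
    rcases sq_eq_sq_iff_eq_or_eq_neg.mp h4 with h | h
    · rw [← h]; exact hc' c
    · have h6 : (frobMat (Nat.card F) b).det = algebraMap F k (-c) := by
        rw [map_neg, h, neg_neg]
      rw [h6]; exact hc' (-c)
  rw [h5] at h2
  have h7 : (2 : k) * (frobMat (Nat.card F) b).det = 0 := by linear_combination h2
  have h8 : (2 : k) ≠ 0 := by
    intro h
    apply h2F
    apply hinj
    rw [map_zero, map_ofNat]
    exact h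
  have h9 : (frobMat (Nat.card F) b).det = 0 := (mul_eq_zero.mp h7).resolve_left h8
  apply hΔ0
  apply hinj
  rw [h1, h9, map_zero]
  norm_num

end field

/-- Stickelberger's parity theorem for inert primes -/
theorem parity {K : Type*} [Field K] [NumberField K] {p : ℕ} (hp : p.Prime) (hp2 : p ≠ 2)
    (hP : (Ideal.span {(p : 𝓞 K)}).IsPrime) (hunr : ¬ p ∣ (discr K).natAbs) :
    (Odd (finrank ℚ K) → IsSquare ((discr K : ℤ) : ZMod p)) ∧
      (Even (finrank ℚ K) → ¬ IsSquare ((discr K : ℤ) : ZMod p)) := by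
  classical
  have hmax := span_int_isMaximal hp
  set n := finrank ℚ K with hn
  have hmap : Ideal.map (algebraMap ℤ (𝓞 K)) (Ideal.span {(p : ℤ)}) = Ideal.span {(p : 𝓞 K)} := by
    rw [Ideal.map_span, Set.image_singleton]
    simp
  have hPmap : (Ideal.map (algebraMap ℤ (𝓞 K)) (Ideal.span {(p : ℤ)})).IsPrime := by
    rw [hmap]; exact hP
  have hne : Ideal.map (algebraMap ℤ (𝓞 K)) (Ideal.span {(p : ℤ)}) ≠ ⊥ := by
    rw [hmap, Ne, Ideal.span_singleton_eq_bot]
    exact_mod_cast hp.ne_zero
  have hPmax : (Ideal.map (algebraMap ℤ (𝓞 K)) (Ideal.span {(p : ℤ)})).IsMaximal :=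
    hPmap.isMaximal hne
  let _ : Field (ℤ ⧸ Ideal.span {(p : ℤ)}) := Ideal.Quotient.field _
  let _ : Field (𝓞 K ⧸ Ideal.map (algebraMap ℤ (𝓞 K)) (Ideal.span {(p : ℤ)})) :=
    Ideal.Quotient.field _
  have hfin : Finite (𝓞 K ⧸ Ideal.map (algebraMap ℤ (𝓞 K)) (Ideal.span {(p : ℤ)})) :=
    Ring.HasFiniteQuotients.finiteQuotient hne
  -- cardinalities
  have hcF : Nat.card (ℤ ⧸ Ideal.span {(p : ℤ)}) = p := by
    rw [Nat.card_congr (Int.quotientSpanNatEquivZMod p).toEquiv, Nat.card_zmod]
  have hck : Nat.card (𝓞 K ⧸ Ideal.map (algebraMap ℤ (𝓞 K)) (Ideal.span {(p : ℤ)})) = p ^ n := by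
    have h1 := Ideal.absNorm_span_natCast (S := 𝓞 K) p
    rw [RingOfIntegers.rank, ← hmap, Ideal.absNorm_apply] at h1
    rw [← h1]
    rfl
  have hfr : finrank (ℤ ⧸ Ideal.span {(p : ℤ)})
      (𝓞 K ⧸ Ideal.map (algebraMap ℤ (𝓞 K)) (Ideal.span {(p : ℤ)})) = n := by
    have h1 := Module.natCard_eq_pow_finrank (K := ℤ ⧸ Ideal.span {(p : ℤ)})
      (V := 𝓞 K ⧸ Ideal.map (algebraMap ℤ (𝓞 K)) (Ideal.span {(p : ℤ)}))
    rw [hcF, hck] at h1
    exact (Nat.pow_right_injective hp.two_le h1).symm
  -- the basis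
  obtain ⟨bas⟩ : Nonempty (Basis (Fin n) ℤ (𝓞 K)) := by
    refine ⟨(RingOfIntegers.basis K).reindex (Fintype.equivFinOfCardEq ?_)⟩
    rw [← Module.finrank_eq_card_basis (RingOfIntegers.basis K), RingOfIntegers.rank]
  let b : Fin n → 𝓞 K ⧸ Ideal.map (algebraMap ℤ (𝓞 K)) (Ideal.span {(p : ℤ)}) := fun i =>
    Ideal.Quotient.mk _ (bas i)
  have hdisc : Ideal.Quotient.mk (Ideal.span {(p : ℤ)}) (discr K) =
      (Matrix.of fun i j => Algebra.trace (ℤ ⧸ Ideal.span {(p : ℤ)})
        (𝓞 K ⧸ Ideal.map (algebraMap ℤ (𝓞 K)) (Ideal.span {(p : ℤ)})) (b i * b j) :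
        Matrix (Fin n) (Fin n) (ℤ ⧸ Ideal.span {(p : ℤ)})).det := by
    rw [← discr_eq_discr K bas, Algebra.discr_def, RingHom.map_det]
    congr 1
    ext i j
    rw [RingHom.mapMatrix_apply, Matrix.map_apply, Matrix.of_apply, Algebra.traceMatrix_apply,
      Algebra.traceForm_apply, ← Algebra.intTrace_eq_trace,
      ← Algebra.trace_quotient_eq_of_isDedekindDomain, map_mul]
  have hsq : IsSquare (Ideal.Quotient.mk (Ideal.span {(p : ℤ)}) (discr K)) ↔
      IsSquare ((discr K : ℤ) : ZMod p) := by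
    have h1 : (Int.quotientSpanNatEquivZMod p) (Ideal.Quotient.mk (Ideal.span {(p : ℤ)}) (discr K)) =
      ((discr K : ℤ) : ZMod p) := rfl
    constructor
    · rintro ⟨c, hc⟩
      exact ⟨Int.quotientSpanNatEquivZMod p c, by rw [← h1, hc, map_mul]⟩
    · rintro ⟨c, hc⟩
      refine ⟨(Int.quotientSpanNatEquivZMod p).symm c, ?_⟩
      apply (Int.quotientSpanNatEquivZMod p).injective
      rw [h1, hc, map_mul, RingEquiv.apply_symm_apply]
  rw [← hsq]
  constructor
  · intro hodd
    exact isSquare_of_odd hfr hodd b _ hdisc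
  · intro heven
    refine not_isSquare_of_even hfr heven ?_ b _ ?_ hdisc
    · intro h
      have h1 : Ideal.Quotient.mk (Ideal.span {(p : ℤ)}) 2 = 0 := by
        rw [map_ofNat]; exact h
      rw [Ideal.Quotient.eq_zero_iff_mem, Ideal.mem_span_singleton] at h1
      have h2 : p ∣ 2 := by exact_mod_cast h1
      exact hp2 ((Nat.prime_dvd_prime_iff_eq hp Nat.prime_two).mp h2)
    · intro h
      rw [Ideal.Quotient.eq_zero_iff_mem, Ideal.mem_span_singleton] at h
      exact hunr (Int.natCast_dvd.mp h)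

end Pool.Agent.Lib.MP_695920_nt
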