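import Mathlib
import Pool.Agent.Lib.MP_695920_nt.NonSplit

set_option autoImplicit false

open Finset Module

namespace Pool.Agent.Lib.MP_695920_nt

/-- nonzero integer vectors in a rectangular box -/
noncomputable def box2 (A B : ℕ) : Finset (ℤ × ℤ) :=
  ((Icc (-(A : ℤ)) A) ×ˢ (Icc (-(B : ℤ)) B)).erase (0, 0)

lemma mem_box2 {A B : ℕ} {v : ℤ × ℤ} : v ∈ box2 A B ↔
    v ≠ (0, 0) ∧ (-(A : ℤ) ≤ v.1 ∧ v.1 ≤ A) ∧ (-(B : ℤ) ≤ v.2 ∧ v.2 ≤ B) := by
  simp [box2]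

lemma card_box2_le (A B : ℕ) : ((box2 A B).card : ℝ) ≤ (2 * A + 1) * (2 * B + 1) := by
  have h1 : (box2 A B).card ≤ (2 * A + 1) * (2 * B + 1) := by
    refine (Finset.card_erase_le).trans (le_of_eq ?_)
    rw [Finset.card_product, Int.card_Icc, Int.card_Icc]
    have : ((A : ℤ) + 1 - -(A : ℤ)).toNat = 2 * A + 1 := by omega
    have h2 : ((B : ℤ) + 1 - -(B : ℤ)).toNat = 2 * B + 1 := by omega
    rw [this, h2]
  exact_mod_cast h1

lemma cnt_small2 {p : ℕ} (hp : 0 < p) (Y B : ℕ) (ρ : ℤ) :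
    (2 * B + 1 : ℝ) * ((2 * Y + 1) / p - 1) - 1 ≤
      ((box2 Y B).filter (fun v => (p : ℤ) ∣ v.1 + v.2 * ρ)).card := by
  have hp0 : (0 : ℝ) < p := by exact_mod_cast hp
  have h1 : ∀ c : ℤ, ((2 * Y + 1 : ℝ) / p - 1) ≤
      ((Icc (-(Y : ℤ)) Y).filter (fun a => (p : ℤ) ∣ a + c)).card := by
    intro c
    have h2 := Int.Ioc_filter_modEq_card (-(Y : ℤ) - 1) Y (r := (p : ℤ)) (by exact_mod_cast hp) (-c)
    have h3 : (Ioc (-(Y : ℤ) - 1) Y).filter (fun x => x ≡ -c [ZMOD (p : ℤ)]) =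
        (Icc (-(Y : ℤ)) Y).filter (fun a => (p : ℤ) ∣ a + c) := by
      ext x
      simp only [mem_filter, mem_Ioc, mem_Icc]
      have h4 : (x ≡ -c [ZMOD (p : ℤ)]) ↔ (p : ℤ) ∣ x + c := by
        rw [Int.modEq_comm, Int.modEq_iff_dvd, sub_neg_eq_add]
      rw [h4]
      constructor
      · rintro ⟨⟨h5, h6⟩, h7⟩; exact ⟨⟨by omega, h6⟩, h7⟩
      · rintro ⟨⟨h5, h6⟩, h7⟩; exact ⟨⟨by omega, h6⟩, h7⟩
    rw [h3] at h2
    have h5 : (⌊(((Y : ℤ) - -c : ℤ) : ℚ) / ((p : ℤ) : ℚ)⌋ -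
        ⌊(((-(Y : ℤ) - 1 : ℤ) - -c : ℤ) : ℚ) / ((p : ℤ) : ℚ)⌋ : ℤ) ≤
        (((Icc (-(Y : ℤ)) Y).filter (fun a => (p : ℤ) ∣ a + c)).card : ℤ) := by
      rw [h2]
      push_cast
      exact le_max_left _ _
    have h6 := Int.lt_floor_add_one ((((Y : ℤ) - -c : ℤ) : ℚ) / ((p : ℤ) : ℚ))
    have h7 := Int.floor_le ((((-(Y : ℤ) - 1 : ℤ) - -c : ℤ) : ℚ) / ((p : ℤ) : ℚ))
    have hpQ : (0 : ℚ) < ((p : ℤ) : ℚ) := by exact_mod_cast hp
    have h8 : ((2 * Y + 1 : ℚ) / p - 1) ≤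
        ((((Icc (-(Y : ℤ)) Y).filter (fun a => (p : ℤ) ∣ a + c)).card : ℤ) : ℚ) := by
      have h9 : ((⌊(((Y : ℤ) - -c : ℤ) : ℚ) / ((p : ℤ) : ℚ)⌋ -
        ⌊(((-(Y : ℤ) - 1 : ℤ) - -c : ℤ) : ℚ) / ((p : ℤ) : ℚ)⌋ : ℤ) : ℚ) ≤
        ((((Icc (-(Y : ℤ)) Y).filter (fun a => (p : ℤ) ∣ a + c)).card : ℤ) : ℚ) := by
        exact_mod_cast h5
      refine le_trans ?_ h9
      have h10 : (((Y : ℤ) - -c : ℤ) : ℚ) / ((p : ℤ) : ℚ) -
          (((-(Y : ℤ) - 1 : ℤ) - -c : ℤ) : ℚ) / ((p : ℤ) : ℚ) = (2 * Y + 1 : ℚ) / p := by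
        push_cast
        rw [← sub_div]
        congr 1
        ring
      push_cast at h6 h7 h10 ⊢
      linarith
    have h11 : (((2 * Y + 1 : ℚ) / p - 1 : ℚ) : ℝ) ≤
        (((((Icc (-(Y : ℤ)) Y).filter (fun a => (p : ℤ) ∣ a + c)).card : ℤ) : ℚ) : ℝ) := by
      exact_mod_cast h8
    push_cast at h11
    exact h11
  have h2 : (2 * B + 1 : ℝ) * ((2 * Y + 1) / p - 1) ≤
      (((Icc (-(Y : ℤ)) Y) ×ˢ (Icc (-(B : ℤ)) B)).filter
        (fun v => (p : ℤ) ∣ v.1 + v.2 * ρ)).card := by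
    have h3 : (((Icc (-(Y : ℤ)) Y) ×ˢ (Icc (-(B : ℤ)) B)).filter
        (fun v => (p : ℤ) ∣ v.1 + v.2 * ρ)).card =
        ∑ b ∈ Icc (-(B : ℤ)) B, ((Icc (-(Y : ℤ)) Y).filter (fun a => (p : ℤ) ∣ a + b * ρ)).card := by
      rw [Finset.card_filter, Finset.sum_product_right]
      apply Finset.sum_congr rfl
      intro b _
      rw [Finset.card_filter]
    rw [h3]
    push_cast
    calc (2 * B + 1 : ℝ) * ((2 * Y + 1) / p - 1)
        = ∑ b ∈ Icc (-(B : ℤ)) B, ((2 * Y + 1 : ℝ) / p - 1) := by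
          rw [Finset.sum_const, Int.card_Icc, nsmul_eq_mul]
          have : ((B : ℤ) + 1 - -(B : ℤ)).toNat = 2 * B + 1 := by omega
          rw [this]
          push_cast
          ring
      _ ≤ _ := Finset.sum_le_sum fun b _ => h1 (b * ρ)
  have h3 : (((Icc (-(Y : ℤ)) Y) ×ˢ (Icc (-(B : ℤ)) B)).filter
      (fun v => (p : ℤ) ∣ v.1 + v.2 * ρ)).card ≤
      ((box2 Y B).filter (fun v => (p : ℤ) ∣ v.1 + v.2 * ρ)).card + 1 := by
    rw [box2, Finset.filter_erase]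
    have := Finset.pred_card_le_card_erase (s := (((Icc (-(Y : ℤ)) Y) ×ˢ (Icc (-(B : ℤ)) B)).filter
      (fun v => (p : ℤ) ∣ v.1 + v.2 * ρ))) (a := (0, 0))
    omega
  have h4 : ((((Icc (-(Y : ℤ)) Y) ×ˢ (Icc (-(B : ℤ)) B)).filter
      (fun v => (p : ℤ) ∣ v.1 + v.2 * ρ)).card : ℝ) ≤
      ((box2 Y B).filter (fun v => (p : ℤ) ∣ v.1 + v.2 * ρ)).card + 1 := by exact_mod_cast h3
  linarith

lemma cnt_large2 {p : ℕ} (hp : 0 < p) (Y B : ℕ) (ρ : ℤ) :
    ((Y : ℝ) + 1) * (B + 1) / p - 1 ≤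
      ((box2 Y B).filter (fun v => (p : ℤ) ∣ v.1 + v.2 * ρ)).card := by
  classical
  have hp0 : (0 : ℝ) < p := by exact_mod_cast hp
  have : NeZero p := ⟨hp.ne'⟩
  let S : Finset (ℤ × ℤ) := (Icc (0 : ℤ) Y) ×ˢ (Icc (0 : ℤ) B)
  let f : ℤ × ℤ → ZMod p := fun v => ((v.1 + v.2 * ρ : ℤ) : ZMod p)
  have hScard : (S.card : ℝ) = ((Y : ℝ) + 1) * (B + 1) := by
    simp only [S]
    rw [Finset.card_product, Int.card_Icc, Int.card_Icc]
    have : ((Y : ℤ) + 1 - 0).toNat = Y + 1 := by omega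
    have h2 : ((B : ℤ) + 1 - 0).toNat = B + 1 := by omega
    rw [this, h2]
    push_cast
    ring
  obtain ⟨y, _, hy⟩ := Finset.exists_le_card_fiber_of_nsmul_le_card_of_maps_to
    (s := S) (t := (Finset.univ : Finset (ZMod p))) (f := f) (b := ((Y : ℝ) + 1) * (B + 1) / p)
    (fun _ _ => Finset.mem_univ _) ⟨0, Finset.mem_univ _⟩ (by
      rw [Finset.card_univ, ZMod.card, hScard, nsmul_eq_mul, mul_div_cancel₀ _ hp0.ne'])
  have hpos : (0 : ℝ) < (S.filter (fun x => f x = y)).card :=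
    lt_of_lt_of_le (by positivity) hy
  obtain ⟨v0, hv0⟩ := Finset.card_pos.mp (by exact_mod_cast hpos : 0 < (S.filter (fun x => f x = y)).card)
  have hinj : ((S.filter (fun x => f x = y)).erase v0).card ≤
      ((box2 Y B).filter (fun v => (p : ℤ) ∣ v.1 + v.2 * ρ)).card := by
    apply Finset.card_le_card_of_injOn (fun v => (v.1 - v0.1, v.2 - v0.2))
    · intro v hv
      rw [Finset.mem_coe, Finset.mem_erase, Finset.mem_filter] at hv
      rw [Finset.mem_filter] at hv0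
      obtain ⟨hne, hvS, hfv⟩ := hv
      obtain ⟨hv0S, hfv0⟩ := hv0
      simp only [S, Finset.mem_product, Finset.mem_Icc] at hvS hv0S
      rw [Finset.mem_coe, Finset.mem_filter, mem_box2]
      refine ⟨⟨?_, ?_, ?_⟩, ?_⟩
      · intro h
        apply hne
        rw [Prod.mk.injEq] at h
        ext
        · linarith [h.1]
        · linarith [h.2]
      · simp only; constructor <;> linarith [hvS.1.1, hvS.1.2, hv0S.1.1, hv0S.1.2]
      · simp only; constructor <;> linarith [hvS.2.1, hvS.2.2, hv0S.2.1, hv0S.2.2]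
      · simp only
        rw [← ZMod.intCast_zmod_eq_zero_iff_dvd]
        have h1 : ((v.1 - v0.1 + (v.2 - v0.2) * ρ : ℤ) : ZMod p) = f v - f v0 := by
          simp only [f]; push_cast; ring
        rw [h1, hfv, hfv0, sub_self]
    · intro v _ v' _ h
      simp only [Prod.mk.injEq] at h
      ext
      · linarith [h.1]
      · linarith [h.2]
  rw [Finset.card_erase_of_mem hv0] at hinj
  have h1 : ((S.filter (fun x => f x = y)).card : ℝ) - 1 ≤
      ((box2 Y B).filter (fun v => (p : ℤ) ∣ v.1 + v.2 * ρ)).card := by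
    have h2 : (S.filter (fun x => f x = y)).card ≤
        ((box2 Y B).filter (fun v => (p : ℤ) ∣ v.1 + v.2 * ρ)).card + 1 := by omega
    have h3 : ((S.filter (fun x => f x = y)).card : ℝ) ≤
        ((box2 Y B).filter (fun v => (p : ℤ) ∣ v.1 + v.2 * ρ)).card + 1 := by exact_mod_cast h2
    linarith
  linarith

/-- `p` is an odd prime not dividing `d` and `d` is a square modulo `p` -/
def Spl (d : ℤ) (p : ℕ) : Prop := p.Prime ∧ ¬ (p : ℤ) ∣ 2 * d ∧ ∃ ρ : ℤ, (p : ℤ) ∣ ρ ^ 2 - d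

lemma quad_mass (d : ℤ) (hd : ¬ IsSquare d) (A B : ℕ) (hAB : |d| * (B : ℤ) ^ 2 ≤ (A : ℤ) ^ 2)
    (hA : 1 ≤ A) (S : Finset ℕ) (hS : ∀ p ∈ S, Spl d p) (cnt : ℕ → ℝ)
    (hcnt : ∀ p ∈ S, ∀ ρ : ℤ,
      cnt p ≤ ((box2 A B).filter (fun v => (p : ℤ) ∣ v.1 + v.2 * ρ)).card) :
    ∑ p ∈ S, Real.log p * cnt p ≤ (2 * A + 1) * (2 * B + 1) * (Real.log A + Real.log 2 / 2) := by
  classical
  have hρ : ∀ p : ℕ, ∃ ρ : ℤ, p ∈ S → (p : ℤ) ∣ ρ ^ 2 - d := by
    intro p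
    by_cases hp : p ∈ S
    · obtain ⟨_, _, ρ, hρ⟩ := hS p hp
      exact ⟨ρ, fun _ => hρ⟩
    · exact ⟨0, fun h => absurd h hp⟩
  choose ρ hρ using hρ
  let c : ℤ × ℤ → ℕ → ℕ := fun v p =>
    (if (p : ℤ) ∣ v.1 + v.2 * ρ p then 1 else 0) + (if (p : ℤ) ∣ v.1 + v.2 * (-ρ p) then 1 else 0)
  let N : ℤ × ℤ → ℕ := fun v => (v.1 ^ 2 - d * v.2 ^ 2).natAbs
  have hN0 : ∀ v ∈ box2 A B, N v ≠ 0 := by
    intro v hv h
    have h1 : v.1 ^ 2 - d * v.2 ^ 2 = 0 := Int.natAbs_eq_zero.mp h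
    rw [mem_box2] at hv
    by_cases hb : v.2 = 0
    · rw [hb] at h1
      have h2 : v.1 = 0 := by
        have : v.1 ^ 2 = 0 := by linarith
        exact pow_eq_zero_iff (by norm_num) |>.mp this
      exact hv.1 (Prod.ext h2 hb)
    · apply hd
      have h2 : v.2 ^ 2 ∣ v.1 ^ 2 := ⟨d, by linarith⟩
      rw [Int.pow_dvd_pow_iff (by norm_num)] at h2
      obtain ⟨e, he⟩ := h2
      refine ⟨e, ?_⟩
      have h3 : v.2 ^ 2 * (e * e) = v.2 ^ 2 * d := by
        rw [he] at h1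
        linear_combination h1
      exact (mul_left_cancel₀ (pow_ne_zero 2 hb) h3).symm
  have hNle : ∀ v ∈ box2 A B, Real.log (N v) ≤ 2 * Real.log A + Real.log 2 := by
    intro v hv
    have hv0 := hN0 v hv
    rw [mem_box2] at hv
    obtain ⟨_, ⟨h1, h2⟩, h3, h4⟩ := hv
    have e1 : v.1 ^ 2 ≤ (A : ℤ) ^ 2 := sq_le_sq' h1 h2
    have e2 : v.2 ^ 2 ≤ (B : ℤ) ^ 2 := sq_le_sq' h3 h4
    have e3 : ((N v : ℕ) : ℤ) ≤ 2 * (A : ℤ) ^ 2 := by
      simp only [N]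
      rw [Int.natCast_natAbs]
      calc |v.1 ^ 2 - d * v.2 ^ 2| ≤ |v.1 ^ 2| + |d * v.2 ^ 2| := abs_sub _ _
        _ = v.1 ^ 2 + |d| * v.2 ^ 2 := by
            rw [abs_mul, abs_of_nonneg (sq_nonneg v.1), abs_of_nonneg (sq_nonneg v.2)]
        _ ≤ (A : ℤ) ^ 2 + |d| * (B : ℤ) ^ 2 := by
            apply add_le_add e1
            exact mul_le_mul_of_nonneg_left e2 (abs_nonneg d)
        _ ≤ _ := by linarith
    have e4 : ((N v : ℕ) : ℝ) ≤ 2 * (A : ℝ) ^ 2 := by exact_mod_cast e3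
    have hA0 : (0 : ℝ) < A := by exact_mod_cast hA
    have hpos : (0 : ℝ) < N v := by exact_mod_cast Nat.pos_of_ne_zero hv0
    have h5 := Real.log_le_log hpos e4
    rw [Real.log_mul (by norm_num) (by positivity), Real.log_pow] at h5
    push_cast at h5
    linarith
  -- divisibility
  have hdiv : ∀ v ∈ box2 A B, ∀ p ∈ S, p ^ c v p ∣ N v := by
    intro v _ p hp
    obtain ⟨hpp, hp2d, _⟩ := hS p hp
    have hpr := hρ p hp
    have hprime : Prime (p : ℤ) := Nat.prime_iff_prime_int.mp hpp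
    have e1 : v.1 ^ 2 - d * v.2 ^ 2 = (v.1 + v.2 * ρ p) * (v.1 + v.2 * (-ρ p)) +
        (ρ p ^ 2 - d) * v.2 ^ 2 := by ring
    simp only [c, N]
    by_cases h1 : (p : ℤ) ∣ v.1 + v.2 * ρ p
    · by_cases h2 : (p : ℤ) ∣ v.1 + v.2 * (-ρ p)
      · rw [if_pos h1, if_pos h2]
        have h3 : (p : ℤ) ∣ 2 * (v.2 * ρ p) := by
          have := dvd_sub h1 h2
          have e : v.1 + v.2 * ρ p - (v.1 + v.2 * (-ρ p)) = 2 * (v.2 * ρ p) := by ring
          rwa [e] at this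
        have hp2 : ¬ (p : ℤ) ∣ 2 := fun h => hp2d (Dvd.dvd.mul_right h d)
        have hpd : ¬ (p : ℤ) ∣ d := fun h => hp2d (Dvd.dvd.mul_left h 2)
        have hpρ : ¬ (p : ℤ) ∣ ρ p := by
          intro h
          apply hpd
          have h4 : (p : ℤ) ∣ ρ p ^ 2 := dvd_pow h (by norm_num)
          have := dvd_sub h4 hpr
          have e : ρ p ^ 2 - (ρ p ^ 2 - d) = d := by ring
          rwa [e] at this
        have h4 : (p : ℤ) ∣ v.2 := by
          rcases hprime.dvd_or_dvd h3 with h | h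
          · exact absurd h hp2
          · rcases hprime.dvd_or_dvd h with h | h
            · exact h
            · exact absurd h hpρ
        have h5 : (p : ℤ) ∣ v.1 := by
          have := dvd_sub h1 (Dvd.dvd.mul_right h4 (ρ p))
          have e : v.1 + v.2 * ρ p - v.2 * ρ p = v.1 := by ring
          rwa [e] at this
        obtain ⟨a, ha⟩ := h5
        obtain ⟨b, hb⟩ := h4
        have h6 : ((p ^ 2 : ℕ) : ℤ) ∣ v.1 ^ 2 - d * v.2 ^ 2 := by
          rw [ha, hb]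
          exact ⟨a ^ 2 - d * b ^ 2, by push_cast; ring⟩
        exact Int.natCast_dvd.mp h6
      · rw [if_pos h1, if_neg h2, add_zero, pow_one]
        apply Int.natCast_dvd.mp
        rw [e1]
        exact dvd_add (Dvd.dvd.mul_right h1 _) (Dvd.dvd.mul_right hpr _)
    · by_cases h2 : (p : ℤ) ∣ v.1 + v.2 * (-ρ p)
      · rw [if_neg h1, if_pos h2, zero_add, pow_one]
        apply Int.natCast_dvd.mp
        rw [e1]
        exact dvd_add (Dvd.dvd.mul_left h2 _) (Dvd.dvd.mul_right hpr _)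
      · rw [if_neg h1, if_neg h2, add_zero, pow_zero]
        exact one_dvd _
  have hsumv : ∀ v ∈ box2 A B, ∑ p ∈ S, (c v p : ℝ) * Real.log p ≤ 2 * Real.log A + Real.log 2 := by
    intro v hv
    have h1 : ∏ p ∈ S, p ^ c v p ∣ N v := by
      apply Finset.prod_dvd_of_isRelPrime
      · intro p hp q hq hpq
        rw [Function.onFun, ← Nat.coprime_iff_isRelPrime]
        apply Nat.Coprime.pow
        exact (Nat.coprime_primes (hS p hp).1 (hS q hq).1).mpr hpq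
      · intro p hp
        exact hdiv v hv p hp
    have h2 := Nat.le_of_dvd (Nat.pos_of_ne_zero (hN0 v hv)) h1
    have h3 : ((∏ p ∈ S, p ^ c v p : ℕ) : ℝ) ≤ N v := by exact_mod_cast h2
    push_cast at h3
    have hpos : ∀ p ∈ S, (0 : ℝ) < (p : ℝ) ^ c v p := fun p hp => by
      have := (hS p hp).1.pos
      positivity
    have h4 := Real.log_le_log (Finset.prod_pos hpos) h3
    rw [Real.log_prod (fun p hp => (hpos p hp).ne')] at h4
    refine le_trans (le_of_eq ?_) (h4.trans (hNle v hv))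
    apply Finset.sum_congr rfl
    intro p _
    rw [Real.log_pow]
  -- double counting
  have hswap : ∑ v ∈ box2 A B, ∑ p ∈ S, (c v p : ℝ) * Real.log p =
      ∑ p ∈ S, Real.log p * ((((box2 A B).filter (fun v => (p : ℤ) ∣ v.1 + v.2 * ρ p)).card : ℝ) +
        ((box2 A B).filter (fun v => (p : ℤ) ∣ v.1 + v.2 * (-ρ p))).card) := by
    rw [Finset.sum_comm]
    apply Finset.sum_congr rfl
    intro p _
    rw [← Finset.sum_mul, mul_comm]
    congr 1
    simp only [c]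
    push_cast
    rw [Finset.sum_add_distrib, Finset.card_filter, Finset.card_filter]
    push_cast
    rfl
  have hlow : ∑ p ∈ S, 2 * (Real.log p * cnt p) ≤ ∑ v ∈ box2 A B, ∑ p ∈ S, (c v p : ℝ) * Real.log p := by
    rw [hswap]
    apply Finset.sum_le_sum
    intro p hp
    have h1 := hcnt p hp (ρ p)
    have h2 := hcnt p hp (-ρ p)
    have hlogp : 0 ≤ Real.log p := Real.log_nonneg (by exact_mod_cast (hS p hp).1.one_lt.le)
    have h3 := mul_le_mul_of_nonneg_left (add_le_add h1 h2) hlogp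
    linarith
  have hup : ∑ v ∈ box2 A B, ∑ p ∈ S, (c v p : ℝ) * Real.log p ≤
      (2 * A + 1) * (2 * B + 1) * (2 * Real.log A + Real.log 2) := by
    have hnn : 0 ≤ 2 * Real.log A + Real.log 2 := by
      have h1 : 0 ≤ Real.log A := Real.log_natCast_nonneg A
      have h2 : 0 ≤ Real.log 2 := Real.log_nonneg (by norm_num)
      linarith
    calc ∑ v ∈ box2 A B, ∑ p ∈ S, (c v p : ℝ) * Real.log p ≤
        ∑ v ∈ box2 A B, (2 * Real.log A + Real.log 2) := Finset.sum_le_sum hsumv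
      _ = (box2 A B).card * (2 * Real.log A + Real.log 2) := by
          rw [Finset.sum_const, nsmul_eq_mul]
      _ ≤ _ := mul_le_mul_of_nonneg_right (card_box2_le A B) hnn
  rw [← Finset.mul_sum] at hlow
  nlinarith [hlow.trans hup]

end Pool.Agent.Lib.MP_695920_nt
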