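import Mathlib
import Pool.Agent.Lib.MP_695920_nt.Resid

set_option autoImplicit false

open Finset Module

namespace Pool.Agent.Lib.MP_695920_nt

open scoped Classical in
theorem nonres_count (d : ℤ) (hd : ¬ IsSquare d) (s B K : ℕ) (hs : |d| ≤ (s : ℤ) ^ 2)
    (hs1 : 1 ≤ s) (hB : 1 ≤ B) (hK1 : 1 ≤ K) (hK : Real.log K + 7 ≤ Real.log B / 4) :
    (K : ℝ) / 2 ≤ (((Icc 0 (s * B ^ 2)).filter Nat.Prime).filter (fun p => ¬ Spl d p)).card *
      Real.log ((s * B ^ 2 : ℕ) : ℝ) := by
  set A := s * B with hA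
  have hAB : s * B ^ 2 = A * B := by rw [hA]; ring
  rw [hAB]
  have hA1 : 1 ≤ A := Nat.mul_pos hs1 hB
  have hB1' : (1 : ℝ) ≤ B := by exact_mod_cast hB
  have hA1' : (1 : ℝ) ≤ A := by exact_mod_cast hA1
  have hK1' : (1 : ℝ) ≤ K := by exact_mod_cast hK1
  have hlogA : 0 ≤ Real.log A := Real.log_natCast_nonneg A
  have hlogB : 0 ≤ Real.log B := Real.log_natCast_nonneg B
  have hlogK : 0 ≤ Real.log K := Real.log_natCast_nonneg K
  have hlogAB : Real.log ((A * B : ℕ) : ℝ) = Real.log A + Real.log B := by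
    push_cast
    rw [Real.log_mul (by positivity) (by positivity)]
  set PP := (Icc 0 (A * B)).filter Nat.Prime with hPP
  set S := PP.filter (fun p => Spl d p) with hS
  set NN := PP.filter (fun p => ¬ Spl d p) with hNN
  let cnt : ℕ → ℝ := fun p => if p ≤ A then (2 * B + 1 : ℝ) * ((2 * A + 1) / p - 1) - 1 else
    ((A : ℝ) + 1) * (B + 1) / p - 1
  have hmass := quad_mass d hd A B (by
      rw [hA]
      push_cast
      have h1 : |d| * (B : ℤ) ^ 2 ≤ (s : ℤ) ^ 2 * (B : ℤ) ^ 2 :=
        mul_le_mul_of_nonneg_right hs (sq_nonneg _)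
      linarith) hA1 S (by
      intro p hp
      rw [hS, mem_filter] at hp
      exact hp.2) cnt (by
    intro p hp ρ
    rw [hS, mem_filter, hPP, mem_filter] at hp
    simp only [cnt]
    split_ifs
    · exact cnt_small2 hp.1.2.pos A B ρ
    · exact cnt_large2 hp.1.2.pos A B ρ)
  set W : ℝ := (2 * A + 1) * (2 * B + 1) with hW
  have hW0 : 0 < W := by rw [hW]; positivity
  let g : ℕ → ℝ := fun p => if p ≤ A then 1 else 1 / 4
  have hg0 : ∀ p, 0 ≤ g p := by intro p; simp only [g]; split_ifs <;> norm_num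
  have hg1 : ∀ p, g p ≤ 1 := by intro p; simp only [g]; split_ifs <;> norm_num
  -- pointwise lower bound
  have hpt : ∀ p ∈ S, W * (g p * (Real.log p / p)) -
      ((if p ≤ A then (2 * B + 2 : ℝ) * Real.log p else 0) + Real.log p) ≤ Real.log p * cnt p := by
    intro p hp
    rw [hS, mem_filter, hPP, mem_filter] at hp
    have hpp := hp.1.2
    have hp0 : (0 : ℝ) < p := by exact_mod_cast hpp.pos
    have hlogp : 0 ≤ Real.log p := Real.log_nonneg (by exact_mod_cast hpp.one_lt.le)
    simp only [cnt, g]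
    split_ifs with h
    · have e : Real.log p * ((2 * B + 1 : ℝ) * ((2 * A + 1) / p - 1) - 1) =
          W * (1 * (Real.log p / p)) - (2 * B + 2) * Real.log p := by
        rw [hW]; field_simp; ring
      rw [e]
      linarith
    · have e : Real.log p * (((A : ℝ) + 1) * (B + 1) / p - 1) =
          (((A : ℝ) + 1) * (B + 1)) * (Real.log p / p) - Real.log p := by
        field_simp
      rw [e]
      have e2 : W * (1 / 4 * (Real.log p / p)) ≤ (((A : ℝ) + 1) * (B + 1)) * (Real.log p / p) := by
        rw [← mul_assoc]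
        apply mul_le_mul_of_nonneg_right _ (by positivity)
        rw [hW]
        nlinarith
      linarith
  have hsum1 := (Finset.sum_le_sum hpt).trans hmass
  rw [Finset.sum_sub_distrib, ← Finset.mul_sum, Finset.sum_add_distrib] at hsum1
  -- error terms
  have herr1 : ∑ p ∈ S, (if p ≤ A then (2 * B + 2 : ℝ) * Real.log p else 0) ≤
      (2 * B + 2) * (Real.log 4 * A) := by
    rw [← Finset.sum_filter, ← Finset.mul_sum]
    apply mul_le_mul_of_nonneg_left _ (by positivity)
    refine le_trans ?_ (sum_log_primes_le A)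
    apply Finset.sum_le_sum_of_subset_of_nonneg
    · intro p hp
      rw [mem_filter, hS, mem_filter, hPP, mem_filter] at hp
      rw [mem_filter, mem_Icc]
      exact ⟨⟨Nat.zero_le _, hp.2⟩, hp.1.1.2⟩
    · intro p hp _
      rw [mem_filter] at hp
      exact Real.log_nonneg (by exact_mod_cast hp.2.one_lt.le)
  have herr2 : ∑ p ∈ S, Real.log p ≤ Real.log 4 * ((A : ℝ) * B) := by
    refine le_trans ?_ (le_trans (sum_log_primes_le (A * B)) (by push_cast; exact le_rfl))
    apply Finset.sum_le_sum_of_subset_of_nonneg (Finset.filter_subset _ _)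
    intro p hp _
    rw [mem_filter] at hp
    exact Real.log_nonneg (by exact_mod_cast hp.2.one_lt.le)
  have hlog2 : Real.log 2 ≤ 0.7 := by linarith [Real.log_two_lt_d9]
  have hlog4 : Real.log 4 ≤ 1.4 := by
    rw [show (4 : ℝ) = 2 ^ 2 by norm_num, Real.log_pow]
    push_cast
    linarith
  have hlog4' : 0 ≤ Real.log 4 := Real.log_nonneg (by norm_num)
  have herr : (2 * B + 2) * (Real.log 4 * A) + Real.log 4 * ((A : ℝ) * B) ≤ 1.4 * W := by
    have e1 : (2 * B + 2) * (Real.log 4 * A) + Real.log 4 * ((A : ℝ) * B) =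
        Real.log 4 * (3 * (A : ℝ) * B + 2 * A) := by ring
    rw [e1, hW]
    have e2 : Real.log 4 * (3 * (A : ℝ) * B + 2 * A) ≤ 1.4 * (3 * (A : ℝ) * B + 2 * A) :=
      mul_le_mul_of_nonneg_right hlog4 (by positivity)
    nlinarith [mul_nonneg (by linarith : (0:ℝ) ≤ A) (by linarith : (0:ℝ) ≤ B)]
  have hmain1 : ∑ p ∈ S, g p * (Real.log p / p) ≤ Real.log A + 1.75 := by
    have h1 : W * ∑ p ∈ S, g p * (Real.log p / p) ≤ W * (Real.log A + 1.75) := by
      have e : W * (Real.log A + 1.75) = W * (Real.log A + 0.35) + 1.4 * W := by ring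
      rw [e]
      have e2 : W * (Real.log A + Real.log 2 / 2) ≤ W * (Real.log A + 0.35) := by
        apply mul_le_mul_of_nonneg_left _ hW0.le
        linarith
      linarith
    exact le_of_mul_le_mul_left h1 hW0
  -- the full sum
  have hterm0 : ∀ p ∈ PP, 0 ≤ Real.log p / (p : ℝ) := by
    intro p hp
    rw [hPP, mem_filter] at hp
    have := Real.log_nonneg (show (1 : ℝ) ≤ p by exact_mod_cast hp.2.one_lt.le)
    positivity
  have hfull : mert A + 1 / 4 * (mert (A * B) - mert A) ≤ ∑ p ∈ PP, g p * (Real.log p / p) := by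
    have h1 : ∑ p ∈ PP, g p * (Real.log p / p) =
        ∑ p ∈ PP.filter (fun p => p ≤ A), Real.log p / p +
        1 / 4 * ∑ p ∈ PP.filter (fun p => ¬ p ≤ A), Real.log p / p := by
      rw [← Finset.sum_filter_add_sum_filter_not PP (fun p => p ≤ A), Finset.mul_sum]
      congr 1
      · apply Finset.sum_congr rfl
        intro p hp
        simp only [g, (mem_filter.mp hp).2, if_true, one_mul]
      · apply Finset.sum_congr rfl
        intro p hp
        simp only [g, (mem_filter.mp hp).2, if_false]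
    have h2 : ∑ p ∈ PP.filter (fun p => p ≤ A), Real.log p / (p : ℝ) = mert A := by
      unfold mert
      congr 1
      ext p
      rw [hPP, mem_filter, mem_filter, mem_filter, mem_Icc, mem_Icc]
      constructor
      · rintro ⟨⟨⟨_, _⟩, h3⟩, h4⟩; exact ⟨⟨Nat.zero_le _, h4⟩, h3⟩
      · rintro ⟨⟨_, h3⟩, h4⟩
        refine ⟨⟨⟨Nat.zero_le _, h3.trans ?_⟩, h4⟩, h3⟩
        exact Nat.le_mul_of_pos_right _ hB
    have h3 : ∑ p ∈ PP.filter (fun p => p ≤ A), Real.log p / (p : ℝ) +
        ∑ p ∈ PP.filter (fun p => ¬ p ≤ A), Real.log p / (p : ℝ) = mert (A * B) := by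
      rw [Finset.sum_filter_add_sum_filter_not]
      rfl
    rw [h1]
    rw [h2] at h3 ⊢
    linarith
  have hsplit : ∑ p ∈ PP, g p * (Real.log p / p) =
      ∑ p ∈ S, g p * (Real.log p / p) + ∑ p ∈ NN, g p * (Real.log p / p) := by
    rw [← Finset.sum_filter_add_sum_filter_not PP (fun p => Spl d p)]
  have hNNle : ∑ p ∈ NN, g p * (Real.log p / p) ≤ ∑ p ∈ NN, Real.log p / p := by
    apply Finset.sum_le_sum
    intro p hp
    have := hterm0 p (Finset.filter_subset _ _ hp)
    calc g p * (Real.log p / p) ≤ 1 * (Real.log p / p) := mul_le_mul_of_nonneg_right (hg1 p) this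
      _ = _ := one_mul _
  -- upper bound for the sum over the nonsplit primes
  have hKpos : (0 : ℝ) < K := by linarith
  have hNNup : ∑ p ∈ NN, Real.log p / (p : ℝ) ≤
      (Real.log K + Real.log 4) + NN.card * (Real.log ((A * B : ℕ) : ℝ) / K) := by
    rw [← Finset.sum_filter_add_sum_filter_not NN (fun p => p ≤ K)]
    apply add_le_add
    · refine le_trans ?_ (mert_le K hK1)
      unfold mert
      apply Finset.sum_le_sum_of_subset_of_nonneg
      · intro p hp
        rw [mem_filter, hNN, mem_filter, hPP, mem_filter] at hp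
        rw [mem_filter, mem_Icc]
        exact ⟨⟨Nat.zero_le _, hp.2⟩, hp.1.1.2⟩
      · intro p hp _
        rw [mem_filter] at hp
        have := Real.log_nonneg (show (1 : ℝ) ≤ p by exact_mod_cast hp.2.one_lt.le)
        positivity
    · calc ∑ p ∈ NN.filter (fun p => ¬ p ≤ K), Real.log p / (p : ℝ)
          ≤ ∑ p ∈ NN.filter (fun p => ¬ p ≤ K), Real.log ((A * B : ℕ) : ℝ) / K := by
            apply Finset.sum_le_sum
            intro p hp
            rw [mem_filter, hNN, mem_filter, hPP, mem_filter, mem_Icc] at hp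
            obtain ⟨⟨⟨⟨_, h1⟩, h2⟩, _⟩, h3⟩ := hp
            have h4 : (K : ℝ) ≤ p := by
              have : K ≤ p := by omega
              exact_mod_cast this
            have h5 : Real.log p ≤ Real.log ((A * B : ℕ) : ℝ) :=
              Real.log_le_log (by linarith) (by exact_mod_cast h1)
            have h7 : 0 ≤ Real.log p := Real.log_nonneg (by linarith)
            calc Real.log p / (p : ℝ) ≤ Real.log p / K :=
                  div_le_div_of_nonneg_left h7 (by linarith) h4
              _ ≤ Real.log ((A * B : ℕ) : ℝ) / K := div_le_div_of_nonneg_right h5 (by linarith)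
        _ = (NN.filter (fun p => ¬ p ≤ K)).card * (Real.log ((A * B : ℕ) : ℝ) / K) := by
            rw [Finset.sum_const, nsmul_eq_mul]
        _ ≤ _ := by
            apply mul_le_mul_of_nonneg_right _ (by rw [hlogAB]; positivity)
            exact_mod_cast Finset.card_filter_le _ _
  have hm1 := mert_ge A hA1
  have hm2 := mert_ge (A * B) (Nat.mul_pos hA1 hB)
  rw [hlogAB] at hm2
  have hfinal : 1 / 2 ≤ NN.card * (Real.log ((A * B : ℕ) : ℝ) / K) := by linarith
  have h1 : (K : ℝ) * (1 / 2) ≤ K * (NN.card * (Real.log ((A * B : ℕ) : ℝ) / K)) :=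
    mul_le_mul_of_nonneg_left hfinal hKpos.le
  have h2 : (K : ℝ) * (NN.card * (Real.log ((A * B : ℕ) : ℝ) / K)) =
      NN.card * Real.log ((A * B : ℕ) : ℝ) := by field_simp
  rw [h2] at h1
  linarith

end Pool.Agent.Lib.MP_695920_nt
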