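import Mathlib
import Pool.Agent.Lib.MP_695920_nt.NoInertBound
import Pool.Agent.Lib.MP_695920_nt.Parity
import Pool.Agent.Lib.MP_695920_nt.Resid2
import Pool.Agent.Lib.MP_695920_nt.Smooth

set_option autoImplicit false

open Finset NumberField Module IsDedekindDomain
open scoped nonZeroDivisors

namespace Pool.Agent.Lib.MP_695920_nt

lemma two_even {L : Type*} [Field L] [NumberField L] {d f : ℤ} (hdf : discr L = d * f ^ 2)
    (heven : Even (finrank ℚ L)) {p : ℕ} (hp : p.Prime) (hp2 : p ≠ 2)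
    (hunr : ¬ p ∣ (discr L).natAbs) {ρ : ℤ} (hρ : (p : ℤ) ∣ ρ ^ 2 - d) : Two L p := by
  apply two_of_not_prime hp hunr
  intro hP
  apply (parity hp hp2 hP hunr).2 heven
  refine ⟨((ρ * f : ℤ) : ZMod p), ?_⟩
  have h1 : (((ρ ^ 2 - d : ℤ)) : ZMod p) = 0 := (ZMod.intCast_zmod_eq_zero_iff_dvd _ p).mpr hρ
  rw [hdf]
  push_cast at h1 ⊢
  linear_combination -(f : ZMod p) ^ 2 * h1

lemma two_odd {L : Type*} [Field L] [NumberField L] {d f : ℤ} (hdf : discr L = d * f ^ 2)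
    (hodd : Odd (finrank ℚ L)) {p : ℕ} (hp : p.Prime) (hp2 : p ≠ 2)
    (hunr : ¬ p ∣ (discr L).natAbs) (hρ : ¬ Spl d p) : Two L p := by
  apply two_of_not_prime hp hunr
  intro hP
  apply hρ
  have hprime : Prime (p : ℤ) := Nat.prime_iff_prime_int.mp hp
  have hpd : ¬ (p : ℤ) ∣ d := by
    intro h
    apply hunr
    apply Int.natCast_dvd.mp
    rw [hdf]
    exact Dvd.dvd.mul_right h _
  have hpf : ¬ (p : ℤ) ∣ f := by
    intro h
    apply hunr
    apply Int.natCast_dvd.mp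
    rw [hdf]
    exact Dvd.dvd.mul_left (dvd_pow h (by norm_num)) _
  refine ⟨hp, ?_, ?_⟩
  · intro h
    rcases hprime.dvd_or_dvd h with h | h
    · have h2 : p ∣ 2 := by exact_mod_cast h
      exact hp2 ((Nat.prime_dvd_prime_iff_eq hp Nat.prime_two).mp h2)
    · exact hpd h
  · obtain ⟨c, hc⟩ := (parity hp hp2 hP hunr).1 hodd
    have hfact : Fact p.Prime := ⟨hp⟩
    have hf0 : (f : ZMod p) ≠ 0 := by
      intro h
      exact hpf ((ZMod.intCast_zmod_eq_zero_iff_dvd _ p).mp h)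
    obtain ⟨ρ, hρ'⟩ := ZMod.intCast_surjective (c * (f : ZMod p)⁻¹)
    refine ⟨ρ, ?_⟩
    rw [← ZMod.intCast_zmod_eq_zero_iff_dvd]
    push_cast
    rw [hρ']
    rw [hdf] at hc
    push_cast at hc
    field_simp
    linear_combination -hc

/-- splitting off the part of an integer made of primes dividing `D` -/
lemma exists_parts (D m : ℕ) (hm : m ≠ 0) : ∃ a b : ℕ, a * b = m ∧
    (∀ p : ℕ, p.Prime → p ∣ a → ¬ p ∣ D) ∧ (∀ p : ℕ, p.Prime → p ∣ b → p ∣ D) := by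
  induction m using induction_on_primes with
  | zero => exact absurd rfl hm
  | one =>
    refine ⟨1, 1, rfl, ?_, ?_⟩
    · intro p hp h
      exact absurd (Nat.dvd_one.mp h) hp.ne_one
    · intro p hp h
      exact absurd (Nat.dvd_one.mp h) hp.ne_one
  | prime_mul q m hq ih =>
    have hm0 : m ≠ 0 := by
      rintro rfl
      exact hm (mul_zero q)
    obtain ⟨a, b, hab, ha, hb⟩ := ih hm0
    by_cases hqD : q ∣ D
    · refine ⟨a, q * b, by rw [← hab]; ring, ha, ?_⟩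
      intro p hp h
      rcases hp.dvd_mul.mp h with h | h
      · rw [(Nat.prime_dvd_prime_iff_eq hp hq).mp h]; exact hqD
      · exact hb p hp h
    · refine ⟨q * a, b, by rw [← hab]; ring, ?_, hb⟩
      intro p hp h
      rcases hp.dvd_mul.mp h with h | h
      · rw [(Nat.prime_dvd_prime_iff_eq hp hq).mp h]; exact hqD
      · exact ha p hp h

/-- the prime divisors of `q ^ 2 - 4 d` -/
lemma prime_dvd_val {d : ℤ} {q p : ℕ} (hq : q.Prime) (hqd : ¬ (q : ℤ) ∣ 2 * d) (hp : p.Prime)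
    (h : (p : ℤ) ∣ (q : ℤ) ^ 2 - 4 * d) : p ≠ 2 ∧ ∃ ρ : ℤ, (p : ℤ) ∣ ρ ^ 2 - d := by
  have hprime : Prime (p : ℤ) := Nat.prime_iff_prime_int.mp hp
  have hp2 : p ≠ 2 := by
    rintro rfl
    have h1 : (2 : ℤ) ∣ (q : ℤ) ^ 2 := by
      have h2 : ((2 : ℕ) : ℤ) ∣ 4 * d := ⟨2 * d, by push_cast; ring⟩
      have := dvd_add h h2
      simpa using this
    have h3 : (2 : ℤ) ∣ q := Int.prime_two.dvd_of_dvd_pow h1
    have h4 : 2 ∣ q := by exact_mod_cast h3
    have h5 : 2 = q := (Nat.prime_dvd_prime_iff_eq Nat.prime_two hq).mp h4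
    apply hqd
    rw [← h5]
    exact ⟨d, by push_cast; ring⟩
  refine ⟨hp2, ?_⟩
  have hodd := hp.odd_of_ne_two hp2
  obtain ⟨t, ht⟩ := hodd
  refine ⟨q * (t + 1), ?_⟩
  have h1 : (p : ℤ) ∣ 4 * (((q : ℤ) * (t + 1)) ^ 2 - d) := by
    have e : 4 * (((q : ℤ) * (t + 1)) ^ 2 - d) =
        ((q : ℤ) ^ 2 - 4 * d) + (q : ℤ) ^ 2 * (2 * t + 3) * p := by
      have hpt : (p : ℤ) = 2 * t + 1 := by exact_mod_cast ht
      rw [hpt]
      ring
    rw [e]
    exact dvd_add h ⟨(q : ℤ) ^ 2 * (2 * t + 3), by ring⟩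
  rcases hprime.dvd_or_dvd h1 with h2 | h2
  · exfalso
    have h3 : p ∣ 2 ^ 2 := by
      have : (p : ℤ) ∣ ((2 ^ 2 : ℕ) : ℤ) := by simpa using h2
      exact_mod_cast this
    exact hp2 ((Nat.prime_dvd_prime_iff_eq hp Nat.prime_two).mp (hp.dvd_of_dvd_pow h3))
  · exact h2

lemma card_primes_dvd_le {m : ℕ} (hm : m ≠ 0) (F : Finset ℕ) (hF : ∀ p ∈ F, p.Prime ∧ p ∣ m) :
    (F.card : ℝ) ≤ 2 * Real.log m := by
  have h1 : ∏ p ∈ F, p ∣ m := by
    apply Finset.prod_primes_dvd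
    · intro p hp; exact (hF p hp).1.prime
    · intro p hp; exact (hF p hp).2
  have h2 := Nat.le_of_dvd (Nat.pos_of_ne_zero hm) h1
  have h3 : 2 ^ F.card ≤ ∏ p ∈ F, p := by
    rw [← Finset.prod_const]
    exact Finset.prod_le_prod' fun p hp => (hF p hp).1.two_le
  have h4 : ((2 ^ F.card : ℕ) : ℝ) ≤ (m : ℝ) := by exact_mod_cast h3.trans h2
  push_cast at h4
  have h5 := Real.log_le_log (by positivity) h4
  rw [Real.log_pow] at h5
  have h6 : (0.5 : ℝ) ≤ Real.log 2 := by linarith [Real.log_two_gt_d9]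
  have h7 : (F.card : ℝ) * 0.5 ≤ F.card * Real.log 2 :=
    mul_le_mul_of_nonneg_left h6 (Nat.cast_nonneg _)
  linarith

end Pool.Agent.Lib.MP_695920_nt
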