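import Mathlib
import Pool.Agent.Lib.MP_695920_nt.ResolventA

set_option autoImplicit false

open Finset NumberField Module IsDedekindDomain
open scoped nonZeroDivisors

namespace Pool.Agent.Lib.MP_695920_nt

lemma big_ineq {y : ℝ} (hy : 60 ≤ y) : 6 * y * (1 + 4 * y) ≤ Real.exp (y / 2) := by
  have h1 := Real.pow_div_factorial_le_exp (y / 2) (by linarith) 6
  refine le_trans ?_ h1
  have h2 : (y / 2) ^ 6 / ((6 : ℕ).factorial : ℝ) = y ^ 2 * (y ^ 4 / 46080) := by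
    norm_num [Nat.factorial]
    ring
  rw [h2]
  have h3 : (60 : ℝ) ^ 4 ≤ y ^ 4 := pow_le_pow_left₀ (by norm_num) hy 4
  have h4 : (281 : ℝ) ≤ y ^ 4 / 46080 := by
    rw [le_div_iff₀ (by norm_num)]
    refine le_trans (by norm_num) h3
  have h5 : y ^ 2 * 281 ≤ y ^ 2 * (y ^ 4 / 46080) := mul_le_mul_of_nonneg_left h4 (sq_nonneg y)
  nlinarith

theorem even_count {d : ℤ} (hd0 : d ≠ 0) (X : ℝ) (hX : Real.exp 60 * |(d : ℝ)| ≤ X) (D0 : ℕ)
    (hD0 : D0 ≠ 0) (Tw : ℕ → Prop)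
    (hTw : ∀ p : ℕ, p.Prime → p ≠ 2 → ¬ p ∣ D0 → (∃ ρ : ℤ, (p : ℤ) ∣ ρ ^ 2 - d) → Tw p)
    (ε : ℝ) (hε : 0 < ε) :
    ∃ G : Finset ℕ, (∀ m ∈ G, m ≠ 0 ∧ (m : ℝ) ≤ X ∧ ∀ p : ℕ, p.Prime → p ∣ m → Tw p) ∧
      Real.sqrt X / (6 * Real.log X) ≤ 2 * (G.card *
        (X ^ ε * ((1 - (2 : ℝ) ^ (-ε))⁻¹) ^ D0.primeFactors.card)) := by
  classical
  have hd1 : (1 : ℝ) ≤ |(d : ℝ)| := by
    have : (1 : ℤ) ≤ |d| := Int.one_le_abs hd0
    exact_mod_cast this
  have hX60 : Real.exp 60 ≤ X := by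
    have := mul_le_mul_of_nonneg_left hd1 (Real.exp_pos 60).le
    linarith
  have hX0 : 0 < X := lt_of_lt_of_le (Real.exp_pos _) hX60
  have hlogX : 60 ≤ Real.log X := by
    rw [Real.le_log_iff_exp_le hX0]; exact hX60
  have he8 : (8 : ℝ) ≤ Real.exp 60 := by
    have := Real.add_one_le_exp (60 : ℝ)
    linarith
  have hd8 : 8 * |(d : ℝ)| ≤ X := by
    refine le_trans ?_ hX
    exact mul_le_mul_of_nonneg_right he8 (abs_nonneg _)
  set y := Real.log X with hy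
  have hsqrtX : Real.sqrt X = Real.exp (y / 2) := by
    rw [Real.exp_half, hy, Real.exp_log hX0]
  have hbig := big_ineq hlogX
  rw [← hsqrtX] at hbig
  have hsX : (10 : ℝ) ^ 9 ≤ Real.sqrt X := by
    rw [hsqrtX]
    have h1 : Real.exp 30 ≤ Real.exp (y / 2) := Real.exp_le_exp.mpr (by linarith)
    have h2 : Real.exp 30 = (Real.exp 1) ^ 30 := by rw [← Real.exp_nat_mul]; norm_num
    have h3 : (2.7 : ℝ) ^ 30 ≤ (Real.exp 1) ^ 30 :=
      pow_le_pow_left₀ (by norm_num) (by linarith [Real.exp_one_gt_d9]) 30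
    have h4 : (10 : ℝ) ^ 9 ≤ (2.7 : ℝ) ^ 30 := by norm_num
    linarith
  have hsX2 : Real.sqrt X ^ 2 = X := Real.sq_sqrt hX0.le
  set Q0 := ⌊Real.sqrt (X / 2)⌋₊ with hQ0
  have hsh : Real.sqrt (X / 2) ^ 2 = X / 2 := Real.sq_sqrt (by positivity)
  have hsh0 : 0 ≤ Real.sqrt (X / 2) := Real.sqrt_nonneg _
  have hsh1 : 0.7 * Real.sqrt X ≤ Real.sqrt (X / 2) := by
    apply Real.le_sqrt_of_sq_le
    rw [mul_pow, hsX2]
    nlinarith
  have hQle : (Q0 : ℝ) ≤ Real.sqrt (X / 2) := Nat.floor_le hsh0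
  have hQlt : Real.sqrt (X / 2) < Q0 + 1 := Nat.lt_floor_add_one _
  have hQge : Real.sqrt X / 2 ≤ Q0 := by
    have : (1 : ℝ) ≤ 0.2 * Real.sqrt X := by
      have : (10 : ℝ) ^ 9 * 0.2 ≤ Real.sqrt X * 0.2 := mul_le_mul_of_nonneg_right hsX (by norm_num)
      norm_num at this
      linarith
    linarith
  have hQ8 : (10 : ℝ) ^ 8 ≤ Q0 := by
    have : (10 : ℝ) ^ 8 ≤ (10 : ℝ) ^ 9 / 2 := by norm_num
    linarith
  have hQ0pos : (0 : ℝ) < Q0 := lt_of_lt_of_le (by norm_num) hQ8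
  have hlogQ : Real.log Q0 ≤ y / 2 := by
    have h1 : Real.log Q0 ≤ Real.log (Real.sqrt X) := by
      apply Real.log_le_log hQ0pos
      refine hQle.trans ?_
      apply Real.sqrt_le_sqrt
      linarith
    rwa [hsqrtX, Real.log_exp] at h1
  have hlogQ0 : 0 < Real.log Q0 := Real.log_pos (lt_of_lt_of_le (by norm_num) hQ8)
  set PP := (Ioc 0 Q0).filter Nat.Prime with hPP
  have hpi := pi_lower Q0 hQ8
  rw [← hPP] at hpi
  have hPPlow : Real.sqrt X / (3 * y) ≤ PP.card := by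
    have h1 : Real.sqrt X / (3 * y) ≤ (Q0 : ℝ) / (2 * Real.log Q0) := by
      rw [div_le_div_iff₀ (by linarith) (by linarith)]
      have e1 : Real.sqrt X * (2 * Real.log Q0) ≤ (2 * Q0) * y := by
        apply mul_le_mul (by linarith) (by linarith) (by linarith) (by linarith)
      have e2 : (2 * (Q0 : ℝ)) * y ≤ Q0 * (3 * y) := by nlinarith
      linarith
    exact h1.trans hpi
  set QQ := PP.filter (fun q : ℕ => ¬ (q : ℤ) ∣ 2 * d) with hQQ
  have hbad : ((PP.filter (fun q : ℕ => (q : ℤ) ∣ 2 * d)).card : ℝ) ≤ 1 + 4 * y := by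
    have h1 := card_primes_dvd_le (m := (2 * d).natAbs) (by
      rw [Ne, Int.natAbs_eq_zero]
      exact mul_ne_zero (by norm_num) hd0) (PP.filter (fun q : ℕ => (q : ℤ) ∣ 2 * d)) (by
      intro p hp
      rw [mem_filter, hPP, mem_filter] at hp
      exact ⟨hp.1.2, Int.natCast_dvd.mp hp.2⟩)
    have h2 : (((2 * d).natAbs : ℕ) : ℝ) = 2 * |(d : ℝ)| := by
      rw [Int.natAbs_mul]
      push_cast
      rw [Nat.cast_natAbs]
      push_cast
      norm_num
    rw [h2] at h1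
    have h3 : Real.log (2 * |(d : ℝ)|) ≤ y := by
      apply Real.log_le_log (by linarith)
      linarith
    linarith
  have hQQcard : Real.sqrt X / (6 * y) ≤ QQ.card := by
    have h1 : (PP.card : ℝ) = ((PP.filter (fun q : ℕ => (q : ℤ) ∣ 2 * d)).card : ℝ) + QQ.card := by
      rw [hQQ]
      exact_mod_cast (Finset.card_filter_add_card_filter_not (fun q : ℕ => (q : ℤ) ∣ 2 * d)).symm
    have h2 : 1 + 4 * y ≤ Real.sqrt X / (6 * y) := by
      rw [le_div_iff₀ (by linarith)]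
      linarith
    have h3 : Real.sqrt X / (3 * y) = 2 * (Real.sqrt X / (6 * y)) := by
      have : y ≠ 0 := by linarith
      field_simp
      ring
    linarith
  -- the values
  let val : ℕ → ℕ := fun q => ((q : ℤ) ^ 2 - 4 * d).natAbs
  have hqprop : ∀ q ∈ QQ, q.Prime ∧ ¬ (q : ℤ) ∣ 2 * d ∧ (q : ℝ) ≤ Real.sqrt (X / 2) := by
    intro q hq
    rw [hQQ, mem_filter, hPP, mem_filter, mem_Ioc] at hq
    refine ⟨hq.1.2, hq.2, le_trans ?_ hQle⟩
    exact_mod_cast hq.1.1.2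
  have hval0 : ∀ q ∈ QQ, val q ≠ 0 := by
    intro q hq h
    have h1 : (q : ℤ) ^ 2 - 4 * d = 0 := Int.natAbs_eq_zero.mp h
    have h2 := prime_dvd_val (hqprop q hq).1 (hqprop q hq).2.1 Nat.prime_two (by rw [h1]; exact dvd_zero _)
    exact h2.1 rfl
  have hvalle : ∀ q ∈ QQ, (val q : ℝ) ≤ X := by
    intro q hq
    obtain ⟨_, _, h3⟩ := hqprop q hq
    have h1 : ((val q : ℕ) : ℝ) = |(q : ℝ) ^ 2 - 4 * d| := by
      simp only [val]
      rw [Nat.cast_natAbs]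
      push_cast
      rfl
    rw [h1]
    have h4 : (q : ℝ) ^ 2 ≤ X / 2 := by
      calc (q : ℝ) ^ 2 ≤ Real.sqrt (X / 2) ^ 2 := pow_le_pow_left₀ (Nat.cast_nonneg _) h3 2
        _ = X / 2 := hsh
    calc |(q : ℝ) ^ 2 - 4 * d| ≤ |(q : ℝ) ^ 2| + |4 * (d : ℝ)| := abs_sub _ _
      _ = (q : ℝ) ^ 2 + 4 * |(d : ℝ)| := by
          rw [abs_mul, abs_of_nonneg (sq_nonneg (q : ℝ)), abs_of_pos (by norm_num : (0 : ℝ) < 4)]
      _ ≤ X := by linarith
  have hparts : ∀ q : ℕ, ∃ a b : ℕ, q ∈ QQ → a * b = val q ∧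
      (∀ p : ℕ, p.Prime → p ∣ a → ¬ p ∣ D0) ∧ (∀ p : ℕ, p.Prime → p ∣ b → p ∣ D0) := by
    intro q
    by_cases hq : q ∈ QQ
    · obtain ⟨a, b, h⟩ := exists_parts D0 (val q) (hval0 q hq)
      exact ⟨a, b, fun _ => h⟩
    · exact ⟨0, 0, fun h => absurd h hq⟩
  choose a b hab using hparts
  have hab0 : ∀ q ∈ QQ, a q ≠ 0 ∧ b q ≠ 0 := by
    intro q hq
    have h1 := (hab q hq).1
    have h2 := hval0 q hq
    rw [← h1] at h2
    exact mul_ne_zero_iff.mp h2
  have hle : ∀ q ∈ QQ, (a q : ℝ) ≤ X ∧ (b q : ℝ) ≤ X := by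
    intro q hq
    have h1 := (hab q hq).1
    obtain ⟨h2, h3⟩ := hab0 q hq
    have h4 := hvalle q hq
    rw [← h1] at h4
    push_cast at h4
    have h5 : (1 : ℝ) ≤ a q := by exact_mod_cast Nat.pos_of_ne_zero h2
    have h6 : (1 : ℝ) ≤ b q := by exact_mod_cast Nat.pos_of_ne_zero h3
    constructor <;> nlinarith
  refine ⟨QQ.image a, ?_, ?_⟩
  · intro m hm
    rw [mem_image] at hm
    obtain ⟨q, hq, rfl⟩ := hm
    refine ⟨(hab0 q hq).1, (hle q hq).1, ?_⟩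
    intro p hp hpa
    obtain ⟨h1, h2, h3⟩ := hab q hq
    have h4 : (p : ℤ) ∣ (q : ℤ) ^ 2 - 4 * d := by
      apply Int.natCast_dvd.mpr
      change p ∣ val q
      rw [← h1]
      exact Dvd.dvd.mul_right hpa _
    have h5 := prime_dvd_val (hqprop q hq).1 (hqprop q hq).2.1 hp h4
    exact hTw p hp h5.1 (h2 p hp hpa) h5.2
  · -- counting
    have hF := card_factored_le hD0 ε hε X hX0.le (QQ.image b) (by
      intro r hr
      rw [mem_image] at hr
      obtain ⟨q, hq, rfl⟩ := hr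
      exact ⟨(hab0 q hq).2, (hle q hq).2, (hab q hq).2.2⟩)
    have h1 : QQ.card ≤ 2 * (QQ.image (fun q => (a q, b q))).card := by
      apply Finset.card_le_mul_card_image
      intro v _
      -- at most two elements
      by_contra hcon
      push Not at hcon
      obtain ⟨q1, q2, q3, h1, h2, h3, h12, h13, h23⟩ := (Finset.two_lt_card_iff).mp hcon
      rw [mem_filter] at h1 h2 h3
      have hv : ∀ q, q ∈ QQ ∧ (a q, b q) = v → val q = v.1 * v.2 := by
        rintro q ⟨hq, hv⟩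
        rw [← (hab q hq).1, ← hv]
      have e1 := hv q1 h1
      have e2 := hv q2 h2
      have e3 := hv q3 h3
      simp only [val] at e1 e2 e3
      have e12 := Int.natAbs_eq_natAbs_iff.mp (e1.trans e2.symm)
      have e13 := Int.natAbs_eq_natAbs_iff.mp (e1.trans e3.symm)
      have e23 := Int.natAbs_eq_natAbs_iff.mp (e2.trans e3.symm)
      have hsq : ∀ x y : ℕ, (x : ℤ) ^ 2 - 4 * d = (y : ℤ) ^ 2 - 4 * d → x = y := by
        intro x y h
        have h4 : (x : ℤ) ^ 2 = (y : ℤ) ^ 2 := by linarith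
        have h5 : x ^ 2 = y ^ 2 := by exact_mod_cast h4
        exact Nat.pow_left_injective (n := 2) (by norm_num) h5
      have f12 : (q1 : ℤ) ^ 2 - 4 * d = -((q2 : ℤ) ^ 2 - 4 * d) :=
        e12.resolve_left (fun h => h12 (hsq _ _ h))
      have f13 : (q1 : ℤ) ^ 2 - 4 * d = -((q3 : ℤ) ^ 2 - 4 * d) :=
        e13.resolve_left (fun h => h13 (hsq _ _ h))
      exact h23 (hsq _ _ (by linarith))
    have h2 : (QQ.image (fun q => (a q, b q))).card ≤ (QQ.image a).card * (QQ.image b).card := by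
      rw [← Finset.card_product]
      apply Finset.card_le_card
      intro v hv
      rw [mem_image] at hv
      obtain ⟨q, hq, rfl⟩ := hv
      rw [mem_product]
      exact ⟨mem_image_of_mem _ hq, mem_image_of_mem _ hq⟩
    have h3 : (QQ.card : ℝ) ≤ 2 * (((QQ.image a).card : ℝ) * (QQ.image b).card) := by
      exact_mod_cast h1.trans (Nat.mul_le_mul_left 2 h2)
    refine hQQcard.trans (h3.trans ?_)
    apply mul_le_mul_of_nonneg_left _ (by norm_num)
    exact mul_le_mul_of_nonneg_left hF (Nat.cast_nonneg _)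

end Pool.Agent.Lib.MP_695920_nt
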