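import Mathlib
import Pool.Agent.Lib.MP_695920_nt.ResolventB

set_option autoImplicit false

open Finset NumberField Module IsDedekindDomain
open scoped nonZeroDivisors

namespace Pool.Agent.Lib.MP_695920_nt

lemma half_le_floor {t : ℝ} (ht : 1 ≤ t) : t / 2 ≤ (⌊t⌋₊ : ℝ) := by
  have h1 : t < (⌊t⌋₊ : ℝ) + 1 := Nat.lt_floor_add_one t
  have h2 : (1 : ℝ) ≤ (⌊t⌋₊ : ℝ) := by
    have : 1 ≤ ⌊t⌋₊ := Nat.le_floor (by exact_mod_cast ht)
    exact_mod_cast this
  linarith

theorem odd_count {d : ℤ} (hd : ¬ IsSquare d) (X : ℝ) (hX : Real.exp 60 * |(d : ℝ)| ≤ X) (m0 : ℕ)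
    (hm0 : m0 ≠ 0) (Tw : ℕ → Prop)
    (hTw : ∀ p : ℕ, p.Prime → p ≠ 2 → ¬ p ∣ m0 → ¬ Spl d p → Tw p) :
    ∃ G : Finset ℕ, (∀ m ∈ G, m ≠ 0 ∧ (m : ℝ) ≤ X ∧ ∀ p : ℕ, p.Prime → p ∣ m → Tw p) ∧
      Real.exp (-8) / 4 * (X / |(d : ℝ)|) ^ ((1 : ℝ) / 8) ≤
        (G.card + (1 + 2 * Real.log m0)) * Real.log X := by
  classical
  have hd0 : d ≠ 0 := by
    rintro rfl
    exact hd ⟨0, by simp⟩
  have hd1 : (1 : ℝ) ≤ |(d : ℝ)| := by
    have : (1 : ℤ) ≤ |d| := Int.one_le_abs hd0
    exact_mod_cast this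
  have hX60 : Real.exp 60 ≤ X := by
    have := mul_le_mul_of_nonneg_left hd1 (Real.exp_pos 60).le
    linarith
  have hX0 : 0 < X := lt_of_lt_of_le (Real.exp_pos _) hX60
  have hlogX : 60 ≤ Real.log X := by
    rw [Real.le_log_iff_exp_le hX0]; exact hX60
  set D : ℝ := |(d : ℝ)| with hD
  have hD0 : 0 < D := by linarith
  set Z : ℝ := X / D with hZ
  have hZ0 : 0 < Z := by positivity
  have hlogZ : 60 ≤ Real.log Z := by
    rw [Real.le_log_iff_exp_le hZ0, hZ, le_div_iff₀ hD0]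
    exact hX
  -- the parameter s
  set s := Nat.sqrt d.natAbs + 1 with hs
  have hs1 : 1 ≤ s := by omega
  have hsd : |d| ≤ (s : ℤ) ^ 2 := by
    have h1 := Nat.lt_succ_sqrt d.natAbs
    have h2 : d.natAbs ≤ s ^ 2 := by
      rw [sq, hs]
      exact h1.le
    have h3 : (d.natAbs : ℤ) ≤ ((s ^ 2 : ℕ) : ℤ) := by exact_mod_cast h2
    rw [Int.natCast_natAbs] at h3
    push_cast at h3
    exact h3
  have hsD : (s : ℝ) ≤ 2 * D := by
    have h1 : Nat.sqrt d.natAbs ≤ d.natAbs := Nat.sqrt_le_self _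
    have h2 : (Nat.sqrt d.natAbs : ℝ) ≤ (d.natAbs : ℝ) := by exact_mod_cast h1
    have h3 : (d.natAbs : ℝ) = D := by
      rw [Nat.cast_natAbs, hD]
      push_cast
      rfl
    rw [h3] at h2
    have h4 : (s : ℝ) = (Nat.sqrt d.natAbs : ℝ) + 1 := by rw [hs]; push_cast; rfl
    rw [h4]
    linarith
  have hs0 : (0 : ℝ) < s := by exact_mod_cast hs1
  -- the parameter B
  set B := ⌊Real.sqrt (X / s)⌋₊ with hB
  have hXs : Z / 2 ≤ X / s := by
    rw [hZ, div_div, div_le_div_iff₀ (by positivity) hs0]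
    have := mul_le_mul_of_nonneg_left hsD hX0.le
    linarith
  have hsq : Real.exp (Real.log Z / 2 - 1 / 2) ≤ Real.sqrt (X / s) := by
    apply Real.le_sqrt_of_sq_le
    rw [← Real.exp_nat_mul]
    refine le_trans ?_ hXs
    have h1 : ((2 : ℕ) : ℝ) * (Real.log Z / 2 - 1 / 2) = Real.log Z - 1 := by push_cast; ring
    rw [h1, Real.exp_sub, Real.exp_log hZ0]
    apply div_le_div_of_nonneg_left hZ0.le (by norm_num)
    have := Real.add_one_le_exp (1 : ℝ)
    linarith
  have hsq1 : 1 ≤ Real.sqrt (X / s) := by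
    refine le_trans ?_ hsq
    apply Real.one_le_exp
    linarith
  have hBlow := half_le_floor hsq1
  rw [← hB] at hBlow
  have hB1 : 1 ≤ B := Nat.le_floor (by exact_mod_cast hsq1)
  have hB0 : (0 : ℝ) < B := by exact_mod_cast hB1
  have hlogB : Real.log Z / 2 - 3 / 2 ≤ Real.log B := by
    rw [Real.le_log_iff_exp_le hB0]
    refine le_trans ?_ hBlow
    have h1 : Real.exp (Real.log Z / 2 - 3 / 2) = Real.exp (Real.log Z / 2 - 1 / 2) * Real.exp (-1) := by
      rw [← Real.exp_add]; congr 1; ring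
    have h2 : Real.exp (-1) ≤ 1 / 2 := by
      rw [Real.exp_neg, one_div]
      apply inv_anti₀ (by norm_num)
      have := Real.add_one_le_exp (1 : ℝ)
      linarith
    rw [h1]
    calc Real.exp (Real.log Z / 2 - 1 / 2) * Real.exp (-1) ≤
        Real.exp (Real.log Z / 2 - 1 / 2) * (1 / 2) :=
          mul_le_mul_of_nonneg_left h2 (Real.exp_pos _).le
      _ ≤ Real.sqrt (X / s) * (1 / 2) := mul_le_mul_of_nonneg_right hsq (by norm_num)
      _ = _ := by ring
  have hsB : ((s * B ^ 2 : ℕ) : ℝ) ≤ X := by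
    push_cast
    have h1 : (B : ℝ) ≤ Real.sqrt (X / s) := Nat.floor_le (Real.sqrt_nonneg _)
    have h2 : (B : ℝ) ^ 2 ≤ X / s := by
      calc (B : ℝ) ^ 2 ≤ Real.sqrt (X / s) ^ 2 := pow_le_pow_left₀ hB0.le h1 2
        _ = X / s := Real.sq_sqrt (by positivity)
    calc (s : ℝ) * (B : ℝ) ^ 2 ≤ s * (X / s) := mul_le_mul_of_nonneg_left h2 hs0.le
      _ = X := by field_simp
  -- the parameter K
  set K := ⌊Real.exp (Real.log B / 4 - 7)⌋₊ with hK
  have hexp1 : 1 ≤ Real.exp (Real.log B / 4 - 7) := by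
    apply Real.one_le_exp
    linarith
  have hKlow := half_le_floor hexp1
  rw [← hK] at hKlow
  have hK1 : 1 ≤ K := Nat.le_floor (by exact_mod_cast hexp1)
  have hK0 : (0 : ℝ) < K := by exact_mod_cast hK1
  have hlogK : Real.log K + 7 ≤ Real.log B / 4 := by
    have h1 : (K : ℝ) ≤ Real.exp (Real.log B / 4 - 7) := Nat.floor_le (Real.exp_pos _).le
    have h2 := Real.log_le_log hK0 h1
    rw [Real.log_exp] at h2
    linarith
  have hcount := nonres_count d hd s B K hsd hs1 hB1 hK1 hlogK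
  set PP := (Icc 0 (s * B ^ 2)).filter Nat.Prime with hPP
  set NN := PP.filter (fun p => ¬ Spl d p) with hNN
  set GG := NN.filter (fun p => ¬ p ∣ 2 * m0) with hGG
  refine ⟨GG, ?_, ?_⟩
  · intro m hm
    rw [hGG, mem_filter, hNN, mem_filter, hPP, mem_filter, mem_Icc] at hm
    obtain ⟨⟨⟨⟨_, h1⟩, h2⟩, h3⟩, h4⟩ := hm
    refine ⟨h2.ne_zero, le_trans (by exact_mod_cast h1) hsB, ?_⟩
    intro p hp hpm
    have hpe : p = m := (Nat.prime_dvd_prime_iff_eq hp h2).mp hpm
    subst hpe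
    apply hTw p hp _ _ h3
    · rintro rfl
      exact h4 (dvd_mul_right 2 m0)
    · intro h
      exact h4 (Dvd.dvd.mul_left h 2)
  · have hbad : ((NN.filter (fun p => p ∣ 2 * m0)).card : ℝ) ≤ 1 + 2 * Real.log m0 := by
      have h1 := card_primes_dvd_le (m := m0) hm0 ((NN.filter (fun p => p ∣ 2 * m0)).filter
        (fun p => p ∣ m0)) (by
        intro p hp
        rw [mem_filter, mem_filter, hNN, mem_filter, hPP, mem_filter] at hp
        exact ⟨hp.1.1.1.2, hp.2⟩)
      have h2 : (NN.filter (fun p => p ∣ 2 * m0)).card ≤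
          ((NN.filter (fun p => p ∣ 2 * m0)).filter (fun p => p ∣ m0)).card + 1 := by
        have h3 : NN.filter (fun p => p ∣ 2 * m0) ⊆
            insert 2 ((NN.filter (fun p => p ∣ 2 * m0)).filter (fun p => p ∣ m0)) := by
          intro p hp
          rw [mem_insert, mem_filter]
          have hpp : p.Prime := by
            rw [mem_filter, hNN, mem_filter, hPP, mem_filter] at hp
            exact hp.1.1.2
          have hpd := (mem_filter.mp hp).2
          rcases hpp.dvd_mul.mp hpd with h | h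
          · left
            exact (Nat.prime_dvd_prime_iff_eq hpp Nat.prime_two).mp h
          · right
            exact ⟨hp, h⟩
        exact (Finset.card_le_card h3).trans (Finset.card_insert_le _ _)
      have h4 : ((NN.filter (fun p => p ∣ 2 * m0)).card : ℝ) ≤
          ((NN.filter (fun p => p ∣ 2 * m0)).filter (fun p => p ∣ m0)).card + 1 := by
        exact_mod_cast h2
      linarith
    have hsplit : (NN.card : ℝ) ≤ GG.card + (1 + 2 * Real.log m0) := by
      have h1 : (NN.card : ℝ) = ((NN.filter (fun p => p ∣ 2 * m0)).card : ℝ) + GG.card := by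
        rw [hGG]
        exact_mod_cast (Finset.card_filter_add_card_filter_not (fun p => p ∣ 2 * m0)).symm
      linarith
    have hlogsB : Real.log ((s * B ^ 2 : ℕ) : ℝ) ≤ Real.log X := by
      apply Real.log_le_log _ hsB
      have : 0 < s * B ^ 2 := Nat.mul_pos hs1 (pow_pos hB1 2)
      exact_mod_cast this
    have hlogsB0 : 0 ≤ Real.log ((s * B ^ 2 : ℕ) : ℝ) := Real.log_natCast_nonneg _
    have hZ8 : Real.exp (-8) * Z ^ ((1 : ℝ) / 8) ≤ Real.exp (Real.log B / 4 - 7) := by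
      rw [Real.rpow_def_of_pos hZ0, ← Real.exp_add, Real.exp_le_exp]
      linarith
    calc Real.exp (-8) / 4 * Z ^ ((1 : ℝ) / 8) = (Real.exp (-8) * Z ^ ((1 : ℝ) / 8)) / 2 / 2 := by ring
      _ ≤ Real.exp (Real.log B / 4 - 7) / 2 / 2 := by linarith
      _ ≤ (K : ℝ) / 2 := by linarith
      _ ≤ NN.card * Real.log ((s * B ^ 2 : ℕ) : ℝ) := hcount
      _ ≤ (GG.card + (1 + 2 * Real.log m0)) * Real.log X := by
          apply mul_le_mul hsplit hlogsB hlogsB0
          have : 0 ≤ Real.log m0 := Real.log_natCast_nonneg _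
          positivity

end Pool.Agent.Lib.MP_695920_nt
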