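import Mathlib
import Pool.Agent.Lib.MP_695920_nt.ResolventC

set_option autoImplicit false

open Finset NumberField Module IsDedekindDomain
open scoped nonZeroDivisors

namespace Pool.Agent.Lib.MP_695920_nt

lemma log_pow_le (m : ℕ) (η D : ℝ) (hη : 0 < η) (hD : 1 ≤ D) :
    Real.log D ^ m ≤ ((m.factorial : ℝ) / η ^ m) * D ^ η := by
  have hD0 : 0 < D := by linarith
  have hL : 0 ≤ Real.log D := Real.log_nonneg hD
  have h1 := Real.pow_div_factorial_le_exp (η * Real.log D) (by positivity) m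
  have h2 : D ^ η = Real.exp (η * Real.log D) := by
    rw [Real.rpow_def_of_pos hD0, mul_comm]
  rw [h2]
  have hf : (0 : ℝ) < m.factorial := by exact_mod_cast m.factorial_pos
  rw [div_le_iff₀ hf, mul_pow] at h1
  have hηm : 0 < η ^ m := by positivity
  rw [div_mul_eq_mul_div, le_div_iff₀ hηm]
  calc Real.log D ^ m * η ^ m = η ^ m * Real.log D ^ m := by ring
    _ ≤ Real.exp (η * Real.log D) * m.factorial := h1
    _ = _ := by ring

theorem resolvent_bound (N l : ℕ) (hl : 0 < l) (ε : ℝ) (hε : 0 < ε) :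
    ∃ C : ℝ, ∀ (L M : Type) [Field L] [NumberField L] [Field M] [NumberField M] [Algebra L M],
      finrank ℚ M = N → 1 < finrank ℚ L → ∀ T : ℝ, 0 < T →
      (∀ F : IntermediateField ℚ L, F ≠ ⊥ → T ≤ |(discr F : ℝ)|) →
      ∀ d f : ℤ, discr L = d * f ^ 2 → (Even (finrank ℚ L) ∨ ¬ IsSquare d) →
      (Nat.card {x : ClassGroup (𝓞 M) // x ^ l = 1} : ℝ) ≤
        C * (Real.sqrt |(discr M : ℝ)| * |(discr M : ℝ)| ^ ε) *
        Real.exp ((Real.log |(d : ℝ)| - Real.log T / (l * N * (finrank ℚ L - 1))) / 8) := by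
  classical
  set K1 : ℝ := (1 - (2 : ℝ) ^ (-(ε / 4)))⁻¹ with hK1
  have h2e : (2 : ℝ) ^ (-(ε / 4)) < 1 :=
    Real.rpow_lt_one_of_one_lt_of_neg (by norm_num) (by linarith)
  have h2e0 : (0 : ℝ) < (2 : ℝ) ^ (-(ε / 4)) := by positivity
  have hK11 : 1 ≤ K1 := by
    rw [hK1, one_le_inv₀ (by linarith)]
    linarith
  obtain ⟨CO, hCO0, hCO⟩ := pow_omega_le K1 hK11 (ε / 4) (by linarith)
  set CL : ℝ := ((N + 2).factorial : ℝ) / (ε / 2) ^ (N + 2) with hCL
  have hCL0 : 0 < CL := by
    have : (0 : ℝ) < ((N + 2).factorial : ℝ) := by exact_mod_cast (N + 2).factorial_pos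
    positivity
  refine ⟨Bn N * CL * (Real.exp ((60 + 2 * N) / 8) + 16 * Real.exp 8 * Real.exp (N / 4) +
    12 * Real.exp (N / 4) * CO), ?_⟩
  intro L M _ _ _ _ _ hNN hn T hT0 hT d f hdf hcase
  set n := finrank ℚ L with hnn
  have hnN : n ≤ N := by
    have h3 := finrank_mul_finrank ℚ L M
    rw [hnn, ← hNN, ← h3]
    exact Nat.le_mul_of_pos_right _ finrank_pos
  have hM : 1 < finrank ℚ M := by omega
  have hD3 := three_le_discr hM
  set D : ℝ := |(discr M : ℝ)| with hD
  have hD0 : 0 < D := by linarith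
  have hlogD : 1 ≤ Real.log D := by
    rw [Real.le_log_iff_exp_le (by linarith)]
    linarith [Real.exp_one_lt_d9]
  set LD := Real.log D with hLD
  have htriv := triv_bound (M := M) hl hM
  rw [hNN, ← hD, ← hLD] at htriv
  set Cl : ℝ := (Nat.card {x : ClassGroup (𝓞 M) // x ^ l = 1} : ℝ) with hCl
  have hCl0 : 0 ≤ Cl := Nat.cast_nonneg _
  set S := Real.sqrt D with hS
  have hS0 : 0 ≤ S := Real.sqrt_nonneg _
  have hBn : 0 < Bn N := Bn_pos N (by omega)
  have hnr : (2 : ℝ) ≤ n := by exact_mod_cast hn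
  have hNr : (n : ℝ) ≤ N := by exact_mod_cast hnN
  have hlr : (1 : ℝ) ≤ l := by exact_mod_cast hl
  set k : ℝ := l * N * (n - 1) with hk
  have hk1 : (N : ℝ) ≤ k := by
    rw [hk]
    have : (1 : ℝ) ≤ l * (n - 1) := by nlinarith only [hlr, hnr]
    nlinarith only [this, hNr, hnr]
  have hk0 : 0 < k := by linarith
  -- the discriminants
  have hTL : T ≤ |(discr L : ℝ)| := by
    have h1 := hT ⊤ (by
      intro h
      have h2 : finrank ℚ L = 1 := by
        rw [← IntermediateField.finrank_top' (F := ℚ) (E := L), h, IntermediateField.finrank_bot]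
      omega)
    rwa [discr_eq_discr_of_algEquiv _ (IntermediateField.topEquiv (F := ℚ) (E := L))] at h1
  have hLM : |(discr L : ℝ)| ≤ D := by
    have h1 : (discr L).natAbs ≤ (discr M).natAbs :=
      Nat.le_of_dvd (Int.natAbs_pos.mpr (discr_ne_zero M))
        (Int.natAbs_dvd_natAbs.mpr (discr_dvd_discr L M))
    have h2 : (((discr L).natAbs : ℕ) : ℝ) ≤ (((discr M).natAbs : ℕ) : ℝ) := by exact_mod_cast h1
    rwa [Nat.cast_natAbs, Nat.cast_natAbs, Int.cast_abs, Int.cast_abs] at h2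
  have hL0 : (0 : ℝ) < |(discr L : ℝ)| := abs_pos.mpr (by exact_mod_cast discr_ne_zero L)
  have hlogT : Real.log T ≤ LD := Real.log_le_log hT0 (hTL.trans hLM)
  have hlogL : Real.log |(discr L : ℝ)| ≤ LD := Real.log_le_log hL0 hLM
  set x0 : ℝ := (Real.log T - 2 * l * (N : ℝ) ^ 2) / k with hx0
  have hx0k : k * x0 + 2 * l * (N : ℝ) ^ 2 = Real.log T := by
    rw [hx0, mul_div_cancel₀ _ hk0.ne']
    ring
  have hET : Real.log T / k ≤ x0 + 2 * N := by
    rw [← hx0k, add_div, mul_div_cancel_left₀ _ hk0.ne']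
    have h1 : 2 * (l : ℝ) * (N : ℝ) ^ 2 / k ≤ 2 * N := by
      rw [div_le_iff₀ hk0, hk]
      have h2 : 0 ≤ 2 * (l : ℝ) * (N : ℝ) ^ 2 := by positivity
      nlinarith only [h2, hnr]
    linarith
  have hd0 : d ≠ 0 := by
    rintro rfl
    rw [zero_mul] at hdf
    exact discr_ne_zero L hdf
  have hd1 : (1 : ℝ) ≤ |(d : ℝ)| := by
    have : (1 : ℤ) ≤ |d| := Int.one_le_abs hd0
    exact_mod_cast this
  set dd : ℝ := |(d : ℝ)| with hdd
  have hdd0 : 0 < dd := by linarith
  have hlogdd : 0 ≤ Real.log dd := Real.log_nonneg hd1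
  set W : ℝ := Real.exp ((Real.log dd - Real.log T / k) / 8) with hW
  have hW0 : 0 < W := Real.exp_pos _
  have hLDN : LD ^ (N + 2) ≤ CL * D ^ (ε / 2) := log_pow_le (N + 2) (ε / 2) D (by linarith) (by linarith)
  have hDe : D ^ (ε / 2) ≤ D ^ ε := Real.rpow_le_rpow_of_exponent_le (by linarith) (by linarith)
  have hDe2 : D ^ (ε / 2) * D ^ (ε / 2) = D ^ ε := by
    rw [← Real.rpow_add hD0]; congr 1; ring
  have hDh1 : 1 ≤ D ^ (ε / 2) := Real.one_le_rpow (by linarith) (by linarith)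
  have hDepos : 0 < D ^ ε := by positivity
  set BB : ℝ := Bn N * S * LD ^ N with hBB
  have hBB0 : 0 ≤ BB := by positivity
  -- the constant is monotone
  have hconst : ∀ c P : ℝ, 0 ≤ c → c ≤ Real.exp ((60 + 2 * N) / 8) + 16 * Real.exp 8 * Real.exp (N / 4) +
      12 * Real.exp (N / 4) * CO → P ≤ CL * D ^ ε → 0 ≤ P →
      Bn N * S * P * c * W ≤ Bn N * CL * (Real.exp ((60 + 2 * N) / 8) +
        16 * Real.exp 8 * Real.exp (N / 4) + 12 * Real.exp (N / 4) * CO) * (S * D ^ ε) * W := by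
    intro c P hc0 hc hP hP0
    have h1 : Bn N * S * P * c ≤ Bn N * S * (CL * D ^ ε) * (Real.exp ((60 + 2 * N) / 8) +
        16 * Real.exp 8 * Real.exp (N / 4) + 12 * Real.exp (N / 4) * CO) := by
      apply mul_le_mul _ hc hc0 (by positivity)
      exact mul_le_mul_of_nonneg_left hP (by positivity)
    calc Bn N * S * P * c * W ≤ (Bn N * S * (CL * D ^ ε) * (Real.exp ((60 + 2 * N) / 8) +
        16 * Real.exp 8 * Real.exp (N / 4) + 12 * Real.exp (N / 4) * CO)) * W :=
          mul_le_mul_of_nonneg_right h1 hW0.le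
      _ = _ := by ring
  have he1 : 0 < Real.exp ((60 + 2 * N) / 8 : ℝ) := Real.exp_pos _
  have he2 : 0 < 16 * Real.exp 8 * Real.exp (N / 4 : ℝ) := by positivity
  have he3 : 0 < 12 * Real.exp (N / 4 : ℝ) * CO := by positivity
  rcases lt_or_ge x0 (60 + Real.log dd) with hsmall | hbig
  · have h1 : 1 ≤ Real.exp ((60 + 2 * N) / 8) * W := by
      rw [hW, ← Real.exp_add]
      apply Real.one_le_exp
      linarith
    have h2 : LD ^ N ≤ CL * D ^ ε := by
      have h3 : LD ^ N ≤ LD ^ (N + 2) := pow_le_pow_right₀ hlogD (by omega)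
      have h4 : CL * D ^ (ε / 2) ≤ CL * D ^ ε := mul_le_mul_of_nonneg_left hDe hCL0.le
      linarith
    calc Cl ≤ Bn N * S * LD ^ N := htriv
      _ = Bn N * S * LD ^ N * 1 := by ring
      _ ≤ Bn N * S * LD ^ N * (Real.exp ((60 + 2 * N) / 8) * W) :=
          mul_le_mul_of_nonneg_left h1 (by positivity)
      _ = Bn N * S * LD ^ N * Real.exp ((60 + 2 * N) / 8) * W := by ring
      _ ≤ _ := hconst _ _ he1.le (by linarith) h2 (by positivity)
  · set X : ℝ := Real.exp x0 with hX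
    have hX0 : 0 < X := Real.exp_pos _
    have hlogX : Real.log X = x0 := Real.log_exp x0
    have hXd : Real.exp 60 * dd ≤ X := by
      have h1 : Real.exp (60 + Real.log dd) ≤ X := Real.exp_le_exp.mpr hbig
      rwa [Real.exp_add, Real.exp_log hdd0] at h1
    have hx060 : 60 ≤ x0 := by linarith
    have hX1 : 1 ≤ X := Real.one_le_exp (by linarith)
    have hx0LD : x0 ≤ LD := by
      have h3 : x0 ≤ k * x0 := by nlinarith only [hk1, hnr, hNr, hx060]
      have h4 : 0 ≤ 2 * (l : ℝ) * (N : ℝ) ^ 2 := by positivity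
      linarith
    have hXD : X ≤ D := by
      rw [hX, ← Real.exp_log hD0]
      exact Real.exp_le_exp.mpr hx0LD
    have hZW : 1 ≤ (X / dd) ^ ((1 : ℝ) / 8) * (Real.exp (N / 4) * W) := by
      rw [Real.rpow_def_of_pos (by positivity), Real.log_div hX0.ne' hdd0.ne', hlogX, hW,
        ← Real.exp_add, ← Real.exp_add]
      apply Real.one_le_exp
      linarith
    set m0 := (discr L).natAbs with hm0
    have hm00 : m0 ≠ 0 := Int.natAbs_ne_zero.mpr (discr_ne_zero L)
    have hm0r : (m0 : ℝ) = |(discr L : ℝ)| := by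
      rw [hm0, Nat.cast_natAbs, Int.cast_abs]
    -- the application of the key inequality
    have hkey : ∀ G : Finset ℕ, (∀ m ∈ G, m ≠ 0 ∧ (m : ℝ) ≤ X ∧ ∀ p : ℕ, p.Prime → p ∣ m → Two L p) →
        (G.card : ℝ) * Cl ≤ BB := by
      intro G hG
      have h1 := keyG (L := L) (M := M) hl hn T hT0 hT G X hX1 hG (by
        rw [← hnn, hNN, hlogX, ← hk, hx0k])
      rw [hNN, ← hD, ← hLD, ← hCl, ← hS] at h1
      exact h1
    rcases Nat.even_or_odd n with heven | hodd
    · -- even degree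
      obtain ⟨G, hG, hGc⟩ := even_count hd0 X hXd m0 hm00 (Two L)
        (fun p hp hp2 hpm ⟨ρ, hρ⟩ => two_even hdf heven hp hp2 hpm hρ) (ε / 4) (by linarith)
      have h1 := hkey G hG
      rw [← hK1, hlogX] at hGc
      have h2 : X ^ (ε / 4) * K1 ^ m0.primeFactors.card ≤ CO * D ^ (ε / 2) := by
        have e1 : X ^ (ε / 4) ≤ D ^ (ε / 4) := Real.rpow_le_rpow hX0.le hXD (by linarith)
        have e2 : K1 ^ m0.primeFactors.card ≤ CO * D ^ (ε / 4) := by
          refine (hCO m0 hm00).trans ?_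
          apply mul_le_mul_of_nonneg_left _ hCO0.le
          apply Real.rpow_le_rpow (Nat.cast_nonneg _) _ (by linarith)
          rw [hm0r]; exact hLM
        calc X ^ (ε / 4) * K1 ^ m0.primeFactors.card ≤ D ^ (ε / 4) * (CO * D ^ (ε / 4)) :=
              mul_le_mul e1 e2 (by positivity) (by positivity)
          _ = CO * (D ^ (ε / 4) * D ^ (ε / 4)) := by ring
          _ = CO * D ^ (ε / 2) := by
              rw [← Real.rpow_add hD0]; congr 2; ring
      have h3 : Real.sqrt X / (6 * x0) * Cl ≤ 2 * (BB * (CO * D ^ (ε / 2))) := by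
        calc Real.sqrt X / (6 * x0) * Cl ≤
            (2 * (G.card * (X ^ (ε / 4) * K1 ^ m0.primeFactors.card))) * Cl :=
              mul_le_mul_of_nonneg_right hGc hCl0
          _ = 2 * ((G.card * Cl) * (X ^ (ε / 4) * K1 ^ m0.primeFactors.card)) := by ring
          _ ≤ 2 * (BB * (CO * D ^ (ε / 2))) := by
              apply mul_le_mul_of_nonneg_left _ (by norm_num)
              exact mul_le_mul h1 h2 (by positivity) hBB0
      have h4 : (X / dd) ^ ((1 : ℝ) / 8) ≤ Real.sqrt X := by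
        rw [Real.sqrt_eq_rpow]
        have e1 : X / dd ≤ X := div_le_self hX0.le hd1
        calc (X / dd) ^ ((1 : ℝ) / 8) ≤ X ^ ((1 : ℝ) / 8) :=
              Real.rpow_le_rpow (by positivity) e1 (by norm_num)
          _ ≤ X ^ ((1 : ℝ) / 2) := Real.rpow_le_rpow_of_exponent_le hX1 (by norm_num)
      have h5 : Cl ≤ Real.sqrt X * (Real.exp (N / 4) * W) * Cl := by
        have e1 : 1 ≤ Real.sqrt X * (Real.exp (N / 4) * W) :=
          hZW.trans (mul_le_mul_of_nonneg_right h4 (by positivity))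
        nlinarith only [e1, hCl0]
      have h6 : Real.sqrt X * Cl ≤ 12 * LD * (BB * (CO * D ^ (ε / 2))) := by
        have e1 : Real.sqrt X * Cl = (6 * x0) * (Real.sqrt X / (6 * x0) * Cl) := by
          have : x0 ≠ 0 := by linarith
          field_simp
        rw [e1]
        calc (6 * x0) * (Real.sqrt X / (6 * x0) * Cl) ≤ (6 * x0) * (2 * (BB * (CO * D ^ (ε / 2)))) :=
              mul_le_mul_of_nonneg_left h3 (by linarith)
          _ ≤ (6 * LD) * (2 * (BB * (CO * D ^ (ε / 2)))) := by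
              apply mul_le_mul_of_nonneg_right (by linarith) (by positivity)
          _ = _ := by ring
      have h7 : LD ^ (N + 1) * D ^ (ε / 2) ≤ CL * D ^ ε := by
        have e1 : LD ^ (N + 1) ≤ LD ^ (N + 2) := pow_le_pow_right₀ hlogD (by omega)
        calc LD ^ (N + 1) * D ^ (ε / 2) ≤ (CL * D ^ (ε / 2)) * D ^ (ε / 2) :=
              mul_le_mul_of_nonneg_right (e1.trans hLDN) (by positivity)
          _ = CL * (D ^ (ε / 2) * D ^ (ε / 2)) := by ring
          _ = _ := by rw [hDe2]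
      calc Cl ≤ Real.sqrt X * (Real.exp (N / 4) * W) * Cl := h5
        _ = (Real.sqrt X * Cl) * (Real.exp (N / 4) * W) := by ring
        _ ≤ (12 * LD * (BB * (CO * D ^ (ε / 2)))) * (Real.exp (N / 4) * W) :=
            mul_le_mul_of_nonneg_right h6 (by positivity)
        _ = Bn N * S * (LD ^ (N + 1) * D ^ (ε / 2)) * (12 * Real.exp (N / 4) * CO) * W := by
            rw [hBB]; ring
        _ ≤ _ := hconst _ _ he3.le (by linarith) h7 (by positivity)
    · -- odd degree
      have hdsq : ¬ IsSquare d := by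
        rcases hcase with h | h
        · exact absurd hodd (Nat.not_odd_iff_even.mpr h)
        · exact h
      obtain ⟨G, hG, hGc⟩ := odd_count hdsq X hXd m0 hm00 (Two L)
        (fun p hp hp2 hpm hs => two_odd hdf hodd hp hp2 hpm hs)
      have h1 := hkey G hG
      rw [hlogX, hm0r] at hGc
      have h2 : ((G.card : ℝ) + (1 + 2 * Real.log |(discr L : ℝ)|)) * Cl ≤ 4 * LD * BB := by
        have e1 : (1 + 2 * Real.log |(discr L : ℝ)|) * Cl ≤ (1 + 2 * LD) * BB := by
          apply mul_le_mul (by linarith) htriv hCl0 (by positivity)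
        nlinarith only [h1, e1, hlogD, hBB0, mul_nonneg (sub_nonneg.mpr hlogD) hBB0]
      have hnn1 : 0 ≤ ((G.card : ℝ) + (1 + 2 * Real.log |(discr L : ℝ)|)) * Cl := by
        have : 0 ≤ Real.log |(discr L : ℝ)| := by
          apply Real.log_nonneg
          rw [← hm0r]
          exact_mod_cast Nat.pos_of_ne_zero hm00
        positivity
      have h3 : Real.exp (-8) / 4 * (X / dd) ^ ((1 : ℝ) / 8) * Cl ≤ 4 * LD ^ 2 * BB := by
        calc Real.exp (-8) / 4 * (X / dd) ^ ((1 : ℝ) / 8) * Cl ≤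
            (((G.card : ℝ) + (1 + 2 * Real.log |(discr L : ℝ)|)) * x0) * Cl :=
              mul_le_mul_of_nonneg_right hGc hCl0
          _ = (((G.card : ℝ) + (1 + 2 * Real.log |(discr L : ℝ)|)) * Cl) * x0 := by ring
          _ ≤ (4 * LD * BB) * LD := mul_le_mul h2 hx0LD (by linarith) (by positivity)
          _ = _ := by ring
      have h5 : Cl ≤ (X / dd) ^ ((1 : ℝ) / 8) * (Real.exp (N / 4) * W) * Cl := by
        nlinarith only [hZW, hCl0]
      have h6 : (X / dd) ^ ((1 : ℝ) / 8) * Cl ≤ 16 * Real.exp 8 * LD ^ 2 * BB := by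
        have e0 : Real.exp 8 * Real.exp (-8) = 1 := by
          rw [← Real.exp_add]; norm_num
        have e1 : (X / dd) ^ ((1 : ℝ) / 8) * Cl =
            4 * Real.exp 8 * (Real.exp (-8) / 4 * (X / dd) ^ ((1 : ℝ) / 8) * Cl) := by
          calc (X / dd) ^ ((1 : ℝ) / 8) * Cl = (Real.exp 8 * Real.exp (-8)) *
                ((X / dd) ^ ((1 : ℝ) / 8) * Cl) := by rw [e0, one_mul]
            _ = _ := by ring
        rw [e1]
        calc 4 * Real.exp 8 * (Real.exp (-8) / 4 * (X / dd) ^ ((1 : ℝ) / 8) * Cl) ≤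
            4 * Real.exp 8 * (4 * LD ^ 2 * BB) := mul_le_mul_of_nonneg_left h3 (by positivity)
          _ = _ := by ring
      have h7 : LD ^ (N + 2) ≤ CL * D ^ ε := hLDN.trans (mul_le_mul_of_nonneg_left hDe hCL0.le)
      calc Cl ≤ (X / dd) ^ ((1 : ℝ) / 8) * (Real.exp (N / 4) * W) * Cl := h5
        _ = ((X / dd) ^ ((1 : ℝ) / 8) * Cl) * (Real.exp (N / 4) * W) := by ring
        _ ≤ (16 * Real.exp 8 * LD ^ 2 * BB) * (Real.exp (N / 4) * W) :=
            mul_le_mul_of_nonneg_right h6 (by positivity)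
        _ = Bn N * S * LD ^ (N + 2) * (16 * Real.exp 8 * Real.exp (N / 4)) * W := by
            rw [hBB]; ring
        _ ≤ _ := hconst _ _ he2.le (by linarith) h7 (by positivity)

end Pool.Agent.Lib.MP_695920_nt
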