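import Mathlib
import Pool.Agent.Lib.MP_695920_nt.SparseB
import Pool.Agent.Lib.MP_695920_nt.ResolventD

/-!
# Power saving outside a sparse set of quadratic resolvents
-/

set_option autoImplicit false

open Finset NumberField Module IsDedekindDomain
open scoped nonZeroDivisors

namespace Pool.Agent.Lib.MP_695920_nt

/-- a good prime is not inert -/
lemma two_of_jchi {L : Type*} [Field L] [NumberField L] {d f : ℤ} (hdf : discr L = d * f ^ 2)
    {q : ℕ} (hq : q.Prime) (hq2 : q ≠ 2) (hunr : ¬ q ∣ (discr L).natAbs) (ε : ℝ)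
    (hpar : (Even (finrank ℚ L) ∧ ε = -1) ∨ (Odd (finrank ℚ L) ∧ ε = 1))
    (hj : jchi d q ≠ ε) : Two L q := by
  have hfact : Fact q.Prime := ⟨hq⟩
  have hodd := hq.odd_of_ne_two hq2
  have hqd : ¬ (q : ℤ) ∣ d := by
    intro h
    apply hunr
    apply Int.natCast_dvd.mp
    rw [hdf]
    exact Dvd.dvd.mul_right h _
  have hd0 : ((d : ℤ) : ZMod q) ≠ 0 := by
    intro h
    exact hqd ((ZMod.intCast_zmod_eq_zero_iff_dvd _ q).mp h)
  have hleg : jchi d q = (legendreSym q d : ℝ) := by
    rw [jchi_odd hodd, ← jacobiSym.legendreSym.to_jacobiSym]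
  rcases hpar with ⟨heven, rfl⟩ | ⟨hoddL, rfl⟩
  · rcases legendreSym.eq_one_or_neg_one q hd0 with h | h
    · rw [legendreSym.eq_one_iff q hd0] at h
      obtain ⟨c, hc⟩ := h
      obtain ⟨ρ, rfl⟩ := ZMod.intCast_surjective c
      refine two_even hdf heven hq hq2 hunr (ρ := ρ) ?_
      rw [← ZMod.intCast_zmod_eq_zero_iff_dvd]
      push_cast
      rw [hc]; ring
    · exfalso
      apply hj
      rw [hleg, h]; norm_num
  · refine two_odd hdf hoddL hq hq2 hunr ?_
    rintro ⟨_, _, ρ, hρ⟩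
    apply hj
    rw [hleg]
    have h : legendreSym q d = 1 := by
      rw [legendreSym.eq_one_iff q hd0]
      refine ⟨(ρ : ZMod q), ?_⟩
      rw [← ZMod.intCast_zmod_eq_zero_iff_dvd] at hρ
      push_cast at hρ
      linear_combination -hρ
    rw [h]; norm_num

lemma pow_log_scl {w : ℕ} {d : ℤ} (hd0 : d ≠ 0) :
    (scl w d : ℝ) * w * Real.log 2 ≤ Real.log |(d : ℝ)| := by
  have hn : d.natAbs ≠ 0 := Int.natAbs_ne_zero.mpr hd0
  have h1 : scl w d * w ≤ Nat.log 2 d.natAbs := Nat.div_mul_le_self _ _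
  have h2 : 2 ^ Nat.log 2 d.natAbs ≤ d.natAbs := Nat.pow_log_le_self 2 hn
  have h3 : 2 ^ (scl w d * w) ≤ d.natAbs :=
    (Nat.pow_le_pow_right (by norm_num) h1).trans h2
  have h4 : (2 : ℝ) ^ (scl w d * w) ≤ |(d : ℝ)| := by
    have h5 : ((2 ^ (scl w d * w) : ℕ) : ℝ) ≤ (d.natAbs : ℝ) := by exact_mod_cast h3
    rw [Nat.cast_natAbs] at h5
    push_cast at h5
    exact h5
  have h6 := Real.log_le_log (by positivity) h4
  rw [Real.log_pow] at h6
  push_cast at h6
  linarith

lemma log_lt_scl {w : ℕ} (hw : 1 ≤ w) {d : ℤ} (hd0 : d ≠ 0) :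
    Real.log |(d : ℝ)| ≤ ((scl w d : ℝ) + 1) * w * Real.log 2 := by
  have h1 : Nat.log 2 d.natAbs < (scl w d + 1) * w := by
    unfold scl
    exact (Nat.div_lt_iff_lt_mul (by omega)).mp (Nat.lt_succ_self _)
  have h2 : d.natAbs < 2 ^ (Nat.log 2 d.natAbs + 1) := Nat.lt_pow_succ_log_self (by norm_num) _
  have h3 : d.natAbs ≤ 2 ^ ((scl w d + 1) * w) :=
    h2.le.trans (Nat.pow_le_pow_right (by norm_num) h1)
  have h4 : |(d : ℝ)| ≤ (2 : ℝ) ^ ((scl w d + 1) * w) := by
    have h5 : (d.natAbs : ℝ) ≤ ((2 ^ ((scl w d + 1) * w) : ℕ) : ℝ) := by exact_mod_cast h3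
    rw [Nat.cast_natAbs] at h5
    push_cast at h5
    exact h5
  have hd : (0 : ℝ) < |(d : ℝ)| := abs_pos.mpr (by exact_mod_cast hd0)
  have h6 := Real.log_le_log hd h4
  rw [Real.log_pow] at h6
  push_cast at h6
  exact h6

/-- the main bound -/
theorem sparse_bound (a N l : ℕ) (ha : 1 ≤ a) (hl : 0 < l) (j0 : ℕ) (hj0 : 30 ≤ j0) (ε : ℝ)
    (hε : 0 < ε) :
    ∃ C : ℝ, ∀ (L M : Type) [Field L] [NumberField L] [Field M] [NumberField M] [Algebra L M],
      finrank ℚ M = N → 1 < finrank ℚ L →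
      (∀ F : IntermediateField ℚ L, F ≠ ⊥ → |(discr L : ℝ)| ≤ |(discr F : ℝ)| ^ a) →
      ∀ d f : ℤ, Squarefree d → (d ∉ Exc (4 * a * l * N ^ 2) j0 ∨
        Real.log |(d : ℝ)| ≤ Real.log |(discr L : ℝ)| / (2 * (a * l * N ^ 2))) →
      discr L = d * f ^ 2 → (Even (finrank ℚ L) ∨ d ≠ 1) →
      (Nat.card {x : ClassGroup (𝓞 M) // x ^ l = 1} : ℝ) ≤
        C * (Real.sqrt |(discr M : ℝ)| * |(discr M : ℝ)| ^ ε) *
        Real.exp (-(Real.log |(discr L : ℝ)| / (8 * (a * l * N ^ 2) ^ 2))) := by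
  classical
  obtain ⟨C1, hC1⟩ := resolvent_bound N l hl ε hε
  set w : ℕ := 4 * a * l * N ^ 2 with hw
  set CL : ℝ := ((N + 2).factorial : ℝ) / ε ^ (N + 2) with hCL
  have hCL0 : 0 < CL := by
    have : (0 : ℝ) < ((N + 2).factorial : ℝ) := by exact_mod_cast (N + 2).factorial_pos
    positivity
  -- threshold for log |disc L|
  set B0 : ℝ := 2 * (a * l * N ^ 2) * (w * (j0 + 1)) with hB0
  refine ⟨max C1 (Bn N * CL * (Real.exp B0 + 96)), ?_⟩
  intro L M _ _ _ _ _ hNN hn hT d f hds hdE hdf hcase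
  set n := finrank ℚ L with hnn
  have hnN : n ≤ N := by
    have h3 := finrank_mul_finrank ℚ L M
    rw [hnn, ← hNN, ← h3]
    exact Nat.le_mul_of_pos_right _ finrank_pos
  have hM : 1 < finrank ℚ M := by omega
  have hD3 := three_le_discr hM
  set D : ℝ := |(discr M : ℝ)| with hD
  have hD0 : 0 < D := by linarith
  have hD1 : 1 ≤ D := by linarith
  have hlogD : 1 ≤ Real.log D := by
    rw [Real.le_log_iff_exp_le (by linarith)]
    linarith [Real.exp_one_lt_d9]
  set LD := Real.log D with hLD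
  have htriv := triv_bound (M := M) hl hM
  rw [hNN, ← hD, ← hLD] at htriv
  set Cl : ℝ := (Nat.card {x : ClassGroup (𝓞 M) // x ^ l = 1} : ℝ) with hCl
  have hCl0 : 0 ≤ Cl := Nat.cast_nonneg _
  set S := Real.sqrt D with hS
  have hS0 : 0 ≤ S := Real.sqrt_nonneg _
  have hBn : 0 < Bn N := Bn_pos N (by omega)
  have hnr : (2 : ℝ) ≤ n := by exact_mod_cast hn
  have hNr : (n : ℝ) ≤ N := by exact_mod_cast hnN
  have hlr : (1 : ℝ) ≤ l := by exact_mod_cast hl
  have har : (1 : ℝ) ≤ a := by exact_mod_cast ha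
  have hlN : 1 ≤ N := by omega
  have hw1 : 1 ≤ w := by
    rw [hw]
    have : 0 < 4 * a * l * N ^ 2 := by positivity
    exact this
  set al : ℝ := a * l * N ^ 2 with hal
  have hwr : (w : ℝ) = 4 * al := by rw [hw, hal]; push_cast; ring
  have hal4 : 4 ≤ al := by
    have h1 : (4 : ℝ) ≤ (N : ℝ) ^ 2 := by nlinarith only [hnr, hNr]
    have h2 : (1 : ℝ) ≤ a * l := by nlinarith only [hlr, har]
    rw [hal]; nlinarith only [h1, h2]
  have hal0 : 0 < al := by linarith
  -- the discriminants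
  have hLM : |(discr L : ℝ)| ≤ D := by
    have h1 : (discr L).natAbs ≤ (discr M).natAbs :=
      Nat.le_of_dvd (Int.natAbs_pos.mpr (discr_ne_zero M))
        (Int.natAbs_dvd_natAbs.mpr (discr_dvd_discr L M))
    have h2 : (((discr L).natAbs : ℕ) : ℝ) ≤ (((discr M).natAbs : ℕ) : ℝ) := by exact_mod_cast h1
    rwa [Nat.cast_natAbs, Nat.cast_natAbs, Int.cast_abs, Int.cast_abs] at h2
  have hL0 : (0 : ℝ) < |(discr L : ℝ)| := abs_pos.mpr (by exact_mod_cast discr_ne_zero L)
  have hL1 : (1 : ℝ) ≤ |(discr L : ℝ)| := by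
    have : (1 : ℤ) ≤ |discr L| := Int.one_le_abs (discr_ne_zero L)
    exact_mod_cast this
  set DL : ℝ := |(discr L : ℝ)| with hDL
  set LL := Real.log DL with hLL
  have hLL0 : 0 ≤ LL := Real.log_nonneg hL1
  have hLLD : LL ≤ LD := Real.log_le_log hL0 hLM
  set T : ℝ := DL ^ ((1 : ℝ) / a) with hTdef
  have hT0 : 0 < T := Real.rpow_pos_of_pos hL0 _
  have hlogT : Real.log T = LL / a := by
    rw [hTdef, Real.log_rpow hL0]; ring
  have hTF : ∀ F : IntermediateField ℚ L, F ≠ ⊥ → T ≤ |(discr F : ℝ)| := by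
    intro F hF
    have h1 := hT F hF
    have hF0 : (0 : ℝ) ≤ |(discr F : ℝ)| := abs_nonneg _
    have h2 : T ≤ (|(discr F : ℝ)| ^ a) ^ ((1 : ℝ) / a) :=
      Real.rpow_le_rpow hL0.le h1 (by positivity)
    rwa [one_div, Real.pow_rpow_inv_natCast hF0 (by omega)] at h2
  have hd0 : d ≠ 0 := hds.ne_zero
  have hd1 : (1 : ℝ) ≤ |(d : ℝ)| := by
    have : (1 : ℤ) ≤ |d| := Int.one_le_abs hd0
    exact_mod_cast this
  set dd : ℝ := |(d : ℝ)| with hdd
  have hdd0 : 0 < dd := by linarith
  have hlogdd : 0 ≤ Real.log dd := Real.log_nonneg hd1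
  have hddL : dd ≤ DL := by
    have hf0 : f ≠ 0 := by
      rintro rfl
      rw [zero_pow two_ne_zero, mul_zero] at hdf
      exact discr_ne_zero L hdf
    have hf1 : (1 : ℝ) ≤ |(f : ℝ)| := by
      have : (1 : ℤ) ≤ |f| := Int.one_le_abs hf0
      exact_mod_cast this
    rw [hDL, hdf]
    push_cast
    rw [abs_mul, ← hdd, abs_pow]
    nlinarith only [one_le_pow₀ (n := 2) hf1, hdd0]
  have hlogddL : Real.log dd ≤ LL := Real.log_le_log hdd0 hddL
  set BB : ℝ := Bn N * S * LD ^ N with hBB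
  have hBB0 : 0 ≤ BB := by positivity
  have hLDN : LD ^ (N + 2) ≤ CL * D ^ ε := log_pow_le (N + 2) ε D hε hD1
  have hDe : 0 < D ^ ε := by positivity
  set W : ℝ := Real.exp (-(LL / (8 * al ^ 2))) with hW
  have hW0 : 0 < W := Real.exp_pos _
  have hSD0 : 0 ≤ S * D ^ ε := by positivity
  -- monotonicity of the constants
  have hfin : ∀ c : ℝ, c ≤ Real.exp B0 + 96 → Cl ≤ Bn N * CL * c * (S * D ^ ε) * W →
      Cl ≤ max C1 (Bn N * CL * (Real.exp B0 + 96)) * (S * D ^ ε) * W := by
    intro c hc h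
    refine h.trans ?_
    apply mul_le_mul_of_nonneg_right _ hW0.le
    apply mul_le_mul_of_nonneg_right _ hSD0
    refine le_trans ?_ (le_max_right _ _)
    exact mul_le_mul_of_nonneg_left hc (by positivity)
  have hkpos : 0 < (l : ℝ) * N * (n - 1) := by
    have : (0 : ℝ) < n - 1 := by linarith
    have : (0 : ℝ) < N := by linarith
    positivity
  have hkal : a * ((l : ℝ) * N * (n - 1)) ≤ al := by
    rw [hal]
    have : (N : ℝ) * (n - 1) ≤ (N : ℝ) ^ 2 := by nlinarith only [hnr, hNr]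
    have h2 : 0 ≤ (a : ℝ) * l := by positivity
    calc a * ((l : ℝ) * N * (n - 1)) = (a * l) * (N * (n - 1)) := by ring
      _ ≤ (a * l) * (N : ℝ) ^ 2 := mul_le_mul_of_nonneg_left this h2
      _ = _ := by ring
  rcases le_or_gt (Real.log dd) (LL / (2 * al)) with hsmall | hbig
  · -- small resolvent
    have h1 := hC1 L M hNN hn T hT0 hTF d f hdf (by
      rcases hcase with h | h
      · left; exact h
      · right
        rintro ⟨s, hs⟩
        apply h
        have hu : IsUnit s := hds s ⟨1, by rw [hs, mul_one]⟩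
        rw [hs, Int.isUnit_mul_self hu])
    rw [← hD, ← hCl, ← hS, ← hdd, ← hnn, hlogT] at h1
    have h2 : Real.exp ((Real.log dd - LL / a / (l * N * (n - 1))) / 8) ≤ W := by
      rw [hW, Real.exp_le_exp]
      have e1 : LL / al ≤ LL / a / (l * N * (n - 1)) := by
        rw [div_div]
        exact div_le_div_of_nonneg_left hLL0 (by positivity) hkal
      have e2 : LL / (8 * al ^ 2) ≤ LL / (16 * al) := by
        apply div_le_div_of_nonneg_left hLL0 (by positivity)
        nlinarith only [hal4]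
      have e3 : LL / (2 * al) - LL / al = -(LL / (2 * al)) := by field_simp; ring
      have e4 : LL / (16 * al) = LL / (2 * al) / 8 := by field_simp; ring
      linarith
    calc Cl ≤ _ := h1
      _ ≤ C1 * (S * D ^ ε) * W := by
          have hC10 : 0 ≤ C1 * (S * D ^ ε) := by
            by_contra hneg
            push Not at hneg
            have := mul_neg_of_neg_of_pos hneg
              (Real.exp_pos ((Real.log dd - LL / a / (l * N * (n - 1))) / 8))
            linarith
          exact mul_le_mul_of_nonneg_left h2 hC10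
      _ ≤ _ := by
          apply mul_le_mul_of_nonneg_right _ hW0.le
          apply mul_le_mul_of_nonneg_right (le_max_left _ _) hSD0
  rcases le_or_gt LL B0 with hLLs | hLLb
  · -- bounded discriminant
    apply hfin (Real.exp B0) (by linarith)
    have h1 : LD ^ N ≤ CL * D ^ ε :=
      (pow_le_pow_right₀ hlogD (by omega)).trans hLDN
    have h2 : 1 ≤ Real.exp B0 * W := by
      rw [hW, ← Real.exp_add]
      apply Real.one_le_exp
      have : LL / (8 * al ^ 2) ≤ LL := div_le_self hLL0 (by nlinarith only [hal4])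
      linarith
    calc Cl ≤ Bn N * S * LD ^ N := htriv
      _ ≤ Bn N * S * (CL * D ^ ε) := mul_le_mul_of_nonneg_left h1 (by positivity)
      _ = Bn N * S * (CL * D ^ ε) * 1 := by ring
      _ ≤ Bn N * S * (CL * D ^ ε) * (Real.exp B0 * W) :=
          mul_le_mul_of_nonneg_left h2 (by positivity)
      _ = _ := by ring
  · -- the main case
    replace hdE := hdE.resolve_right (not_le.mpr hbig)
    have hlog2 : (0 : ℝ) < Real.log 2 := Real.log_pos (by norm_num)
    have hlog2' : Real.log 2 ≤ 1 := by linarith [Real.log_two_lt_d9]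
    have hddbig : (w : ℝ) * (j0 + 1) < Real.log dd := by
      have h1 : B0 / (2 * al) < LL / (2 * al) := div_lt_div_of_pos_right hLLb (by positivity)
      have h2 : B0 / (2 * al) = w * (j0 + 1) := by
        rw [hB0]; field_simp
      linarith
    have hw0 : (0 : ℝ) < w := by exact_mod_cast hw1
    set j := scl w d with hj
    have hjup := pow_log_scl (w := w) hd0
    have hjlow := log_lt_scl hw1 hd0
    rw [← hj, ← hdd] at hjup hjlow
    have hjj0 : j0 ≤ j := by
      by_contra hcon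
      push Not at hcon
      have h1 : (j : ℝ) + 1 ≤ j0 := by exact_mod_cast hcon
      have h2 : ((j : ℝ) + 1) * w * Real.log 2 ≤ (j0 : ℝ) * w * 1 := by
        apply mul_le_mul _ hlog2' hlog2.le (by positivity)
        exact mul_le_mul_of_nonneg_right h1 hw0.le
      nlinarith only [h1, h2, hjlow, hddbig, hw0]
    have hj30 : 30 ≤ j := hj0.trans hjj0
    have hjr : (30 : ℝ) ≤ j := by exact_mod_cast hj30
    -- the sign
    obtain ⟨e, he, hpar⟩ : ∃ e : ℝ, (e = 1 ∨ e = -1) ∧
        ((Even (finrank ℚ L) ∧ e = -1) ∨ (Odd (finrank ℚ L) ∧ e = 1)) := by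
      rcases Nat.even_or_odd (finrank ℚ L) with h | h
      · exact ⟨-1, Or.inr rfl, Or.inl ⟨h, rfl⟩⟩
      · exact ⟨1, Or.inl rfl, Or.inr ⟨h, rfl⟩⟩
    have hgood := good_primes hds hdE hjj0 e he
    rw [← hj] at hgood
    set P := PPr (2 ^ j) with hP
    set G1 := P.filter (fun q => jchi d q ≠ e) with hG1
    set G := G1.filter (fun q => ¬ q ∣ (discr L).natAbs) with hG
    have hram := card_ramified_le' (L := L) (G1.filter (fun q => q ∣ (discr L).natAbs)) (by
      intro p hp
      rw [mem_filter, hG1, mem_filter, hP, mem_PPr] at hp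
      exact ⟨hp.1.1.1, hp.2⟩)
    rw [← hDL, ← hLL] at hram
    have hsplit : (G1.card : ℝ) =
        ((G1.filter (fun q => q ∣ (discr L).natAbs)).card : ℝ) + G.card := by
      rw [hG]
      exact_mod_cast (Finset.card_filter_add_card_filter_not
        (fun q => q ∣ (discr L).natAbs)).symm
    have hEV : (l : ℝ) * N * (n - 1) * Real.log ((2 : ℝ) ^ j) + 2 * l * (N : ℝ) ^ 2 ≤
        Real.log T := by
      rw [hlogT, le_div_iff₀ (by linarith), Real.log_pow]
      have h1 : (j : ℝ) * Real.log 2 ≤ LL / (4 * al) := by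
        rw [le_div_iff₀ (by positivity)]
        calc (j : ℝ) * Real.log 2 * (4 * al) = (j : ℝ) * w * Real.log 2 := by rw [hwr]; ring
          _ ≤ Real.log dd := hjup
          _ ≤ LL := hlogddL
      have h2 : (l : ℝ) * N * (n - 1) * (j * Real.log 2) * a ≤ LL / 4 := by
        calc (l : ℝ) * N * (n - 1) * (j * Real.log 2) * a =
            (a * ((l : ℝ) * N * (n - 1))) * (j * Real.log 2) := by ring
          _ ≤ al * (LL / (4 * al)) := mul_le_mul hkal h1 (by positivity) hal0.le
          _ = LL / 4 := by field_simp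
      have h3 : 2 * (l : ℝ) * (N : ℝ) ^ 2 * a ≤ LL / 2 := by
        have e1 : 2 * (l : ℝ) * (N : ℝ) ^ 2 * a = 2 * al := by rw [hal]; ring
        rw [e1]
        have e2 : 4 * al ≤ B0 := by
          rw [hB0]
          have : (2 : ℝ) ≤ w * (j0 + 1) := by
            have h5 : (30 : ℝ) ≤ j0 := by exact_mod_cast hj0
            have h6 : (1 : ℝ) ≤ w := by exact_mod_cast hw1
            nlinarith only [h5, h6]
          nlinarith only [this, hal0]
        linarith
      rw [add_mul]
      linarith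
    have hkey := keyG (L := L) (M := M) hl hn T hT0 hTF G ((2 : ℝ) ^ j)
      (one_le_pow₀ (by norm_num)) (by
      intro p hp
      rw [hG, mem_filter, hG1, mem_filter, hP, mem_PPr] at hp
      obtain ⟨⟨⟨h1, h2, h3⟩, h4⟩, h5⟩ := hp
      refine ⟨h1.ne_zero, by exact_mod_cast h3, ?_⟩
      intro q hq hqp
      rw [(Nat.prime_dvd_prime_iff_eq hq h1).mp hqp]
      exact two_of_jchi hdf h1 h2 h5 e hpar h4) (by
      rw [hNN, ← hnn]; exact hEV)
    rw [hNN, ← hD, ← hLD, ← hCl, ← hS] at hkey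
    have hPc := card_PPr hj30
    rw [← hP] at hPc
    set R : ℝ := (P.card : ℝ) with hR
    have hjLD : (j : ℝ) ≤ LD := by
      have h1 : (j : ℝ) * w * Real.log 2 ≤ LD := hjup.trans (hlogddL.trans hLLD)
      have h2 : (16 : ℝ) ≤ w := by rw [hwr]; linarith
      have h3 : (0.5 : ℝ) ≤ Real.log 2 := by linarith [Real.log_two_gt_d9]
      have h4 : (1 : ℝ) ≤ w * Real.log 2 := by nlinarith only [h2, h3]
      have h5 : (j : ℝ) * 1 ≤ j * (w * Real.log 2) := mul_le_mul_of_nonneg_left h4 (by linarith)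
      linarith
    have h6 : R / 4 * Cl ≤ 3 * LD * BB := by
      calc R / 4 * Cl ≤ (2 * LL + G.card) * Cl := by
            apply mul_le_mul_of_nonneg_right _ hCl0
            linarith
        _ = 2 * LL * Cl + G.card * Cl := by ring
        _ ≤ 2 * LD * BB + BB := by
            apply add_le_add _ hkey
            exact mul_le_mul (by linarith) htriv hCl0 (by linarith)
        _ ≤ 2 * LD * BB + LD * BB := by nlinarith only [hlogD, hBB0]
        _ = _ := by ring
    have hY0 : (0 : ℝ) < 2 ^ j := by positivity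
    have h7 : (2 : ℝ) ^ j * Cl ≤ 48 * LD ^ 2 * BB := by
      have h8 : (2 : ℝ) ^ j ≤ 4 * j * R := by
        rw [div_le_iff₀ (by linarith)] at hPc
        linarith
      calc (2 : ℝ) ^ j * Cl ≤ (4 * j * R) * Cl := mul_le_mul_of_nonneg_right h8 hCl0
        _ = 16 * j * (R / 4 * Cl) := by ring
        _ ≤ 16 * LD * (3 * LD * BB) := by
            apply mul_le_mul (by linarith) h6 (mul_nonneg (div_nonneg (Nat.cast_nonneg _) (by norm_num)) hCl0) (by linarith)
        _ = _ := by ring
    -- 2^j is large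
    have h9 : W⁻¹ ≤ 2 * (2 : ℝ) ^ j := by
      rw [hW, ← Real.exp_neg, neg_neg]
      have e1 : (2 : ℝ) * 2 ^ j = Real.exp (((j : ℝ) + 1) * Real.log 2) := by
        rw [← Real.log_rpow (by norm_num), Real.exp_log (by positivity), Real.rpow_add (by norm_num),
          Real.rpow_natCast, Real.rpow_one]
        ring
      rw [e1, Real.exp_le_exp]
      have e2 : Real.log dd / w ≤ ((j : ℝ) + 1) * Real.log 2 := by
        rw [div_le_iff₀ hw0]
        linarith
      have e3 : LL / (8 * al ^ 2) ≤ Real.log dd / w := by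
        rw [hwr]
        have e4 : LL / (8 * al ^ 2) = LL / (2 * al) / (4 * al) := by
          field_simp; ring
        rw [e4]
        exact div_le_div_of_nonneg_right hbig.le (by positivity)
      linarith
    have h10 : Cl ≤ 96 * LD ^ 2 * BB * W := by
      have e1 : 1 ≤ 2 * (2 : ℝ) ^ j * W := by
        calc (1 : ℝ) = W⁻¹ * W := (inv_mul_cancel₀ hW0.ne').symm
          _ ≤ _ := mul_le_mul_of_nonneg_right h9 hW0.le
      calc Cl = Cl * 1 := (mul_one _).symm
        _ ≤ Cl * (2 * (2 : ℝ) ^ j * W) := mul_le_mul_of_nonneg_left e1 hCl0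
        _ = 2 * ((2 : ℝ) ^ j * Cl) * W := by ring
        _ ≤ 2 * (48 * LD ^ 2 * BB) * W := by
            apply mul_le_mul_of_nonneg_right _ hW0.le
            exact mul_le_mul_of_nonneg_left h7 (by norm_num)
        _ = _ := by ring
    apply hfin 96 (by linarith [Real.exp_pos B0])
    calc Cl ≤ 96 * LD ^ 2 * BB * W := h10
      _ = Bn N * 96 * S * LD ^ (N + 2) * W := by rw [hBB]; ring
      _ ≤ Bn N * 96 * S * (CL * D ^ ε) * W := by
          apply mul_le_mul_of_nonneg_right _ hW0.le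
          exact mul_le_mul_of_nonneg_left hLDN (by positivity)
      _ = _ := by ring

end Pool.Agent.Lib.MP_695920_nt
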